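import Pool.Agent.Lib.MP_07b2d0_nt.G3.C1

/-!
The function field of the curve: generators and homomorphisms.
-/

set_option autoImplicit false

namespace Pool.Agent.Lib.MP_07b2d0_nt.G3

open Polynomial Fh
open scoped IntermediateField

variable {L E : Type} [Field L] [Field E] [Algebra L E] {a : Co L} {s t : E}

/-- The equation is a monic cubic in `t`. -/
theorem c1b_int (he : (a.up E).F s t = 0) {R : Type} [CommRing R] [Algebra L R] [Algebra R E]
    [IsScalarTower L R E] {s₀ : R} (hs : algebraMap R E s₀ = s) : IsIntegral R t := by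
  refine ⟨X ^ 3 + C (s₀ ^ 2 + algebraMap L R a.q2) * X ^ 2 +
    C (2 * algebraMap L R a.c * s₀ + algebraMap L R a.r1) * X +
    C (s₀ ^ 3 + algebraMap L R a.q0 * s₀ ^ 2 + algebraMap L R a.r0 * s₀ +
      algebraMap L R a.c ^ 2 + algebraMap L R a.e), by monicity!, ?_⟩
  simp only [Co.F, Co.map] at he
  rw [← aeval_def]
  simp only [map_add, map_mul, map_pow, map_ofNat, aeval_X, aeval_C, hs,
    ← IsScalarTower.algebraMap_apply]
  linear_combination he

theorem c1b_top (h : Cv a s t) : L⟮s⟯⟮t⟯ = ⊤ := by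
  rw [← IntermediateField.restrictScalars_eq_top_iff (K := L),
    IntermediateField.adjoin_simple_adjoin_simple, h.top]

theorem c1b_int' (h : Cv a s t) : IsIntegral L⟮s⟯ t :=
  c1b_int h.eq (IntermediateField.AdjoinSimple.algebraMap_gen L s)

/-- The elements of `L[s, t]` are values of polynomials. -/
theorem c1b_mem {z : E} : z ∈ Algebra.adjoin L {s, t} ↔
    ∃ p : MvPolynomial (Fin 2) L, MvPolynomial.aeval ![s, t] p = z := by
  have e : ({s, t} : Set E) = Set.range ![s, t] := by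
    rw [Matrix.range_cons, Matrix.range_cons, Matrix.range_empty, Set.union_empty]
    rfl
  rw [e, Algebra.adjoin_range_eq_range_aeval]
  rfl

theorem c1b_sm (h : a.Sm) : a.swap.Sm := by
  obtain ⟨A, B, C, e⟩ := h.bez (algebraMap L (MvPolynomial (Fin 2) L)) (MvPolynomial.X 1)
    (MvPolynomial.X 0)
  rw [← Co.swap_F, ← Co.swap_Fs, add_right_comm, ← Co.swap_Ft (a.map _)] at e
  exact ⟨_, _, _, e⟩

theorem Cv.fd (h : Cv a s t) : FiniteDimensional L⟮s⟯ E := by
  have h1 := IntermediateField.adjoin.finiteDimensional (c1b_int' h)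
  rw [c1b_top h] at h1
  exact IntermediateField.topEquiv.toLinearEquiv.finiteDimensional

theorem Cv.swap (h : Cv a s t) : Cv a.swap t s := by
  have he : (a.swap.up E).F t s = 0 := (Co.swap_F (a.up E) s t).trans h.eq
  refine ⟨c1b_sm h.sm, fun ht => h.trans ?_, he, by rw [Set.pair_comm, h.top]⟩
  have h1 := IntermediateField.adjoin.finiteDimensional ht.isIntegral
  exact (isIntegral_trans s
    (c1b_int he (IntermediateField.AdjoinSimple.algebraMap_gen L t))).isAlgebraic

/-- Every element is a quotient. -/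
theorem Cv.frac (h : Cv a s t) (z : E) :
    ∃ y ∈ Algebra.adjoin L {s, t}, ∃ D : L[X], D ≠ 0 ∧ z * aeval s D = y := by
  have hz : z ∈ Algebra.adjoin L⟮s⟯ {t} := by
    rw [← IntermediateField.adjoin_simple_toSubalgebra_of_isAlgebraic (c1b_int' h).isAlgebraic,
      c1b_top h]
    trivial
  have hs : ∀ D : L[X], aeval s D ∈ Algebra.adjoin L {s, t} := fun D =>
    Algebra.adjoin_mono (Set.singleton_subset_iff.2 (Set.mem_insert _ _))
      (aeval_mem_adjoin_singleton L s)
  induction hz using Algebra.adjoin_induction with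
  | mem x hx =>
    exact ⟨x, Algebra.subset_adjoin (Set.mem_insert_of_mem _ hx), 1, one_ne_zero, by simp⟩
  | algebraMap r =>
    obtain ⟨p, q, e⟩ := (IntermediateField.mem_adjoin_simple_iff L (r : E)).1 r.2
    change ∃ y ∈ _, ∃ D : L[X], D ≠ 0 ∧ (r : E) * aeval s D = y
    rcases eq_or_ne q 0 with rfl | hq
    · exact ⟨0, zero_mem _, 1, one_ne_zero, by simp [e]⟩
    · refine ⟨_, hs p, q, hq, ?_⟩
      rw [e, div_mul_cancel₀ _ fun e' => hq (transcendental_iff.1 h.trans q e')]
  | add x y _ _ hx hy =>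
    obtain ⟨u, hu, D, hD, e⟩ := hx
    obtain ⟨u', hu', D', hD', e'⟩ := hy
    refine ⟨_, add_mem (mul_mem hu (hs D')) (mul_mem hu' (hs D)), D * D', mul_ne_zero hD hD', ?_⟩
    rw [map_mul, ← e, ← e']
    ring
  | mul x y _ _ hx hy =>
    obtain ⟨u, hu, D, hD, e⟩ := hx
    obtain ⟨u', hu', D', hD', e'⟩ := hy
    refine ⟨_, mul_mem hu hu', D * D', mul_ne_zero hD hD', ?_⟩
    rw [map_mul, ← e, ← e']
    ring

theorem Cv.ext (h : Cv a s t) {E' : Type} [Field E'] {f g : E →+* E'}
    (h0 : ∀ c, f (algebraMap L E c) = g (algebraMap L E c)) (h1 : f s = g s) (h2 : f t = g t) :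
    f = g := by
  ext z
  have hz : z ∈ IntermediateField.adjoin L {s, t} := h.top ▸ IntermediateField.mem_top
  induction hz using IntermediateField.adjoin_induction with
  | mem x hx =>
    rcases hx with rfl | rfl
    · exact h1
    · exact h2
  | algebraMap c => exact h0 c
  | add x y _ _ hx hy => rw [map_add, map_add, hx, hy]
  | inv x _ hx => rw [map_inv₀, map_inv₀, hx]
  | mul x y _ _ hx hy => rw [map_mul, map_mul, hx, hy]

theorem Cv.lift (h : Cv a s t) {L' E' : Type} [Field L'] [Field E'] [Algebra L' E']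
    (σ : L →+* L') {s' t' : E'} (ht : Transcendental L' s')
    (he : ((a.map σ).up E').F s' t' = 0) :
    ∃ f : E →+* E', (∀ c, f (algebraMap L E c) = algebraMap L' E' (σ c)) ∧ f s = s' ∧ f t = t' := by
  set φ : MvPolynomial (Fin 2) L →+* E' :=
    MvPolynomial.eval₂Hom ((algebraMap L' E').comp σ) ![s', t'] with hφ
  set ψ : MvPolynomial (Fin 2) L →+* E :=
    (MvPolynomial.aeval (R := L) ![s, t]).toRingHom with hψ
  have k1 : ∀ p, ψ p = 0 → φ p = 0 := fun p hp => by
    obtain ⟨q, rfl⟩ := pol_dvd h.sm h.trans h.eq hp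
    rw [map_mul, hφ, Co.eval_pol, ← Co.map_map, he, zero_mul]
  have a1 : ∀ D : L[X], ψ (aeval (MvPolynomial.X 0) D) = aeval s D := fun D => by
    rw [hψ, AlgHom.toRingHom_eq_coe, RingHom.coe_coe, ← aeval_algHom_apply]
    simp
  have a2 : ∀ D : L[X], φ (aeval (MvPolynomial.X 0) D) = aeval s' (D.map σ) := fun D => by
    rw [aeval_def, aeval_def, hom_eval₂, eval₂_map]
    congr 1
    · ext c
      simp [hφ]
    · simp [hφ]
  have k2 : ∀ p, φ p = 0 → ψ p = 0 := fun p hp => by
    by_contra hne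
    obtain ⟨y, hy, D, hD, e⟩ := h.frac (ψ p)⁻¹
    obtain ⟨q, rfl⟩ := c1b_mem.1 hy
    have e1 := k1 (p * q - aeval (MvPolynomial.X 0) D) (by
      rw [map_sub, map_mul, a1, show ψ q = _ from e.symm, mul_inv_cancel_left₀ hne, sub_self])
    rw [map_sub, map_mul, hp, zero_mul, zero_sub, neg_eq_zero, a2] at e1
    exact hD ((Polynomial.map_eq_zero_iff σ.injective).1 (transcendental_iff.1 ht _ e1))
  have : IsFractionRing ψ.range E := IsFractionRing.of_field _ _ fun z => by
    obtain ⟨y, hy, D, hD, e⟩ := h.frac z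
    refine ⟨⟨y, c1b_mem.1 hy⟩, ⟨aeval s D, _, a1 D⟩, ?_⟩
    exact eq_div_of_mul_eq (fun e' => hD (transcendental_iff.1 h.trans D e')) e
  obtain ⟨g, hg⟩ : ∃ g : ψ.range →+* E', ∀ p, g (ψ.rangeRestrict p) = φ p :=
    ⟨ψ.rangeRestrict.liftOfSurjective ψ.rangeRestrict_surjective
      ⟨φ, fun p hp => k1 p (congrArg Subtype.val hp)⟩,
      fun p => RingHom.liftOfSurjective_comp_apply _ _ _ p⟩
  have gi : Function.Injective g := (injective_iff_map_eq_zero g).2 fun z hz => by
    obtain ⟨p, rfl⟩ := ψ.rangeRestrict_surjective z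
    exact Subtype.ext (k2 p (by rwa [hg] at hz))
  have hf : ∀ p, IsFractionRing.lift gi (ψ p) = φ p := fun p =>
    (IsFractionRing.lift_algebraMap gi (ψ.rangeRestrict p)).trans (hg p)
  refine ⟨IsFractionRing.lift gi, fun c => ?_, ?_, ?_⟩
  · simpa [hφ, hψ] using hf (MvPolynomial.C c)
  · simpa [hφ, hψ] using hf (MvPolynomial.X 0)
  · simpa [hφ, hψ] using hf (MvPolynomial.X 1)

theorem Cv.exists_act (h : Cv a s t) (σ : L ≃+* L) (hσ : a.map (σ : L →+* L) = a) :
    ∃ S : E ≃+* E, (∀ c, S (algebraMap L E c) = algebraMap L E (σ c)) ∧ S s = s ∧ S t = t := by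
  have hσ' : a.map (σ.symm : L →+* L) = a := by
    conv_lhs => rw [← hσ, Co.map_map, RingEquiv.symm_comp, Co.map_id]
  obtain ⟨f, f0, f1, f2⟩ := h.lift (σ : L →+* L) h.trans (by rw [hσ]; exact h.eq)
  obtain ⟨g, g0, g1, g2⟩ := h.lift (σ.symm : L →+* L) h.trans (by rw [hσ']; exact h.eq)
  exact ⟨RingEquiv.ofRingHom f g
    (h.ext (fun c => by simp [f0, g0]) (by simp [f1, g1]) (by simp [f2, g2]))
    (h.ext (fun c => by simp [f0, g0]) (by simp [f1, g1]) (by simp [f2, g2])), f0, f1, f2⟩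

/-- The basis `1, t, th`. -/
theorem Cv.basis (h : Cv a s t) {z : E} (hz : z ∈ Algebra.adjoin L {s, t}) :
    ∃ A B C : L[X], z = aeval s A + aeval s B * t + aeval s C * (a.up E).th s t := by
  obtain ⟨p, rfl⟩ := c1b_mem.1 hz
  clear hz
  induction p using MvPolynomial.induction_on with
  | C c => exact ⟨C c, 0, 0, by simp⟩
  | add p q hp hq =>
    obtain ⟨A, B, D, e⟩ := hp
    obtain ⟨A', B', D', e'⟩ := hq
    refine ⟨A + A', B + B', D + D', ?_⟩
    rw [map_add, e, e', map_add, map_add, map_add]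
    ring
  | mul_X p n hp =>
    obtain ⟨A, B, D, e⟩ := hp
    rw [map_mul, e, MvPolynomial.aeval_X]
    fin_cases n
    · refine ⟨A * X, B * X, D * X, ?_⟩
      simp only [map_mul, aeval_X, Fin.zero_eta, Matrix.cons_val_zero]
      ring
    · refine ⟨-(B * (2 * C a.c * X + C a.r1)) -
        D * (X ^ 3 + C a.q0 * X ^ 2 + C a.r0 * X + C a.c ^ 2 + C a.e),
        A - B * (X ^ 2 + C a.q2), B, ?_⟩
      have he := h.eq
      simp only [Co.F, Co.map] at he
      simp only [map_mul, map_add, map_sub, map_neg, map_pow, map_ofNat, aeval_X, aeval_C, Co.th,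
        Co.map, Fin.mk_one, Matrix.cons_val_one, Matrix.cons_val_zero]
      linear_combination aeval s D * he

end Pool.Agent.Lib.MP_07b2d0_nt.G3
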