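import Pool.Agent.Lib.MP_07b2d0_nt.G3.IEv

/-!
The even case.
-/

set_option autoImplicit false
set_option linter.unusedSectionVars false

namespace Pool.Agent.Lib.MP_07b2d0_nt.G3

open Pool.Agent.Lib.MP_6adaea_nt W PowerSeries
open scoped Polynomial

/-- The algebraic core: `A` is generated by `U`, `W` over `O`, and `θ` maps it to `κ⟦X⟧`. -/
theorem even_alg {O A κ : Type} [CommRing O] [CommRing A] [Algebra O A] [CommRing κ] [IsDomain κ]
    (r : O →+* κ) (θ : A →+* κ⟦X⟧) (hθ : ∀ c, θ (algebraMap O A c) = C (r c)) {U W : A}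
    (hU : θ U = X) (hW : (θ W).order = 2) (htop : Algebra.adjoin O {U, W} = ⊤) {Ψ : O[X]}
    (hrel : U ^ 2 + W * Polynomial.aeval W Ψ ∈ (RingHom.ker r).map (algebraMap O A)) :
    (∀ y, θ y = 0 → y ∈ (RingHom.ker r).map (algebraMap O A)) ∧
    ∀ (k : ℕ), (Ψ.map r).natDegree = k → Even k → 0 < k → Ψ.coeff 0 = 1 →
      ∀ (y y' : A) (c : O) (N : ℕ), r c ≠ 0 → y * y' = c • W ^ N →
        ∃ t : ℕ, (θ y).order = (2 * t : ℕ) := by
  set J := (RingHom.ker r).map (algebraMap O A)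
  have hJ : ∀ y ∈ J, θ y = 0 := fun y hy =>
    (Ideal.map_le_iff_le_comap.2 (fun c hc => by
      rw [Ideal.mem_comap, RingHom.mem_ker, hθ, RingHom.mem_ker.1 hc, map_zero]) :
        J ≤ RingHom.ker θ) hy
  have hae : ∀ a : O[X], θ (Polynomial.aeval W a) = Polynomial.aeval (θ W) (a.map r) := fun a => by
    induction a using Polynomial.induction_on' with
    | add a b ha hb => rw [map_add, map_add, ha, hb, Polynomial.map_add, map_add]
    | monomial n c => simp [hθ, Polynomial.aeval_monomial]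
  have hz : ∀ a : O[X], a.map r = 0 → Polynomial.aeval W a ∈ J := fun a ha => by
    rw [Polynomial.aeval_eq_sum_range]
    refine sum_mem fun i _ => ?_
    rw [Algebra.smul_def]
    refine Ideal.mul_mem_right _ _ (Ideal.mem_map_of_mem _ ?_)
    rw [RingHom.mem_ker, ← Polynomial.coeff_map, ha, Polynomial.coeff_zero]
  have nf : ∀ y : A, ∃ a b : O[X], y - (Polynomial.aeval W a + Polynomial.aeval W b * U) ∈ J :=
    fun y => by
    induction (htop ▸ Algebra.mem_top : y ∈ Algebra.adjoin O {U, W})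
      using Algebra.adjoin_induction with
    | mem x hx =>
      rcases hx with rfl | rfl
      · exact ⟨0, 1, by simp⟩
      · exact ⟨Polynomial.X, 0, by simp⟩
    | algebraMap c => exact ⟨Polynomial.C c, 0, by simp⟩
    | add x y _ _ hx hy =>
      obtain ⟨a, b, h⟩ := hx
      obtain ⟨a', b', h'⟩ := hy
      refine ⟨a + a', b + b', ?_⟩
      refine (congrArg (· ∈ J) ?_).mp (add_mem h h')
      simp only [map_add]
      ring
    | mul x y _ _ hx hy =>
      obtain ⟨a, b, h⟩ := hx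
      obtain ⟨a', b', h'⟩ := hy
      refine ⟨a * a' - Polynomial.X * Ψ * b * b', a * b' + a' * b, ?_⟩
      refine (congrArg (· ∈ J) ?_).mp (add_mem (add_mem (J.mul_mem_right y h) (J.mul_mem_left
        (Polynomial.aeval W a + Polynomial.aeval W b * U) h')) (J.mul_mem_left
        (Polynomial.aeval W b * Polynomial.aeval W b') hrel))
      simp only [map_add, map_sub, map_mul, Polynomial.aeval_X]
      ring
  have nf' : ∀ {y : A} {a b : O[X]}, y - (Polynomial.aeval W a + Polynomial.aeval W b * U) ∈ J →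
      θ y = Polynomial.aeval (θ W) (a.map r) + Polynomial.aeval (θ W) (b.map r) * X :=
    fun {y a b} h => by
    have := hJ _ h
    rwa [map_sub, sub_eq_zero, map_add, map_mul, hae, hae, hU] at this
  refine ⟨fun y hy => ?_, fun k hk he h0 h1 y y' c N hc hy => ?_⟩
  · obtain ⟨a, b, h⟩ := nf y
    obtain ⟨ha, hb⟩ := parity hW ((nf' h).symm.trans hy)
    simpa using add_mem h (add_mem (hz a ha) (J.mul_mem_right U (hz b hb)))
  obtain ⟨a, b, h⟩ := nf y
  obtain ⟨a', b', h'⟩ := nf y'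
  have e0 := hJ _ hrel
  rw [map_add, map_pow, map_mul, hU, hae] at e0
  have e1 := congrArg θ hy
  rw [map_mul, nf' h, nf' h', Algebra.smul_def, map_mul, map_pow, hθ] at e1
  obtain ⟨e2, e3⟩ := parity hW (a := a.map r * a'.map r - Polynomial.X * Ψ.map r * b.map r * b'.map r
    - Polynomial.C (r c) * Polynomial.X ^ N) (b := a.map r * b'.map r + a'.map r * b.map r) (by
    simp only [map_add, map_sub, map_mul, map_pow, Polynomial.aeval_X, Polynomial.aeval_C,
      ← C_eq_algebraMap]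
    linear_combination e1 - (Polynomial.aeval (θ W) (b.map r) * Polynomial.aeval (θ W) (b'.map r)) * e0)
  have hb := norm_mono (a := a.map r) (b := b.map r) (c := r c ^ 2) (N := 2 * N)
    (n' := a'.map r ^ 2 + Polynomial.X * Ψ.map r * b'.map r ^ 2) hk he h0
    (by rw [Polynomial.coeff_map, h1, map_one]) (pow_ne_zero _ hc) (by
      rw [map_pow, pow_mul']
      linear_combination (a.map r * a'.map r - Polynomial.X * Ψ.map r * b.map r * b'.map r
        + Polynomial.C (r c) * Polynomial.X ^ N) * e2 +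
        Polynomial.X * Ψ.map r * (a.map r * b'.map r + a'.map r * b.map r) * e3)
  rw [nf' h, hb, map_zero, zero_mul, add_zero]
  refine order_aeval hW fun ha => ?_
  rw [ha, hb] at e2
  simp [hc] at e2

theorem adjoin_pair_top {O B : Type} [CommRing O] [CommRing B] [Algebra O B] (U W : B) :
    Algebra.adjoin O {(⟨U, Algebra.subset_adjoin (by simp)⟩ : Algebra.adjoin O {U, W}),
      ⟨W, Algebra.subset_adjoin (by simp)⟩} = ⊤ := by
  rw [← Algebra.adjoin_adjoin_coe_preimage]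
  congr 1
  ext ⟨x, hx⟩
  simp

variable {Ω F : Type} [Field Ω] [Field F] [Algebra Ω F] [IsAlgClosed Ω] [IsFF Ω F] [CharZero Ω]
  {ν : AbsoluteValue Ω ℝ}

theorem ieven_abs (hna : IsNonarchimedean ν) (K : Subfield Ω) {lam : ℝ} (hl : lam < 1)
    (hd : ∀ y ∈ K, ν y < 1 → ν y ≤ lam) {P : Place Ω F} {U W φ ψ : F} (hU : P.ord U = 1)
    (hW : P.Ge W 1) {Ψ : (intO hna K)[X]} {k : ℕ} (he : Even k) (h0 : 0 < k) (h1 : Ψ.coeff 0 = 1)
    (hk : (Ψ.map (Ideal.Quotient.mk (intM hna K))).natDegree = k) {ι : Type} [Fintype ι]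
    (m : ι → intO hna K) (a b : ι → ℕ) (hm : ∀ i, ν (m i).1 < 1)
    (hrel : U ^ 2 + W * (Polynomial.aeval W Ψ + U * ∑ i, m i • (U ^ a i * W ^ b i)) = 0)
    (hφ : φ * ψ = 1) {D : ℕ} (h2 : φ * W ^ D ∈ Algebra.adjoin K {U, W})
    (h3 : ψ * W ^ D ∈ Algebra.adjoin K {U, W}) : Even (P.ord φ) := by
  let A := Algebra.adjoin (intO hna K) {U, W}
  let U' : A := ⟨U, Algebra.subset_adjoin (by simp)⟩
  let W' : A := ⟨W, Algebra.subset_adjoin (by simp)⟩
  let S' : A := ∑ i, m i • (U' ^ a i * W' ^ b i)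
  have hS : (S' : F) = ∑ i, m i • (U ^ a i * W ^ b i) := by simp [S', U', W']
  have hae : ∀ p : (intO hna K)[X], ((Polynomial.aeval W' p : A) : F) = Polynomial.aeval W p :=
    fun p => (Polynomial.aeval_algHom_apply A.val W' p).symm
  have hΨ : Polynomial.aeval W' Ψ = 1 + W' * Polynomial.aeval W' Ψ.divX := by
    conv_lhs => rw [← Polynomial.X_mul_divX_add Ψ, h1]
    simp [add_comm]
  have hrel' : U' ^ 2 + W' * (Polynomial.aeval W' Ψ + U' * S') = 0 :=
    Subtype.ext (by simpa [hae, hS] using hrel)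
  obtain ⟨Θ, t1, t2⟩ := exists_exp (intO hna K) hU hW (-U').2 (-S').2
    (-Polynomial.aeval W' Ψ.divX).2 (congrArg Subtype.val (show W' = U' * -U' + W' * (U' * -S' +
      W' * -Polynomial.aeval W' Ψ.divX) by linear_combination hrel' - W' * hΨ))
  let r := Ideal.Quotient.mk (intM hna K)
  let θ : A →+* (intO hna K ⧸ intM hna K)⟦X⟧ := (map r).comp Θ.toRingHom
  have hθ : ∀ c, θ (algebraMap _ A c) = C (r c) := fun c =>
    (congrArg (map r) (Θ.commutes c)).trans (map_C r c)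
  have θU : θ U' = X := (congrArg (map r) (t1 U' rfl)).trans (map_X r)
  have θd : ∀ (y : A) (n : ℕ), P.Ge y.1 n → (n : ℕ∞) ≤ (θ y).order := fun y n h =>
    nat_le_order _ _ (X_pow_dvd_iff.1 (by
      have := map_dvd (map r) ((t2 y n).2 h)
      rwa [map_pow, map_X] at this))
  have hA : ∀ y : A, P.Ge y.1 0 := fun y => (t2 y 0).1 (by simp)
  have hE : P.Ge ((Polynomial.aeval W' Ψ + U' * S' - 1 : A) : F) 1 := by
    rw [hΨ, show (1 + W' * Polynomial.aeval W' Ψ.divX + U' * S' - 1 : A) =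
      W' * Polynomial.aeval W' Ψ.divX + U' * S' by ring]
    exact (hW.mul (hA _)).add ((Place.Ge.of_le hU.ge).mul (hA _))
  have θW : (θ W').order = 2 := by
    have e1 : (θ (Polynomial.aeval W' Ψ + U' * S')).order = 0 := by
      have := one_le_order_iff_constCoeff_eq_zero.1 (θd _ 1 hE)
      by_contra h
      rw [← ne_eq, order_ne_zero_iff_constCoeff_eq_zero] at h
      rw [map_sub, map_sub, h] at this
      simp at this
    have e2 := congrArg (fun y => (θ y).order) (eq_neg_of_add_eq_zero_right hrel')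
    simpa only [map_mul, order_mul, e1, add_zero, map_neg, order_neg, map_pow, θU, order_X_pow,
      Nat.cast_ofNat] using e2
  have U0 := ne_of_ord hU
  obtain ⟨E0, oE⟩ := Place.ord_add_of_ge (v := P) (f := 1) one_ne_zero (by simpa using hE)
  rw [P.ord_one] at oE
  have eW : W * (1 + (Polynomial.aeval W Ψ + U * S'.1 - 1)) = -U ^ 2 := by
    rw [hS]; linear_combination hrel
  have W0 : W ≠ 0 := left_ne_zero_of_mul (eW ▸ neg_ne_zero.2 (pow_ne_zero 2 U0))
  have oW : P.ord W = 2 := by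
    have := congrArg P.ord eW
    simp only [hae] at E0 oE
    rw [P.ord_mul W0 E0, oE, P.ord_neg, P.ord_pow, hU] at this
    simpa using this
  have hker : RingHom.ker r = intM hna K := Ideal.mk_ker
  obtain ⟨sat, main⟩ := even_alg r θ hθ θU θW (Ψ := Ψ)
    (adjoin_pair_top U W) (by
      rw [show U' ^ 2 + W' * Polynomial.aeval W' Ψ = -(W' * U') * S' by linear_combination hrel']
      refine Ideal.mul_mem_left _ _ (sum_mem fun i _ => ?_)
      rw [Algebra.smul_def]
      exact Ideal.mul_mem_right _ _ (Ideal.mem_map_of_mem _ (hker.ge (hm i))))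
  have prim : ∀ y : A, y.1 ≠ 0 → ∃ (c : intO hna K) (y' : A), y = c • y' ∧ θ y' ≠ 0 :=
    fun y hy => by
    by_contra hc
    have h4 : ∀ n : ℕ, ∃ (c : intO hna K) (y' : A), y = c • y' ∧ ν c.1 ≤ lam ^ n := fun n => by
      induction n with
      | zero => exact ⟨1, y, (one_smul _ _).symm, by simp⟩
      | succ n ih =>
        obtain ⟨c, y', h5, h6⟩ := ih
        obtain ⟨d, h7, y'', rfl⟩ := mem_map_intM hna K (hker ▸ sat y'
          (by_contra fun h => hc ⟨c, y', h5, h⟩))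
        refine ⟨c * d, y'', by rw [h5, mul_smul], ?_⟩
        change ν (c.1 * d.1) ≤ _
        rw [map_mul, pow_succ]
        exact mul_le_mul h6 (hd _ d.2.1 h7) (ν.nonneg _) ((ν.nonneg _).trans h6)
    have h5 : Θ y ≠ 0 := fun h => by
      have := ((t2 y (P.ord y.1 + 1).toNat).1 (h ▸ dvd_zero _)).le hy
      omega
    obtain ⟨j, hj⟩ := exists_coeff_ne_zero_iff_ne_zero.2 h5
    obtain ⟨n, hn⟩ := exists_pow_lt_of_lt_one (ν.pos (show (coeff j (Θ y)).1 ≠ 0 from
      fun h => hj (Subtype.ext h))) hl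
    obtain ⟨c, y', h6, h7⟩ := h4 n
    rw [h6, map_smul, coeff_smul, smul_eq_mul, Subring.coe_mul, map_mul] at hn
    exact absurd hn (not_lt.2 ((mul_le_of_le_one_right (ν.nonneg _)
      (coeff j (Θ y')).2.2).trans h7))
  have φ0 := left_ne_zero_of_mul_eq_one hφ
  have ψ0 := right_ne_zero_of_mul_eq_one hφ
  have scal : ∀ {f : F}, f ≠ 0 → f * W ^ D ∈ Algebra.adjoin K {U, W} → ∃ (c : Ω) (y : A),
      c ∈ K ∧ c ≠ 0 ∧ y.1 = algebraMap Ω F c * (f * W ^ D) ∧ θ y ≠ 0 := fun {f} f0 hf => by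
    obtain ⟨c, c0, hc⟩ := exists_scale hna K hf
    have h4 : c • (f * W ^ D) = algebraMap Ω F c.1 * (f * W ^ D) := Algebra.smul_def _ _
    have h5 : c • (f * W ^ D) ≠ 0 :=
      h4 ▸ mul_ne_zero (by simpa using c0) (mul_ne_zero f0 (pow_ne_zero _ W0))
    obtain ⟨d, y, h6, h7⟩ := prim ⟨_, hc⟩ h5
    have h8 : c • (f * W ^ D) = algebraMap Ω F d.1 * y.1 :=
      (congrArg Subtype.val h6).trans (Algebra.smul_def _ _)
    have d0 : d.1 ≠ 0 := fun h => h5 (by rw [h8, h, map_zero, zero_mul])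
    refine ⟨c.1 / d.1, y, div_mem c.2.1 d.2.1, div_ne_zero c0 d0, ?_, h7⟩
    rw [map_div₀, div_mul_eq_mul_div, ← h4, h8, mul_div_cancel_left₀ _ (by simpa using d0)]
  obtain ⟨c, y, cK, c0, hy, θy⟩ := scal φ0 h2
  obtain ⟨c', y', cK', c0', hy', θy'⟩ := scal ψ0 h3
  have e1 : y.1 * y'.1 = algebraMap Ω F (c * c') * W ^ (2 * D) := by
    rw [hy, hy', map_mul]
    linear_combination (algebraMap Ω F c * algebraMap Ω F c' * W ^ (2 * D)) * hφ
  have θW0 : θ W' ≠ 0 := fun h => by simp [h] at θW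
  have cc := mul_ne_zero c0 c0'
  have e2 : ν (c * c') ≤ 1 := by
    by_contra h
    rw [not_le] at h
    let d : intO hna K := ⟨(c * c')⁻¹, inv_mem (mul_mem cK cK'), by
      rw [map_inv₀]; exact inv_le_one_of_one_le₀ h.le⟩
    have h4 : W' ^ (2 * D) = algebraMap _ A d * (y * y') := Subtype.ext (by
      change W ^ (2 * D) = algebraMap Ω F (c * c')⁻¹ * (y.1 * y'.1)
      rw [e1, ← mul_assoc, ← map_mul, inv_mul_cancel₀ cc, map_one, one_mul])
    have h5 : r d = 0 := Ideal.Quotient.eq_zero_iff_mem.2 (by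
      change ν (c * c')⁻¹ < 1
      rw [map_inv₀]; exact inv_lt_one_of_one_lt₀ h)
    have h6 := congrArg θ h4
    rw [map_pow, map_mul, hθ, h5, map_zero, zero_mul] at h6
    exact pow_ne_zero _ θW0 h6
  let d : intO hna K := ⟨c * c', mul_mem cK cK', e2⟩
  have e3 : y * y' = d • W' ^ (2 * D) := Subtype.ext (e1.trans (Algebra.smul_def _ _).symm)
  have e4 := congrArg θ e3
  rw [map_mul, Algebra.smul_def, map_mul, hθ, map_pow] at e4
  have d0 : r d ≠ 0 := fun h => mul_ne_zero θy θy' (by rw [e4, h, map_zero, zero_mul])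
  obtain ⟨t, ht⟩ := main k hk he h0 h1 y y' d _ d0 e3
  have y0 : y.1 ≠ 0 := fun h => θy (by rw [show y = 0 from Subtype.ext h, map_zero])
  have y0' : y'.1 ≠ 0 := fun h => θy' (by rw [show y' = 0 from Subtype.ext h, map_zero])
  have o1 : P.ord y.1 = P.ord φ + D * 2 := by
    rw [hy, P.ord_mul (by simpa using c0) (mul_ne_zero φ0 (pow_ne_zero _ W0)),
      P.ord_mul φ0 (pow_ne_zero _ W0), P.ord_const, P.ord_pow, oW, zero_add]
  have o2 := congrArg P.ord e1
  rw [P.ord_mul y0 y0', P.ord_mul (by simpa using cc) (pow_ne_zero _ W0), P.ord_const, P.ord_pow,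
    oW] at o2
  have o3 := (hA y).le y0
  have o4 := (hA y').le y0'
  have o5 := θd y (P.ord y.1).toNat (Place.Ge.of_le (by omega))
  have o6 := θd y' (P.ord y'.1).toNat (Place.Ge.of_le (by omega))
  have o7 := congrArg order e4
  rw [order_mul, order_mul, order_pow, θW, ht, ← coe_toNat_order θy', ← monomial_zero_eq_C_apply,
    order_monomial_of_ne_zero _ _ d0, nsmul_eq_mul] at o7
  rw [ht, Nat.cast_le] at o5
  rw [← coe_toNat_order θy', Nat.cast_le] at o6
  have o8 : 2 * t + (θ y').order.toNat = 0 + 2 * D * 2 := by exact_mod_cast o7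
  exact ⟨t - D, by push_cast at o2; omega⟩

/-- The even case of step I. -/
theorem ieven_core (hna : IsNonarchimedean ν) (hr : ∀ T : Finset Ω, ∃ lam : ℝ, lam < 1 ∧
      ∀ z ∈ Subfield.closure (T : Set Ω), ν z < 1 → ν z ≤ lam)
    {P : Place Ω F} {U W φ ψ : F} (hU : P.ord U = 1) (hW : P.Ge W 1)
    {Ψ : Polynomial Ω} {k : ℕ} (he : Even k) (h0 : 0 < k) (h1 : Ψ.coeff 0 = 1)
    (hc : ∀ j, ν (Ψ.coeff j) ≤ 1) (hk : ν (Ψ.coeff k) = 1) (hk' : ∀ j, k < j → ν (Ψ.coeff j) < 1)
    {ι : Type} [Fintype ι] (m : ι → Ω) (a b : ι → ℕ) (hm : ∀ i, ν (m i) < 1)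
    (hrel : U ^ 2 + W * (Polynomial.aeval W Ψ +
      U * ∑ i, algebraMap _ F (m i) * (U ^ a i * W ^ b i)) = 0)
    (hφ : φ * ψ = 1) {D : ℕ} (h2 : φ * W ^ D ∈ Algebra.adjoin Ω {U, W})
    (h3 : ψ * W ^ D ∈ Algebra.adjoin Ω {U, W}) : Even (P.ord φ) := by
  classical
  obtain ⟨T, hT⟩ := exists_finset h2
  obtain ⟨T', hT'⟩ := exists_finset h3
  let S := T ∪ T' ∪ Ψ.coeffs ∪ Finset.univ.image m
  obtain ⟨lam, h4, h5⟩ := hr S
  let L := Subfield.closure (S : Set Ω)
  have hL : ∀ x ∈ S, x ∈ L := fun x hx => Subfield.subset_closure hx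
  have hΨ : (Ψ.coeffs : Set Ω) ⊆ intO hna L := fun x hx => ⟨hL x (by
    simp [S, Finset.mem_coe.1 hx]), by
      obtain ⟨j, -, rfl⟩ := Polynomial.mem_coeffs_iff.1 hx
      exact hc j⟩
  have e : ∀ j, ((Ψ.toSubring _ hΨ).coeff j).1 = Ψ.coeff j := fun j => Polynomial.coeff_toSubring ..
  refine ieven_abs hna L h4 h5 hU hW
    (Ψ := Ψ.toSubring _ hΨ) he h0 (Subtype.ext ((e 0).trans h1)) ?_
    (fun i => ⟨m i, hL _ (by simp [S]), (hm i).le⟩) a b hm ?_ hφ
    (hT L fun x hx => hL x (by simp [S, Finset.mem_coe.1 hx]))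
    (hT' L fun x hx => hL x (by simp [S, Finset.mem_coe.1 hx]))
  · refine Polynomial.natDegree_eq_of_le_of_coeff_ne_zero
      (Polynomial.natDegree_le_iff_coeff_eq_zero.2 fun j hj => ?_) fun h6 => ?_
    · rw [Polynomial.coeff_map, Ideal.Quotient.eq_zero_iff_mem]
      exact (congrArg ν (e j)).trans_lt (hk' j hj)
    · rw [Polynomial.coeff_map, Ideal.Quotient.eq_zero_iff_mem] at h6
      exact (((congrArg ν (e k)).trans hk).symm.trans_lt h6).false
  · rw [← Polynomial.aeval_map_algebraMap Ω W (Ψ.toSubring _ hΨ),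
      show algebraMap (intO hna L) Ω = Subring.subtype _ from rfl,
      Polynomial.map_toSubring, ← hrel]
    simp only [Algebra.smul_def]
    rfl

end Pool.Agent.Lib.MP_07b2d0_nt.G3
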