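import Pool.Agent.Lib.MP_07b2d0_nt.G3.Defs
import Pool.Agent.Lib.MP_07b2d0_nt.Fh.ASym

/-!
Elementary facts on the normal form.
-/

set_option autoImplicit false

namespace Pool.Agent.Lib.MP_07b2d0_nt.G3

open Polynomial Fh

variable {R R' R'' : Type} [CommRing R] [CommRing R'] [CommRing R''] {a : Co R}

theorem Co.map_map (a : Co R) (φ : R →+* R') (ψ : R' →+* R'') :
    (a.map φ).map ψ = a.map (ψ.comp φ) := rfl

theorem Co.map_id (a : Co R) : a.map (RingHom.id R) = a := rfl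

theorem Co.up_self (a : Co R) : a.up R = a := rfl

omit [CommRing R] in
theorem Co.swap_swap (a : Co R) : a.swap.swap = a := rfl

theorem Co.map_swap (a : Co R) (φ : R →+* R') : a.swap.map φ = (a.map φ).swap := rfl

theorem Co.map_F (a : Co R) (φ : R →+* R') (s t : R) :
    φ (a.F s t) = (a.map φ).F (φ s) (φ t) := by simp [Co.F, Co.map]

theorem Co.map_Fs (a : Co R) (φ : R →+* R') (s t : R) :
    φ (a.Fs s t) = (a.map φ).Fs (φ s) (φ t) := by simp [Co.Fs, Co.map, map_ofNat]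

theorem Co.map_Ft (a : Co R) (φ : R →+* R') (s t : R) :
    φ (a.Ft s t) = (a.map φ).Ft (φ s) (φ t) := by simp [Co.Ft, Co.map, map_ofNat]

theorem Co.map_th (a : Co R) (φ : R →+* R') (s t : R) :
    φ (a.th s t) = (a.map φ).th (φ s) (φ t) := by simp [Co.th, Co.map, map_ofNat]

theorem Co.map_G (a : Co R) (φ : R →+* R') (s t : R) :
    φ (a.G s t) = (a.map φ).G (φ s) (φ t) := by simp [Co.G, Co.map, map_ofNat]

theorem Co.swap_F (a : Co R) (s t : R) : a.swap.F t s = a.F s t := by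
  simp only [Co.F, Co.swap]
  ring

theorem Co.swap_Fs (a : Co R) (s t : R) : a.swap.Fs t s = a.Ft s t := by
  simp only [Co.Fs, Co.Ft, Co.swap]
  ring

theorem Co.swap_Ft (a : Co R) (s t : R) : a.swap.Ft t s = a.Fs s t := by
  simp only [Co.Fs, Co.Ft, Co.swap]
  ring

theorem Co.F_eq_th (a : Co R) (s t : R) :
    a.F s t = t * a.th s t + (s ^ 3 + a.q0 * s ^ 2 + a.r0 * s + a.c ^ 2 + a.e) := by
  simp only [Co.F, Co.th]
  ring

theorem Co.F_eq_G (a : Co R) {s t w : R} (h : s * w = 1) :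
    a.F s t * w ^ 4 = a.G (t * w + a.c * w ^ 2) w := by
  simp only [Co.F, Co.G]
  linear_combination (t ^ 2 * w ^ 2 * (s * w + 1) + 2 * a.c * t * w ^ 3 +
    w * (s ^ 2 * w ^ 2 + s * w + 1) + a.q0 * w ^ 2 * (s * w + 1) + a.r0 * w ^ 3) * h

theorem Co.eval_pol (a : Co R) (φ : R →+* R') (s t : R') :
    MvPolynomial.eval₂Hom φ ![s, t] a.pol = (a.map φ).F s t := by
  simp [Co.pol, Co.F, Co.map]

theorem Co.aeval_pol [Algebra R R'] (a : Co R) (s t : R') :
    MvPolynomial.aeval ![s, t] a.pol = (a.up R').F s t := by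
  simp [Co.pol, Co.F, Co.map]

/-- The identity of Bezout at a point. -/
theorem Co.Sm.bez (h : a.Sm) (φ : R →+* R') (s t : R') : ∃ A B C : MvPolynomial (Fin 2) R,
    MvPolynomial.eval₂Hom φ ![s, t] A * (a.map φ).F s t +
      MvPolynomial.eval₂Hom φ ![s, t] B * (a.map φ).Fs s t +
      MvPolynomial.eval₂Hom φ ![s, t] C * (a.map φ).Ft s t = 1 := by
  obtain ⟨A, B, C, h⟩ := h
  refine ⟨A, B, C, ?_⟩
  have := congrArg (MvPolynomial.eval₂Hom φ ![s, t]) h
  rw [map_add, map_add, map_mul, map_mul, map_mul, map_one, Co.eval_pol, Co.map_Fs, Co.map_Ft]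
    at this
  simpa [Co.map] using this

theorem Co.Sm.not_sing [Nontrivial R'] (h : a.Sm) (φ : R →+* R') {s t : R'}
    (h0 : (a.map φ).F s t = 0) (h1 : (a.map φ).Fs s t = 0) (h2 : (a.map φ).Ft s t = 0) :
    False := by
  obtain ⟨A, B, C, h⟩ := h.bez φ s t
  simp [h0, h1, h2] at h

theorem Co.Sm.map (h : a.Sm) (φ : R →+* R') : (a.map φ).Sm := by
  obtain ⟨A, B, C, h⟩ := h
  refine ⟨A.map φ, B.map φ, C.map φ, ?_⟩
  have := congrArg (MvPolynomial.map φ) h
  rw [map_add, map_add, map_mul, map_mul, map_mul, map_one, Co.pol, Co.map_F, Co.map_Fs,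
    Co.map_Ft] at this
  simpa [Co.map, Co.pol] using this

theorem Co.Sm.swap (h : a.Sm) : a.swap.Sm := by
  obtain ⟨A, B, C, h⟩ := h.bez MvPolynomial.C (MvPolynomial.X 1 : MvPolynomial (Fin 2) R)
    (MvPolynomial.X 0)
  rw [← Co.swap_F, ← Co.swap_Fs, ← Co.swap_Ft, add_right_comm] at h
  exact ⟨_, _, _, h⟩

theorem coR_map (φ : R →+* R') (u h g e1 e2 e3 e4 e5 : R) : (coR u h g e1 e2 e3 e4 e5).map φ =
    coR (φ u) (φ h) (φ g) (φ e1) (φ e2) (φ e3) (φ e4) (φ e5) := by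
  simp [coR, Co.map, map_ofNat]

end Pool.Agent.Lib.MP_07b2d0_nt.G3
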