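import Pool.Agent.Lib.MP_07b2d0_nt.G3.I0
import Pool.Agent.Lib.MP_07b2d0_nt.G3.C1b
import Pool.Agent.Lib.MP_07b2d0_nt.G3.W0.Br
import Pool.Agent.Lib.MP_07b2d0_nt.G3.IEv2

/-!
A component that contains only the first point at infinity.
-/

set_option autoImplicit false

namespace Pool.Agent.Lib.MP_07b2d0_nt.G3

open Polynomial Fh WithZero

variable {Ω : Type} [Field Ω] {ν : AbsoluteValue Ω ℝ} {p : ℕ}
  {G : (Ω ≃+* Ω) → Prop} {a : Co Ω} {x : Fin 6 → Ω} {h : Ω}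

/-- The polynomial is integral and its reduction has degree `k`. -/
def I2Deg (ν : AbsoluteValue Ω ℝ) (k : ℕ) (f : Polynomial Ω) : Prop :=
  (∀ j, ν (f.coeff j) ≤ 1) ∧ ν (f.coeff k) = 1 ∧ ∀ j, k < j → ν (f.coeff j) < 1

theorem I2Deg.add (hna : IsNonarchimedean ν) {k : ℕ} {f g : Polynomial Ω} (hf : I2Deg ν k f)
    (hg : ∀ j, ν (g.coeff j) < 1) : I2Deg ν k (f + g) := by
  refine ⟨fun j => ?_, ?_, fun j hj => ?_⟩ <;> rw [coeff_add]
  · exact na_add_le hna (hf.1 j) (hg j).le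
  · rw [na_add_eq hna ((hg k).trans_eq hf.2.1.symm), hf.2.1]
  · exact na_add_lt hna (hf.2.2 j hj) (hg j)

open Classical in
theorem i2_prod (hna : IsNonarchimedean ν) {ι : Type} (c : ι → Ω) (hc : ∀ i, ν (c i) ≤ 1)
    (s : Finset ι) :
    I2Deg ν (s.filter fun i => ν (c i) = 1).card (∏ i ∈ s, (1 - C (c i) * X)) := by
  induction s using Finset.induction_on with
  | empty =>
    refine ⟨fun j => ?_, by simp, fun j hj => ?_⟩ <;> rw [Finset.prod_empty, coeff_one]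
    · split_ifs <;> simp
    · simp [show j ≠ 0 by omega]
  | insert i s hi ih =>
    rw [Finset.prod_insert hi, Finset.filter_insert]
    generalize ∏ i ∈ s, (1 - C (c i) * X) = f at ih
    rw [show (1 - C (c i) * X) * f = f + C (-c i) * (X * f) by rw [C_neg]; ring]
    have e : ∀ j, ν ((C (-c i) * (X * f)).coeff (j + 1)) = ν (c i) * ν (f.coeff j) := fun j => by
      rw [coeff_C_mul, coeff_X_mul, map_mul, ν.map_neg]
    split_ifs with h
    · rw [Finset.card_insert_of_notMem fun h => hi (Finset.mem_filter.1 h).1]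
      simp only [h, one_mul] at e
      refine ⟨fun j => ?_, ?_, fun j hj => ?_⟩ <;> rw [coeff_add]
      · refine na_add_le hna (ih.1 j) ?_
        rcases j with _ | j
        · simp
        · exact e j ▸ ih.1 j
      · rw [add_comm (f.coeff _), na_add_eq hna (by rw [e, ih.2.1]; exact ih.2.2 _ (by omega)), e,
          ih.2.1]
      · obtain ⟨j, rfl⟩ : ∃ l, j = l + 1 := ⟨j - 1, by omega⟩
        exact na_add_lt hna (ih.2.2 _ (by omega)) (e j ▸ ih.2.2 _ (by omega))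
    · refine ih.add hna fun j => ?_
      rcases j with _ | j
      · simp
      · rw [e]
        exact mul_lt_one_of_nonneg_of_lt_one_left (ν.nonneg _) ((hc i).lt_of_ne h) (ih.1 j)

theorem i2_clear {F : Type} [Field F] [Algebra Ω F] {A : Subalgebra Ω F} {s t W z : F}
    (hW : W ∈ A) (hs : s * W ∈ A) (ht : t * W ∈ A) (hz : z ∈ Algebra.adjoin Ω {s, t}) :
    ∃ D : ℕ, ∀ E : ℕ, z * W ^ (D + E) ∈ A := by
  suffices h : ∃ D : ℕ, z * W ^ D ∈ A from h.imp fun D h E => by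
    rw [pow_add, ← mul_assoc]
    exact mul_mem h (pow_mem hW E)
  induction hz using Algebra.adjoin_induction with
  | mem w hw =>
    rcases hw with rfl | rfl
    exacts [⟨1, by rwa [pow_one]⟩, ⟨1, by rwa [pow_one]⟩]
  | algebraMap c => exact ⟨0, by simp⟩
  | add a b _ _ ha hb =>
    obtain ⟨D, ha⟩ := ha
    obtain ⟨E, hb⟩ := hb
    exact ⟨D + E, by
      rw [show (a + b) * W ^ (D + E) = a * W ^ D * W ^ E + b * W ^ E * W ^ D by ring]
      exact add_mem (mul_mem ha (pow_mem hW E)) (mul_mem hb (pow_mem hW D))⟩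
  | mul a b _ _ ha hb =>
    obtain ⟨D, ha⟩ := ha
    obtain ⟨E, hb⟩ := hb
    exact ⟨D + E, by
      rw [show a * b * W ^ (D + E) = a * W ^ D * (b * W ^ E) by ring]
      exact mul_mem ha hb⟩

variable [IsAlgClosed Ω] [CharZero Ω]

/-- Apply `ieven_core` to the equation of `chart_P`, with `W = x 0 / s` and
`U = y (t / s + c / s ^ 2)`. -/
theorem i_even (hL : Loc ν p G) (hO : OddS a) (hP : Par a x h)
    (hD : ∀ i : Fin 5, ν (x i.succ) ≤ ν (x i.castSucc)) (hD' : ν h ≤ ν (x 3 * x 4 * x 5))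
    (hB : ν (Bx x h) < 1) {n : ℕ} (hn : Even n) (h0 : 1 ≤ n) (h6 : n ≤ 6)
    (h1 : ∀ j : Fin 6, (j : ℕ) < n → ν (x j) = ν (x 0))
    (h3 : ∀ j : Fin 6, n ≤ (j : ℕ) → ν (x j) < ν (x 0)) : False := by
  classical
  have hna := hL.na
  obtain ⟨y, hy⟩ := IsAlgClosed.exists_pow_nat_eq (x 0) two_pos
  obtain ⟨d, hd, -, hG⟩ := chart_P hna hL.two hP hD hD' hB hy
  obtain ⟨F, _, _, s, t, φ, ψ, P, Q, hC, ⟨p1, p2⟩, -, hφ, mφ, mψ, hodd, -⟩ := hO
  have := isFF_of hC.trans hC.fd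
  have x0 : x 0 ≠ 0 := hP.x_ne 0
  have y0 : y ≠ 0 := fun e => x0 (by rw [← hy, e, zero_pow two_ne_zero])
  have s0 : s ≠ 0 := (_root_.map_ne_zero P.1).1 (p1 ▸ exp_ne_zero)
  have X0 : algebraMap Ω F (x 0) ≠ 0 := (_root_.map_ne_zero _).2 x0
  have Y0 : algebraMap Ω F y ≠ 0 := (_root_.map_ne_zero _).2 y0
  have he := (a.up F).F_eq_G (t := t) (mul_inv_cancel₀ s0)
  rw [hC.eq, zero_mul] at he
  obtain ⟨U, hU⟩ : ∃ U, U = algebraMap Ω F y * (t * s⁻¹ + algebraMap Ω F a.c * s⁻¹ ^ 2) := ⟨_, rfl⟩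
  obtain ⟨W, hW⟩ : ∃ W, W = algebraMap Ω F (x 0) * s⁻¹ := ⟨_, rfl⟩
  have h4 := hG F (algebraMap Ω F) U W
  rw [show algebraMap Ω F y⁻¹ * U = t * s⁻¹ + (a.up F).c * s⁻¹ ^ 2 by
      rw [hU, map_inv₀, inv_mul_cancel_left₀ Y0]; rfl,
    show algebraMap Ω F (x 0)⁻¹ * W = s⁻¹ by rw [hW, map_inv₀, inv_mul_cancel_left₀ X0], ← he,
    mul_zero] at h4
  have n4 : ν (4 * x 0) = ν (x 0) := by
    rw [show (4 : Ω) = 2 * 2 by norm_num, map_mul, map_mul, hL.two, one_mul, one_mul]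
  have hc : ∀ i : Fin 6, (ν (x i / (4 * x 0)) = 1 ↔ (i : ℕ) < n) ∧ ν (x i / (4 * x 0)) ≤ 1 :=
    fun i => by
      rw [map_div₀, n4, div_eq_one_iff_eq (ν.pos x0).ne', div_le_one (ν.pos x0)]
      rcases lt_or_ge (i : ℕ) n with hi | hi
      · exact ⟨iff_of_true (h1 i hi) hi, (h1 i hi).le⟩
      · exact ⟨iff_of_false (h3 i hi).ne hi.not_gt, (h3 i hi).le⟩
  have h5 := (i2_prod hna _ (fun i => (hc i).2) Finset.univ).add hna
    (g := ∑ j : Fin 6, monomial (j.1 + 1) (d (j.castLE (by norm_num)))) fun j => by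
      rw [finsetSum_coeff]
      exact Finset.sum_induction _ (ν · < 1) (fun _ _ => na_add_lt hna) (by simp) fun i _ => by
        rw [coeff_monomial]
        split_ifs
        exacts [hd _, by simp]
  rw [Finset.filter_congr fun i _ => (hc i).1, Fin.card_filter_val_lt, min_eq_right h6] at h5
  have mU : U ∈ Algebra.adjoin Ω {U, W} := Algebra.subset_adjoin (by simp)
  have mW : W ∈ Algebra.adjoin Ω {U, W} := Algebra.subset_adjoin (by simp)
  have mc := (Algebra.adjoin Ω {U, W}).algebraMap_mem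
  have ms : s * W ∈ Algebra.adjoin Ω {U, W} := by
    rw [show s * W = algebraMap Ω F (x 0) by rw [hW]; field_simp]
    exact mc _
  have mt : t * W ∈ Algebra.adjoin Ω {U, W} := by
    rw [show t * W = algebraMap Ω F (x 0 / y) * U - algebraMap Ω F (a.c / x 0) * W ^ 2 by
      rw [hU, hW, map_div₀, map_div₀]; field_simp; ring]
    exact sub_mem (mul_mem (mc _) mU) (mul_mem (mc _) (pow_mem mW 2))
  obtain ⟨D, m1⟩ := i2_clear mW ms mt mφ
  obtain ⟨E, m2⟩ := i2_clear mW ms mt mψ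
  have ps : P.1 s⁻¹ = exp (-2) := by rw [map_inv₀, p1, exp_neg]
  have pt : P.1 (t * s⁻¹) = exp (-1) := by rw [map_mul, p2, ps, ← exp_add]; norm_num
  refine (Int.not_even_iff_odd.2 hodd.neg) (ieven_core (P := plE P) (U := U) (W := W) hna
    (fun T => ?_) ?_ (Or.inr ?_) hn h0 ?_ h5.1 h5.2.1 h5.2.2 (fun i : Fin 6 => d (i.natAdd 6))
    ![0, 0, 0, 1, 1, 2] ![2, 3, 4, 1, 2, 0] (fun _ => hd _) ?_ hφ (m1 E) (add_comm E D ▸ m2 D))
  · obtain ⟨-, η, -, -, -, -, h7, h8⟩ := hL.rich T 1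
    exact ⟨_, h7, by simpa only [pow_one] using h8⟩
  · rw [plE_ord, hU, map_mul, plc_const P y0, one_mul, Valuation.map_add_eq_of_lt_left _ (by
      rw [pt, map_mul, map_pow, ps, ← exp_nsmul]
      exact (mul_le_of_le_one_left' (P.2.2 _)).trans_lt (by rw [exp_lt_exp]; norm_num)), pt,
      log_exp, neg_neg]
  · rw [plE_ord, hW, map_mul, plc_const P x0, one_mul, ps, log_exp]
    norm_num
  · simp [coeff_zero_eq_eval_zero, eval_prod, eval_finsetSum]
  · simp only [map_add, map_prod, map_sub, map_mul, map_one, aeval_C, aeval_X, aeval_monomial,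
      Fin.sum_univ_six, Matrix.cons_val]
    refine Eq.trans ?_ h4.symm
    change U ^ 2 + W * (_ + (_ * W ^ 1 + _ * W ^ 2 + _ * W ^ 3 + _ * W ^ 4 + _ * W ^ 5 +
      _ * W ^ 6) + _) = _
    change U ^ 2 + W * (_ + (algebraMap Ω F (d 0) * _ + algebraMap Ω F (d 1) * _ +
      algebraMap Ω F (d 2) * _ + algebraMap Ω F (d 3) * _ + algebraMap Ω F (d 4) * _ +
      algebraMap Ω F (d 5) * _) + U * (algebraMap Ω F (d 6) * _ + algebraMap Ω F (d 7) * _ +
      algebraMap Ω F (d 8) * _ + algebraMap Ω F (d 9) * _ + algebraMap Ω F (d 10) * _ +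
      algebraMap Ω F (d 11) * _)) = _
    ring

end Pool.Agent.Lib.MP_07b2d0_nt.G3
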