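import Pool.Agent.Lib.MP_07b2d0_nt.G3.C3b
import Pool.Agent.Lib.MP_07b2d0_nt.G3.W0.Br

/-!
The torsion hypothesis in terms of the two places at infinity.
-/

set_option autoImplicit false

namespace Pool.Agent.Lib.MP_07b2d0_nt.G3

open Polynomial WithZero Fh

/-- `φ` and `φ⁻¹` are polynomials in `s, t`.  The orders at `P` and `Q` are opposite, so both are
odd. -/
theorem Odd1.oddS {Ω : Type} [Field Ω] [IsAlgClosed Ω] [CharZero Ω] {a : Co Ω} (h : Odd1 a) :
    OddS a := by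
  classical
  obtain ⟨F, _, _, s, t, φ, hC, h0, h1, v, hv⟩ := h
  obtain ⟨P, hP, -⟩ := hC.exists_P
  obtain ⟨Q, hQ, -⟩ := hC.swap.exists_P
  obtain ⟨D, h2, h3⟩ := deg_zero hC.trans hC.fd φ h0
  have hc : ∀ w : Plc Ω F, log (w.1 φ) ≠ 0 → w = P ∨ w = Q := fun w hw =>
    (hC.inf_cases hP hQ w).resolve_left fun h => hw (by rw [h1 w h.1 h.2, log_one])
  have hne : P ≠ Q := fun h => by
    have := hP.1.symm.trans (h ▸ hQ.2)
    rw [exp_inj] at this
    omega
  rw [Finsupp.sum_of_support_subset D (s := {P, Q}) (fun w hw => by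
    simpa using hc w (h2 w ▸ Finsupp.mem_support_iff.1 hw)) _ fun _ _ => rfl,
    Finset.sum_pair hne, h2, h2] at h3
  have h4 : Odd (log (P.1 φ)) ↔ Odd (log (Q.1 φ)) := by
    rw [eq_neg_of_add_eq_zero_left h3, odd_neg]
  refine ⟨F, _, _, s, t, φ, φ⁻¹, P, Q, hC, hP, hQ, mul_inv_cancel₀ h0,
    hC.mem_of_fin fun w a b => (h1 w a b).le,
    hC.mem_of_fin fun w a b => by rw [map_inv₀, h1 w a b, inv_one], ?_⟩
  rcases hc v (fun h => absurd (h ▸ hv) (by decide)) with rfl | rfl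
  · exact ⟨hv, h4.1 hv⟩
  · exact ⟨h4.2 hv, hv⟩

theorem OddS.swap {L : Type} [Field L] {a : Co L} (h : OddS a) : OddS a.swap := by
  obtain ⟨F, _, _, s, t, φ, ψ, v, w, hC, hv, hw, h0, h1, h2, h3, h4⟩ := h
  exact ⟨F, _, _, t, s, φ, ψ, w, v, hC.swap, hw, hv, h0, Set.pair_comm s t ▸ h1,
    Set.pair_comm s t ▸ h2, h4, h3⟩

theorem os_map {L L' F : Type} [Field L] [Field L'] [Field F] [Algebra L F] [Algebra L' F]
    (e : L ≃+* L') (he : ∀ c, algebraMap L' F (e c) = algebraMap L F c) {a : Co L} {s t : F}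
    (hC : Cv a s t) : Cv (a.map (e : L →+* L')) s t := by
  have he' : (algebraMap L' F).comp (e : L →+* L') = algebraMap L F := RingHom.ext he
  refine ⟨hC.sm.map _, fun h => hC.trans ?_, ?_, ?_⟩
  · exact (isAlgebraic_ringHom_iff_of_comp_eq e (RingHom.id F) Function.injective_id he').1 h
  · rw [Co.up, Co.map_map, he']
    exact hC.eq
  · refine IntermediateField.toSubfield_injective ?_
    have := congrArg IntermediateField.toSubfield hC.top
    rw [IntermediateField.adjoin_toSubfield, IntermediateField.top_toSubfield] at this ⊢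
    rwa [← he', RingHom.coe_comp, Function.Surjective.range_comp (f := (e : L →+* L'))
      e.surjective] at this

theorem Odd1.map {L L' : Type} [Field L] [Field L'] {a : Co L} (h : Odd1 a) (e : L ≃+* L') :
    Odd1 (a.map (e : L →+* L')) := by
  obtain ⟨F, _, _, s, t, φ, hC, h0, h1, v, hv⟩ := h
  obtain ⟨A, he⟩ : ∃ A : Algebra L' F, ∀ c, algebraMap L' F (e c) = algebraMap L F c :=
    ⟨((algebraMap L F).comp (e.symm : L' →+* L)).toAlgebra, fun c =>
      congrArg (algebraMap L F) (e.symm_apply_apply c)⟩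
  refine ⟨F, _, A, s, t, φ, os_map e he hC, h0,
    fun w => h1 ⟨w.1, w.2.1, fun c => he c ▸ w.2.2 _⟩, ⟨v.1, v.2.1, fun c => ?_⟩, hv⟩
  obtain ⟨c, rfl⟩ := e.surjective c
  exact he c ▸ v.2.2 c

end Pool.Agent.Lib.MP_07b2d0_nt.G3
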