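import Pool.Agent.Lib.MP_07b2d0_nt.G3.I1b
import Pool.Agent.Lib.MP_07b2d0_nt.G3.I2
import Pool.Agent.Lib.MP_07b2d0_nt.G3.OS

/-!
The parameters are units.
-/

set_option autoImplicit false

namespace Pool.Agent.Lib.MP_07b2d0_nt.G3

open Polynomial Fh

variable {Ω : Type} [Field Ω] [IsAlgClosed Ω] [CharZero Ω] {ν : AbsoluteValue Ω ℝ} {p : ℕ}
  {G : (Ω ≃+* Ω) → Prop} {a : Co Ω} {x : Fin 6 → Ω} {h : Ω}

/-- In the dominant chamber the root `Bx` is a unit. -/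
theorem i3_core (hL : Loc ν p G) (hU : ∀ σ, G σ → UPt a σ) (hO : OddS a) (hP : Par a x h)
    {V : ValuationSubring Ω} (h1 : ∀ z, z ∈ V ↔ ν z ≤ 1)
    (h2 : ∀ z w, V.valuation z ≤ V.valuation w ↔ ν z ≤ ν w) (hD : Dom V.toSubring x h)
    (hB : V.valuation (Bx x h) < 1) : False := by
  have lt : ∀ z w, V.valuation z < V.valuation w → ν z < ν w := fun z w e =>
    not_le.1 fun e' => not_le.2 e ((h2 _ _).2 e')
  have eq : ∀ z w, V.valuation z = V.valuation w → ν z = ν w := fun z w e =>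
    le_antisymm ((h2 _ _).1 e.le) ((h2 _ _).1 e.ge)
  have dv : ∀ z w : Ω, w ≠ 0 → z / w ∈ V.toSubring → ν z ≤ ν w := fun z w hw e => by
    have := (h1 _).1 e
    rwa [map_div₀, div_le_one (ν.pos hw)] at this
  have d1 : ∀ i : Fin 5, ν (x i.succ) ≤ ν (x i.castSucc) := fun i => dv _ _ (hP.x_ne _) (hD.b i)
  have d2 : ν h ≤ ν (x 3 * x 4 * x 5) :=
    dv _ _ (mul_ne_zero (mul_ne_zero (hP.x_ne _) (hP.x_ne _)) (hP.x_ne _)) hD.b0
  have d3 : ν (Bx x h) < 1 := by simpa using lt _ 1 (by simpa using hB)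
  obtain ⟨n, n1, n6, e1, e2⟩ := hD.exists_gap hP
  rcases Nat.even_or_odd n with hn | hn
  · exact i_even hL hO hP d1 d2 d3 hn n1 n6 (fun j hj => eq _ _ (e1 j hj))
      fun j hj => lt _ _ (e2 j hj)
  · have n5 : n < 6 := by
      obtain ⟨k, hk⟩ := hn
      omega
    exact i_odd hL hU hP d1 d2 d3 (i := ⟨n, n5⟩) hn (fun j hj => eq _ _ (e1 j hj))
      (lt _ _ (e2 _ le_rfl))

/-- `exists_inr`, `Par.exists_dom`, `Dom.cases`, `Dom.dual`, `Dom.exists_gap`. -/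
theorem loc_units (hL : Loc ν p G) (hU : ∀ σ, G σ → UPt a σ ∧ UPt a.swap σ) (hO : OddS a)
    (hP : Par a x h) : Uni ν x h := by
  obtain ⟨V, h1, h2, -⟩ := exists_inr hL.na
  obtain ⟨x', h', hP', hD, hi⟩ := hP.exists_dom V
  have eq : ∀ z, V.valuation z = 1 → ν z = 1 := fun z e =>
    le_antisymm (by simpa using (h2 z 1).1 (by simp [e])) (by simpa using (h2 1 z).1 (by simp [e]))
  rcases hD.cases hP' with e | e | e
  · obtain ⟨e1, e2⟩ := hi e.1 e.2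
    exact ⟨fun i => eq _ (e1 i), eq _ e2⟩
  · exact (i3_core hL (fun σ hσ => (hU σ hσ).1) hO hP' h1 h2 hD e).elim
  · exact (i3_core hL (fun σ hσ => (hU σ hσ).2) hO.swap hP'.dual h1 h2 (hD.dual hP') e).elim

end Pool.Agent.Lib.MP_07b2d0_nt.G3
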