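import Pool.Agent.Lib.MP_07b2d0_nt.KG4
import Pool.Agent.Lib.MP_07b2d0_nt.KG5
import Pool.Agent.Lib.MP_07b2d0_nt.NF1
import Pool.Agent.Lib.MP_07b2d0_nt.KStmt

/-!
Local setting: an absolute value with a large inertia group, a ramified parameter, Newton's lemma.
-/

set_option autoImplicit false

namespace Pool.Agent.Lib.MP_07b2d0_nt.G3

open NumberField Polynomial

/-- `ν` extends the place `v`, and `Γ` is a group of inertial automorphisms whose fixed elements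
have the values of `v`. -/
structure Loc0 {K : Type} [Field K] [NumberField K] (v : FinitePlace K)
    (ν : AbsoluteValue (AlgebraicClosure K) ℝ)
    (Γ : Subgroup (AlgebraicClosure K ≃ₐ[K] AlgebraicClosure K)) : Prop where
  na : IsNonarchimedean ν
  ext : ∀ u : K, ν (algebraMap K _ u) = v u
  iso : ∀ σ ∈ Γ, ∀ z, ν (σ z) = ν z
  res : ∀ σ ∈ Γ, ∀ z, ν z ≤ 1 → ν (σ z - z) < 1
  fix : ∀ z, (∀ σ ∈ Γ, σ z = z) → ∃ u : K, ν z = v u

variable {K : Type} [Field K] [NumberField K] {v : FinitePlace K}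
  {ν : AbsoluteValue (AlgebraicClosure K) ℝ}
  {Γ : Subgroup (AlgebraicClosure K ≃ₐ[K] AlgebraicClosure K)}

theorem exists_Loc0 (v : FinitePlace K) : ∃ ν Γ, Loc0 v ν Γ := by
  obtain ⟨ν, Γ, h1, h2, h3, h4, h5⟩ := Ks.exists_loc K v
  exact ⟨ν, Γ, h1, h2, h3, h4, h5⟩

theorem Loc0.inertial (h : Loc0 v ν Γ) {N : ℕ} (hN : v (N : K) = 1) {σ} (hσ : σ ∈ Γ) :
    Ks.Inertial K (AlgebraicClosure K) N σ := by
  obtain ⟨A, hA, hAσ⟩ := Ks.exists_valuationSubring (K := K) h.na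
  obtain ⟨τ, hτ, he⟩ := hAσ σ (h.iso σ hσ) (h.res σ hσ)
  refine ⟨A, (hA _).mpr ?_, τ, hτ, he⟩
  rw [map_inv₀, ← map_natCast (algebraMap K (AlgebraicClosure K)), h.ext, hN, inv_one]

omit [NumberField K] in
theorem orbit_finite (Γ : Subgroup (AlgebraicClosure K ≃ₐ[K] AlgebraicClosure K))
    (z : AlgebraicClosure K) : (MulAction.orbit Γ z).Finite := by
  have hz : IsIntegral K z := Algebra.IsIntegral.isIntegral z
  refine ((minpoly K z).rootSet_finite (AlgebraicClosure K)).subset ?_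
  rintro _ ⟨σ, rfl⟩
  rw [mem_rootSet]
  refine ⟨minpoly.ne_zero hz, ?_⟩
  change aeval (σ.1 z) (minpoly K z) = 0
  rw [aeval_algEquiv, AlgHom.comp_apply, minpoly.aeval, map_zero]

/-- An element fixed by a subgroup of index `m` has a power of its value in the value group. -/
theorem Loc0.pow_eq (h : Loc0 v ν Γ) (H : Subgroup Γ) [H.FiniteIndex] {z : AlgebraicClosure K}
    (hz : ∀ σ ∈ H, σ.1 z = z) : ∃ (d : ℕ) (u : K), 0 < d ∧ d ≤ H.index ∧ ν z ^ d = v u := by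
  classical
  have hf := orbit_finite Γ z
  let O := hf.toFinset
  have hO : ∀ y, y ∈ O ↔ y ∈ MulAction.orbit Γ z := fun y => hf.mem_toFinset
  obtain ⟨u, hu⟩ := h.fix (∏ y ∈ O, y) fun σ hσ => by
    rw [map_prod]
    refine Finset.prod_bij (fun y _ => σ y) (fun y hy => ?_) (fun a _ b _ hab => σ.injective hab)
      (fun y hy => ?_) fun _ _ => rfl
    · obtain ⟨τ, rfl⟩ := (hO y).1 hy
      exact (hO _).2 ⟨⟨σ, hσ⟩ * τ, rfl⟩
    · obtain ⟨τ, rfl⟩ := (hO y).1 hy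
      refine ⟨σ⁻¹ (τ • z), (hO _).2 ⟨⟨σ, hσ⟩⁻¹ * τ, rfl⟩, σ.apply_symm_apply _⟩
  refine ⟨O.card, u, Finset.card_pos.2 ⟨z, (hO z).2 (MulAction.mem_orbit_self z)⟩, ?_, ?_⟩
  · have h1 : (MulAction.stabilizer Γ z).index = O.card := by
      rw [MulAction.index_stabilizer, Set.ncard_eq_toFinset_card _ hf]
    rw [← h1]
    exact Subgroup.index_antitone fun σ hσ => hz σ hσ
  · rw [← hu, map_prod, Finset.prod_congr rfl (g := fun _ => ν z), Finset.prod_const]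
    intro y hy
    obtain ⟨τ, rfl⟩ := (hO y).1 hy
    exact h.iso τ.1 τ.2 z

theorem exists_pow_eq_neg_one {F : Type} [Field F] {ζ : F} (a : ℕ) (h : ζ ^ 2 ^ a = 1)
    (h1 : ζ ≠ 1) : ∃ j : ℕ, ζ ^ j = -1 := by
  induction a with
  | zero => exact absurd (by simpa using h) h1
  | succ a ih =>
    rw [pow_succ, pow_mul, sq_eq_one_iff] at h
    exact h.elim ih fun h => ⟨_, h⟩

/-- The ramified parameter: `σ` fixes `K(S)`, changes the sign of `η`, and the nonunits of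
`K(S)` are much smaller than `η`. -/
theorem Loc0.ec (h : Loc0 v ν Γ) (h2 : v (2 : K) = 1) (S : Finset (AlgebraicClosure K)) (M : ℕ) :
    ∃ η, ∃ σ ∈ Γ, σ η = -η ∧ η ≠ 0 ∧ ν η < 1 ∧
      ∀ y ∈ IntermediateField.adjoin K (S : Set (AlgebraicClosure K)),
        σ y = y ∧ (ν y < 1 → ν y ≤ ν η ^ M) := by
  classical
  let H : Subgroup Γ := ⨅ s ∈ S, MulAction.stabilizer Γ s
  have : H.FiniteIndex := Subgroup.finiteIndex_iInf' _ fun s _ => ⟨by
    rw [MulAction.index_stabilizer]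
    exact ((Set.ncard_pos (orbit_finite Γ s)).2 ⟨s, MulAction.mem_orbit_self s⟩).ne'⟩
  have hH : ∀ σ ∈ H, ∀ y ∈ IntermediateField.adjoin K (S : Set (AlgebraicClosure K)),
      σ.1 y = y := fun σ hσ y hy => by
    induction hy using IntermediateField.adjoin_induction with
    | mem x hx => exact Subgroup.mem_iInf.1 (Subgroup.mem_iInf.1 hσ x) hx
    | algebraMap x => exact σ.1.commutes x
    | add x y _ _ hx hy => rw [map_add, hx, hy]
    | inv x _ hx => rw [map_inv₀, hx]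
    | mul x y _ _ hx hy => rw [map_mul, hx, hy]
  obtain ⟨π, hπ⟩ := v.maximalIdeal.valuation_exists_uniformizer K
  have hπ0 : π ≠ 0 := fun h => by
    rw [h, map_zero] at hπ
    exact WithZero.exp_ne_zero hπ.symm
  have hπo : ord v π = 1 := by simp [ord, hπ]
  have hq := two_le_qv' v
  set q : ℝ := (qv v : ℝ)
  have hq1 : 1 < q := by linarith
  let a := (M + 1) * H.index
  have ha : a < 2 ^ a := Nat.lt_two_pow_self
  obtain ⟨η, hη⟩ := IsAlgClosed.exists_pow_nat_eq (algebraMap K (AlgebraicClosure K) π)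
    (n := 2 ^ a) (by positivity)
  have hη0 : η ≠ 0 := by
    rintro rfl
    rw [zero_pow (by positivity), eq_comm, map_eq_zero] at hη
    exact hπ0 hη
  have hνη : ν η ^ 2 ^ a = q ^ (-1 : ℤ) := by rw [← map_pow, hη, h.ext, fp_eq v hπ0, hπo]
  have hνp : 0 < ν η := ν.pos hη0
  have hν1 : ν η < 1 := by
    by_contra hc
    have := one_le_pow₀ (n := 2 ^ a) (not_lt.1 hc)
    rw [hνη, zpow_neg_one] at this
    exact absurd (inv_lt_one_of_one_lt₀ hq1) (not_lt.2 this)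
  have hν2 : ν ((2 ^ a : ℕ) : AlgebraicClosure K) = 1 := by
    rw [Nat.cast_pow, map_pow, Nat.cast_ofNat, ← map_ofNat (algebraMap K (AlgebraicClosure K)),
      h.ext, h2, one_pow]
  obtain ⟨σ, hσ, hση⟩ : ∃ σ ∈ H, σ.1 η = -η := by
    by_contra hc
    obtain ⟨d, u, hd, hdm, hu⟩ := h.pow_eq H (z := η) fun σ hσ => by
      by_contra hne
      have hζ : (σ.1 η / η) ^ 2 ^ a = 1 := by
        rw [div_pow, ← map_pow, hη, σ.1.commutes, div_self (hη ▸ pow_ne_zero _ hη0)]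
      obtain ⟨j, hj⟩ := exists_pow_eq_neg_one a hζ fun h1 => hne ((div_eq_one_iff_eq hη0).1 h1)
      have hfix : σ.1 (σ.1 η / η) = σ.1 η / η :=
        Ks.root_eq_of_lt h.na hν2 (by rw [← map_pow, hζ, map_one]) hζ
          (h.res _ σ.2 _ (by rw [map_div₀, h.iso _ σ.2, div_self hνp.ne']))
      have hp : ∀ i : ℕ, (σ ^ i).1 η = (σ.1 η / η) ^ i * η := fun i => by
        induction i with
        | zero => simp
        | succ i ih =>
          rw [pow_succ', Subgroup.coe_mul, AlgEquiv.mul_apply, ih, map_mul, map_pow, hfix,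
            pow_succ, mul_assoc, div_mul_cancel₀ _ hη0]
      exact hc ⟨σ ^ j, pow_mem hσ j, by rw [hp, hj, neg_one_mul]⟩
    have hu0 : u ≠ 0 := by
      rintro rfl
      rw [map_zero] at hu
      exact (pow_pos hνp d).ne' hu
    have h3 : q ^ (-(d : ℤ)) = q ^ (-ord v u * (2 ^ a : ℕ)) := by
      rw [zpow_mul, ← fp_eq v hu0, ← hu, zpow_natCast, ← pow_mul, mul_comm, pow_mul, hνη,
        ← zpow_natCast, ← zpow_mul, neg_one_mul]
    have h4 := zpow_right_injective₀ (by linarith) hq1.ne' h3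
    have h5 : ((2 ^ a : ℕ) : ℤ) ∣ d := ⟨ord v u, by linarith⟩
    have h6 := Nat.le_of_dvd hd (Int.natCast_dvd_natCast.1 h5)
    have h7 : H.index ≤ a := Nat.le_mul_of_pos_left _ (Nat.succ_pos M)
    omega
  refine ⟨η, σ.1, σ.2, hση, hη0, hν1, fun y hy => ⟨hH σ hσ y hy, fun hy1 => ?_⟩⟩
  obtain ⟨d, u, hd, hdm, hu⟩ := h.pow_eq H (z := y) fun τ hτ => hH τ hτ y hy
  have h3 : ν y ^ d ≤ q ^ (-1 : ℤ) := by
    rw [hu]
    rcases eq_or_ne u 0 with rfl | hu0
    · rw [map_zero]; positivity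
    · have : v u < 1 := hu ▸ pow_lt_one₀ (ν.nonneg _) hy1 hd.ne'
      rw [fp_lt_one_iff v hu0] at this
      rw [fp_eq v hu0]
      exact zpow_le_zpow_right₀ hq1.le (by omega)
  rw [← hνη] at h3
  refine le_of_pow_le_pow_left₀ hd.ne' (by positivity) (h3.trans ?_)
  rw [← pow_mul]
  refine pow_le_pow_of_le_one hνp.le hν1.le ?_
  have : M * d ≤ a := Nat.mul_le_mul (Nat.le_succ M) hdm
  omega

section newton

variable {Ω : Type} [Field Ω] {μ : AbsoluteValue Ω ℝ}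

theorem na_add_le (hna : IsNonarchimedean μ) {a b : Ω} {c : ℝ} (ha : μ a ≤ c) (hb : μ b ≤ c) :
    μ (a + b) ≤ c := (hna a b).trans (max_le ha hb)

theorem na_add_lt (hna : IsNonarchimedean μ) {a b : Ω} {c : ℝ} (ha : μ a < c) (hb : μ b < c) :
    μ (a + b) < c := (hna a b).trans_lt (max_lt ha hb)

theorem na_sub_le (hna : IsNonarchimedean μ) {a b : Ω} {c : ℝ} (ha : μ a ≤ c) (hb : μ b ≤ c) :
    μ (a - b) ≤ c := by
  rw [sub_eq_add_neg]
  exact na_add_le hna ha (by rwa [μ.map_neg])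

theorem na_sub_lt (hna : IsNonarchimedean μ) {a b : Ω} {c : ℝ} (ha : μ a < c) (hb : μ b < c) :
    μ (a - b) < c := by
  rw [sub_eq_add_neg]
  exact na_add_lt hna ha (by rwa [μ.map_neg])

theorem na_add_eq (hna : IsNonarchimedean μ) {a b : Ω} (h : μ b < μ a) : μ (a + b) = μ a := by
  refine le_antisymm (na_add_le hna le_rfl h.le) (not_lt.1 fun hc => ?_)
  have := na_sub_lt hna hc h
  rw [add_sub_cancel_right] at this
  exact this.false

theorem coeff_prod_le (hna : IsNonarchimedean μ) {D : ℝ} (hD : 0 ≤ D) (s : Multiset Ω)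
    (hs : ∀ r ∈ s, D ≤ μ r) :
    μ ((s.map fun r => X - C r).prod.coeff 1) * D ≤ μ ((s.map fun r => X - C r).prod.coeff 0) := by
  induction s using Multiset.induction_on with
  | empty => simp [coeff_one]
  | cons r s ih =>
    have h1 := ih fun r hr => hs r (Multiset.mem_cons_of_mem hr)
    have h2 := hs r (Multiset.mem_cons_self r s)
    rw [Multiset.map_cons, Multiset.prod_cons]
    set q := (s.map fun r => X - C r).prod
    rw [sub_mul, coeff_sub, coeff_sub, coeff_X_mul, coeff_C_mul, coeff_C_mul, coeff_X_mul_zero,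
      zero_sub, μ.map_neg, map_mul]
    have h3 := hna (q.coeff 0) (-(r * q.coeff 1))
    rw [← sub_eq_add_neg, μ.map_neg, map_mul] at h3
    refine (mul_le_mul_of_nonneg_right h3 hD).trans ?_
    rw [max_mul_of_nonneg _ _ hD]
    refine max_le ?_ ?_
    · rw [mul_comm]
      exact mul_le_mul_of_nonneg_right h2 (μ.nonneg _)
    · rw [mul_assoc]
      exact mul_le_mul_of_nonneg_left h1 (μ.nonneg _)

/-- A polynomial with `|a₀| < |a₁| D` has a root of absolute value `< D`. -/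
theorem exists_small_root [IsAlgClosed Ω] (hna : IsNonarchimedean μ) {D : ℝ} (hD : 0 ≤ D)
    (p : Polynomial Ω) (h : μ (p.coeff 0) < μ (p.coeff 1) * D) : ∃ r, p.eval r = 0 ∧ μ r < D := by
  by_contra hc
  have h1 := coeff_prod_le hna hD p.roots fun r hr =>
    not_lt.1 fun hlt => hc ⟨r, isRoot_of_mem_roots hr, hlt⟩
  rw [(IsAlgClosed.splits p).eq_prod_roots, coeff_C_mul, coeff_C_mul, map_mul, map_mul,
    mul_assoc] at h
  exact absurd (mul_le_mul_of_nonneg_left h1 (μ.nonneg _)) (not_le.2 h)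

/-- Newton's lemma: a root that is fixed by the isometry `σ`. -/
theorem newton4 [IsAlgClosed Ω] (hna : IsNonarchimedean μ) {T : Type} [FunLike T Ω Ω]
    [RingHomClass T Ω Ω] {σ : T} (hσ : ∀ z, μ (σ z) = μ z) {a₀ a₁ a₂ a₃ a₄ : Ω}
    (f₀ : σ a₀ = a₀) (f₁ : σ a₁ = a₁) (f₂ : σ a₂ = a₂) (f₃ : σ a₃ = a₃) (f₄ : σ a₄ = a₄)
    (h₁ : μ a₁ ≤ 1) (h₂ : μ a₂ ≤ 1) (h₃ : μ a₃ ≤ 1) (h₄ : μ a₄ ≤ 1) (h : μ a₀ < μ a₁ ^ 2) :
    ∃ δ, σ δ = δ ∧ a₀ + a₁ * δ + a₂ * δ ^ 2 + a₃ * δ ^ 3 + a₄ * δ ^ 4 = 0 ∧ μ δ < μ a₁ ∧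
      μ δ * μ a₁ = μ a₀ := by
  obtain ⟨δ, h5, h6⟩ := exists_small_root hna (μ.nonneg a₁)
    (C a₀ + C a₁ * X + C a₂ * X ^ 2 + C a₃ * X ^ 3 + C a₄ * X ^ 4) (by simpa [coeff_X, sq] using h)
  simp only [eval_add, eval_mul, eval_C, eval_X, eval_pow] at h5
  have hm : ∀ {x y : Ω}, μ x < μ a₁ → μ y ≤ 1 → μ (x * y) < μ a₁ := fun hx hy => by
    rw [map_mul]
    exact (mul_le_of_le_one_right (μ.nonneg _) hy).trans_lt hx
  have hm' : ∀ {x y : Ω}, μ x ≤ 1 → μ y ≤ 1 → μ (x * y) ≤ 1 := fun hx hy => by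
    rw [map_mul]
    exact mul_le_one₀ hx (μ.nonneg _) hy
  have key : ∀ {x y : Ω}, μ x < μ a₁ → μ y < μ a₁ → μ (a₁ + (x * (a₂ + a₃ * (x + y) +
      a₄ * (x * x + x * y + y * y)) + y * (a₂ + y * (a₃ + a₄ * y)))) = μ a₁ := fun {x y} hx hy => by
    have hx' := hx.le.trans h₁
    have hy' := hy.le.trans h₁
    exact na_add_eq hna (na_add_lt hna (hm hx (na_add_le hna (na_add_le hna h₂
      (hm' h₃ (na_add_le hna hx' hy'))) (hm' h₄ (na_add_le hna (na_add_le hna (hm' hx' hx')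
      (hm' hx' hy')) (hm' hy' hy'))))) (hm hy (na_add_le hna h₂ (hm' hy' (na_add_le hna h₃
      (hm' h₄ hy'))))))
  have hp : 0 < μ a₁ := (μ.nonneg _).trans_lt h6
  refine ⟨δ, ?_, h5, h6, ?_⟩
  · have h7 := congrArg σ h5
    simp only [map_add, map_mul, map_pow, map_zero, f₀, f₁, f₂, f₃, f₄] at h7
    have h8 := key (x := σ δ) (y := δ) (by rwa [hσ]) h6
    by_contra hne
    have h9 := mul_left_cancel₀ (sub_ne_zero.2 hne) (b := a₁ + (σ δ * (a₂ + a₃ * (σ δ + δ) +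
      a₄ * (σ δ * σ δ + σ δ * δ + δ * δ)) + δ * (a₂ + δ * (a₃ + a₄ * δ)))) (c := 0)
      (by linear_combination h7 - h5)
    rw [h9, map_zero] at h8
    exact hp.ne h8
  · have h8 := key (x := δ) (y := 0) h6 (by rwa [map_zero])
    rw [← h8, ← map_mul, ← μ.map_neg]
    congr 1
    linear_combination -h5

/-- A unit with a fixed square is fixed. -/
theorem fix_of_sq (h2 : μ 2 = 1) {T : Type} [FunLike T Ω Ω]
    [RingHomClass T Ω Ω] {σ : T} (hr : ∀ z, μ z ≤ 1 → μ (σ z - z) < 1) {w : Ω} (hw : μ w = 1)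
    (h : σ (w ^ 2) = w ^ 2) : σ w = w := by
  rw [map_pow, sq_eq_sq_iff_eq_or_eq_neg] at h
  refine h.resolve_right fun h => ?_
  have := hr w hw.le
  rw [h, ← neg_add', μ.map_neg, ← two_mul, map_mul, h2, hw, one_mul] at this
  exact this.false

/-- If the square roots of `y` are fixed, then `|y| ≠ |a ^ 2 η ^ (2 j)|` for `a ≠ 0` fixed,
`σ η = -η` and `j` odd. -/
theorem not_odd [IsAlgClosed Ω] (h2 : μ 2 = 1) {T : Type}
    [FunLike T Ω Ω] [RingHomClass T Ω Ω] {σ : T} (hr : ∀ z, μ z ≤ 1 → μ (σ z - z) < 1)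
    {y a η : Ω} {j : ℤ} (hy : ∀ r, r ^ 2 = y → σ r = r) (ha : σ a = a) (ha0 : a ≠ 0)
    (hη : σ η = -η) (hη0 : η ≠ 0) (hj : Odd j) : μ y ≠ μ (a ^ 2) * μ (η ^ 2) ^ j := fun h => by
  obtain ⟨r, rfl⟩ := IsAlgClosed.exists_pow_nat_eq y two_pos
  have hr' := hy r rfl
  have e : r ^ 2 / (a ^ 2 * (η ^ 2) ^ j) = (r / (a * η ^ j)) ^ 2 := by
    rw [div_pow, mul_pow, ← zpow_natCast η, ← zpow_mul, ← zpow_natCast (η ^ j), ← zpow_mul,
      mul_comm j]
  have h1 : μ ((r / (a * η ^ j)) ^ 2) = 1 := by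
    rw [← e, map_div₀, h, map_mul, map_zpow₀, div_self]
    exact mul_ne_zero (μ.pos (pow_ne_zero _ ha0)).ne' (zpow_ne_zero _ (μ.pos (pow_ne_zero _ hη0)).ne')
  rw [map_pow, pow_eq_one_iff_of_nonneg (μ.nonneg _) two_ne_zero] at h1
  have h3 : σ (r / (a * η ^ j)) = -(r / (a * η ^ j)) := by
    rw [map_div₀, map_mul, map_zpow₀, hr', ha, hη, hj.neg_zpow, mul_neg, div_neg]
  have h4 := hr _ h1.le
  rw [h3, ← neg_add', μ.map_neg, ← two_mul, map_mul, h2, h1, one_mul] at h4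
  exact h4.false

end newton

end Pool.Agent.Lib.MP_07b2d0_nt.G3
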