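import Pool.Agent.Lib.MP_07b2d0_nt.G3.Bas
import Pool.Agent.Lib.MP_07b2d0_nt.G3.EC

/-!
Tools for the local arguments.
-/

set_option autoImplicit false

namespace Pool.Agent.Lib.MP_07b2d0_nt.G3

open Polynomial Fh

variable {Ω : Type} [Field Ω] {ν : AbsoluteValue Ω ℝ} {p : ℕ} {G : (Ω ≃+* Ω) → Prop}
  {σ : Ω ≃+* Ω}

/-- `σ r = ± r` and `σ r ≡ r`. -/
theorem Loc.sqrt_fix (h : Loc ν p G) (hσ : G σ) {r : Ω} (h1 : ν r = 1) (h2 : σ (r ^ 2) = r ^ 2) :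
    σ r = r :=
  fix_of_sq h.two (h.res σ hσ) h1 h2

/-- Newton's lemma at `T₀` for a polynomial of degree at most four. -/
theorem newton [IsAlgClosed Ω] (hna : IsNonarchimedean ν) (hσ : ∀ z, ν (σ z) = ν z)
    {c₀ c₁ c₂ c₃ c₄ T₀ : Ω} (f₀ : σ c₀ = c₀) (f₁ : σ c₁ = c₁) (f₂ : σ c₂ = c₂) (f₃ : σ c₃ = c₃)
    (f₄ : σ c₄ = c₄) (f : σ T₀ = T₀) (h₁ : ν c₁ ≤ 1) (h₂ : ν c₂ ≤ 1) (h₃ : ν c₃ ≤ 1)
    (h₄ : ν c₄ ≤ 1) (h0 : ν T₀ ≤ 1)
    (h : ν (c₀ + c₁ * T₀ + c₂ * T₀ ^ 2 + c₃ * T₀ ^ 3 + c₄ * T₀ ^ 4) <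
      ν (c₁ + 2 * c₂ * T₀ + 3 * c₃ * T₀ ^ 2 + 4 * c₄ * T₀ ^ 3) ^ 2) :
    ∃ T, σ T = T ∧ c₀ + c₁ * T + c₂ * T ^ 2 + c₃ * T ^ 3 + c₄ * T ^ 4 = 0 ∧
      ν (T - T₀) * ν (c₁ + 2 * c₂ * T₀ + 3 * c₃ * T₀ ^ 2 + 4 * c₄ * T₀ ^ 3) =
        ν (c₀ + c₁ * T₀ + c₂ * T₀ ^ 2 + c₃ * T₀ ^ 3 + c₄ * T₀ ^ 4) := by
  have hn : ∀ n : ℕ, ν (n : Ω) ≤ 1 := fun n => hna.apply_natCast_le_one
  have m : ∀ {x y : Ω}, ν x ≤ 1 → ν y ≤ 1 → ν (x * y) ≤ 1 := fun hx hy => by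
    rw [map_mul]
    exact mul_le_one₀ hx (ν.nonneg _) hy
  have q : ∀ n : ℕ, ν (T₀ ^ n) ≤ 1 := fun n => by
    rw [map_pow]
    exact pow_le_one₀ (ν.nonneg _) h0
  obtain ⟨δ, e1, e2, -, e3⟩ := newton4 hna hσ
    (a₀ := c₀ + c₁ * T₀ + c₂ * T₀ ^ 2 + c₃ * T₀ ^ 3 + c₄ * T₀ ^ 4)
    (a₁ := c₁ + 2 * c₂ * T₀ + 3 * c₃ * T₀ ^ 2 + 4 * c₄ * T₀ ^ 3)
    (a₂ := c₂ + 3 * c₃ * T₀ + 6 * c₄ * T₀ ^ 2) (a₃ := c₃ + 4 * c₄ * T₀) (a₄ := c₄)
    (by simp only [map_add, map_mul, map_pow, *])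
    (by simp only [map_add, map_mul, map_pow, map_ofNat, *])
    (by simp only [map_add, map_mul, map_pow, map_ofNat, *])
    (by simp only [map_add, map_mul, map_ofNat, *]) f₄
    (na_add_le hna (na_add_le hna (na_add_le hna h₁ (m (m (hn 2) h₂) h0))
      (m (m (hn 3) h₃) (q 2))) (m (m (hn 4) h₄) (q 3)))
    (na_add_le hna (na_add_le hna h₂ (m (m (hn 3) h₃) h0)) (m (m (hn 6) h₄) (q 2)))
    (na_add_le hna h₃ (m (m (hn 4) h₄) h0)) h₄ h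
  exact ⟨T₀ + δ, by rw [map_add, f, e1], by linear_combination e2, by rwa [add_sub_cancel_left]⟩

/-- Take `r ^ 2 = ln`; then `ρ = r / β` is a unit with `σ ρ = - ρ`. -/
theorem Loc.odd [IsAlgClosed Ω] (h : Loc ν p G) (hσ : G σ) {a : Co Ω} (hU : UPt a σ)
    {x : Fin 6 → Ω} {g : Ω} (hP : Par a x g) (hx : ∀ i, σ (x i) = x i) (hg : σ g = g) (i : Fin 6)
    {s t β : Ω} (he : a.F s t = 0) (hs : σ s = s) (ht : σ t = t) (hβ : σ β = -β)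
    (hl : ν (ln x g i s t - β ^ 2) < ν β ^ 2) : False := by
  have hβ0 : β ≠ 0 := by
    rintro rfl
    rw [map_zero, zero_pow (M₀ := ℝ) two_ne_zero] at hl
    exact absurd hl (not_lt.2 (ν.nonneg _))
  rw [← map_pow] at hl
  have e := na_add_eq h.na hl
  rw [add_sub_cancel] at e
  have h0 : ln x g i s t ≠ 0 := fun h0 => by
    rw [h0, map_zero] at e
    exact (ν.pos (pow_ne_zero 2 hβ0)).ne e
  refine not_odd h.two (h.res σ hσ) (y := ln x g i s t) (a := 1) (j := 1) (fun r hr => ?_)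
    (map_one σ) one_ne_zero hβ hβ0 odd_one (by rw [e, one_pow, map_one, one_mul, zpow_one])
  exact hU x g hP hx hg i 1 (fun _ => s) (fun _ => t) 1 r (fun _ => he) (fun _ => ⟨hs, ht⟩)
    (fun _ => h0) (by rw [hr, Fin.prod_univ_one])

theorem e2_max {K : Subfield Ω} {O : ValuationSubring K} (hO : ∀ z : K, z ∈ O ↔ ν z ≤ 1)
    (z : O) : z ∈ IsLocalRing.maximalIdeal O ↔ ν ((z : K) : Ω) < 1 := by
  rw [IsLocalRing.mem_maximalIdeal, mem_nonunits_iff, ← not_le, not_iff_not]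
  constructor
  · intro hz
    obtain ⟨w, hw⟩ := hz.exists_right_inv
    have e : ν ((z : K) : Ω) * ν ((w : K) : Ω) = 1 := by
      rw [← map_mul, ← Subfield.coe_mul, ← MulMemClass.coe_mul, hw]
      simp
    exact e.ge.trans (mul_le_of_le_one_right (ν.nonneg _) ((hO _).1 w.2))
  · intro hz
    have h0 : (z : K) ≠ 0 := fun h0 => by
      rw [h0] at hz
      simp only [ZeroMemClass.coe_zero, map_zero] at hz
      linarith
    refine IsUnit.of_mul_eq_one ⟨(z : K)⁻¹, (hO _).2 ?_⟩ (Subtype.ext (mul_inv_cancel₀ h0))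
    rw [Subfield.coe_inv, map_inv₀]
    exact inv_le_one_of_one_le₀ hz

theorem e2_wf {K : Subfield Ω} {O : ValuationSubring K} (hO : ∀ z : K, z ∈ O ↔ ν z ≤ 1) {c : ℝ}
    (hc : c < 1) (hc0 : 0 < c) (hd : ∀ z ∈ K, ν z < 1 → ν z ≤ c) : WfDvdMonoid O := by
  have key : ∀ (k : ℕ) (b : O), c ^ k < ν ((b : K) : Ω) → Acc DvdNotUnit b := fun k => by
    induction k with
    | zero => exact fun b hb => absurd ((hO _).1 b.2) (not_le.2 (by simpa using hb))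
    | succ k ih =>
      refine fun b hb => ⟨_, fun a ⟨_, y, hy, e⟩ => ih a ?_⟩
      have h1 := hd _ (y : K).2 ((e2_max hO y).1 hy)
      rw [e, MulMemClass.coe_mul, Subfield.coe_mul, map_mul, pow_succ] at hb
      exact lt_of_mul_lt_mul_right (hb.trans_le (mul_le_mul_of_nonneg_left h1 (ν.nonneg _))) hc0.le
  refine ⟨⟨fun b => ⟨_, fun a ha => ?_⟩⟩⟩
  have h0 : ((a : K) : Ω) ≠ 0 := by simpa using ha.1
  obtain ⟨k, hk⟩ := exists_pow_lt_of_lt_one (ν.pos h0) hc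
  exact key k a hk

/-- The values below one are bounded away from one (`Loc.rich`), and `p` is a nonzero element of
the maximal ideal. -/
theorem Loc.exists_dvr [CharZero Ω] (h : Loc ν p G) (T : Finset Ω) :
    ∃ (K : Subfield Ω) (O : ValuationSubring K), (∀ z ∈ T, z ∈ K) ∧
      (∀ z : K, z ∈ O ↔ ν z ≤ 1) ∧ IsDiscreteValuationRing O ∧
      ∀ z : O, z ∈ IsLocalRing.maximalIdeal O ↔ ν ((z : K) : Ω) < 1 := by
  obtain ⟨V, hV, -⟩ := Ks.exists_valuationSubring (K := Ω) h.na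
  obtain ⟨-, η, -, -, -, h0, h1, h2⟩ := h.rich T 1
  let K := Subfield.closure (T : Set Ω)
  let O := V.comap K.subtype
  have hO : ∀ z : K, z ∈ O ↔ ν z ≤ 1 := fun z => hV _
  refine ⟨K, O, fun z hz => Subfield.subset_closure hz, hO, ?_, e2_max hO⟩
  have hw : WfDvdMonoid O := e2_wf hO h1 (ν.pos h0) (by simpa only [pow_one] using h2)
  have hp : IsPrincipalIdealRing O := (IsBezout.TFAE.out 3 1).mp hw
  refine ⟨fun hb => ?_⟩
  have hm : (p : O) ∈ IsLocalRing.maximalIdeal O := (e2_max hO _).2 (by simpa using h.lt)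
  rw [hb, Ideal.mem_bot] at hm
  exact h.prime.ne_zero (Nat.cast_eq_zero.1 hm)

end Pool.Agent.Lib.MP_07b2d0_nt.G3
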