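import Pool.Agent.Lib.MP_07b2d0_nt.G3.P0b
import Pool.Agent.Lib.MP_07b2d0_nt.G3.E2

/-!
The parity relations.
-/

set_option autoImplicit false

namespace Pool.Agent.Lib.MP_07b2d0_nt.G3

open Polynomial Fh

variable {Ω : Type} [Field Ω] [IsAlgClosed Ω] [CharZero Ω] {ν : AbsoluteValue Ω ℝ} {p : ℕ}
  {G : (Ω ≃+* Ω) → Prop} {a : Co Ω} {x : Fin 6 → Ω} {h : Ω}

/-- A quadratic function compatible with `σ` has two roots permuted by `σ`. -/
theorem r1_roots (σ : Ω ≃+* Ω) {α β γ : Ω} (h0 : α ≠ 0) (h1 : σ α = α) (h2 : σ β = β)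
    (h3 : σ γ = γ) : ∃ (s : Fin 2 → Ω) (π : Equiv.Perm (Fin 2)), (∀ j, σ (s j) = s (π j)) ∧
      ∀ z, α * z ^ 2 + β * z + γ = α * (z - s 0) * (z - s 1) := by
  obtain ⟨d, hd⟩ := IsAlgClosed.exists_pow_nat_eq (β ^ 2 - 4 * α * γ) two_pos
  have e : σ d ^ 2 = d ^ 2 := by
    rw [← map_pow, hd]
    simp [h1, h2, h3, map_ofNat]
  have key : ∀ z, α * z ^ 2 + β * z + γ =
      α * (z - (-β + d) / (2 * α)) * (z - (-β - d) / (2 * α)) := fun z => by
    field_simp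
    linear_combination hd
  rcases sq_eq_sq_iff_eq_or_eq_neg.1 e with e | e
  · refine ⟨![(-β + d) / (2 * α), (-β - d) / (2 * α)], 1, fun j => ?_, key⟩
    fin_cases j <;> simp [h1, h2, e, map_ofNat]
  · refine ⟨![(-β + d) / (2 * α), (-β - d) / (2 * α)], Equiv.swap 0 1, fun j => ?_, key⟩
    fin_cases j <;> simp [h1, h2, e, map_ofNat, sub_eq_add_neg]

omit [IsAlgClosed Ω] in
/-- The polar conic on the line `ln = 0`. -/
theorem r1_quad (σ : Ω ≃+* Ω) (hx : ∀ i, σ (x i) = x i) (hh : σ h = h) (j : Fin 6) {A : Ω}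
    (hA : σ A = A) : ∃ β γ : Ω, σ β = β ∧ σ γ = γ ∧
      ∀ z, Qd x h j z (-x j * z - A) = -(x j * (1 - h⁻¹)) * z ^ 2 + β * z + γ := by
  have he : ∀ n, σ (es x n) = es x n := fun n => by
    have := map_es (σ : Ω →+* Ω) x n
    simpa [hx] using this
  have hq : ∀ z, σ z = z → σ (Qd x h j z (-x j * z - A)) = Qd x h j z (-x j * z - A) := by
    intro z hz
    simp [Qd, Q1, Q2, he, hx, hh, hA, hz, map_ofNat]
  refine ⟨Qd x h j 1 (-x j * 1 - A) + x j * (1 - h⁻¹) - Qd x h j 0 (-x j * 0 - A),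
    Qd x h j 0 (-x j * 0 - A), ?_, hq 0 (map_zero σ), fun z => ?_⟩
  · rw [map_sub, map_add, hq 0 (map_zero σ), hq 1 (map_one σ)]
    simp [hx, hh]
  · simp only [Qd, Q1, Q2, Algebra.algebraMap_self, RingHom.id_apply]
    ring

/-- Restrict `Qd x h j` to the line `ln x h j = 0`: it is `- x j u (s - s₁) (s - s₂)` with
`u = 1 - 1 / h`, a quadratic polynomial fixed by `σ`, and `ln' = - x j u (s - s₀)`.  The two points
lie on the curve by `Par.steiner`, and by `Par.Qd_node` the product of the values of `ln'` is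
`- u ^ 3 ∏ / (16 h x j)`.  Apply `UPt` to the parameters of `Par.refl`; the square root of the unit
`- h x j` is fixed (`Loc.sqrt_fix`). -/
theorem r_fix (hL : Loc ν p G) {σ : Ω ≃+* Ω} (hσ : G σ) (hU : UPt a σ) (hP : Par a x h)
    (hs : a.Sm) (hu : Uni ν x h) (hx : ∀ i, σ (x i) = x i) (hh : σ h = h) (j : Fin 6) {r : Ω}
    (hr : r ^ 2 = (1 - h⁻¹) * ∏ i ∈ Finset.univ.erase j, (x j - x i)) : σ r = r := by
  have h1 := hP.h_ne_one hs
  have h0 := hP.ne
  have hj := hP.x_ne j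
  have hu0 : 1 - h⁻¹ ≠ 0 := fun e => h1 (inv_eq_one.1 (sub_eq_zero.1 e).symm)
  have hp0 : ∏ i ∈ Finset.univ.erase j, (x j - x i) ≠ 0 :=
    Finset.prod_ne_zero_iff.2 fun i hi e =>
      (Finset.ne_of_mem_erase hi) (hP.inj hs (sub_eq_zero.1 e)).symm
  have hA : σ (al x h (x j)) = al x h (x j) := by
    have := map_al (σ : Ω →+* Ω) x h (x j)
    simpa [hx, hh] using this
  obtain ⟨β, γ, hβ, hγ, hq⟩ := r1_quad σ hx hh j hA
  have hα : -(x j * (1 - h⁻¹)) ≠ 0 := neg_ne_zero.2 (mul_ne_zero hj hu0)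
  obtain ⟨s, π, hπ, hs'⟩ := r1_roots σ hα (by simp [hx, hh]) hβ hγ
  generalize hA' : al x h (x j) = A at hA hq
  have hl : ∀ z, ln x h j z (-x j * z - A) = 0 := fun z => by
    simp only [ln, Algebra.algebraMap_self, RingHom.id_apply, hA']
    ring
  obtain ⟨s₀, hl'⟩ : ∃ s₀, ∀ z, ln' x h j z (-x j * z - A) = -(x j * (1 - h⁻¹)) * (z - s₀) := by
    refine ⟨(al (fun i => x i / h) h⁻¹ (x j / h) - A) / (x j * (1 - h⁻¹)), fun z => ?_⟩
    simp only [ln, Algebra.algebraMap_self, RingHom.id_apply]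
    rw [mul_sub, neg_mul _ (_ / _), mul_div_cancel₀ _ (mul_ne_zero hj hu0), div_eq_mul_inv]
    ring
  have hn := hP.Qd_node h1 j (hl s₀) (by rw [hl', sub_self, mul_zero])
  rw [hq, hs'] at hn
  obtain ⟨w, hw⟩ := IsAlgClosed.exists_pow_nat_eq (-(h * x j)) two_pos
  have hw0 : w ≠ 0 := fun e => by
    rw [e, zero_pow two_ne_zero, zero_eq_neg] at hw
    exact mul_ne_zero h0 hj hw
  have hw1 : ν w = 1 := by
    have e : ν w ^ 2 = 1 := by rw [← map_pow, hw, ν.map_neg, map_mul, hu.2, hu.1 j, one_mul]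
    exact (pow_eq_one_iff_of_nonneg (ν.nonneg w) two_ne_zero).1 e
  have hwσ : σ w = w := hL.sqrt_fix hσ hw1 (by rw [hw]; simp [hx, hh])
  have hprod : ((1 - h⁻¹) * r / (4 * w)) ^ 2 =
      ∏ i : Fin 2, ln' x h j (s i) (-x j * s i - A) := by
    rw [Fin.prod_univ_two, hl', hl', div_pow, mul_pow, mul_pow, hw, hr]
    generalize ∏ i ∈ Finset.univ.erase j, (x j - x i) = P at hn
    generalize 1 - h⁻¹ = u at hn
    have e : -(x j * u) * (s 0 - s₀) * (-(x j * u) * (s 1 - s₀)) =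
        -(x j * u) * (-(x j * u) * (s₀ - s 0) * (s₀ - s 1)) := by ring
    rw [e, hn]
    field_simp
    ring
  have hr0 : r ≠ 0 := fun e => by
    rw [e, zero_pow two_ne_zero] at hr
    exact mul_ne_zero hu0 hp0 hr.symm
  have hne : ∏ i : Fin 2, ln' x h j (s i) (-x j * s i - A) ≠ 0 := by
    rw [← hprod]
    exact pow_ne_zero _ (div_ne_zero (mul_ne_zero hu0 hr0) (mul_ne_zero (by norm_num) hw0))
  have hfix := hU _ _ hP.refl (fun i => by simp [hx, hh]) (by simp [hh]) j 2 s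
    (fun i => -x j * s i - A) π _ (fun i => ?_) (fun i => ⟨hπ i, by simp [hx, hA, hπ]⟩)
    (fun i => Finset.prod_ne_zero_iff.1 hne i (Finset.mem_univ i)) hprod
  · rw [map_div₀, map_mul, map_mul, hwσ, map_ofNat, map_sub, map_one, map_inv₀, hh,
      div_left_inj' (mul_ne_zero (by norm_num) hw0)] at hfix
    exact mul_left_cancel₀ hu0 hfix
  · have e := hP.steiner j (s i) (-x j * s i - A)
    have e2 : Qd x h j (s i) (-x j * s i - A) = 0 := by
      rw [hq, hs']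
      fin_cases i <;> simp
    rw [e2, hl, Co.up_self] at e
    have e3 : (1 - h⁻¹) ^ 2 * a.F (s i) (-x j * s i - A) = 0 := by simpa using e
    exact (mul_eq_zero.1 e3).resolve_left (pow_ne_zero _ hu0)

end Pool.Agent.Lib.MP_07b2d0_nt.G3
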