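import Pool.Agent.Lib.MP_07b2d0_nt.G3.W0.Br

/-!
The descent lemma.
-/

set_option autoImplicit false

namespace Pool.Agent.Lib.MP_07b2d0_nt.G3

open Polynomial WithZero Fh
open scoped IntermediateField

variable {Ω F : Type} [Field Ω] [IsAlgClosed Ω] [CharZero Ω] [Field F] [Algebra Ω F]

omit [IsAlgClosed Ω] [CharZero Ω] in
theorem u1_ge {v : Plc Ω F} {z : F} (h : v.1 z < 1) : (plE v).Ge z 1 := by
  rcases eq_or_ne z 0 with rfl | h0
  · exact Or.inl rfl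
  · refine Or.inr ?_
    have := (log_lt_log ((map_ne_zero v.1).2 h0) one_ne_zero).2 h
    rw [log_one] at this
    rw [plE_ord]
    omega

omit [CharZero Ω] in
theorem u1_sum [MP_6adaea_nt.IsFF Ω F] (s : W.SA Ω F) {n : ℕ} {v : Fin n → Plc Ω F}
    {π : Equiv.Perm (Fin n)} {g : F} (g0 : g ≠ 0) {a : Fin n → Ω}
    (h1 : ∀ i z, (v (π i)).1 (s.γ z) = (v i).1 z) (h2 : ∀ i, a i ≠ 0 ∧ Kh.Vl (v i) g (a i)) :
    ∃ D : W.Dv Ω F, s.dm D = D ∧ W.deg D = n ∧ W.Dj g D ∧ W.evD g D = ∏ i, a i := by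
  have h3 : ∀ i, W.val (plE (v i)) g = a i := fun i => W.val_eq (u1_ge (h2 i).2)
  have h4 : ∀ i ∈ Finset.univ, W.Dj g (Finsupp.single (plE (v i)) 1) := fun i _ =>
    ⟨g0, fun w hw => by
      obtain rfl : w = plE (v i) := by_contra fun h => hw (Finsupp.single_eq_of_ne h)
      exact (W.ord_of_val_ne (h3 i ▸ (h2 i).1)).2⟩
  refine ⟨∑ i, Finsupp.single (plE (v i)) 1, ?_, by simp [map_sum], W.Dj.sum g0 h4, ?_⟩
  · rw [map_sum]
    refine (Finset.sum_congr rfl fun i _ => ?_).trans (Equiv.sum_comp π _)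
    rw [s.dm_single]
    congr 1
    refine MP_6adaea_nt.Place.ext (funext fun z => ?_)
    obtain ⟨z, rfl⟩ := s.γ.surjective z
    rw [s.pl_ord, plE_ord, plE_ord, h1]
  · rw [W.evD_sum g0 h4]
    exact Finset.prod_congr rfl fun i _ => by rw [W.evD_single, zpow_one, h3]

/-- `half_iff` and `Hf.sqrt` for `D = ∑ v i - ∑ w i`. -/
theorem Half.desc {z : F} (hz : Transcendental Ω z) (hf : FiniteDimensional Ω⟮z⟯ F)
    {σ : Ω ≃+* Ω} {S : F ≃+* F} {hS : ∀ c, S (algebraMap Ω F c) = algebraMap Ω F (σ c)}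
    (H : Half σ S hS) : Desc σ S := by
  have := isFF_of hz hf
  intro n v w π π' g a b r hg h2 hv hw ha hb hr
  rcases eq_or_ne g 0 with rfl | g0
  · rcases n with _ | n
    · rcases sq_eq_one_iff.1 (show r ^ 2 = 1 by simpa using hr) with rfl | rfl <;> simp
    · have := (ha 0).2
      rw [Kh.Vl, zero_sub, Valuation.map_neg, plc_const _ (ha 0).1] at this
      exact absurd this (lt_irrefl _)
  obtain ⟨D, d1, d2, d3, d4⟩ := u1_sum ⟨S, σ, hS⟩ g0 hv ha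
  obtain ⟨E, e1, e2, e3, e4⟩ := u1_sum ⟨S, σ, hS⟩ g0 hw hb
  refine ((half_iff ⟨S, σ, hS⟩).1 H).sqrt hg (fun w => ?_) (D := D - E) (by rw [map_sub, d1, e1])
    (by rw [map_sub, d2, e2, sub_self]) (d3.sub e3) ?_
  · obtain ⟨v, rfl⟩ := plE.surjective w
    exact (even_iff_two_dvd.2 (h2 v.1 v.2.2)).neg
  · rw [W.evD_sub d3 e3, d4, e4, ← hr, mul_div_cancel_right₀ _ (e4 ▸ W.evD_ne_zero e3)]

end Pool.Agent.Lib.MP_07b2d0_nt.G3
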