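import Pool.Agent.Lib.MP_07b2d0_nt.G3.C5b
import Pool.Agent.Lib.MP_07b2d0_nt.Kh.VBas

/-!
The descent lemma in terms of points.
-/

set_option autoImplicit false

namespace Pool.Agent.Lib.MP_07b2d0_nt.G3

open Polynomial WithZero Fh

variable {Ω F : Type} [Field Ω] [IsAlgClosed Ω] [CharZero Ω] [Field F] [Algebra Ω F] {a : Co Ω}
  {s t : F} {σ : Ω ≃+* Ω} {S : F ≃+* F}

omit [IsAlgClosed Ω] [CharZero Ω] in
/-- The value at the second place at infinity. -/
theorem u2_inf (he : (a.up F).F s t = 0) {Q : Plc Ω F} (hQ : IsP Q t s) (x : Fin 6 → Ω) (g : Ω)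
    (i : Fin 6) {ι : Ω} (hι : ι ^ 2 = -1) (m : Ω) : Kh.Vl Q (ln x g i s t *
      (algebraMap Ω F ι * (s + t + algebraMap Ω F m) / (s * t + algebraMap Ω F m)) ^ 2) 1 := by
  have ht : t ≠ 0 := fun e => by simpa [e] using hQ.1.symm
  have hu : Kh.Vl Q t⁻¹ 0 := Kh.vl_zero.2 (by
    rw [map_inv₀, hQ.1, ← exp_neg, ← exp_zero, exp_lt_exp]
    norm_num)
  have hp : Kh.Vl Q (s / t) 0 := Kh.vl_zero.2 (by
    rw [map_div₀, hQ.1, hQ.2, ← exp_sub, ← exp_zero, exp_lt_exp]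
    norm_num)
  have c := Kh.vl_const Q
  have h1 := ((c 1).add ((c (x i)).mul hp)).add ((c (al x g (x i))).mul hu)
  have h2 := (c ι).mul ((hp.add (c 1)).add ((c m).mul hu))
  have h3 := ((((((((c (-1)).sub (hp.pow 3)).sub (((c a.q0).mul (hp.pow 2)).mul hu)).sub
    ((c a.q2).mul hu)).sub (((c a.r0).mul hp).mul (hu.pow 2))).sub ((c a.r1).mul (hu.pow 2))).sub
    ((c a.e).mul (hu.pow 3))).add (((c (2 * (m - a.c))).mul hp).mul hu)).add
    ((c (m ^ 2 - a.c ^ 2)).mul (hu.pow 3))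
  have e3 : Kh.Vl Q ((s * t + algebraMap Ω F m) ^ 2 * t⁻¹ ^ 3) (-1) := by
    refine (congrArg₂ (Kh.Vl Q) ?_ (by ring)).mp h3
    simp only [Co.F, Co.map] at he
    simp only [map_neg, map_one, map_mul, map_sub, map_pow, map_ofNat]
    field_simp
    linear_combination -he
  have h0 : s * t + algebraMap Ω F m ≠ 0 := fun e => by
    simpa [e] using e3.eq_one (neg_ne_zero.2 one_ne_zero)
  refine (congrArg₂ (Kh.Vl Q) ?_ ?_).mp
    ((h1.mul (h2.pow 2)).div e3 (neg_ne_zero.2 one_ne_zero))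
  · simp only [ln, map_one]
    field_simp
  · simp [hι]

/-- Apply `Desc` to `g = - ln * ((s + t + ν) / (s t + μ)) ^ 2` with natural numbers `μ`, `ν` such that
the two factors do not vanish at the given points, `v j` the places at the points
(`Cv.exists_at`) and all `w j = Q`, where `g` takes the value `1` (`s ^ 2 t ^ 2 / t ^ 3` takes the
value `-1`).  The product of the values of `(s + t + ν) / (s t + μ)` is fixed by `σ`. -/
theorem Desc.upt (h : Cv a s t) (hS : ∀ c, S (algebraMap Ω F c) = algebraMap Ω F (σ c))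
    (h1 : S s = s) (h2 : S t = t) (hi : ∀ z : Ω, z ^ 2 = -1 → σ z = z) (H : Desc σ S) :
    UPt a σ := by
  intro x g hP hx hg i n s₀ t₀ π r h0 hπ hl hr
  classical
  obtain ⟨ι, hι⟩ := IsAlgClosed.exists_pow_nat_eq (-1 : Ω) two_pos
  have hι0 : ι ≠ 0 := fun e => by simp [e] at hι
  obtain ⟨m, hm⟩ := (((Set.finite_range fun j => -(s₀ j * t₀ j)).union
    (Set.finite_range fun j => -(s₀ j + t₀ j))).preimage
    (Nat.cast_injective (R := Ω)).injOn).exists_notMem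
  have m1 : ∀ j, s₀ j * t₀ j + m ≠ 0 := fun j e =>
    hm (Or.inl ⟨j, neg_eq_of_add_eq_zero_right e⟩)
  have m2 : ∀ j, s₀ j + t₀ j + m ≠ 0 := fun j e =>
    hm (Or.inr ⟨j, neg_eq_of_add_eq_zero_right e⟩)
  choose v hv hv' _ using fun j => h.exists_at (h0 j)
  obtain ⟨Q, hQ, -, hQ'⟩ := h.swap.exists_P
  have hq := u2_inf h.eq hQ x g i hι m
  have hy : ∀ j, ι * (s₀ j + t₀ j + m) / (s₀ j * t₀ j + m) ≠ 0 := fun j =>
    div_ne_zero (mul_ne_zero hι0 (m2 j)) (m1 j)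
  have key := H n v (fun _ => Q) π 1 _
    (fun j => ln x g i (s₀ j) (t₀ j) * (ι * (s₀ j + t₀ j + m) / (s₀ j * t₀ j + m)) ^ 2)
    (fun _ => 1) (r * ∏ j, ι * (s₀ j + t₀ j + m) / (s₀ j * t₀ j + m)) ?_ ?_ (fun j z => ?_)
    (fun _ z => ?_) (fun j => ⟨mul_ne_zero (hl j) (pow_ne_zero 2 (hy j)), ?_⟩)
    (fun _ => ⟨one_ne_zero, hq⟩) ?_
  · rw [map_mul, map_prod, ← Equiv.prod_comp π fun j => ι * (s₀ j + t₀ j + m) / (s₀ j * t₀ j + m)]
      at key
    simp only [map_div₀, map_mul, map_add, map_natCast, hi ι hι, (hπ _).1, (hπ _).2] at key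
    exact mul_right_cancel₀ (Finset.prod_ne_zero_iff.2 fun j _ => hy (π j)) key
  · have e : σ (al x g (x i)) = al x g (x i) := (map_al (σ : Ω →+* Ω) x g (x i)).trans (by
      simp only [RingHom.coe_coe, hx, hg])
    simp only [ln, map_mul, map_pow, map_div₀, map_add, hS, h1, h2, hx, e, hi ι hι, map_natCast]
  · intro w hw
    have hη : algebraMap Ω F ι * (s + t + algebraMap Ω F m) / (s * t + algebraMap Ω F m) ≠ 0 :=
      fun e => by
        have h3 := hq.eq_one one_ne_zero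
        rw [e, zero_pow two_ne_zero, mul_zero, map_zero] at h3
        exact zero_ne_one h3
    rw [map_mul, map_pow, log_mul ((Valuation.ne_zero_iff w).2 (h.ln_ne x g i))
      (pow_ne_zero _ ((Valuation.ne_zero_iff w).2 hη)), log_pow, nsmul_eq_mul]
    exact dvd_add (h.divBy_ln hP i w hw) (dvd_mul_right _ _)
  · have e : ∀ (y : F) (c : Ω), S y = y → Kh.Vl (v (π j)) y (σ c) →
        Kh.Vl ((Plc.act σ S hS).symm (v (π j))) y c := fun y c e1 e2 => by
      change (v (π j)).1 (S (y - algebraMap Ω F c)) < 1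
      rwa [map_sub, e1, hS]
    exact congrArg (fun w : Plc Ω F => w.1 z) (hv' j _
      ⟨e _ _ h1 ((hπ j).1 ▸ (hv _).1), e _ _ h2 ((hπ j).2 ▸ (hv _).2)⟩)
  · refine congrArg (fun w : Plc Ω F => w.1 z) (hQ' ((Plc.act σ S hS).symm Q) ?_ ?_)
    · change 1 < Q.1 (S t)
      rw [h2, hQ.1, ← exp_zero, exp_lt_exp]
      norm_num
    · change Q.1 (S s) < Q.1 (S t)
      rw [h1, h2, hQ.1, hQ.2, exp_lt_exp]
      norm_num
  · have c := Kh.vl_const (v j)
    exact (((hv j).2.add ((c _).mul (hv j).1)).add (c _)).mul ((((c ι).mul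
      (((hv j).1.add (hv j).2).add (c m))).div (((hv j).1.mul (hv j).2).add (c m)) (m1 j)).pow 2)
  · rw [Finset.prod_const_one, mul_one, mul_pow, hr, Finset.prod_mul_distrib, Finset.prod_pow]

end Pool.Agent.Lib.MP_07b2d0_nt.G3
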