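import Pool.Agent.Lib.MP_07b2d0_nt.G3.X2

/-!
A triple point with two tangents.
-/

set_option autoImplicit false

namespace Pool.Agent.Lib.MP_07b2d0_nt.G3

open Polynomial Fh

variable {Ω : Type} [Field Ω] [IsAlgClosed Ω] [CharZero Ω] {ν : AbsoluteValue Ω ℝ} {p : ℕ}
  {G : (Ω ≃+* Ω) → Prop} {a : Co Ω} {x : Fin 6 → Ω} {h : Ω}

omit [CharZero Ω] in
/-- The point of the curve on the line `T = τ S`. -/
theorem x2b_core (hna : IsNonarchimedean ν) {σ : Ω ≃+* Ω} (hσ : ∀ z, ν (σ z) = ν z)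
    {τ w P : Ω} {d : Fin 9 → Ω} {e : ℝ} (he0 : 0 < e) (he1 : e < 1) (hP : ν P = e ^ 2)
    (hτ : ν τ = 1) (hw : τ * w = 1) (fτ : σ τ = τ) (fw : σ w = w) (fP : σ P = P)
    (fd : ∀ j, σ (d j) = d j) (hd : ∀ j, ν (d j) ≤ e ^ 20) :
    ∃ S, σ S = S ∧ S ^ 2 * (τ * S) ^ 2 + S ^ 3 * P + low d S (τ * S) = 0 ∧
      ν (S + P * w ^ 2) ≤ e ^ 14 := by
  have bP : ν P ≤ 1 := hP ▸ pow_le_one₀ he0.le he1.le
  have bτ : ν τ ≤ 1 := hτ.le
  have bd : ∀ j, ν (d j) ≤ 1 := fun j => (hd j).trans (pow_le_one₀ he0.le he1.le)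
  have b2 : ν (2 : Ω) ≤ 1 := by simpa using hna.apply_natCast_le_one (n := 2)
  have b3 : ν (3 : Ω) ≤ 1 := by simpa using hna.apply_natCast_le_one (n := 3)
  have nw : ν w = 1 := by
    have := congrArg ν hw
    rwa [map_mul, hτ, one_mul, map_one] at this
  have nS : ν (-(P * w ^ 2)) = e ^ 2 := by rw [ν.map_neg, map_mul, map_pow, nw, hP, one_pow, mul_one]
  have eS : τ ^ 2 * -(P * w ^ 2) = -P := by linear_combination (-P * (τ * w + 1)) * hw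
  have e2 : ∀ S : Ω, S + P * w ^ 2 = S - -(P * w ^ 2) := fun S => by ring
  have fS : σ (-(P * w ^ 2)) = -(P * w ^ 2) := by simp only [map_neg, map_mul, map_pow, fP, fw]
  simp only [e2]
  generalize -(P * w ^ 2) = S₀ at nS eS fS
  have bS : ν S₀ ≤ 1 := nS ▸ pow_le_one₀ he0.le he1.le
  have s3 : ν (d 0 + d 1 * τ + d 2 * τ ^ 2) ≤ e ^ 20 :=
    na_add_le hna (na_add_le hna (hd 0) (x2_mul (hd 1) bτ)) (x2_mul (hd 2) (x2_pow bτ 2))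
  have s2 : ν (d 3 + d 4 * τ + d 5 * τ ^ 2) ≤ e ^ 20 :=
    na_add_le hna (na_add_le hna (hd 3) (x2_mul (hd 4) bτ)) (x2_mul (hd 5) (x2_pow bτ 2))
  have s1 : ν (d 6 + d 7 * τ) ≤ e ^ 20 := na_add_le hna (hd 6) (x2_mul (hd 7) bτ)
  have f3 : σ (d 0 + d 1 * τ + d 2 * τ ^ 2) = d 0 + d 1 * τ + d 2 * τ ^ 2 := by
    simp only [map_add, map_mul, map_pow, fτ, fd]
  have f2 : σ (d 3 + d 4 * τ + d 5 * τ ^ 2) = d 3 + d 4 * τ + d 5 * τ ^ 2 := by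
    simp only [map_add, map_mul, map_pow, fτ, fd]
  have f1 : σ (d 6 + d 7 * τ) = d 6 + d 7 * τ := by simp only [map_add, map_mul, fτ, fd]
  have el : ∀ S : Ω, low d S (τ * S) = d 8 + (d 6 + d 7 * τ) * S +
      (d 3 + d 4 * τ + d 5 * τ ^ 2) * S ^ 2 + (d 0 + d 1 * τ + d 2 * τ ^ 2) * S ^ 3 := fun S => by
    unfold low
    ring
  simp only [el]
  generalize d 0 + d 1 * τ + d 2 * τ ^ 2 = c₃ at s3 f3
  generalize d 3 + d 4 * τ + d 5 * τ ^ 2 = c₂ at s2 f2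
  generalize d 6 + d 7 * τ = c₁ at s1 f1
  have q1 : e ^ 20 ≤ 1 := pow_le_one₀ he0.le he1.le
  have e0 : d 8 + c₁ * S₀ + c₂ * S₀ ^ 2 + (P + c₃) * S₀ ^ 3 + τ ^ 2 * S₀ ^ 4 =
      d 8 + c₁ * S₀ + c₂ * S₀ ^ 2 + c₃ * S₀ ^ 3 := by linear_combination S₀ ^ 3 * eS
  have e1 : c₁ + 2 * c₂ * S₀ + 3 * (P + c₃) * S₀ ^ 2 + 4 * τ ^ 2 * S₀ ^ 3 =
      -P * S₀ ^ 2 + (c₁ + c₂ * (2 * S₀) + c₃ * (3 * S₀ ^ 2)) := by
    linear_combination 4 * S₀ ^ 2 * eS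
  have hV : ν (d 8 + c₁ * S₀ + c₂ * S₀ ^ 2 + c₃ * S₀ ^ 3) ≤ e ^ 20 :=
    na_add_le hna (na_add_le hna (na_add_le hna (hd 8) (x2_mul s1 bS)) (x2_mul s2 (x2_pow bS 2)))
      (x2_mul s3 (x2_pow bS 3))
  have hs : ν (c₁ + c₂ * (2 * S₀) + c₃ * (3 * S₀ ^ 2)) ≤ e ^ 20 :=
    na_add_le hna (na_add_le hna s1 (x2_mul s2 (x2_mul b2 bS))) (x2_mul s3 (x2_mul b3 (x2_pow bS 2)))
  have n6 : ν (-P * S₀ ^ 2) = e ^ 6 := by
    rw [map_mul, ν.map_neg, map_pow, nS, hP]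
    ring
  have hD : ν (c₁ + 2 * c₂ * S₀ + 3 * (P + c₃) * S₀ ^ 2 + 4 * τ ^ 2 * S₀ ^ 3) = e ^ 6 := by
    rw [e1, na_add_eq hna, n6]
    rw [n6]
    exact hs.trans_lt (pow_lt_pow_right_of_lt_one₀ he0 he1 (by norm_num))
  obtain ⟨S, f, hz, hn⟩ := newton hna hσ (c₀ := d 8) (c₁ := c₁) (c₂ := c₂) (c₃ := P + c₃)
    (c₄ := τ ^ 2) (T₀ := S₀) (fd 8) f1 f2 (by rw [map_add, fP, f3]) (by rw [map_pow, fτ]) fS
    (s1.trans q1) (s2.trans q1) (na_add_le hna bP (s3.trans q1)) (x2_pow bτ 2) bS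
    (by
      rw [e0, hD, ← pow_mul]
      exact hV.trans_lt (pow_lt_pow_right_of_lt_one₀ he0 he1 (by norm_num)))
  refine ⟨S, f, by linear_combination hz, ?_⟩
  rw [e0, hD] at hn
  refine le_of_mul_le_mul_right ?_ (pow_pos he0 6)
  rw [← pow_add]
  exact hn.le.trans hV

/-- `T = τ S`, `τ = ε - x 4`, `S₀ = - (τ + x 0) (τ + x 2) ε / τ ^ 2`; `newton` in `S`, the derivative
has size `ν ε ^ 3`.  The line `ln x h 0` is about `S₀ (x 0 - x 4)`. -/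
theorem x_triple (hL : Loc ν p G) (hU : ∀ σ, G σ → UPt a σ) (hP : Par a x h) (H : Pair ν x h)
    (h1 : ν (x 0 * x 2 * x 4 - 1) < 1) (h2 : ν (x 0 - x 4) = 1) (h3 : ν (x 2 - x 4) = 1) :
    False := by
  classical
  have hna := hL.na
  obtain ⟨d, hd, hK, hF⟩ := Pair.triple hP H h1
  obtain ⟨γ, hγ⟩ := IsAlgClosed.exists_pow_nat_eq (-(x 2 - x 4)) two_pos
  obtain ⟨σ, η, hσ, hfix, hη, hη0, hη1, hsm⟩ :=
    hL.rich (insert γ (insert h (Finset.univ.image x))) 20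
  generalize hT : insert γ (insert h (Finset.univ.image x)) = T at hfix hsm
  have mx : ∀ i, x i ∈ T := fun i => by simp [← hT]
  have mh : h ∈ T := by simp [← hT]
  have mγ : γ ∈ T := by simp [← hT]
  have kx : ∀ i, x i ∈ Subfield.closure (T : Set Ω) := fun i => Subfield.subset_closure (mx i)
  have kh : h ∈ Subfield.closure (T : Set Ω) := Subfield.subset_closure mh
  have fK : ∀ z ∈ Subfield.closure (T : Set Ω), σ z = z := fun z hz =>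
    (Subfield.closure_le (t := RingHom.eqLocusField (σ : Ω →+* Ω) (RingHom.id Ω))).2
      (fun y hy => hfix y hy) hz
  generalize Subfield.closure (T : Set Ω) = K at kx kh fK hsm
  have fx : ∀ i, σ (x i) = x i := fun i => fK _ (kx i)
  have e0 : 0 < ν η := ν.pos hη0
  have q : ∀ n : ℕ, 2 < n → ν η ^ n < ν η ^ 2 := fun n hn =>
    pow_lt_pow_right_of_lt_one₀ e0 hη1 hn
  have sε : ν (η ^ 2) < 1 := by
    rw [map_pow]
    exact pow_lt_one₀ e0.le hη1 two_ne_zero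
  have fε : σ (η ^ 2) = η ^ 2 := by rw [map_pow, hη, neg_sq]
  have un : ∀ z : Ω, ν z = 1 → ν (z + η ^ 2) = 1 := fun z hz => by
    rw [na_add_eq hna (by rwa [hz]), hz]
  have nτ : ν (-x 4 + η ^ 2) = 1 := un _ (by rw [ν.map_neg, H.uni.1 4])
  have n0 := un _ h2
  have n2 := un _ h3
  have τ0 : -x 4 + η ^ 2 ≠ 0 := fun h0 => by simp [h0] at nτ
  have fτ : σ (-x 4 + η ^ 2) = -x 4 + η ^ 2 := by rw [map_add, map_neg, fx, fε]
  have fw : σ (-x 4 + η ^ 2)⁻¹ = (-x 4 + η ^ 2)⁻¹ := by rw [map_inv₀, fτ]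
  have nw : ν (-x 4 + η ^ 2)⁻¹ = 1 := by rw [map_inv₀, nτ, inv_one]
  have hw := mul_inv_cancel₀ τ0
  generalize (-x 4 + η ^ 2)⁻¹ = w at fw nw hw
  obtain ⟨s, fs, hz, hn⟩ := x2b_core hna (hL.iso σ hσ) (d := d)
    (P := (x 0 - x 4 + η ^ 2) * (x 2 - x 4 + η ^ 2) * η ^ 2) e0 hη1
    (by rw [map_mul, map_mul, n0, n2, map_pow, one_mul, one_mul]) nτ hw fτ fw
    (by simp only [map_mul, map_add, map_sub, fx, fε])
    (fun j => fK _ (hK K kx kh j)) (fun j => hsm _ (hK K kx kh j) (hd j))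
  have he : a.F (es x 1 / 4 + s) (es x 5 / 4 + (-x 4 + η ^ 2) * s) = 0 := by
    refine (hF Ω (RingHom.id Ω) s ((-x 4 + η ^ 2) * s)).trans ?_
    simp only [RingHom.id_apply]
    linear_combination hz
  have k4 : (4 : Ω) ∈ K := ofNat_mem K 4
  have nγ : ν γ = 1 := by
    have : ν γ ^ 2 = 1 := by rw [← map_pow, hγ, ν.map_neg, h3]
    exact (pow_eq_one_iff_of_nonneg (ν.nonneg _) two_ne_zero).1 this
  refine Loc.odd hL hσ (hU σ hσ) hP fx (fK _ kh) 0 he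
    (by rw [map_add, fK _ (div_mem (x2_es K kx 1) k4), fs])
    (by rw [map_add, fK _ (div_mem (x2_es K kx 5) k4), map_mul, fτ, fs])
    (β := (x 0 - x 4 + η ^ 2) * w * γ * η)
    (by rw [map_mul, map_mul, map_mul, map_add, map_sub, fx, fx, fε, fw, hfix γ mγ, hη, mul_neg]) ?_
  have e3 : ln x h 0 (es x 1 / 4 + s) (es x 5 / 4 + (-x 4 + η ^ 2) * s) -
      ((x 0 - x 4 + η ^ 2) * w * γ * η) ^ 2 =
      (s + (x 0 - x 4 + η ^ 2) * (x 2 - x 4 + η ^ 2) * η ^ 2 * w ^ 2) * (x 0 - x 4 + η ^ 2) -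
        η ^ 4 * ((x 0 - x 4 + η ^ 2) * w) ^ 2 + ln x h 0 (es x 1 / 4) (es x 5 / 4) := by
    simp only [ln, Algebra.algebraMap_self, RingHom.id_apply]
    linear_combination (-((x 0 - x 4 + η ^ 2) * w * η) ^ 2) * hγ
  rw [e3, map_mul, map_mul, map_mul, n0, nw, nγ, one_mul, one_mul, one_mul]
  exact na_add_lt hna (na_sub_lt hna ((x2_mul hn n0.le).trans_lt (q 14 (by norm_num)))
    ((x2_mul (map_pow ν η 4).le (x2_pow (x2_mul n0.le nw.le) 2)).trans_lt (q 4 (by norm_num))))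
    ((hsm _ (x2_ln K kx kh 0) (Pair.line hP H 0)).trans_lt (q 20 (by norm_num)))

end Pool.Agent.Lib.MP_07b2d0_nt.G3
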