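import Pool.Agent.Lib.MP_07b2d0_nt.G3.E6b

/-!
The comparison of two coefficients.
-/

set_option autoImplicit false
set_option linter.unusedSectionVars false

namespace Pool.Agent.Lib.MP_07b2d0_nt.G3

open Pool.Agent.Lib.MP_6adaea_nt W PowerSeries

variable {Ω F : Type} [Field Ω] [Field F] [Algebra Ω F] [IsAlgClosed Ω] [IsFF Ω F] [CharZero Ω]
  {ν : AbsoluteValue Ω ℝ} {hna : IsNonarchimedean ν}

theorem e6_ser {a ρ : intO hna ⊤} (ha : a.1 ≠ 0) (h0 : ρ.1 ≠ 0)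
    (hρ : ∀ i : ℕ, 2 ≤ i → ν ρ.1 ^ (i - 1) < ν (i : Ω)) {g u H H' : (intO hna ⊤)⟦X⟧}
    (hu : IsUnit u) (hH : IsUnit H) {D n e d : ℕ} (hn : 0 < n) (hd : 2 ≤ d) (he : e + d = 4 * D)
    (hg : (map (Ideal.Quotient.mk (intM hna ⊤)) g).order = (e : ℕ∞))
    (h : C a * (g * u * X ^ n) =
      (X - C ρ) ^ (2 * D) * (X ^ (2 * D) * ((X - C ρ) ^ n * H - X ^ n * H'))) : False := by
  have h1 : ν ρ.1 < 1 := by simpa using (hρ 2 le_rfl).trans_le (na_nat hna 2)
  have h2 := C_dvd_of_pow ha h1 _ ⟨_, h.symm⟩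
  obtain ⟨L, hL⟩ := C_dvd_of_pow (ρ := 0) ha (by simp) (2 * D) (by rwa [map_zero, sub_zero])
  have h3 : g * u * X ^ n = (X - C ρ) ^ (2 * D) * (X ^ (2 * D) * L) :=
    mul_left_cancel₀ (a := C a) (fun h => ha (congrArg (fun f => (constantCoeff f).1) h)) (by
      rw [h, hL]; ring)
  have h4 := congrArg (fun f => (map (Ideal.Quotient.mk (intM hna ⊤)) f).order) h3
  have rρ : Ideal.Quotient.mk (intM hna ⊤) ρ = 0 := Ideal.Quotient.eq_zero_iff_mem.2 h1
  simp only [map_mul, map_pow, map_sub, map_X, map_C, order_mul, hg, order_X_pow,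
    order_zero_of_unit (hu.map _), rρ, map_zero, sub_zero] at h4
  have h5 : map (Ideal.Quotient.mk (intM hna ⊤)) L ≠ 0 := fun h6 => by
    rw [h6, order_zero, add_top, add_top] at h4
    exact ENat.natCast_ne_top (e + 0 + n) (by exact_mod_cast h4)
  have h6 := coeff_order h5
  rw [← coe_toNat_order h5] at h4
  generalize (map (Ideal.Quotient.mk (intM hna ⊤)) L).order.toNat = f at h4 h6
  have h7 : e + 0 + n = 2 * D + (2 * D + f) := by exact_mod_cast h4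
  rw [coeff_map, ne_eq, Ideal.Quotient.eq_zero_iff_mem] at h6
  have h8 : ∀ j < n, coeff j ((X - C ρ) ^ n * H) = a * coeff j L := fun j hj => by
    rw [← coeff_C_mul, ← hL, map_sub, coeff_X_pow_mul', if_neg hj.not_ge, sub_zero]
  have h9 := binom h0 hρ hn (H := H) (e6_abs_unit (by
    rw [coeff_zero_eq_constantCoeff]; exact hH.map _)) (e := f) (by omega)
  rw [h8 _ (by omega), h8 _ (by omega), Subring.coe_mul, Subring.coe_mul, map_mul, map_mul] at h9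
  exact h6 ((lt_of_mul_lt_mul_left h9 (ν.nonneg _)).trans_le (coeff (n - 1) L).2.2)

theorem e6_abs {x ρ : intO hna ⊤} (hx : ν x.1 = 1) (h0 : ρ.1 ≠ 0)
    (hρ : ∀ i : ℕ, 2 ≤ i → ν ρ.1 ^ (i - 1) < ν (i : Ω)) {P Q : Place Ω F} {U W β δ φ ψ : F}
    (qU : Q.ord U = 1) (qW : Q.Ge W 1) (pU : P.ord (U - algebraMap _ F ρ) = 1) (pW : P.Ge W 1)
    (hβ : β ∈ Algebra.adjoin (intO hna ⊤) {U, W}) (hδ : δ ∈ Algebra.adjoin (intO hna ⊤) {U, W})
    (hrel : W * (1 + U * β + W * δ) =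
      -(algebraMap _ F x ^ 2 * U ^ 2 * (U - algebraMap _ F ρ) ^ 2)) (hφ : φ * ψ = 1) {D : ℕ}
    {s s' : Finset (ℕ × Fin 3)} {c c' : ℕ × Fin 3 → Ω} (hD : ∀ i ∈ s, i.1 + i.2 ≤ D)
    (hD' : ∀ i ∈ s', i.1 + i.2 ≤ D)
    (hs : φ * W ^ D = ∑ i ∈ s, algebraMap Ω F (c i) * (U ^ i.1 * W ^ (D - i.1 - i.2)))
    (hs' : ψ * W ^ D = ∑ i ∈ s', algebraMap Ω F (c' i) * (U ^ i.1 * W ^ (D - i.1 - i.2))) :
    Q.ord φ + P.ord φ = 0 ∧ ¬ 0 < P.ord φ := by
  classical
  let A := Algebra.adjoin (intO hna ⊤) {U, W}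
  let U' : A := ⟨U, Algebra.subset_adjoin (by simp)⟩
  let W' : A := ⟨W, Algebra.subset_adjoin (by simp)⟩
  let E : A := 1 + U' * ⟨β, hβ⟩ + W' * ⟨δ, hδ⟩
  let T : A := U' - algebraMap _ A ρ
  have hrel' : W' * E = -(algebraMap _ A x ^ 2 * U' ^ 2 * T ^ 2) := Subtype.ext hrel
  have h1 : ν ρ.1 < 1 := by simpa using (hρ 2 le_rfl).trans_le (na_nat hna 2)
  obtain ⟨Θ, t1, t2⟩ := exists_exp (intO hna ⊤) qU qW (-(algebraMap _ A x ^ 2 * U' * T ^ 2)).2
    (neg_mem hβ) (neg_mem hδ) (by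
      change W = U * -(algebraMap _ F x ^ 2 * U * (U - algebraMap _ F ρ) ^ 2) + _
      linear_combination hrel)
  let r := Ideal.Quotient.mk (intM hna ⊤)
  let θ : A →+* (intO hna ⊤ ⧸ intM hna ⊤)⟦X⟧ := (map r).comp Θ.toRingHom
  have ΘC : ∀ c, Θ (algebraMap _ A c) = C c := Θ.commutes
  have hθ : ∀ c, θ (algebraMap _ A c) = C (r c) := fun c =>
    (congrArg (map r) (ΘC c)).trans (map_C r c)
  have ΘU : Θ U' = X := t1 U' rfl
  have ΘT : Θ T = X - C ρ := by rw [map_sub, ΘU, ΘC]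
  have θU : θ U' = X := (congrArg (map r) ΘU).trans (map_X r)
  have rρ : r ρ = 0 := Ideal.Quotient.eq_zero_iff_mem.2 h1
  have hA : ∀ y : A, Q.Ge y.1 0 := fun y => (t2 y 0).1 (by simp)
  have hP : ∀ y : A, P.Ge y.1 0 := fun y => by
    obtain ⟨c, hc⟩ := e6_val (Place.Ge.of_le pU.ge) pW y.2
    exact sub_add_cancel y.1 (algebraMap _ F c) ▸ (hc.mono zero_le_one).add (P.ge_const c.1)
  have qE : Q.Ge ((E - 1 : A) : F) 1 := by
    rw [show E - 1 = U' * ⟨β, hβ⟩ + W' * ⟨δ, hδ⟩ by simp only [E]; ring]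
    exact ((Place.Ge.of_le qU.ge).mul (hA _)).add (qW.mul (hA _))
  have uE : IsUnit (Θ E) := by
    have := (t2 _ 1).2 qE
    rw [pow_one, X_dvd_iff, map_sub, map_sub, map_one, map_one, sub_eq_zero] at this
    rw [isUnit_iff_constantCoeff, this]
    exact isUnit_one
  have ΘW : Θ W' * Θ E = -(C x ^ 2 * X ^ 2 * (X - C ρ) ^ 2) := by
    rw [← map_mul, hrel', map_neg, map_mul, map_mul, map_pow, map_pow, map_pow, ΘC, ΘU, ΘT]
  have ux := e6_unit hx
  have θW : (θ W').order = 4 := by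
    have := congrArg (fun f => (map r f).order) ΘW
    simp only [map_mul, map_pow, map_neg, map_sub, map_X, map_C, order_mul, order_neg, rρ,
      map_zero, sub_zero, order_X_pow, order_zero_of_unit (uE.map _),
      order_zero_of_unit (((ux.map r).map C).pow 2), add_zero, zero_add] at this
    exact this.trans (by norm_num)
  obtain ⟨E0, oE⟩ := Place.ord_add_of_ge (v := Q) (f := 1) one_ne_zero (by simpa using qE)
  rw [Q.ord_one, add_sub_cancel] at oE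
  rw [add_sub_cancel] at E0
  have pE : P.ord E.1 = 0 := by
    obtain ⟨b, hb⟩ := e6_val (Place.Ge.of_le pU.ge) pW hβ
    have h2 : (1 + ρ * b).1 ≠ 0 := ν.pos_iff.1 (by
      change 0 < ν (1 + (ρ * b).1)
      rw [na_add_eq hna (((intM hna ⊤).mul_mem_right b h1).trans_eq (map_one ν).symm)]
      simp)
    have := (Place.ord_add_of_ge (v := P) (f := algebraMap Ω F (1 + ρ * b).1)
      ((map_ne_zero _).2 h2)
      (g := (U - algebraMap _ F ρ) * β + algebraMap _ F ρ * (β - algebraMap _ F b) + W * δ) (by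
        rw [P.ord_const]
        exact (((Place.Ge.of_le pU.ge).mul (hP ⟨β, hβ⟩)).add ((P.ge_const ρ.1).mul hb)).add
          (pW.mul (hP ⟨δ, hδ⟩)))).2
    rw [P.ord_const] at this
    refine (congrArg P.ord ?_).trans this
    change 1 + U * β + W * δ = algebraMap (intO hna ⊤) F (1 + ρ * b) + _
    rw [map_add, map_mul, map_one]
    ring
  have U0 := ne_of_ord qU
  have T0 := ne_of_ord pU
  have ρ0 : algebraMap Ω F ρ.1 ≠ 0 := by simpa using h0
  have x0 : algebraMap (intO hna ⊤) F x ≠ 0 :=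
    (map_ne_zero (algebraMap Ω F)).2 (ν.pos_iff.1 (hx ▸ one_pos))
  have qT : Q.ord (U - algebraMap _ F ρ) = 0 := by
    have := (Place.ord_add_of_ge (v := Q) (neg_ne_zero.2 ρ0) (g := U) (by
      rw [Q.ord_neg, Q.ord_const]; exact Or.inr qU.ge)).2
    rwa [Q.ord_neg, Q.ord_const, neg_add_eq_sub] at this
  have pU0 : P.ord U = 0 := by
    have := (Place.ord_add_of_ge (v := P) ρ0 (g := U - algebraMap _ F ρ) (by
      rw [P.ord_const]; exact Or.inr pU.ge)).2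
    rwa [P.ord_const, show algebraMap Ω F ρ.1 = algebraMap _ F ρ from rfl, add_sub_cancel] at this
  have W0 : W ≠ 0 := left_ne_zero_of_mul (hrel ▸ neg_ne_zero.2
    (mul_ne_zero (mul_ne_zero (pow_ne_zero _ x0) (pow_ne_zero _ U0)) (pow_ne_zero _ T0)))
  have oW : ∀ v : Place Ω F, v.ord E.1 = 0 →
      v.ord W = 2 * (v.ord U + v.ord (U - algebraMap _ F ρ)) := fun v hv => by
    have := congrArg v.ord (show W * E.1 = _ from hrel)
    rw [v.ord_mul W0 E0, v.ord_neg, v.ord_mul (mul_ne_zero (pow_ne_zero _ x0) (pow_ne_zero _ U0))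
      (pow_ne_zero _ T0), v.ord_mul (pow_ne_zero _ x0) (pow_ne_zero _ U0), v.ord_pow, v.ord_pow,
      v.ord_pow, show v.ord (algebraMap (intO hna ⊤) F x) = 0 from v.ord_const x.1] at this
    push_cast at this
    omega
  have qW2 := oW Q oE
  have pW2 := oW P pE
  rw [qU, qT] at qW2
  rw [pU0, pU] at pW2
  have half : ∀ {f : F} {s : Finset (ℕ × Fin 3)} {c : ℕ × Fin 3 → Ω}, f ≠ 0 →
      (∀ i ∈ s, i.1 + i.2 ≤ D) →
      f * W ^ D = ∑ i ∈ s, algebraMap Ω F (c i) * (U ^ i.1 * W ^ (D - i.1 - i.2)) →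
      ∃ (c₀ : Ω) (p : A) (e m m₁ k : ℕ) (H : (intO hna ⊤)⟦X⟧), c₀ ≠ 0 ∧ (∀ i ∈ s, ν (c i) ≤ ν c₀) ∧
        f * W ^ D = algebraMap Ω F c₀ * p.1 ∧ e ≤ 4 * D ∧ (θ p).order = (e : ℕ∞) ∧
        (m : ℤ) = Q.ord f + D * 2 ∧ (m₁ : ℤ) = P.ord f + D * 2 ∧
        Θ p * Θ E ^ k = (X - C ρ) ^ m₁ * (X ^ m * H) := fun {f s c} f0 hD hs => by
    have h2 := mul_ne_zero f0 (pow_ne_zero D W0)
    obtain ⟨i₀, -, c0, h3, p, h4, i, -, e, h5, h6⟩ := e6_int θ hθ θU θW s c hD (by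
      by_contra h
      exact h2 (hs.trans (Finset.sum_eq_zero fun i hi => by
        rw [show c i = 0 from by_contra fun h' => h ⟨i, hi, h'⟩, map_zero, zero_mul])))
    rw [← hs] at h4
    have p0 : p.1 ≠ 0 := right_ne_zero_of_mul (h4 ▸ h2)
    have h7 : ∀ v : Place Ω F, v.ord p.1 = v.ord f + D * v.ord W := fun v => by
      have := congrArg v.ord h4
      rwa [v.ord_mul f0 (pow_ne_zero _ W0), v.ord_mul (by simpa using c0) p0, v.ord_const,
        v.ord_pow, zero_add, eq_comm] at this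
    obtain ⟨m, hm⟩ := Int.eq_ofNat_of_zero_le ((hA p).le p0)
    obtain ⟨m₁, hm₁⟩ := Int.eq_ofNat_of_zero_le ((hP p).le p0)
    obtain ⟨k, q, hq, h8⟩ := e6_div pU pW E.2 E0 pE (-(algebraMap _ A x ^ 2 * U' ^ 2 * T)).2 (by
      change W * (1 + U * β + W * δ) = _ * -(algebraMap _ F x ^ 2 * U ^ 2 * (U - algebraMap _ F ρ))
      linear_combination hrel) m₁ p.1 p.2 (Or.inr hm₁.ge)
    have q0 : q ≠ 0 := right_ne_zero_of_mul (h8 ▸ mul_ne_zero p0 (pow_ne_zero _ E0))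
    have h9 := congrArg Q.ord h8
    rw [Q.ord_mul p0 (pow_ne_zero _ E0), Q.ord_mul (pow_ne_zero _ T0) q0, Q.ord_pow, Q.ord_pow, oE,
      qT] at h9
    obtain ⟨H, hH⟩ := (t2 ⟨q, hq⟩ m).2 (Or.inr (by simp only; omega))
    refine ⟨_, p, e, m, m₁, k, H, c0, h3, h4, by omega, h6, by rw [← hm, h7, qW2]; ring,
      by rw [← hm₁, h7, pW2]; ring, ?_⟩
    rw [← hH, ← ΘT, ← map_pow, ← map_pow, ← map_mul, ← map_mul]
    exact congrArg Θ (Subtype.ext h8)
  have φ0 := left_ne_zero_of_mul_eq_one hφ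
  obtain ⟨c₀, p, e, m, m₁, k, H, c0, h2, h3, h4, h5, h6, h7, h8⟩ := half φ0 hD hs
  obtain ⟨c₀', p', e', m', m₁', k', H', c0', -, h3', h4', h5', h6', h7', h8'⟩ :=
    half (right_ne_zero_of_mul_eq_one hφ) hD' hs'
  rw [eq_inv_of_mul_eq_one_right hφ, Place.ord_inv] at h6' h7'
  have e1 : W ^ (2 * D) = algebraMap Ω F (c₀ * c₀') * (p.1 * p'.1) := by
    rw [map_mul]
    linear_combination (ψ * W ^ D) * h3 + (algebraMap Ω F c₀ * p.1) * h3' - W ^ (2 * D) * hφ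
  have nz : ∀ {y : A} {e : ℕ}, (θ y).order = (e : ℕ∞) → θ y ≠ 0 := fun h h' => by simp [h'] at h
  have cc := mul_ne_zero c0 c0'
  have e2 : ν (c₀ * c₀') = 1 := by
    rcases lt_trichotomy (ν (c₀ * c₀')) 1 with h | h | h
    · let d : intO hna ⊤ := ⟨_, trivial, h.le⟩
      have := congrArg θ (show W' ^ (2 * D) = algebraMap _ A d * (p * p') from Subtype.ext e1)
      rw [map_pow, map_mul, hθ, Ideal.Quotient.eq_zero_iff_mem.2 h, map_zero, zero_mul] at this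
      exact absurd this (pow_ne_zero _ (nz (e := 4) θW))
    · exact h
    · have h' : ν (c₀ * c₀')⁻¹ < 1 := by rw [map_inv₀]; exact inv_lt_one_of_one_lt₀ h
      let d : intO hna ⊤ := ⟨_, trivial, h'.le⟩
      have := congrArg θ (show p * p' = algebraMap _ A d * W' ^ (2 * D) from Subtype.ext (by
        change p.1 * p'.1 = algebraMap Ω F (c₀ * c₀')⁻¹ * W ^ (2 * D)
        rw [e1, ← mul_assoc, ← map_mul, inv_mul_cancel₀ cc, map_one, one_mul]))
      rw [map_mul, map_mul, hθ, Ideal.Quotient.eq_zero_iff_mem.2 h', map_zero, zero_mul] at this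
      exact absurd this (mul_ne_zero (nz h5) (nz h5'))
  let d : intO hna ⊤ := ⟨_, trivial, e2.le⟩
  have e3 := congrArg Θ (show W' ^ (2 * D) = algebraMap _ A d * (p * p') from Subtype.ext e1)
  rw [map_pow, map_mul, map_mul, ΘC] at e3
  have XT : (X - C ρ : (intO hna ⊤)⟦X⟧) ≠ 0 := fun h => by
    simpa [coeff_C] using congrArg (coeff 1) h
  have e4 : C d * (H * H') * Θ E ^ (2 * D) = (C x ^ 2) ^ (2 * D) * Θ E ^ (k + k') := by
    refine mul_left_cancel₀ (mul_ne_zero (pow_ne_zero (m₁ + m₁') XT)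
      (pow_ne_zero (m + m') X_ne_zero)) ?_
    have e5 := congrArg (· ^ (2 * D)) ΘW
    simp only [mul_pow, e3, (even_two_mul D).neg_pow, ← pow_mul] at e5
    rw [show 2 * (2 * D) = m₁ + m₁' by omega] at e5
    nth_rewrite 2 [show m₁ + m₁' = m + m' by omega] at e5
    rw [← pow_mul, show 2 * (2 * D) = m₁ + m₁' by omega]
    linear_combination Θ E ^ (k + k') * e5 - C d * Θ E ^ (2 * D) * (Θ p' * Θ E ^ k') * h8 -
      C d * Θ E ^ (2 * D) * ((X - C ρ) ^ m₁ * (X ^ m * H)) * h8'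
  have uH : IsUnit (H * H') := isUnit_of_mul_isUnit_right (isUnit_of_mul_isUnit_left
    (e4 ▸ (((ux.map C).pow 2).pow _).mul (uE.pow _)))
  have ord : ∀ {y : A} {e k m m₁ : ℕ} {H : (intO hna ⊤)⟦X⟧}, IsUnit H → (θ y).order = (e : ℕ∞) →
      Θ y * Θ E ^ k = (X - C ρ) ^ m₁ * (X ^ m * H) → e = m₁ + m := fun {y e k m m₁ H} hH h h' => by
    have := congrArg (fun f => (map r f).order) h'
    simp only [map_mul, map_pow, map_sub, map_X, map_C, order_mul, rρ, map_zero, sub_zero,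
      order_X_pow, order_zero_of_unit ((uE.map _).pow k), order_zero_of_unit (hH.map _),
      add_zero] at this
    exact_mod_cast h.symm.trans this
  have o1 := ord (isUnit_of_mul_isUnit_left uH) h5 h8
  have o2 := ord (isUnit_of_mul_isUnit_right uH) h5' h8'
  refine ⟨by omega, fun hn => ?_⟩
  obtain ⟨n, hn'⟩ := Int.eq_ofNat_of_zero_le hn.le
  obtain ⟨b, hb, e5⟩ : ∃ b, ν b ≤ ν c₀ ∧ φ * W ^ D = algebraMap Ω F b * W ^ D +
      ∑ i ∈ s.erase (0, 0), algebraMap Ω F (c i) * (U ^ i.1 * W ^ (D - i.1 - i.2)) := by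
    by_cases h : (0, 0) ∈ s
    · exact ⟨_, h2 _ h, by rw [hs, ← Finset.add_sum_erase _ _ h]; simp⟩
    · exact ⟨0, by simp, by rw [hs, Finset.erase_eq_of_notMem h]; simp⟩
  obtain ⟨i₁, i1, a0, -, g, e6, i, hi, e₁, e7, e8⟩ := e6_int θ hθ θU θW (s.erase (0, 0)) c
    (fun i hi => hD i (Finset.mem_of_mem_erase hi)) (by
      by_contra h
      rw [Finset.sum_eq_zero fun i hi => by
        rw [show c i = 0 from by_contra fun h' => h ⟨i, hi, h'⟩, map_zero, zero_mul], add_zero,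
        mul_left_inj' (pow_ne_zero _ W0)] at e5
      simp [e5] at hn)
  have hv : ∀ {z : Ω}, ν z ≤ ν c₀ → ν (z / c₀) ≤ 1 := fun h => by
    rw [map_div₀]; exact div_le_one_of_le₀ h (ν.nonneg _)
  let a' : intO hna ⊤ := ⟨_, trivial, hv (h2 _ (Finset.mem_of_mem_erase i1))⟩
  let b' : intO hna ⊤ := ⟨_, trivial, hv hb⟩
  have e9 := congrArg Θ (show p = algebraMap _ A b' * W' ^ D + algebraMap _ A a' * g from
    Subtype.ext (by
      change p.1 = algebraMap Ω F (b / c₀) * W ^ D + algebraMap Ω F (c i₁ / c₀) * g.1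
      have : algebraMap Ω F c₀ ≠ 0 := by simpa using c0
      rw [map_div₀, map_div₀]
      field_simp
      linear_combination e5 + e6 - h3))
  rw [map_add, map_mul, map_mul, map_pow, ΘC, ΘC] at e9
  have h9 : ¬ (i.1 = 0 ∧ (i.2 : ℕ) = 0) := fun h =>
    Finset.ne_of_mem_erase hi (Prod.ext h.1 (Fin.ext h.2))
  refine e6_ser (a := a') (div_ne_zero a0 c0) h0 hρ (g := Θ g) (uE.pow (k + D))
    ((isUnit_of_mul_isUnit_left uH).mul (uE.pow D)) (H' := C b' * (-C x ^ 2) ^ D * Θ E ^ k)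
    (n := n) (by omega) (by omega) e7 e8 ?_
  have e10 := congrArg (· ^ D) ΘW
  simp only [mul_pow, ← neg_mul, ← pow_mul] at e10
  rw [show m₁ = 2 * D + n by omega] at h8
  rw [show 2 * D = m + n by omega] at e10 h8 ⊢
  linear_combination (Θ E ^ D * X ^ n) * h8 - (Θ E ^ (k + D) * X ^ n) * e9 -
    (C b' * Θ E ^ k * X ^ n) * e10

end Pool.Agent.Lib.MP_07b2d0_nt.G3
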