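import Pool.Agent.Lib.MP_07b2d0_nt.G3.X0
import Pool.Agent.Lib.MP_07b2d0_nt.G3.C1b
import Pool.Agent.Lib.MP_07b2d0_nt.G3.W0.Br
import Pool.Agent.Lib.MP_07b2d0_nt.G3.E6c

/-!
The cusp of type `E₆`.
-/

set_option autoImplicit false

namespace Pool.Agent.Lib.MP_07b2d0_nt.G3

open Polynomial Fh WithZero

variable {Ω : Type} [Field Ω] [IsAlgClosed Ω] [CharZero Ω] {ν : AbsoluteValue Ω ℝ} {p : ℕ}
  {G : (Ω ≃+* Ω) → Prop} {a : Co Ω} {x : Fin 6 → Ω} {h : Ω}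

/-- The equation after scaling. -/
def x3E {R : Type} [CommRing R] (ξ r : R) (l : Fin 9 → R) (X Y : R) : R :=
  X ^ 2 * (ξ * X - r * Y) ^ 2 + (Y ^ 3 + l 0 * X * Y ^ 2 + l 1 * X ^ 2 * Y + l 2 * X ^ 3) +
    (l 3 * Y ^ 2 + l 4 * X * Y + l 5 * X ^ 2) + (l 6 * Y + l 7 * X) + l 8

/-- The coefficients after scaling. -/
def x3l {R : Type} [CommRing R] (ξ r u v : R) (d : Fin 9 → R) : Fin 9 → R :=
  ![(u + v + d 2) * r ^ 11, (r ^ 12 * u * v + d 1 - 2 * ξ * d 2) * r ^ 10,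
    (d 0 - ξ * d 1 + ξ ^ 2 * d 2) * r ^ 9, d 5 * r ^ 8, (d 4 - 2 * ξ * d 5) * r ^ 7,
    (d 3 - ξ * d 4 + ξ ^ 2 * d 5) * r ^ 6, d 7 * r ^ 4, (d 6 - ξ * d 7) * r ^ 3, d 8]

theorem x3_map {R S : Type} [CommRing R] [CommRing S] (φ : R →+* S) (ξ r u v : R)
    (d : Fin 9 → R) (i : Fin 9) :
    φ (x3l ξ r u v d i) = x3l (φ ξ) (φ r) (φ u) (φ v) (fun j => φ (d j)) i := by
  fin_cases i <;> simp [x3l, map_ofNat]

theorem x3_id {R : Type} [CommRing R] (ξ r u v : R) (d : Fin 9 → R) (X Y S T : R)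
    (hS : S = r ^ 3 * X) (hT : T = r ^ 4 * Y - ξ * r ^ 3 * X) :
    S ^ 2 * T ^ 2 + (T + ξ * S) * (T + (ξ + r ^ 12 * u) * S) * (T + (ξ + r ^ 12 * v) * S) +
      low (fun j => r ^ 12 * d j) S T = r ^ 12 * x3E ξ r (x3l ξ r u v d) X Y := by
  subst hS hT
  simp only [low, x3E, x3l, Matrix.cons_val]
  ring

omit [IsAlgClosed Ω] [CharZero Ω] in
/-- The monomials of degree at most two in `Y` span the coordinate ring. -/
theorem x3_span {F : Type} [Field F] [Algebra Ω F] {ξ r : Ω} {l : Fin 9 → Ω} {X Y z : F}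
    (he : x3E (algebraMap Ω F ξ) (algebraMap Ω F r) (fun i => algebraMap Ω F (l i)) X Y = 0)
    (hz : z ∈ Algebra.adjoin Ω {X, Y}) :
    ∃ c : ℕ × Fin 3 →₀ Ω, (c.sum fun i a => a • (X ^ i.1 * Y ^ (i.2 : ℕ))) = z := by
  rw [← Finsupp.mem_span_range_iff_exists_finsupp]
  generalize hM : Submodule.span Ω (Set.range fun i : ℕ × Fin 3 => X ^ i.1 * Y ^ (i.2 : ℕ)) = M
  have g : ∀ (c : Ω) (i : ℕ) (j : Fin 3), algebraMap Ω F c * (X ^ i * Y ^ (j : ℕ)) ∈ M :=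
    fun c i j => by
      rw [← Algebra.smul_def, ← hM]
      exact Submodule.smul_mem _ _ (Submodule.subset_span ⟨(i, j), rfl⟩)
  have cl : ∀ w : F, (∀ (i : ℕ) (j : Fin 3), w * (X ^ i * Y ^ (j : ℕ)) ∈ M) → ∀ m ∈ M, w * m ∈ M :=
    fun w hw m hm => by
      rw [← hM] at hm
      induction hm using Submodule.span_induction with
      | mem _ h => obtain ⟨i, rfl⟩ := h; exact hw _ _
      | zero => simp
      | add a b _ _ ha hb => exact mul_add w a b ▸ add_mem ha hb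
      | smul c a _ ha => exact mul_smul_comm c w a ▸ M.smul_mem c ha
  suffices h : ∀ m ∈ M, z * m ∈ M by simpa using h _ (g 1 0 0)
  induction hz using Algebra.adjoin_induction with
  | mem w hw =>
    refine cl w fun i j => ?_
    rcases hw with rfl | rfl
    · simpa [pow_succ', mul_assoc] using g 1 (i + 1) j
    fin_cases j
    · simpa [mul_comm] using g 1 i 1
    · simpa [mul_left_comm, sq] using g 1 i 2
    have := neg_mem (add_mem (add_mem (add_mem (add_mem (add_mem (g (ξ ^ 2) (i + 4) 0)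
      (g (-2 * ξ * r) (i + 3) 1)) (add_mem (g (r ^ 2) (i + 2) 2) (g (l 0) (i + 1) 2)))
      (add_mem (g (l 1) (i + 2) 1) (g (l 2) (i + 3) 0)))
      (add_mem (add_mem (g (l 3) i 2) (g (l 4) (i + 1) 1)) (g (l 5) (i + 2) 0)))
      (add_mem (add_mem (g (l 6) i 1) (g (l 7) (i + 1) 0)) (g (l 8) i 0)))
    refine (congrArg (· ∈ M) ?_).mp this
    simp only [x3E] at he
    simp only [map_mul, map_pow, map_neg, map_ofNat, Fin.val_zero, Fin.val_one, Fin.val_two]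
    linear_combination -X ^ i * he
  | algebraMap c => exact fun m hm => Algebra.smul_def c m ▸ M.smul_mem c hm
  | add a b _ _ ha hb => exact fun m hm => add_mul a b m ▸ add_mem (ha m hm) (hb m hm)
  | mul a b _ _ ha hb => exact fun m hm => mul_assoc a b m ▸ ha _ (hb m hm)

omit [IsAlgClosed Ω] [CharZero Ω] in
theorem x3_ram (hna : IsNonarchimedean ν) (hp : p.Prime) (h13 : 13 < p) (h1 : ν p < 1) {r : Ω}
    (hr : r ^ 12 = p) (h0 : r ≠ 0) (i : ℕ) (hi : 2 ≤ i) : ν r ^ (i - 1) < ν (i : Ω) := by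
  have br : ν r < 1 := by
    rw [← hr, map_pow] at h1
    exact lt_of_pow_lt_pow_left₀ 12 zero_le_one (by rwa [one_pow])
  obtain ⟨e, m, h2, rfl⟩ := Nat.exists_eq_pow_mul_and_not_dvd (n := i) (by omega) p hp.ne_one
  have h3 : ν (m : Ω) = 1 := le_antisymm (na_nat hna m) (not_lt.1 fun h3 => by
    obtain ⟨u, v, h4⟩ := Nat.isCoprime_iff_coprime.2 ((Nat.Prime.coprime_iff_not_dvd hp).2 h2)
    have h5 : ∀ {u : ℤ} {n : ℕ}, ν (n : Ω) < 1 → ν ((u : Ω) * n) < 1 := fun h => by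
      rw [map_mul]
      exact mul_lt_one_of_nonneg_of_lt_one_right hna.apply_intCast_le_one (ν.nonneg _) h
    have := na_add_lt hna (h5 (u := u) h1) (h5 (u := v) h3)
    rw [show (u : Ω) * p + v * m = 1 by exact_mod_cast congrArg (Int.cast : ℤ → Ω) h4,
      map_one] at this
    exact this.ne rfl)
  have h4 : ∀ e : ℕ, 1 + 13 * e ≤ p ^ e := fun e => by
    induction e with
    | zero => simp
    | succ e ih => rw [pow_succ]; nlinarith
  rw [Nat.cast_mul, Nat.cast_pow, map_mul, h3, mul_one, ← hr, ← pow_mul, map_pow]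
  refine pow_lt_pow_right_of_lt_one₀ (ν.pos h0) br ?_
  have := (h4 e).trans (Nat.le_mul_of_pos_right (m := m) _
    (Nat.pos_of_ne_zero fun h => h2 (by simp [h])))
  omega

/-- Put `X = S / r ^ 3`, `Y = (T + x 0 S) / r ^ 4` with `r ^ 12 = p`.  By `Pair.triple` the equation
is `x3E` with integral coefficients.  Apply `e6_abs` to `U = X / Y`, `W = 1 / Y`. -/
theorem x_cusp (hL : Loc ν p G) (h13 : 13 < p) (hO : OddS a) (hP : Par a x h) (H : Pair ν x h)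
    (h1 : ν (x 0 * x 2 * x 4 - 1) < 1) (h2 : ν (x 0 - x 2) < 1) (h3 : ν (x 0 - x 4) < 1)
    {K : Subfield Ω} (hx : ∀ i, x i ∈ K) (hh : h ∈ K) (hK : ∀ z ∈ K, ν z < 1 → ν z ≤ ν p) :
    False := by
  classical
  have hna := hL.na
  obtain ⟨d, hd, hdK, hF⟩ := Pair.triple hP H h1
  obtain ⟨r, hr⟩ := IsAlgClosed.exists_pow_nat_eq (p : Ω) (n := 12) (by norm_num)
  have hp0 : (p : Ω) ≠ 0 := Nat.cast_ne_zero.2 hL.prime.ne_zero
  have hr0 : r ≠ 0 := fun e => hp0 (by rw [← hr, e, zero_pow (by norm_num)])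
  have hdv : ∀ z ∈ K, ν z < 1 → ∃ y : intO hna ⊤, z = r ^ 12 * y := fun z hz h1 =>
    ⟨⟨z / p, trivial, by rw [map_div₀]; exact (div_le_one (ν.pos hp0)).2 (hK z hz h1)⟩,
      by rw [hr, mul_div_cancel₀ _ hp0]⟩
  obtain ⟨u, eu⟩ := hdv _ (sub_mem (hx 2) (hx 0)) (by rwa [ν.map_sub])
  obtain ⟨v, ev⟩ := hdv _ (sub_mem (hx 4) (hx 0)) (by rwa [ν.map_sub])
  choose d' ed using fun j => hdv _ (hdK K hx hh j) (hd j)
  have hρ := x3_ram hna hL.prime h13 hL.lt hr hr0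
  have n0 := H.uni.1 0
  have x0 : x 0 ≠ 0 := ν.pos_iff.1 (n0 ▸ one_pos)
  have nρ : ν (r / x 0) = ν r := by rw [map_div₀, n0, div_one]
  have br : ν r ≤ 1 := by simpa using ((hρ 2 le_rfl).trans_le (na_nat hna 2)).le
  let ξ : intO hna ⊤ := ⟨x 0, trivial, n0.le⟩
  let ρ : intO hna ⊤ := ⟨r / x 0, trivial, nρ ▸ br⟩
  let l := x3l ξ ⟨r, trivial, br⟩ u v d'
  obtain ⟨F, _, _, s, t, φ, ψ, P, Q, hC, ⟨p1, p2⟩, ⟨q1, q2⟩, hφ, mφ, mψ, hodd, -⟩ := hO
  have := isFF_of hC.trans hC.fd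
  have r0 : algebraMap Ω F r ≠ 0 := (_root_.map_ne_zero _).2 hr0
  have ξ0 : algebraMap Ω F (x 0) ≠ 0 := (_root_.map_ne_zero _).2 x0
  obtain ⟨S, rfl⟩ : ∃ S, s = algebraMap Ω F (es x 1 / 4) + S := ⟨_, (add_sub_cancel _ _).symm⟩
  obtain ⟨T, rfl⟩ : ∃ T, t = algebraMap Ω F (es x 5 / 4) + T := ⟨_, (add_sub_cancel _ _).symm⟩
  have sh : ∀ {w : Plc Ω F} {c : Ω} {z : F} {n : ℤ}, 0 < n →
      w.1 (algebraMap Ω F c + z) = exp n → w.1 z = exp n := fun {w c z n} hn h => by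
    rw [← h, ← Valuation.map_sub_eq_of_lt_left _ (((w.2.2 c).trans_lt (by
      rwa [← exp_zero, exp_lt_exp])).trans_eq h.symm), add_sub_cancel_left]
  replace p1 := sh two_pos p1
  replace p2 := sh one_pos p2
  replace q1 := sh two_pos q1
  replace q2 := sh one_pos q2
  obtain ⟨X, hX⟩ : ∃ X, S = algebraMap Ω F r ^ 3 * X :=
    ⟨_, (mul_div_cancel₀ _ (pow_ne_zero _ r0)).symm⟩
  obtain ⟨Y, hY⟩ : ∃ Y, T + algebraMap Ω F (x 0) * S = algebraMap Ω F r ^ 4 * Y :=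
    ⟨_, (mul_div_cancel₀ _ (pow_ne_zero _ r0)).symm⟩
  have hT : T = algebraMap Ω F r ^ 4 * Y - algebraMap Ω F (x 0) * algebraMap Ω F r ^ 3 * X := by
    rw [← hY, hX]; ring
  have he : x3E (algebraMap Ω F (x 0)) (algebraMap Ω F r) (fun i => algebraMap Ω F (l i).1) X Y =
      0 := by
    have h4 := (hF F _ S T).symm.trans hC.eq
    rw [eq_add_of_sub_eq' eu, eq_add_of_sub_eq' ev] at h4
    simp only [ed, map_add, map_mul, map_pow] at h4
    rw [x3_id _ _ _ _ _ X Y _ _ hX hT, mul_eq_zero_iff_left (pow_ne_zero _ r0)] at h4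
    rw [← h4]
    exact congrArg (x3E _ _ · X Y) (funext fun i =>
      x3_map ((algebraMap Ω F).comp (intO hna ⊤).subtype) _ _ _ _ _ i)
  have vX : ∀ w : Plc Ω F, w.1 X = w.1 S := fun w => by
    rw [hX, map_mul, map_pow, plc_const w hr0, one_pow, one_mul]
  have vS : ∀ w : Plc Ω F, w.1 (algebraMap Ω F (x 0) * S) = w.1 S := fun w => by
    rw [map_mul, plc_const w x0, one_mul]
  have vY : ∀ w : Plc Ω F, w.1 Y = w.1 (T + algebraMap Ω F (x 0) * S) := fun w => by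
    rw [hY, map_mul, map_pow, plc_const w hr0, one_pow, one_mul]
  have pY : P.1 Y = exp 2 := by
    rw [vY, Valuation.map_add_eq_of_lt_right _ (by rw [vS, p1, p2, exp_lt_exp]; norm_num), vS, p1]
  have qY : Q.1 Y = exp 2 := by
    rw [vY, Valuation.map_add_eq_of_lt_left _ (by rw [vS, q1, q2, exp_lt_exp]; norm_num), q1]
  have Y0 : Y ≠ 0 := (_root_.map_ne_zero P.1).1 (pY ▸ exp_ne_zero)
  have hW : ∀ {w : Plc Ω F}, w.1 Y = exp 2 → (plE w).Ge Y⁻¹ 1 := fun h => Or.inr (by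
    rw [plE_ord, map_inv₀, h, log_inv, log_exp]; norm_num)
  have qU : (plE Q).ord (X * Y⁻¹) = 1 := by
    rw [plE_ord, map_mul, map_inv₀, vX, q2, qY, ← exp_neg, ← exp_add, log_exp]; norm_num
  have pU : (plE P).ord (X * Y⁻¹ - algebraMap _ F ρ) = 1 := by
    rw [show X * Y⁻¹ - algebraMap _ F ρ = -(algebraMap Ω F (x 0 * r ^ 3)⁻¹ * T * Y⁻¹) by
      change _ - algebraMap Ω F (r / x 0) = _
      rw [hT, map_inv₀, map_div₀, map_mul, map_pow]
      field_simp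
      ring, plE_ord, Valuation.map_neg, map_mul, map_mul, map_inv₀ P.1, p2, pY,
      plc_const P (inv_ne_zero (mul_ne_zero x0 (pow_ne_zero _ hr0))), one_mul, ← exp_neg,
      ← exp_add, log_exp]
    norm_num
  have hA : Algebra.adjoin Ω {algebraMap Ω F (es x 1 / 4) + S, algebraMap Ω F (es x 5 / 4) + T} ≤
      Algebra.adjoin Ω {X, Y} := by
    have mX : X ∈ Algebra.adjoin Ω {X, Y} := Algebra.subset_adjoin (by simp)
    have mY : Y ∈ Algebra.adjoin Ω {X, Y} := Algebra.subset_adjoin (by simp)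
    have mc := (Algebra.adjoin Ω {X, Y}).algebraMap_mem
    refine Algebra.adjoin_le ?_
    rintro _ (rfl | rfl)
    · exact add_mem (mc _) (hX ▸ mul_mem (pow_mem (mc _) _) mX)
    · exact add_mem (mc _) (hT ▸ sub_mem (mul_mem (pow_mem (mc _) _) mY)
        (mul_mem (mul_mem (mc _) (pow_mem (mc _) _)) mX))
  obtain ⟨c, hc⟩ := x3_span he (hA mφ)
  obtain ⟨c', hc'⟩ := x3_span he (hA mψ)
  obtain ⟨D, hD⟩ : ∃ D, ∀ i ∈ c.support ∪ c'.support, i.1 + i.2 ≤ D :=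
    ⟨_, fun i hi => Finset.le_sup (f := fun i : ℕ × Fin 3 => i.1 + i.2) hi⟩
  have hD1 := fun i hi => hD i (Finset.mem_union_left _ hi)
  have hD2 := fun i hi => hD i (Finset.mem_union_right _ hi)
  have nf : ∀ {c : ℕ × Fin 3 →₀ Ω}, (∀ i ∈ c.support, i.1 + i.2 ≤ D) →
      (c.sum fun i a => a • (X ^ i.1 * Y ^ (i.2 : ℕ))) * Y⁻¹ ^ D = ∑ i ∈ c.support,
        algebraMap Ω F (c i) * ((X * Y⁻¹) ^ i.1 * Y⁻¹ ^ (D - i.1 - i.2)) := fun {c} h => by
    rw [Finsupp.sum, Finset.sum_mul]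
    refine Finset.sum_congr rfl fun i hi => ?_
    obtain ⟨n, rfl⟩ := Nat.exists_eq_add_of_le (h i hi)
    rw [Algebra.smul_def, show i.1 + i.2 + n - i.1 - i.2 = n by omega]
    linear_combination algebraMap Ω F (c i) * (X * Y⁻¹) ^ i.1 * Y⁻¹ ^ n *
      ((mul_pow Y Y⁻¹ i.2).symm.trans (by rw [mul_inv_cancel₀ Y0, one_pow]))
  have s1 := hc ▸ nf hD1
  have s2 := hc' ▸ nf hD2
  let A := Algebra.adjoin (intO hna ⊤) {X * Y⁻¹, Y⁻¹}
  let U : A := ⟨_, Algebra.subset_adjoin (Set.mem_insert _ _)⟩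
  let W : A := ⟨_, Algebra.subset_adjoin (Set.mem_insert_of_mem _ rfl)⟩
  let k : Fin 9 → A := fun i => algebraMap _ A (l i)
  have key := fun {φ ψ : F} => e6_abs (x := ξ) (ρ := ρ) (φ := φ) (ψ := ψ) n0 (div_ne_zero hr0 x0)
    (nρ ▸ hρ) qU (hW qY) pU (hW pY) (k 0 + k 1 * U + k 2 * U ^ 2).2
    (k 3 + k 4 * U + k 5 * U ^ 2 + W * (k 6 + k 7 * U) + W ^ 2 * k 8).2 (by
      simp only [x3E] at he
      change Y⁻¹ * (1 + X * Y⁻¹ * (algebraMap Ω F (l 0).1 + algebraMap Ω F (l 1).1 * (X * Y⁻¹) +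
        algebraMap Ω F (l 2).1 * (X * Y⁻¹) ^ 2) + Y⁻¹ * (algebraMap Ω F (l 3).1 +
        algebraMap Ω F (l 4).1 * (X * Y⁻¹) + algebraMap Ω F (l 5).1 * (X * Y⁻¹) ^ 2 +
        Y⁻¹ * (algebraMap Ω F (l 6).1 + algebraMap Ω F (l 7).1 * (X * Y⁻¹)) +
        Y⁻¹ ^ 2 * algebraMap Ω F (l 8).1)) = -(algebraMap Ω F (x 0) ^ 2 * (X * Y⁻¹) ^ 2 *
          (X * Y⁻¹ - algebraMap Ω F (r / x 0)) ^ 2)
      rw [map_div₀]
      field_simp
      linear_combination he)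
  have k1 := (key hφ hD1 hD2 s1 s2).2
  have k2 := (key ((mul_comm _ _).trans hφ) hD2 hD1 s2 s1).2
  rw [eq_inv_of_mul_eq_one_right hφ, MP_6adaea_nt.Place.ord_inv] at k2
  rw [plE_ord] at k1 k2
  rw [show log (P.1 φ) = 0 by omega] at hodd
  exact absurd hodd (by decide)

end Pool.Agent.Lib.MP_07b2d0_nt.G3
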