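import Pool.Agent.Lib.MP_07b2d0_nt.G3.X1
import Pool.Agent.Lib.MP_07b2d0_nt.G3.X2b
import Pool.Agent.Lib.MP_07b2d0_nt.G3.X3

/-!
The root `h` is not congruent to one with all classes even.
-/

set_option autoImplicit false

namespace Pool.Agent.Lib.MP_07b2d0_nt.G3

open Polynomial Fh

variable {Ω : Type} [Field Ω] [IsAlgClosed Ω] [CharZero Ω] {ν : AbsoluteValue Ω ℝ} {p : ℕ}
  {G : (Ω ≃+* Ω) → Prop} {a : Co Ω} {x : Fin 6 → Ω} {h : Ω}

/-- Exchange of the first and the second pair. -/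
def x4a : Equiv.Perm (Fin 6) := ⟨![2, 3, 0, 1, 4, 5], ![2, 3, 0, 1, 4, 5], by decide, by decide⟩

/-- Exchange of the first and the third pair. -/
def x4b : Equiv.Perm (Fin 6) := ⟨![4, 5, 2, 3, 0, 1], ![4, 5, 2, 3, 0, 1], by decide, by decide⟩

/-- Exchange of the second and the third pair. -/
def x4c : Equiv.Perm (Fin 6) := ⟨![0, 1, 4, 5, 2, 3], ![0, 1, 4, 5, 2, 3], by decide, by decide⟩

/-- Permute the three pairs (`Par.perm`). -/
theorem loc_pair (hL : Loc ν p G) (h13 : 13 < p) (hU : ∀ σ, G σ → UPt a σ) (hO : OddS a)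
    (hP : Par a x h) (H : Pair ν x h) {K : Subfield Ω} (hx : ∀ i, x i ∈ K) (hh : h ∈ K)
    (hK : ∀ z ∈ K, ν z < 1 → ν z ≤ ν p) : False := by
  have Ha : Pair ν (fun i => x (x4a i)) h :=
    ⟨H.na, H.two, ⟨fun _ => H.uni.1 _, H.uni.2⟩, H.one, H.c2, H.c0, H.c4⟩
  have Hb : Pair ν (fun i => x (x4b i)) h :=
    ⟨H.na, H.two, ⟨fun _ => H.uni.1 _, H.uni.2⟩, H.one, H.c4, H.c2, H.c0⟩
  have Hc : Pair ν (fun i => x (x4c i)) h :=
    ⟨H.na, H.two, ⟨fun _ => H.uni.1 _, H.uni.2⟩, H.one, H.c0, H.c4, H.c2⟩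
  have s : ∀ i j, ¬ ν (x i - x j) < 1 → ν (x i - x j) = 1 := fun i j e =>
    le_antisymm (na_sub_le H.na (H.uni.1 i).le (H.uni.1 j).le) (not_lt.1 e)
  have s' : ∀ i j, ν (x i + x j) ≠ 1 → ν (x i + x j) < 1 := fun i j e =>
    lt_of_le_of_ne (na_add_le H.na (H.uni.1 i).le (H.uni.1 j).le) e
  have c : ∀ i j, ν (x i - x j) = ν (x j - x i) := fun i j => ν.map_sub _ _
  have t : ∀ i j l, ν (x i - x j) < 1 → ν (x j - x l) < 1 → ν (x i - x l) < 1 :=
    fun i j l e1 e2 => by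
      have := na_add_lt H.na e1 e2
      rwa [sub_add_sub_cancel] at this
  rcases H.sign hP with h1 | h1
  · by_cases A : ν (x 0 - x 2) < 1
    · by_cases B : ν (x 0 - x 4) < 1
      · exact x_cusp hL h13 hO hP H h1 A B hx hh hK
      · exact x_triple hL hU hP H h1 (s _ _ B) (s _ _ fun C => B (t _ _ _ A C))
    · by_cases B : ν (x 0 - x 4) < 1
      · refine x_triple hL hU (hP.perm x4c) Hc ?_ (s 0 2 A) (s 4 2 fun C => A (t _ _ _ B C))
        rw [← mul_right_comm] at h1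
        exact h1
      · refine x_triple hL hU (hP.perm x4b) Hb ?_ (s 4 0 (by rwa [c])) (s 2 0 (by rwa [c]))
        rw [show x 0 * x 2 * x 4 = x 4 * x 2 * x 0 by ring] at h1
        exact h1
  · by_cases A : ν (x 2 + x 4) = 1
    · exact x_conics hL hU hP H h1 A
    by_cases B : ν (x 0 + x 4) = 1
    · refine x_conics hL hU (hP.perm x4a) Ha ?_ B
      rw [mul_comm (x 0)] at h1
      exact h1
    by_cases C : ν (x 2 + x 0) = 1
    · refine x_conics hL hU (hP.perm x4b) Hb ?_ C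
      rw [show x 0 * x 2 * x 4 = x 4 * x 2 * x 0 by ring] at h1
      exact h1
    have := na_sub_lt H.na (na_add_lt H.na (s' _ _ B) (s' _ _ C)) (s' _ _ A)
    rw [show x 0 + x 4 + (x 2 + x 0) - (x 2 + x 4) = 2 * x 0 by ring, map_mul, H.two,
      H.uni.1 0, one_mul] at this
    exact this.false

end Pool.Agent.Lib.MP_07b2d0_nt.G3
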