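import Pool.Agent.Lib.MP_07b2d0_nt.G3.C7b
import Pool.Agent.Lib.MP_07b2d0_nt.G3.U1
import Pool.Agent.Lib.MP_07b2d0_nt.G3.U2
import Pool.Agent.Lib.MP_07b2d0_nt.G3.I3
import Pool.Agent.Lib.MP_07b2d0_nt.G3.R1
import Pool.Agent.Lib.MP_07b2d0_nt.G3.X4

/-!
The local conditions at the places of a number field.
-/

set_option autoImplicit false

namespace Pool.Agent.Lib.MP_07b2d0_nt.G3

open Polynomial NumberField Fh

theorem Good.map {k K : Type} [Field k] [Field K] {N : ℕ} {a : Co k} (h : Good N a)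
    (φ : k →+* K) : Good N (a.map φ) := by
  intro Ω F _ _ _ _ _ s t V σ S hS hC hN hI hσ h1 h2
  let _ : Algebra k Ω := ((algebraMap K Ω).comp φ).toAlgebra
  exact h Ω F s t V σ S hS hC hN hI (fun c => hσ (φ c)) h1 h2

theorem inv_mem_of_dvd {Ω : Type} [Field Ω] [CharZero Ω] {V : ValuationSubring Ω} {N N' : ℕ}
    (hN : N ∣ N') (h0 : N' ≠ 0) (h : (N' : Ω)⁻¹ ∈ V) : (N : Ω)⁻¹ ∈ V := by
  obtain ⟨d, rfl⟩ := hN
  have h1 := Nat.cast_ne_zero (R := Ω).2 (right_ne_zero_of_mul h0)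
  rw [show (N : Ω)⁻¹ = ((N * d : ℕ) : Ω)⁻¹ * d by
    push_cast
    field_simp]
  exact mul_mem h (natCast_mem V d)

theorem Good.mono {k : Type} [Field k] [CharZero k] {N N' : ℕ} {a : Co k} (h : Good N a)
    (hN : N ∣ N') (h0 : N' ≠ 0) : Good N' a := by
  intro Ω F _ _ _ _ _ s t V σ S hS hC hV
  have : CharZero Ω := charZero_of_injective_algebraMap (algebraMap k Ω).injective
  exact h Ω F s t V σ S hS hC (inv_mem_of_dvd hN h0 hV)

theorem Inr.fix_i {Ω : Type} [Field Ω] [CharZero Ω] {V : ValuationSubring Ω} {σ : Ω ≃+* Ω}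
    (hI : Inr V σ) (h2 : (2 : Ω)⁻¹ ∈ V) {z : Ω} (hz : z ^ 2 = -1) : σ z = z := by
  have h1 : V.valuation z = 1 := by
    have := congrArg V.valuation hz
    rwa [map_pow, Valuation.map_neg, map_one, pow_eq_one_iff_left two_ne_zero] at this
  have h3 : σ z ^ 2 = z ^ 2 := by rw [← map_pow, hz, map_neg, map_one]
  refine (sq_eq_sq_iff_eq_or_eq_neg.1 h3).resolve_right fun h4 => ?_
  have h5 := hI.res z ((V.valuation_le_one_iff z).1 h1.le)
  have h6 := (V.valuation_le_one_iff _).2 h2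
  rw [h4, ← neg_add', Valuation.map_neg, ← two_mul, map_mul, h1, mul_one] at h5
  rw [map_inv₀, inv_le_one₀ (zero_lt_iff.2 ((_root_.map_ne_zero _).2 two_ne_zero))] at h6
  exact absurd h5 (not_lt.2 h6)

/-- The consequences of good reduction for one element of the inertia group. -/
theorem Good.upt {k Ω : Type} [Field k] [CharZero k] [Field Ω] [IsAlgClosed Ω] [Algebra k Ω]
    {N : ℕ} {a : Co k} (h : Good N a) (hs : a.Sm) (h2 : 2 ∣ N) (h0 : N ≠ 0)
    {V : ValuationSubring Ω} {σ : Ω ≃+* Ω} (hN : (N : Ω)⁻¹ ∈ V) (hI : Inr V σ)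
    (hσ : ∀ c, σ (algebraMap k Ω c) = algebraMap k Ω c) :
    UPt (a.up Ω) σ ∧ UPt (a.up Ω).swap σ ∧
      ∀ x g, Par (a.up Ω) x g → (∀ i, σ (x i) = x i) ∧ σ g = g := by
  have : CharZero Ω := charZero_of_injective_algebraMap (algebraMap k Ω).injective
  obtain ⟨F, _, _, s, t, hC⟩ := exists_cv (hs.map (algebraMap k Ω))
  obtain ⟨S, hS, e1, e2⟩ := hC.exists_act σ
    ((Co.map_map _ _ _).trans (congrArg a.map (RingHom.ext hσ)))
  have H := h Ω F s t V σ S hS hC hN hI hσ e1 e2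
  have hi : ∀ z : Ω, z ^ 2 = -1 → σ z = z := fun z =>
    hI.fix_i (by exact_mod_cast inv_mem_of_dvd h2 h0 hN)
  have D := H.desc hC.trans hC.fd
  have key : ∀ x g, Par (a.up Ω) x g → ∀ i, σ (x i) = x i := fun x g hP i => by
    simpa using hC.fix_slope hP (fun φ => H.tate hC.trans hC.fd) hS one_ne_zero one_ne_zero
      (by rw [e1, map_one, one_mul]) (by rw [e2, map_one, one_mul]) i
  refine ⟨D.upt hC hS e1 e2 hi, D.upt hC.swap hS e2 e1 hi, fun x g hP => ⟨key x g hP, ?_⟩⟩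
  have h3 := key _ _ hP.refl 0
  rw [map_div₀, key x g hP, div_eq_div_iff ((map_ne_zero σ).2 hP.ne) hP.ne] at h3
  exact (mul_left_cancel₀ (hP.x_ne 0) h3).symm

variable {K : Type} [Field K] [NumberField K] {N : ℕ} {a : Co K} {x : Fin 6 → K} {h : K}

/-- The local setting at a place outside `N`. -/
theorem Good.loc (hG : Good N a) (hs : a.Sm) (h2 : 2 ∣ N) (h0 : N ≠ 0) (v : FinitePlace K)
    (hv : v (N : K) = 1) : ∃ (ν : AbsoluteValue (AlgebraicClosure K) ℝ) (p : ℕ)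
      (G : (AlgebraicClosure K ≃+* AlgebraicClosure K) → Prop), Loc ν p G ∧
      (∀ u : K, ν (algebraMap K _ u) = v u) ∧
      (∀ σ, G σ → ∀ u : K, σ (algebraMap K _ u) = algebraMap K _ u) ∧
      (∀ z, (∀ σ, G σ → σ z = z) → ∃ u : K, ν z = v u) ∧
      ∀ σ, G σ → UPt (a.up _) σ ∧ UPt (a.up _).swap σ := by
  obtain ⟨ν, p, G, hL, e1, e2, e3⟩ := exists_Loc K v
    (by exact_mod_cast fp_eq_one_of_dvd h2 hv)
  obtain ⟨V, hV, -, hI⟩ := exists_inr hL.na
  refine ⟨ν, p, G, hL, e1, e2, e3, fun σ hσ => ?_⟩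
  have := hG.upt hs h2 h0 (V := V) ((hV _).2 (by
    rw [map_inv₀, ← map_natCast (algebraMap K (AlgebraicClosure K)), e1, hv, inv_one]))
    (hI σ (hL.iso σ hσ) (hL.res σ hσ)) (e2 σ hσ)
  exact ⟨this.1, this.2.1⟩

theorem units_main (hG : Good N a) (hs : a.Sm) (h2 : 2 ∣ N) (h0 : N ≠ 0)
    (hO : Odd1 (a.up (AlgebraicClosure K))) (hP : Par a x h) (v : FinitePlace K)
    (hv : v (N : K) = 1) : (∀ i, v (x i) = 1) ∧ v h = 1 := by
  obtain ⟨ν, p, G, hL, e1, -, -, hU⟩ := hG.loc hs h2 h0 v hv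
  obtain ⟨h1, h3⟩ := loc_units hL hU hO.oddS (hP.map (algebraMap K (AlgebraicClosure K)))
  exact ⟨fun i => (e1 _).symm.trans (h1 i), (e1 _).symm.trans h3⟩

theorem even_of_sq (v : FinitePlace K) {y u : K} (hy : y ≠ 0) (h : v y = v u ^ 2) :
    Even (ord v y) := by
  have hu : u ≠ 0 := by
    rintro rfl
    rw [map_zero, zero_pow two_ne_zero] at h
    exact (FinitePlace.pos_iff.2 hy).ne' h
  rw [fp_eq v hy, fp_eq v hu, ← zpow_natCast, ← zpow_mul] at h
  have := zpow_right_injective₀ (by linarith [two_le_qv' v]) (by linarith [two_le_qv' v]) h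
  exact ⟨ord v u, by omega⟩

theorem even_main (hG : Good N a) (hs : a.Sm) (h13 : Nat.factorial 13 ∣ N) (h0 : N ≠ 0)
    (hd : ∀ p : ℕ, p.Prime → (p : ℤ) ∣ discr K → p ∣ N)
    (hO : Odd1 (a.up (AlgebraicClosure K))) (hP : Par a x h) (v : FinitePlace K)
    (hv : v (N : K) = 1) : Even (ord v (1 - h)) := by
  classical
  have h2 : 2 ∣ N := (Nat.dvd_factorial two_pos (by norm_num)).trans h13
  obtain ⟨hx, hh⟩ := units_main hG hs h2 h0 hO hP v hv
  obtain ⟨ν, p, G, hL, e1, e2, e3, hU⟩ := hG.loc hs h2 h0 v hv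
  let φ := algebraMap K (AlgebraicClosure K)
  have h1 := hP.h_ne_one hs
  have hi := hP.inj hs
  have hu : ∀ π : Equiv.Perm (Fin 6), Uni ν (fun i => φ (x (π i))) (φ h) := fun π =>
    ⟨fun i => (e1 _).trans (hx _), (e1 _).trans hh⟩
  by_contra ho
  obtain ⟨c1, c2⟩ := even_class v hx hh h1 hi (fun j => by
    obtain ⟨r, hr⟩ := IsAlgClosed.exists_pow_nat_eq
      (φ ((1 - h⁻¹) * ∏ i ∈ Finset.univ.erase j, (x j - x i))) two_pos
    obtain ⟨u, e⟩ := e3 r fun σ hσ => r_fix hL hσ (hU σ hσ).1 (hP.map φ) (hs.map φ) (hu 1)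
      (fun i => e2 σ hσ _) (e2 σ hσ _) j (by simpa using hr)
    refine even_of_sq v (mul_ne_zero (sub_ne_zero.2 fun e => h1 (inv_eq_one.1 e.symm))
      (Finset.prod_ne_zero_iff.2 fun i hi' => sub_ne_zero.2 fun e =>
        (Finset.mem_erase.1 hi').1 (hi e).symm)) (u := u) ?_
    rw [← e, ← map_pow, hr, e1]) ho
  have sub : ∀ i j, ν (φ (x i) - φ (x j)) = v (x i - x j) := fun i j => by rw [← map_sub, e1]
  obtain ⟨π, p1, p2, p3⟩ := exists_pairing (fun i j => v (x i - x j) < 1) ⟨fun i => by simp,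
    fun {i j} e => by rwa [← sub, ← neg_sub, ν.map_neg, sub], fun {i j l} e e' => by
      rw [← sub] at e e' ⊢
      simpa using na_add_lt hL.na e e'⟩ c2
  have hp : v (p : K) < 1 := by rw [← e1, map_natCast]; exact hL.lt
  have hn : ¬ p ∣ N := fun e => hp.ne (fp_eq_one_of_dvd e hv)
  refine loc_pair hL (not_le.1 fun e => hn ((Nat.dvd_factorial hL.prime.pos e).trans h13))
    (fun σ hσ => (hU σ hσ).1) hO.oddS ((hP.perm π).map φ)
    ⟨hL.na, hL.two, hu π, by rw [← map_one φ, ← map_sub, e1]; exact c1, (sub _ _).trans_lt p1,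
      (sub _ _).trans_lt p2, (sub _ _).trans_lt p3⟩ (K := φ.fieldRange) (fun i => ⟨_, rfl⟩)
    ⟨_, rfl⟩ ?_
  rintro _ ⟨z, rfl⟩ hz
  rw [← map_natCast φ, e1, e1] at *
  exact le_of_unram v hL.prime hp (fun e => hn (hd p hL.prime e)) hz

end Pool.Agent.Lib.MP_07b2d0_nt.G3
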