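import Pool.Agent.Lib.MP_07b2d0_nt.G3.B1

/-!
From the heights of the roots to the heights of the coefficients.
-/

set_option autoImplicit false

namespace Pool.Agent.Lib.MP_07b2d0_nt.G3

open Polynomial NumberField Height Fh

/-- The height of the value of an integral polynomial. -/
theorem b1b_poly {ι : Type} (p : MvPolynomial ι ℤ) : ∃ n : ℕ, ∀ (K : Type) [Field K]
    [NumberField K] (U : ℝ) (y : ι → K), (Module.finrank ℚ K : ℝ) ≤ U →
    (∀ i, logHeight₁ (y i) ≤ U) →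
    logHeight₁ (MvPolynomial.eval₂Hom (Int.castRingHom K) y p) ≤ n * U := by
  have add : ∀ (K : Type) [Field K] [NumberField K] (U : ℝ) (a b : K),
      (Module.finrank ℚ K : ℝ) ≤ U → logHeight₁ (a + b) ≤ U + logHeight₁ a + logHeight₁ b := by
    intro K _ _ U a b hU
    have h1 := logHeight₁_add_le a b
    rw [totalWeight_eq_finrank] at h1
    have h2 : Real.log 2 ≤ 1 := by linarith [Real.log_two_lt_d9]
    have h3 : (0 : ℝ) ≤ Module.finrank ℚ K := Nat.cast_nonneg _
    nlinarith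
  induction p using MvPolynomial.induction_on with
  | C c =>
    refine ⟨c.natAbs, fun K _ _ U y hU _ => ?_⟩
    have nat : ∀ m : ℕ, logHeight₁ (m : K) ≤ m * U := fun m => by
      induction m with
      | zero => simp
      | succ m ih =>
        have := add K U m 1 hU
        rw [logHeight₁_one] at this
        push_cast
        linarith
    rw [MvPolynomial.eval₂Hom_C, eq_intCast]
    rcases Int.natAbs_eq c with e | e
    · conv_lhs => rw [e, Int.cast_natCast]
      exact nat _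
    · conv_lhs => rw [e, Int.cast_neg, Int.cast_natCast, logHeight₁_neg]
      exact nat _
  | add p q hp hq =>
    obtain ⟨m, hm⟩ := hp
    obtain ⟨n, hn⟩ := hq
    refine ⟨m + n + 1, fun K _ _ U y hU hy => ?_⟩
    have h1 := hm K U y hU hy
    have h2 := hn K U y hU hy
    rw [map_add]
    refine (add K U _ _ hU).trans ?_
    push_cast
    linarith
  | mul_X p i hp =>
    obtain ⟨m, hm⟩ := hp
    refine ⟨m + 1, fun K _ _ U y hU hy => ?_⟩
    have h1 := hm K U y hU hy
    have h2 := hy i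
    rw [map_mul, MvPolynomial.eval₂Hom_X']
    refine (logHeight₁_mul_le _ _).trans ?_
    push_cast
    linarith

/-- The height of the parameter `x 3`. -/
theorem b1b_three {K : Type} [Field K] [NumberField K] {a : Co K} {x : Fin 6 → K} {h : K} {H : ℝ}
    (hP : Par a x h) (hH : ∀ x' h', Par a x' h' → logHeight₁ h' ≤ H) :
    logHeight₁ (x 3) ≤ 3 * H := by
  have h0 := hH x h hP
  have h1 : logHeight₁ (h * (h / (x 3 * x 4 * x 5))) ≤ H := hH _ _ hP.crem
  have h2 : logHeight₁ (h * (h / (x 0 * x 4 * x 5))) ≤ H := hH _ _ (hP.perm (Equiv.swap 0 3)).crem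
  have h3 : logHeight₁ (h * (h / (x 3 * x 0 * x 5))) ≤ H := hH _ _ (hP.perm (Equiv.swap 0 4)).crem
  have h4 : logHeight₁ (h * (h / (x 3 * x 4 * x 0))) ≤ H := hH _ _ (hP.perm (Equiv.swap 0 5)).crem
  have e : x 3 ^ 3 = h ^ 2 * (h * (h / (x 3 * x 4 * x 5)))⁻¹ *
      (h * (h / (x 0 * x 4 * x 5))) ^ 2 * (h * (h / (x 3 * x 0 * x 5)))⁻¹ *
      (h * (h / (x 3 * x 4 * x 0)))⁻¹ := by
    have := hP.ne
    have := hP.x_ne 0
    have := hP.x_ne 3
    have := hP.x_ne 4
    have := hP.x_ne 5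
    field_simp
  generalize h * (h / (x 3 * x 4 * x 5)) = t1 at h1 e
  generalize h * (h / (x 0 * x 4 * x 5)) = t2 at h2 e
  generalize h * (h / (x 3 * x 0 * x 5)) = t3 at h3 e
  generalize h * (h / (x 3 * x 4 * x 0)) = t4 at h4 e
  have e1 := logHeight₁_mul_le (h ^ 2 * t1⁻¹ * t2 ^ 2 * t3⁻¹) t4⁻¹
  have e2 := logHeight₁_mul_le (h ^ 2 * t1⁻¹ * t2 ^ 2) t3⁻¹
  have e3 := logHeight₁_mul_le (h ^ 2 * t1⁻¹) (t2 ^ 2)
  have e4 := logHeight₁_mul_le (h ^ 2) t1⁻¹
  rw [← e] at e1
  simp only [logHeight₁_pow, logHeight₁_inv] at e1 e2 e3 e4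
  have := zero_le_logHeight₁ h
  push_cast at e1 e3 e4
  linarith

/-- The roots `x i x j x l / h` are values of `h'` (`Par.perm`, `Par.crem`), `x i / x j` is a
quotient of two of them and `x i ^ 3` a product.  Any explicit constants will do. -/
theorem ht_of_roots : ∃ c : ℕ × ℕ → ℕ, Primrec c ∧ ∀ (K : Type) [Field K] [NumberField K]
    (a : Co K) (x : Fin 6 → K) (h : K) (H D : ℕ), Par a x h → Module.finrank ℚ K ≤ D →
    (∀ x' h', Par a x' h' → logHeight₁ h' ≤ H) → a.Ht (c (H, D)) := by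
  let z : Fin 6 → MvPolynomial (Fin 3 ⊕ Fin 6) ℤ := fun i => MvPolynomial.X (Sum.inr i)
  let b : Co (MvPolynomial (Fin 3 ⊕ Fin 6) ℤ) := coR (MvPolynomial.X (Sum.inl 0))
    (MvPolynomial.X (Sum.inl 1)) (MvPolynomial.X (Sum.inl 2)) (es z 1) (es z 2) (es z 3) (es z 4)
    (es z 5)
  obtain ⟨n1, p1⟩ := b1b_poly b.q0
  obtain ⟨n2, p2⟩ := b1b_poly b.c
  obtain ⟨n3, p3⟩ := b1b_poly b.q2
  obtain ⟨n4, p4⟩ := b1b_poly b.r0
  obtain ⟨n5, p5⟩ := b1b_poly b.r1
  obtain ⟨n6, p6⟩ := b1b_poly b.e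
  obtain ⟨n0, p0⟩ := b1b_poly (4 : MvPolynomial Unit ℤ)
  refine ⟨fun q => (n1 + n2 + n3 + n4 + n5 + n6) * (3 * q.1 + (n0 + 1) * q.2), ?_, ?_⟩
  · exact Primrec.nat_mul.comp (Primrec.const _) (Primrec.nat_add.comp
      (Primrec.nat_mul.comp (Primrec.const _) Primrec.fst)
      (Primrec.nat_mul.comp (Primrec.const _) Primrec.snd))
  intro K _ _ a x h H D hP hD hH
  have hD' : (Module.finrank ℚ K : ℝ) ≤ D := by exact_mod_cast hD
  have hD0 : (0 : ℝ) ≤ D := Nat.cast_nonneg _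
  have hH0 : (0 : ℝ) ≤ H := Nat.cast_nonneg _
  have hn0 : (0 : ℝ) ≤ n0 * D := by positivity
  have h4 := p0 K D (fun _ => 0) hD' (fun _ => by simp)
  rw [map_ofNat] at h4
  have hx : ∀ i, logHeight₁ (x i) ≤ 3 * H := fun i => by
    simpa using b1b_three (hP.perm (Equiv.swap 3 i)) hH
  have hh := hH x h hP
  let y : Fin 3 ⊕ Fin 6 → K := Sum.elim ![4⁻¹, h, h⁻¹] x
  set U : ℝ := 3 * H + (n0 + 1) * D with hU
  have hU1 : (Module.finrank ℚ K : ℝ) ≤ U := by rw [hU]; linarith
  have hU0 : 0 ≤ U := by positivity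
  have hy : ∀ i, logHeight₁ (y i) ≤ U := by
    rintro (i | i)
    · fin_cases i
      · change logHeight₁ (4⁻¹ : K) ≤ U
        rw [logHeight₁_inv, hU]
        linarith
      · change logHeight₁ h ≤ U
        rw [hU]
        linarith
      · change logHeight₁ h⁻¹ ≤ U
        rw [logHeight₁_inv, hU]
        linarith
    · change logHeight₁ (x i) ≤ U
      have := hx i
      rw [hU]
      linarith
  have e : a = b.map (MvPolynomial.eval₂Hom (Int.castRingHom K) y) := by
    rw [coR_map, hP.co]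
    simp only [map_es, z, MvPolynomial.eval₂Hom_X']
    rfl
  have q1 := p1 K U y hU1 hy
  have q2 := p2 K U y hU1 hy
  have q3 := p3 K U y hU1 hy
  have q4 := p4 K U y hU1 hy
  have q5 := p5 K U y hU1 hy
  have q6 := p6 K U y hU1 hy
  have m1 : 0 ≤ n1 * U := by positivity
  have m2 : 0 ≤ n2 * U := by positivity
  have m3 : 0 ≤ n3 * U := by positivity
  have m4 : 0 ≤ n4 * U := by positivity
  have m5 : 0 ≤ n5 * U := by positivity
  have m6 : 0 ≤ n6 * U := by positivity
  intro w hw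
  have e2 : (((n1 + n2 + n3 + n4 + n5 + n6) * (3 * H + (n0 + 1) * D) : ℕ) : ℝ) =
      n1 * U + n2 * U + n3 * U + n4 * U + n5 * U + n6 * U := by
    rw [hU]
    push_cast
    ring
  rw [e2]
  clear_value b
  subst e
  simp only [Co.map, List.mem_cons, List.not_mem_nil, or_false] at hw
  rcases hw with rfl | rfl | rfl | rfl | rfl | rfl <;> linarith

end Pool.Agent.Lib.MP_07b2d0_nt.G3
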