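import Pool.Agent.Lib.MP_07b2d0_nt.G3.P3

/-!
Every curve has parameters, of bounded degree.
-/

set_option autoImplicit false

namespace Pool.Agent.Lib.MP_07b2d0_nt.G3

open Polynomial Fh

/-- The image of the universal parameters in a field. -/
theorem p3b_img {B K : Type} [CommRing B] [Field K] [CharZero K] (φ : B →+* K) {u H G : B}
    (X : Fin 6 → B) (hu : 4 * u = 1) (hG : H * G = 1) :
    φ H ≠ 0 ∧ (coR u H G (es X 1) (es X 2) (es X 3) (es X 4) (es X 5)).map φ =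
      coR 4⁻¹ (φ H) (φ H)⁻¹ (es (fun i => φ (X i)) 1) (es (fun i => φ (X i)) 2)
        (es (fun i => φ (X i)) 3) (es (fun i => φ (X i)) 4) (es (fun i => φ (X i)) 5) := by
  have h1 : φ H * φ G = 1 := by rw [← map_mul, hG, map_one]
  have h2 : (4 : K) * φ u = 1 := by rw [← map_ofNat φ 4, ← map_mul, hu, map_one]
  refine ⟨left_ne_zero_of_mul_eq_one h1, ?_⟩
  rw [coR_map, eq_inv_of_mul_eq_one_right h1, eq_inv_of_mul_eq_one_right h2, map_es, map_es,
    map_es, map_es, map_es]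

/-- The ring of the universal parameters. -/
theorem p3b_gen : ∃ (B : Type) (_ : CommRing B) (_ : IsDomain B)
    (j : MvPolynomial (Fin 6) ℚ →+* B) (b : Co B) (X : Fin 6 → B) (u H G : B),
    Function.Injective j ∧ j.IsIntegral ∧ 4 * u = 1 ∧ H * G = 1 ∧ ∏ i, X i = H ^ 3 ∧
    b = coR u H G (es X 1) (es X 2) (es X 3) (es X 4) (es X 5) ∧
    (∀ i, j (MvPolynomial.X i) = ![b.q0, b.c, b.q2, b.r0, b.r1, b.e] i) ∧
    ∀ (K : Type) [Field K] [CharZero K] (x' : Fin 6 → K) (h' : K), h' ≠ 0 → ∏ i, x' i = h' ^ 3 →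
      ∃ φ : B →+* K, (∀ i, φ (X i) = x' i) ∧ φ H = h' := by
  obtain ⟨E, _, _, a, x, h, hP, hI, hZ, hφ⟩ := exists_generic
  have : CharZero E := algebraRat.charZero E
  let B := Algebra.adjoin ℚ (Set.range x ∪ {h, h⁻¹})
  have hx : ∀ i, x i ∈ B := fun i => Algebra.subset_adjoin (Or.inl ⟨i, rfl⟩)
  have hh : h ∈ B := Algebra.subset_adjoin (Or.inr (Or.inl rfl))
  have hg : h⁻¹ ∈ B := Algebra.subset_adjoin (Or.inr (Or.inr rfl))
  let X : Fin 6 → B := fun i => ⟨x i, hx i⟩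
  let u : B := algebraMap ℚ B 4⁻¹
  have hu : 4 * u = 1 := by
    rw [← map_ofNat (algebraMap ℚ B) 4, ← map_mul, mul_inv_cancel₀ (by norm_num), map_one]
  have hG : (⟨h, hh⟩ : B) * ⟨h⁻¹, hg⟩ = 1 := Subtype.ext (mul_inv_cancel₀ hP.ne)
  let b : Co B := coR u ⟨h, hh⟩ ⟨h⁻¹, hg⟩ (es X 1) (es X 2) (es X 3) (es X 4) (es X 5)
  have hb : b.map B.val.toRingHom = a := (p3b_img B.val.toRingHom X hu hG).2.trans hP.co.symm
  let j : MvPolynomial (Fin 6) ℚ →ₐ[ℚ] B := MvPolynomial.aeval ![b.q0, b.c, b.q2, b.r0, b.r1, b.e]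
  have hj : B.val.comp j = MvPolynomial.aeval ![a.q0, a.c, a.q2, a.r0, a.r1, a.e] := by
    refine MvPolynomial.algHom_ext fun i => ?_
    rw [AlgHom.comp_apply, MvPolynomial.aeval_X, MvPolynomial.aeval_X, ← hb]
    fin_cases i <;> rfl
  refine ⟨B, inferInstance, inferInstance, j.toRingHom, b, X, u, ⟨h, hh⟩, ⟨h⁻¹, hg⟩, ?_, ?_, hu, hG,
    ?_, rfl, fun i => MvPolynomial.aeval_X _ i, fun K _ _ x' h' h0 h1 => ?_⟩
  · have : Function.Injective (B.val.comp j) := by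
      rw [hj]
      exact hI
    exact Function.Injective.of_comp (f := B.val) this
  · intro z
    obtain ⟨p, hp, e⟩ := hZ z z.2
    refine ⟨p.map hI.aevalEquiv.symm.toAlgHom.toRingHom, hp.map _, Subtype.ext ?_⟩
    have h3 := hom_eval₂ (p.map hI.aevalEquiv.symm.toAlgHom.toRingHom) j.toRingHom
      B.val.toRingHom z
    refine h3.trans ?_
    rw [eval₂_map]
    refine Eq.trans ?_ e
    congr 1
    refine RingHom.ext fun c => ?_
    obtain ⟨q, rfl⟩ := hI.aevalEquiv.surjective c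
    rw [hI.algebraMap_aevalEquiv, ← hj]
    simp
  · refine Subtype.ext ?_
    have h3 := map_prod B.val X Finset.univ
    exact h3.trans hP.prod
  · obtain ⟨φ, e1, e2⟩ := hφ K x' h' h0 h1
    exact ⟨φ, fun i => e1 i _, e2 _⟩

/-- Lying over (`ext_integral`). -/
theorem exists_par {Ω : Type} [Field Ω] [IsAlgClosed Ω] [CharZero Ω] (a : Co Ω) :
    ∃ x h, Par a x h := by
  obtain ⟨B, _, _, j, b, X, u, H, G, hj, hi, hu, hG, hX, hb, hc, -⟩ := p3b_gen
  let : Algebra (MvPolynomial (Fin 6) ℚ) B := j.toAlgebra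
  have : FaithfulSMul (MvPolynomial (Fin 6) ℚ) B :=
    (faithfulSMul_iff_algebraMap_injective _ _).2 hj
  have : Algebra.IsIntegral (MvPolynomial (Fin 6) ℚ) B := ⟨hi⟩
  obtain ⟨ψ, hψ⟩ := ext_integral (B := B)
    (MvPolynomial.aeval (R := ℚ) ![a.q0, a.c, a.q2, a.r0, a.r1, a.e]).toRingHom
  have h1 : ∀ i, ψ (![b.q0, b.c, b.q2, b.r0, b.r1, b.e] i) =
      ![a.q0, a.c, a.q2, a.r0, a.r1, a.e] i := fun i => by
    rw [← hc]
    exact (hψ _).trans (MvPolynomial.aeval_X _ i)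
  obtain ⟨h2, h3⟩ := p3b_img ψ X hu hG
  refine ⟨fun i => ψ (X i), ψ H, h2, by rw [← map_prod, hX, map_pow], ?_⟩
  rw [← h3, ← hb]
  exact Co.ext (h1 0).symm (h1 1).symm (h1 2).symm (h1 3).symm (h1 4).symm (h1 5).symm

theorem par_deg : ∃ d : ℕ, ∀ (k K : Type) [Field k] [CharZero k] [Field K] [Algebra k K]
    (a : Co k) (x : Fin 6 → K) (h : K), Par (a.up K) x h →
    ∀ z, (z = h ∨ ∃ i, z = x i) → ∃ f : k[X], f.Monic ∧ f.natDegree ≤ d ∧ aeval z f = 0 := by
  obtain ⟨B, _, _, j, b, X, u, H, G, -, hi, hu, hG, -, hb, hc, hφ⟩ := p3b_gen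
  choose p hp he using hi
  refine ⟨(p H).natDegree + ∑ i, (p (X i)).natDegree, fun k K _ _ _ _ a x h hP z hz => ?_⟩
  have : CharZero K := charZero_of_injective_algebraMap (algebraMap k K).injective
  obtain ⟨φ, e1, e2⟩ := hφ K x h hP.ne hP.prod
  have h3 : b.map φ = a.up K := by
    rw [hb, (p3b_img φ X hu hG).2, e2, funext e1]
    exact hP.co.symm
  let s : MvPolynomial (Fin 6) ℚ →+* k :=
    (MvPolynomial.aeval (R := ℚ) ![a.q0, a.c, a.q2, a.r0, a.r1, a.e]).toRingHom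
  have h4 : (algebraMap k K).comp s = φ.comp j := by
    refine MvPolynomial.ringHom_ext' (Subsingleton.elim _ _) fun i => ?_
    have h5 : s (MvPolynomial.X i) = ![a.q0, a.c, a.q2, a.r0, a.r1, a.e] i :=
      MvPolynomial.aeval_X _ i
    rw [RingHom.comp_apply, RingHom.comp_apply, h5, hc]
    fin_cases i
    · exact (congrArg Co.q0 h3).symm
    · exact (congrArg Co.c h3).symm
    · exact (congrArg Co.q2 h3).symm
    · exact (congrArg Co.r0 h3).symm
    · exact (congrArg Co.r1 h3).symm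
    · exact (congrArg Co.e h3).symm
  have key : ∀ Z : B, aeval (φ Z) ((p Z).map s) = 0 := fun Z => by
    rw [aeval_def, eval₂_map, h4, ← hom_eval₂, he, map_zero]
  rcases hz with rfl | ⟨i, rfl⟩
  · exact ⟨(p H).map s, (hp H).map s, natDegree_map_le.trans (Nat.le_add_right _ _), e2 ▸ key H⟩
  · refine ⟨(p (X i)).map s, (hp _).map s, natDegree_map_le.trans (le_trans ?_
      (Nat.le_add_left _ _)), e1 i ▸ key (X i)⟩
    exact Finset.single_le_sum (f := fun i => (p (X i)).natDegree) (fun _ _ => Nat.zero_le _)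
      (Finset.mem_univ i)

end Pool.Agent.Lib.MP_07b2d0_nt.G3
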