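import Pool.Agent.Lib.MP_07b2d0_nt.G3.Ar1
import Pool.Agent.Lib.MP_07b2d0_nt.G3.P3b
import Pool.Agent.Lib.MP_07b2d0_nt.G3.B1b
import Pool.Agent.Lib.MP_07b2d0_nt.Fh.Kl

/-!
The effective bound for the coefficients.
-/

set_option autoImplicit false

namespace Pool.Agent.Lib.MP_07b2d0_nt.G3

open Polynomial NumberField Height Fh

theorem Odd1.ext {k K : Type} [Field k] [Field K] [Algebra k K] [Algebra.IsAlgebraic k K]
    {a : Co k} (h : Odd1 (a.up (AlgebraicClosure k))) :
    Odd1 ((a.up K).up (AlgebraicClosure K)) := by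
  have : IsAlgClosure k (AlgebraicClosure K) :=
    ⟨inferInstance, Algebra.IsAlgebraic.trans k K (AlgebraicClosure K)⟩
  let e := IsAlgClosure.equiv k (AlgebraicClosure k) (AlgebraicClosure K)
  have h1 := h.map e.toRingEquiv
  have h2 : (e.toRingEquiv : AlgebraicClosure k →+* AlgebraicClosure K).comp
      (algebraMap k (AlgebraicClosure k)) =
      (algebraMap K (AlgebraicClosure K)).comp (algebraMap k K) := by
    ext z
    exact (e.commutes z).trans (IsScalarTower.algebraMap_apply k K (AlgebraicClosure K) z)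
  rw [Co.map_map, h2] at h1
  exact h1

open Pointwise in
theorem ar2_inr {k Ω : Type} [Field k] [Field Ω] [Algebra k Ω] {N : ℕ} {σ : Ω ≃ₐ[k] Ω}
    (h : Ks.Inertial k Ω N σ) :
    ∃ V : ValuationSubring Ω, (N : Ω)⁻¹ ∈ V ∧ Inr V σ.toRingEquiv := by
  obtain ⟨A, hN, τ, hτ, rfl⟩ := h
  refine ⟨A, hN, fun z => ?_, fun z hz => ?_⟩
  · have h1 : (τ : Ω ≃ₐ[k] Ω)⁻¹ • A = A := MulAction.mem_stabilizer_iff.1 (inv_mem τ.2)
    have h2 := ValuationSubring.mem_pointwise_smul_iff_inv_smul_mem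
      (g := (τ : Ω ≃ₐ[k] Ω)⁻¹) (S := A) (x := z)
    rw [h1, inv_inv] at h2
    exact h2.symm
  · have h1 : τ • IsLocalRing.residue A ⟨z, hz⟩ = IsLocalRing.residue A ⟨z, hz⟩ :=
      DFunLike.congr_fun (MonoidHom.mem_ker.1 hτ) _
    rw [← IsLocalRing.ResidueField.residue_smul, ← sub_eq_zero, ← map_sub,
      IsLocalRing.residue_eq_zero_iff, ValuationSubring.valuation_lt_one_iff] at h1
    exact h1

theorem ar2_sep {k Ω : Type} [Field k] [CharZero k] [Field Ω] [Algebra k Ω]
    [Algebra.IsAlgebraic k Ω] {ι : Type} [Fintype ι] (z : ι → Ω) {d : ℕ}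
    (hz : ∀ i, ∃ f : k[X], f.Monic ∧ f.natDegree ≤ d ∧ aeval (z i) f = 0) :
    ∃ f : k[X], f.Separable ∧ f.natDegree ≤ Fintype.card ι * d ∧ (∀ i, aeval (z i) f = 0) ∧
      ∀ r : Ω, aeval r f = 0 → ∃ i, aeval r (minpoly k (z i)) = 0 := by
  classical
  have hI : ∀ i, IsIntegral k (z i) := fun i => (Algebra.IsAlgebraic.isAlgebraic (z i)).isIntegral
  let T : Finset k[X] := Finset.univ.image fun i => minpoly k (z i)
  have hT : ∀ p ∈ T, ∃ i, minpoly k (z i) = p := fun p hp => by simpa [T] using hp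
  refine ⟨∏ p ∈ T, p, separable_prod' (fun p hp q hq hne => ?_) fun p hp => ?_, ?_, fun i => ?_,
    fun r hr => ?_⟩
  · obtain ⟨i, rfl⟩ := hT p hp
    obtain ⟨j, rfl⟩ := hT q hq
    refine (minpoly.irreducible (hI i)).coprime_iff_not_dvd.2 fun hd => hne ?_
    exact eq_of_monic_of_associated (minpoly.monic (hI i)) (minpoly.monic (hI j))
      ((minpoly.irreducible (hI i)).associated_of_dvd (minpoly.irreducible (hI j)) hd)
  · obtain ⟨i, rfl⟩ := hT p hp
    exact (minpoly.irreducible (hI i)).separable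
  · refine (natDegree_prod_le _ _).trans ((Finset.sum_le_card_nsmul T _ d fun p hp => ?_).trans ?_)
    · obtain ⟨i, rfl⟩ := hT p hp
      obtain ⟨f, h1, h2, h3⟩ := hz i
      exact (natDegree_le_of_dvd (minpoly.dvd k _ h3) h1.ne_zero).trans h2
    · exact Nat.mul_le_mul_right d Finset.card_image_le
  · rw [map_prod]
    exact Finset.prod_eq_zero (Finset.mem_image_of_mem _ (Finset.mem_univ i)) (minpoly.aeval k _)
  · rw [map_prod, Finset.prod_eq_zero_iff] at hr
    obtain ⟨p, hp, hr⟩ := hr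
    obtain ⟨i, rfl⟩ := hT p hp
    exact ⟨i, hr⟩

theorem ar2_up {k K Ω : Type} [Field k] [Field K] [Field Ω] [Algebra k K] [Algebra k Ω]
    (a : Co k) (e : K →ₐ[k] Ω) : (a.up K).map (e : K →+* Ω) = a.up Ω := by
  rw [Co.map_map, e.comp_algebraMap]

/-- `exists_par`, `par_deg`, `exists_field_of_fix` for the product of the distinct minimal
polynomials; the conjugates of parameters are parameters. -/
theorem exists_field_par : ∃ d : ℕ, ∀ (k : Type) [Field k] [NumberField k] (N : ℕ) (a : Co k),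
    Good N a → a.Sm → 2 ∣ N → N ≠ 0 → (∀ p : ℕ, p.Prime → (p : ℤ) ∣ discr k → p ∣ N) →
    ∃ (K : Type) (_ : Field K) (_ : NumberField K) (_ : Algebra k K) (x : Fin 6 → K) (h : K),
      Module.finrank ℚ K ≤ d * Module.finrank ℚ k ∧
      (∀ p : ℕ, p.Prime → (p : ℤ) ∣ discr K → p ∣ N) ∧ Par (a.up K) x h := by
  obtain ⟨d, hd⟩ := par_deg
  refine ⟨(7 * d).factorial, fun k _ _ N a hG hs h2 h0 hk => ?_⟩
  have : CharZero (AlgebraicClosure k) :=
    charZero_of_injective_algebraMap (algebraMap k _).injective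
  obtain ⟨x, h, hP⟩ := exists_par (a.up (AlgebraicClosure k))
  obtain ⟨f, hf, hfd, hz, hr⟩ := ar2_sep (k := k) (ι := Option (Fin 6)) (d := d)
    (fun o => o.elim h x) fun o => hd k _ a x h hP _ (by
      rcases o with _ | i
      exacts [.inl rfl, .inr ⟨i, rfl⟩])
  obtain ⟨K, _, _, _, hD, hK, hsp⟩ := exists_field_of_fix (M := N) hk hf fun σ hσ r h1 => by
    obtain ⟨o, ho⟩ := hr r h1
    obtain ⟨τ, rfl⟩ := minpoly.exists_algEquiv_of_root' (Algebra.IsAlgebraic.isAlgebraic _) ho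
    obtain ⟨V, hN, hI⟩ := ar2_inr hσ
    have h3 := hP.map (τ.toAlgHom : AlgebraicClosure k →+* AlgebraicClosure k)
    rw [ar2_up] at h3
    have h4 := (hG.upt hs h2 h0 hN hI σ.commutes).2.2 _ _ h3
    rcases o with _ | i
    exacts [h4.2, h4.1 i]
  let e : K →ₐ[k] AlgebraicClosure k := IsAlgClosed.lift
  have h5 : ∀ o : Option (Fin 6), ∃ y : K, e y = o.elim h x := fun o =>
    hsp.mem_range_of_isRoot (hf.map (f := algebraMap k K)).ne_zero
      (i := (e : K →+* AlgebraicClosure k)) (by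
        rw [Polynomial.map_map, e.comp_algebraMap]
        exact (eval_map_algebraMap f _).trans (hz o))
  choose y hy using h5
  refine ⟨K, _, inferInstance, inferInstance, fun i => y (some i), y none,
    hD.trans (Nat.mul_le_mul_right _ (Nat.factorial_le (by simpa using hfd))), hK,
    Par.of_map (e : K →+* AlgebraicClosure k) ?_⟩
  rw [ar2_up]
  have h6 : (fun i => (e : K →+* AlgebraicClosure k) (y (some i))) = x := funext fun i => hy _
  have h7 : (e : K →+* AlgebraicClosure k) (y none) = h := hy none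
  rw [h6, h7]
  exact hP

end Pool.Agent.Lib.MP_07b2d0_nt.G3
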