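import Pool.Agent.Lib.MP_07b2d0_nt.G3.Ar2

/-!
The effective bound for the coefficients.
-/

set_option autoImplicit false

namespace Pool.Agent.Lib.MP_07b2d0_nt.G3

open Polynomial NumberField Height Fh

theorem arith_main : ∃ c : ℕ × ℕ → ℕ, Primrec c ∧ ∀ (k : Type) [Field k] [NumberField k]
    (N D : ℕ) (a : Co k), Good N a → a.Sm → 2 ∣ N → N ≠ 0 →
    (∀ p : ℕ, p.Prime → (p : ℤ) ∣ discr k → p ∣ N) → Module.finrank ℚ k ≤ D →
    Odd1 (a.up (AlgebraicClosure k)) → a.Ht (c (N, D)) := by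
  obtain ⟨d, h1⟩ := exists_field_par
  obtain ⟨c₁, p1, h2⟩ := baker
  obtain ⟨c₂, p2, h3⟩ := ht_of_roots
  have q : Primrec fun z : ℕ × ℕ => d * z.2 := pr_mul (.const _) .snd
  refine ⟨fun z => c₂ (c₁ (par (Nat.factorial 13 * z.1) (d * z.2)), d * z.2),
    p2.comp (.pair (p1.comp (pr_par.comp (.pair (pr_mul (.const _) .fst) q))) q),
    fun k _ _ N D a hG hs e2 e0 hd hD hO => ?_⟩
  obtain ⟨K, _, _, _, x, h, k1, k2, hP⟩ := h1 k N a hG hs e2 e0 hd
  have k0 : Nat.factorial 13 * N ≠ 0 := mul_ne_zero (Nat.factorial_ne_zero _) e0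
  have k3 := k1.trans (Nat.mul_le_mul_left d hD)
  have k4 : ∀ p : ℕ, p.Prime → (p : ℤ) ∣ discr K → p ∣ Nat.factorial 13 * N :=
    fun p hp e => (k2 p hp e).mul_left _
  have hG' := (hG.map (algebraMap k K)).mono (dvd_mul_left N (Nat.factorial 13)) k0
  have hs' := hs.map (algebraMap k K)
  have key := h3 K (a.up K) x h _ _ hP k3 fun x' h' hP' =>
    h2 K _ _ h' (small_of_le k0 k4 k3) (dvd_mul_right _ _) hP'.ne (hP'.h_ne_one hs') fun v hv =>
      have hv' := fp_eq_one_of_dvd (dvd_mul_left _ 2) hv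
      ⟨(units_main hG' hs' (e2.mul_left _) k0 hO.ext hP' v hv').2,
        even_main hG' hs' (dvd_mul_right _ _) k0 k4 hO.ext hP' v hv'⟩
  intro z hz
  refine (logHeight_le_map (algebraMap k K) z).trans (key _ ?_)
  exact List.mem_map_of_mem (f := algebraMap k K) hz

end Pool.Agent.Lib.MP_07b2d0_nt.G3
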