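import Pool.Agent.Lib.MP_07b2d0_nt.G3.P0
import Pool.Agent.Lib.MP_07b2d0_nt.Fh.Old

/-!
The heights of the coefficients.
-/

set_option autoImplicit false

namespace Pool.Agent.Lib.MP_07b2d0_nt.G3

open Polynomial NumberField Height Fh

/-- `exists_ext` gives `1 - ρ = y ^ 2` over a small extension; `u = (1 + y) / 2` and `u - 1` are
units because `(1 + y) (1 - y) = ρ`; use `Small.unit_eq` and `logHeight_le_map`. -/
theorem baker : ∃ c : ℕ → ℕ, Primrec c ∧ ∀ (K : Type) [Field K] [NumberField K] (n N : ℕ) (ρ : K),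
    Small K n N → 2 ∣ N → ρ ≠ 0 → ρ ≠ 1 →
    (∀ v : FinitePlace K, v (N : K) = 1 → v ρ = 1 ∧ Even (ord v (1 - ρ))) →
    logHeight₁ ρ ≤ c n := by
  refine ⟨fun n => 8 * nfC (extN 1 n), pr_mul (.const _) (pr_nfC (pr_extN (.const _) .id)), ?_⟩
  intro K _ _ n N ρ s h2 h0 h1 h
  obtain ⟨L, _, _, φ, e1, e2, e3⟩ := exists_ext s.hD s.hd s.hN s.hNn (fun _ : Fin 1 => 1 - ρ)
    (fun _ => sub_ne_zero.2 h1.symm) fun _ v hv => (h v hv).2
  have s' : Small L (extN 1 n) N := ⟨e1, e2, s.hN, s.hNn.trans (le_extN _ _), h2⟩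
  obtain ⟨y, hy⟩ := e3 0
  rw [map_sub, map_one] at hy
  have hρ : IsU N (φ ρ) :=
    (isU_of_ord h0 fun v hv => (fp_eq_one_iff v h0).1 (h v hv).1).map φ s.hN
  have hyR : y ∈ RN L N := mem_RN_of_sq (by rw [sq, ← hy]; exact sub_mem (one_mem _) hρ.2.1)
  have hp := add_mem (one_mem _) hyR
  have hm := sub_mem (one_mem _) hyR
  have u1 : IsU N ((1 + y) / 2) :=
    (hρ.of_mul hp hm (by linear_combination hy)).div (isU_two h2)
  have u2 : IsU N ((1 - y) / 2) :=
    (hρ.of_mul hm hp (by linear_combination hy)).div (isU_two h2)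
  have b1 := s'.unit_eq u1 (by
    rw [show (1 + y) / 2 - 1 = -((1 - y) / 2) by ring]
    exact u2.neg)
  have b2 := s'.unit_eq u2 (by
    rw [show (1 - y) / 2 - 1 = -((1 + y) / 2) by ring]
    exact u1.neg)
  have b3 := s'.unit_eq (isU_two h2) (by
    rw [show (2 : L) - 1 = 1 by norm_num]
    exact isU_one)
  have e : φ ρ = 2 * ((1 + y) / 2) * (2 * ((1 - y) / 2)) := by linear_combination -hy
  have b4 := logHeight₁_mul_le (2 * ((1 + y) / 2)) (2 * ((1 - y) / 2))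
  have b5 := logHeight₁_mul_le 2 ((1 + y) / 2)
  have b6 := logHeight₁_mul_le 2 ((1 - y) / 2)
  have b7 := logHeight_le_map φ ρ
  rw [e] at b7
  push_cast
  linarith

end Pool.Agent.Lib.MP_07b2d0_nt.G3
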