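import Pool.Agent.Lib.MP_07b2d0_nt.G3.Bas

/-!
The function field of the curve.
-/

set_option autoImplicit false

namespace Pool.Agent.Lib.MP_07b2d0_nt.G3

open Polynomial Fh
open scoped IntermediateField

variable {L E : Type} [Field L] [Field E] [Algebra L E] {a : Co L} {s t : E}

theorem c1_noroot (hs : a.Sm) (ρ : L[X]) : (a.up L[X]).F X ρ ≠ 0 := by
  intro h0
  obtain ⟨A, B, D, hb⟩ := hs.bez (algebraMap L L[X]) X ρ
  have hd : (a.up L[X]).Fs X ρ + (a.up L[X]).Ft X ρ * derivative ρ = 0 := by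
    have := congrArg derivative h0
    simp only [Co.F, Co.Fs, Co.Ft, Co.map, Polynomial.algebraMap_apply, Algebra.algebraMap_self,
      RingHom.id_apply, derivative_add, derivative_mul, derivative_C, derivative_X, pow_succ,
      pow_zero, one_mul, derivative_zero] at this ⊢
    linear_combination this
  have hu : IsUnit ((a.up L[X]).Ft X ρ) := IsUnit.of_mul_eq_one
    (MvPolynomial.eval₂Hom (algebraMap L L[X]) ![X, ρ] D -
      MvPolynomial.eval₂Hom (algebraMap L L[X]) ![X, ρ] B * derivative ρ) (by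
    rw [← hb]
    change _ = _ * (a.up L[X]).F X ρ + _ * (a.up L[X]).Fs X ρ + _ * (a.up L[X]).Ft X ρ
    rw [h0]
    linear_combination (-MvPolynomial.eval₂Hom (algebraMap L L[X]) ![X, ρ] B) * hd)
  have h4 : ((a.up L[X]).Ft X ρ).coeff 4 = 0 :=
    coeff_eq_zero_of_natDegree_lt (by rw [natDegree_eq_zero_of_isUnit hu]; norm_num)
  have hK : (X ^ 3 + C a.q0 * X ^ 2 + C a.r0 * X + C a.c ^ 2 + C a.e : L[X]).natDegree = 3 := by
    compute_degree!
  have hdv : ρ ∣ X ^ 3 + C a.q0 * X ^ 2 + C a.r0 * X + C a.c ^ 2 + C a.e :=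
    ⟨-(a.up L[X]).th X ρ, by
      rw [Co.F_eq_th] at h0
      simp only [Co.map, Polynomial.algebraMap_apply, Algebra.algebraMap_self, RingHom.id_apply] at h0 ⊢
      linear_combination h0⟩
  have h3 : ρ.natDegree < 4 := by
    have := natDegree_le_of_dvd hdv fun e => by simp [e] at hK
    omega
  obtain ⟨a0, a1, a2, a3, rfl⟩ : ∃ a0 a1 a2 a3 : L,
      ρ = C a3 * X ^ 3 + C a2 * X ^ 2 + C a1 * X + C a0 :=
    ⟨ρ.coeff 0, ρ.coeff 1, ρ.coeff 2, ρ.coeff 3, by
      conv_lhs => rw [ρ.as_sum_range' 4 h3]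
      simp only [Finset.sum_range_succ, Finset.sum_range_zero, ← C_mul_X_pow_eq_monomial]
      ring⟩
  simp only [Co.F, Co.Ft, Co.map, Polynomial.algebraMap_apply, Algebra.algebraMap_self, RingHom.id_apply]
    at h0 h4
  have e9 : a3 ^ 3 = 0 := by
    rw [← coeff_zero (R := L) 9, ← h0]
    symm
    compute_degree!
  obtain rfl := pow_eq_zero_iff (by norm_num) |>.1 e9
  simp only [map_zero, zero_mul, zero_add] at h0 h4
  have e6 : a2 ^ 2 + a2 ^ 3 = 0 := by
    rw [← coeff_zero (R := L) 6, ← h0]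
    symm
    compute_degree!
  have e4 : 2 * a2 + 3 * a2 ^ 2 = 0 := by
    rw [← h4]
    symm
    compute_degree!
  obtain rfl : a2 = 0 := pow_eq_zero_iff (n := 2) (by norm_num) |>.1 (by
    linear_combination 3 * e6 - a2 * e4)
  simp only [map_zero, zero_mul, zero_add] at h0
  have e5 : a1 ^ 2 = 0 := by
    rw [← coeff_zero (R := L) 4, ← h0]
    symm
    compute_degree!
  obtain rfl := pow_eq_zero_iff (by norm_num) |>.1 e5
  simp only [map_zero, zero_mul, zero_add] at h0
  have e3 : (1 : L) = 0 := by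
    rw [← coeff_zero (R := L) 3, ← h0]
    symm
    compute_degree!
  exact one_ne_zero e3

/-- The equation as a polynomial in the second variable. -/
noncomputable def c1P (a : Co L) : L[X][X] := (a.up L[X][X]).F (C X) X

theorem c1_eval {T : Type} [CommRing T] [Algebra L T] (s t : T) :
    eval₂RingHom (aeval s : L[X] →ₐ[L] T).toRingHom t (c1P a) = (a.up T).F s t := by
  rw [c1P, Co.map_F]
  simp [Co.map, Polynomial.algebraMap_apply]

theorem c1_eq : c1P a = X ^ 3 + (C (X ^ 2 + C a.q2) * X ^ 2 + C (2 * C a.c * X + C a.r1) * X +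
    C (X ^ 3 + C a.q0 * X ^ 2 + C a.r0 * X + C a.c ^ 2 + C a.e)) := by
  simp only [c1P, Co.F, Co.map, Polynomial.algebraMap_apply, Algebra.algebraMap_self, RingHom.id_apply,
    map_add, map_mul, map_pow, map_ofNat]
  ring

theorem c1_monic : (c1P a).Monic := by
  rw [c1_eq]
  monicity!

theorem c1_deg : (c1P a).natDegree = 3 := by
  rw [c1_eq]
  compute_degree!

theorem c1_irr (hs : a.Sm) : Irreducible (c1P a) := by
  rw [c1_monic.irreducible_iff_roots_eq_zero_of_degree_le_three (by rw [c1_deg]; norm_num)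
    c1_deg.le, Multiset.eq_zero_iff_forall_notMem]
  intro ρ h
  refine c1_noroot hs ρ ?_
  rw [← c1_eval, ← (isRoot_of_mem_roots h).eq_zero]
  rw [coe_eval₂RingHom, eval]
  congr 1
  exact RingHom.ext fun q => aeval_X_left_apply q

theorem c1_dvd (hs : a.Sm) (ht : Transcendental L s) (he : (a.up E).F s t = 0) {Q : L[X][X]}
    (h : eval₂RingHom (aeval s : L[X] →ₐ[L] E).toRingHom t Q = 0) : c1P a ∣ Q := by
  let : Algebra L[X] E := (aeval s : L[X] →ₐ[L] E).toRingHom.toAlgebra
  have hi : Function.Injective (algebraMap L[X] E) := transcendental_iff_injective.1 ht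
  have : FaithfulSMul L[X] E := (faithfulSMul_iff_algebraMap_injective _ _).2 hi
  have h0 : aeval t (c1P a) = 0 := (c1_eval s t).trans he
  have hint : IsIntegral L[X] t := ⟨_, c1_monic, h0⟩
  have h1 := minpoly.isIntegrallyClosed_dvd hint h0
  exact (((c1_irr hs).dvd_iff.1 h1).resolve_left (minpoly.not_isUnit _ _)).dvd.trans
    (minpoly.isIntegrallyClosed_dvd hint h)

/-- No singular point over the algebraic closure implies the identity of Bezout: a maximal ideal
containing the three polynomials has a residue field that is finite over `L`. -/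
theorem sm_of_closure (h : ∀ s t : AlgebraicClosure L, (a.up _).F s t = 0 →
    (a.up _).Fs s t ≠ 0 ∨ (a.up _).Ft s t ≠ 0) : a.Sm := by
  by_contra hn
  have hI : Ideal.span {a.pol,
      (a.up (MvPolynomial (Fin 2) L)).Fs (MvPolynomial.X 0) (MvPolynomial.X 1),
      (a.up (MvPolynomial (Fin 2) L)).Ft (MvPolynomial.X 0) (MvPolynomial.X 1)} ≠ ⊤ := by
    intro e
    obtain ⟨A, z, hz, e1⟩ := Ideal.mem_span_insert.1 ((Ideal.eq_top_iff_one _).1 e)
    obtain ⟨B, D, rfl⟩ := Ideal.mem_span_pair.1 hz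
    exact hn ⟨A, B, D, by rw [e1, add_assoc]⟩
  obtain ⟨m, hm, hle⟩ := Ideal.exists_le_maximal _ hI
  let := Ideal.Quotient.field m
  have : Module.Finite L (MvPolynomial (Fin 2) L ⧸ m) :=
    finite_of_finite_type_of_isJacobsonRing _ _
  let ψ : MvPolynomial (Fin 2) L →ₐ[L] AlgebraicClosure L :=
    (IsAlgClosed.lift : (MvPolynomial (Fin 2) L ⧸ m) →ₐ[L] _).comp (Ideal.Quotient.mkₐ L m)
  have hψ : ∀ p ∈ m, (ψ : MvPolynomial (Fin 2) L →+* AlgebraicClosure L) p = 0 :=
    fun p hp => by simp [ψ, Ideal.Quotient.eq_zero_iff_mem.2 hp]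
  have e : (a.up (MvPolynomial (Fin 2) L)).map
      (ψ : MvPolynomial (Fin 2) L →+* AlgebraicClosure L) = a.up _ := by
    rw [Co.map_map, AlgHom.comp_algebraMap]
  have h0 := hψ _ (hle (Ideal.subset_span (.inl rfl)))
  have h1 := hψ _ (hle (Ideal.subset_span (.inr (.inl rfl))))
  have h2 := hψ _ (hle (Ideal.subset_span (.inr (.inr rfl))))
  rw [Co.pol, Co.map_F, e] at h0
  rw [Co.map_Fs, e] at h1
  rw [Co.map_Ft, e] at h2
  exact (h _ _ h0).elim (· h1) (· h2)

/-- The equation is a monic cubic in `t` over `L[s]`.  A root in `L(s)` lies in `L[s]`, and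
comparing degrees it has degree two; then `F = (t - ρ) (t ^ 2 + α t + β)` with `deg α ≤ 1`,
`ρ ^ 2 + α ρ + β` has positive degree, and a root of it in the algebraic closure gives a
singular point. -/
theorem cubic_indep (hs : a.Sm) (ht : Transcendental L s) (he : (a.up E).F s t = 0)
    {A B C : L[X]} (h : aeval s A + aeval s B * t + aeval s C * t ^ 2 = 0) :
    A = 0 ∧ B = 0 ∧ C = 0 := by
  have h1 := c1_dvd hs ht he
    (Q := Polynomial.C C * X ^ 2 + Polynomial.C B * X + Polynomial.C A) (by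
      simp only [map_add, map_mul, map_pow, coe_eval₂RingHom, eval₂_C, eval₂_X]
      rw [← h]
      simp only [AlgHom.toRingHom_eq_coe, RingHom.coe_coe]
      ring)
  have h2 := eq_zero_of_dvd_of_natDegree_lt h1 (by
    rw [c1_deg]
    exact Nat.lt_succ_of_le natDegree_quadratic_le)
  have h3 := fun n => congrArg (coeff · n) h2
  exact ⟨by simpa using h3 0, by simpa using h3 1, by simpa using h3 2⟩

theorem pol_dvd (hs : a.Sm) (ht : Transcendental L s) (he : (a.up E).F s t = 0)
    {p : MvPolynomial (Fin 2) L} (h : MvPolynomial.aeval ![s, t] p = 0) : a.pol ∣ p := by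
  let ψ : MvPolynomial (Fin 2) L →+* L[X][X] :=
    MvPolynomial.eval₂Hom (algebraMap L L[X][X]) ![C X, X]
  have key : ∀ {T : Type} [CommRing T] [Algebra L T] (s t : T),
      eval₂RingHom (aeval s : L[X] →ₐ[L] T).toRingHom t (ψ p) = MvPolynomial.aeval ![s, t] p := by
    intro T _ _ s t
    refine RingHom.congr_fun (g := (MvPolynomial.aeval ![s, t] : _ →ₐ[L] T))
      (f := (eval₂RingHom (aeval s : L[X] →ₐ[L] T).toRingHom t).comp ψ) ?_ p
    refine MvPolynomial.ringHom_ext (fun r => by simp [ψ, Polynomial.algebraMap_apply]) fun i => ?_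
    fin_cases i <;> simp [ψ]
  have h1 := map_dvd (eval₂RingHom (aeval (MvPolynomial.X 0 : MvPolynomial (Fin 2) L)).toRingHom
    (MvPolynomial.X 1)) (c1_dvd hs ht he ((key s t).trans h))
  have e : (![MvPolynomial.X 0, MvPolynomial.X 1] : Fin 2 → MvPolynomial (Fin 2) L) =
      MvPolynomial.X := funext fun i => by fin_cases i <;> rfl
  rwa [c1_eval, key, e, MvPolynomial.aeval_X_left_apply] at h1

theorem exists_cv (hs : a.Sm) :
    ∃ (E : Type) (_ : Field E) (_ : Algebra L E) (s t : E), Cv a s t := by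
  let P := (c1P a).map (algebraMap L[X] (RatFunc L))
  have : Fact (Irreducible P) :=
    ⟨(c1_monic.irreducible_iff_irreducible_map_fraction_map).1 (c1_irr hs)⟩
  let i : RatFunc L →ₐ[L] AdjoinRoot P := IsScalarTower.toAlgHom L (RatFunc L) (AdjoinRoot P)
  have hi : ∀ q : L[X], i (algebraMap L[X] (RatFunc L) q) = aeval (i RatFunc.X) q := fun q => by
    rw [aeval_algHom_apply, RatFunc.aeval_X_left_eq_algebraMap]
  refine ⟨AdjoinRoot P, inferInstance, inferInstance, i RatFunc.X, AdjoinRoot.root P, hs, ?_, ?_,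
    ?_⟩
  · refine transcendental_iff.2 fun q hq => ?_
    rw [← hi, map_eq_zero] at hq
    exact RatFunc.algebraMap_injective L (by rw [hq, map_zero])
  · rw [← c1_eval, ← AdjoinRoot.eval₂_root P, eval₂_map, coe_eval₂RingHom]
    congr 1
    exact RingHom.ext fun q => (hi q).symm
  · have hq : ∀ q : L[X], aeval (i RatFunc.X) q ∈
        IntermediateField.adjoin L {i RatFunc.X, AdjoinRoot.root P} := fun q =>
      IntermediateField.algebra_adjoin_le_adjoin L _ (Algebra.adjoin_mono (by simp)
        (aeval_mem_adjoin_singleton L _))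
    refine eq_top_iff.2 fun z _ => ?_
    induction z using AdjoinRoot.induction_on with
    | ih p =>
      induction p using Polynomial.induction_on' with
      | add p q h1 h2 => exact map_add (AdjoinRoot.mk P) p q ▸ add_mem (h1 trivial) (h2 trivial)
      | monomial n r =>
        rw [← C_mul_X_pow_eq_monomial, map_mul, map_pow, AdjoinRoot.mk_X, AdjoinRoot.mk_C]
        refine mul_mem ?_ (pow_mem (IntermediateField.subset_adjoin _ _ (by simp)) _)
        change i r ∈ _
        rw [← r.num_div_denom, map_div₀, hi, hi]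
        exact div_mem (hq _) (hq _)

end Pool.Agent.Lib.MP_07b2d0_nt.G3
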