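import Pool.Agent.Lib.MP_07b2d0_nt.G3.Bas

/-!
The place at a smooth point.
-/

set_option autoImplicit false

namespace Pool.Agent.Lib.MP_07b2d0_nt.G3

open Polynomial Fh WithZero

variable {L E : Type} [Field L] [Field E] [Algebra L E]

theorem c2_dec (p : MvPolynomial (Fin 2) L) : ∃ p₀ p₁ : MvPolynomial (Fin 2) L,
    p = MvPolynomial.C (MvPolynomial.constantCoeff p) + MvPolynomial.X 0 * p₀ +
      MvPolynomial.X 1 * p₁ := by
  induction p using MvPolynomial.induction_on with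
  | C a => exact ⟨0, 0, by simp⟩
  | add p q hp hq =>
    obtain ⟨a, b, h1⟩ := hp
    obtain ⟨c, d, h2⟩ := hq
    exact ⟨a + c, b + d, by rw [map_add, map_add]; linear_combination h1 + h2⟩
  | mul_X p i _ =>
    fin_cases i
    · exact ⟨p, 0, by simp [mul_comm]⟩
    · exact ⟨0, p, by simp [mul_comm]⟩

theorem c2_dec' {u w : E} (p : MvPolynomial (Fin 2) L) : ∃ p₀ p₁ : MvPolynomial (Fin 2) L,
    MvPolynomial.constantCoeff p₁ = MvPolynomial.constantCoeff (MvPolynomial.pderiv 1 p) ∧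
    MvPolynomial.aeval ![u, w] p = algebraMap L E (MvPolynomial.constantCoeff p) +
      u * MvPolynomial.aeval ![u, w] p₀ + w * MvPolynomial.aeval ![u, w] p₁ := by
  obtain ⟨p₀, p₁, h⟩ := c2_dec p
  refine ⟨p₀, p₁, ?_, ?_⟩
  · conv_rhs => rw [h]
    simp
  · conv_lhs => rw [h]
    simp

theorem c2_dvr (O : Subring E) [IsNoetherianRing O] {u : O} (h0 : u ≠ 0) (h1 : ¬ IsUnit u)
    (h2 : ∀ z : O, IsUnit z ∨ u ∣ z) (h3 : ∀ z : E, ∃ x y : O, z = x / y) :
    ∃ v : Valuation E ℤᵐ⁰, Function.Surjective v ∧ v u = exp (-1) ∧ ∀ z, v z ≤ 1 ↔ z ∈ O := by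
  have hi : Irreducible u := ⟨h1, fun a b e => (h2 a).imp id fun ⟨c, hc⟩ =>
    IsUnit.of_mul_eq_one c (mul_left_cancel₀ h0 (by rw [mul_one]; linear_combination -e - b * hc))⟩
  have : IsDiscreteValuationRing O :=
    IsDiscreteValuationRing.ofHasUnitMulPowIrreducibleFactorization ⟨u, hi, fun {x} hx => by
      obtain ⟨n, a, h4, h5⟩ := WfDvdMonoid.max_power_factor' hx h1
      obtain ⟨a, rfl⟩ := (h2 a).resolve_right h4
      exact ⟨n, a, h5.symm⟩⟩
  have : IsFractionRing O E := IsFractionRing.of_field O E h3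
  refine ⟨(IsDiscreteValuationRing.maximalIdeal O).valuation E,
    IsDedekindDomain.HeightOneSpectrum.valuation_surjective _ _, ?_, fun z => ⟨fun h => ?_, fun h =>
      IsDedekindDomain.HeightOneSpectrum.valuation_le_one _ (⟨z, h⟩ : O)⟩⟩
  · exact (IsDedekindDomain.HeightOneSpectrum.valuation_of_algebraMap _ u).trans
      (IsDedekindDomain.HeightOneSpectrum.intValuation_singleton _ h0 hi.maximalIdeal_eq)
  · obtain ⟨a, rfl⟩ := IsDiscreteValuationRing.exists_lift_of_le_one h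
    exact a.2

theorem c2_uniq {v v' : Valuation E ℤᵐ⁰} {u : E} (hu : v u = exp (-1))
    (hs : Function.Surjective v') (h1 : v' u < 1) (h2 : ∀ z, v z ≤ 1 → v' z ≤ 1) : v' = v := by
  have u0 : u ≠ 0 := fun h => by
    rw [h, map_zero] at hu
    exact exp_ne_zero hu.symm
  obtain ⟨k, hk⟩ : ∃ k : ℤ, v' u = exp k := ⟨_, (exp_log ((map_ne_zero v').2 u0)).symm⟩
  have key : ∀ z, z ≠ 0 → v' z = exp (-(log (v z) * k)) := fun z hz => by
    have h3 : v (z * u ^ log (v z)) = 1 := by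
      rw [map_mul, map_zpow₀, hu, ← exp_zsmul, smul_eq_mul, mul_neg, mul_one, exp_neg,
        exp_log ((map_ne_zero v).2 hz), mul_inv_cancel₀ ((map_ne_zero v).2 hz)]
    have h4 := h2 _ h3.le
    have h5 := h2 (z * u ^ log (v z))⁻¹ (by rw [map_inv₀, h3, inv_one])
    have h6 : v' (z * u ^ log (v z)) ≠ 0 :=
      (map_ne_zero v').2 (mul_ne_zero hz (zpow_ne_zero _ u0))
    rw [map_inv₀, inv_le_one₀ (zero_lt_iff.2 h6)] at h5
    have h7 := le_antisymm h4 h5
    rw [map_mul, map_zpow₀, hk, ← exp_zsmul, smul_eq_mul] at h7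
    rw [exp_neg]
    exact eq_inv_of_mul_eq_one_left h7
  obtain ⟨z, hz⟩ := hs (exp 1)
  have z0 : z ≠ 0 := fun h => by
    rw [h, map_zero] at hz
    exact exp_ne_zero hz.symm
  rw [key z z0, exp_inj] at hz
  rw [hk, ← exp_zero, exp_lt_exp] at h1
  obtain rfl : k = -1 := by
    rcases Int.isUnit_iff.1 (IsUnit.of_mul_eq_one (a := k) (-log (v z))
      (by linear_combination hz)) with h | h <;> omega
  ext z
  by_cases hz : z = 0
  · rw [hz, map_zero, map_zero]
  · rw [key z hz, mul_neg, neg_neg, mul_one, exp_log ((map_ne_zero v).2 hz)]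

theorem c2_le (v : Plc L E) {u w : E} (hu : v.1 u < 1) (hw : v.1 w < 1)
    (p : MvPolynomial (Fin 2) L) : v.1 (MvPolynomial.aeval ![u, w] p) ≤ 1 := by
  induction p using MvPolynomial.induction_on with
  | C a => simpa using v.2.2 a
  | add p q hp hq => rw [map_add]; exact v.1.map_add_le hp hq
  | mul_X p i hp =>
    rw [map_mul, map_mul, MvPolynomial.aeval_X]
    refine mul_le_one' hp ?_
    fin_cases i
    exacts [hu.le, hw.le]

theorem c2_eq (v : Plc L E) {u w : E} (hu : v.1 u < 1) (hw : v.1 w < 1)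
    {p : MvPolynomial (Fin 2) L} (hp : MvPolynomial.constantCoeff p ≠ 0) :
    v.1 (MvPolynomial.aeval ![u, w] p) = 1 := by
  obtain ⟨p₀, p₁, -, h⟩ := c2_dec' (u := u) (w := w) p
  have h1 : v.1 (algebraMap L E (MvPolynomial.constantCoeff p)) = 1 := by
    refine le_antisymm (v.2.2 _) ?_
    have h2 := v.2.2 (MvPolynomial.constantCoeff p)⁻¹
    rwa [map_inv₀, map_inv₀, inv_le_one₀ (zero_lt_iff.2 (by simpa using hp))] at h2
  rw [h, add_assoc, v.1.map_add_eq_of_lt_left, h1]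
  rw [h1]
  refine v.1.map_add_lt ?_ ?_ <;> rw [map_mul]
  · exact mul_lt_one_of_lt_of_le hu (c2_le v hu hw _)
  · exact mul_lt_one_of_lt_of_le hw (c2_le v hu hw _)

/-- Let `O` be the set of quotients `p(u, w) / q(u, w)` with `q(0, 0) ≠ 0` (a local ring by `hk`).
From `G = w G₁ - u G₂`, `G₁(0, 0) ≠ 0`, we get `w / u` in `O`, so every element of `O` is a unit or a
multiple of `u`.  A nonzero polynomial in `u, w` divides a nonzero polynomial in `u` (`w` is
algebraic over `L[u]`), hence is `u ^ n` times a unit.  Compare `AtInf.exists_val` in `Fh/AVal`. -/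
theorem exists_plc {u w : E} (G : MvPolynomial (Fin 2) L) (hG : MvPolynomial.aeval ![u, w] G = 0)
    (h1 : MvPolynomial.constantCoeff (MvPolynomial.pderiv 1 G) ≠ 0) (hu : Transcendental L u)
    (ht : IntermediateField.adjoin L {u, w} = ⊤)
    (hk : ∀ p : MvPolynomial (Fin 2) L, MvPolynomial.aeval ![u, w] p = 0 →
      MvPolynomial.constantCoeff p = 0) :
    ∃ v : Plc L E, v.1 u = exp (-1) ∧ v.1 w < 1 ∧ LocR v u w ∧
      ∀ v' : Plc L E, v'.1 u < 1 → v'.1 w < 1 → v' = v := by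
  let M : Submonoid (MvPolynomial (Fin 2) L) :=
    (nonZeroDivisors L).comap MvPolynomial.constantCoeff
  have hM : ∀ q, q ∈ M ↔ MvPolynomial.constantCoeff q ≠ 0 := fun q =>
    mem_nonZeroDivisors_iff_ne_zero
  have hne : ∀ q : MvPolynomial (Fin 2) L, MvPolynomial.constantCoeff q ≠ 0 →
      MvPolynomial.aeval ![u, w] q ≠ 0 :=
    fun q hq h => hq (hk q h)
  have hg : ∀ y : M, IsUnit ((MvPolynomial.aeval ![u, w]).toRingHom y.1) := fun y =>
    (hne y ((hM y).1 y.2)).isUnit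
  have : IsNoetherianRing (Localization M) := IsLocalization.isNoetherianRing M _ inferInstance
  obtain ⟨O, _, hO⟩ : ∃ O : Subring E, IsNoetherianRing O ∧ ∀ z, z ∈ O ↔
      ∃ p q : MvPolynomial (Fin 2) L, MvPolynomial.constantCoeff q ≠ 0 ∧
        z * MvPolynomial.aeval ![u, w] q = MvPolynomial.aeval ![u, w] p := by
    refine ⟨(IsLocalization.lift (S := Localization M) hg).range, inferInstance, fun z => ⟨?_, ?_⟩⟩
    · rintro ⟨y, hy⟩
      obtain ⟨⟨p, q⟩, rfl⟩ := IsLocalization.mk'_surjective M y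
      exact ⟨p, q, (hM q).1 q.2, (mul_comm _ _).trans ((IsLocalization.lift_mk'_spec hg p z q).1
        hy).symm⟩
    · rintro ⟨p, q, hq, h⟩
      exact ⟨_, (IsLocalization.lift_mk'_spec hg p z ⟨q, (hM q).2 hq⟩).2
        (h.symm.trans (mul_comm _ _))⟩
  have m1 : ∀ p : MvPolynomial (Fin 2) L, MvPolynomial.aeval ![u, w] p ∈ O := fun p =>
    (hO _).2 ⟨p, 1, by simp, by simp⟩
  have m2 : ∀ q : MvPolynomial (Fin 2) L, MvPolynomial.constantCoeff q ≠ 0 →
      (MvPolynomial.aeval ![u, w] q)⁻¹ ∈ O :=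
    fun q hq => (hO _).2 ⟨1, q, hq, by rw [inv_mul_cancel₀ (hne q hq), map_one]⟩
  have mu : u ∈ O := by simpa using m1 (MvPolynomial.X 0)
  have u0 : u ≠ 0 := fun h => hu (h ▸ isAlgebraic_zero)
  obtain ⟨w', mw, hw⟩ : ∃ w' ∈ O, w = u * w' := by
    obtain ⟨p₀, p₁, h2, h3⟩ := c2_dec' (u := u) (w := w) G
    rw [← h2] at h1
    rw [hG, hk G hG, map_zero, zero_add] at h3
    refine ⟨_, neg_mem (mul_mem (m1 p₀) (m2 p₁ h1)), mul_right_cancel₀ (hne p₁ h1) ?_⟩
    rw [mul_neg, neg_mul, mul_assoc, inv_mul_cancel_right₀ (hne p₁ h1)]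
    linear_combination -h3
  obtain ⟨v, hv, h2, h3⟩ := c2_dvr O (u := ⟨u, mu⟩) (fun h => u0 (congrArg Subtype.val h))
    (fun h => by
      obtain ⟨y, hy⟩ := h.exists_right_inv
      obtain ⟨p, q, hq, e⟩ := (hO y).1 y.2
      have hy' : u * y = 1 := congrArg Subtype.val hy
      have h4 := hk (q - MvPolynomial.X 0 * p) (by
        rw [map_sub, map_mul, MvPolynomial.aeval_X, ← e, ← mul_assoc]
        simp [hy'])
      exact hq (by simpa using h4))
    (fun z => by
      obtain ⟨p, q, hq, e⟩ := (hO z).1 z.2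
      by_cases hp : MvPolynomial.constantCoeff p = 0
      · obtain ⟨p₀, p₁, -, h3⟩ := c2_dec' (u := u) (w := w) p
        rw [hp, map_zero, zero_add] at h3
        refine .inr ⟨⟨_, mul_mem (add_mem (m1 p₀) (mul_mem mw (m1 p₁))) (m2 q hq)⟩,
          Subtype.ext (mul_right_cancel₀ (hne q hq) ?_)⟩
        rw [Subring.coe_mul, mul_assoc, inv_mul_cancel_right₀ (hne q hq), e, h3]
        linear_combination MvPolynomial.aeval ![u, w] p₁ * hw
      · refine .inl (IsUnit.of_mul_eq_one ⟨_, mul_mem (m1 q) (m2 p hp)⟩ (Subtype.ext ?_))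
        rw [Subring.coe_mul, ← mul_assoc, e]
        exact mul_inv_cancel₀ (hne p hp))
    (fun z => by
      have hz : z ∈ IntermediateField.adjoin L (Set.range ![u, w]) := by
        rw [Matrix.range_cons, Matrix.range_cons, Matrix.range_empty, Set.union_empty,
          Set.singleton_union, ht]
        exact IntermediateField.mem_top
      obtain ⟨r, s, h⟩ := (IntermediateField.mem_adjoin_range_iff _ _ _).1 hz
      exact ⟨⟨_, m1 r⟩, ⟨_, m1 s⟩, h⟩)
  refine ⟨⟨v, hv, fun c => (h3 _).2 (by simpa using m1 (MvPolynomial.C c))⟩, h2, ?_,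
    fun z => (h3 z).trans (hO z), fun v' h4 h5 => Subtype.ext (c2_uniq h2 v'.2.1 h4 fun z hz => ?_)⟩
  · change v w < 1
    rw [hw, map_mul]
    refine mul_lt_one_of_lt_of_le (h2.trans_lt ?_) ((h3 _).2 mw)
    rw [← exp_zero, exp_lt_exp]
    norm_num
  · obtain ⟨p, q, hq, e⟩ := (hO z).1 ((h3 z).1 hz)
    have h6 := c2_le v' h4 h5 p
    rwa [← e, map_mul, c2_eq v' h4 h5 hq, mul_one] at h6

end Pool.Agent.Lib.MP_07b2d0_nt.G3
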