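import Pool.Agent.Lib.MP_07b2d0_nt.G3.C1b
import Pool.Agent.Lib.MP_07b2d0_nt.G3.C2
import Pool.Agent.Lib.MP_07b2d0_nt.KB1
import Pool.Agent.Lib.MP_07b2d0_nt.Kh.VBas

/-!
The places of the curve.
-/

set_option autoImplicit false

namespace Pool.Agent.Lib.MP_07b2d0_nt.G3

open Polynomial Fh WithZero

variable {L E : Type} [Field L] [Field E] [Algebra L E] {a : Co L} {s t : E}

theorem c3_cc (p : MvPolynomial (Fin 2) L) :
    MvPolynomial.constantCoeff p = MvPolynomial.aeval ![(0 : L), 0] p := by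
  have : ![(0 : L), 0] = 0 := by
    ext i
    fin_cases i <;> rfl
  rw [this, MvPolynomial.aeval_zero]
  rfl

theorem c3_comp {T T' : Type} [CommRing T] [Algebra L T] [CommRing T'] [Algebra L T']
    (φ : T →ₐ[L] T') (x y : T) (p : MvPolynomial (Fin 2) L) :
    φ (MvPolynomial.aeval ![x, y] p) = MvPolynomial.aeval ![φ x, φ y] p := by
  have : (fun i => φ (![x, y] i)) = ![φ x, φ y] := by
    ext i
    fin_cases i <;> rfl
  rw [← this, ← MvPolynomial.comp_aeval]
  rfl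

theorem c3_trans {u w : E} (hu : u ≠ 0) (hk : ∀ p : MvPolynomial (Fin 2) L,
    MvPolynomial.aeval ![u, w] p = 0 → MvPolynomial.constantCoeff p = 0) :
    Transcendental L u := by
  rintro ⟨P, hP, h⟩
  obtain ⟨q, h1, h2⟩ := exists_eq_pow_rootMultiplicity_mul_and_not_dvd P hP 0
  rw [h1, map_mul, map_pow, map_sub, aeval_X, aeval_C, map_zero, sub_zero] at h
  have h3 := (mul_eq_zero.1 h).resolve_left (pow_ne_zero _ hu)
  have h4 := hk (aeval (MvPolynomial.X 0 : MvPolynomial (Fin 2) L) q) (by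
    rw [← aeval_algHom_apply, MvPolynomial.aeval_X]
    exact h3)
  rw [c3_cc, ← aeval_algHom_apply, MvPolynomial.aeval_X] at h4
  exact h2 (dvd_iff_isRoot.2 ((congrFun (coe_aeval_eq_eval (0 : L)) q).symm.trans h4))

theorem c3_locR {v : Plc L E} {u w : E} (h : LocR v u w) : LocR v w u := by
  have key : ∀ (x y : E) (p : MvPolynomial (Fin 2) L), MvPolynomial.aeval ![x, y]
      (MvPolynomial.aeval ![(MvPolynomial.X 1 : MvPolynomial (Fin 2) L), MvPolynomial.X 0] p) =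
      MvPolynomial.aeval ![y, x] p := fun x y p => by
    rw [c3_comp]
    simp
  have k2 : ∀ p : MvPolynomial (Fin 2) L, MvPolynomial.constantCoeff
      (MvPolynomial.aeval ![(MvPolynomial.X 1 : MvPolynomial (Fin 2) L), MvPolynomial.X 0] p) =
      MvPolynomial.constantCoeff p := fun p => by
    rw [c3_cc, c3_cc, c3_comp]
    simp
  refine fun z => (h z).trans ⟨?_, ?_⟩ <;>
  · rintro ⟨p, q, h1, h2⟩
    exact ⟨_, _, (k2 q).trans_ne h1, (congrArg _ (key _ _ q)).trans (h2.trans (key _ _ p).symm)⟩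

theorem c3_at (h : Cv a s t) {s₀ t₀ : L} (h0 : a.F s₀ t₀ = 0) (h1 : a.Ft s₀ t₀ ≠ 0) :
    ∃ v : Plc L E, At v s t s₀ t₀ ∧ (∀ v', At v' s t s₀ t₀ → v' = v) ∧
      LocR v (s - algebraMap L E s₀) (t - algebraMap L E t₀) ∧
      v.1 (s - algebraMap L E s₀) = exp (-1) := by
  have hk : ∀ p : MvPolynomial (Fin 2) L,
      MvPolynomial.aeval ![s - algebraMap L E s₀, t - algebraMap L E t₀] p = 0 →
      MvPolynomial.constantCoeff p = 0 := fun p hp => by
    obtain ⟨r, hr⟩ := pol_dvd h.sm h.trans h.eq (p := MvPolynomial.aeval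
      ![MvPolynomial.X 0 - MvPolynomial.C s₀, MvPolynomial.X 1 - MvPolynomial.C t₀] p) (by
        rw [c3_comp, ← hp]
        simp)
    have h2 := congrArg (MvPolynomial.aeval ![s₀, t₀]) hr
    rw [c3_comp, map_mul, Co.aeval_pol, Co.up_self, h0, zero_mul] at h2
    rw [c3_cc]
    simpa using h2
  have hu : s - algebraMap L E s₀ ≠ 0 := fun e =>
    h.trans (sub_eq_zero.1 e ▸ isAlgebraic_algebraMap s₀)
  obtain ⟨v, h2, h3, h4, h5⟩ := exists_plc (u := s - algebraMap L E s₀)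
    (w := t - algebraMap L E t₀) ((a.up (MvPolynomial (Fin 2) L)).F
      (MvPolynomial.X 0 + MvPolynomial.C s₀) (MvPolynomial.X 1 + MvPolynomial.C t₀))
    (by
      rw [← Co.aeval_pol, c3_comp, ← h.eq, ← Co.aeval_pol]
      simp)
    (by
      refine ne_of_eq_of_ne ?_ h1
      simp [Co.F, Co.Ft, Co.map, MvPolynomial.pderiv_X, map_ofNat]
      ring)
    (c3_trans hu hk)
    (by
      rw [← top_le_iff, ← h.top, IntermediateField.adjoin_le_iff]
      rintro z (rfl | rfl)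
      · rw [← sub_add_cancel z (algebraMap L E s₀)]
        exact add_mem (IntermediateField.subset_adjoin _ _ (by simp)) (algebraMap_mem _ _)
      · rw [← sub_add_cancel z (algebraMap L E t₀)]
        exact add_mem (IntermediateField.subset_adjoin _ _ (by simp)) (algebraMap_mem _ _))
    hk
  refine ⟨v, ⟨?_, h3⟩, fun v' hv => h5 v' hv.1 hv.2, h4, h2⟩
  rw [Kh.Vl, h2, ← exp_zero, exp_lt_exp]
  omega

/-- Apply `exists_plc` to `s - s₀`, `t - t₀` or, if `Ft` vanishes, to `t - t₀`, `s - s₀`. -/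
theorem Cv.exists_at (h : Cv a s t) {s₀ t₀ : L} (h0 : a.F s₀ t₀ = 0) :
    ∃ v : Plc L E, At v s t s₀ t₀ ∧ (∀ v', At v' s t s₀ t₀ → v' = v) ∧
      LocR v (s - algebraMap L E s₀) (t - algebraMap L E t₀) ∧
      (a.Ft s₀ t₀ ≠ 0 → v.1 (s - algebraMap L E s₀) = exp (-1)) := by
  by_cases h1 : a.Ft s₀ t₀ = 0
  · obtain ⟨v, h2, h3, h4, -⟩ := c3_at h.swap ((a.swap_F s₀ t₀).trans h0) (by
      rw [Co.swap_Ft]
      exact fun h2 => h.sm.not_sing (RingHom.id L) h0 h2 h1)
    exact ⟨v, h2.symm, fun v' hv => h3 v' hv.symm, c3_locR h4, fun h5 => (h5 h1).elim⟩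
  · obtain ⟨v, h2, h3, h4, h5⟩ := c3_at h h0 h1
    exact ⟨v, h2, h3, h4, fun _ => h5⟩

theorem At.val {v : Plc L E} {s₀ t₀ : L} (h : At v s t s₀ t₀) (p : MvPolynomial (Fin 2) L) :
    Kh.Vl v (MvPolynomial.aeval ![s, t] p) (MvPolynomial.eval ![s₀, t₀] p) := by
  induction p using MvPolynomial.induction_on with
  | C c =>
    rw [MvPolynomial.aeval_C, MvPolynomial.eval_C]
    exact Kh.vl_const v c
  | add p q hp hq =>
    rw [map_add, map_add]
    exact hp.add hq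
  | mul_X p i hp =>
    rw [map_mul, map_mul, MvPolynomial.aeval_X, MvPolynomial.eval_X]
    refine hp.mul ?_
    fin_cases i
    exacts [h.1, h.2]

theorem At.eq {v : Plc L E} {s₀ t₀ : L} (h : At v s t s₀ t₀) (he : (a.up E).F s t = 0) :
    a.F s₀ t₀ = 0 := by
  have h1 := h.val a.pol
  rw [Co.aeval_pol, he] at h1
  have h2 := h1.unique (Kh.vl_zero.2 (by rw [map_zero]; exact zero_lt_one))
  rw [← h2]
  exact (a.eval_pol (RingHom.id L) s₀ t₀).symm

theorem c3_shape (he : (a.up E).F s t = 0) {v : Valuation E ℤᵐ⁰}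
    (hv : ∀ c : L, v (algebraMap L E c) ≤ 1) (h : 1 < v s) (h' : v t ≤ v s) :
    1 < v t ∧ v s = v t ^ 2 := by
  have h0 : 0 < v s := zero_lt_one.trans h
  have k1 : ∀ (c : L) (z : E), v z ≤ v s ^ 2 → v (algebraMap L E c * z) ≤ v s ^ 2 :=
    fun c z hz => by
      rw [map_mul]
      exact (mul_le_of_le_one_left' (hv c)).trans hz
  have k2 : v s ≤ v s ^ 2 := le_self_pow₀ h.le two_ne_zero
  have k3 : v s ^ 2 < v s ^ 3 := pow_lt_pow_right₀ h (by omega)
  obtain ⟨R, hR, e⟩ : ∃ R : E, v R < v s ^ 3 ∧ s ^ 2 * t ^ 2 + s ^ 3 + t ^ 3 + R = 0 := by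
    refine ⟨algebraMap L E (2 * a.c) * (s * t) + algebraMap L E a.q0 * s ^ 2 +
      algebraMap L E a.q2 * t ^ 2 + algebraMap L E a.r0 * s + algebraMap L E a.r1 * t +
      algebraMap L E (a.c ^ 2 + a.e) * 1, lt_of_le_of_lt ?_ k3, ?_⟩
    · refine v.map_add_le (v.map_add_le (v.map_add_le (v.map_add_le (v.map_add_le (k1 _ _ ?_)
        (k1 _ _ ?_)) (k1 _ _ ?_)) (k1 _ _ k2)) (k1 _ _ (h'.trans k2))) (k1 _ _ ?_)
      · rw [map_mul, sq]
        exact mul_le_mul_right h' _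
      · exact (v.map_pow _ _).le
      · rw [map_pow]
        exact pow_le_pow_left₀ zero_le h' 2
      · rw [map_one]
        exact h.le.trans k2
    · rw [← he]
      simp only [Co.F, Co.map, map_mul, map_add, map_pow, map_ofNat]
      ring
  have k4 : v t ^ 2 ≤ v s := by
    have e1 : s ^ 2 * t ^ 2 = -(s ^ 3 + t ^ 3 + R) := by linear_combination e
    have e2 : v (s ^ 2 * t ^ 2) ≤ v s ^ 3 := by
      rw [e1, v.map_neg]
      refine v.map_add_le (v.map_add_le (v.map_pow _ _).le ?_) hR.le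
      rw [map_pow]
      exact pow_le_pow_left₀ zero_le h' 3
    rw [map_mul, map_pow, map_pow, pow_succ (v s) 2] at e2
    exact le_of_mul_le_mul_left e2 (pow_pos h0 2)
  have k5 : v t < v s := lt_of_le_of_ne h' fun e1 => by
    rw [e1] at k4
    exact absurd (lt_self_pow₀ h one_lt_two) (not_lt.2 k4)
  have k6 : v s = v t ^ 2 := by
    refine le_antisymm (not_lt.1 fun k6 => ?_) k4
    have e1 : s ^ 3 = -(s ^ 2 * t ^ 2 + t ^ 3 + R) := by linear_combination e
    have e2 : v (s ^ 3) < v s ^ 3 := by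
      rw [e1, v.map_neg]
      refine v.map_add_lt (v.map_add_lt ?_ ?_) hR
      · rw [map_mul, map_pow, map_pow, pow_succ (v s) 2]
        exact mul_lt_mul_of_pos_left k6 (pow_pos h0 2)
      · rw [map_pow]
        exact pow_lt_pow_left₀ k5 zero_le three_ne_zero
    exact lt_irrefl _ ((v.map_pow _ _).symm.trans_lt e2)
  refine ⟨not_le.1 fun k7 => ?_, k6⟩
  exact absurd (h.trans_eq k6) (not_lt.2 (pow_le_one₀ zero_le k7))

/-- Compare the sizes of `s ^ 2 t ^ 2`, `s ^ 3`, `t ^ 3` and of the other terms. -/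
theorem inf_shape (he : (a.up E).F s t = 0) {v : Valuation E ℤᵐ⁰}
    (hv : ∀ c : L, v (algebraMap L E c) ≤ 1) (h : 1 < v s ∨ 1 < v t) :
    (1 < v t ∧ v s = v t ^ 2) ∨ (1 < v s ∧ v t = v s ^ 2) := by
  rcases le_total (v t) (v s) with h1 | h1
  · exact .inl (c3_shape he hv (h.elim id fun h2 => h2.trans_le h1) h1)
  · exact .inr (c3_shape (a := a.swap) (((a.up E).swap_F s t).trans he) hv
      (h.elim (fun h2 => h2.trans_le h1) id) h1)

theorem c3_hom (p : MvPolynomial (Fin 2) L) : ∃ (N : ℕ) (q : MvPolynomial (Fin 2) L),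
    ∀ (T : Type) [CommRing T] [Algebra L T] (s t w : T), s * w = 1 →
      MvPolynomial.aeval ![s, t] q = s ^ N * MvPolynomial.aeval ![t * w, w] p := by
  induction p using MvPolynomial.induction_on with
  | C c => exact ⟨0, MvPolynomial.C c, fun T _ _ s t w _ => by simp⟩
  | add p q hp hq =>
    obtain ⟨N, p', hp⟩ := hp
    obtain ⟨M, q', hq⟩ := hq
    refine ⟨N + M, MvPolynomial.X 0 ^ M * p' + MvPolynomial.X 0 ^ N * q', fun T _ _ s t w h => ?_⟩
    rw [map_add, map_add, map_mul, map_mul, map_pow, map_pow, hp T s t w h, hq T s t w h,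
      MvPolynomial.aeval_X, Matrix.cons_val_zero]
    ring
  | mul_X p i hp =>
    obtain ⟨N, q, hp⟩ := hp
    refine ⟨N + 1, q * ![MvPolynomial.X 1, 1] i, fun T _ _ s t w h => ?_⟩
    rw [map_mul, map_mul, hp T s t w h, MvPolynomial.aeval_X, pow_succ, mul_mul_mul_comm]
    refine congrArg _ ?_
    fin_cases i
    · simp [mul_left_comm s, h]
    · simp [h]

/-- The equation in the chart `u = t / s`, `w = 1 / s`. -/
def c3G {R : Type} [CommRing R] (a : Co R) (u w : R) : R :=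
  (u + a.c * w ^ 2) ^ 2 + w + u ^ 3 * w + a.q0 * w ^ 2 + a.q2 * u ^ 2 * w ^ 2 + a.r0 * w ^ 3 +
    a.r1 * u * w ^ 3 + a.e * w ^ 4

theorem c3G_eq {R : Type} [CommRing R] (a : Co R) {s w : R} (u : R) (h : w * s = 1) :
    a.F s (u * s) * w ^ 4 = c3G a u w := by
  simp only [Co.F, c3G]
  linear_combination (u ^ 2 * (w * s + 1) * ((w * s) ^ 2 + 1) + 2 * a.c * u * w ^ 2 * (w * s + 1) +
    (w + u ^ 3 * w) * ((w * s) ^ 2 + w * s + 1) + (a.q0 + a.q2 * u ^ 2) * w ^ 2 * (w * s + 1) +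
    (a.r0 + a.r1 * u) * w ^ 3) * h

theorem c3G_map {T T' : Type} [CommRing T] [Algebra L T] [CommRing T'] [Algebra L T']
    (φ : T →ₐ[L] T') (x y : T) : φ (c3G (a.up T) x y) = c3G (a.up T') (φ x) (φ y) := by
  simp [c3G, Co.map]

theorem c3_inf (h : Cv a s t) (h0 : s ≠ 0) (p : MvPolynomial (Fin 2) L)
    (hp : MvPolynomial.aeval ![t / s, s⁻¹] p = 0) : MvPolynomial.constantCoeff p = 0 := by
  obtain ⟨N, q, hq⟩ := c3_hom p
  obtain ⟨r, rfl⟩ := pol_dvd h.sm h.trans h.eq (p := q) (by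
    rw [hq E s t s⁻¹ (mul_inv_cancel₀ h0), ← div_eq_mul_inv, hp, mul_zero])
  obtain ⟨M, r', hr⟩ := c3_hom
    (MvPolynomial.aeval ![(MvPolynomial.X 1 : MvPolynomial (Fin 2) L), MvPolynomial.X 0] r)
  let K := FractionRing (MvPolynomial (Fin 2) L)
  let φ := IsScalarTower.toAlgHom L (MvPolynomial (Fin 2) L) K
  have hφ : Function.Injective φ := IsFractionRing.injective (MvPolynomial (Fin 2) L) K
  have hW : φ (MvPolynomial.X 1) ≠ 0 := (map_ne_zero_iff φ hφ).2 (MvPolynomial.X_ne_zero 1)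
  have e0 : φ p = MvPolynomial.aeval ![φ (MvPolynomial.X 0), φ (MvPolynomial.X 1)] p := by
    rw [← c3_comp]
    refine congrArg φ ?_
    have : ![(MvPolynomial.X 0 : MvPolynomial (Fin 2) L), MvPolynomial.X 1] = MvPolynomial.X := by
      funext i
      fin_cases i <;> rfl
    rw [this, MvPolynomial.aeval_X_left_apply]
  have key : (MvPolynomial.X 1 : MvPolynomial (Fin 2) L) ^ (4 + M) * p =
      c3G (a.up _) (MvPolynomial.X 0) (MvPolynomial.X 1) * (MvPolynomial.X 1 ^ N *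
        MvPolynomial.aeval ![(MvPolynomial.X 1 : MvPolynomial (Fin 2) L), MvPolynomial.X 0] r') := by
    apply hφ
    rw [map_mul, map_mul, map_mul, map_pow, map_pow, e0, c3G_map, c3_comp]
    generalize φ (MvPolynomial.X 0) = U
    generalize φ (MvPolynomial.X 1) = W at hW
    have e1 := hq K W⁻¹ (U * W⁻¹) W (inv_mul_cancel₀ hW)
    have e2 := hr K W U W⁻¹ (mul_inv_cancel₀ hW)
    rw [c3_comp, MvPolynomial.aeval_X, MvPolynomial.aeval_X, Matrix.cons_val_one,
      Matrix.cons_val_zero, Matrix.cons_val_zero] at e2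
    rw [map_mul, Co.aeval_pol, inv_mul_cancel_right₀ hW] at e1
    have e3 : W ^ N * W⁻¹ ^ N = 1 := by rw [← mul_pow, mul_inv_cancel₀ hW, one_pow]
    rw [← c3G_eq _ U (mul_inv_cancel₀ hW), e2, pow_add]
    linear_combination (-W ^ 4 * W ^ M * W ^ N) * e1 -
      W ^ 4 * W ^ M * MvPolynomial.aeval ![U, W] p * e3
  obtain ⟨r₂, h2⟩ := (MvPolynomial.X_prime (R := L) (i := (1 : Fin 2))).pow_dvd_of_dvd_mul_left
    (4 + M) (fun ⟨y, hy⟩ => by
      have := congrArg (MvPolynomial.aeval ![(1 : L), 0]) hy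
      rw [c3G_map] at this
      simp [c3G] at this) ⟨p, key.symm⟩
  rw [h2, mul_left_comm] at key
  rw [mul_left_cancel₀ (pow_ne_zero _ (MvPolynomial.X_ne_zero 1)) key, c3_cc, map_mul, c3G_map]
  simp [c3G]

/-- Apply `exists_plc` to `u = t / s`, `w = 1 / s`, `G = u ^ 2 + w (1 + u ^ 3) + ⋯`; if
`p(u, w) = 0` then `pol` divides the homogenisation of `p`, so `p(0, 0) = 0`. -/
theorem Cv.exists_P (h : Cv a s t) : ∃ v : Plc L E, IsP v s t ∧ LocR v (t / s) s⁻¹ ∧
    ∀ v' : Plc L E, 1 < v'.1 s → v'.1 t < v'.1 s → v' = v := by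
  have h0 : s ≠ 0 := fun e => h.trans (e ▸ isAlgebraic_zero)
  have h1 : t ≠ 0 := fun e => one_ne_zero
    (cubic_indep h.sm h.trans h.eq (A := 0) (B := 1) (C := 0) (by simp [e])).2.1
  obtain ⟨v, h2, h3, h4, h5⟩ := exists_plc (u := t / s) (w := s⁻¹)
    (c3G (a.up (MvPolynomial (Fin 2) L)) (MvPolynomial.X 0) (MvPolynomial.X 1))
    (by
      rw [c3G_map, MvPolynomial.aeval_X, MvPolynomial.aeval_X, Matrix.cons_val_one,
        Matrix.cons_val_zero, Matrix.cons_val_zero, ← c3G_eq _ _ (inv_mul_cancel₀ h0),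
        div_mul_cancel₀ _ h0, h.eq, zero_mul])
    (by simp [c3G, Co.map, MvPolynomial.pderiv_X])
    (c3_trans (div_ne_zero h1 h0) (c3_inf h h0))
    (by
      have k1 : s ∈ IntermediateField.adjoin L {t / s, s⁻¹} := by
        rw [← inv_mem_iff]
        exact IntermediateField.subset_adjoin _ _ (by simp)
      rw [← top_le_iff, ← h.top, IntermediateField.adjoin_le_iff]
      rintro z (rfl | rfl)
      · exact k1
      · have k2 := mul_mem (IntermediateField.subset_adjoin L {z / s, s⁻¹}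
          (Set.mem_insert _ _)) k1
        rwa [div_mul_cancel₀ _ h0] at k2)
    (c3_inf h h0)
  have k0 : ∀ v : Plc L E, 0 < v.1 s := fun v => (v.1.pos_iff).2 h0
  refine ⟨v, ?_, h4, fun v' k1 k2 => h5 v' ?_ ?_⟩
  · rw [map_inv₀, inv_lt_one₀ (k0 v)] at h3
    rw [map_div₀, div_eq_iff (k0 v).ne'] at h2
    obtain ⟨m, hm⟩ : ∃ m : ℤ, v.1 s = exp m := ⟨_, (exp_log (k0 v).ne').symm⟩
    have k3 := inf_shape h.eq v.2.2 (.inl h3)
    rw [h2, hm, ← exp_add, ← exp_nsmul, ← exp_nsmul, ← exp_zero] at k3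
    simp only [exp_lt_exp, exp_inj, nsmul_eq_mul, Nat.cast_ofNat] at k3
    obtain rfl : m = 2 := by omega
    exact ⟨hm, by rw [h2, hm, ← exp_add]; rfl⟩
  · rw [map_div₀, div_lt_one₀ (k0 v')]
    exact k2
  · rw [map_inv₀, inv_lt_one₀ (k0 v')]
    exact k1

end Pool.Agent.Lib.MP_07b2d0_nt.G3
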