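import Pool.Agent.Lib.MP_07b2d0_nt.G3.C3
import Pool.Agent.Lib.MP_07b2d0_nt.Kh.VBas

/-!
The list of all places; functions without finite poles.
-/

set_option autoImplicit false

namespace Pool.Agent.Lib.MP_07b2d0_nt.G3

open Polynomial Fh WithZero

variable {L E : Type} [Field L] [Field E] [Algebra L E] {a : Co L} {s t : E}

theorem c3b_P (h : Cv a s t) {P v : Plc L E} (hP : IsP P s t) (h1 : 1 < v.1 t)
    (h2 : v.1 s = v.1 t ^ 2) : v = P := by
  obtain ⟨P₀, -, -, h0⟩ := h.exists_P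
  have h3 : v.1 t < v.1 s := by
    rw [h2]
    exact lt_self_pow₀ h1 one_lt_two
  rw [h0 v (h1.trans h3) h3]
  refine (h0 P ?_ ?_).symm
  · rw [hP.1, ← exp_zero, exp_lt_exp]
    exact two_pos
  · rw [hP.1, hP.2, exp_lt_exp]
    exact one_lt_two

theorem Cv.inf_cases (h : Cv a s t) {P Q : Plc L E} (hP : IsP P s t) (hQ : IsP Q t s)
    (v : Plc L E) : (v.1 s ≤ 1 ∧ v.1 t ≤ 1) ∨ v = P ∨ v = Q := by
  refine or_iff_not_imp_left.2 fun h0 => ?_
  rw [not_and_or, not_le, not_le] at h0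
  exact (inf_shape h.eq v.2.2 h0).imp (fun e => c3b_P h hP e.1 e.2)
    fun e => c3b_P h.swap hQ e.1 e.2

theorem c3b_le (v : Plc L E) (h1 : v.1 s ≤ 1) (h2 : v.1 t ≤ 1) {y : E}
    (hy : y ∈ Algebra.adjoin L {s, t}) : v.1 y ≤ 1 := by
  induction hy using Algebra.adjoin_induction with
  | mem x hx =>
    rcases hx with rfl | rfl
    exacts [h1, h2]
  | algebraMap c => exact v.2.2 c
  | add x y _ _ hx hy => exact v.1.map_add_le hx hy
  | mul x y _ _ hx hy =>
    rw [map_mul]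
    exact mul_le_one' hx hy

theorem c3b_res [IsAlgClosed L] (h : Cv a s t) {v : Plc L E} (h1 : v.1 s ≤ 1)
    (h2 : v.1 t ≤ 1) : ∃ c, Kh.Vl v s c := by
  by_contra h0
  have h3 : ∀ c, v.1 (s - algebraMap L E c) = 1 := fun c =>
    le_antisymm (v.1.map_sub_le h1 (v.2.2 c)) (not_lt.1 fun e => h0 ⟨c, e⟩)
  obtain ⟨z, hz⟩ := v.2.1 (exp 1)
  obtain ⟨y, hy, D, hD, e⟩ := h.frac z
  have h4 : ∀ m : Multiset L, v.1 (aeval s (m.map fun c => X - C c).prod) = 1 := fun m => by
    induction m using Multiset.induction_on with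
    | empty => simp
    | cons c m ih =>
      rw [Multiset.map_cons, Multiset.prod_cons, map_mul, map_mul, ih, mul_one, map_sub, aeval_X,
        aeval_C, h3]
  have h5 := c3b_le v h1 h2 hy
  rw [← e, map_mul, hz, (IsAlgClosed.splits D).eq_prod_roots, map_mul, map_mul, h4, aeval_C,
    Kh.plc_eq_one v (leadingCoeff_ne_zero.2 hD), mul_one, mul_one, ← exp_zero,
    exp_le_exp] at h5
  exact absurd h5 (by norm_num)

/-- A finite place has a centre. -/
theorem Cv.exists_cen [IsAlgClosed L] (h : Cv a s t) {v : Plc L E} (h1 : v.1 s ≤ 1)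
    (h2 : v.1 t ≤ 1) : ∃ s₀ t₀, At v s t s₀ t₀ :=
  (c3b_res h h1 h2).imp fun _ e => (c3b_res h.swap h2 h1).imp fun _ e' => ⟨e, e'⟩

theorem c3b_range (s t : E) :
    Algebra.adjoin L {s, t} = (MvPolynomial.aeval (R := L) ![s, t]).range := by
  rw [← Algebra.adjoin_range_eq_range_aeval]
  exact congrArg _ (by simp [Set.pair_comm])

theorem c3b_mem (s t : E) (s₀ t₀ : L) (p : MvPolynomial (Fin 2) L) :
    MvPolynomial.aeval ![s - algebraMap L E s₀, t - algebraMap L E t₀] p ∈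
      Algebra.adjoin L {s, t} := by
  have h1 : Algebra.adjoin L {s - algebraMap L E s₀, t - algebraMap L E t₀} ≤
      Algebra.adjoin L {s, t} := by
    refine Algebra.adjoin_le ?_
    rintro _ (rfl | rfl)
    · exact sub_mem (Algebra.subset_adjoin (Or.inl rfl)) (algebraMap_mem _ _)
    · exact sub_mem (Algebra.subset_adjoin (Or.inr rfl)) (algebraMap_mem _ _)
  refine h1 ?_
  rw [c3b_range]
  exact ⟨p, rfl⟩

/-- The ideal of denominators of `z` in `L[X, Y]` is contained in no maximal ideal. -/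
theorem Cv.mem_of_fin [IsAlgClosed L] (h : Cv a s t) {z : E}
    (hz : ∀ v : Plc L E, v.1 s ≤ 1 → v.1 t ≤ 1 → v.1 z ≤ 1) : z ∈ Algebra.adjoin L {s, t} := by
  let I : Ideal (MvPolynomial (Fin 2) L) :=
    { carrier := {p | z * MvPolynomial.aeval ![s, t] p ∈ Algebra.adjoin L {s, t}}
      add_mem' := fun hp hq => by
        rw [Set.mem_ofPred, map_add, mul_add]
        exact add_mem hp hq
      zero_mem' := by
        rw [Set.mem_ofPred, map_zero, mul_zero]
        exact zero_mem _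
      smul_mem' := fun c p hp => by
        rw [Set.mem_ofPred, smul_eq_mul, map_mul, mul_left_comm]
        exact mul_mem (c3b_range (L := L) s t ▸ ⟨c, rfl⟩) hp }
  by_contra h0
  obtain ⟨m, hm, hI⟩ := I.exists_le_maximal fun e => h0 (by
    have h1 : z * MvPolynomial.aeval ![s, t] (1 : MvPolynomial (Fin 2) L) ∈
      Algebra.adjoin L {s, t} := (I.eq_top_iff_one).1 e
    rwa [map_one, mul_one] at h1)
  obtain ⟨x, rfl⟩ := MvPolynomial.isMaximal_iff_eq_vanishingIdeal_singleton.1 hm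
  have hx : ![x 0, x 1] = x := funext fun i => by fin_cases i <;> rfl
  have h1 : ∀ p ∈ I, MvPolynomial.aeval ![x 0, x 1] p = 0 := fun p hp => by
    rw [hx]
    exact (MvPolynomial.mem_vanishingIdeal_singleton_iff x p).1 (hI hp)
  have h2 : a.F (x 0) (x 1) = 0 := by
    refine (a.aeval_pol (x 0) (x 1)).symm.trans (h1 _ ?_)
    change z * _ ∈ Algebra.adjoin L {s, t}
    rw [a.aeval_pol, h.eq, mul_zero]
    exact zero_mem _
  obtain ⟨v, h3, -, h4, -⟩ := h.exists_at h2
  obtain ⟨p, q, hq, e⟩ := (h4 z).1 (hz v h3.1.le_one h3.2.le_one)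
  obtain ⟨q', hq'⟩ : _ ∈ (MvPolynomial.aeval (R := L) ![s, t]).range :=
    c3b_range (L := L) s t ▸ c3b_mem s t (x 0) (x 1) q
  have hq'' : MvPolynomial.aeval ![s, t] q' = _ := hq'
  have h5 := h3.val q'
  have h6 : At v (s - algebraMap L E (x 0)) (t - algebraMap L E (x 1)) 0 0 :=
    ⟨Kh.vl_zero.2 h3.1, Kh.vl_zero.2 h3.2⟩
  have h7 : MvPolynomial.eval ![x 0, x 1] q' = 0 := h1 q' (by
    change z * _ ∈ Algebra.adjoin L {s, t}
    rw [hq'', e]
    exact c3b_mem s t _ _ p)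
  rw [hq'', h7] at h5
  have h8 := (h6.val q).unique h5
  rw [show (![0, 0] : Fin 2 → L) = 0 from funext fun i => by fin_cases i <;> rfl,
    MvPolynomial.eval_zero] at h8
  exact hq h8

end Pool.Agent.Lib.MP_07b2d0_nt.G3
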