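import Pool.Agent.Lib.MP_07b2d0_nt.G3.P0

/-!
The Steiner identity.
-/

set_option autoImplicit false

namespace Pool.Agent.Lib.MP_07b2d0_nt.G3

open Polynomial Fh

variable {K E : Type} [Field K] [CharZero K] [CommRing E] [Algebra K E] {a : Co K}
  {x : Fin 6 → K} {h : K}

omit [CharZero K] in
theorem p0b_es (x : Fin 6 → K) (h : K) (n : ℕ) : es (fun j => x j / h) n = es x n / h ^ n := by
  rw [es, es, Finset.sum_div]
  refine Finset.sum_congr rfl fun T hT => ?_
  rw [Finset.prod_div_distrib, Finset.prod_const, (Finset.mem_powersetCard.1 hT).2]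

/-- The conic `Q₀` of the Steiner family. -/
def p0bQ (x : Fin 6 → K) (h s t : K) : K :=
  t ^ 2 - h * (1 - h⁻¹) ^ 2 / 4 * s - (h + 1) * es x 5 / (4 * h ^ 3) * t +
    (es x 4 * (1 - h⁻¹) ^ 2 / h + es x 5 ^ 2 / h ^ 5) / 16

theorem p0b_I1 (hP : Par a x h) (s t : K) :
    (1 - h⁻¹) ^ 2 * a.F s t = Q1 x h s t ^ 2 - 4 * (p0bQ x h s t * Q2 x h s t) := by
  have h0 := hP.ne
  obtain rfl := hP.co
  simp only [Co.F, coR, Q1, Q2, p0bQ, Algebra.algebraMap_self, RingHom.id_apply]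
  generalize es x 1 = e1, es x 2 = e2, es x 3 = e3, es x 4 = e4, es x 5 = e5
  field_simp
  ring

omit [CharZero K] in
theorem p0b_root (hP : Par a x h) (i : Fin 6) : x i ^ 6 - es x 1 * x i ^ 5 + es x 2 * x i ^ 4 -
    es x 3 * x i ^ 3 + es x 4 * x i ^ 2 - es x 5 * x i + h ^ 3 = 0 := by
  rw [← hP.prod, ← prod_sub_six]
  exact Finset.prod_eq_zero (Finset.mem_univ i) (sub_self _)

theorem p0b_I2 (hP : Par a x h) (i : Fin 6) (s t : K) :
    p0bQ x h s t + x i * Q1 x h s t + x i ^ 2 * Q2 x h s t = ln x h i s t * ln' x h i s t := by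
  have h0 := hP.ne
  have h1 := hP.x_ne i
  have h2 := p0b_root hP i
  have key : p0bQ x h s t + x i * Q1 x h s t + x i ^ 2 * Q2 x h s t =
      ln x h i s t * ln' x h i s t + (1 - h⁻¹) ^ 2 * (x i ^ 6 - es x 1 * x i ^ 5 +
        es x 2 * x i ^ 4 - es x 3 * x i ^ 3 + es x 4 * x i ^ 2 - es x 5 * x i + h ^ 3) /
        (16 * h * x i ^ 2) := by
    simp only [Q1, Q2, p0bQ, ln, al, p0b_es, Algebra.algebraMap_self, RingHom.id_apply]
    generalize es x 1 = e1, es x 2 = e2, es x 3 = e3, es x 4 = e4, es x 5 = e5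
    generalize x i = L at h1 ⊢
    field_simp
    ring
  rw [key, h2, mul_zero, zero_div, add_zero]

omit [CharZero K] in
theorem p0b_der (x : Fin 6 → K) (i : Fin 6) : ∏ j ∈ Finset.univ.erase i, (x i - x j) =
    6 * x i ^ 5 - 5 * es x 1 * x i ^ 4 + 4 * es x 2 * x i ^ 3 - 3 * es x 3 * x i ^ 2 +
      2 * es x 4 * x i - es x 5 := by
  have e : ∀ n, es (fun j => (C (x j) : K[X])) n = C (es x n) := fun n => by
    simp only [es, map_sum, map_prod]
  have h := prod_sub_six (fun j => (C (x j) : K[X])) X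
  rw [← Finset.mul_prod_erase _ _ (Finset.mem_univ i), e, e, e, e, e, ← map_prod] at h
  have h2 := congrArg (fun p => eval (x i) (derivative p)) h
  simp only [derivative_mul, derivative_sub, derivative_add, derivative_X, derivative_C,
    derivative_X_pow, eval_add, eval_sub, eval_mul, eval_X, eval_C, eval_pow, eval_prod,
    sub_self, zero_mul, sub_zero, one_mul, add_zero, zero_add, mul_one] at h2
  rw [h2]
  push_cast
  ring

section Nat

variable {E' : Type} [CommRing E'] [Algebra K E'] (φ : E →ₐ[K] E')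

omit [CharZero K] in
theorem p0b_ln (i : Fin 6) (s t : E) : φ (ln x h i s t) = ln x h i (φ s) (φ t) := by
  simp only [ln, map_add, map_mul, AlgHom.commutes]

omit [CharZero K] in
theorem p0b_Q2 (s t : E) : φ (Q2 x h s t) = Q2 x h (φ s) (φ t) := by
  simp only [Q2, map_add, map_sub φ, map_mul φ, map_pow φ, AlgHom.commutes]

omit [CharZero K] in
theorem p0b_Qd (i : Fin 6) (s t : E) : φ (Qd x h i s t) = Qd x h i (φ s) (φ t) := by
  simp only [Qd, Q1, map_add φ, map_sub φ, map_mul φ, map_ofNat φ, p0b_Q2, AlgHom.commutes]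

omit [CharZero K] in
theorem p0b_F (s t : E) : φ ((a.up E).F s t) = (a.up E').F (φ s) (φ t) := by
  simp only [Co.F, Co.map, map_add, map_mul, map_pow, AlgHom.commutes]

end Nat

theorem p0b_eps1 {R : Type} [CommRing R] (b : Co R) (s t : R) {ε : R} (hε : ε * ε = 0) :
    b.F (s + ε) t = b.F s t + ε * b.Fs s t := by
  simp only [Co.F, Co.Fs]
  linear_combination (t ^ 2 + 3 * s + ε + b.q0) * hε

theorem p0b_eps2 {R : Type} [CommRing R] (b : Co R) (s t : R) {ε : R} (hε : ε * ε = 0) :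
    b.F s (t + ε) = b.F s t + ε * b.Ft s t := by
  simp only [Co.F, Co.Ft]
  linear_combination (s ^ 2 + 3 * t + ε + b.q2) * hε

/-- With `L = x i`, `u = 1 - 1 / h`, `κ = - u ^ 2 / 4`, `Q₀ = t ^ 2 + h κ s - (h + 1) e₅ / (4 h ^ 3) t
+ (e₄ u ^ 2 / h + e₅ ^ 2 / h ^ 5) / 16` one has `κ F = Q₀ Q₂ - Q₁ ^ 2 / 4` and
`Q₀ + L Q₁ + L ^ 2 Q₂ = ln * ln' + κ ^ 2 ∏ (L - x j) / (h L ^ 2 u ^ 2)` (here `κ ^ 2 / u ^ 2 =
u ^ 2 / 16`); use `prod_sub_six`. -/
theorem Par.steiner (hP : Par a x h) (i : Fin 6) (s t : E) :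
    algebraMap K E ((1 - h⁻¹) ^ 2) * (a.up E).F s t =
      Qd x h i s t ^ 2 - 4 * (ln x h i s t * ln' x h i s t * Q2 x h s t) := by
  have hK : ∀ s t : K, (1 - h⁻¹) ^ 2 * a.F s t =
      Qd x h i s t ^ 2 - 4 * (ln x h i s t * ln' x h i s t * Q2 x h s t) := fun s t => by
    rw [p0b_I1 hP, ← p0b_I2 hP, Qd, Algebra.algebraMap_self, RingHom.id_apply]
    ring
  have hM : algebraMap K (MvPolynomial (Fin 2) K) ((1 - h⁻¹) ^ 2) *
      (a.up (MvPolynomial (Fin 2) K)).F (MvPolynomial.X 0) (MvPolynomial.X 1) =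
      Qd x h i (MvPolynomial.X 0) (MvPolynomial.X 1) ^ 2 -
        4 * (ln x h i (MvPolynomial.X 0) (MvPolynomial.X 1) *
          ln' x h i (MvPolynomial.X 0) (MvPolynomial.X 1) *
          Q2 x h (MvPolynomial.X 0) (MvPolynomial.X 1)) := by
    refine MvPolynomial.funext fun v => ?_
    rw [← MvPolynomial.coe_aeval_eq_eval]
    simp only [RingHom.coe_coe, map_mul, map_sub, map_pow (MvPolynomial.aeval v), map_ofNat, p0b_ln,
      p0b_Q2, p0b_Qd, p0b_F, AlgHom.commutes, MvPolynomial.aeval_X]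
    exact hK _ _
  have h2 := congrArg (MvPolynomial.aeval ![s, t]) hM
  simp only [map_mul, map_sub, map_pow (MvPolynomial.aeval ![s, t]), map_ofNat, p0b_ln,
    p0b_Q2, p0b_Qd, p0b_F, AlgHom.commutes, MvPolynomial.aeval_X] at h2
  exact h2

/-- If `h = 1` the point `(e₁ / 4, e₅ / 4)` is singular. -/
theorem Par.h_ne_one (hP : Par a x h) (hs : a.Sm) : h ≠ 1 := by
  rintro rfl
  obtain rfl := hP.co
  refine hs.not_sing (RingHom.id K) (s := es x 1 / 4) (t := es x 5 / 4) ?_ ?_ ?_ <;>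
    simp only [Co.map_id, Co.F, Co.Fs, Co.Ft, coR, inv_one] <;> ring

/-- The value of the polar conic at the intersection of the two lines: differentiate the identity
for `Q₀ + L Q₁ + L ^ 2 Q₂` with respect to `L`, or eliminate `s`, `t` and use
`prod_sub_six` and its derivative. -/
theorem Par.Qd_node (hP : Par a x h) (h1 : h ≠ 1) (i : Fin 6) {s t : K} (e1 : ln x h i s t = 0)
    (e2 : ln' x h i s t = 0) :
    Qd x h i s t = (1 - h⁻¹) ^ 2 * (∏ j ∈ Finset.univ.erase i, (x i - x j)) /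
      (16 * h * x i ^ 2) := by
  have h0 := hP.ne
  have h3 := hP.x_ne i
  have h2 := p0b_root hP i
  have key : Qd x h i s t =
      (s + (-2 * x i * (1 - h⁻¹) - es x 1 / h - (h - 1) / x i ^ 2) / 4) * ln' x h i s t +
      ln x h i s t * (s / h + (2 * x i * (1 - h⁻¹) / h - es x 1 / h + (h - 1) / x i ^ 2) / 4) +
      (1 - h⁻¹) ^ 2 * (6 * x i ^ 5 - 5 * es x 1 * x i ^ 4 + 4 * es x 2 * x i ^ 3 -
        3 * es x 3 * x i ^ 2 + 2 * es x 4 * x i - es x 5) / (16 * h * x i ^ 2) -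
      (1 - h⁻¹) ^ 2 * (x i ^ 6 - es x 1 * x i ^ 5 + es x 2 * x i ^ 4 - es x 3 * x i ^ 3 +
        es x 4 * x i ^ 2 - es x 5 * x i + h ^ 3) / (8 * h * x i ^ 3) := by
    simp only [Qd, Q1, Q2, ln, al, p0b_es, Algebra.algebraMap_self, RingHom.id_apply]
    generalize es x 1 = e1, es x 2 = e2, es x 3 = e3, es x 4 = e4, es x 5 = e5
    generalize x i = L at h3 ⊢
    field_simp
    ring
  rw [key, e1, e2, h2, p0b_der]
  simp only [mul_zero, zero_mul, zero_div, zero_add, sub_zero]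

/-- If `x i = x j` then `Qd`, `ln`, `ln'` vanish at the intersection of the two lines, which is
then a singular point (differentiate `Par.steiner`, e.g. over the dual numbers). -/
theorem Par.inj (hP : Par a x h) (hs : a.Sm) : Function.Injective x := by
  intro i j hij
  by_contra hne
  have h1 := hP.h_ne_one hs
  have h0 := hP.ne
  have h3 := hP.x_ne i
  have hu : 1 - h⁻¹ ≠ 0 := fun e => h1 (inv_eq_one.1 (sub_eq_zero.1 e).symm)
  have hu' : h - 1 ≠ 0 := sub_ne_zero.2 h1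
  obtain ⟨s, t, e1, e2⟩ : ∃ s t : K, ln x h i s t = 0 ∧ ln' x h i s t = 0 := by
    simp only [ln, Algebra.algebraMap_self, RingHom.id_apply]
    generalize al x h (x i) = A, al (fun j => x j / h) h⁻¹ (x i / h) = B
    refine ⟨h * (B - A) / (x i * (h - 1)), -A - h * (B - A) / (h - 1), ?_, ?_⟩ <;> field_simp <;>
      ring
  have e3 : Qd x h i s t = 0 := by
    rw [hP.Qd_node h1 i e1 e2, Finset.prod_eq_zero (Finset.mem_erase.2 ⟨Ne.symm hne,
      Finset.mem_univ j⟩) (sub_eq_zero.2 hij), mul_zero, zero_div]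
  have hz : ∀ z w : DualNumber K, TrivSqZeroExt.fstHom K K K z = 0 →
      TrivSqZeroExt.fstHom K K K w = 0 → z * w = 0 := fun z w hz hw => by
    have hz' : z.fst = 0 := hz
    have hw' : w.fst = 0 := hw
    ext <;> simp [hz', hw']
  have key : ∀ S T : DualNumber K, TrivSqZeroExt.fstHom K K K S = s →
      TrivSqZeroExt.fstHom K K K T = t → ∀ b c : K, (a.up (DualNumber K)).F S T =
        algebraMap K _ b + DualNumber.eps * algebraMap K _ c → b = 0 ∧ c = 0 := by
    intro S T hS hT b c hF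
    have h4 := hP.steiner i S T
    have q1 : TrivSqZeroExt.fstHom K K K (Qd x h i S T) = 0 := by rw [p0b_Qd, hS, hT, e3]
    have q2 : TrivSqZeroExt.fstHom K K K (ln x h i S T) = 0 := by rw [p0b_ln, hS, hT, e1]
    have q3 : TrivSqZeroExt.fstHom K K K (ln' x h i S T) = 0 := by
      rw [p0b_ln, hS, hT]
      exact e2
    rw [sq (Qd x h i S T), hz _ _ q1 q1, hz _ _ q2 q3, zero_mul, mul_zero, sub_zero, hF] at h4
    have h5 := congrArg TrivSqZeroExt.fst h4
    have h6 := congrArg TrivSqZeroExt.snd h4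
    simp only [TrivSqZeroExt.algebraMap_eq_inl, TrivSqZeroExt.fst_mul, TrivSqZeroExt.fst_add,
      TrivSqZeroExt.fst_inl, DualNumber.fst_eps, zero_mul, add_zero, TrivSqZeroExt.fst_zero,
      DualNumber.snd_mul, TrivSqZeroExt.snd_add, TrivSqZeroExt.snd_inl, DualNumber.snd_eps,
      one_mul, zero_add, mul_zero, TrivSqZeroExt.snd_zero] at h5 h6
    exact ⟨(mul_eq_zero.1 h5).resolve_left (pow_ne_zero 2 hu),
      (mul_eq_zero.1 h6).resolve_left (pow_ne_zero 2 hu)⟩
  have f0 : ∀ c : K, TrivSqZeroExt.fstHom K K K (algebraMap K (DualNumber K) c) = c := fun _ => rfl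
  have f1 : ∀ c : K, TrivSqZeroExt.fstHom K K K (algebraMap K (DualNumber K) c + DualNumber.eps) =
      c := fun c => by
    rw [map_add, f0]
    exact add_zero c
  have k1 := key (algebraMap K _ s + DualNumber.eps) (algebraMap K _ t) (f1 s) (f0 t)
    (a.F s t) (a.Fs s t) (by rw [p0b_eps1 _ _ _ DualNumber.eps_mul_eps, Co.map_F, Co.map_Fs])
  have k2 := key (algebraMap K _ s) (algebraMap K _ t + DualNumber.eps) (f0 s) (f1 t)
    (a.F s t) (a.Ft s t) (by rw [p0b_eps2 _ _ _ DualNumber.eps_mul_eps, Co.map_F, Co.map_Ft])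
  exact hs.not_sing (RingHom.id K) k1.1 k1.2 k2.2

end Pool.Agent.Lib.MP_07b2d0_nt.G3
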