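import Pool.Agent.Lib.MP_07b2d0_nt.G3.C3b
import Pool.Agent.Lib.MP_07b2d0_nt.G3.P0b

/-!
Spaces of functions with bounded poles, and the bitangents.
-/

set_option autoImplicit false

namespace Pool.Agent.Lib.MP_07b2d0_nt.G3

open Polynomial Fh WithZero

variable {L E : Type} [Field L] [Field E] [Algebra L E] {a : Co L} {s t : E} {P Q : Plc L E}

theorem c5_one (v : Plc L E) {c : L} (hc : c ≠ 0) : v.1 (algebraMap L E c) = 1 := by
  refine le_antisymm (v.2.2 c) ?_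
  have h1 : v.1 (algebraMap L E c) * v.1 (algebraMap L E c⁻¹) = 1 := by
    rw [← map_mul, ← map_mul, mul_inv_cancel₀ hc, map_one, map_one]
  exact h1.ge.trans (mul_le_of_le_one_right' (v.2.2 _))

theorem c5_inf (v : Plc L E) (h : 1 < v.1 s) {A : L[X]} (hA : A ≠ 0) :
    v.1 (aeval s A) = v.1 s ^ A.natDegree := by
  have h1 : v.1 (A.coeff A.natDegree • s ^ A.natDegree) = v.1 s ^ A.natDegree := by
    rw [Algebra.smul_def, map_mul, map_pow, coeff_natDegree,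
      c5_one v (leadingCoeff_ne_zero.2 hA), one_mul]
  rw [aeval_eq_sum_range, Finset.sum_range_succ, ← h1]
  refine v.1.map_add_eq_of_lt_right ?_
  rw [h1]
  refine v.1.map_sum_lt (pow_ne_zero _ (zero_lt_one.trans h).ne') fun i hi => ?_
  rw [Algebra.smul_def, map_mul, map_pow]
  exact (mul_le_of_le_one_left' (v.2.2 _)).trans_lt (pow_lt_pow_right₀ h (Finset.mem_range.1 hi))

theorem c5_eq (v : Plc L E) {m r : ℤ} (hm : 0 < m) (hs : v.1 s = exp m) {y : E}
    (hy : v.1 y = exp r) {A : L[X]} (hA : A ≠ 0) :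
    v.1 (aeval s A * y) = exp (m * A.natDegree + r) := by
  have h : 1 < v.1 s := by
    rw [hs, ← exp_zero, exp_lt_exp]
    exact hm
  rw [map_mul, c5_inf v h hA, hs, hy, ← exp_nsmul, ← exp_add, nsmul_eq_mul, mul_comm]

theorem c5_le (v : Plc L E) {m r : ℤ} (hm : 0 < m) (hs : v.1 s = exp m) {y : E}
    (hy : v.1 y = exp r) (A : L[X]) : v.1 (aeval s A * y) ≤ exp (m * A.natDegree + r) := by
  rcases eq_or_ne A 0 with rfl | hA
  · rw [map_zero, zero_mul, map_zero]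
    exact zero_le
  · exact (c5_eq v hm hs hy hA).le

theorem c5_dom (v : Plc L E) {x y z : E} {k l m n : ℤ} (hx : v.1 x = exp k) (hy : v.1 y ≤ exp l)
    (hz : v.1 z ≤ exp m) (h : v.1 (x + y + z) ≤ exp n) (hl : l < k) (hm : m < k) : k ≤ n := by
  have h1 : v.1 (y + z) < v.1 x := by
    rw [hx]
    exact v.1.map_add_lt (hy.trans_lt (exp_lt_exp.2 hl)) (hz.trans_lt (exp_lt_exp.2 hm))
  rw [add_assoc, v.1.map_add_eq_of_lt_left h1, hx] at h
  exact exp_le_exp.1 h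

theorem c5_ne {A : L[X]} (h : A.natDegree ≠ 0) : A ≠ 0 := by
  rintro rfl
  exact h natDegree_zero

theorem c5_core (hP : IsP P s t) (hQ : IsP Q t s) (A B : L[X]) {y : E} {g g' n n' : ℤ}
    (hg : P.1 y ≤ exp g) (hg' : Q.1 y ≤ exp g')
    (h1 : P.1 (aeval s A + aeval s B * t + y) ≤ exp n)
    (h2 : Q.1 (aeval s A + aeval s B * t + y) ≤ exp n') :
    (A.natDegree ≠ 0 → 2 * (B.natDegree : ℤ) + 1 < 2 * A.natDegree → g < 2 * A.natDegree →
      2 * (A.natDegree : ℤ) ≤ n) ∧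
    (B.natDegree ≠ 0 → 2 * (A.natDegree : ℤ) < 2 * B.natDegree + 1 → g < 2 * B.natDegree + 1 →
      2 * (B.natDegree : ℤ) + 1 ≤ n) ∧
    (P.1 y = exp g → 2 * (A.natDegree : ℤ) < g → 2 * (B.natDegree : ℤ) + 1 < g → g ≤ n) ∧
    (B.natDegree ≠ 0 → (A.natDegree : ℤ) < B.natDegree + 2 → g' < B.natDegree + 2 →
      (B.natDegree : ℤ) + 2 ≤ n') := by
  have o : ∀ v : Plc L E, v.1 1 = exp 0 := fun v => by rw [map_one, exp_zero]
  have a1 := c5_le P two_pos hP.1 (o P) A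
  have a2 := c5_le Q one_pos hQ.2 (o Q) A
  have b1 := c5_le P two_pos hP.1 hP.2 B
  rw [mul_one, add_zero] at a1 a2
  rw [one_mul] at a2
  refine ⟨fun h => ?_, fun h => ?_, fun h => ?_, fun h => ?_⟩
  · have e := c5_eq P two_pos hP.1 (o P) (c5_ne h)
    rw [mul_one, add_zero] at e
    exact c5_dom P e b1 hg h1
  · rw [add_comm (aeval s A)] at h1
    exact c5_dom P (c5_eq P two_pos hP.1 hP.2 (c5_ne h)) a1 hg h1
  · rw [add_comm, ← add_assoc] at h1
    exact c5_dom P h a1 b1 h1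
  · have e := c5_eq Q one_pos hQ.2 hQ.1 (c5_ne h)
    rw [one_mul] at e
    rw [add_comm (aeval s A)] at h2
    exact c5_dom Q e a2 hg' h2

/-- `t * th = -(s ^ 3 + ⋯)` by `Co.F_eq_th`. -/
theorem Cv.th_val (h : Cv a s t) (hP : IsP P s t) (hQ : IsP Q t s) :
    P.1 ((a.up E).th s t) = exp 5 ∧ Q.1 ((a.up E).th s t) = exp 1 := by
  have hd : (X ^ 3 + C a.q0 * X ^ 2 + C a.r0 * X + C (a.c ^ 2 + a.e) : L[X]).natDegree = 3 := by
    compute_degree!
  have hne := c5_ne (hd ▸ three_ne_zero : _ ≠ 0)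
  have e : t * (a.up E).th s t =
      -(aeval s (X ^ 3 + C a.q0 * X ^ 2 + C a.r0 * X + C (a.c ^ 2 + a.e) : L[X]) * 1) := by
    have h0 := h.eq
    rw [Co.F_eq_th] at h0
    simp only [map_add, map_mul, map_pow, aeval_X, aeval_C]
    simp only [Co.map] at h0 ⊢
    linear_combination h0
  have o : ∀ v : Plc L E, v.1 1 = exp 0 := fun v => by rw [map_one, exp_zero]
  constructor
  · have e1 := congrArg P.1 e
    rw [Valuation.map_neg, c5_eq P two_pos hP.1 (o P) hne, hd, map_mul, hP.2] at e1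
    refine mul_left_cancel₀ (exp_ne_zero (a := (1 : ℤ))) (e1.trans ?_)
    rw [← exp_add]
    norm_num
  · have e1 := congrArg Q.1 e
    rw [Valuation.map_neg, c5_eq Q one_pos hQ.2 (o Q) hne, hd, map_mul, hQ.1] at e1
    refine mul_left_cancel₀ (exp_ne_zero (a := (2 : ℤ))) (e1.trans ?_)
    rw [← exp_add]
    norm_num

/-- Write `z = A + B t + C th` (`Cv.basis`); the pole orders are `2 i, 2 i + 1, 2 i + 5` at `P` and
`i, i + 2, i + 1` at `Q`.  If `C ≠ 0` then `B t` and `C th` cancel at `P`, so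
`deg B = deg C + 2 ≥ deg A`, and `B t` alone has the highest pole at `Q`. -/
theorem Cv.L22 (h : Cv a s t) (hP : IsP P s t) (hQ : IsP Q t s) {z : E}
    (hz : z ∈ Algebra.adjoin L {s, t}) (h1 : P.1 z ≤ exp 2) (h2 : Q.1 z ≤ exp 2) :
    ∃ α β γ : L, z = algebraMap L E α + algebraMap L E β * s + algebraMap L E γ * t := by
  obtain ⟨A, B, D, rfl⟩ := h.basis hz
  obtain ⟨t1, t2⟩ := h.th_val hP hQ
  have hD : D = 0 := by
    by_contra hD
    obtain ⟨c1, c2, c3, c4⟩ := c5_core hP hQ A B (c5_le P two_pos hP.1 t1 D)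
      (c5_le Q one_pos hQ.2 t2 D) h1 h2
    have c5 := c3 (c5_eq P two_pos hP.1 t1 hD)
    omega
  subst hD
  have z0 : ∀ v : Plc L E, v.1 (aeval s (0 : L[X]) * (a.up E).th s t) ≤ exp 0 := fun v => by
    rw [map_zero, zero_mul, map_zero]
    exact zero_le
  obtain ⟨c1, c2, -, -⟩ := c5_core hP hQ A B (z0 P) (z0 Q) h1 h2
  obtain ⟨β, α, rfl⟩ := exists_eq_X_add_C_of_natDegree_le_one (p := A) (by omega)
  refine ⟨α, β, B.coeff 0, ?_⟩
  conv_lhs => rw [eq_C_of_natDegree_eq_zero (p := B) (by omega)]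
  simp only [map_add, map_mul, aeval_X, aeval_C, map_zero]
  ring

theorem Cv.L63 (h : Cv a s t) (hP : IsP P s t) (hQ : IsP Q t s) {z : E}
    (hz : z ∈ Algebra.adjoin L {s, t}) (h1 : P.1 z ≤ exp 6) (h2 : Q.1 z ≤ exp 3) :
    ∃ (A : L[X]) (β β' γ : L), A.natDegree ≤ 3 ∧ z = aeval s A +
      (algebraMap L E β + algebraMap L E β' * s) * t + algebraMap L E γ * (a.up E).th s t := by
  obtain ⟨A, B, D, rfl⟩ := h.basis hz
  obtain ⟨t1, t2⟩ := h.th_val hP hQ
  obtain ⟨c1, c2, c3, c4⟩ := c5_core hP hQ A B (c5_le P two_pos hP.1 t1 D)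
    (c5_le Q one_pos hQ.2 t2 D) h1 h2
  have hD : D.natDegree = 0 := by
    by_contra hD
    have c5 := c3 (c5_eq P two_pos hP.1 t1 (c5_ne hD))
    omega
  have hB : B.natDegree ≤ 1 := by omega
  have hA : A.natDegree ≤ 3 := by omega
  obtain ⟨β', β, rfl⟩ := exists_eq_X_add_C_of_natDegree_le_one hB
  refine ⟨A, β, β', D.coeff 0, hA, ?_⟩
  conv_lhs => rw [eq_C_of_natDegree_eq_zero hD]
  simp only [map_add, map_mul, aeval_X, aeval_C]
  ring

end Pool.Agent.Lib.MP_07b2d0_nt.G3
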