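import Pool.Agent.Lib.MP_07b2d0_nt.G3.C5

/-!
The bitangents have even divisors.
-/

set_option autoImplicit false

namespace Pool.Agent.Lib.MP_07b2d0_nt.G3

open Polynomial Fh WithZero

variable {L E : Type} [Field L] [CharZero L] [Field E] [Algebra L E] {a : Co L} {s t : E}
  {x : Fin 6 → L} {g : L}

set_option linter.unusedSectionVars false in
theorem Cv.ln_ne (h : Cv a s t) (x : Fin 6 → L) (g : L) (i : Fin 6) : ln x g i s t ≠ 0 := fun e =>
  one_ne_zero (cubic_indep h.sm h.trans h.eq (A := C (x i) * X + C (al x g (x i))) (B := 1)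
    (C := 0) (by
      rw [map_add, map_mul, aeval_C, aeval_C, aeval_X, map_one, map_zero]
      rw [ln] at e
      linear_combination e)).2.1

section Map

variable {T T' : Type} [CommRing T] [CommRing T'] [Algebra L T] [Algebra L T'] (f : T →ₐ[L] T')

omit [CharZero L]

theorem c5b_ln (x : Fin 6 → L) (g : L) (i : Fin 6) (s t : T) :
    f (ln x g i s t) = ln x g i (f s) (f t) := by
  rw [ln, ln, map_add, map_add, map_mul, f.commutes, f.commutes]

theorem c5b_Q2 (x : Fin 6 → L) (g : L) (s t : T) : f (Q2 x g s t) = Q2 x g (f s) (f t) := by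
  rw [Q2, Q2, map_add, map_sub, map_sub, map_mul, map_mul, map_mul, map_pow, f.commutes,
    f.commutes, f.commutes, f.commutes]

theorem c5b_Qd (x : Fin 6 → L) (g : L) (i : Fin 6) (s t : T) :
    f (Qd x g i s t) = Qd x g i (f s) (f t) := by
  rw [Qd, Qd, map_add, map_mul, map_mul, c5b_Q2, f.commutes, map_ofNat, Q1, Q1, map_add, map_sub,
    map_sub, map_mul, map_mul, map_mul, map_mul, f.commutes, f.commutes, f.commutes, f.commutes]

theorem c5b_up (a : Co L) : (a.up T).map (f : T →+* T') = a.up T' := by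
  rw [Co.map_map, f.comp_algebraMap]

theorem c5b_F (a : Co L) (s t : T) : f ((a.up T).F s t) = (a.up T').F (f s) (f t) :=
  ((a.up T).map_F (f : T →+* T') s t).trans (by rw [c5b_up]; rfl)

end Map

theorem c5b_mul {T : Type} [CommRing T] {y z : DualNumber T} (hy : y.fst = 0) (hz : z.fst = 0) :
    y * z = 0 := by
  ext <;> simp [hy, hz]

theorem c5b_dual {T : Type} [CommRing T] [Algebra L T] (hP : Par a x g) (hs : a.Sm) (i : Fin 6)
    {s t : T} (h1 : Qd x g i s t = 0) (h2 : ln x g i s t = 0)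
    (h3 : ln' x g i s t = 0 ∨ Q2 x g s t = 0) {s' t' : DualNumber T} (e1 : s'.fst = s)
    (e2 : t'.fst = t) : (a.up (DualNumber T)).F s' t' = 0 := by
  subst e1 e2
  let f := TrivSqZeroExt.fstHom L T T
  have k1 : (Qd x g i s' t').fst = 0 := (c5b_Qd f x g i s' t').trans h1
  have k2 : (ln x g i s' t').fst = 0 := (c5b_ln f x g i s' t').trans h2
  have k3 : (ln' x g i s' t' * Q2 x g s' t').fst = 0 := by
    rw [TrivSqZeroExt.fst_mul]
    rcases h3 with h3 | h3
    · rw [show (ln' x g i s' t').fst = 0 from (c5b_ln f _ _ i s' t').trans h3, zero_mul]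
    · rw [show (Q2 x g s' t').fst = 0 from (c5b_Q2 f x g s' t').trans h3, mul_zero]
  have h4 := hP.steiner i s' t'
  rw [sq (Qd x g i s' t'), c5b_mul k1 k1, mul_assoc, c5b_mul k2 k3, mul_zero, sub_zero] at h4
  exact (((pow_ne_zero 2 (sub_ne_zero.2 fun e => hP.h_ne_one hs (inv_eq_one.1 e.symm))).isUnit.map
    (algebraMap L (DualNumber T))).mul_right_eq_zero).1 h4

theorem c5b_sing {T : Type} [CommRing T] [Nontrivial T] [Algebra L T] (hP : Par a x g) (hs : a.Sm)
    (i : Fin 6) {s t : T} (h0 : (a.up T).F s t = 0) (h1 : Qd x g i s t = 0)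
    (h2 : ln x g i s t = 0) (h3 : ln' x g i s t = 0 ∨ Q2 x g s t = 0) : False := by
  let f := TrivSqZeroExt.inlAlgHom L T T
  have e0 : (a.up (DualNumber T)).F (f s) (f t) = 0 := by rw [← c5b_F, h0, map_zero]
  have k : ∀ {y : T}, f y * DualNumber.eps = 0 → y = 0 := fun {y} e => by
    simpa [f] using congrArg TrivSqZeroExt.snd e
  have e2 : (DualNumber.eps : DualNumber T) * DualNumber.eps = 0 := DualNumber.eps_mul_eps
  refine hs.not_sing (algebraMap L T) h0 (k ?_) (k ?_)
  · have e1 := c5b_dual hP hs i h1 h2 h3 (s' := f s + DualNumber.eps) (t' := f t) (by simp [f]) rfl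
    have e3 : f ((a.up T).Fs s t) = (a.up (DualNumber T)).Fs (f s) (f t) :=
      ((a.up T).map_Fs (f : T →+* DualNumber T) s t).trans (by rw [c5b_up]; rfl)
    rw [e3]
    rw [Co.F] at e0 e1
    rw [Co.Fs]
    linear_combination e1 - e0 - (f t ^ 2 + 3 * f s + DualNumber.eps +
      (a.up (DualNumber T)).q0) * e2
  · have e1 := c5b_dual hP hs i h1 h2 h3 (s' := f s) (t' := f t + DualNumber.eps) rfl (by simp [f])
    have e3 : f ((a.up T).Ft s t) = (a.up (DualNumber T)).Ft (f s) (f t) :=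
      ((a.up T).map_Ft (f : T →+* DualNumber T) s t).trans (by rw [c5b_up]; rfl)
    rw [e3]
    rw [Co.F] at e0 e1
    rw [Co.Ft]
    linear_combination e1 - e0 - (f s ^ 2 + 3 * f t + DualNumber.eps +
      (a.up (DualNumber T)).q2) * e2

theorem c5b_fin (h : Cv a s t) (hP : Par a x g) (i : Fin 6) {v : Valuation E ℤᵐ⁰}
    (hv : ∀ c : L, v (algebraMap L E c) ≤ 1) (h1 : v s ≤ 1) (h2 : v t ≤ 1) :
    (2 : ℤ) ∣ log (v (ln x g i s t)) := by
  let O : Subalgebra L E := { v.integer with algebraMap_mem' := hv }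
  let m : Ideal O :=
    { carrier := {z | v z < 1}
      add_mem' := fun hy hz => v.map_add_lt hy hz
      zero_mem' := v.map_zero.trans_lt zero_lt_one
      smul_mem' := fun c z hz => (v.map_mul c z).trans_lt
        ((mul_le_of_le_one_left' c.2).trans_lt hz) }
  have : Nontrivial (O ⧸ m) := Ideal.Quotient.nontrivial_iff.2 fun e =>
    (v.map_one).not_lt ((m.eq_top_iff_one).1 e)
  let s' : O := ⟨s, h1⟩
  let t' : O := ⟨t, h2⟩
  have a1 : (ln x g i s' t' : O) = ln x g i s t := c5b_ln O.val x g i s' t'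
  have a2 : (ln' x g i s' t' : O) = ln' x g i s t :=
    c5b_ln O.val (fun j => x j / g) g⁻¹ i s' t'
  have a3 : (Q2 x g s' t' : O) = Q2 x g s t := c5b_Q2 O.val x g s' t'
  have a4 : (Qd x g i s' t' : O) = Qd x g i s t := c5b_Qd O.val x g i s' t'
  have a5 : (a.up O).F s' t' = 0 := Subtype.ext ((c5b_F O.val a s' t').trans h.eq)
  have b1 : v (ln x g i s t) ≤ 1 := a1 ▸ (ln x g i s' t').2
  have b2 : v (ln' x g i s t) ≤ 1 := a2 ▸ (ln' x g i s' t').2
  have b3 : v (Q2 x g s t) ≤ 1 := a3 ▸ (Q2 x g s' t').2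
  have h4 : v 4 = 1 := by
    have k1 := hv 4
    have k2 := hv 4⁻¹
    rw [map_inv₀, map_ofNat, map_inv₀] at k2
    rw [map_ofNat] at k1
    refine le_antisymm k1 ((inv_le_one₀ (zero_lt_iff.2 ((map_ne_zero v).2 ?_))).1 k2)
    rw [← map_ofNat (algebraMap L E) 4]
    exact (_root_.map_ne_zero _).2 (by norm_num)
  have h5 := hP.steiner i s t
  rw [h.eq, mul_zero, eq_comm, sub_eq_zero] at h5
  replace h5 := congrArg v h5
  rw [map_pow, map_mul, map_mul, map_mul, h4, one_mul] at h5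
  rcases b1.eq_or_lt with e | e
  · rw [e, log_one]
    exact dvd_zero _
  by_cases h6 : v (ln' x g i s t) < 1 ∨ v (Q2 x g s t) < 1
  · have h7 : v (Qd x g i s t) < 1 := lt_of_pow_lt_pow_left₀ 2 zero_le (by
      rw [h5, one_pow]
      exact (mul_le_of_le_one_right' b3).trans_lt ((mul_le_of_le_one_right' b2).trans_lt e))
    let f := Ideal.Quotient.mkₐ L m
    have k : ∀ {z : O} {y : E}, z = y → v y < 1 → f z = 0 := fun e1 e2 =>
      Ideal.Quotient.eq_zero_iff_mem.2 (e1 ▸ e2 : v _ < 1)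
    refine (c5b_sing hP h.sm i (s := f s') (t := f t') ?_ ?_ ?_ (h6.imp (fun e1 => ?_)
      fun e1 => ?_)).elim
    · rw [← c5b_F, a5, map_zero]
    · rw [← c5b_Qd, k a4 h7]
    · rw [← c5b_ln, k a1 e]
    · exact (c5b_ln f _ _ i s' t').symm.trans (k a2 e1)
    · rw [← c5b_Q2, k a3 e1]
  · rw [not_or, not_lt, not_lt] at h6
    rw [le_antisymm b2 h6.1, le_antisymm b3 h6.2, mul_one, mul_one] at h5
    rw [← h5, log_pow, nsmul_eq_mul]
    exact dvd_mul_right _ _

/-- At infinity use `inf_shape`.  At a finite valuation with `v ln < 1`: if `v ln' < 1` or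
`v Q2 < 1` then `v Qd < 1` by `Par.steiner`, and the derivatives of that identity (apply it over
the dual numbers, or apply `pderiv` over `MvPolynomial`) give `v Fs < 1`, `v Ft < 1`, against
`Co.Sm.bez`. -/
theorem Cv.divBy_ln (h : Cv a s t) (hP : Par a x g) (i : Fin 6) :
    Ks.DivBy L 2 (ln x g i s t) := by
  intro v hv
  by_cases h0 : 1 < v s ∨ 1 < v t
  swap
  · rw [not_or, not_lt, not_lt] at h0
    exact c5b_fin h hP i hv h0.1 h0.2
  have h1 : v (algebraMap L E (x i) * s) = v s := by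
    have k := hv (x i)⁻¹
    rw [map_inv₀, map_inv₀] at k
    rw [map_mul, le_antisymm (hv _) ((inv_le_one₀ (zero_lt_iff.2 ((map_ne_zero v).2
      ((_root_.map_ne_zero _).2 (hP.x_ne i))))).1 k), one_mul]
  rcases inf_shape h.eq hv h0 with ⟨e1, e2⟩ | ⟨e1, e2⟩
  · have h2 : v t < v s := e2 ▸ lt_self_pow₀ e1 one_lt_two
    have h3 : v (t + algebraMap L E (x i) * s) = v s :=
      (v.map_add_eq_of_lt_right (h1 ▸ h2)).trans h1
    rw [ln, v.map_add_eq_of_lt_left (h3 ▸ (hv _).trans_lt (e1.trans h2)), h3, e2, log_pow,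
      nsmul_eq_mul]
    exact dvd_mul_right _ _
  · have h2 : v s < v t := e2 ▸ lt_self_pow₀ e1 one_lt_two
    have h3 : v (t + algebraMap L E (x i) * s) = v t := v.map_add_eq_of_lt_left (h1 ▸ h2)
    rw [ln, v.map_add_eq_of_lt_left (h3 ▸ (hv _).trans_lt (e1.trans h2)), h3, e2, log_pow,
      nsmul_eq_mul]
    exact dvd_mul_right _ _

end Pool.Agent.Lib.MP_07b2d0_nt.G3
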