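import Pool.Agent.Lib.MP_07b2d0_nt.G3.C5b
import Pool.Agent.Lib.MP_07b2d0_nt.G3.W0.Br

/-!
The inertia group fixes the bitangents.
-/

set_option autoImplicit false

namespace Pool.Agent.Lib.MP_07b2d0_nt.G3

open Polynomial Fh WithZero
open scoped IntermediateField

variable {Ω F : Type} [Field Ω] [IsAlgClosed Ω] [CharZero Ω] [Field F] [Algebra Ω F] {a : Co Ω}
  {s t : F} {σ : Ω ≃+* Ω} {S : F ≃+* F}
  {hS : ∀ c, S (algebraMap Ω F c) = algebraMap Ω F (σ c)}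

/-- `half_iff` and `Hf.tate`. -/
theorem Half.tate {z : F} (hz : Transcendental Ω z) (hf : FiniteDimensional Ω⟮z⟯ F)
    (H : Half σ S hS) {φ : F} (h0 : φ ≠ 0) (h2 : Ks.DivBy Ω 2 φ) : ∃ ψ : F, S φ = φ * ψ ^ 2 := by
  have := isFF_of hz hf
  refine ((half_iff ⟨S, σ, hS⟩).1 H).tate h0 fun w => ?_
  obtain ⟨v, rfl⟩ := plE.surjective w
  exact (even_iff_two_dvd.2 (h2 v.1 v.2.2)).neg

end Pool.Agent.Lib.MP_07b2d0_nt.G3
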