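import Pool.Agent.Lib.MP_07b2d0_nt.G3.C7

/-!
The inertia group fixes the slopes of the bitangents.
-/

set_option autoImplicit false

namespace Pool.Agent.Lib.MP_07b2d0_nt.G3

open Polynomial Fh WithZero
open scoped IntermediateField

variable {Ω F : Type} [Field Ω] [IsAlgClosed Ω] [CharZero Ω] [Field F] [Algebra Ω F] {a : Co Ω}
  {s t : F} {σ : Ω ≃+* Ω} {S : F ≃+* F}

omit [IsAlgClosed Ω] [CharZero Ω] in
theorem c7b_lin (v : Plc Ω F) {b : ℤᵐ⁰} (h0 : 1 ≤ b) (hs : v.1 s ≤ b) (ht : v.1 t ≤ b)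
    (α β γ : Ω) :
    v.1 (algebraMap Ω F α * t + algebraMap Ω F β * s + algebraMap Ω F γ) ≤ b := by
  refine Valuation.map_add_le _ (Valuation.map_add_le _ ?_ ?_) ((v.2.2 γ).trans h0)
  · rw [map_mul]
    exact (mul_le_of_le_one_left' (v.2.2 α)).trans ht
  · rw [map_mul]
    exact (mul_le_of_le_one_left' (v.2.2 β)).trans hs

omit [IsAlgClosed Ω] [CharZero Ω] in
theorem c7b_le (v : Plc Ω F) {b : ℤᵐ⁰} {z p q : F} (e : z ^ 2 = p * q) (hp : v.1 p ≤ b)
    (hq : v.1 q ≤ b) : v.1 z ≤ b := by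
  refine (pow_le_pow_iff_left₀ zero_le zero_le two_ne_zero).1 ?_
  rw [← map_pow, e, map_mul, sq]
  exact mul_le_mul' hp hq

/-- Let `l = ln x g i s t`, `S l = l ψ ^ 2`, `m = l ψ`, so `m ^ 2 = l * S l`.  Then `m` has no
finite pole and poles of order two at `P`, `Q`; by `Cv.mem_of_fin`, `Cv.L22` it is linear, and
`cubic_indep` allows to compare coefficients.  The automorphism `S` may multiply `s` and `t` by
constants. -/
theorem Cv.fix_slope (h : Cv a s t) {x : Fin 6 → Ω} {g : Ω} (hP : Par a x g)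
    (hT : ∀ φ : F, φ ≠ 0 → Ks.DivBy Ω 2 φ → ∃ ψ : F, S φ = φ * ψ ^ 2)
    (hS : ∀ c, S (algebraMap Ω F c) = algebraMap Ω F (σ c)) {l m : Ω} (hl : l ≠ 0) (hm : m ≠ 0)
    (h1 : S s = algebraMap Ω F l * s) (h2 : S t = algebraMap Ω F m * t) (i : Fin 6) :
    σ (x i) * l = x i * m := by
  obtain ⟨ψ, hψ⟩ := hT _ (h.ln_ne x g i) (h.divBy_ln hP i)
  have e1 : ln x g i s t = algebraMap Ω F 1 * t + algebraMap Ω F (x i) * s +
      algebraMap Ω F (al x g (x i)) := by rw [ln, map_one, one_mul]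
  have e2 : S (ln x g i s t) = algebraMap Ω F m * t + algebraMap Ω F (σ (x i) * l) * s +
      algebraMap Ω F (σ (al x g (x i))) := by
    rw [ln, map_add, map_add, map_mul, hS, hS, h1, h2, map_mul, mul_assoc]
  have e3 : (ln x g i s t * ψ) ^ 2 = ln x g i s t * S (ln x g i s t) := by rw [hψ]; ring
  have key : ∀ (v : Plc Ω F) (b : ℤᵐ⁰), 1 ≤ b → v.1 s ≤ b → v.1 t ≤ b →
      v.1 (ln x g i s t * ψ) ≤ b := fun v b h0 hs ht =>
    c7b_le v e3 (e1 ▸ c7b_lin v h0 hs ht _ _ _) (e2 ▸ c7b_lin v h0 hs ht _ _ _)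
  obtain ⟨P, hp, -⟩ := h.exists_P
  obtain ⟨Q, hq, -⟩ := h.swap.exists_P
  have b0 : (1 : ℤᵐ⁰) ≤ exp 2 := by rw [← exp_zero, exp_le_exp]; norm_num
  have b1 : (exp 1 : ℤᵐ⁰) ≤ exp 2 := by rw [exp_le_exp]; norm_num
  obtain ⟨A, B, D, e4⟩ := h.L22 hp hq (h.mem_of_fin fun v hs ht => key v 1 le_rfl hs ht)
    (key P _ b0 hp.1.le (hp.2.trans_le b1)) (key Q _ b0 (hq.2.trans_le b1) hq.1.le)
  rw [e4, e2, e1] at e3
  generalize σ (x i) * l = y at *
  generalize σ (al x g (x i)) = β at *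
  generalize al x g (x i) = α at *
  obtain ⟨k0, k1, k2⟩ := cubic_indep h.sm h.trans h.eq
    (A := C (B ^ 2 - x i * y) * X ^ 2 + C (2 * A * B - x i * β - α * y) * X + C (A ^ 2 - α * β))
    (B := C (2 * D * B - y - m * x i) * X + C (2 * D * A - β - m * α)) (C := C (D ^ 2 - m)) (by
      simp only [map_add, map_mul, map_sub, map_pow, aeval_C, aeval_X, map_ofNat, map_one] at e3 ⊢
      linear_combination e3)
  have j0 : B ^ 2 - x i * y = 0 := by
    have := congrArg (coeff · 2) k0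
    simp only [coeff_add, coeff_C_mul, coeff_X_pow, coeff_X, coeff_C] at this
    simpa using this
  have j1 : 2 * D * B - y - m * x i = 0 := by
    simpa [coeff_X, coeff_C] using congrArg (coeff · 1) k1
  have j2 : D ^ 2 - m = 0 := C_eq_zero.1 k2
  have j3 : (y - x i * m) ^ 2 = 0 := by
    linear_combination (-(2 * D * B + y + m * x i)) * j1 + 4 * B ^ 2 * j2 + 4 * m * j0
  exact sub_eq_zero.1 (pow_eq_zero_iff two_ne_zero |>.1 j3)

end Pool.Agent.Lib.MP_07b2d0_nt.G3
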