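import Pool.Agent.Lib.MP_07b2d0_nt.Kh.Defs
import Pool.Agent.Lib.MP_07b2d0_nt.Fh.Tate

/-!
Internal definitions for plane quartics with a marked bitangent.
-/

set_option autoImplicit false

namespace Pool.Agent.Lib.MP_07b2d0_nt.G3

open CategoryTheory AlgebraicGeometry Polynomial NumberField WithZero Fh

noncomputable section

/-- The coefficients of the normal form. -/
@[ext] structure Co (R : Type) where
  q0 : R
  c : R
  q2 : R
  r0 : R
  r1 : R
  e : R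

namespace Co

variable {R R' : Type} [CommRing R] [CommRing R']

/-- Change of the ring of coefficients. -/
def map (a : Co R) (φ : R →+* R') : Co R' := ⟨φ a.q0, φ a.c, φ a.q2, φ a.r0, φ a.r1, φ a.e⟩

/-- Extension of scalars. -/
abbrev up (a : Co R) (E : Type) [CommRing E] [Algebra R E] : Co E := a.map (algebraMap R E)

/-- Exchange of the two variables. -/
def swap (a : Co R) : Co R := ⟨a.q2, a.c, a.q0, a.r1, a.r0, a.e⟩

/-- The equation of the curve. -/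
def F (a : Co R) (s t : R) : R :=
  (s * t + a.c) ^ 2 + s ^ 3 + t ^ 3 + a.q0 * s ^ 2 + a.q2 * t ^ 2 + a.r0 * s + a.r1 * t + a.e

/-- The derivative in the first variable. -/
def Fs (a : Co R) (s t : R) : R := 2 * t * (s * t + a.c) + 3 * s ^ 2 + 2 * a.q0 * s + a.r0

/-- The derivative in the second variable. -/
def Ft (a : Co R) (s t : R) : R := 2 * s * (s * t + a.c) + 3 * t ^ 2 + 2 * a.q2 * t + a.r1

/-- The third element of the basis `1, t, th` over the polynomials in `s`. -/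
def th (a : Co R) (s t : R) : R := t * (t + s ^ 2 + a.q2) + 2 * a.c * s + a.r1

/-- The equation in the chart `w = 1 / s`, `z = t / s + c / s ^ 2`. -/
def G (a : Co R) (z w : R) : R :=
  z ^ 2 + w * (1 + a.q0 * w + a.r0 * w ^ 2 + a.e * w ^ 3 - a.r1 * a.c * w ^ 4 +
    a.q2 * a.c ^ 2 * w ^ 5 - a.c ^ 3 * w ^ 6) +
    z * w ^ 3 * (a.r1 - 2 * a.q2 * a.c * w + 3 * a.c ^ 2 * w ^ 2) +
    z ^ 2 * w ^ 2 * (a.q2 - 3 * a.c * w) + w * z ^ 3

/-- The equation as a polynomial. -/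
def pol (a : Co R) : MvPolynomial (Fin 2) R :=
  (a.up (MvPolynomial (Fin 2) R)).F (MvPolynomial.X 0) (MvPolynomial.X 1)

/-- The affine curve is smooth. -/
def Sm (a : Co R) : Prop :=
  ∃ A B C : MvPolynomial (Fin 2) R, A * a.pol +
    B * (a.up (MvPolynomial (Fin 2) R)).Fs (MvPolynomial.X 0) (MvPolynomial.X 1) +
    C * (a.up (MvPolynomial (Fin 2) R)).Ft (MvPolynomial.X 0) (MvPolynomial.X 1) = 1

/-- All coefficients have height at most `H`. -/
def Ht {K : Type} [Field K] [NumberField K] (a : Co K) (H : ℕ) : Prop :=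
  ∀ z ∈ [a.q0, a.c, a.q2, a.r0, a.r1, a.e], Height.logHeight₁ z ≤ H

end Co

/-- The coefficients in terms of the parameters; here `u = 1 / 4` and `g = 1 / h`. -/
def coR {R : Type} [CommRing R] (u h g e1 e2 e3 e4 e5 : R) : Co R where
  q0 := u * (-e1 - e1 * g - e4 * g ^ 2)
  c := u ^ 2 * (6 - h - g - e3 * g - e3 * g ^ 2 - e1 * e5 * g ^ 3)
  q2 := u * (-e2 * g - e5 * g ^ 2 - e5 * g ^ 3)
  r0 := u ^ 2 * (e2 * (1 - g) ^ 2 + e1 ^ 2 * g + e1 * e4 * g ^ 2 + e1 * e4 * g ^ 3 - e5 * g ^ 2 -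
    e5 * g ^ 3 + e3 * e5 * g ^ 4)
  r1 := u ^ 2 * (e4 * g * (1 - g) ^ 2 - e1 - e1 * g + e1 * e3 * g ^ 2 + e2 * e5 * g ^ 3 +
    e2 * e5 * g ^ 4 + e5 ^ 2 * g ^ 5)
  e := u ^ 3 * (3 * h + 3 * g - 10 - e3 + 3 * e3 * g + 3 * e3 * g ^ 2 - e3 * g ^ 3 -
    e3 ^ 2 * g ^ 3 - e2 * e4 * (1 - g) ^ 2 * g ^ 2 - e1 ^ 2 * e4 * g ^ 3 + 4 * e1 * e5 * g ^ 3 -
    e1 * e3 * e5 * g ^ 4 - e1 * e3 * e5 * g ^ 5 - e2 * e5 ^ 2 * g ^ 6)

section Par

variable {K E : Type} [Field K] [CommRing E] [Algebra K E]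

/-- `x` and `h` are parameters for the curve `a`. -/
structure Par (a : Co K) (x : Fin 6 → K) (h : K) : Prop where
  ne : h ≠ 0
  prod : ∏ i, x i = h ^ 3
  co : a = coR 4⁻¹ h h⁻¹ (es x 1) (es x 2) (es x 3) (es x 4) (es x 5)

/-- The constant term of the bitangent of slope `L`. -/
def al (x : Fin 6 → K) (h L : K) : K :=
  (-L ^ 2 * (1 - h⁻¹) - L * es x 1 / h - es x 5 / h ^ 2 + (h - 1) / L) / 4

/-- The bitangent of slope `x i`. -/
def ln (x : Fin 6 → K) (h : K) (i : Fin 6) (s t : E) : E :=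
  t + algebraMap K E (x i) * s + algebraMap K E (al x h (x i))

/-- The bitangent of slope `x i / h`. -/
abbrev ln' (x : Fin 6 → K) (h : K) (i : Fin 6) (s t : E) : E := ln (fun j => x j / h) h⁻¹ i s t

/-- The conic `Q₂` of the Steiner family. -/
def Q2 (x : Fin 6 → K) (h : K) (s t : E) : E :=
  algebraMap K E h⁻¹ * s ^ 2 - algebraMap K E ((1 + h⁻¹) * es x 1 / (4 * h)) * s -
    algebraMap K E ((1 - h⁻¹) ^ 2 / 4) * t +
    algebraMap K E ((es x 2 * (1 - h⁻¹) ^ 2 / h + es x 1 ^ 2 / h ^ 2) / 16)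

/-- The conic `Q₁` of the Steiner family. -/
def Q1 (x : Fin 6 → K) (h : K) (s t : E) : E :=
  algebraMap K E (1 + h⁻¹) * s * t - algebraMap K E (es x 5 / (2 * h ^ 3)) * s -
    algebraMap K E (es x 1 / (2 * h)) * t +
    algebraMap K E ((h - 1 - h⁻¹ + h⁻¹ ^ 2 - es x 3 * (1 - h⁻¹) ^ 2 / h +
      es x 1 * es x 5 * (1 + h⁻¹) / h ^ 3) / 16)

/-- The polar conic at the parameter `x i`. -/
def Qd (x : Fin 6 → K) (h : K) (i : Fin 6) (s t : E) : E :=
  Q1 x h s t + 2 * algebraMap K E (x i) * Q2 x h s t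

/-- The Cremona move. -/
def crem (x : Fin 6 → K) (h : K) (i : Fin 6) : K :=
  if 3 ≤ i then x i * (h / (x 3 * x 4 * x 5)) else x i

/-- The dual parameters. -/
def dual (x : Fin 6 → K) (h : K) (i : Fin 6) : K := h / x i.rev

/-- The root that controls the chart at the first point at infinity. -/
def Bx (x : Fin 6 → K) (h : K) : K := h / (x 0 * x 4 * x 5)

/-- The parameters lie in the dominant chamber. -/
structure Dom (V : Subring K) (x : Fin 6 → K) (h : K) : Prop where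
  b : ∀ i : Fin 5, x i.succ / x i.castSucc ∈ V
  b0 : h / (x 3 * x 4 * x 5) ∈ V

/-- `z` is a multiple of `B`. -/
def Dv (V : Subring K) (B z : K) : Prop := ∃ y ∈ V, z = B * y

/-- The estimates in the dominant chamber. -/
structure Est (V : Subring K) (a : Co K) (x : Fin 6 → K) (h : K) : Prop where
  p1 : Dv V (Bx x h) (a.q0 / x 0 + es x 1 / (4 * x 0))
  p2 : Dv V (Bx x h) (a.r0 / x 0 ^ 2 - es x 2 / (4 * x 0) ^ 2)
  p3 : Dv V (Bx x h) (a.e / x 0 ^ 3 + es x 3 / (4 * x 0) ^ 3)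
  p4 : Dv V (Bx x h) (-(a.r1 * a.c) / x 0 ^ 4 - es x 4 / (4 * x 0) ^ 4)
  p5 : Dv V (Bx x h) (a.q2 * a.c ^ 2 / x 0 ^ 5 + es x 5 / (4 * x 0) ^ 5)
  p6 : Dv V (Bx x h) (-a.c ^ 3 / x 0 ^ 6 - h ^ 3 / (4 * x 0) ^ 6)
  z1 : Dv V (Bx x h) (a.r1 ^ 2 / x 0 ^ 5)
  z2 : Dv V (Bx x h) ((a.q2 * a.c) ^ 2 / x 0 ^ 7)
  z3 : Dv V (Bx x h) (a.c ^ 4 / x 0 ^ 9)
  z4 : Dv V (Bx x h) (a.q2 / x 0 ^ 2)
  z5 : Dv V (Bx x h) (a.c / x 0 ^ 3)
  z6 : Dv V (Bx x h) (1 / x 0 ^ 3)

end Par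

section Fld

variable {L E : Type} [Field L] [Field E] [Algebra L E]

/-- `E` is the function field of the curve. -/
structure Cv (a : Co L) (s t : E) : Prop where
  sm : a.Sm
  trans : Transcendental L s
  eq : (a.up E).F s t = 0
  top : IntermediateField.adjoin L {s, t} = ⊤

/-- The place where `s` has a double pole and `t` a simple pole. -/
def IsP (v : Plc L E) (s t : E) : Prop := v.1 s = exp 2 ∧ v.1 t = exp 1

/-- The place is centred at the point `(s₀, t₀)`. -/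
def At (v : Plc L E) (s t : E) (s₀ t₀ : L) : Prop := Kh.Vl v s s₀ ∧ Kh.Vl v t t₀

/-- The valuation ring of `v` is the local ring of `L[u, w]` at the origin. -/
def LocR (v : Plc L E) (u w : E) : Prop :=
  ∀ z : E, v.1 z ≤ 1 ↔ ∃ p q : MvPolynomial (Fin 2) L, MvPolynomial.constantCoeff q ≠ 0 ∧
    z * MvPolynomial.aeval ![u, w] q = MvPolynomial.aeval ![u, w] p

/-- The function with values `d` on the places is the divisor of a function. -/
def Prin (d : Plc L E → ℤ) : Prop := ∃ f : E, f ≠ 0 ∧ ∀ v, d v = log (v.1 f)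

/-- If `2 (S D - D)` is principal, so is `S D - D`. -/
def Half (σ : L ≃+* L) (S : E ≃+* E)
    (h : ∀ c, S (algebraMap L E c) = algebraMap L E (σ c)) : Prop :=
  ∀ D : Plc L E →₀ ℤ, (D.sum fun _ n => n) = 0 →
    Prin (fun v => 2 * (D ((Plc.act σ S h).symm v) - D v)) →
    Prin fun v => D ((Plc.act σ S h).symm v) - D v

/-- The square roots of the values of a fixed function with even divisor are fixed. -/
def Desc (σ : L ≃+* L) (S : E ≃+* E) : Prop :=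
  ∀ (n : ℕ) (v w : Fin n → Plc L E) (π π' : Equiv.Perm (Fin n)) (g : E) (a b : Fin n → L) (r : L),
    S g = g → Ks.DivBy L 2 g → (∀ i z, (v (π i)).1 (S z) = (v i).1 z) →
    (∀ i z, (w (π' i)).1 (S z) = (w i).1 z) → (∀ i, a i ≠ 0 ∧ Kh.Vl (v i) g (a i)) →
    (∀ i, b i ≠ 0 ∧ Kh.Vl (w i) g (b i)) → r ^ 2 * ∏ i, b i = ∏ i, a i → σ r = r

/-- The same for the bitangents, in terms of points. -/
def UPt (a : Co L) (σ : L ≃+* L) : Prop :=
  ∀ x h, Par a x h → (∀ i, σ (x i) = x i) → σ h = h →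
    ∀ (i : Fin 6) (n : ℕ) (s t : Fin n → L) (π : Equiv.Perm (Fin n)) (r : L),
      (∀ j, a.F (s j) (t j) = 0) → (∀ j, σ (s j) = s (π j) ∧ σ (t j) = t (π j)) →
      (∀ j, ln x h i (s j) (t j) ≠ 0) → r ^ 2 = ∏ j, ln x h i (s j) (t j) → σ r = r

/-- A function without zeros and poles at the finite places that has odd order at some place. -/
def Odd1 (a : Co L) : Prop :=
  ∃ (F : Type) (_ : Field F) (_ : Algebra L F) (s t φ : F), Cv a s t ∧ φ ≠ 0 ∧
    (∀ v : Plc L F, v.1 s ≤ 1 → v.1 t ≤ 1 → v.1 φ = 1) ∧ ∃ v : Plc L F, Odd (log (v.1 φ))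

/-- The same in terms of the coordinate ring and the two places at infinity. -/
def OddS (a : Co L) : Prop :=
  ∃ (F : Type) (_ : Field F) (_ : Algebra L F) (s t φ ψ : F) (v w : Plc L F), Cv a s t ∧
    IsP v s t ∧ IsP w t s ∧ φ * ψ = 1 ∧ φ ∈ Algebra.adjoin L {s, t} ∧
    ψ ∈ Algebra.adjoin L {s, t} ∧ Odd (log (v.1 φ)) ∧ Odd (log (w.1 φ))

/-- `σ` lies in the inertia group of `V`. -/
structure Inr (V : ValuationSubring L) (σ : L ≃+* L) : Prop where
  stab : ∀ z, σ z ∈ V ↔ z ∈ V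
  res : ∀ z ∈ V, V.valuation (σ z - z) < 1

/-- The consequence of good reduction outside `N`. -/
def Good {k : Type} [Field k] (N : ℕ) (a : Co k) : Prop :=
  ∀ (Ω F : Type) [Field Ω] [IsAlgClosed Ω] [Algebra k Ω] [Field F] [Algebra Ω F] (s t : F)
    (V : ValuationSubring Ω) (σ : Ω ≃+* Ω) (S : F ≃+* F)
    (h : ∀ c, S (algebraMap Ω F c) = algebraMap Ω F (σ c)), Cv (a.up Ω) s t → (N : Ω)⁻¹ ∈ V →
    Inr V σ → (∀ c, σ (algebraMap k Ω c) = algebraMap k Ω c) → S s = s → S t = t → Half σ S h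

/-- The local setting: `G` is a set of elements of the inertia group that is rich enough. -/
structure Loc (ν : AbsoluteValue L ℝ) (p : ℕ) (G : (L ≃+* L) → Prop) : Prop where
  na : IsNonarchimedean ν
  prime : p.Prime
  lt : ν p < 1
  two : ν 2 = 1
  iso : ∀ σ, G σ → ∀ z, ν (σ z) = ν z
  res : ∀ σ, G σ → ∀ z, ν z ≤ 1 → ν (σ z - z) < 1
  rich : ∀ (T : Finset L) (M : ℕ), ∃ (σ : L ≃+* L) (η : L), G σ ∧ (∀ z ∈ T, σ z = z) ∧
    σ η = -η ∧ η ≠ 0 ∧ ν η < 1 ∧ ∀ z ∈ Subfield.closure (T : Set L), ν z < 1 → ν z ≤ ν η ^ M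

/-- All parameters are units. -/
def Uni (ν : AbsoluteValue L ℝ) (x : Fin 6 → L) (h : L) : Prop := (∀ i, ν (x i) = 1) ∧ ν h = 1

end Fld

/-- `R = k[X, Y]` is the ring of the curve `a` in the coordinates `X = l s + α`, `Y = m t + β`. -/
structure Prs {k K R : Type} [Field k] [Field K] [CommRing R] [Algebra k R] (i : k →+* K)
    (a : Co K) (X Y : R) (l α m β : K) : Prop where
  l0 : l ≠ 0
  m0 : m ≠ 0
  gen : Algebra.adjoin k {X, Y} = ⊤
  lift : ∀ (T : Type) [CommRing T] (κ : K →+* T) (s t : T), (a.map κ).F s t = 0 →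
    ∃ ρ : R →+* T, ρ.comp (algebraMap k R) = κ.comp i ∧ ρ X = κ l * s + κ α ∧ ρ Y = κ m * t + κ β
  eq : ∀ (T : Type) [CommRing T] (κ : K →+* T) (s t : T) (ρ : R →+* T),
    ρ.comp (algebraMap k R) = κ.comp i → ρ X = κ l * s + κ α → ρ Y = κ m * t + κ β →
    (a.map κ).F s t = 0

end

end Pool.Agent.Lib.MP_07b2d0_nt.G3
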