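import Pool.Agent.Lib.MP_07b2d0_nt.G3.Defs
import Pool.Agent.Lib.MP_07b2d0_nt.G3.EC
import Pool.Agent.Lib.MP_07b2d0_nt.CR

/-!
Existence of the local setting.
-/

set_option autoImplicit false

namespace Pool.Agent.Lib.MP_07b2d0_nt.G3

open Polynomial NumberField Fh

theorem e1_prime {K : Type} [Field K] [NumberField K] (v : FinitePlace K) (n : ℕ) (h0 : n ≠ 0)
    (h : v (n : K) < 1) : ∃ p : ℕ, p.Prime ∧ v (p : K) < 1 := by
  induction n using induction_on_primes with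
  | zero => exact absurd rfl h0
  | one => simp at h
  | prime_mul p a hp ih =>
    by_cases hv : v (p : K) < 1
    · exact ⟨p, hp, hv⟩
    · rw [Nat.cast_mul, map_mul, le_antisymm (fp_nat_le_one v p) (not_lt.1 hv), one_mul] at h
      exact ih (right_ne_zero_of_mul h0) h

/-- Take `ν`, `Γ` from `exists_Loc0`, `p` the residue characteristic, and use `Loc0.ec`. -/
theorem exists_Loc (K : Type) [Field K] [NumberField K] (v : FinitePlace K) (h2 : v 2 = 1) :
    ∃ (ν : AbsoluteValue (AlgebraicClosure K) ℝ) (p : ℕ)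
      (G : (AlgebraicClosure K ≃+* AlgebraicClosure K) → Prop), Loc ν p G ∧
      (∀ u : K, ν (algebraMap K _ u) = v u) ∧
      (∀ σ, G σ → ∀ u : K, σ (algebraMap K _ u) = algebraMap K _ u) ∧
      ∀ z, (∀ σ, G σ → σ z = z) → ∃ u : K, ν z = v u := by
  obtain ⟨ν, Γ, h⟩ := exists_Loc0 v
  obtain ⟨p, hp, hv⟩ := e1_prime v (qv v) (by have := two_le_qv v; omega) (fp_qv_lt_one v)
  refine ⟨ν, p, fun σ => ∃ τ ∈ Γ, τ.toRingEquiv = σ, ⟨h.na, hp, ?_, ?_, ?_, ?_, fun T M => ?_⟩,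
    h.ext, ?_, fun z hz => h.fix z fun σ hσ => hz _ ⟨σ, hσ, rfl⟩⟩
  · rwa [← map_natCast (algebraMap K (AlgebraicClosure K)), h.ext]
  · rw [← map_ofNat (algebraMap K (AlgebraicClosure K)), h.ext, h2]
  · rintro _ ⟨τ, hτ, rfl⟩
    exact h.iso τ hτ
  · rintro _ ⟨τ, hτ, rfl⟩
    exact h.res τ hτ
  · obtain ⟨η, σ, hσ, e1, e2, e3, e4⟩ := h.ec h2 T M
    refine ⟨σ.toRingEquiv, η, ⟨σ, hσ, rfl⟩,
      fun z hz => (e4 z (IntermediateField.subset_adjoin K _ hz)).1, e1, e2, e3,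
      fun z hz => (e4 z ?_).2⟩
    exact (Subfield.closure_le (t := (IntermediateField.adjoin K
      (T : Set (AlgebraicClosure K))).toSubfield)).2 (IntermediateField.subset_adjoin K _) hz
  · rintro _ ⟨τ, -, rfl⟩
    exact τ.commutes

/-- At an unramified place the residue characteristic is a uniformiser
(`not_dvd_discr_iff_forall_mem`). -/
theorem le_of_unram {K : Type} [Field K] [NumberField K] (v : FinitePlace K) {p : ℕ}
    (hp : p.Prime) (hv : v (p : K) < 1) (hd : ¬ (p : ℤ) ∣ discr K) {z : K} (hz : v z < 1) :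
    v z ≤ v (p : K) := by
  have hp' : Prime (p : ℤ) := Nat.prime_iff_prime_int.mp hp
  have hm := (fp_nat_lt_one_iff v p).1 hv
  have hP := v.maximalIdeal.isPrime
  have h1 : Algebra.IsUnramifiedAt ℤ v.maximalIdeal.asIdeal :=
    (not_dvd_discr_iff_forall_mem K (𝓞 K) hp').mp hd _ hP (by simpa using hm)
  have h2 : v.maximalIdeal.asIdeal.LiesOver (Ideal.span {(p : ℤ)}) :=
    (Ideal.liesOver_span_iff hP.ne_top hp').mpr (by simpa using hm)
  have h3 : (Ideal.span {(p : ℤ)}).ramificationIdx' v.maximalIdeal.asIdeal = 1 := by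
    rw [Ideal.ramificationIdx'_eq_ramificationIdx _ _
      (Ideal.span_singleton_eq_bot.not.mpr hp'.ne_zero)]
    exact Ideal.ramificationIdx_eq_one _ _
  have h4 : (p : 𝓞 K) ∉ v.maximalIdeal.asIdeal ^ 2 := fun h => by
    refine (Ideal.ramificationIdx'_ne_one_iff (Ideal.map_le_of_le_comap h2.over.le)).2 ?_ h3
    rw [Ideal.map_span, Set.image_singleton, Ideal.span_le, Set.singleton_subset_iff]
    simpa using h
  rw [← v.maximalIdeal.intValuation_le_pow_iff_mem, ← v.maximalIdeal.valuation_of_algebraMap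
    (K := K), not_le] at h4
  replace h4 : WithZero.exp (-((2 : ℕ) : ℤ)) < v.maximalIdeal.valuation K (p : K) :=
    h4.trans_eq (congrArg _ (map_natCast (algebraMap (𝓞 K) K) p))
  have hp0 : (p : K) ≠ 0 := Nat.cast_ne_zero.mpr hp.ne_zero
  rcases eq_or_ne z 0 with rfl | hz0
  · rw [map_zero]
    exact apply_nonneg _ _
  · have h5 := (fp_lt_one_iff v hz0).1 hz
    rw [← WithZero.exp_log (val_ne_zero v hp0), WithZero.exp_lt_exp] at h4
    rw [fp_eq v hz0, fp_eq v hp0]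
    refine zpow_le_zpow_right₀ (by linarith [two_le_qv' v]) ?_
    rw [ord] at h5
    rw [ord, ord]
    push_cast at h4
    omega

theorem exists_inr {Ω : Type} [Field Ω] {ν : AbsoluteValue Ω ℝ} (h : IsNonarchimedean ν) :
    ∃ V : ValuationSubring Ω, (∀ z, z ∈ V ↔ ν z ≤ 1) ∧
      (∀ z w, V.valuation z ≤ V.valuation w ↔ ν z ≤ ν w) ∧
      ∀ σ : Ω ≃+* Ω, (∀ z, ν (σ z) = ν z) → (∀ z, ν z ≤ 1 → ν (σ z - z) < 1) → Inr V σ := by
  obtain ⟨V, hV, -⟩ := Ks.exists_valuationSubring (K := Ω) h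
  have h2 : ∀ z w, V.valuation z ≤ V.valuation w ↔ ν z ≤ ν w := fun z w => by
    rw [ValuationSubring.valuation_le_iff]
    constructor
    · rintro ⟨a, rfl⟩
      rw [map_mul]
      exact mul_le_of_le_one_left (ν.nonneg _) ((hV _).1 a.2)
    · intro hzw
      rcases eq_or_ne w 0 with rfl | hw
      · rw [map_zero] at hzw
        exact ⟨0, by rw [ν.eq_zero.1 (le_antisymm hzw (ν.nonneg _)), mul_zero]⟩
      · refine ⟨⟨z / w, (hV _).2 ?_⟩, div_mul_cancel₀ z hw⟩
        rw [map_div₀]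
        exact div_le_one_of_le₀ hzw (ν.nonneg _)
  refine ⟨V, hV, h2, fun σ e1 e2 => ⟨fun z => by rw [hV, hV, e1], fun z hz => ?_⟩⟩
  have := e2 z ((hV z).1 hz)
  rwa [← map_one ν, ← not_le, ← h2, not_le, map_one] at this

end Pool.Agent.Lib.MP_07b2d0_nt.G3
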