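import Pool.Agent.Lib.MP_07b2d0_nt.G3.IEv2

/-!
Estimates for integral power series.
-/

set_option autoImplicit false
set_option linter.unusedSectionVars false

namespace Pool.Agent.Lib.MP_07b2d0_nt.G3

open PowerSeries
open scoped Polynomial

variable {Ω : Type} [Field Ω] {ν : AbsoluteValue Ω ℝ} {hna : IsNonarchimedean ν}

theorem na_sum_lt (hna : IsNonarchimedean ν) {ι : Type} {s : Finset ι} {f : ι → Ω} {c : ℝ}
    (hc : 0 < c) (h : ∀ i ∈ s, ν (f i) < c) : ν (∑ i ∈ s, f i) < c :=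
  Finset.sum_induction f (fun a => ν a < c) (fun _ _ => na_add_lt hna) (by simpa using hc) h

theorem na_nat (hna : IsNonarchimedean ν) (n : ℕ) : ν (n : Ω) ≤ 1 := by
  induction n with
  | zero => simp
  | succ n ih => rw [Nat.cast_succ]; exact na_add_le hna ih (map_one ν).le

theorem C_dvd_iff {a : intO hna ⊤} (ha : a.1 ≠ 0) {f : (intO hna ⊤)⟦X⟧} :
    C a ∣ f ↔ ∀ j, ν (coeff j f).1 ≤ ν a.1 := by
  constructor
  · rintro ⟨g, rfl⟩ j
    rw [coeff_C_mul, Subring.coe_mul, map_mul]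
    exact mul_le_of_le_one_right (ν.nonneg _) (coeff j g).2.2
  · intro h
    refine ⟨mk fun j => ⟨(coeff j f).1 / a.1, trivial, by
      rw [map_div₀]; exact div_le_one_of_le₀ (h j) (ν.nonneg _)⟩, ?_⟩
    ext j
    rw [coeff_C_mul, coeff_mk, Subring.coe_mul, mul_div_cancel₀ _ ha]

theorem C_dvd_of_mul {a ρ : intO hna ⊤} (ha : a.1 ≠ 0) (hρ : ν ρ.1 < 1) {f : (intO hna ⊤)⟦X⟧}
    (h : C a ∣ (X - C ρ) * f) : C a ∣ f := by
  rw [C_dvd_iff ha] at h ⊢
  have key : ∀ k j, ν (coeff j f).1 ≤ max (ν a.1) (ν ρ.1 ^ k) := fun k => by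
    induction k with
    | zero => exact fun j => le_max_of_le_right (by simpa using (coeff j f).2.2)
    | succ k ih =>
      intro j
      have h1 := h (j + 1)
      rw [sub_mul, map_sub, coeff_succ_X_mul, coeff_C_mul] at h1
      rw [← sub_add_cancel (coeff j f) (ρ * coeff (j + 1) f), Subring.coe_add]
      refine na_add_le hna (le_max_of_le_left h1) ?_
      rw [Subring.coe_mul, map_mul]
      rcases le_max_iff.1 (ih (j + 1)) with h2 | h2
      · exact le_max_of_le_left ((mul_le_of_le_one_left (ν.nonneg _) hρ.le).trans h2)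
      · exact le_max_of_le_right (pow_succ' (ν ρ.1) k ▸ mul_le_mul_of_nonneg_left h2 (ν.nonneg _))
  obtain ⟨k, hk⟩ := exists_pow_lt_of_lt_one (ν.pos ha) hρ
  exact fun j => (key k j).trans (max_le le_rfl hk.le)

theorem C_dvd_of_pow {a ρ : intO hna ⊤} (ha : a.1 ≠ 0) (hρ : ν ρ.1 < 1) (n : ℕ)
    {f : (intO hna ⊤)⟦X⟧} (h : C a ∣ (X - C ρ) ^ n * f) : C a ∣ f := by
  induction n with
  | zero => simpa using h
  | succ n ih => exact ih (C_dvd_of_mul ha hρ (by rwa [← mul_assoc, ← pow_succ']))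

theorem binom [CharZero Ω] {ρ : intO hna ⊤} (h0 : ρ.1 ≠ 0)
    (hρ : ∀ i : ℕ, 2 ≤ i → ν ρ.1 ^ (i - 1) < ν (i : Ω)) {n : ℕ} (hn : 0 < n)
    {H : (intO hna ⊤)⟦X⟧} (hH : ν (coeff 0 H).1 = 1) {e : ℕ} (he : e + 2 ≤ n) :
    ν (coeff e ((X - C ρ) ^ n * H)).1 < ν (coeff (n - 1) ((X - C ρ) ^ n * H)).1 := by
  have hb : ∀ i, (coeff i ((X - C ρ) ^ n : (intO hna ⊤)⟦X⟧)).1 = (-ρ.1) ^ (n - i) * n.choose i :=
    fun i => by
    have := Polynomial.coeff_X_add_C_pow (-ρ) n i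
    rw [← Polynomial.coeff_coe, Polynomial.coe_pow, Polynomial.coe_add, Polynomial.coe_X,
      Polynomial.coe_C, map_neg, ← sub_eq_add_neg] at this
    rw [this]
    simp
  have hp : 0 < ν ρ.1 * ν (n : Ω) := mul_pos (ν.pos h0) (ν.pos (Nat.cast_ne_zero.2 hn.ne'))
  have h1 : ∀ i j, i + 2 ≤ n → ν ((coeff i ((X - C ρ) ^ n : (intO hna ⊤)⟦X⟧)).1 * (coeff j H).1) <
      ν ρ.1 * ν (n : Ω) := fun i j hi => by
    obtain ⟨l, rfl⟩ : ∃ l, n = i + l + 1 + 1 := ⟨n - i - 2, by omega⟩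
    have h2 := hρ (l + 2) (by omega)
    have h3 := Nat.add_one_mul_choose_eq (i + l + 1) (l + 1)
    have h4 : (i + l + 1 + 1).choose i = (i + l + 1 + 1).choose (l + 1 + 1) :=
      Nat.choose_symm_of_eq_add (by omega)
    have h5 := congrArg (fun m : ℕ => ν (m : Ω)) h3
    simp only [Nat.cast_mul, map_mul] at h5
    have h6 := na_nat hna ((i + l + 1).choose (l + 1))
    have h7 : 0 < ν ((l + 2 : ℕ) : Ω) := ν.pos (Nat.cast_ne_zero.2 (by omega))
    rw [map_mul, hb, map_mul, map_pow, ν.map_neg, h4, show i + l + 1 + 1 - i = l + 1 + 1 by omega]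
    refine (mul_le_of_le_one_right (by positivity) (coeff j H).2.2).trans_lt
      (lt_of_mul_lt_mul_right ?_ h7.le)
    rw [mul_assoc, ← h5, pow_succ, show l + 2 - 1 = l + 1 by omega] at *
    calc _ ≤ ν ρ.1 ^ (l + 1) * (ν ρ.1 * ν ((i + l + 1 + 1 : ℕ) : Ω)) := by
          rw [mul_assoc]
          exact mul_le_mul_of_nonneg_left (mul_le_mul_of_nonneg_left
            (mul_le_of_le_one_right (ν.nonneg _) h6) (ν.nonneg _)) (by positivity)
      _ < _ := by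
          rw [mul_comm]
          exact mul_lt_mul_of_pos_left h2 hp
  have h2 : ν (coeff (n - 1) ((X - C ρ) ^ n * H)).1 = ν ρ.1 * ν (n : Ω) := by
    rw [coeff_mul, ← Finset.add_sum_erase _ _ (a := (n - 1, 0)) (by simp), Subring.coe_add,
      Subring.coe_mul, AddSubmonoidClass.coe_finsetSum]
    have h3 : ν ((coeff (n - 1) ((X - C ρ) ^ n : (intO hna ⊤)⟦X⟧)).1 * (coeff 0 H).1) =
        ν ρ.1 * ν (n : Ω) := by
      rw [map_mul, hH, mul_one, hb, show n - (n - 1) = 1 by omega, pow_one, map_mul, ν.map_neg,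
        Nat.choose_symm hn, Nat.choose_one_right]
    rw [na_add_eq hna, h3]
    rw [h3]
    refine na_sum_lt hna hp fun q hq => h1 _ _ ?_
    have h4 := Finset.HasAntidiagonal.mem_antidiagonal.1 (Finset.mem_of_mem_erase hq)
    have h5 := Finset.ne_of_mem_erase hq
    by_contra h6
    exact h5 (Prod.ext (by simp only; omega) (by simp only; omega))
  rw [h2, coeff_mul, AddSubmonoidClass.coe_finsetSum]
  refine na_sum_lt hna hp fun q hq => h1 _ _ ?_
  have h4 := Finset.HasAntidiagonal.mem_antidiagonal.1 hq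
  omega

/-- The monomials have distinct orders. -/
theorem order_sum {κ : Type} [CommRing κ] [IsDomain κ] {ω : κ⟦X⟧} (hω : ω.order = 4) {D : ℕ}
    (s : Finset (ℕ × Fin 3)) (c : ℕ × Fin 3 → κ) (hD : ∀ i ∈ s, i.1 + i.2 ≤ D)
    (h : ∃ i ∈ s, c i ≠ 0) : ∃ i ∈ s, ∃ e : ℕ, e + (3 * i.1 + 4 * i.2) = 4 * D ∧
      (∑ i ∈ s, C (c i) * (X ^ i.1 * ω ^ (D - i.1 - i.2))).order = (e : ℕ∞) := by
  classical
  obtain ⟨i, hi, hm⟩ := (s.filter fun i => c i ≠ 0).exists_max_image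
    (fun i => 3 * i.1 + 4 * (i.2 : ℕ)) (let ⟨i, h1, h2⟩ := h; ⟨i, Finset.mem_filter.2 ⟨h1, h2⟩⟩)
  obtain ⟨h1, h2⟩ := Finset.mem_filter.1 hi
  have ho : ∀ j : ℕ × Fin 3, c j ≠ 0 → (C (c j) * (X ^ j.1 * ω ^ (D - j.1 - j.2))).order =
      ((j.1 + (D - j.1 - j.2) * 4 : ℕ) : ℕ∞) := fun j hj => by
    rw [order_mul, order_mul, order_X_pow, order_pow, hω, ← monomial_zero_eq_C_apply,
      order_monomial_of_ne_zero _ _ hj, nsmul_eq_mul]
    simp
  have h3 := hD i h1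
  refine ⟨i, h1, i.1 + (D - i.1 - i.2) * 4, by omega, ?_⟩
  have h4 : ((i.1 + (D - i.1 - i.2) * 4 + 1 : ℕ) : ℕ∞) ≤
      (∑ j ∈ s.erase i, C (c j) * (X ^ j.1 * ω ^ (D - j.1 - j.2))).order := by
    refine Finset.sum_induction _ (fun f : κ⟦X⟧ => _ ≤ f.order)
      (fun a b ha hb => (le_min ha hb).trans (min_order_le_order_add a b)) (by simp) fun j hj => ?_
    by_cases h5 : c j = 0
    · simp [h5]
    have h6 := Finset.mem_of_mem_erase hj
    have h7 := hm j (Finset.mem_filter.2 ⟨h6, h5⟩)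
    have h8 := hD j h6
    have h9 : ¬ (j.1 = i.1 ∧ (j.2 : ℕ) = i.2) := fun h =>
      Finset.ne_of_mem_erase hj (Prod.ext h.1 (Fin.ext h.2))
    have := i.2.2
    have := j.2.2
    rw [ho j h5, Nat.cast_le]
    omega
  have h5 : (C (c i) * (X ^ i.1 * ω ^ (D - i.1 - i.2))).order <
      (∑ j ∈ s.erase i, C (c j) * (X ^ j.1 * ω ^ (D - j.1 - j.2))).order := by
    rw [ho i h2]
    exact lt_of_lt_of_le (by exact_mod_cast Nat.lt_succ_self _) h4
  rw [← Finset.add_sum_erase _ _ h1, order_add_of_order_ne _ _ h5.ne, inf_eq_left.2 h5.le, ho i h2]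

/-- Scaling of a finite family. -/
theorem e6_prim (hna : IsNonarchimedean ν) {ι : Type} (s : Finset ι) (c : ι → Ω)
    (h : ∃ i ∈ s, c i ≠ 0) : ∃ i₀ ∈ s, c i₀ ≠ 0 ∧ ∃ c' : ι → intO hna ⊤,
      (c' i₀).1 = 1 ∧ ∀ i ∈ s, c i = c i₀ * (c' i).1 := by
  classical
  obtain ⟨j, hj, h0⟩ := h
  obtain ⟨i, hi, hm⟩ := s.exists_max_image (fun i => ν (c i)) ⟨j, hj⟩
  have h1 : c i ≠ 0 := ν.pos_iff.1 ((ν.pos h0).trans_le (hm j hj))
  refine ⟨i, hi, h1, fun l => if h : l ∈ s then ⟨c l / c i, trivial, by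
    rw [map_div₀]; exact div_le_one_of_le₀ (hm l h) (ν.nonneg _)⟩ else 0, ?_, fun l hl => ?_⟩
  · simp [hi, h1]
  · simp only [hl, dif_pos]
    rw [mul_div_cancel₀ _ h1]

end Pool.Agent.Lib.MP_07b2d0_nt.G3
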