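import Pool.Agent.Lib.MP_07b2d0_nt.G3.E6a

/-!
Two points that meet in the cusp at infinity of the reduction.
-/

set_option autoImplicit false
set_option linter.unusedSectionVars false

namespace Pool.Agent.Lib.MP_07b2d0_nt.G3

open Pool.Agent.Lib.MP_6adaea_nt W PowerSeries

variable {Ω F : Type} [Field Ω] [Field F] [Algebra Ω F] [IsAlgClosed Ω] [IsFF Ω F] [CharZero Ω]
  {ν : AbsoluteValue Ω ℝ} {hna : IsNonarchimedean ν}

/-- Division by the parameter at `P`. -/
theorem e6_div {O : Subring Ω} {P : Place Ω F} {U W E M : F} {ρ : O}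
    (hU : P.ord (U - algebraMap O F ρ) = 1) (hW : P.Ge W 1) (hE : E ∈ Algebra.adjoin O {U, W})
    (E0 : E ≠ 0) (oE : P.ord E = 0) (hM : M ∈ Algebra.adjoin O {U, W})
    (h : W * E = (U - algebraMap O F ρ) * M) (n : ℕ) :
    ∀ y ∈ Algebra.adjoin O {U, W}, P.Ge y n →
      ∃ k : ℕ, ∃ q ∈ Algebra.adjoin O {U, W}, y * E ^ k = (U - algebraMap O F ρ) ^ n * q := by
  have mU : U ∈ Algebra.adjoin O {U, W} := Algebra.subset_adjoin (by simp)
  have mW : W ∈ Algebra.adjoin O {U, W} := Algebra.subset_adjoin (by simp)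
  have mT := sub_mem mU (Subalgebra.algebraMap_mem _ ρ)
  have T0 := ne_of_ord hU
  have hA : ∀ y ∈ Algebra.adjoin O {U, W}, P.Ge y 0 := fun y hy => by
    induction hy using Algebra.adjoin_induction with
    | mem a ha =>
      rcases ha with rfl | rfl
      · exact sub_add_cancel a (algebraMap O F ρ) ▸
          (Place.Ge.of_le (hU.ge.trans' zero_le_one)).add (P.ge_const ρ.1)
      · exact hW.mono zero_le_one
    | algebraMap c => exact P.ge_const c.1
    | add a b _ _ ha hb => exact ha.add hb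
    | mul a b _ _ ha hb => exact ge_mul_zero ha hb
  have dec : ∀ y ∈ Algebra.adjoin O {U, W}, ∃ c : O, ∃ a ∈ Algebra.adjoin O {U, W},
      ∃ b ∈ Algebra.adjoin O {U, W}, y = algebraMap O F c + (U - algebraMap O F ρ) * a + W * b :=
    fun y hy => by
    induction hy using Algebra.adjoin_induction with
    | mem a ha =>
      rcases ha with rfl | rfl
      · exact ⟨ρ, 1, one_mem _, 0, zero_mem _, by ring⟩
      · exact ⟨0, 0, zero_mem _, 1, one_mem _, by simp⟩
    | algebraMap c => exact ⟨c, 0, zero_mem _, 0, zero_mem _, by ring⟩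
    | add x y _ _ hx hy =>
      obtain ⟨c, a, ha, b, hb, rfl⟩ := hx
      obtain ⟨c', a', ha', b', hb', rfl⟩ := hy
      exact ⟨c + c', _, add_mem ha ha', _, add_mem hb hb', by rw [map_add]; ring⟩
    | mul x y _ my hx hy =>
      obtain ⟨c, a, ha, b, hb, rfl⟩ := hx
      obtain ⟨c', a', ha', b', hb', e⟩ := hy
      have mc := Subalgebra.algebraMap_mem (Algebra.adjoin O {U, W}) c
      exact ⟨c * c', _, add_mem (mul_mem mc ha') (mul_mem ha my), _,
        add_mem (mul_mem mc hb') (mul_mem hb my), by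
          rw [map_mul]; linear_combination algebraMap O F c * e⟩
  induction n with
  | zero => exact fun y hy _ => ⟨0, y, hy, by simp⟩
  | succ n ih =>
    intro y hy hn
    obtain ⟨c, a, ha, b, hb, e⟩ := dec y hy
    have c0 : c.1 = 0 := Place.const_eq_zero_of_ge (v := P) (by
      rw [show algebraMap Ω F c.1 = y - (U - algebraMap O F ρ) * a - W * b by
        rw [e]; change algebraMap O F c = _; ring]
      exact ((hn.mono (by omega)).sub ((Place.Ge.of_le hU.ge).mul (hA a ha))).sub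
        (hW.mul (hA b hb)))
    have e1 : (a * E + M * b) * (U - algebraMap O F ρ) = y * E := by
      rw [e, show c = 0 from Subtype.ext c0, map_zero]
      linear_combination -b * h
    obtain ⟨k, q, hq, e2⟩ := ih _ (add_mem (mul_mem ha hE) (mul_mem hM hb)) (by
      have := hn.mul (Place.Ge.of_le oE.ge)
      rw [← e1, Place.ge_mul_iff T0, hU] at this
      simpa using this)
    exact ⟨k + 1, q, hq, by
      linear_combination (U - algebraMap O F ρ) * e2 - E ^ k * e1⟩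

theorem e6_val {O : Subring Ω} {P : Place Ω F} {U W : F} {ρ : O}
    (hU : P.Ge (U - algebraMap O F ρ) 1) (hW : P.Ge W 1) {y : F}
    (hy : y ∈ Algebra.adjoin O {U, W}) : ∃ c : O, P.Ge (y - algebraMap O F c) 1 := by
  induction hy using Algebra.adjoin_induction with
  | mem a ha =>
    rcases ha with rfl | rfl
    · exact ⟨ρ, hU⟩
    · exact ⟨0, by simpa using hW⟩
  | algebraMap c => exact ⟨c, by simp⟩
  | add a b _ _ ha hb =>
    obtain ⟨c, hc⟩ := ha
    obtain ⟨d, hd⟩ := hb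
    exact ⟨c + d, by rw [map_add, add_sub_add_comm]; exact hc.add hd⟩
  | mul a b _ _ ha hb =>
    obtain ⟨c, hc⟩ := ha
    obtain ⟨d, hd⟩ := hb
    refine ⟨c * d, ?_⟩
    rw [map_mul, show a * b - algebraMap O F c * algebraMap O F d = (a - algebraMap O F c) *
      (b - algebraMap O F d + algebraMap O F d) + algebraMap O F c * (b - algebraMap O F d) by ring]
    exact (hc.mul ((hd.mono zero_le_one).add (P.ge_const d.1))).add ((P.ge_const c.1).mul hd)

theorem e6_unit {c : intO hna ⊤} (h : ν c.1 = 1) : IsUnit c :=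
  .of_mul_eq_one ⟨c.1⁻¹, trivial, by rw [map_inv₀, h, inv_one]⟩
    (Subtype.ext (mul_inv_cancel₀ (ν.pos_iff.1 (h ▸ one_pos))))

theorem e6_abs_unit {c : intO hna ⊤} (h : IsUnit c) : ν c.1 = 1 :=
  le_antisymm c.2.2 (not_lt.1 fun h1 =>
    (intM_prime hna ⊤).ne_top (Ideal.eq_top_of_isUnit_mem _ h1 h))

/-- The integral form of a linear combination of the monomials. -/
theorem e6_int {U W : F} {D : ℕ} (θ : Algebra.adjoin (intO hna ⊤) {U, W} →+*
      (intO hna ⊤ ⧸ intM hna ⊤)⟦X⟧)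
    (hθ : ∀ c, θ (algebraMap _ _ c) = C (Ideal.Quotient.mk _ c))
    (hU : θ ⟨U, Algebra.subset_adjoin (by simp)⟩ = X)
    (hW : (θ ⟨W, Algebra.subset_adjoin (by simp)⟩).order = 4) (s : Finset (ℕ × Fin 3))
    (c : ℕ × Fin 3 → Ω) (hD : ∀ i ∈ s, i.1 + i.2 ≤ D) (h : ∃ i ∈ s, c i ≠ 0) :
    ∃ i₀ ∈ s, c i₀ ≠ 0 ∧ (∀ i ∈ s, ν (c i) ≤ ν (c i₀)) ∧ ∃ p : Algebra.adjoin (intO hna ⊤) {U, W},
      ∑ i ∈ s, algebraMap Ω F (c i) * (U ^ i.1 * W ^ (D - i.1 - i.2)) =
        algebraMap Ω F (c i₀) * p.1 ∧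
      ∃ i ∈ s, ∃ e : ℕ, e + (3 * i.1 + 4 * i.2) = 4 * D ∧ (θ p).order = (e : ℕ∞) := by
  obtain ⟨i₀, h0, h1, c', h2, h3⟩ := e6_prim hna s c h
  refine ⟨i₀, h0, h1, fun i hi => by
    rw [h3 i hi, map_mul]; exact mul_le_of_le_one_right (ν.nonneg _) (c' i).2.2,
    ∑ i ∈ s, algebraMap _ _ (c' i) * (⟨U, Algebra.subset_adjoin (by simp)⟩ ^ i.1 *
      ⟨W, Algebra.subset_adjoin (by simp)⟩ ^ (D - i.1 - i.2)), ?_, ?_⟩
  · rw [AddSubmonoidClass.coe_finsetSum, Finset.mul_sum]
    refine Finset.sum_congr rfl fun i hi => ?_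
    rw [h3 i hi, map_mul, mul_assoc]
    rfl
  · simp only [map_sum, map_mul, map_pow, hθ, hU]
    refine order_sum hW s _ hD ⟨i₀, h0, fun h4 => ?_⟩
    have h5 : ν (c' i₀).1 < 1 := Ideal.Quotient.eq_zero_iff_mem.1 h4
    simp [h2] at h5

end Pool.Agent.Lib.MP_07b2d0_nt.G3
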