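import Pool.Agent.Lib.MP_07b2d0_nt.G3.St
import Pool.Agent.Lib.MP_07b2d0_nt.G3.C1b

/-!
Reduction to the normal form.
-/

set_option autoImplicit false

namespace Pool.Agent.Lib.MP_07b2d0_nt.G3

open NumberField Fh MvPolynomial

theorem gn1_exp {k : Type} [CommRing k] {g : MvPolynomial (Fin 2) k} (hg : g.totalDegree ≤ 3) :
    ∃ c : ℕ → ℕ → k, g = C (c 0 0) + C (c 1 0) * X 0 + C (c 0 1) * X 1 + C (c 2 0) * X 0 ^ 2 +
      C (c 1 1) * X 0 * X 1 + C (c 0 2) * X 1 ^ 2 + C (c 3 0) * X 0 ^ 3 +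
      C (c 2 1) * X 0 ^ 2 * X 1 + C (c 1 2) * X 0 * X 1 ^ 2 + C (c 0 3) * X 1 ^ 3 ∧
      c 3 0 = g.coeff (Finsupp.single 0 3) ∧ c 0 3 = g.coeff (Finsupp.single 1 3) := by
  let c : ℕ → ℕ → k := fun i j => g.coeff (Finsupp.single 0 i + Finsupp.single 1 j)
  have e : ∀ d : Fin 2 →₀ ℕ, Finsupp.single 0 (d 0) + Finsupp.single 1 (d 1) = d := fun d => by
    ext i
    fin_cases i <;> simp
  have h1 : g = ∑ p ∈ ({(0, 0), (1, 0), (0, 1), (2, 0), (1, 1), (0, 2), (3, 0), (2, 1), (1, 2),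
      (0, 3)} : Finset (ℕ × ℕ)), C (c p.1 p.2) * X 0 ^ p.1 * X 1 ^ p.2 := by
    refine g.as_sum.trans (Finset.sum_of_injOn (fun d => (d 0, d 1)) (fun d _ d' _ h => ?_)
      (fun d hd => ?_) (fun p _ hp => ?_) fun d _ => ?_)
    · rw [← e d, ← e d', show d 0 = d' 0 from congrArg Prod.fst h,
        show d 1 = d' 1 from congrArg Prod.snd h]
    · have h2 := (le_totalDegree hd).trans hg
      rw [Finsupp.sum_fintype _ _ fun _ => rfl, Fin.sum_univ_two] at h2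
      simp only [Finset.coe_insert, Finset.coe_singleton, Set.mem_insert_iff,
        Set.mem_singleton_iff, Prod.mk.injEq]
      omega
    · have h2 : c p.1 p.2 = 0 := by
        by_contra h2
        exact hp ⟨_, mem_support_iff.2 h2, by simp⟩
      simp [h2]
    · simp only [c]
      rw [e, X_pow_eq_monomial, X_pow_eq_monomial, C_mul_monomial, monomial_mul, e, mul_one,
        mul_one]
  refine ⟨c, h1.trans ?_, by simp [c], by simp [c]⟩
  rw [Finset.sum_insert (by decide), Finset.sum_insert (by decide), Finset.sum_insert (by decide),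
    Finset.sum_insert (by decide), Finset.sum_insert (by decide), Finset.sum_insert (by decide),
    Finset.sum_insert (by decide), Finset.sum_insert (by decide), Finset.sum_insert (by decide),
    Finset.sum_singleton]
  ring

/-- With `A, D, B₁, B₂` the coefficients of `X ^ 3, Y ^ 3, X ^ 2 Y, X Y ^ 2` put `α = - B₂ / 2`,
`β = - B₁ / 2`, `l = m ^ 2 / A`; then `f(l s + α, m t + β) = l ^ 2 m ^ 2 F(s, t)`. -/
theorem exists_co {k K : Type} [Field k] [CharZero k] [Field K] (i : k →+* K)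
    {f : MvPolynomial (Fin 2) k} (hf : (f - X 0 ^ 2 * X 1 ^ 2).totalDegree ≤ 3)
    (h0 : f.coeff (Finsupp.single 0 3) ≠ 0) (h1 : f.coeff (Finsupp.single 1 3) ≠ 0) {m : K}
    (hm : m ^ 3 = i (f.coeff (Finsupp.single 1 3) * f.coeff (Finsupp.single 0 3) ^ 2)) :
    ∃ (a : Co K) (α β : k), ∀ (T : Type) [CommRing T] (κ : K →+* T) (s t : T),
      eval₂Hom (κ.comp i) ![κ (m ^ 2 / i (f.coeff (Finsupp.single 0 3))) * s + κ (i α),
        κ m * t + κ (i β)] f =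
        κ ((m ^ 2 / i (f.coeff (Finsupp.single 0 3))) ^ 2 * m ^ 2) * (a.map κ).F s t := by
  obtain ⟨c, hc, h30, h03⟩ := gn1_exp hf
  have e30 : f.coeff (Finsupp.single 0 3) = c 3 0 := by
    rw [h30, coeff_sub, X_pow_eq_monomial, X_pow_eq_monomial, monomial_mul, coeff_monomial,
      if_neg fun h => by simpa using DFunLike.congr_fun h 0, sub_zero]
  have e03 : f.coeff (Finsupp.single 1 3) = c 0 3 := by
    rw [h03, coeff_sub, X_pow_eq_monomial, X_pow_eq_monomial, monomial_mul, coeff_monomial,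
      if_neg fun h => by simpa using DFunLike.congr_fun h 0, sub_zero]
  rw [e30] at h0
  rw [e03] at h1
  rw [e30, e03, map_mul, map_pow] at hm
  rw [e30]
  have hA : i (c 3 0) ≠ 0 := (map_ne_zero i).2 h0
  have hD : i (c 0 3) ≠ 0 := (map_ne_zero i).2 h1
  have hm0 : m ≠ 0 := fun h =>
    mul_ne_zero hD (pow_ne_zero 2 hA) (by rw [← hm, h, zero_pow three_ne_zero])
  have h2 : (2 : K) ≠ 0 := by
    have := (map_ne_zero i).2 (two_ne_zero (α := k))
    rwa [map_ofNat] at this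
  obtain ⟨α, hα⟩ : ∃ α : k, 2 * α + c 1 2 = 0 := ⟨-c 1 2 / 2, by ring⟩
  obtain ⟨β, hβ⟩ : ∃ β : k, 2 * β + c 2 1 = 0 := ⟨-c 2 1 / 2, by ring⟩
  obtain ⟨l, hl⟩ : ∃ l, l = m ^ 2 / i (c 3 0) := ⟨_, rfl⟩
  rw [← hl]
  have hl0 : l ≠ 0 := by
    rw [hl]
    exact div_ne_zero (pow_ne_zero _ hm0) hA
  have hlA : i (c 3 0) * l = m ^ 2 := by
    rw [hl]
    field_simp
  have hmD : i (c 0 3) * m = l ^ 2 := by
    refine mul_left_cancel₀ (pow_ne_zero 2 hA) ?_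
    linear_combination -m * hm - (i (c 3 0) * l + m ^ 2) * hlA
  have hw : ∀ p : k, ∃ q : K, l ^ 2 * m ^ 2 * q = i p * l ^ 2 ∧
      ∃ q : K, l ^ 2 * m ^ 2 * q = i p * m ^ 2 ∧ ∃ q : K, l ^ 2 * m ^ 2 * q = i p * l ∧
      ∃ q : K, l ^ 2 * m ^ 2 * q = i p * m ∧ ∃ q : K, l ^ 2 * m ^ 2 * (2 * q) = i p * l * m ∧
      ∀ z, ∃ q : K, l ^ 2 * m ^ 2 * (q + z ^ 2) = i p := fun p =>
    ⟨i p / m ^ 2, by field_simp, i p / l ^ 2, by field_simp, i p / (l * m ^ 2), by field_simp,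
      i p / (l ^ 2 * m), by field_simp, i p / (2 * l * m), by field_simp,
      fun z => ⟨i p / (l ^ 2 * m ^ 2) - z ^ 2, by field_simp; ring⟩⟩
  obtain ⟨q0, hq0, -⟩ := hw (β ^ 2 + 3 * c 3 0 * α + c 2 1 * β + c 2 0)
  obtain ⟨-, -, q2, hq2, -⟩ := hw (α ^ 2 + 3 * c 0 3 * β + c 1 2 * α + c 0 2)
  obtain ⟨-, -, -, -, r0, hr0, -⟩ := hw (2 * α * β ^ 2 + 3 * c 3 0 * α ^ 2 + 2 * c 2 1 * α * β +
    c 1 2 * β ^ 2 + 2 * c 2 0 * α + c 1 1 * β + c 1 0)
  obtain ⟨-, -, -, -, -, -, r1, hr1, -⟩ := hw (2 * α ^ 2 * β + c 2 1 * α ^ 2 + 2 * c 1 2 * α * β +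
    3 * c 0 3 * β ^ 2 + c 1 1 * α + 2 * c 0 2 * β + c 0 1)
  obtain ⟨-, -, -, -, -, -, -, -, cc, hcc, -⟩ :=
    hw (4 * α * β + 2 * c 2 1 * α + 2 * c 1 2 * β + c 1 1)
  obtain ⟨-, -, -, -, -, -, -, -, -, -, he⟩ := hw (α ^ 2 * β ^ 2 + c 3 0 * α ^ 3 +
    c 2 1 * α ^ 2 * β + c 1 2 * α * β ^ 2 + c 0 3 * β ^ 3 + c 2 0 * α ^ 2 + c 1 1 * α * β +
    c 0 2 * β ^ 2 + c 1 0 * α + c 0 1 * β + c 0 0)
  obtain ⟨e, he⟩ := he cc
  refine ⟨⟨q0, cc, q2, r0, r1, e⟩, α, β, fun T _ κ s t => ?_⟩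
  have k1 := congrArg κ hq0
  have k2 := congrArg κ hq2
  have k3 := congrArg κ hr0
  have k4 := congrArg κ hr1
  have k5 := congrArg κ hcc
  have k6 := congrArg κ he
  have k7 := congrArg κ hlA
  have k8 := congrArg κ hmD
  have k9 := congrArg κ (congrArg i hα)
  have k10 := congrArg κ (congrArg i hβ)
  rw [eq_add_of_sub_eq hc]
  simp only [map_add, map_mul, map_pow, map_ofNat, map_zero] at k1 k2 k3 k4 k5 k6 k7 k8 k9 k10
  simp only [map_add, map_mul, map_pow, eval₂Hom_C, eval₂Hom_X', RingHom.comp_apply,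
    Matrix.cons_val_zero, Matrix.cons_val_one, Co.F, Co.map]
  linear_combination -s ^ 2 * k1 - t ^ 2 * k2 - s * k3 - t * k4 - s * t * k5 - k6 +
    κ l ^ 2 * s ^ 3 * k7 + κ m ^ 2 * t ^ 3 * k8 + κ l * κ m ^ 2 * s * t ^ 2 * k9 +
    κ l ^ 2 * κ m * s ^ 2 * t * k10

variable {k K : Type} [Field k] [Field K] {i : k →+* K} {f : MvPolynomial (Fin 2) k} {a : Co K}
  {l α m β c : K}

/-- The change of coordinates. -/
def Chg (i : k →+* K) (f : MvPolynomial (Fin 2) k) (a : Co K) (l α m β c : K) : Prop :=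
  l ≠ 0 ∧ m ≠ 0 ∧ c ≠ 0 ∧ ∀ (T : Type) [CommRing T] (κ : K →+* T) (s t : T),
    eval₂Hom (κ.comp i) ![κ l * s + κ α, κ m * t + κ β] f = κ c * (a.map κ).F s t

theorem Chg.prs (h : Chg i f a l α m β c) :
    Prs i a (Ideal.Quotient.mk (Ideal.span {f}) (X 0)) (Ideal.Quotient.mk (Ideal.span {f}) (X 1))
      l α m β := by
  obtain ⟨hl, hm, hc, h⟩ := h
  refine ⟨hl, hm, ?_, fun T _ κ s t h0 => ?_, fun T _ κ s t ρ h0 h1 h2 => ?_⟩
  · have h1 := congrArg (Subalgebra.map (Ideal.Quotient.mkₐ k (Ideal.span {f})))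
      (adjoin_range_X (R := k) (σ := Fin 2))
    rw [AlgHom.map_adjoin, Algebra.map_top,
      (AlgHom.range_eq_top _).2 (Ideal.Quotient.mkₐ_surjective k _), ← Set.range_comp,
      ← Set.image_univ, ← Finset.coe_univ, Finset.univ_fin2, Finset.coe_pair,
      Set.image_pair] at h1
    exact h1
  · refine ⟨Ideal.Quotient.lift _ (eval₂Hom (κ.comp i) ![κ l * s + κ α, κ m * t + κ β])
      fun g hg => ?_, RingHom.ext fun z => eval₂Hom_C _ _ z, eval₂Hom_X' _ _ 0,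
      eval₂Hom_X' _ _ 1⟩
    obtain ⟨q, rfl⟩ := Ideal.mem_span_singleton'.1 hg
    rw [map_mul, h, h0, mul_zero, mul_zero]
  · have h3 : eval₂Hom (κ.comp i) ![κ l * s + κ α, κ m * t + κ β] =
        ρ.comp (Ideal.Quotient.mk _) := by
      refine ringHom_ext (fun z => ?_) fun n => ?_
      · rw [eval₂Hom_C, ← h0]
        rfl
      · rw [eval₂Hom_X']
        fin_cases n
        exacts [h1.symm, h2.symm]
    have h4 := h T κ s t
    rw [h3, RingHom.comp_apply, Ideal.Quotient.eq_zero_iff_mem.2 (Ideal.mem_span_singleton_self f),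
      map_zero] at h4
    exact ((Ne.isUnit hc).map κ).mul_right_eq_zero.1 h4.symm

end Pool.Agent.Lib.MP_07b2d0_nt.G3
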