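import Pool.Agent.Lib.MP_07b2d0_nt.G3.Gn1

/-!
Smoothness and the torsion hypothesis in the normal form.
-/

set_option autoImplicit false

namespace Pool.Agent.Lib.MP_07b2d0_nt.G3

open NumberField Fh MvPolynomial

variable {k K : Type} [Field k] [Field K] {f : MvPolynomial (Fin 2) k} {a : Co K}
  {l α m β c : K}

theorem gn1b_chain {T : Type} [CommRing T] (κ : k →+* T) (z : Fin 2 → Polynomial T)
    (g : MvPolynomial (Fin 2) k) :
    Polynomial.derivative (eval₂Hom (Polynomial.C.comp κ) z g) =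
      eval₂Hom (Polynomial.C.comp κ) z (pderiv 0 g) * Polynomial.derivative (z 0) +
      eval₂Hom (Polynomial.C.comp κ) z (pderiv 1 g) * Polynomial.derivative (z 1) := by
  induction g using MvPolynomial.induction_on with
  | C a => simp
  | add p q hp hq =>
    simp only [map_add, hp, hq]
    ring
  | mul_X p n hp =>
    rw [map_mul, Polynomial.derivative_mul, hp, pderiv_mul, pderiv_mul]
    fin_cases n <;> simp <;> ring

theorem gn1b_ev {T : Type} [CommRing T] (κ : k →+* T) (p q : Polynomial T)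
    (g : MvPolynomial (Fin 2) k) :
    (eval₂Hom (Polynomial.C.comp κ) ![p, q] g).eval 0 = eval₂Hom κ ![p.eval 0, q.eval 0] g := by
  refine RingHom.congr_fun (f := (Polynomial.evalRingHom 0).comp
    (eval₂Hom (Polynomial.C.comp κ) ![p, q])) (ringHom_ext (fun z => ?_) fun n => ?_) g
  · simp
  · fin_cases n <;> simp

theorem gn1b_der {i : k →+* K} (h : Chg i f a l α m β c) {T : Type} [CommRing T] (κ : K →+* T)
    (s t : T) :
    κ l * eval₂Hom (κ.comp i) ![κ l * s + κ α, κ m * t + κ β] (pderiv 0 f) =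
      κ c * (a.map κ).Fs s t ∧
    κ m * eval₂Hom (κ.comp i) ![κ l * s + κ α, κ m * t + κ β] (pderiv 1 f) =
      κ c * (a.map κ).Ft s t := by
  have h1 := congrArg (fun p => (Polynomial.derivative p).eval 0)
    (h.2.2.2 _ (Polynomial.C.comp κ) (Polynomial.C s + Polynomial.X) (Polynomial.C t))
  have h2 := congrArg (fun p => (Polynomial.derivative p).eval 0)
    (h.2.2.2 _ (Polynomial.C.comp κ) (Polynomial.C s) (Polynomial.C t + Polynomial.X))
  simp only [RingHom.comp_assoc, gn1b_chain, Polynomial.eval_add, Polynomial.eval_mul,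
    gn1b_ev] at h1 h2
  simp [Co.F, Co.map, Polynomial.derivative_pow] at h1 h2
  simp only [Co.Fs, Co.Ft, Co.map, coe_eval₂Hom]
  constructor
  · linear_combination h1
  · linear_combination h2

/-- Use `sm_of_closure`, an embedding of the algebraic closure of `K` in that of `k`, and the
chain rule (apply `h` to the dual numbers). -/
theorem Chg.sm [Algebra k K] [Algebra.IsAlgebraic k K] (h : Chg (algebraMap k K) f a l α m β c)
    (hs : ∀ z : Fin 2 → AlgebraicClosure k, aeval z f = 0 → ∃ n, aeval z (pderiv n f) ≠ 0) :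
    a.Sm := by
  refine sm_of_closure fun s t h0 => ?_
  have : Algebra.IsAlgebraic k (AlgebraicClosure K) := Algebra.IsAlgebraic.trans k K _
  let ψ : AlgebraicClosure K →ₐ[k] AlgebraicClosure k := IsAlgClosed.lift
  let κ := algebraMap K (AlgebraicClosure K)
  have e : ∀ g : MvPolynomial (Fin 2) k, aeval ![ψ (κ l * s + κ α), ψ (κ m * t + κ β)] g =
      ψ (eval₂Hom (κ.comp (algebraMap k K)) ![κ l * s + κ α, κ m * t + κ β] g) := fun g => by
    refine RingHom.congr_fun (f := (aeval ![ψ (κ l * s + κ α), ψ (κ m * t + κ β)] :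
      MvPolynomial (Fin 2) k →ₐ[k] _).toRingHom) (g := ψ.toRingHom.comp (eval₂Hom
        (κ.comp (algebraMap k K)) ![κ l * s + κ α, κ m * t + κ β]))
      (ringHom_ext (fun z => ?_) fun n => ?_) g
    · change aeval _ (C z) = ψ (eval₂Hom _ _ (C z))
      rw [aeval_C, eval₂Hom_C, RingHom.comp_apply, ← IsScalarTower.algebraMap_apply, ψ.commutes]
    · fin_cases n <;> simp
  obtain ⟨n, hn⟩ := hs _ ((e f).trans (by rw [h.2.2.2, h0, mul_zero, map_zero]))
  rw [e, map_ne_zero] at hn
  obtain ⟨h1, h2⟩ := gn1b_der h κ s t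
  by_contra h3
  rw [not_or, not_not, not_not] at h3
  rw [h3.1, mul_zero, mul_eq_zero] at h1
  rw [h3.2, mul_zero, mul_eq_zero] at h2
  fin_cases n
  · exact hn (h1.resolve_left ((map_ne_zero κ).2 h.1))
  · exact hn (h2.resolve_left ((map_ne_zero κ).2 h.2.1))

theorem Chg.odd [Algebra k K] [Algebra.IsAlgebraic k K] (h : Chg (algebraMap k K) f a l α m β c)
    (hs : a.Sm) (hO : St.OddUnit (f.map (algebraMap k (AlgebraicClosure k)))) :
    Odd1 (a.up (AlgebraicClosure K)) := by
  obtain ⟨F, _, _, z, φ, h1, h2, h3, h4, h5, v₀, h6⟩ := hO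
  have : IsAlgClosure k (AlgebraicClosure K) := IsAlgClosure.ofAlgebraic k K _
  let e : AlgebraicClosure K ≃ₐ[k] AlgebraicClosure k := IsAlgClosure.equiv k _ _
  let _ : Algebra (AlgebraicClosure K) F :=
    ((algebraMap (AlgebraicClosure k) F).comp (e : AlgebraicClosure K →+* _)).toAlgebra
  have he : ∀ x, algebraMap (AlgebraicClosure K) F x = algebraMap _ F (e x) := fun _ => rfl
  let κ : K →+* F := (algebraMap (AlgebraicClosure K) F).comp (algebraMap K _)
  have hl : κ l ≠ 0 := (map_ne_zero κ).2 h.1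
  have hm : κ m ≠ 0 := (map_ne_zero κ).2 h.2.1
  obtain ⟨s, e0⟩ : ∃ s, κ l * s + κ α = z 0 := ⟨(z 0 - κ α) / κ l, by field_simp; ring⟩
  obtain ⟨t, e1⟩ : ∃ t, κ m * t + κ β = z 1 := ⟨(z 1 - κ β) / κ m, by field_simp; ring⟩
  refine ⟨F, inferInstance, inferInstance, s, t, φ, ⟨hs.map _, fun h7 => h1 ?_, ?_, ?_⟩, h4,
    fun v h7 h8 => h5 ⟨v.1, v.2.1, fun x => ?_⟩ fun n => ?_, ⟨v₀.1, v₀.2.1, fun x => v₀.2.2 _⟩, h6⟩
  · have h8 : IsAlgebraic (AlgebraicClosure K) (z 0) :=
      e0 ▸ ((isAlgebraic_algebraMap _).mul h7).add (isAlgebraic_algebraMap _)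
    exact (isAlgebraic_ringHom_iff_of_comp_eq (e : AlgebraicClosure K ≃+* AlgebraicClosure k)
      (RingHom.id F) Function.injective_id rfl).2 h8
  · have h7 := h.2.2.2 F κ s t
    have h8 : κ.comp (algebraMap k K) =
        (algebraMap (AlgebraicClosure k) F).comp (algebraMap k _) := RingHom.ext fun x => by
      rw [RingHom.comp_apply, RingHom.comp_apply, RingHom.comp_apply, he,
        ← IsScalarTower.algebraMap_apply, e.commutes]
    have h9 : ![z 0, z 1] = z := by
      funext n
      fin_cases n <;> rfl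
    rw [e0, e1, h8, h9, coe_eval₂Hom, ← eval₂_map, ← aeval_def, h3] at h7
    exact (mul_eq_zero.1 h7.symm).resolve_left ((map_ne_zero κ).2 h.2.2.1)
  · refine eq_top_iff.2 fun y _ => ?_
    have h7 : y ∈ IntermediateField.adjoin (AlgebraicClosure k) (Set.range z) :=
      h2 ▸ IntermediateField.mem_top
    have hs' := IntermediateField.subset_adjoin (AlgebraicClosure K) {s, t} (Or.inl rfl)
    have ht' := IntermediateField.subset_adjoin (AlgebraicClosure K) {s, t} (Or.inr rfl)
    refine (Subfield.closure_le (t := (IntermediateField.adjoin (AlgebraicClosure K)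
      {s, t}).toSubfield)).2 ?_ h7
    rintro _ (⟨x, rfl⟩ | ⟨n, rfl⟩)
    · rw [← e.apply_symm_apply x, ← he]
      exact IntermediateField.algebraMap_mem _ _
    · fin_cases n
      · exact e0 ▸ add_mem (mul_mem (IntermediateField.algebraMap_mem _ _) hs')
          (IntermediateField.algebraMap_mem _ _)
      · exact e1 ▸ add_mem (mul_mem (IntermediateField.algebraMap_mem _ _) ht')
          (IntermediateField.algebraMap_mem _ _)
  · rw [← e.apply_symm_apply x, ← he]
    exact v.2.2 _
  · fin_cases n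
    · exact e0 ▸ v.1.map_add_le ((v.1.map_mul _ _).trans_le (mul_le_one' (v.2.2 _) h7)) (v.2.2 _)
    · exact e1 ▸ v.1.map_add_le ((v.1.map_mul _ _).trans_le (mul_le_one' (v.2.2 _) h8)) (v.2.2 _)

end Pool.Agent.Lib.MP_07b2d0_nt.G3
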