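import Pool.Agent.Lib.MP_07b2d0_nt.G3.C1b
import Pool.Agent.Lib.MP_07b2d0_nt.G3.W0.Br
import Pool.Agent.Lib.MP_07b2d0_nt.Kh.TTate

/-!
Good reduction: a class whose double is fixed by inertia is fixed.
-/

set_option autoImplicit false

namespace Pool.Agent.Lib.MP_07b2d0_nt.G3

open CategoryTheory AlgebraicGeometry Polynomial NumberField WithZero Fh
open scoped MonObj IntermediateField

/-- `hf_core`, `nos'` (as in `nos_inertial'`), `half_iff`. -/
theorem half_of_isJ {k R Ω F : Type} [Field k] [NumberField k] [CommRing R] [Algebra k R]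
    [Field Ω] [IsAlgClosed Ω] [Algebra k Ω] [Field F] [Algebra Ω F] {N : ℕ}
    {A : Over (Spec (.of (ON k N)))} [GrpObj A] [IsCommMonObj A] [IsProper A.hom]
    {j : sp ((algebraMap k R).comp (algebraMap (ON k N) k)) ⟶ A} {X₀ : R}
    (hJ : Kh.IsJ (algebraMap (ON k N) k) X₀ A j) (ρ : R →+* F)
    (hρ : ∀ c, ρ (algebraMap k _ c) = algebraMap Ω F (algebraMap k Ω c))
    (hx : Transcendental Ω (ρ X₀)) (ht : IntermediateField.adjoin Ω (Set.range ρ) = ⊤)
    (hf : FiniteDimensional Ω⟮ρ X₀⟯ F)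
    {V : ValuationSubring Ω} {σ : Ω ≃+* Ω} {S : F ≃+* F}
    (h : ∀ c, S (algebraMap Ω F c) = algebraMap Ω F (σ c)) (hs : ∀ a, S (ρ a) = ρ a)
    (hN : (N : Ω)⁻¹ ∈ V) (h2 : (2 : Ω)⁻¹ ∈ V) (hI : Inr V σ)
    (hσ : ∀ c, σ (algebraMap k Ω c) = algebraMap k Ω c) : Half σ S h := by
  have : CharZero Ω := charZero_of_injective_algebraMap (algebraMap k Ω).injective
  have := isFF_of hx hf
  have hB : ∀ c : ON k N, algebraMap k Ω c ∈ V := fun ⟨c, hc⟩ => by
    induction hc using Algebra.adjoin_induction with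
    | mem a ha =>
      change algebraMap k Ω a ∈ V
      rwa [ha, map_inv₀, map_natCast]
    | algebraMap a =>
      obtain ⟨z, hz⟩ := IsIntegrallyClosed.algebraMap_eq_of_integral (R := V) (K := Ω)
        ((a.2.map (algebraMap k Ω).toIntAlgHom).tower_top)
      exact (show (z : Ω) = _ from hz) ▸ z.2
    | add a b _ _ ha hb => exact map_add (algebraMap k Ω) a b ▸ add_mem ha hb
    | mul a b _ _ ha hb => exact map_mul (algebraMap k Ω) a b ▸ mul_mem ha hb
  refine (half_iff ⟨S, σ, h⟩).2 (hf_core hJ ρ hρ hx ht _ hs (RingHom.ext fun _ => hσ _)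
    fun P hP => ?_)
  exact nos' V (((algebraMap k Ω).comp (algebraMap (ON k N) k)).codRestrict V hB) _
    ((σ : Ω →+* Ω).restrict V V fun z => (hI.stab z).2) (fun _ => rfl)
    (RingHom.ext fun c => Subtype.ext (hσ _))
    (fun a => Ideal.Quotient.eq.2 ((V.valuation_lt_one_iff _).2 (hI.res a.1 a.2)))
    (.of_mul_eq_one ⟨_, h2⟩ (Subtype.ext (mul_inv_cancel₀ (G₀ := Ω) two_ne_zero))) _ hP

theorem good_of_isJ {k K R : Type} [Field k] [NumberField k] [Field K] [CommRing R] [Algebra k R]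
    {N : ℕ} {A : Over (Spec (.of (ON k N)))} [GrpObj A] [IsCommMonObj A] [IsProper A.hom]
    {j : sp ((algebraMap k R).comp (algebraMap (ON k N) k)) ⟶ A} {X₀ Y₀ : R}
    (hJ : Kh.IsJ (algebraMap (ON k N) k) X₀ A j) {i : k →+* K} {a : Co K} {l α m β : K}
    (hP : Prs i a X₀ Y₀ l α m β) (hN : 0 < N) : Good (2 * N) a := by
  intro Ω F _ _ _ _ _ s t V σ S h hC hV hI hσ hs ht
  let : Algebra k Ω := ((algebraMap K Ω).comp i).toAlgebra
  have : CharZero Ω := charZero_of_injective_algebraMap (algebraMap k Ω).injective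
  obtain ⟨ρ, r1, r2, r3⟩ := hP.lift F ((algebraMap Ω F).comp (algebraMap K Ω)) s t hC.eq
  simp only [RingHom.comp_apply] at r2 r3
  have mem : ∀ {M : IntermediateField Ω F} {l α : K} {s : F}, l ≠ 0 →
      algebraMap Ω F (algebraMap K Ω l) * s + algebraMap Ω F (algebraMap K Ω α) ∈ M → s ∈ M :=
    fun {M l α s} h0 hM => by
      have := M.mul_mem (M.algebraMap_mem (algebraMap K Ω l)⁻¹)
        (M.sub_mem hM (M.algebraMap_mem (algebraMap K Ω α)))
      rwa [add_sub_cancel_right, ← mul_assoc, ← map_mul, inv_mul_cancel₀ (by simpa using h0),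
        map_one, one_mul] at this
  have e : Ω⟮ρ X₀⟯ = Ω⟮s⟯ := le_antisymm
    (IntermediateField.adjoin_simple_le_iff.2 (r2 ▸ add_mem (mul_mem (Ω⟮s⟯.algebraMap_mem _)
      (IntermediateField.mem_adjoin_simple_self _ _)) (Ω⟮s⟯.algebraMap_mem _)))
    (IntermediateField.adjoin_simple_le_iff.2 (mem (α := α) hP.l0 (by
      rw [← r2]; exact IntermediateField.mem_adjoin_simple_self _ _)))
  have N0 : (N : Ω) ≠ 0 := Nat.cast_ne_zero.2 hN.ne'
  refine half_of_isJ hJ ρ (fun c => DFunLike.congr_fun r1 c) (fun hx => hC.trans ?_) ?_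
    (e ▸ hC.fd) h (fun z => ?_) ?_ ?_ hI fun c => hσ _
  · have := IntermediateField.adjoin.finiteDimensional hx.isIntegral
    exact IntermediateField.isAlgebraic_iff.1 (Algebra.IsAlgebraic.isAlgebraic
      (⟨s, e ▸ IntermediateField.mem_adjoin_simple_self _ _⟩ : Ω⟮ρ X₀⟯))
  · refine top_unique (hC.top ▸ IntermediateField.adjoin_le_iff.2 ?_)
    rintro _ (rfl | rfl)
    · exact mem hP.l0 (IntermediateField.subset_adjoin _ _ ⟨_, r2⟩)
    · exact mem hP.m0 (IntermediateField.subset_adjoin _ _ ⟨_, r3⟩)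
  · have hz : z ∈ Algebra.adjoin k {X₀, Y₀} := hP.gen ▸ Algebra.mem_top
    induction hz using Algebra.adjoin_induction with
    | mem a ha =>
      rcases ha with rfl | rfl
      · rw [r2, map_add, map_mul, h, h, hσ, hσ, hs]
      · rw [r3, map_add, map_mul, h, h, hσ, hσ, ht]
    | algebraMap c =>
      rw [show ρ (algebraMap k R c) = algebraMap Ω F (algebraMap K Ω (i c)) from
        DFunLike.congr_fun r1 c, h, hσ]
    | add a b _ _ ha hb => rw [map_add, map_add, ha, hb]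
    | mul a b _ _ ha hb => rw [map_mul, map_mul, ha, hb]
  · rw [show (N : Ω)⁻¹ = ((2 * N : ℕ) : Ω)⁻¹ * (2 : ℕ) by push_cast; field_simp]
    exact mul_mem hV (natCast_mem V 2)
  · rw [show (2 : Ω)⁻¹ = ((2 * N : ℕ) : Ω)⁻¹ * N by push_cast; field_simp]
    exact mul_mem hV (natCast_mem V N)

end Pool.Agent.Lib.MP_07b2d0_nt.G3
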