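import Pool.Agent.Lib.MP_07b2d0_nt.G3.Gn1b
import Pool.Agent.Lib.MP_07b2d0_nt.G3.U0
import Pool.Agent.Lib.MP_07b2d0_nt.G3.Ar2

/-!
The field of the normal form is unramified.
-/

set_option autoImplicit false

namespace Pool.Agent.Lib.MP_07b2d0_nt.G3

open CategoryTheory AlgebraicGeometry Polynomial NumberField Fh

open scoped IntermediateField in
theorem gn2_lin {Ω F : Type} [Field Ω] [Field F] [Algebra Ω F] {s : F} {l : Ω} (α : Ω)
    (hl : l ≠ 0) : Ω⟮algebraMap Ω F l * s + algebraMap Ω F α⟯ = Ω⟮s⟯ ∧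
      (Transcendental Ω s → Transcendental Ω (algebraMap Ω F l * s + algebraMap Ω F α)) := by
  have e : s = (algebraMap Ω F l * s + algebraMap Ω F α - algebraMap Ω F α) *
      algebraMap Ω F l⁻¹ := by
    have := (map_ne_zero (algebraMap Ω F)).2 hl
    rw [map_inv₀]
    field_simp
    ring
  refine ⟨le_antisymm (IntermediateField.adjoin_simple_le_iff.2 ?_)
    (IntermediateField.adjoin_simple_le_iff.2 ?_), fun hs h => hs ?_⟩
  · exact add_mem (mul_mem (IntermediateField.algebraMap_mem _ _)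
      (IntermediateField.mem_adjoin_simple_self _ _)) (IntermediateField.algebraMap_mem _ _)
  · have := mul_mem (sub_mem (IntermediateField.mem_adjoin_simple_self Ω
      (algebraMap Ω F l * s + algebraMap Ω F α)) (IntermediateField.algebraMap_mem _ α))
      (IntermediateField.algebraMap_mem _ l⁻¹)
    rwa [← e] at this
  · have := (h.sub (isAlgebraic_algebraMap α)).mul (isAlgebraic_algebraMap l⁻¹)
    rwa [← e] at this

open scoped IntermediateField in
theorem gn2_half {k R Ω Ω' F : Type} [Field k] [NumberField k] [CommRing R] [Algebra k R]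
    [Field Ω] [Field Ω'] [IsAlgClosed Ω'] [Algebra k Ω'] [Field F] [Algebra Ω' F] {N : ℕ}
    {A : Over (Spec (.of (ON k N)))} [GrpObj A] [IsCommMonObj A] [IsProper A.hom]
    {j : Fh.sp ((algebraMap k R).comp (algebraMap (ON k N) k)) ⟶ A} {X₀ Y₀ : R}
    (hJ : Kh.IsJ (algebraMap (ON k N) k) X₀ A j) {i : k →+* Ω} {a : Co Ω} {l α m β : Ω}
    (hP : Prs i a X₀ Y₀ l α m β) (ε : Ω →+* Ω') (hε : ∀ c, ε (i c) = algebraMap k Ω' c) {s t : F}
    (hC : Cv (a.map ε) s t) {V : ValuationSubring Ω'} {σ : Ω' ≃+* Ω'} {S : F ≃+* F}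
    (h : ∀ c, S (algebraMap Ω' F c) = algebraMap Ω' F (σ c))
    (h1 : S (algebraMap Ω' F (ε l) * s + algebraMap Ω' F (ε α)) =
      algebraMap Ω' F (ε l) * s + algebraMap Ω' F (ε α))
    (h2 : S (algebraMap Ω' F (ε m) * t + algebraMap Ω' F (ε β)) =
      algebraMap Ω' F (ε m) * t + algebraMap Ω' F (ε β))
    (hN : (N : Ω')⁻¹ ∈ V) (h0 : (2 : Ω')⁻¹ ∈ V) (hI : Inr V σ)
    (hσ : ∀ c, σ (algebraMap k Ω' c) = algebraMap k Ω' c) : Half σ S h := by
  obtain ⟨ρ, r0, r1, r2⟩ := hP.lift F ((algebraMap Ω' F).comp ε) s t hC.eq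
  replace r1 : ρ X₀ = algebraMap Ω' F (ε l) * s + algebraMap Ω' F (ε α) := r1
  replace r2 : ρ Y₀ = algebraMap Ω' F (ε m) * t + algebraMap Ω' F (ε β) := r2
  have hρ : ∀ c, ρ (algebraMap k R c) = algebraMap Ω' F (algebraMap k Ω' c) := fun c =>
    (RingHom.congr_fun r0 c).trans (congrArg (algebraMap Ω' F) (hε c))
  obtain ⟨a1, a2⟩ := gn2_lin (s := s) (ε α) ((map_ne_zero ε).2 hP.l0)
  obtain ⟨b1, -⟩ := gn2_lin (s := t) (ε β) ((map_ne_zero ε).2 hP.m0)
  rw [← r1] at a1 a2 h1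
  rw [← r2] at b1 h2
  have k1 : ∀ z : R, Ω'⟮ρ z⟯ ≤ IntermediateField.adjoin Ω' (Set.range ρ) := fun z =>
    IntermediateField.adjoin_simple_le_iff.2 (IntermediateField.subset_adjoin _ _ ⟨z, rfl⟩)
  refine half_of_isJ hJ ρ hρ (a2 hC.trans) ?_ (a1 ▸ hC.fd) h (fun z => ?_) hN h0 hI hσ
  · rw [← top_le_iff, ← hC.top, IntermediateField.adjoin_le_iff]
    rintro _ (rfl | rfl)
    · exact k1 X₀ (a1 ▸ IntermediateField.mem_adjoin_simple_self _ _)
    · exact k1 Y₀ (b1 ▸ IntermediateField.mem_adjoin_simple_self _ _)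
  · have hz : z ∈ Algebra.adjoin k {X₀, Y₀} := hP.gen ▸ Algebra.mem_top
    induction hz using Algebra.adjoin_induction with
    | mem x hx =>
      rcases hx with rfl | rfl
      exacts [h1, h2]
    | algebraMap c => rw [hρ, h, hσ]
    | add x y _ _ hx hy => rw [map_add, map_add, hx, hy]
    | mul x y _ _ hx hy => rw [map_mul, map_mul, hx, hy]

theorem gn2_act {k R Ω F : Type} [Field k] [CommRing R] [Algebra k R] [Field Ω] [Algebra k Ω]
    [Field F] [Algebra Ω F] {X₀ Y₀ : R} {a : Co Ω} {l m : Ω} {α β : k}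
    (hP : Prs (algebraMap k Ω) a X₀ Y₀ l (algebraMap k Ω α) m (algebraMap k Ω β)) {s t : F}
    (hC : Cv a s t) (τ : Ω ≃ₐ[k] Ω) : ∃ f : F →+* F,
      (∀ c, f (algebraMap Ω F c) = algebraMap Ω F (τ c)) ∧
        f s = algebraMap Ω F (l / τ l) * s ∧ f t = algebraMap Ω F (m / τ m) * t := by
  obtain ⟨ρ, r0, r1, r2⟩ := hP.lift F (algebraMap Ω F) s t hC.eq
  have l0 : τ l ≠ 0 := (map_ne_zero τ).2 hP.l0
  have m0 : τ m ≠ 0 := (map_ne_zero τ).2 hP.m0
  refine hC.lift (τ : Ω →+* Ω) ?_ (hP.eq F ((algebraMap Ω F).comp (τ : Ω →+* Ω)) _ _ ρ ?_ ?_ ?_)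
  · simpa using (gn2_lin (s := s) 0 (div_ne_zero hP.l0 l0)).2 hC.trans
  · rw [r0]
    exact RingHom.ext fun c => congrArg (algebraMap Ω F) (τ.commutes c).symm
  · change _ = algebraMap Ω F (τ l) * _ + algebraMap Ω F (τ _)
    rw [r1, τ.commutes, ← mul_assoc, ← map_mul, mul_div_cancel₀ _ l0]
  · change _ = algebraMap Ω F (τ m) * _ + algebraMap Ω F (τ _)
    rw [r2, τ.commutes, ← mul_assoc, ← map_mul, mul_div_cancel₀ _ m0]

theorem gn2_equiv {k R Ω F : Type} [Field k] [CommRing R] [Algebra k R] [Field Ω] [Algebra k Ω]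
    [Field F] [Algebra Ω F] {X₀ Y₀ : R} {a : Co Ω} {l m : Ω} {α β : k}
    (hP : Prs (algebraMap k Ω) a X₀ Y₀ l (algebraMap k Ω α) m (algebraMap k Ω β)) {s t : F}
    (hC : Cv a s t) (τ : Ω ≃ₐ[k] Ω) : ∃ S : F ≃+* F,
      (∀ c, S (algebraMap Ω F c) = algebraMap Ω F (τ c)) ∧
        S s = algebraMap Ω F (l / τ l) * s ∧ S t = algebraMap Ω F (m / τ m) * t := by
  obtain ⟨f, f0, f1, f2⟩ := gn2_act hP hC τ
  obtain ⟨g, g0, g1, g2⟩ := gn2_act hP hC τ.symm
  have key : ∀ {u : Ω} {z : F}, u ≠ 0 → f z = algebraMap Ω F (u / τ u) * z →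
      g z = algebraMap Ω F (u / τ.symm u) * z → f (g z) = z := fun {u z} hu e1 e2 => by
    have : τ u ≠ 0 := (map_ne_zero τ).2 hu
    rw [e2, map_mul, f0, e1, ← mul_assoc, ← map_mul, map_div₀, τ.apply_symm_apply,
      div_mul_div_cancel₀ hu, div_self this, map_one, one_mul]
  have e : f.comp g = RingHom.id F := hC.ext
    (fun c => by rw [RingHom.comp_apply, g0, f0, τ.apply_symm_apply, RingHom.id_apply])
    (key hP.l0 f1 g1) (key hP.m0 f2 g2)
  exact ⟨RingEquiv.ofBijective f ⟨f.injective, fun z => ⟨g z, RingHom.congr_fun e z⟩⟩, f0, f1, f2⟩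

theorem gn2_inv {Ω : Type} [Field Ω] [CharZero Ω] {V : ValuationSubring Ω} {M n : ℕ} (h0 : M ≠ 0)
    (h : (M : Ω)⁻¹ ∈ V) (hn : n ∣ M) : (n : Ω)⁻¹ ∈ V := by
  obtain ⟨d, rfl⟩ := hn
  have : (d : Ω) ≠ 0 := Nat.cast_ne_zero.2 (right_ne_zero_of_mul h0)
  rw [show (n : Ω)⁻¹ = ((n * d : ℕ) : Ω)⁻¹ * d by
    push_cast
    field_simp]
  exact mul_mem h (natCast_mem V d)

theorem gn2_mem {K Ω : Type} [Field K] [NumberField K] [Field Ω] [CharZero Ω] (ι : K →+* Ω)
    {V : ValuationSubring Ω} {M : ℕ} (h0 : M ≠ 0) (h : (M : Ω)⁻¹ ∈ V) {z : K} (hz : z ∈ RN K M) :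
    ι z ∈ V := by
  obtain ⟨n, hn⟩ := (mem_RN_iff h0).1 hz
  obtain ⟨y, hy⟩ := IsIntegrallyClosed.algebraMap_eq_of_integral (R := V) (K := Ω)
    ((hn.map ι.toIntAlgHom).tower_top)
  replace hy : (y : Ω) = ι ((M : K) ^ n * z) := hy
  have : (M : Ω) ≠ 0 := Nat.cast_ne_zero.2 h0
  rw [show ι z = (M : Ω)⁻¹ ^ n * y by
    rw [hy, map_mul, map_pow, map_natCast, ← mul_assoc, ← mul_pow, inv_mul_cancel₀ this, one_pow,
      one_mul]]
  exact mul_mem (pow_mem h n) y.2

/-- The parameters are units outside `2 N`. -/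
theorem gn2_unit {k R : Type} [Field k] [NumberField k] [CommRing R] [Algebra k R] {N : ℕ}
    {A : Over (Spec (.of (ON k N)))} [GrpObj A] [IsCommMonObj A] [IsProper A.hom]
    {j : Fh.sp ((algebraMap k R).comp (algebraMap (ON k N) k)) ⟶ A} {X₀ Y₀ : R}
    (hJ : Kh.IsJ (algebraMap (ON k N) k) X₀ A j) (hN : 0 < N) {a : Co (AlgebraicClosure k)}
    {l α m β : AlgebraicClosure k} (hP : Prs (algebraMap k _) a X₀ Y₀ l α m β) (hs : a.Sm)
    (hO : Odd1 a) {x : Fin 6 → AlgebraicClosure k} {g : AlgebraicClosure k} (hx : Par a x g)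
    {V : ValuationSubring (AlgebraicClosure k)} (hV : ((2 * N : ℕ) : AlgebraicClosure k)⁻¹ ∈ V) :
    x 0 ∈ V ∧ (x 0)⁻¹ ∈ V := by
  have h0 : 2 * N ≠ 0 := by omega
  let T : Set (AlgebraicClosure k) := Set.range x ∪ {g, l, α, m, β}
  have : Finite T := ((Set.finite_range x).union (Set.toFinite _)).to_subtype
  let K := IntermediateField.adjoin k T
  have : FiniteDimensional k K := IntermediateField.finiteDimensional_adjoin fun z _ =>
    (Algebra.IsAlgebraic.isAlgebraic z).isIntegral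
  have : NumberField K := NumberField.of_module_finite k K
  have hT : ∀ z ∈ T, ∃ y : K, algebraMap K (AlgebraicClosure k) y = z := fun z hz =>
    ⟨⟨z, IntermediateField.subset_adjoin _ _ hz⟩, rfl⟩
  choose x' hx' using fun i => hT (x i) (.inl ⟨i, rfl⟩)
  obtain ⟨g', hg⟩ := hT g (.inr (by simp))
  obtain ⟨l', hl⟩ := hT l (.inr (by simp))
  obtain ⟨α', hα⟩ := hT α (.inr (by simp))
  obtain ⟨m', hm⟩ := hT m (.inr (by simp))
  obtain ⟨β', hβ⟩ := hT β (.inr (by simp))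
  let ι := algebraMap K (AlgebraicClosure k)
  let a' : Co K := coR 4⁻¹ g' g'⁻¹ (es x' 1) (es x' 2) (es x' 3) (es x' 4) (es x' 5)
  have e1 : (fun i => ι (x' i)) = x := funext hx'
  have hx0 : Par a' x' g' := ⟨fun h => hx.ne (by rw [← hg, h, map_zero]), ι.injective (by
    rw [map_prod, map_pow, hg, ← hx.prod, ← e1]), rfl⟩
  have ha : a'.map ι = a := by
    have := (hx0.map ι).co
    rw [e1, hg] at this
    exact this.trans hx.co.symm
  have up : ∀ (Ω : Type) [Field Ω] [Algebra K Ω] (ε : AlgebraicClosure k →ₐ[K] Ω),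
      a.map (ε : AlgebraicClosure k →+* Ω) = a'.up Ω := fun Ω _ _ ε => by
    rw [← ha, Co.map_map, ε.comp_algebraMap]
  have hG : Good (2 * N) a' := by
    intro Ω F _ _ _ _ _ s t V σ S h hC hV hI hσ S1 S2
    let _ : Algebra k Ω := ((algebraMap K Ω).comp (algebraMap k K)).toAlgebra
    let ε : AlgebraicClosure k →ₐ[K] Ω := IsAlgClosed.lift
    have : CharZero Ω := charZero_of_injective_algebraMap (algebraMap K Ω).injective
    refine gn2_half hJ hP (ε : AlgebraicClosure k →+* Ω) (fun c => ε.commutes (algebraMap k K c))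
      (up Ω ε ▸ hC) h ?_ ?_ (gn2_inv h0 hV (Dvd.intro_left 2 rfl))
      (by simpa using gn2_inv (n := 2) h0 hV ⟨N, rfl⟩) hI fun c => hσ _
    · rw [← hl, ← hα]
      simp only [map_add, map_mul, h, S1, RingHom.coe_coe, ε.commutes, hσ]
    · rw [← hm, ← hβ]
      simp only [map_add, map_mul, h, S2, RingHom.coe_coe, ε.commutes, hσ]
  have hs' : a'.Sm := sm_of_closure fun s t h1 => by
    by_contra hc
    push Not at hc
    let ε : AlgebraicClosure k →ₐ[K] AlgebraicClosure K := IsAlgClosed.lift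
    rw [← up _ ε] at h1 hc
    exact hs.not_sing _ h1 hc.1 hc.2
  have hO' : Odd1 (a'.up (AlgebraicClosure K)) := by
    have : IsAlgClosure K (AlgebraicClosure k) := ⟨inferInstance, inferInstance⟩
    let e := IsAlgClosure.equiv K (AlgebraicClosure k) (AlgebraicClosure K)
    rw [← up _ e.toAlgHom]
    exact hO.map e.toRingEquiv
  have hu := fun v hv => (units_main hG hs' (Dvd.intro N rfl) h0 hO' hx0 v hv).1 0
  rw [← hx' 0, ← map_inv₀]
  exact ⟨gn2_mem ι h0 hV fun v hv => (hu v hv).le,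
    gn2_mem ι h0 hV fun v hv => by rw [map_inv₀, hu v hv, inv_one]⟩

/-- Let `S` be the semilinear extension of `σ` that fixes `R` (`Cv.lift`, `Prs.eq`); it multiplies
`s` by `l / σ l` and `t` by `m / σ m`.  By `half_of_isJ`, `Half.tate`, `Cv.fix_slope` we get
`σ (x 0) = ζ x 0` with `ζ = σ m / m` a cube root of unity.  By `units_main` over a number field
containing the parameters and `mem_RN_iff`, `x 0` is a unit of `V`; hence `ζ ≡ 1`. -/
theorem fix_cube {k R : Type} [Field k] [NumberField k] [CommRing R] [Algebra k R] {N : ℕ}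
    {A : Over (Spec (.of (ON k N)))} [GrpObj A] [IsCommMonObj A] [IsProper A.hom]
    {j : Fh.sp ((algebraMap k R).comp (algebraMap (ON k N) k)) ⟶ A} {X₀ Y₀ : R}
    (hJ : Kh.IsJ (algebraMap (ON k N) k) X₀ A j) (hN : 0 < N) {a : Co (AlgebraicClosure k)}
    {m : AlgebraicClosure k} {c d α β : k} (hc : c ≠ 0) (hm : m ^ 3 = algebraMap k _ d)
    (hP : Prs (algebraMap k _) a X₀ Y₀ (m ^ 2 / algebraMap k _ c) (algebraMap k _ α) m
      (algebraMap k _ β)) (hs : a.Sm) (hO : Odd1 a)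
    {σ : AlgebraicClosure k ≃ₐ[k] AlgebraicClosure k}
    (hσ : Ks.Inertial k (AlgebraicClosure k) (6 * N) σ) : σ m = m := by
  have h0 : 6 * N ≠ 0 := by omega
  obtain ⟨V, hV, hI⟩ := ar2_inr hσ
  obtain ⟨F, _, _, s, t, hC⟩ := exists_cv hs
  obtain ⟨S, hS, S1, S2⟩ := gn2_equiv hP hC σ
  obtain ⟨x, g, hx⟩ := exists_par a
  have l0 := hP.l0
  have m0 := hP.m0
  have l1 := (map_ne_zero σ).2 l0
  have m1 := (map_ne_zero σ).2 m0
  have H : Half σ.toRingEquiv S hS := by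
    refine gn2_half hJ hP (RingHom.id _) (fun _ => rfl) hC hS ?_ ?_
      (gn2_inv h0 hV (Dvd.intro_left 6 rfl)) ?_ hI σ.commutes
    · rw [RingHom.id_apply, RingHom.id_apply, map_add, map_mul, hS, hS, S1, σ.commutes,
        ← mul_assoc, ← map_mul, mul_div_cancel₀ _ l1]
    · rw [RingHom.id_apply, RingHom.id_apply, map_add, map_mul, hS, hS, S2, σ.commutes,
        ← mul_assoc, ← map_mul, mul_div_cancel₀ _ m1]
    · simpa using gn2_inv (n := 2) h0 hV ⟨3 * N, by ring⟩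
  have e := hC.fix_slope (σ := σ.toRingEquiv) hx (fun φ => H.tate hC.trans hC.fd) hS
    (div_ne_zero l0 l1) (div_ne_zero m0 m1) S1 S2 0
  obtain ⟨u1, u2⟩ := gn2_unit hJ hN hP hs hO hx (gn2_inv h0 hV ⟨3, by ring⟩)
  have x0 := hx.x_ne 0
  have c0 := (map_ne_zero (algebraMap k (AlgebraicClosure k))).2 hc
  have e1 : σ (x 0) = x 0 * (σ m / m) := by
    change σ (x 0) * _ = _ at e
    rw [map_div₀, map_pow, σ.commutes] at e
    field_simp at e ⊢
    linear_combination e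
  have e2 : (σ m / m) ^ 3 = 1 := by
    rw [div_pow, ← map_pow, hm, σ.commutes, ← hm, div_self (pow_ne_zero _ m0)]
  rw [← div_eq_one_iff_eq m0]
  generalize σ m / m = ζ at e1 e2
  by_contra hne
  have e3 : (3 : AlgebraicClosure k) = (ζ - 1) * -(ζ - 1 + 3) :=
    mul_left_cancel₀ (sub_ne_zero.2 hne) (by linear_combination e2)
  have v1 : V.valuation (ζ - 1) < 1 := by
    have := hI.res _ u1
    change V.valuation (σ (x 0) - x 0) < 1 at this
    rw [show ζ - 1 = (σ (x 0) - x 0) * (x 0)⁻¹ by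
      rw [e1]
      field_simp, map_mul]
    exact mul_lt_one_of_lt_of_le this ((V.valuation_le_one_iff _).2 u2)
  have v2 : V.valuation (-(ζ - 1 + 3)) ≤ 1 := (V.valuation_le_one_iff _).2
    (neg_mem (add_mem ((V.valuation_le_one_iff _).1 v1.le) (ofNat_mem V 3)))
  have v3 : V.valuation (3 : AlgebraicClosure k)⁻¹ ≤ 1 := (V.valuation_le_one_iff _).2
    (by simpa using gn2_inv (n := 3) h0 hV ⟨2 * N, by ring⟩)
  have v4 := mul_lt_one_of_lt_of_le (mul_lt_one_of_lt_of_le v1 v2) v3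
  rw [← map_mul, ← e3, ← map_mul, mul_inv_cancel₀ three_ne_zero, map_one] at v4
  exact v4.false

end Pool.Agent.Lib.MP_07b2d0_nt.G3
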