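import Pool.Agent.Lib.MP_07b2d0_nt.G3.HD
import Pool.Agent.Lib.MP_07b2d0_nt.G3.C1b
import Pool.Agent.Lib.MP_07b2d0_nt.Fh.AInd
import Pool.Agent.Lib.MP_07b2d0_nt.Kh.GDel
import Pool.Agent.Lib.MP_07b2d0_nt.Kh.GCon

/-!
The function field of the third power of the curve.
-/

set_option autoImplicit false

namespace Pool.Agent.Lib.MP_07b2d0_nt.G3

open Polynomial Fh

variable {L E : Type} [Field L] [Field E] [Algebra L E] {a : Co L} {s t : Fin 3 → E}

theorem h1_root {Ω : Type} [Field Ω] [IsAlgClosed Ω] (b : Co Ω) (x : Ω) : ∃ y, b.F x y = 0 := by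
  obtain ⟨y, hy⟩ := IsAlgClosed.exists_root (X ^ 3 + C (x ^ 2 + b.q2) * X ^ 2 +
    C (2 * b.c * x + b.r1) * X + C (x ^ 3 + b.q0 * x ^ 2 + b.r0 * x + b.c ^ 2 + b.e))
    (ne_of_eq_of_ne (b := 3) (by compute_degree!) (by decide))
  refine ⟨y, ?_⟩
  simp only [IsRoot.def, eval_add, eval_mul, eval_pow, eval_X, eval_C] at hy
  simp only [Co.F]
  linear_combination hy

theorem h1_val {K : IntermediateField L E} {x y : K} (h : (a.up E).F x y = 0) :
    (a.up K).F x y = 0 :=
  Subtype.ext ((Co.map_F (a.up K) (algebraMap K E) x y).trans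
    ((congrArg (fun b : Co E => b.F x y) (Co.up_up a K E)).trans h))

/-- Compare `exists_gen'`, `Kh.exists_KG`: the `t k` are roots of monic cubics in the algebraic
closure of the field of rational functions. -/
theorem exists_gn (hs : a.Sm) :
    ∃ (E : Type) (_ : Field E) (_ : Algebra L E) (s t : Fin 3 → E), Gn a s t := by
  let Ω := AlgebraicClosure (FractionRing (MvPolynomial (Fin 3) L))
  let x : Fin 3 → Ω := fun i => algebraMap (MvPolynomial (Fin 3) L) Ω (MvPolynomial.X i)
  have hx : AlgebraicIndependent L x :=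
    (MvPolynomial.algebraicIndependent_X (Fin 3) L).map' (f := IsScalarTower.toAlgHom L _ Ω)
      ((algebraMap (FractionRing (MvPolynomial (Fin 3) L)) Ω).injective.comp
        (IsFractionRing.injective (MvPolynomial (Fin 3) L) _))
  choose y hy using fun i => h1_root (a.up Ω) (x i)
  let E := IntermediateField.adjoin L (Set.range x ∪ Set.range y)
  refine ⟨E, inferInstance, inferInstance,
    fun i => ⟨x i, IntermediateField.subset_adjoin _ _ (Or.inl ⟨i, rfl⟩)⟩,
    fun i => ⟨y i, IntermediateField.subset_adjoin _ _ (Or.inr ⟨i, rfl⟩)⟩,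
    hs, AlgebraicIndependent.of_comp E.val hx, fun i => h1_val (hy i), ?_⟩
  apply IntermediateField.lift_injective
  rw [IntermediateField.lift_adjoin, IntermediateField.lift_top, Set.image_union,
    ← Set.range_comp, ← Set.range_comp]
  rfl

theorem h1_trans (h : Gn a s t) (k : Fin 3) : Transcendental (kap L s t k) (s k) := by
  set K0 := IntermediateField.adjoin L (s '' {k}ᶜ) with hK0
  have h1 : Transcendental K0 (s k) :=
    IntermediateField.transcendental_adjoin_iff.mpr (h.ind.transcendental_adjoin (by simp))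
  have h3 : kap L s t k ≤ (algebraicClosure K0 E).restrictScalars L := by
    refine IntermediateField.adjoin_le_iff.mpr ?_
    rintro z (⟨l, hl, rfl⟩ | ⟨l, hl, rfl⟩)
    · exact (algebraicClosure K0 E).algebraMap_mem
        (⟨s l, IntermediateField.subset_adjoin _ _ ⟨l, hl, rfl⟩⟩ : K0)
    · exact mem_algebraicClosure_iff.mpr (c1b_int (h.eq l) (R := K0)
        (s₀ := ⟨s l, IntermediateField.subset_adjoin _ _ ⟨l, hl, rfl⟩⟩) rfl).isAlgebraic
  exact Transcendental.of_tower_top_of_subalgebra_le
    (A := (kap L s t k).toSubalgebra)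
    (B := ((algebraicClosure K0 E).restrictScalars L).toSubalgebra) h3 h1.algebraicClosure

/-- Compare `aind_trans`, `Gen.hyp`; `Co.up_up`, `Co.Sm.map`. -/
theorem Gn.one (h : Gn a s t) (k : Fin 3) : Cv (a.up (kap L s t k)) (s k) (t k) := by
  refine ⟨h.sm.map _, h1_trans h k, by rw [Co.up_up]; exact h.eq k, ?_⟩
  have : IntermediateField.adjoin L (Set.range s ∪ Set.range t) ≤
      (IntermediateField.adjoin (kap L s t k) {s k, t k}).restrictScalars L := by
    refine IntermediateField.adjoin_le_iff.mpr ?_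
    rintro z (⟨l, rfl⟩ | ⟨l, rfl⟩) <;> by_cases hl : l = k
    · exact IntermediateField.subset_adjoin (kap L s t k) {s k, t k} (by simp [hl])
    · exact (IntermediateField.adjoin (kap L s t k) {s k, t k}).algebraMap_mem ⟨_, x_mem_kap hl⟩
    · exact IntermediateField.subset_adjoin (kap L s t k) {s k, t k} (by simp [hl])
    · exact (IntermediateField.adjoin (kap L s t k) {s k, t k}).algebraMap_mem ⟨_, y_mem_kap hl⟩
  rw [h.top] at this
  exact top_le_iff.mp fun z _ => this trivial

theorem Gn.tb (h : Gn a s t) : IsTranscendenceBasis L s := by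
  refine h.ind.isTranscendenceBasis_iff_isAlgebraic.2 ⟨fun z => ?_⟩
  have hx : ∀ k, s k ∈ Algebra.adjoin L (Set.range s) := fun k => Algebra.subset_adjoin ⟨k, rfl⟩
  have ha : ∀ y ∈ Algebra.adjoin L (Set.range s), IsAlgebraic (Algebra.adjoin L (Set.range s)) y :=
    fun y hy => isAlgebraic_algebraMap (⟨y, hy⟩ : Algebra.adjoin L (Set.range s))
  have hz : z ∈ IntermediateField.adjoin L (Set.range s ∪ Set.range t) := h.top ▸ trivial
  induction hz using IntermediateField.adjoin_induction with
  | mem z hz =>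
    rcases hz with ⟨k, rfl⟩ | ⟨k, rfl⟩
    · exact ha _ (hx k)
    · exact (c1b_int (h.eq k) (R := Algebra.adjoin L (Set.range s)) (s₀ := ⟨_, hx k⟩)
        rfl).isAlgebraic
  | algebraMap c => exact ha _ (algebraMap_mem _ c)
  | add a b _ _ ha hb => exact ha.add hb
  | inv a _ ha => exact ha.inv
  | mul a b _ _ ha hb => exact ha.mul hb

/-- `Kh.det_ne_of_indep`, `Dl_eq_det`, `cubic_indep` for `h.one k`. -/
theorem Gn.Dl_ne (h : Gn a s t) : Dl s t ≠ 0 := by
  rw [Dl_eq_det]
  refine Kh.det_ne_of_indep _ (kap L s t) (fun J k l hl => ?_) fun k => ?_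
  · fin_cases J
    exacts [one_mem _, x_mem_kap hl, y_mem_kap hl]
  · have H := h.one k
    refine Fintype.linearIndependent_iff.2 fun c hc => ?_
    rw [Fin.sum_univ_three] at hc
    obtain ⟨h1, h2, -⟩ := cubic_indep H.sm H.trans H.eq (A := C (c 0) + C (c 1) * X)
      (B := C (c 2)) (C := 0) (by simpa [Algebra.smul_def] using hc)
    have h3 := congrArg (coeff · 0) h1
    have h4 := congrArg (coeff · 1) h1
    intro i
    fin_cases i
    · simpa using h3
    · simpa [coeff_C] using h4
    · simpa using h2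

/-- Otherwise `Ft = 0` is a relation of degree two in `T` (`cubic_indep`). -/
theorem Ft_ne_of_trans [CharZero L] (hs : a.Sm) {s T : E} (ht : Transcendental L s)
    (he : (a.up E).F s T = 0) : (a.up E).Ft s T ≠ 0 := by
  intro h0
  obtain ⟨-, -, h3⟩ := cubic_indep hs ht he (A := 2 * C a.c * X + C a.r1)
    (B := 2 * X ^ 2 + 2 * C a.q2) (C := C 3) (by
      simp only [Co.Ft, Co.map] at h0
      simp only [map_add, map_mul, map_pow, map_ofNat, aeval_X, aeval_C]
      linear_combination h0)
  exact three_ne_zero (C_eq_zero.1 h3)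

theorem h1_frac (hs : a.Sm) {s t z : E} (ht : Transcendental L s) (he : (a.up E).F s t = 0)
    (h : z ∈ IntermediateField.adjoin L {s, t}) : ∃ A B C D : L[X], D ≠ 0 ∧
      z * aeval s D = aeval s A + aeval s B * t + aeval s C * t ^ 2 := by
  let K := IntermediateField.adjoin L {s, t}
  let s' : K := ⟨s, IntermediateField.subset_adjoin _ _ (by simp)⟩
  let t' : K := ⟨t, IntermediateField.subset_adjoin _ _ (by simp)⟩
  have H : Cv a s' t' := by
    refine ⟨hs, fun e => ht (e.algHom K.val), h1_val he, ?_⟩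
    apply IntermediateField.lift_injective
    rw [IntermediateField.lift_adjoin, IntermediateField.lift_top, Set.image_pair]
  obtain ⟨y, hy, D, hD, e⟩ := H.frac ⟨z, h⟩
  obtain ⟨A, B, G, rfl⟩ := H.basis hy
  refine ⟨A + G * (2 * C a.c * X + C a.r1), B + G * (X ^ 2 + C a.q2), G, D, hD, ?_⟩
  have e' := congrArg K.val e
  simp only [map_add, map_mul, map_pow, map_ofNat, ← aeval_algHom_apply, Co.th, Co.map,
    AlgHom.commutes] at e'
  simp only [map_add, map_mul, map_pow, map_ofNat, aeval_X, aeval_C]
  change z * aeval s D = aeval s A + aeval s B * t + aeval s G *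
    (t * (t + s ^ 2 + _) + 2 * _ * s + _) at e'
  linear_combination e'

/-- Write `z D(s) = A + B t + C th` over `K` (`Cv.frac`, `Cv.basis` for the field `K(s, t)`, or a
direct induction); over `K'` the relation is trivial by `cubic_indep`, so `z D = A`.  Compare
`Kh.gcon_step`. -/
theorem const_step (hs : a.Sm) {K K' : IntermediateField L E} (hle : K ≤ K') {s t z : E}
    (ht : Transcendental K' s) (he : (a.up E).F s t = 0) (hz : z ∈ K')
    (h : z ∈ IntermediateField.adjoin K {s, t}) : z ∈ K := by
  have ht' : Transcendental K s := Transcendental.of_tower_top_of_subalgebra_le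
    (A := K.toSubalgebra) (B := K'.toSubalgebra) hle ht
  obtain ⟨A, B, G, D, hD, e⟩ :=
    h1_frac (a := a.up K) (hs.map _) ht' (by rw [Co.up_up]; exact he) h
  let φ : K →+* K' := IntermediateField.inclusion hle
  have h1 : ∀ P : K[X], aeval s (P.map φ) = aeval s P := fun P => by
    rw [aeval_def, eval₂_map]
    rfl
  obtain ⟨h2, -, -⟩ := cubic_indep (a := a.up K') (hs.map _) ht (by rw [Co.up_up]; exact he)
    (A := A.map φ - C ⟨z, hz⟩ * D.map φ) (B := B.map φ) (C := G.map φ) (by
      rw [map_sub, map_mul, h1, h1, h1, h1, aeval_C]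
      change _ - z * _ + _ + _ = _
      linear_combination -e)
  have h3 := congrArg (aeval s) h2
  rw [map_sub, map_mul, h1, h1, aeval_C, map_zero, sub_eq_zero] at h3
  exact Kh.gcon_step hle ht hz ((IntermediateField.mem_adjoin_simple_iff K z).2
    ⟨A, D, eq_div_of_mul_eq (fun e' => hD (transcendental_iff.1 ht' D e')) h3.symm⟩)

/-- Remove the points one at a time; compare `Kh.KG.const`. -/
theorem Gn.const (h : Gn a s t) {z : E} (hz : ∀ k, z ∈ kap L s t k) :
    ∃ c : L, algebraMap L E c = z := by
  have key : ∀ T : Finset (Fin 3), z ∈ IntermediateField.adjoin L (s '' T ∪ t '' T) →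
      ∃ c : L, algebraMap L E c = z := fun T => by
    induction T using Finset.induction_on with
    | empty => simp [IntermediateField.mem_bot]
    | insert k T hk ih =>
      intro h2
      rw [show s '' (insert k T : Finset (Fin 3)) ∪ t '' (insert k T : Finset (Fin 3)) =
          (s '' T ∪ t '' T) ∪ {s k, t k} by
        rw [Finset.coe_insert, Set.image_insert_eq, Set.image_insert_eq]
        ext y
        simp only [Set.mem_union, Set.mem_insert_iff, Set.mem_singleton_iff]
        tauto, ← IntermediateField.adjoin_adjoin_left] at h2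
      refine ih (const_step h.sm (IntermediateField.adjoin_le_iff.2 ?_) (h.one k).trans (h.eq k)
        (hz k) h2)
      rintro _ (⟨l, hl, rfl⟩ | ⟨l, hl, rfl⟩)
      · exact x_mem_kap fun e => hk (e ▸ hl)
      · exact y_mem_kap fun e => hk (e ▸ hl)
  exact key Finset.univ (by simp [h.top])

end Pool.Agent.Lib.MP_07b2d0_nt.G3
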