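import Pool.Agent.Lib.MP_07b2d0_nt.G3.H8
import Pool.Agent.Lib.MP_07b2d0_nt.G3.H1
import Pool.Agent.Lib.MP_07b2d0_nt.Kh.UJ

/-!
The sum of three generic points determines their abscissae.
-/

set_option autoImplicit false

namespace Pool.Agent.Lib.MP_07b2d0_nt.G3

open CategoryTheory AlgebraicGeometry Polynomial NumberField Fh WithZero

open scoped MonObj

variable {B k K R : Type} [CommRing B] [Field k] [Field K] [CommRing R] [Algebra k R]
  {b : B →+* k} {A : Over (Spec (.of B))} {j : Fh.sp ((algebraMap k R).comp b) ⟶ A} {i : k →+* K}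
  {a : Co K} {X₀ Y₀ : R} {l α m β : K}

theorem Prs.ext (hP : Prs i a X₀ Y₀ l α m β) {T : Type} [CommRing T] {φ ψ : R →+* T}
    (h0 : φ.comp (algebraMap k R) = ψ.comp (algebraMap k R)) (h1 : φ X₀ = ψ X₀)
    (h2 : φ Y₀ = ψ Y₀) : φ = ψ := by
  refine RingHom.ext fun z => ?_
  have hz : z ∈ Algebra.adjoin k {X₀, Y₀} := hP.gen ▸ Algebra.mem_top
  induction hz using Algebra.adjoin_induction with
  | mem x hx =>
    rcases hx with rfl | rfl
    · exact h1
    · exact h2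
  | algebraMap c => exact RingHom.congr_fun h0 c
  | add x y _ _ hx hy => rw [map_add, map_add, hx, hy]
  | mul x y _ _ hx hy => rw [map_mul, map_mul, hx, hy]

theorem Prs.mem (hP : Prs i a X₀ Y₀ l α m β) {T : Type} [CommRing T] (φ : R →+* T)
    (W : Subring T) (h0 : ∀ c, φ (algebraMap k R c) ∈ W) (h1 : φ X₀ ∈ W) (h2 : φ Y₀ ∈ W) (z : R) :
    φ z ∈ W := by
  have hz : z ∈ Algebra.adjoin k {X₀, Y₀} := hP.gen ▸ Algebra.mem_top
  induction hz using Algebra.adjoin_induction with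
  | mem x hx =>
    rcases hx with rfl | rfl
    · exact h1
    · exact h2
  | algebraMap c => exact h0 c
  | add x y _ _ hx hy =>
    rw [map_add]
    exact add_mem hx hy
  | mul x y _ _ hx hy =>
    rw [map_mul]
    exact mul_mem hx hy

/-- Compare `Kh.val_eq'`. -/
theorem val_eq3 {Ω F : Type} [Field Ω] [Algebra k Ω] [Field F] [Algebra Ω F] [IsSeparated A.hom]
    (hP : Prs i a X₀ Y₀ l α m β) {ρ : R →+* F}
    (h0 : ρ.comp (algebraMap k R) = (algebraMap Ω F).comp (algebraMap k Ω)) {v : Plc Ω F}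
    {P : Fh.sp ((algebraMap k Ω).comp b) ⟶ A}
    (hv : IsVal (Spec.map (CommRingCat.ofHom ρ) ≫ j.left) v.1 P.left) {ρ' : R →+* Ω}
    (h1 : ρ'.comp (algebraMap k R) = algebraMap k Ω) (h2 : Kh.Vl v (ρ X₀) (ρ' X₀))
    (h3 : Kh.Vl v (ρ Y₀) (ρ' Y₀)) : P = Kh.jq j _ ρ' h1 := by
  refine pt_ext (IsVal.unique (φ := (algebraMap k Ω).comp b) ?_ hv ?_)
  · rw [Category.assoc, pt_w, ← spec_comp]
    exact congrArg (fun χ => Spec.map (CommRingCat.ofHom χ))
      (RingHom.ext fun c => RingHom.congr_fun h0 (b c))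
  obtain ⟨-, q, hq, -⟩ := hv
  have key : ∀ (z : v.1.valuationSubring) (c : Ω), Kh.Vl v z c → q z = c :=
    fun z c hz => by
      have : z - ⟨_, v.2.2 c⟩ ∈ RingHom.ker q := by
        rw [IsLocalRing.eq_maximalIdeal (RingHom.ker_isMaximal_of_surjective q fun c =>
          ⟨_, hq c (v.2.2 c)⟩), Valuation.mem_maximalIdeal_iff]
        exact hz
      rwa [RingHom.mem_ker, map_sub, hq c (v.2.2 c), sub_eq_zero] at this
  have hc : ∀ c, ρ (algebraMap k R c) = algebraMap Ω F (algebraMap k Ω c) :=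
    RingHom.congr_fun h0
  have hm : ∀ z, ρ z ∈ v.1.valuationSubring := hP.mem ρ v.1.valuationSubring.toSubring
    (fun c => hc c ▸ v.2.2 _) h2.le_one h3.le_one
  let ρ₁ : R →+* v.1.valuationSubring := ρ.codRestrict _ hm
  have e1 : q.comp ρ₁ = ρ' := hP.ext
    (h1 ▸ RingHom.ext fun c => (congrArg q (Subtype.ext (hc c))).trans (hq _ (v.2.2 _)))
    (key _ _ h2) (key _ _ h3)
  refine ⟨Spec.map (CommRingCat.ofHom ρ₁) ≫ j.left, q, hq, ?_, ?_⟩
  · rw [← Category.assoc, ← spec_comp]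
    rfl
  · rw [← Category.assoc, ← spec_comp, e1, Kh.jq_left]

variable {L E : Type} [Field L] [Field E] [Algebra L E] {e : K →+* L} {s t : Fin 3 → E}
  {ρ : Fin 3 → R →+* E}

/-- Compare `Kh.IsJ.rigJ`.  The two embeddings agree on `k` only: use the coordinates given by the
second one, `κ' : K →+* Ω`, for both triples of points (`Prs.eq`); the second triple satisfies the
hypotheses of `Cv.nonspecial` (`Gn.Dl_ne`, `Ft_ne_of_trans`). -/
theorem rigJ3 [CharZero L] [GrpObj A] [IsCommMonObj A] [IsSeparated A.hom]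
    (hJ : Kh.IsJ b X₀ A j) (hP : Prs i a X₀ Y₀ l α m β) (h : Gn (a.map e) s t)
    (h0 : ∀ n, (ρ n).comp (algebraMap k R) = (algebraMap L E).comp (e.comp i))
    (h1 : ∀ n, ρ n X₀ = algebraMap L E (e l) * s n + algebraMap L E (e α))
    (h2 : ∀ n, ρ n Y₀ = algebraMap L E (e m) * t n + algebraMap L E (e β)) :
    Kh.RigJ j ρ X₀ := by
  classical
  intro Ω _ _ κ u₁ u₂ hs ht hΦ i₀
  let := κ.toAlgebra
  let u₃ : L →+* Ω := u₂.comp (algebraMap L E)
  let κ' : K →+* Ω := u₃.comp e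
  have hκ : κ'.comp i = κ := by
    rw [← ht i₀, RingHom.comp_assoc (algebraMap k R), h0]
    rfl
  have : CharZero Ω := charZero_of_injective_ringHom u₃.injective
  have hl : κ' l ≠ 0 := (_root_.map_ne_zero κ').2 hP.l0
  have hm : κ' m ≠ 0 := (_root_.map_ne_zero κ').2 hP.m0
  obtain ⟨F, _, _, s', t', hK⟩ := exists_cv (a := a.map κ') (h.sm.map u₃)
  obtain ⟨ρ₀, r0, r1, r2⟩ := hP.lift F ((algebraMap Ω F).comp κ') s' t' hK.eq
  have r0' : ρ₀.comp (algebraMap k R) = (algebraMap Ω F).comp (algebraMap k Ω) := by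
    rw [r0, RingHom.comp_assoc, hκ]
    rfl
  simp only [RingHom.comp_apply] at r1 r2
  have hs' : s' = algebraMap Ω F (κ' l)⁻¹ * (ρ₀ X₀ - algebraMap Ω F (κ' α)) := by
    rw [r1, add_sub_cancel_right, ← mul_assoc, ← map_mul, inv_mul_cancel₀ hl, map_one, one_mul]
  have ht' : t' = algebraMap Ω F (κ' m)⁻¹ * (ρ₀ Y₀ - algebraMap Ω F (κ' β)) := by
    rw [r2, add_sub_cancel_right, ← mul_assoc, ← map_mul, inv_mul_cancel₀ hm, map_one, one_mul]
  obtain ⟨val, hv, -, hp⟩ := hJ Ω F ρ₀ (RingHom.congr_fun r0')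
    (fun hx => hK.trans (hs' ▸ (isAlgebraic_algebraMap _).mul
      (hx.sub (isAlgebraic_algebraMap _))))
    (eq_top_iff.2 (hK.top ▸ IntermediateField.adjoin_le_iff.2 (by
      rintro _ (rfl | rfl)
      · rw [hs']
        exact mul_mem (algebraMap_mem _ _) (sub_mem
          (IntermediateField.subset_adjoin _ _ ⟨X₀, rfl⟩) (algebraMap_mem _ _))
      · rw [ht']
        exact mul_mem (algebraMap_mem _ _) (sub_mem
          (IntermediateField.subset_adjoin _ _ ⟨Y₀, rfl⟩) (algebraMap_mem _ _)))))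
  have x1 : ∀ n, u₂ (ρ n X₀) = κ' l * u₂ (s n) + κ' α := fun n => by
    rw [h1, map_add, map_mul]
    rfl
  have y1 : ∀ n, u₂ (ρ n Y₀) = κ' m * u₂ (t n) + κ' β := fun n => by
    rw [h2, map_add, map_mul]
    rfl
  obtain ⟨ξ, x0⟩ : ∃ ξ : Fin 3 → Ω, ∀ n, u₁ (ρ n X₀) = κ' l * ξ n + κ' α :=
    ⟨fun n => (u₁ (ρ n X₀) - κ' α) / κ' l, fun n => by
      rw [mul_div_cancel₀ _ hl, sub_add_cancel]⟩
  obtain ⟨ζ, y0⟩ : ∃ ζ : Fin 3 → Ω, ∀ n, u₁ (ρ n Y₀) = κ' m * ζ n + κ' β :=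
    ⟨fun n => (u₁ (ρ n Y₀) - κ' β) / κ' m, fun n => by
      rw [mul_div_cancel₀ _ hm, sub_add_cancel]⟩
  have s1 : ∀ n, (a.map κ').F (ξ n) (ζ n) = 0 := fun n =>
    hP.eq Ω κ' _ _ (u₁.comp (ρ n)) ((hs n).trans hκ.symm) (x0 n) (y0 n)
  have t1 : ∀ n, (a.map κ').F (u₂ (s n)) (u₂ (t n)) = 0 := fun n =>
    hP.eq Ω κ' _ _ (u₂.comp (ρ n)) ((ht n).trans hκ.symm) (x1 n) (y1 n)
  have t3 : ∀ n T, (a.map κ').F (u₂ (s n)) T = 0 → (a.map κ').Ft (u₂ (s n)) T ≠ 0 :=
    fun n T hT => by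
      let := u₃.toAlgebra
      refine Ft_ne_of_trans (L := L) (a := a.map e) h.sm (fun hx => h.ind.transcendental n ?_) hT
      exact (isAlgebraic_algHom_iff (⟨u₂, fun _ => rfl⟩ : E →ₐ[L] Ω) u₂.injective).1 hx
  have t4 : Dl (fun n => u₂ (s n)) (fun n => u₂ (t n)) ≠ 0 := by
    rw [← map_Dl]
    exact (_root_.map_ne_zero u₂).2 h.Dl_ne
  choose P hQ _ using fun n => hK.exists_at (s1 n)
  choose P' hQ' _ using fun n => hK.exists_at (t1 n)
  have hval : ∀ (u : E →+* Ω) (hu : ∀ n, (u.comp (ρ n)).comp (algebraMap k R) = κ)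
      (x y : Fin 3 → Ω) (Q : Fin 3 → Plc Ω F), (∀ n, u (ρ n X₀) = κ' l * x n + κ' α) →
      (∀ n, u (ρ n Y₀) = κ' m * y n + κ' β) → (∀ n, At (Q n) s' t' (x n) (y n)) →
      ∏ n, val (Q n) = Kh.Ph j κ (fun n => u.comp (ρ n)) hu := fun u hu x y Q hx hy hQ =>
    Finset.prod_congr rfl fun n _ => val_eq3 hP r0' (hv _) (hu n)
      (by
        rw [r1, RingHom.comp_apply u, hx]
        exact ((Kh.vl_const _ _).mul (hQ n).1).add (Kh.vl_const _ _))
      (by
        rw [r2, RingHom.comp_apply u, hy]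
        exact ((Kh.vl_const _ _).mul (hQ n).2).add (Kh.vl_const _ _))
  let dg : (Plc Ω F →₀ ℤ) →+ ℤ := Finsupp.liftAddHom fun _ => AddMonoidHom.id ℤ
  let sm : (Plc Ω F →₀ ℤ) →+ Additive (Fh.sp ((algebraMap k Ω).comp b) ⟶ A) :=
    Finsupp.liftAddHom fun v => zmultiplesHom _ (Additive.ofMul (val v))
  obtain ⟨φ, hφ0, hφ⟩ := (hp _).2 ⟨∑ n, Finsupp.single (P' n) 1 - ∑ n, Finsupp.single (P n) 1, rfl,
    show dg _ = 0 by
      simp only [map_sub, map_sum, dg, Finsupp.liftAddHom_apply_single, sub_self,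
        AddMonoidHom.id_apply], show (sm _).toMul = 1 by
      simp only [map_sub, map_sum, sm, Finsupp.liftAddHom_apply_single, zmultiplesHom_apply,
        one_zsmul, toMul_sub, toMul_sum, toMul_ofMul, div_eq_one]
      exact ((hval u₂ ht _ _ P' x1 y1 hQ').trans hΦ.symm).trans
        (hval u₁ hs _ _ P x0 y0 hQ).symm⟩
  simp only [Finsupp.sub_apply, Finsupp.finsetSum_apply] at hφ
  have nn : ∀ (T : Finset (Fin 3)) (P : Fin 3 → Plc Ω F) v,
      (0 : ℤ) ≤ ∑ n ∈ T, Finsupp.single (P n) 1 v := fun T P v =>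
    Finset.sum_nonneg fun n _ => by rw [Finsupp.single_apply]; split_ifs <;> simp
  obtain ⟨c, rfl⟩ := hK.nonspecial t1 (u₂.injective.comp h.ind.injective) t3 t4 hQ' (φ := φ)
    fun v => le_exp_of_log_le (by have := nn Finset.univ P v; have := hφ v; omega)
  have h3 := hφ (P' i₀)
  rw [c5_one (P' i₀) fun hc => hφ0 (by rw [hc, map_zero]), log_one,
    ← Finset.add_sum_erase _ _ (Finset.mem_univ i₀), Finsupp.single_eq_same] at h3
  by_contra hn
  rw [Finset.sum_eq_zero (s := Finset.univ) fun n _ => Finsupp.single_eq_of_ne fun hl =>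
    hn ⟨n, by rw [x1, x0, (hQ' i₀).1.unique (hl ▸ (hQ n).1)]⟩] at h3
  have := nn (Finset.univ.erase i₀) P' (P' i₀)
  omega

/-- Compare `Kh.Setup0.coord`. -/
theorem set3_of [NumberField L] {F : Type} [Field F] {κ : 𝓞 L →+* F} {θ : F →+* E}
    {S : Set (Subring F)} (hP : Prs i a X₀ Y₀ l α m β) (h : Gn (a.map e) s t)
    (h0 : ∀ n, (ρ n).comp (algebraMap k R) = (algebraMap L E).comp (e.comp i))
    (h1 : ∀ n, ρ n X₀ = algebraMap L E (e l) * s n + algebraMap L E (e α))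
    (h2 : ∀ n, ρ n Y₀ = algebraMap L E (e m) * t n + algebraMap L E (e β))
    (hS : Kh.Setup0 ρ X₀ κ θ S) : Set3 (a.map e) s t κ θ S := by
  have h0' : ∀ n c, ρ n (algebraMap k R c) = algebraMap L E (e (i c)) := fun n c =>
    DFunLike.congr_fun (h0 n) c
  have mem : ∀ T : Subalgebra L E, (∀ n, s n ∈ T ∧ t n ∈ T) → ∀ n z, ρ n z ∈ T :=
    fun T hT n z => hP.mem (ρ n) T.toSubring (fun c => h0' n c ▸ algebraMap_mem T _)
      (h1 n ▸ add_mem (mul_mem (algebraMap_mem T _) (hT n).1) (algebraMap_mem T _))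
      (h2 n ▸ add_mem (mul_mem (algebraMap_mem T _) (hT n).2) (algebraMap_mem T _)) z
  refine ⟨h, hS.cst, fun T hT => hS.reg T (mem T hT), hS.val,
    fun T hs hT => hS.nmp T hs (mem _ hT), fun π τ t₁ t₂ => hS.sym π τ fun n => ?_,
    fun Ω _ _ e₁ e₂ he n => ?_⟩
  · refine DFunLike.congr_fun (hP.ext (φ := (τ : E →+* E).comp (ρ n)) (ψ := ρ (π n))
      (RingHom.ext fun c => ?_) ?_ ?_)
    · simp only [RingHom.comp_apply, h0', RingHom.coe_coe, AlgHom.commutes]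
    · simp only [RingHom.comp_apply, h1, RingHom.coe_coe, map_add, map_mul, AlgHom.commutes, t₁]
    · simp only [RingHom.comp_apply, h2, RingHom.coe_coe, map_add, map_mul, AlgHom.commutes, t₂]
  · obtain ⟨n', hl⟩ := hS.rig Ω e₁ e₂ he n
    have hc : ∀ b : L, e₂ (algebraMap L E b) = e₁ (algebraMap L E b) := fun b => by
      refine DFunLike.congr_fun (IsFractionRing.ringHom_ext (A := 𝓞 L)
        (f1 := e₂.comp (algebraMap L E)) (f2 := e₁.comp (algebraMap L E)) fun r => ?_) b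
      have := DFunLike.congr_fun he (κ r)
      have h1 : θ (κ r) = algebraMap L E (algebraMap (𝓞 L) L r) := DFunLike.congr_fun hS.cst r
      rwa [RingHom.comp_apply, RingHom.comp_apply, h1] at this
    simp only [h1, map_add, map_mul, hc, add_left_inj] at hl
    refine ⟨n', mul_left_cancel₀ ?_ hl⟩
    exact (_root_.map_ne_zero e₁).2 ((_root_.map_ne_zero _).2 ((_root_.map_ne_zero e).2 hP.l0))

end Pool.Agent.Lib.MP_07b2d0_nt.G3
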