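import Pool.Agent.Lib.MP_07b2d0_nt.G3.H7
import Pool.Agent.Lib.MP_07b2d0_nt.G3.H9
import Pool.Agent.Lib.MP_07b2d0_nt.Fh.Num

/-!
From the heights of the coefficients to the Faltings height.
-/

set_option autoImplicit false

namespace Pool.Agent.Lib.MP_07b2d0_nt.G3

open CategoryTheory AlgebraicGeometry Polynomial NumberField Fh

theorem h_tb {L E : Type} [Field L] [Field E] [Algebra L E] {s x : Fin 3 → E} {l α : L}
    (h : IsTranscendenceBasis L s) (hl : l ≠ 0)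
    (hx : ∀ n, x n = algebraMap L E l * s n + algebraMap L E α) : IsTranscendenceBasis L x := by
  have alg : ∀ z : E, IsAlgebraic (Algebra.adjoin L (Set.range x)) z := by
    refine Kh.tb_alg h (fun c => isAlgebraic_algebraMap
      (⟨_, algebraMap_mem _ c⟩ : Algebra.adjoin L (Set.range x))) fun k => ?_
    have hk : x k ∈ Algebra.adjoin L (Set.range x) := Algebra.subset_adjoin ⟨k, rfl⟩
    have e : s k = algebraMap L E l⁻¹ * (x k - algebraMap L E α) := by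
      rw [hx, add_sub_cancel_right, ← mul_assoc, ← map_mul, inv_mul_cancel₀ hl, map_one, one_mul]
    rw [e]
    exact isAlgebraic_algebraMap (⟨_, mul_mem (algebraMap_mem _ _)
      (sub_mem hk (algebraMap_mem _ _))⟩ : Algebra.adjoin L (Set.range x))
  exact (indep_of_alg h.1 alg).isTranscendenceBasis_iff_isAlgebraic.2 ⟨alg⟩

theorem h_den {K : Type} [Field K] [NumberField K] {a : Co K} {H : ℕ} (h : a.Ht H) :
    ∃ (d : K) (m : Fin 7 → 𝓞 K), d ≠ 0 ∧ (∀ i, (m i : K) = a.mm d i) ∧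
      ∀ σ : K →+* ℂ, ‖σ d‖ ≤ Real.exp (8 * H : ℕ) ∧
        ∀ z ∈ [a.q0, a.c, a.q2, a.r0, a.r1, a.e], ‖σ z‖ ≤ Real.exp (8 * H : ℕ) := by
  obtain ⟨d, c, hd, hc, hb⟩ := exists_den ![1, a.q0, a.c, a.q2, a.r0, a.r1, a.e] (H := H)
    fun i => by
      refine Fin.cases ?_ (fun i => h _ ?_) i
      · change Height.logHeight₁ (1 : K) ≤ _
        rw [Height.logHeight₁_one]
        positivity
      · fin_cases i <;> simp
  have h0 : (c 0 : K) = d := (hc 0).trans (mul_one _)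
  have h1 : (c 1 : K) = d * a.q0 := hc 1
  have h2 : (c 2 : K) = d * a.c := hc 2
  have h3 : (c 3 : K) = d * a.q2 := hc 3
  have h4 : (c 4 : K) = d * a.r0 := hc 4
  have h5 : (c 5 : K) = d * a.r1 := hc 5
  have h6 : (c 6 : K) = d * a.e := hc 6
  refine ⟨d, ![c 0 ^ 3, c 1 * c 0, 2 * c 2 * c 0 ^ 2, c 3 * c 0 ^ 3, c 4 * c 0 ^ 3, c 5 * c 0 ^ 4,
    c 2 ^ 2 * c 0 ^ 4 + c 6 * c 0 ^ 5], Nat.cast_ne_zero.2 hd, fun i => ?_,
    fun σ => ⟨h0 ▸ hb σ 0, fun z hz => (norm_le_mulHeight σ z).trans ?_⟩⟩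
  · simp only [RingOfIntegers.coe_eq_algebraMap] at h0 h1 h2 h3 h4 h5 h6 ⊢
    fin_cases i <;>
      simp only [Co.mm, Fin.zero_eta, Fin.mk_one, Fin.reduceFinMk, Matrix.cons_val, map_mul,
        map_pow, map_add, map_ofNat, h0, h1, h2, h3, h4, h5, h6] <;> ring
  · rw [← Real.exp_log (Height.mulHeight₁_pos z), ← Height.logHeight₁_eq_log_mulHeight₁]
    exact Real.exp_le_exp.2 ((h z hz).trans (Nat.cast_le.2 (by omega)))

theorem h_mm {K L : Type} [CommRing K] [CommRing L] (e : K →+* L) (a : Co K) (d : K) (i : Fin 7) :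
    e (a.mm d i) = (a.map e).mm (e d) i := by
  fin_cases i <;> simp [Co.mm, Co.map, map_ofNat]

/-- Compare `Kh.IsJ.hLe`: `exists_den` for `1` and the six coefficients gives `d` and the integral
elements `a.mm d i`; then `exists_gn`, `Prs.lift`, `rigJ3`, `Kh.exists_setup0`, `set3_of`,
`alg_main3`, `Kh.hF_le'`. -/
theorem hLe_of_ht : ∃ c : ℕ → ℕ, Primrec c ∧ ∀ (B k K R : Type) [CommRing B] [Field k] [Field K]
    [NumberField K] [CommRing R] [Algebra k R] (b : B →+* k) (A : Over (Spec (.of B))) [GrpObj A]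
    [IsCommMonObj A] [IsProper A.hom] (j : Fh.sp ((algebraMap k R).comp b) ⟶ A) (X₀ Y₀ : R)
    (i : k →+* K) (a : Co K) (l α m β : K) (H : ℕ), Kh.IsJ b X₀ A j → Prs i a X₀ Y₀ l α m β →
    a.Sm → a.Ht H → HLe 3 b A (c H) := by
  obtain ⟨n, hn⟩ := alg_main3
  refine ⟨fun H => n * (8 * H + 1), Primrec.nat_mul.comp (.const _)
    (Primrec.succ.comp (Primrec.nat_mul.comp (.const _) .id)), ?_⟩
  intro B k K R _ _ _ _ _ _ b A _ _ _ j X₀ Y₀ i a l α m β H hJ hP hs hH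
  obtain ⟨d, c, hd, hc, hb⟩ := h_den hH
  refine ⟨K, _, inferInstance, i, fun L _ _ e M _ hN => ?_⟩
  obtain ⟨E, _, _, s, t, hG⟩ := exists_gn (hs.map e)
  choose ρ h0 h1 h2 using fun n => hP.lift E ((algebraMap L E).comp e) (s n) (t n)
    (Co.map_map a e (algebraMap L E) ▸ hG.eq n)
  obtain ⟨θ, hS⟩ := Kh.exists_setup0 (e.comp i) hN h0
    (h_tb hG.tb ((_root_.map_ne_zero e).2 hP.l0) h1) (rigJ3 hJ hP hG h0 h1 h2)
  refine Kh.hF_le' hN.smooth (hn L E _ (a.map e) s t _ θ _ (e d)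
    (fun n => RingOfIntegers.mapRingHom e (c n)) _ (set3_of hP hG h0 h1 h2 hS)
    ((_root_.map_ne_zero e).2 hd) (fun n => ?_) fun σ => ⟨(hb (σ.comp e)).1, fun z hz => ?_⟩)
  · rw [RingOfIntegers.mapRingHom_apply, hc, h_mm]
  · obtain ⟨y, hy, rfl⟩ : ∃ y ∈ [a.q0, a.c, a.q2, a.r0, a.r1, a.e], e y = z :=
      List.mem_map.1 hz
    exact (hb (σ.comp e)).2 y hy

end Pool.Agent.Lib.MP_07b2d0_nt.G3
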