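import Pool.Agent.Lib.MP_07b2d0_nt.G3.H1
import Pool.Agent.Lib.MP_07b2d0_nt.Fh.ANf

/-!
Homomorphisms from the ring of the third power of the curve.
-/

set_option autoImplicit false

namespace Pool.Agent.Lib.MP_07b2d0_nt.G3

open Polynomial Fh

variable {L E : Type} [Field L] [Field E] [Algebra L E] {a : Co L} {s t : Fin 3 → E}

/-- The monomials of the normal form. -/
def h1b_mon {B : Type} [CommRing B] (w : Fin 3 → B) (p : Fin 3 × Fin 3 × Fin 3) : B :=
  w 0 ^ (p.1 : ℕ) * w 1 ^ (p.2.1 : ℕ) * w 2 ^ (p.2.2 : ℕ)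

theorem h1b_step {B P : Type} [CommRing B] [Algebra L B] [CommRing P] [Algebra L P] [Algebra P B]
    [IsScalarTower L P B] (M : Submodule P B) {u w r : B} {x : P} (hx : algebraMap P B x = u)
    (he : (a.up B).F u w = 0) (hm : ∀ n : Fin 3, w ^ (n : ℕ) * r ∈ M) (n : Fin 3) :
    w * (w ^ (n : ℕ) * r) ∈ M := by
  rw [← mul_assoc, ← pow_succ']
  fin_cases n
  · exact hm 1
  · exact hm 2
  · have h0 := M.smul_mem (x ^ 3 + algebraMap L P a.q0 * x ^ 2 + algebraMap L P a.r0 * x +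
      algebraMap L P a.c ^ 2 + algebraMap L P a.e) (hm 0)
    have h1 := M.smul_mem (2 * algebraMap L P a.c * x + algebraMap L P a.r1) (hm 1)
    have h2 := M.smul_mem (x ^ 2 + algebraMap L P a.q2) (hm 2)
    have h3 := neg_mem (add_mem (add_mem h0 h1) h2)
    simp only [Algebra.smul_def, map_add, map_mul, map_pow, map_ofNat, hx,
      ← IsScalarTower.algebraMap_apply] at h3
    simp only [Co.F, Co.map] at he
    refine (congrArg (· ∈ M) ?_).mp h3
    simp only [Fin.val_zero, Fin.val_one, Fin.val_two]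
    linear_combination (-r) * he

theorem h1b_nf {B : Type} [CommRing B] [Algebra L B] {u w : Fin 3 → B}
    (he : ∀ k, (a.up B).F (u k) (w k) = 0) {z : B} (hz : z ∈ RR L u w) :
    ∃ P : Fin 3 × Fin 3 × Fin 3 → MvPolynomial (Fin 3) L,
      z = ∑ p, MvPolynomial.aeval u (P p) * h1b_mon w p := by
  let _ : Algebra (MvPolynomial (Fin 3) L) B := (MvPolynomial.aeval u).toRingHom.toAlgebra
  have : IsScalarTower L (MvPolynomial (Fin 3) L) B :=
    .of_algebraMap_eq fun c => ((MvPolynomial.aeval u).commutes c).symm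
  have hs : ∀ (P : MvPolynomial (Fin 3) L) (b : B), P • b = MvPolynomial.aeval u P * b :=
    fun _ _ => rfl
  have hx : ∀ i, algebraMap (MvPolynomial (Fin 3) L) B (MvPolynomial.X i) = u i :=
    fun i => MvPolynomial.aeval_X u i
  let M : Submodule (MvPolynomial (Fin 3) L) B := Submodule.span _ (Set.range (h1b_mon w))
  have hM : ∀ p, h1b_mon w p ∈ M := fun p => Submodule.subset_span ⟨p, rfl⟩
  have key : ∀ m ∈ M, z * m ∈ M := by
    induction hz using Algebra.adjoin_induction with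
    | mem b hb =>
      rcases hb with ⟨i, rfl⟩ | ⟨i, rfl⟩ <;> intro m hm
      · simpa [hs] using M.smul_mem (MvPolynomial.X i) hm
      · induction hm using Submodule.span_induction with
        | mem m hm =>
          obtain ⟨⟨n0, n1, n2⟩, rfl⟩ := hm
          fin_cases i
          · have := h1b_step M (hx 0) (he 0) (r := w 1 ^ (n1 : ℕ) * w 2 ^ (n2 : ℕ))
              (fun n => mul_assoc (w 0 ^ (n : ℕ)) _ _ ▸ hM (n, n1, n2)) n0
            rwa [← mul_assoc (w 0 ^ (n0 : ℕ))] at this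
          · have := h1b_step M (hx 1) (he 1) (r := w 0 ^ (n0 : ℕ) * w 2 ^ (n2 : ℕ))
              (fun n => by
                rw [mul_left_comm, ← mul_assoc]
                exact hM (n0, n, n2)) n1
            rwa [mul_left_comm (w 1 ^ (n1 : ℕ)), ← mul_assoc (w 0 ^ (n0 : ℕ))] at this
          · have := h1b_step M (hx 2) (he 2) (r := w 0 ^ (n0 : ℕ) * w 1 ^ (n1 : ℕ))
              (fun n => mul_comm _ (w 2 ^ (n : ℕ)) ▸ hM (n0, n1, n)) n2
            rwa [mul_comm (w 2 ^ (n2 : ℕ))] at this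
        | zero => simp
        | add a b _ _ ha hb => rw [mul_add]; exact add_mem ha hb
        | smul c a _ ha => rw [mul_smul_comm]; exact M.smul_mem c ha
    | algebraMap c =>
      intro m hm
      simpa [hs] using M.smul_mem (MvPolynomial.C c) hm
    | add a b _ _ ha hb =>
      intro m hm
      rw [add_mul]
      exact add_mem (ha m hm) (hb m hm)
    | mul a b _ _ ha hb =>
      intro m hm
      rw [mul_assoc]
      exact ha _ (hb m hm)
  have h1 := key 1 (by simpa [h1b_mon] using hM (0, 0, 0))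
  rw [mul_one] at h1
  obtain ⟨P, hP⟩ := (Submodule.mem_span_range_iff_exists_fun _).mp h1
  exact ⟨P, hP.symm⟩

theorem h1b_one (h : Gn a s t) (k : Fin 3) {c : Fin 3 → E}
    (hc : ∀ n, c n ∈ Algebra.adjoin (kap L s t k) {s k}) (h0 : ∑ n, c n * t k ^ (n : ℕ) = 0)
    (n : Fin 3) : c n = 0 := by
  simp only [Algebra.adjoin_singleton_eq_range_aeval] at hc
  choose A hA using hc
  have hA' : ∀ n, aeval (s k) (A n) = c n := hA
  obtain ⟨h1, h2, h3⟩ := cubic_indep (h.one k).sm (h.one k).trans (h.one k).eq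
    (A := A 0) (B := A 1) (C := A 2) (by
      rw [hA', hA', hA', ← h0, Fin.sum_univ_three]
      simp)
  rw [← hA']
  fin_cases n
  · exact (congrArg _ h1).trans (map_zero _)
  · exact (congrArg _ h2).trans (map_zero _)
  · exact (congrArg _ h3).trans (map_zero _)

theorem h1b_zero (h : Gn a s t) {P : Fin 3 × Fin 3 × Fin 3 → MvPolynomial (Fin 3) L}
    (h0 : ∑ p, MvPolynomial.aeval s (P p) * h1b_mon t p = 0) (p : Fin 3 × Fin 3 × Fin 3) :
    P p = 0 := by
  have m1 : ∀ k (Q : MvPolynomial (Fin 3) L),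
      MvPolynomial.aeval s Q ∈ Algebra.adjoin (kap L s t k) {s k} := fun k Q => by
    induction Q using MvPolynomial.induction_on with
    | C c =>
      rw [MvPolynomial.aeval_C, IsScalarTower.algebraMap_apply L (kap L s t k) E]
      exact Subalgebra.algebraMap_mem _ _
    | add p q hp hq => exact map_add (MvPolynomial.aeval s) p q ▸ add_mem hp hq
    | mul_X p l hp =>
      rw [map_mul, MvPolynomial.aeval_X]
      refine mul_mem hp ?_
      by_cases hl : l = k
      · exact hl ▸ Algebra.self_mem_adjoin_singleton _ _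
      · exact Subalgebra.algebraMap_mem _ (⟨s l, x_mem_kap hl⟩ : kap L s t k)
  have m2 : ∀ k l, l ≠ k → ∀ n : ℕ, t l ^ n ∈ Algebra.adjoin (kap L s t k) {s k} :=
    fun k l hl n => pow_mem (Subalgebra.algebraMap_mem _ (⟨t l, y_mem_kap hl⟩ : kap L s t k)) n
  obtain ⟨n0, n1, n2⟩ := p
  have e0 := h1b_one h 0 (c := fun n0 => ∑ n1 : Fin 3, (∑ n2 : Fin 3,
      MvPolynomial.aeval s (P (n0, n1, n2)) * t 2 ^ (n2 : ℕ)) * t 1 ^ (n1 : ℕ))
    (fun _ => sum_mem fun _ _ => mul_mem (sum_mem fun _ _ => mul_mem (m1 _ _)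
      (m2 0 2 (by decide) _)) (m2 0 1 (by decide) _)) (by
      rw [← h0]
      simp only [Fintype.sum_prod_type, Finset.sum_mul, h1b_mon]
      exact Finset.sum_congr rfl fun _ _ => Finset.sum_congr rfl fun _ _ =>
        Finset.sum_congr rfl fun _ _ => by ring) n0
  have e1 := h1b_one h 1 (fun _ => sum_mem fun _ _ => mul_mem (m1 _ _)
    (m2 1 2 (by decide) _)) e0 n1
  have e2 := h1b_one h 2 (fun _ => m1 _ _) e1 n2
  exact h.ind (e2.trans (map_zero _).symm)

theorem h1b_lift (h : Gn a s t) {B : Type} [CommRing B] [Algebra L B] {u w : Fin 3 → B}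
    (he : ∀ k, (a.up B).F (u k) (w k) = 0) :
    ∃ φ : RR L s t →ₐ[L] B, (∀ k hk, φ ⟨s k, hk⟩ = u k) ∧ (∀ k hk, φ ⟨t k, hk⟩ = w k) ∧
      ∀ z : RR L s t, ∃ P : Fin 3 × Fin 3 × Fin 3 → MvPolynomial (Fin 3) L,
        (z : E) = ∑ p, MvPolynomial.aeval s (P p) * h1b_mon t p ∧
        φ z = ∑ p, MvPolynomial.aeval u (P p) * h1b_mon w p := by
  let G : Subalgebra L (E × B) := RR L (fun i => (s i, u i)) fun i => (t i, w i)
  have h1 : ∀ z : G, ∃ P : Fin 3 × Fin 3 × Fin 3 → MvPolynomial (Fin 3) L,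
      z.1.1 = ∑ p, MvPolynomial.aeval s (P p) * h1b_mon t p ∧
      z.1.2 = ∑ p, MvPolynomial.aeval u (P p) * h1b_mon w p := fun z => by
    obtain ⟨P, hP⟩ := h1b_nf (a := a) (fun i => Prod.ext
      ((Co.map_F (a.up (E × B)) (RingHom.fst E B) (s i, u i) (t i, w i)).trans (h.eq i))
      ((Co.map_F (a.up (E × B)) (RingHom.snd E B) (s i, u i) (t i, w i)).trans (he i))) z.2
    refine ⟨P, ?_, ?_⟩
    · have := congrArg (AlgHom.fst L E B) hP
      simp only [h1b_mon, map_sum, map_mul, map_pow, MvPolynomial.comp_aeval_apply] at this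
      exact this
    · have := congrArg (AlgHom.snd L E B) hP
      simp only [h1b_mon, map_sum, map_mul, map_pow, MvPolynomial.comp_aeval_apply] at this
      exact this
  have h2 : G.map (AlgHom.fst L E B) = RR L s t := by
    rw [AlgHom.map_adjoin, Set.image_union, ← Set.range_comp, ← Set.range_comp]
    rfl
  let π : G →ₐ[L] RR L s t :=
    ((AlgHom.fst L E B).comp G.val).codRestrict _ fun z => h2 ▸ ⟨z.1, z.2, rfl⟩
  have h3 : Function.Bijective π := by
    refine ⟨(injective_iff_map_eq_zero _).mpr fun z hz => ?_, fun z => ?_⟩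
    · obtain ⟨P, e1, e2⟩ := h1 z
      have e0 : z.1.1 = 0 := congrArg Subtype.val hz
      refine Subtype.ext (Prod.ext e0 (e2.trans ?_))
      simp [h1b_zero h (e1.symm.trans e0)]
    · obtain ⟨y, hy, e⟩ := (h2.ge z.2 : z.1 ∈ G.map (AlgHom.fst L E B))
      exact ⟨⟨y, hy⟩, Subtype.ext e⟩
  let ε := AlgEquiv.ofBijective π h3
  have h4 : ∀ y : G, (((AlgHom.snd L E B).comp G.val).comp ε.symm.toAlgHom) (π y) = y.1.2 :=
    fun y => congrArg (fun a : G => a.1.2) (ε.symm_apply_apply y)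
  refine ⟨((AlgHom.snd L E B).comp G.val).comp ε.symm.toAlgHom,
    fun i hi => h4 ⟨(s i, u i), Algebra.subset_adjoin (Or.inl ⟨i, rfl⟩)⟩,
    fun i hi => h4 ⟨(t i, w i), Algebra.subset_adjoin (Or.inr ⟨i, rfl⟩)⟩, fun z => ?_⟩
  obtain ⟨y, rfl⟩ := h3.2 z
  rw [h4]
  exact h1 y

/-- Normal form: sums of `P j (s) ∏ t k ^ j k` with `j k ≤ 2`; it is unique by `cubic_indep` for
`h.one k`, one point at a time.  Compare `nf`, `anf_zero`, `anf_lift` in `Fh/ANf`. -/
theorem Gn.lift_ring (h : Gn a s t) {B : Type} [CommRing B] [Algebra L B] {u w : Fin 3 → B}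
    (he : ∀ k, (a.up B).F (u k) (w k) = 0) :
    ∃ φ : RR L s t →ₐ[L] B, (∀ k hk, φ ⟨s k, hk⟩ = u k) ∧ ∀ k hk, φ ⟨t k, hk⟩ = w k := by
  obtain ⟨φ, h1, h2, -⟩ := h1b_lift h he
  exact ⟨φ, h1, h2⟩

theorem Gn.isFrac (h : Gn a s t) : IsFractionRing (RR L s t) E := by
  refine IsFractionRing.of_field _ _ fun z => ?_
  obtain ⟨r, hr, q, hq, e⟩ := IntermediateField.mem_adjoin_iff_div.mp
    (h.top ▸ IntermediateField.mem_top (x := z))
  exact ⟨⟨r, hr⟩, ⟨q, hq⟩, e⟩

theorem h1b_perm (h : Gn a s t) (π : Equiv.Perm (Fin 3)) : Gn a (s ∘ π) (t ∘ π) :=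
  ⟨h.sm, h.ind.comp π π.injective, fun k => h.eq (π k), by
    rw [π.surjective.range_comp, π.surjective.range_comp, h.top]⟩

/-- The homomorphisms of `lift_ring` for `π` and `π⁻¹` are inverse to each other. -/
theorem Gn.exists_perm (h : Gn a s t) (π : Equiv.Perm (Fin 3)) :
    ∃ τ : E →ₐ[L] E, (∀ k, τ (s k) = s (π k)) ∧ ∀ k, τ (t k) = t (π k) := by
  have h' := h1b_perm h π
  obtain ⟨φ, h1, h2, h3⟩ := h1b_lift h h'.eq
  have hφ : Function.Injective φ := (injective_iff_map_eq_zero _).mpr fun z hz => by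
    obtain ⟨P, e1, e2⟩ := h3 z
    refine Subtype.ext (e1.trans ?_)
    simp [h1b_zero h' (e2.symm.trans hz)]
  have := h.isFrac
  have h4 : ∀ z : RR L s t, IsFractionRing.liftAlgHom hφ (z : E) = φ z := fun z =>
    IsFractionRing.lift_algebraMap (g := φ.toRingHom) hφ z
  exact ⟨IsFractionRing.liftAlgHom hφ,
    fun k => (h4 ⟨s k, Algebra.subset_adjoin (Or.inl ⟨k, rfl⟩)⟩).trans (h1 k _),
    fun k => (h4 ⟨t k, Algebra.subset_adjoin (Or.inr ⟨k, rfl⟩)⟩).trans (h2 k _)⟩

end Pool.Agent.Lib.MP_07b2d0_nt.G3
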