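import Pool.Agent.Lib.MP_07b2d0_nt.G3.H1
import Pool.Agent.Lib.MP_07b2d0_nt.G3.C3b
import Pool.Agent.Lib.MP_07b2d0_nt.Kh.GDer

/-!
The derivations.
-/

set_option autoImplicit false

namespace Pool.Agent.Lib.MP_07b2d0_nt.G3

open Polynomial Fh WithZero

variable {L E : Type} [Field L] [Field E] [Algebra L E] {a : Co L} {s t : Fin 3 → E}
  {D : Fin 3 → Derivation L E E}

/-- The chain rule. -/
theorem der_F (D : Derivation L E E) (a : Co L) (s t : E) :
    D ((a.up E).F s t) = (a.up E).Fs s t * D s + (a.up E).Ft s t * D t := by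
  simp only [Co.F, Co.Fs, Co.Ft, Co.map, map_add, Derivation.leibniz, Derivation.leibniz_pow,
    Derivation.map_algebraMap, smul_eq_mul, nsmul_eq_mul, Nat.cast_ofNat]
  ring

/-- `Kh.exists_der`, `der_F`, `Ft_ne_of_trans`. -/
theorem Gn.exists_D [CharZero L] (h : Gn a s t) : ∃ D, IsDr a s t D := by
  choose D hD using fun l =>
    Kh.exists_der h.tb fun k => if l = k then (a.up E).Ft (s l) (t l) else 0
  refine ⟨D, fun l k => ⟨hD l k, ?_⟩⟩
  have e := der_F (D l) a (s k) (t k)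
  rw [h.eq k, map_zero, hD l k] at e
  refine mul_left_cancel₀ (Ft_ne_of_trans h.sm (h.ind.transcendental k) (h.eq k)) ?_
  split_ifs at e ⊢ with hl
  · subst hl
    linear_combination -e
  · linear_combination -e

/-- Compare `Gen.exists_perm` in `Fh/ADer`. -/
theorem Gn.perm_D (h : Gn a s t) (hD : IsDr a s t D) {π : Equiv.Perm (Fin 3)} {τ : E →ₐ[L] E}
    (h1 : ∀ k, τ (s k) = s (π k)) (h2 : ∀ k, τ (t k) = t (π k)) (l : Fin 3) (z : E) :
    τ (D l z) = D (π l) (τ z) := by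
  have hz : z ∈ IntermediateField.adjoin L (Set.range s ∪ Set.range t) := h.top ▸ trivial
  have hF : ∀ k, τ ((a.up E).Ft (s k) (t k)) = (a.up E).Ft (s (π k)) (t (π k)) ∧
      τ ((a.up E).Fs (s k) (t k)) = (a.up E).Fs (s (π k)) (t (π k)) := fun k => by
    simp only [Co.Ft, Co.Fs, Co.map, map_add, map_mul, map_pow, map_ofNat, τ.commutes, h1, h2,
      and_self]
  induction hz using IntermediateField.adjoin_induction with
  | mem z hz =>
    rcases hz with ⟨i, rfl⟩ | ⟨i, rfl⟩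
    · simp only [h1, (hD l i).1, (hD (π l) (π i)).1, π.apply_eq_iff_eq, apply_ite τ, (hF l).1,
        map_zero]
    · simp only [h2, (hD l i).2, (hD (π l) (π i)).2, π.apply_eq_iff_eq, apply_ite τ, map_neg,
        (hF l).2, map_zero]
  | algebraMap c => simp
  | add a b _ _ e1 e2 => simp only [map_add, e1, e2]
  | inv a _ e => simp only [map_inv₀, Derivation.leibniz_inv, smul_eq_mul, map_mul, map_neg,
      map_pow, e]
  | mul a b _ _ e1 e2 => simp only [map_mul, Derivation.leibniz, smul_eq_mul, map_add, e1, e2]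

theorem h2_mem (hD : IsDr a s t D) (W : Subalgebra L E) (l : Fin 3) {k : Fin 3} (hs : s k ∈ W)
    (ht : t k ∈ W) : D l (s k) ∈ W ∧ D l (t k) ∈ W := by
  have h2 : (2 : E) ∈ W := ofNat_mem W 2
  have h3 : (3 : E) ∈ W := ofNat_mem W 3
  have hc : s k * t k + algebraMap L E a.c ∈ W := add_mem (mul_mem hs ht) (W.algebraMap_mem _)
  rw [(hD l k).1, (hD l k).2]
  split_ifs with hl
  · subst hl
    exact ⟨add_mem (add_mem (add_mem (mul_mem (mul_mem h2 hs) hc) (mul_mem h3 (pow_mem ht 2)))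
      (mul_mem (mul_mem h2 (W.algebraMap_mem _)) ht)) (W.algebraMap_mem _),
      neg_mem (add_mem (add_mem (add_mem (mul_mem (mul_mem h2 ht) hc) (mul_mem h3 (pow_mem hs 2)))
      (mul_mem (mul_mem h2 (W.algebraMap_mem _)) hs)) (W.algebraMap_mem _))⟩
  · exact ⟨zero_mem _, zero_mem _⟩

/-- `der_field`, `der_zero`. -/
theorem IsDr.kap (hD : IsDr a s t D) (k l : Fin 3) {z : E} (hz : z ∈ kap L s t k) :
    D l z ∈ kap L s t k ∧ (l = k → D l z = 0) := by
  refine ⟨der_field _ _ ?_ hz, fun hl => der_zero _ ?_ hz⟩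
  · rintro _ (⟨i, hi, rfl⟩ | ⟨i, hi, rfl⟩)
    · exact ⟨x_mem_kap hi, (h2_mem hD (Fh.kap L s t k).toSubalgebra l (x_mem_kap hi)
        (y_mem_kap hi)).1⟩
    · exact ⟨y_mem_kap hi, (h2_mem hD (Fh.kap L s t k).toSubalgebra l (x_mem_kap hi)
        (y_mem_kap hi)).2⟩
  · subst hl
    rintro _ (⟨i, hi, rfl⟩ | ⟨i, hi, rfl⟩)
    · rw [(hD l i).1, if_neg fun e => hi e.symm]
    · rw [(hD l i).2, if_neg fun e => hi e.symm]

theorem IsDr.RR (hD : IsDr a s t D) (l : Fin 3) {z : E} (hz : z ∈ RR L s t) :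
    D l z ∈ RR L s t := by
  have hs : ∀ k, s k ∈ Fh.RR L s t := fun k => Algebra.subset_adjoin (.inl ⟨k, rfl⟩)
  have ht : ∀ k, t k ∈ Fh.RR L s t := fun k => Algebra.subset_adjoin (.inr ⟨k, rfl⟩)
  refine (der_adjoin (D l) (Fh.RR L s t).toSubring
    (fun c => ⟨(Fh.RR L s t).algebraMap_mem c, ?_⟩) ?_ hz).2
  · exact (D l).map_algebraMap c ▸ zero_mem _
  · rintro _ (⟨k, rfl⟩ | ⟨k, rfl⟩)
    · exact ⟨hs k, (h2_mem hD _ l (hs k) (ht k)).1⟩
    · exact ⟨ht k, (h2_mem hD _ l (hs k) (ht k)).2⟩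

/-- Differentiate `z q = p`; `q` is a unit of the valuation ring. -/
theorem LocR.stable {K : Type} [Field K] [Algebra L K] [Algebra K E] [IsScalarTower L K E]
    {v : Plc K E} {u w : E} (h : LocR v u w) (hu : v.1 u < 1) (hw : v.1 w < 1)
    (D : Derivation L E E) (h0 : ∀ c : K, v.1 (D (algebraMap K E c)) ≤ 1) (h1 : v.1 (D u) ≤ 1)
    (h2 : v.1 (D w) ≤ 1) {z : E} (hz : v.1 z ≤ 1) : v.1 (D z) ≤ 1 := by
  have key : ∀ p : MvPolynomial (Fin 2) K, v.1 (D (MvPolynomial.aeval ![u, w] p)) ≤ 1 := by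
    intro p
    induction p using MvPolynomial.induction_on with
    | C c => simpa using h0 c
    | add p q hp hq => rw [map_add, map_add]; exact v.1.map_add_le hp hq
    | mul_X p i hp =>
      have k1 : v.1 (![u, w] i) ≤ 1 ∧ v.1 (D (![u, w] i)) ≤ 1 := by
        fin_cases i
        exacts [⟨hu.le, h1⟩, ⟨hw.le, h2⟩]
      rw [map_mul, MvPolynomial.aeval_X, D.leibniz, smul_eq_mul, smul_eq_mul]
      refine v.1.map_add_le ?_ ?_ <;> rw [map_mul]
      · exact mul_le_one' (c2_le v hu hw p) k1.2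
      · exact mul_le_one' k1.1 hp
  obtain ⟨p, q, hq, e⟩ := (h z).1 hz
  have e1 := congrArg D e
  rw [D.leibniz, smul_eq_mul, smul_eq_mul] at e1
  have e2 : MvPolynomial.aeval ![u, w] q * D z =
      D (MvPolynomial.aeval ![u, w] p) - z * D (MvPolynomial.aeval ![u, w] q) := by
    linear_combination e1
  have e3 := congrArg v.1 e2
  rw [map_mul, c2_eq v hu hw hq, one_mul] at e3
  rw [e3]
  refine v.1.map_sub_le (key p) ?_
  rw [map_mul]
  exact mul_le_one' hz (key q)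

theorem h2_mon {v : Plc L E} {s t : E} (h : IsP v s t) (c : L) {i j : ℕ} {n : ℤ}
    (hn : 2 * (i : ℤ) + j ≤ n) : v.1 (algebraMap L E c * s ^ i * t ^ j) ≤ exp n := by
  rw [mul_assoc, map_mul, map_mul, map_pow, map_pow, h.1, h.2, ← exp_nsmul, ← exp_nsmul, ← exp_add]
  refine (mul_le_of_le_one_left' (v.2.2 c)).trans (exp_le_exp.2 ?_)
  simp only [nsmul_eq_mul]
  omega

/-- `s Fs + t Ft = 4 F - (s ^ 3 + t ^ 3 + ⋯)` has a pole of order at most six, `Ft` of order at
most five. -/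
theorem IsP.euler {v : Plc L E} {s t : E} (h : IsP v s t) (he : (a.up E).F s t = 0) :
    v.1 (s * (a.up E).Fs s t + t * (a.up E).Ft s t) ≤ exp 6 ∧ v.1 ((a.up E).Ft s t) ≤ exp 5 := by
  constructor
  · have e : s * (a.up E).Fs s t + t * (a.up E).Ft s t =
        algebraMap L E (-1) * s ^ 3 * t ^ 0 + algebraMap L E (-1) * s ^ 0 * t ^ 3 +
        algebraMap L E (-4 * a.c) * s ^ 1 * t ^ 1 + algebraMap L E (-2 * a.q0) * s ^ 2 * t ^ 0 +
        algebraMap L E (-2 * a.q2) * s ^ 0 * t ^ 2 + algebraMap L E (-3 * a.r0) * s ^ 1 * t ^ 0 +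
        algebraMap L E (-3 * a.r1) * s ^ 0 * t ^ 1 +
        algebraMap L E (-4 * (a.c ^ 2 + a.e)) * s ^ 0 * t ^ 0 := by
      simp only [Co.F, Co.Fs, Co.Ft, Co.map, map_mul, map_add, map_pow, map_neg, map_ofNat,
        map_one] at he ⊢
      linear_combination 4 * he
    rw [e]
    exact v.1.map_add_le (v.1.map_add_le (v.1.map_add_le (v.1.map_add_le (v.1.map_add_le
      (v.1.map_add_le (v.1.map_add_le (h2_mon h _ (by norm_num)) (h2_mon h _ (by norm_num)))
      (h2_mon h _ (by norm_num))) (h2_mon h _ (by norm_num))) (h2_mon h _ (by norm_num)))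
      (h2_mon h _ (by norm_num))) (h2_mon h _ (by norm_num))) (h2_mon h _ (by norm_num))
  · have e : (a.up E).Ft s t =
        algebraMap L E 2 * s ^ 2 * t ^ 1 + algebraMap L E (2 * a.c) * s ^ 1 * t ^ 0 +
        algebraMap L E 3 * s ^ 0 * t ^ 2 + algebraMap L E (2 * a.q2) * s ^ 0 * t ^ 1 +
        algebraMap L E a.r1 * s ^ 0 * t ^ 0 := by
      simp only [Co.Ft, Co.map, map_mul, map_ofNat]
      ring
    rw [e]
    exact v.1.map_add_le (v.1.map_add_le (v.1.map_add_le (v.1.map_add_le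
      (h2_mon h _ (by norm_num)) (h2_mon h _ (by norm_num))) (h2_mon h _ (by norm_num)))
      (h2_mon h _ (by norm_num))) (h2_mon h _ (by norm_num))

end Pool.Agent.Lib.MP_07b2d0_nt.G3
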