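import Pool.Agent.Lib.MP_07b2d0_nt.G3.H2
import Pool.Agent.Lib.MP_07b2d0_nt.G3.H1b
import Pool.Agent.Lib.MP_07b2d0_nt.G3.C5
import Pool.Agent.Lib.MP_07b2d0_nt.Fh.APair
import Pool.Agent.Lib.MP_07b2d0_nt.Kh.VBas

/-!
Regular forms are multiples of the determinant.
-/

set_option autoImplicit false

namespace Pool.Agent.Lib.MP_07b2d0_nt.G3

open Polynomial NumberField Fh WithZero

variable {L E F : Type} [Field L] [NumberField L] [Field E] [Field F] [Algebra L E] {a : Co L}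
  {s t : Fin 3 → E} {κ : 𝓞 L →+* F} {ι : F →+* E} {S : Set (Subring F)}
  {D : Fin 3 → Derivation L E E} {p : ⋀[F]^3 Ω[F⁄ℤ] →+ E} {α : ⋀[F]^3 Ω[F⁄ℤ]}

/-- `IsPair.mem_of_loc`. -/
theorem Set3.mem (h : Set3 a s t κ ι S) (hD : IsDr a s t D) (hp : IsPair ι D p)
    (hα : α ∈ LamS 3 S) : p α ∈ RR L s t :=
  hp.mem_of_loc _ (fun l _ hz => hD.RR l hz) (h.reg _ fun k =>
    ⟨Algebra.subset_adjoin (Or.inl ⟨k, rfl⟩), Algebra.subset_adjoin (Or.inr ⟨k, rfl⟩)⟩) hα

theorem h3_loc (h : Set3 a s t κ ι S) (hD : IsDr a s t D) (hp : IsPair ι D p)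
    (hα : α ∈ LamS 3 S) (k : Fin 3) {v : Plc (kap L s t k) E} {b : Co (kap L s t k)} {x y : E}
    (hc : Cv b x y) (hv : IsP v x y) (h1 : v.1 (x * D k y - y * D k x) ≤ exp 6)
    (h2 : v.1 (D k x) ≤ exp 5) (h3 : ∀ l, l ≠ k → D l x = 0 ∧ D l y = 0) :
    v.1 (p α) ≤ exp 2 := by
  obtain ⟨P, -, hP, hu⟩ := hc.exists_P
  obtain rfl : v = P := hu v (by rw [hv.1, ← exp_zero, exp_lt_exp]; norm_num)
    (by rw [hv.1, hv.2, exp_lt_exp]; norm_num)
  have hx : x ≠ 0 := fun h0 => by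
    have := hv.1
    rw [h0, map_zero] at this
    exact exp_ne_zero this.symm
  have hi : v.1 x⁻¹ = exp (-2) := by rw [map_inv₀, hv.1, exp_neg]
  obtain ⟨T, hT, hTW⟩ := h.val v.1.valuationSubring fun c => v.2.2 (algebraMap L _ c)
  have key := (hp.scale fun l => if l = k then x⁻¹ else 1).mem v.1.valuationSubring.toSubring
    (fun l z hz => hP.stable ?_ ?_ _ (fun c => ?_) ?_ ?_ hz) hT hTW hα
  · have h4 : (∏ l, if l = k then x⁻¹ else 1) * p α ∈ v.1.valuationSubring := key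
    rw [Finset.prod_ite_eq', if_pos (Finset.mem_univ k), Valuation.mem_valuationSubring_iff,
      map_mul, map_inv₀, hv.1, inv_mul_le_one₀ exp_pos] at h4
    exact h4
  · rw [div_eq_mul_inv, map_mul, hi, hv.2, ← exp_add, ← exp_zero, exp_lt_exp]
    norm_num
  · rw [hi, ← exp_zero, exp_lt_exp]
    norm_num
  · have h4 := hD.kap k l c.2
    rw [Derivation.smul_apply]
    by_cases hl : l = k
    · rw [show D l (algebraMap _ E c) = 0 from h4.2 hl, smul_zero, map_zero]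
      exact zero_le_one
    · rw [if_neg hl, one_smul]
      exact v.2.2 ⟨_, h4.1⟩
  · rw [Derivation.smul_apply, Derivation.leibniz_div]
    by_cases hl : l = k
    · rw [if_pos hl, hl, smul_eq_mul, smul_eq_mul, smul_eq_mul, smul_eq_mul, map_mul, map_mul,
        map_pow, hi]
      calc _ ≤ exp (-2) * (exp (-2) ^ 2 * exp 6) := by gcongr
        _ = 1 := by rw [← exp_nsmul, ← exp_add, ← exp_add, ← exp_zero]; norm_num
    · rw [(h3 l hl).1, (h3 l hl).2]
      simp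
  · rw [Derivation.smul_apply, Derivation.leibniz_inv]
    by_cases hl : l = k
    · rw [if_pos hl, hl, smul_eq_mul, smul_eq_mul, map_mul, map_mul, Valuation.map_neg, map_pow,
        hi]
      calc _ ≤ exp (-2) * (exp (-2) ^ 2 * exp 5) := by gcongr
        _ ≤ 1 := by rw [← exp_nsmul, ← exp_add, ← exp_add, ← exp_zero, exp_le_exp]; norm_num
    · rw [(h3 l hl).1]
      simp

/-- Compare `Kh.Setup'.loc`: scale `D k` by `(s k)⁻¹` (resp. `(t k)⁻¹`) with `IsPair.scale`; the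
valuation ring is stable (`Cv.exists_P` for `h.gen.one k` and its `swap`, `LocR.stable`,
`IsP.euler`, `IsDr.kap`), so `IsPair.mem` applies. -/
theorem Set3.inf (h : Set3 a s t κ ι S) (hD : IsDr a s t D) (hp : IsPair ι D p)
    (hα : α ∈ LamS 3 S) (k : Fin 3) {v : Plc (kap L s t k) E}
    (hv : IsP v (s k) (t k) ∨ IsP v (t k) (s k)) : v.1 (p α) ≤ exp 2 := by
  have h1 := h.gen.one k
  have e1 : D k (s k) = (a.up E).Ft (s k) (t k) := by rw [(hD k k).1, if_pos rfl]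
  have e2 : D k (t k) = -(a.up E).Fs (s k) (t k) := by rw [(hD k k).2, if_pos rfl]
  have e3 : ∀ l, l ≠ k → D l (s k) = 0 ∧ D l (t k) = 0 := fun l hl =>
    ⟨by rw [(hD l k).1, if_neg hl], by rw [(hD l k).2, if_neg hl]⟩
  rcases hv with hv | hv
  · obtain ⟨b1, b2⟩ := hv.euler h1.eq
    rw [Co.up_up] at b1 b2
    refine h3_loc h hD hp hα k h1 hv ?_ (e1 ▸ b2) e3
    rw [e1, e2, mul_neg, ← neg_add', Valuation.map_neg]
    exact b1
  · obtain ⟨b1, b2⟩ := hv.euler h1.swap.eq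
    rw [Co.up, Co.map_swap, Co.swap_Ft] at b1 b2
    rw [Co.swap_Fs] at b1
    rw [← Co.up, Co.up_up] at b1 b2
    refine h3_loc h hD hp hα k h1.swap hv ?_ ?_ fun l hl => (e3 l hl).symm
    · rw [e1, e2, mul_neg, sub_neg_eq_add]
      exact b1
    · rw [e2, Valuation.map_neg]
      exact b2

/-- Compare `Kh.Setup'.alt`, with the place of `Cv.exists_at` at the point `(s l, t l)`. -/
theorem Set3.alt (h : Set3 a s t κ ι S) (hD : IsDr a s t D) (hp : IsPair ι D p)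
    (hα : α ∈ LamS 3 S) {k l : Fin 3} (hl : l ≠ k) {c₀ c₁ c₂ : E} (h0 : c₀ ∈ kap L s t k)
    (h1 : c₁ ∈ kap L s t k) (h2 : c₂ ∈ kap L s t k) (he : p α = c₀ + c₁ * s k + c₂ * t k) :
    c₀ + c₁ * s l + c₂ * t l = 0 := by
  let ξ : ∀ i, i ≠ k → kap L s t k := fun i hi => ⟨s i, x_mem_kap hi⟩
  let η : ∀ i, i ≠ k → kap L s t k := fun i hi => ⟨t i, y_mem_kap hi⟩
  obtain ⟨v, hv, -⟩ := (h.gen.one k).exists_at (s₀ := ξ l hl) (t₀ := η l hl)
    ((algebraMap (kap L s t k) E).injective (by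
      rw [Co.map_F, map_zero, ← Co.up, Co.up_up]
      exact h.gen.eq l))
  have hc : ∀ i hi, At v (s i) (t i) (ξ i hi) (η i hi) := fun i hi =>
    ⟨Kh.vl_const v (ξ i hi), Kh.vl_const v (η i hi)⟩
  obtain ⟨τ, s1, s2⟩ := h.gen.exists_perm (Equiv.swap k l)
  obtain ⟨T, hT, -⟩ := h.val ⊤ fun _ => trivial
  have h3 := hp.perm τ.toRingHom _ (h.sym _ τ s1 s2) (h.gen.perm_D hD s1 s2) hT hα
  have key : ∀ i, ∃ i' hi', At v (s i) (t i) (ξ i' hi') (η i' hi') ∧
      At v (s (Equiv.swap k l i)) (t (Equiv.swap k l i)) (ξ i' hi') (η i' hi') := fun i => by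
    by_cases hk : i = k
    · subst hk
      exact ⟨l, hl, hv, by rw [Equiv.swap_apply_left]; exact hc l hl⟩
    · by_cases hi : i = l
      · subst hi
        exact ⟨i, hl, hc i hl, by rw [Equiv.swap_apply_right]; exact hv⟩
      · exact ⟨i, hk, hc i hk, by rw [Equiv.swap_apply_of_ne_of_ne hk hi]; exact hc i hk⟩
  have two : ∀ {z z' : E} {c : kap L s t k}, Kh.Vl v z c → Kh.Vl v z' c →
      v.1 z ≤ 1 ∧ v.1 (z' - z) < 1 := fun {z z' c} hz hz' =>
    ⟨hz.le_one, Kh.vl_zero.1 (sub_self c ▸ hz'.sub hz)⟩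
  have h4 := (Kh.cong_of_gen (K := L) v.1 (fun c => v.2.2 (algebraMap L (kap L s t k) c)) τ
    (G := Set.range s ∪ Set.range t) (by
      rintro _ (⟨i, rfl⟩ | ⟨i, rfl⟩) <;> obtain ⟨i', hi', a1, a2⟩ := key i
      · rw [s1]
        exact two a1.1 a2.1
      · rw [s2]
        exact two a1.2 a2.2) (h.mem hD hp hα)).2
  have : CharZero (kap L s t k) := charZero_of_injective_algebraMap (algebraMap L _).injective
  have h5 : Kh.Vl v (p α) 0 := by
    have e1 : τ (p α) - p α = algebraMap (kap L s t k) E (-2) * p α := by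
      have h6 : τ (p α) = _ := h3
      rw [h6, Equiv.Perm.sign_swap hl.symm, map_neg, map_ofNat]
      push_cast
      ring
    rwa [e1, map_mul, Kh.plc_eq_one v (neg_ne_zero.2 two_ne_zero), one_mul, ← Kh.vl_zero] at h4
  have h6 := h5.unique (he ▸ ((Kh.vl_const v ⟨c₀, h0⟩).add
    ((Kh.vl_const v ⟨c₁, h1⟩).mul hv.1)).add ((Kh.vl_const v ⟨c₂, h2⟩).mul hv.2))
  exact (congrArg Subtype.val h6).symm

/-- Compare `Kh.Setup'.hol`: `Cv.L22`, `Kh.div_det_mem`, `Gn.const`. -/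
theorem Set3.hol (h : Set3 a s t κ ι S) (hD : IsDr a s t D) (hp : IsPair ι D p)
    (hα : α ∈ LamS 3 S) : ∃ lam : L, p α = algebraMap L E lam * Dl s t := by
  have h0 := h.gen.Dl_ne
  obtain ⟨lam, hlam⟩ := h.gen.const (z := p α / Dl s t) fun k => by
    have h1 := h.gen.one k
    obtain ⟨P, hP, -⟩ := h1.exists_P
    obtain ⟨Q, hQ, -⟩ := h1.swap.exists_P
    have h2 : RR L s t ≤ (Algebra.adjoin (kap L s t k) {s k, t k}).restrictScalars L := by
      refine Algebra.adjoin_le ?_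
      rintro _ (⟨l, rfl⟩ | ⟨l, rfl⟩) <;> by_cases hl : l = k
      · exact Algebra.subset_adjoin (R := kap L s t k) (Or.inl (hl ▸ rfl))
      · exact Subalgebra.algebraMap_mem (R := kap L s t k) _ ⟨s l, x_mem_kap hl⟩
      · exact Algebra.subset_adjoin (R := kap L s t k) (Or.inr (hl ▸ rfl))
      · exact Subalgebra.algebraMap_mem (R := kap L s t k) _ ⟨t l, y_mem_kap hl⟩
    obtain ⟨c₀, c₁, c₂, hc⟩ := h1.L22 hP hQ (h2 (h.mem hD hp hα))
      (h.inf hD hp hα k (Or.inl hP)) (h.inf hD hp hα k (Or.inr hQ))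
    have e1 : ∀ l, ∑ J, ![(c₀ : E), c₁, c₂] J * Matrix.of ![fun _ => 1, s, t] J l =
        c₀ + c₁ * s l + c₂ * t l := fun l => by simp [Fin.sum_univ_three]
    rw [Dl_eq_det] at h0 ⊢
    rw [show p α = _ from hc.trans (e1 k).symm]
    refine Kh.div_det_mem _ (kap L s t k) k (fun J l hl => ?_) h0 (fun J => ?_) fun l hl =>
      (e1 l).trans (h.alt hD hp hα hl c₀.2 c₁.2 c₂.2 hc)
    · fin_cases J
      exacts [one_mem _, x_mem_kap hl, y_mem_kap hl]
    · fin_cases J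
      exacts [c₀.2, c₁.2, c₂.2]
  exact ⟨lam, by rw [hlam, div_mul_cancel₀ _ h0]⟩

end Pool.Agent.Lib.MP_07b2d0_nt.G3
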