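import Mathlib

/-!
Power series solutions.
-/

set_option autoImplicit false

namespace Pool.Agent.Lib.MP_07b2d0_nt.G3

open Polynomial

/-- A monic polynomial `Y ^ (k + 2) + b Y ^ (k + 1) + a W` with `a ≡ 0` and `b` a unit modulo `X`
has a root `≡ - b`. -/
theorem s1_root {O : Type} [CommRing O] (a b : PowerSeries O) (k : ℕ) (W : (PowerSeries O)[X])
    (hW : W.degree < ((k + 2 : ℕ) : WithBot ℕ)) (h0 : PowerSeries.constantCoeff a = 0)
    (h1 : IsUnit (PowerSeries.constantCoeff b)) :
    ∃ y : PowerSeries O, y ^ (k + 2) + b * y ^ (k + 1) + a * W.eval y = 0 ∧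
      PowerSeries.constantCoeff y = - PowerSeries.constantCoeff b := by
  have hb : IsUnit b := PowerSeries.isUnit_iff_constantCoeff.2 h1
  have haI : a ∈ Ideal.span {(PowerSeries.X : PowerSeries O)} :=
    Ideal.mem_span_singleton.2 (PowerSeries.X_dvd_iff.2 h0)
  have hdeg : (C b * X ^ (k + 1) + C a * W : (PowerSeries O)[X]).degree <
      ((k + 2 : ℕ) : WithBot ℕ) := by
    refine lt_of_le_of_lt (degree_add_le _ _) (max_lt ?_ ?_)
    · refine lt_of_le_of_lt (degree_C_mul_X_pow_le _ _) ?_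
      exact_mod_cast Nat.lt_succ_self (k + 1)
    · rw [← smul_eq_C_mul]
      exact lt_of_le_of_lt (degree_smul_le _ _) hW
  have hm : (X ^ (k + 2) + (C b * X ^ (k + 1) + C a * W) : (PowerSeries O)[X]).Monic :=
    monic_X_pow_add hdeg
  obtain ⟨y, hy, hyI⟩ := HenselianRing.is_henselian
    (I := Ideal.span {(PowerSeries.X : PowerSeries O)}) _ hm (-b)
    (by
      have e : (X ^ (k + 2) + (C b * X ^ (k + 1) + C a * W) : (PowerSeries O)[X]).eval (-b) =
          a * W.eval (-b) := by
        simp only [eval_add, eval_mul, eval_pow, eval_X, eval_C]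
        ring
      rw [e]
      exact Ideal.mul_mem_right _ _ haI)
    (by
      have e : (derivative (X ^ (k + 2) + (C b * X ^ (k + 1) + C a * W) :
          (PowerSeries O)[X])).eval (-b) = (-b) ^ (k + 1) + a * (derivative W).eval (-b) := by
        simp only [derivative_add, derivative_mul, derivative_C, derivative_X_pow, eval_add,
          eval_mul, eval_pow, eval_X, eval_C, zero_mul, zero_add, Nat.add_sub_cancel,
          show k + 2 - 1 = k + 1 from rfl]
        push_cast
        ring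
      rw [e, map_add, map_mul, Ideal.Quotient.eq_zero_iff_mem.2 haI, zero_mul, add_zero]
      exact (hb.neg.pow _).map _)
  refine ⟨y, ?_, ?_⟩
  · have := hy.eq_zero
    simp only [eval_add, eval_mul, eval_pow, eval_X, eval_C] at this
    rw [← this]
    ring
  · have h2 := PowerSeries.X_dvd_iff.1 (Ideal.mem_span_singleton.1 hyI)
    rw [map_sub, map_neg] at h2
    exact sub_eq_zero.1 h2

/-- With `g i` the coefficients of `G` and `n` the degree, the monic polynomial
`Y ^ n + g 1 Y ^ (n - 1) + g 2 g 0 Y ^ (n - 2) + g 3 (g 0) ^ 2 Y ^ (n - 3) + ⋯` has a simple root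
`Y ≡ - g 1` modulo `X` (`IsAdicComplete.henselianRing`); put `ω = g 0 / Y`. -/
theorem exists_omega {O : Type} [CommRing O] (G : (PowerSeries O)[X])
    (h0 : PowerSeries.constantCoeff (G.coeff 0) = 0)
    (h1 : IsUnit (PowerSeries.constantCoeff (G.coeff 1))) :
    ∃ ε : (PowerSeries O)ˣ, G.eval (G.coeff 0 * ε) = 0 ∧
      PowerSeries.constantCoeff (ε : PowerSeries O) * PowerSeries.constantCoeff (G.coeff 1) = -1 := by
  set k := G.natDegree with hk
  obtain ⟨y, hy, hy0⟩ := s1_root (G.coeff 0) (G.coeff 1) k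
    (∑ i ∈ Finset.range (k + 1), C (G.coeff (i + 2) * G.coeff 0 ^ i) * X ^ (k - i))
    (by
      refine lt_of_le_of_lt (degree_sum_le _ _) ?_
      refine (Finset.sup_lt_iff (WithBot.bot_lt_coe _)).2 fun i _ => ?_
      refine lt_of_le_of_lt (degree_C_mul_X_pow_le _ _) ?_
      exact_mod_cast (by omega : k - i < k + 2)) h0 h1
  have hu : IsUnit y := PowerSeries.isUnit_iff_constantCoeff.2 (hy0 ▸ h1.neg)
  obtain ⟨u, rfl⟩ := hu
  refine ⟨u⁻¹, ?_, ?_⟩
  · have hv : (u : PowerSeries O) * (u⁻¹ : (PowerSeries O)ˣ) = 1 := u.mul_inv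
    generalize ((u⁻¹ : (PowerSeries O)ˣ) : PowerSeries O) = v at hv
    generalize (u : PowerSeries O) = y at hv hy
    rw [eval_eq_sum_range' (show G.natDegree < k + 1 + 1 + 1 by omega), Finset.sum_range_succ',
      Finset.sum_range_succ']
    rw [eval_finsetSum] at hy
    have e : ∑ i ∈ Finset.range (k + 1), G.coeff (i + 1 + 1) * (G.coeff 0 * v) ^ (i + 1 + 1) =
        G.coeff 0 * v ^ (k + 2) * (G.coeff 0 * ∑ i ∈ Finset.range (k + 1),
          (C (G.coeff (i + 2) * G.coeff 0 ^ i) * X ^ (k - i)).eval y) := by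
      rw [Finset.mul_sum, Finset.mul_sum]
      refine Finset.sum_congr rfl fun i hi => ?_
      obtain ⟨j, hj⟩ : ∃ j, k = i + j := ⟨k - i, by have := Finset.mem_range.1 hi; omega⟩
      have h3 : (y * v) ^ j = 1 := by rw [hv, one_pow]
      rw [eval_mul, eval_C, eval_pow, eval_X, show k - i = j by omega, hj]
      linear_combination (-(G.coeff (i + 2) * G.coeff 0 ^ (i + 2) * v ^ (i + 2))) * h3
    have h4 : (y * v) ^ (k + 1) = 1 := by rw [hv, one_pow]
    have h5 : (y * v) ^ (k + 2) = 1 := by rw [hv, one_pow]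
    rw [e]
    linear_combination (G.coeff 0 * v ^ (k + 2)) * hy - G.coeff 0 * h5 -
      G.coeff 1 * G.coeff 0 * v * h4
  · have hv : (u : PowerSeries O) * (u⁻¹ : (PowerSeries O)ˣ) = 1 := u.mul_inv
    have h2 := congrArg PowerSeries.constantCoeff hv
    rw [map_mul, map_one, hy0] at h2
    linear_combination -h2

variable {O : Type} [CommRing O] [IsDomain O] [IsDiscreteValuationRing O]

theorem s1_div {π : O} (hπ : Irreducible π) {f : PowerSeries O}
    (h : PowerSeries.map (IsLocalRing.residue O) f = 0) : ∃ g, f = PowerSeries.C π * g := by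
  have h1 : ∀ i, ∃ c, PowerSeries.coeff i f = π * c := fun i => by
    have h2 := congrArg (PowerSeries.coeff i) h
    rw [PowerSeries.coeff_map, map_zero, IsLocalRing.residue_eq_zero_iff,
      hπ.maximalIdeal_eq, Ideal.mem_span_singleton] at h2
    exact h2
  choose c hc using h1
  refine ⟨PowerSeries.mk c, PowerSeries.ext fun i => ?_⟩
  rw [PowerSeries.coeff_C_mul, PowerSeries.coeff_mk, hc]

theorem s1_prim_aux {π : O} (hπ : Irreducible π) (B : Subring (PowerSeries O))
    (hB : ∀ f, PowerSeries.C π * f ∈ B → f ∈ B) (k m : ℕ) :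
    ∀ f : PowerSeries O, f ∈ B → ¬ π ^ m ∣ PowerSeries.coeff k f →
      ∃ (n : ℕ) (g : PowerSeries O), g ∈ B ∧ f = PowerSeries.C π ^ n * g ∧
        PowerSeries.map (IsLocalRing.residue O) g ≠ 0 := by
  induction m with
  | zero => exact fun f _ h => absurd (by rw [pow_zero]; exact one_dvd _) h
  | succ m ih =>
    intro f hf h
    by_cases h0 : PowerSeries.map (IsLocalRing.residue O) f = 0
    · obtain ⟨f', rfl⟩ := s1_div hπ h0
      obtain ⟨n, g, hg, e, hp⟩ := ih f' (hB _ hf) fun h' => h (by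
        rw [PowerSeries.coeff_C_mul, pow_succ']
        exact mul_dvd_mul_left _ h')
      exact ⟨n + 1, g, hg, by rw [e]; ring, hp⟩
    · exact ⟨0, f, hf, by rw [pow_zero, one_mul], h0⟩

/-- Scaling inside a saturated subring. -/
theorem exists_prim {π : O} (hπ : Irreducible π) (B : Subring (PowerSeries O))
    (hB : ∀ f, PowerSeries.C π * f ∈ B → f ∈ B) {f : PowerSeries O} (hf : f ∈ B) (h0 : f ≠ 0) :
    ∃ (n : ℕ) (g : PowerSeries O), g ∈ B ∧ f = PowerSeries.C π ^ n * g ∧
      PowerSeries.map (IsLocalRing.residue O) g ≠ 0 := by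
  obtain ⟨k, hk⟩ : ∃ k, PowerSeries.coeff k f ≠ 0 := by
    by_contra h
    push Not at h
    exact h0 (PowerSeries.ext fun i => by rw [h i, map_zero])
  obtain ⟨j, u, hu⟩ := IsDiscreteValuationRing.eq_unit_mul_pow_irreducible hk hπ
  refine s1_prim_aux hπ B hB k (j + 1) f hf fun h => ?_
  rw [hu, Units.dvd_mul_left, pow_succ] at h
  have h2 : π ^ j * π ∣ π ^ j * 1 := by rwa [mul_one]
  exact hπ.not_isUnit (isUnit_of_dvd_one
    ((mul_dvd_mul_iff_left (pow_ne_zero j hπ.ne_zero)).1 h2))

theorem s1_unit {e : O} {w : PowerSeries O}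
    (h : PowerSeries.map (IsLocalRing.residue O) (PowerSeries.C e * w) ≠ 0) : IsUnit e := by
  by_contra hu
  apply h
  rw [map_mul, PowerSeries.map_C, (IsLocalRing.residue_eq_zero_iff e).2 hu, map_zero, zero_mul]

omit [IsDomain O] [IsDiscreteValuationRing O] in
theorem s1_C_ne {d : O} (hd : d ≠ 0) : (PowerSeries.C d : PowerSeries O) ≠ 0 := fun h =>
  hd (by simpa using congrArg PowerSeries.constantCoeff h)

/-- If `f g = c u` holds over the fraction field with `f, g, u` primitive then `c` is a unit. -/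
theorem unit_of_prim {f g u : PowerSeries O} {c d : O} (hd : d ≠ 0)
    (hf : PowerSeries.map (IsLocalRing.residue O) f ≠ 0)
    (hg : PowerSeries.map (IsLocalRing.residue O) g ≠ 0)
    (hu : PowerSeries.map (IsLocalRing.residue O) u ≠ 0)
    (h : PowerSeries.C d * (f * g) = PowerSeries.C c * u) :
    ∃ e : Oˣ, f * g = PowerSeries.C (e : O) * u := by
  have hw : PowerSeries.map (IsLocalRing.residue O) (f * g) ≠ 0 := by
    rw [map_mul]
    exact mul_ne_zero hf hg
  generalize f * g = w at h hw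
  rcases ValuationRing.dvd_total d c with ⟨e, rfl⟩ | ⟨e, rfl⟩
  · have h2 : w = PowerSeries.C e * u := by
      apply mul_left_cancel₀ (s1_C_ne hd)
      rw [h, map_mul, mul_assoc]
    obtain ⟨e', rfl⟩ := s1_unit (h2 ▸ hw)
    exact ⟨e', h2⟩
  · have h2 : u = PowerSeries.C e * w := by
      apply mul_left_cancel₀ (s1_C_ne (left_ne_zero_of_mul hd))
      rw [← h, map_mul, mul_assoc]
    obtain ⟨e', rfl⟩ := s1_unit (h2 ▸ hu)
    refine ⟨e'⁻¹, ?_⟩
    rw [h2, ← mul_assoc, ← map_mul, Units.inv_mul, map_one, one_mul]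

theorem s1_irr {r : O} (hr : r ∈ IsLocalRing.maximalIdeal O) :
    Irreducible (PowerSeries.X - PowerSeries.C r : PowerSeries O) := by
  have key : ∀ a : PowerSeries O, IsUnit (PowerSeries.map (IsLocalRing.residue O) a) →
      IsUnit a := fun a ha => by
    rw [PowerSeries.isUnit_iff_constantCoeff] at ha ⊢
    rw [← PowerSeries.coeff_zero_eq_constantCoeff_apply, PowerSeries.coeff_map,
      PowerSeries.coeff_zero_eq_constantCoeff_apply] at ha
    by_contra hu
    exact ha.ne_zero ((IsLocalRing.residue_eq_zero_iff _).2 hu)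
  have e : PowerSeries.map (IsLocalRing.residue O) (PowerSeries.X - PowerSeries.C r) =
      PowerSeries.X := by
    rw [map_sub, PowerSeries.map_X, PowerSeries.map_C, (IsLocalRing.residue_eq_zero_iff r).2 hr,
      map_zero, sub_zero]
  refine ⟨fun h => ?_, fun a b hab => ?_⟩
  · have h2 := h.map (PowerSeries.map (IsLocalRing.residue O))
    rw [e] at h2
    exact PowerSeries.X_irreducible.not_isUnit h2
  · have h2 := congrArg (PowerSeries.map (IsLocalRing.residue O)) hab
    rw [e, map_mul] at h2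
    exact (PowerSeries.X_irreducible.isUnit_or_isUnit h2).imp (key a) (key b)

/-- `X` and `X - C r` are prime elements. -/
theorem eq_of_dvd_pow {r : O} (hr : r ∈ IsLocalRing.maximalIdeal O) {f : PowerSeries O} {n : ℕ}
    (h : f ∣ PowerSeries.X ^ n * (PowerSeries.X - PowerSeries.C r) ^ n) :
    ∃ (i j : ℕ) (e : (PowerSeries O)ˣ),
      f = (e : PowerSeries O) * PowerSeries.X ^ i * (PowerSeries.X - PowerSeries.C r) ^ j := by
  obtain ⟨a, b, ha, hb, rfl⟩ := exists_dvd_and_dvd_of_dvd_mul h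
  obtain ⟨i, -, u, hu⟩ := (dvd_prime_pow PowerSeries.X_prime n).1 ha
  obtain ⟨j, -, v, hv⟩ := (dvd_prime_pow
    (UniqueFactorizationMonoid.irreducible_iff_prime.1 (s1_irr hr)) n).1 hb
  refine ⟨i, j, u⁻¹ * v⁻¹, ?_⟩
  rw [← hu, ← hv, Units.val_mul]
  have h1 : (u : PowerSeries O) * (u⁻¹ : (PowerSeries O)ˣ) = 1 := u.mul_inv
  have h2 : (v : PowerSeries O) * (v⁻¹ : (PowerSeries O)ˣ) = 1 := v.mul_inv
  linear_combination (-(a * b)) * h1 - a * b * (u : PowerSeries O) *
    (u⁻¹ : (PowerSeries O)ˣ) * h2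

end Pool.Agent.Lib.MP_07b2d0_nt.G3
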