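import Pool.Agent.Lib.MP_07b2d0_nt.G3.HD
import Pool.Agent.Lib.MP_07b2d0_nt.G3.S1

/-!
The étale model.
-/

set_option autoImplicit false

namespace Pool.Agent.Lib.MP_07b2d0_nt.G3

open Polynomial Fh

variable {O A : Type} [CommRing O] [CommRing A] [Algebra O A] {m : Fin 7 → O} {τ ω : Fin 3 → A}

theorem h4_Gm {B B' : Type} [CommRing B] [Algebra O B] [CommRing B'] [Algebra O B']
    (φ : B →ₐ[O] B') (m : Fin 7 → O) (u w : B) :
    φ (Gm (fun i => algebraMap O B (m i)) u w) =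
      Gm (fun i => algebraMap O B' (m i)) (φ u) (φ w) := by
  simp only [Gm, map_add, map_mul, map_pow, AlgHom.commutes]

theorem h4_Gw {B B' : Type} [CommRing B] [Algebra O B] [CommRing B'] [Algebra O B']
    (φ : B →ₐ[O] B') (m : Fin 7 → O) (u w : B) :
    φ (Gw (fun i => algebraMap O B (m i)) u w) =
      Gw (fun i => algebraMap O B' (m i)) (φ u) (φ w) := by
  simp only [Gw, map_add, map_mul, map_pow, map_one, map_ofNat, AlgHom.commutes]

theorem h4_newton {B : Type} [CommRing B] (n : Fin 7 → B) (u w δ : B) (h : δ ^ 2 = 0) :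
    Gm n u (w + δ) = Gm n u w + Gw n u w * δ := by
  simp only [Gm, Gw]
  linear_combination (n 1 + n 2 * u + n 3 * u ^ 2 + n 4 * (3 * w + δ) + n 5 * u * (3 * w + δ) +
    n 6 * (6 * w ^ 2 + 4 * w * δ + δ ^ 2)) * h

/-- The variables of the model. -/
abbrev h4_var : Type := (Fin 3 ⊕ Fin 3) ⊕ (Fin 3 ⊕ Fin 3)

/-- The relations of the model. -/
noncomputable def h4_rel {B : Type} [CommRing B] [Algebra O B] (m : Fin 7 → O) (z : h4_var → B) :
    h4_var → B
  | .inl (.inl _) => 0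
  | .inl (.inr k) => Gm (fun i => algebraMap O B (m i)) (z (.inl (.inl k))) (z (.inl (.inr k)))
  | .inr (.inl k) => z (.inl (.inr k)) * z (.inr (.inl k)) - 1
  | .inr (.inr k) => Gw (fun i => algebraMap O B (m i)) (z (.inl (.inl k))) (z (.inl (.inr k))) *
      z (.inr (.inr k)) - 1

theorem h4_rel_map {B B' : Type} [CommRing B] [Algebra O B] [CommRing B'] [Algebra O B']
    (φ : B →ₐ[O] B') (z : h4_var → B) (t : h4_var) :
    φ (h4_rel m z t) = h4_rel m (fun s => φ (z s)) t := by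
  rcases t with (k | k) | (k | k) <;>
    simp only [h4_rel, map_zero, map_sub, map_mul, map_one, h4_Gm, h4_Gw]

/-- Compare `Kh.exists_mdl`. -/
theorem exists_mdl3 (m : Fin 7 → O) :
    ∃ (A : Type) (_ : CommRing A) (_ : Algebra O A) (τ ω : Fin 3 → A), IsMdl3 m τ ω := by
  let I : Ideal (MvPolynomial h4_var O) := Ideal.span (Set.range (h4_rel m MvPolynomial.X))
  let π := Ideal.Quotient.mkₐ O I
  let z : h4_var → MvPolynomial h4_var O ⧸ I := fun s => π (MvPolynomial.X s)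
  have hz : ∀ t, h4_rel m z t = 0 := fun t => by
    rw [← h4_rel_map π]
    exact Ideal.Quotient.eq_zero_iff_mem.2 (Ideal.subset_span ⟨t, rfl⟩)
  have h1 : ∀ k, z (.inl (.inr k)) * z (.inr (.inl k)) = 1 :=
    fun k => sub_eq_zero.1 (hz (.inr (.inl k)))
  have h2 : ∀ k, Gw (fun i => algebraMap O _ (m i)) (z (.inl (.inl k))) (z (.inl (.inr k))) *
      z (.inr (.inr k)) = 1 :=
    fun k => sub_eq_zero.1 (hz (.inr (.inr k)))
  refine ⟨MvPolynomial h4_var O ⧸ I, inferInstance, inferInstance,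
    fun k => z (.inl (.inl k)), fun k => z (.inl (.inr k)), fun k => hz (.inl (.inr k)),
    fun k => ⟨IsUnit.of_mul_eq_one _ (h1 k), IsUnit.of_mul_eq_one _ (h2 k)⟩,
    inferInstance, fun B _ _ φ ψ e1 e2 => ?_, fun B _ _ u w e1 e2 => ?_⟩
  · have key : ∀ u v, u * v = 1 → φ u = ψ u → φ v = ψ v := fun u v huv hu => by
      have k1 : φ u * φ v = 1 := by rw [← map_mul, huv, map_one]
      have k2 : φ u * ψ v = 1 := by rw [hu, ← map_mul, huv, map_one]
      linear_combination ψ v * k1 - φ v * k2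
    refine Ideal.Quotient.algHom_ext O (MvPolynomial.algHom_ext fun t => ?_)
    change φ (z t) = ψ (z t)
    rcases t with (k | k) | (k | k)
    · exact e1 k
    · exact e2 k
    · exact key _ _ (h1 k) (e2 k)
    · refine key _ _ (h2 k) ?_
      rw [h4_Gw, h4_Gw, e1 k, e2 k]
  · choose a ha using fun k => (e2 k).1.exists_right_inv
    choose b hb using fun k => (e2 k).2.exists_right_inv
    let y : h4_var → B := Sum.elim (Sum.elim u w) (Sum.elim a b)
    have hy : ∀ t, h4_rel m y t = 0 := by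
      rintro ((k | k) | (k | k))
      · rfl
      · exact e1 k
      · exact sub_eq_zero.2 (ha k)
      · exact sub_eq_zero.2 (hb k)
    have hI : ∀ p ∈ I, MvPolynomial.aeval y p = 0 := fun p hp => by
      refine (Ideal.span_le (I := RingHom.ker (MvPolynomial.aeval y))).2 ?_ hp
      rintro _ ⟨t, rfl⟩
      rw [SetLike.mem_coe, RingHom.mem_ker, h4_rel_map]
      simp only [MvPolynomial.aeval_X]
      exact hy t
    exact ⟨Ideal.Quotient.liftₐ I (MvPolynomial.aeval y) hI,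
      fun k => MvPolynomial.aeval_X y (.inl (.inl k)),
      fun k => MvPolynomial.aeval_X y (.inl (.inr k))⟩

/-- One Newton step in `ω`; compare `Kh.IsMdl.smooth`. -/
theorem IsMdl3.smooth [IsNoetherianRing O] (h : IsMdl3 m τ ω) : Algebra.Smooth O A := by
  refine ⟨Algebra.FormallySmooth.of_comp_surjective fun B _ _ I hI φ => ?_,
    Algebra.FinitePresentation.of_finiteType.1 h.fin⟩
  have un : ∀ {z : B} {y : A}, IsUnit y → Ideal.Quotient.mkₐ O I z = φ y → IsUnit z :=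
    fun hy e => (IsNilpotent.isUnit_quotient_mk_iff (I := I) ⟨2, hI⟩).1 (e ▸ hy.map φ :)
  choose s hs using fun k => Ideal.Quotient.mkₐ_surjective O I (φ (τ k))
  have u1 : ∀ k z, Ideal.Quotient.mkₐ O I z = φ (ω k) →
      IsUnit (Gw (fun i => algebraMap O B (m i)) (s k) z) := fun k z e =>
    un (h.unit k).2 (by rw [h4_Gw, h4_Gw, hs, e])
  have key : ∀ k, ∃ w, Ideal.Quotient.mkₐ O I w = φ (ω k) ∧
      Gm (fun i => algebraMap O B (m i)) (s k) w = 0 := fun k => by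
    obtain ⟨t, ht⟩ := Ideal.Quotient.mkₐ_surjective O I (φ (ω k))
    have h1 : Gm (fun i => algebraMap O B (m i)) (s k) t ∈ I := by
      rw [← Ideal.Quotient.eq_zero_iff_mem, ← Ideal.Quotient.mkₐ_eq_mk O, h4_Gm, hs, ht, ← h4_Gm,
        h.rel, map_zero]
    obtain ⟨c, hc⟩ := u1 k t ht
    have h2 := I.mul_mem_left (-↑c⁻¹ : B) h1
    refine ⟨t + -↑c⁻¹ * Gm (fun i => algebraMap O B (m i)) (s k) t, ?_, ?_⟩
    · rw [map_add, ht, Ideal.Quotient.mkₐ_eq_mk, Ideal.Quotient.eq_zero_iff_mem.2 h2, add_zero]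
    · rw [h4_newton _ _ _ _ (Ideal.mem_bot.1 (hI ▸ Ideal.pow_mem_pow h2 2)), ← hc, neg_mul,
        mul_neg, Units.mul_inv_cancel_left, add_neg_cancel]
  choose w hw hw' using key
  obtain ⟨ψ, h1, h2⟩ := h.lift B s w hw' fun k => ⟨un (h.unit k).1 (hw k), u1 k _ (hw k)⟩
  exact ⟨ψ, h.ext _ _ _ (fun k => (congrArg _ (h1 k)).trans (hs k))
    fun k => (congrArg _ (h2 k)).trans (hw k)⟩

theorem h4_omega {κ : Type} [CommRing κ] (n : Fin 7 → PowerSeries κ) (u : PowerSeries κ)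
    (hu : PowerSeries.constantCoeff u = 0) :
    ∃ ε : (PowerSeries κ)ˣ, Gm n u (u ^ 2 * ε) = 0 ∧ IsUnit (Gw n u (u ^ 2 * ε)) := by
  let G : (PowerSeries κ)[X] := C (u ^ 2) + C (1 + n 0 * u ^ 3) * X +
    C (n 1 + n 2 * u + n 3 * u ^ 2) * X ^ 2 + C (n 4 + n 5 * u) * X ^ 3 + C (n 6) * X ^ 4
  have g0 : G.coeff 0 = u ^ 2 := by
    simp only [G, coeff_add, coeff_C_mul, coeff_X_pow, coeff_C_zero, coeff_X_zero]
    simp
  have g1 : G.coeff 1 = 1 + n 0 * u ^ 3 := by
    simp only [G, coeff_add, coeff_C_mul, coeff_X_pow, coeff_C_succ, coeff_X_one]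
    simp
  obtain ⟨ε, h1, -⟩ := exists_omega G (by simp [g0, hu]) (by simp [g1, hu])
  refine ⟨ε, ?_, PowerSeries.isUnit_iff_constantCoeff.2 ?_⟩
  · rw [g0] at h1
    simp only [G, eval_add, eval_mul, eval_pow, eval_C, eval_X] at h1
    rw [Gm]
    linear_combination h1
  · simp [Gw, hu]

/-- Let `Ω` be the fraction field of `κ⟦X⟧`, `κ` the fraction field of `O / 𝔭`.  Send `τ k` to
`X ^ (k + 1)` and `ω k` to `X ^ (2 k + 2) ε k` (`exists_omega`); then `Gw` has constant term one and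
`Dl = X ^ 4 (- ε 0 + X (ε 0 + ε 1) - X ^ 3 (ε 1 + ε 2) + X ^ 4 ε 2)`. -/
theorem IsMdl3.exists_chi (h : IsMdl3 m τ ω) {𝔭 : Ideal O} (h𝔭 : 𝔭.IsPrime) :
    ∃ (Ω : Type) (_ : Field Ω) (χ : A →+* Ω), (∀ z ∈ 𝔭, χ (algebraMap O A z) = 0) ∧
      χ (Dl τ ω) ≠ 0 := by
  let R := PowerSeries (O ⧸ 𝔭)
  let Ω := FractionRing R
  let ι : R →ₐ[O] Ω := IsScalarTower.toAlgHom O R Ω
  have hι : Function.Injective ι := IsFractionRing.injective R Ω
  have ne : ∀ z : R, z ≠ 0 → ι z ≠ 0 := fun z hz => (map_ne_zero_iff _ hι).2 hz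
  let u : Fin 3 → R := fun k => PowerSeries.X ^ (k.1 + 1)
  choose ε e1 e2 using fun k : Fin 3 =>
    h4_omega (fun i => algebraMap O R (m i)) (u k) (by simp [u])
  obtain ⟨χ, c1, c2⟩ := h.lift Ω (fun k => ι (u k)) (fun k => ι (u k ^ 2 * ε k))
    (fun k => by rw [← h4_Gm, e1, map_zero]) fun k =>
      ⟨(ne _ (mul_ne_zero (pow_ne_zero _ (pow_ne_zero _ PowerSeries.X_ne_zero))
        (ε k).ne_zero)).isUnit, by rw [← h4_Gw]; exact (e2 k).map ι⟩
  refine ⟨Ω, inferInstance, χ, fun z hz => ?_, ?_⟩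
  · rw [RingHom.coe_coe, χ.commutes, IsScalarTower.algebraMap_apply O (O ⧸ 𝔭) Ω,
      Ideal.Quotient.algebraMap_eq, Ideal.Quotient.eq_zero_iff_mem.2 hz, map_zero]
  · have e : (χ : A →+* Ω) (Dl τ ω) = ι (PowerSeries.X ^ 4 * (-(ε 0 : R) + PowerSeries.X *
        (((ε 0 : R) + (ε 1 : R)) - PowerSeries.X ^ 2 * ((ε 1 : R) + (ε 2 : R)) +
          PowerSeries.X ^ 3 * (ε 2 : R)))) := by
      rw [Dl, RingHom.coe_coe]
      simp only [map_sub, map_mul, map_add, map_neg, map_pow, c1, c2, u, Fin.val_zero, Fin.val_one,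
        Fin.val_two]
      ring
    rw [e]
    refine ne _ (mul_ne_zero (pow_ne_zero _ PowerSeries.X_ne_zero) fun h0 => ?_)
    have h3 := congrArg PowerSeries.constantCoeff h0
    rw [map_add, map_mul, PowerSeries.constantCoeff_X, zero_mul, add_zero, map_neg, map_zero,
      neg_eq_zero] at h3
    exact (PowerSeries.isUnit_iff_constantCoeff.1 (ε 0).isUnit).ne_zero h3

end Pool.Agent.Lib.MP_07b2d0_nt.G3
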