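import Pool.Agent.Lib.MP_07b2d0_nt.G3.H4
import Pool.Agent.Lib.MP_07b2d0_nt.G3.H1b
import Pool.Agent.Lib.MP_07b2d0_nt.G3.H2
import Pool.Agent.Lib.MP_07b2d0_nt.Kh.IInj
import Pool.Agent.Lib.MP_07b2d0_nt.Fh.ACon
import Pool.Agent.Lib.MP_07b2d0_nt.Fh.APair

/-!
The model inside the function field, and the integrality of the coefficient.
-/

set_option autoImplicit false

namespace Pool.Agent.Lib.MP_07b2d0_nt.G3

open Polynomial NumberField Fh

variable {L E F : Type} [Field L] [NumberField L] [Field E] [Field F] [Algebra L E] {a : Co L}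
  {s t : Fin 3 → E} {κ : 𝓞 L →+* F} {ι : F →+* E} {S : Set (Subring F)}
  {D : Fin 3 → Derivation L E E} {p : ⋀[F]^3 Ω[F⁄ℤ] →+ E} {α : ⋀[F]^3 Ω[F⁄ℤ]}
  {d : L} {m : Fin 7 → 𝓞 L}

theorem h5_Gw {O A : Type} [CommRing O] [CommRing A] [Algebra O A] (m : Fin 7 → O)
    (T : Subalgebra O A) {u w : A} (hu : u ∈ T) (hw : w ∈ T) :
    Gw (fun i => algebraMap O A (m i)) u w ∈ T ∧ Gt (fun i => algebraMap O A (m i)) u w ∈ T :=
  ⟨(map_Gw (T.val : T →+* A) (fun i => algebraMap O T (m i)) ⟨u, hu⟩ ⟨w, hw⟩).symm.subst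
      (motive := fun z => z ∈ T → Gw (fun i => algebraMap O A (m i)) u w ∈ T) id |> fun f =>
      f (Gw (fun i => algebraMap O T (m i)) ⟨u, hu⟩ ⟨w, hw⟩).2,
    (map_Gt (T.val : T →+* A) (fun i => algebraMap O T (m i)) ⟨u, hu⟩ ⟨w, hw⟩).symm.subst
      (motive := fun z => z ∈ T → Gt (fun i => algebraMap O A (m i)) u w ∈ T) id |> fun f =>
      f (Gt (fun i => algebraMap O T (m i)) ⟨u, hu⟩ ⟨w, hw⟩).2⟩

/-- The model is generated by the coordinates and by inverses of units. -/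
theorem h5_top {O A : Type} [CommRing O] [CommRing A] [Algebra O A] {m : Fin 7 → O}
    {τ ω : Fin 3 → A} (hM : IsMdl3 m τ ω) (T : Subalgebra O A) (h1 : ∀ k, τ k ∈ T)
    (h2 : ∀ k, ω k ∈ T) (h3 : ∀ z ∈ T, ∀ y, z * y = 1 → y ∈ T) (z : A) : z ∈ T := by
  have u : ∀ z : T, IsUnit (z : A) → IsUnit z := fun z hz => by
    obtain ⟨y, hy⟩ := hz.exists_right_inv
    exact IsUnit.of_mul_eq_one (⟨y, h3 z z.2 y hy⟩ : T) (Subtype.ext hy)
  obtain ⟨χ, hχ1, hχ2⟩ := hM.lift T (fun k => ⟨τ k, h1 k⟩) (fun k => ⟨ω k, h2 k⟩)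
    (fun k => Subtype.ext ((map_Gm (T.val : T →+* A) _ _ _).trans (hM.rel k)))
    fun k => ⟨u _ (hM.unit k).1, u _ (by
      have e := map_Gw (T.val : T →+* A) (fun i => algebraMap O T (m i)) ⟨τ k, h1 k⟩ ⟨ω k, h2 k⟩
      exact e.symm.subst (motive := IsUnit) (hM.unit k).2)⟩
  have := hM.ext A (T.val.comp χ) (AlgHom.id O A) (fun k => by simp [hχ1]) fun k => by simp [hχ2]
  have h5 : ((χ z : T) : A) = z := DFunLike.congr_fun this z
  exact h5 ▸ (χ z).2

omit [NumberField L] in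
theorem h5_mm (hm : ∀ i, (m i : L) = a.mm d i) (B : Type) [CommRing B] [Algebra L B]
    [Algebra (𝓞 L) B] [IsScalarTower (𝓞 L) L B] :
    (fun i => algebraMap (𝓞 L) B (m i)) = (a.up B).mm (algebraMap L B d) := by
  funext i
  rw [IsScalarTower.algebraMap_apply _ L B, show algebraMap (𝓞 L) L (m i) = _ from hm i]
  fin_cases i <;> simp [Co.mm, Co.map, map_ofNat]

omit [NumberField L] in
/-- The relation of Euler is not trivial. -/
theorem h5_euler (hs : a.Sm) {s t : E} (ht : Transcendental L s) (he : (a.up E).F s t = 0) :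
    s * (a.up E).Fs s t + t * (a.up E).Ft s t ≠ 0 := fun h => by
  have h1 := (cubic_indep hs ht he
    (A := -(C a.q0 * X ^ 2 + 2 * C a.r0 * X + 3 * C a.c ^ 2 + 3 * C a.e))
    (B := -(2 * C a.c * X + 2 * C a.r1)) (C := X ^ 2 - C a.q2) (by
      simp only [Co.F, Co.Fs, Co.Ft, Co.map] at he h
      simp only [map_add, map_mul, map_neg, map_sub, map_pow, map_ofNat, aeval_X, aeval_C]
      linear_combination h - 3 * he)).2.2
  exact X_pow_sub_C_ne_zero two_pos _ h1

open TensorProduct in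
/-- Compare `Kh.IsMdl.inj` (`Kh.iinj_fr`): `A` is flat, so it embeds in its generic fibre, to
which `RR L s t` maps by `Gn.lift_ring` and `chart_Gm`. -/
theorem IsMdl3.inj (h : Gn a s t) (hd : d ≠ 0) (hm : ∀ i, (m i : L) = a.mm d i) {A : Type}
    [CommRing A] [Algebra (𝓞 L) A] {τ ω : Fin 3 → A} (hM : IsMdl3 m τ ω) (φ : A →ₐ[𝓞 L] E)
    (h1 : ∀ k, s k * (algebraMap L E d ^ 2 * φ (ω k)) = 1)
    (h2 : ∀ k, t k * (algebraMap L E d ^ 2 * φ (ω k)) = algebraMap L E d * φ (τ k)) :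
    Function.Injective φ := by
  have hs := hM.smooth
  have hfl : Module.Flat (𝓞 L) A := inferInstance
  let i : A →ₐ[𝓞 L] L ⊗[𝓞 L] A := Algebra.TensorProduct.includeRight
  have hi : Function.Injective i :=
    Algebra.TensorProduct.includeRight_injective (IsFractionRing.injective (𝓞 L) L)
  obtain ⟨d', hd'⟩ : ∃ d', d' = algebraMap L (L ⊗[𝓞 L] A) d := ⟨_, rfl⟩
  have ud : IsUnit d' := hd' ▸ hd.isUnit.map _
  have uw : ∀ k, IsUnit (d' ^ 2 * i (ω k)) := fun k => (ud.pow 2).mul ((hM.unit k).1.map i)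
  choose u hu using fun k => (uw k).exists_left_inv
  obtain ⟨ψ, hψ1, hψ2⟩ := h.lift_ring (B := L ⊗[𝓞 L] A) (u := u)
    (w := fun k => d' * i (τ k) * u k) fun k => by
      have e := (chart_Gm (a.up (L ⊗[𝓞 L] A)) (t := d' * i (τ k) * u k) (τ := i (τ k)) (hu k)
        (by rw [mul_assoc, hu, mul_one])).1
      have e' := (map_Gm (i : A →+* L ⊗[𝓞 L] A) _ _ _).symm.trans (congrArg i (hM.rel k))
      simp only [RingHom.coe_coe, AlgHom.commutes, map_zero] at e'
      rw [h5_mm hm, ← hd'] at e'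
      rw [e', mul_zero] at e
      exact ((uw k).pow 4).mul_left_eq_zero.1 e.symm
  let X' : Fin 3 → RR L s t := fun k => ⟨s k, Algebra.subset_adjoin (.inl ⟨k, rfl⟩)⟩
  let W' : Fin 3 → RR L s t := fun k => ⟨t k, Algebra.subset_adjoin (.inr ⟨k, rfl⟩)⟩
  let v : RR L s t →ₐ[𝓞 L] E := (RR L s t).val.restrictScalars (𝓞 L)
  let ψ' : RR L s t →ₐ[𝓞 L] L ⊗[𝓞 L] A := ψ.restrictScalars (𝓞 L)
  have e1 : ∀ k, ψ' (X' k) = u k := fun k => hψ1 k _
  have e2 : ∀ k, ψ' (W' k) = d' * i (τ k) * u k := fun k => hψ2 k _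
  have e3 : ψ' (algebraMap L _ d) = d' := (ψ.commutes d).trans hd'.symm
  have e4 : ∀ k, v (X' k) = s k := fun k => rfl
  have e5 : ∀ k, v (W' k) = t k := fun k => rfl
  have e6 : v (algebraMap L _ d) = algebraMap L E d := rfl
  have uu : ∀ k, IsUnit (u k) := fun k => .of_mul_eq_one _ (hu k)
  have key := h5_top hM (Kh.iinj_fr φ i v ψ')
    (fun k => ⟨W' k, algebraMap L _ d * X' k, by rw [map_mul, e1, e3]; exact ud.mul (uu k), by
      rw [map_mul, e4, e5, e6]
      linear_combination t k * h1 k - s k * h2 k, by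
      rw [map_mul, e1, e2, e3]
      ring⟩)
    (fun k => ⟨1, algebraMap L _ d ^ 2 * X' k, by
      rw [map_mul, map_pow, e1, e3]
      exact (ud.pow 2).mul (uu k), by
      rw [map_mul, map_pow, e4, e6, map_one]
      linear_combination h1 k, by
      rw [map_mul, map_pow, e1, e3, map_one]
      linear_combination hu k⟩)
    (by
      rintro z ⟨r, q, k1, k2, k3⟩ y hy
      have f1 : φ z * φ y = 1 := by rw [← map_mul, hy, map_one]
      have f2 : i z * i y = 1 := by rw [← map_mul, hy, map_one]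
      exact ⟨q, r, k3 ▸ (IsUnit.of_mul_eq_one _ f2).mul k1,
        by linear_combination v q * f1 - φ y * k2, by linear_combination ψ' q * f2 - i y * k3⟩)
  refine (injective_iff_map_eq_zero φ).2 fun z hz => ?_
  obtain ⟨r, q, k1, k2, k3⟩ := key z
  have hr : r = 0 := Subtype.ext (by
    rw [hz, zero_mul] at k2
    exact k2.symm)
  rw [hr, map_zero, k1.mul_left_eq_zero] at k3
  exact hi (k3.trans (map_zero i).symm)

/-- Compare `Kh.exists_model`.  Here `Gw ≠ 0` in `E` because `s Fs + t Ft = 0` would be a relation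
of degree two in `t` modulo the equation (`cubic_indep`), and the derivation `d (s l)⁻¹ D l` sends
`τ l` to `Gw`, `ω l` to `- Gt` (`chart_Gm`). -/
theorem exists_model3 (h : Gn a s t) (hD : IsDr a s t D) (hd : d ≠ 0)
    (hm : ∀ i, (m i : L) = a.mm d i) :
    ∃ (T : Subalgebra (𝓞 L) E) (τ ω : Fin 3 → T), Algebra.Smooth (𝓞 L) T ∧
      (∀ k, s k * (algebraMap L E d ^ 2 * ω k) = 1) ∧
      (∀ k, t k * (algebraMap L E d ^ 2 * ω k) = algebraMap L E d * τ k) ∧
      (∀ k, (ω k : E)⁻¹ ∈ T) ∧ (∀ l, ∀ z ∈ T, algebraMap L E d * (s l)⁻¹ * D l z ∈ T) ∧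
      ∀ 𝔭 : Ideal (𝓞 L), 𝔭.IsPrime → ∃ (Ω : Type) (_ : Field Ω) (χ : T →+* Ω),
        (∀ z ∈ 𝔭, χ (algebraMap _ T z) = 0) ∧ χ (Dl τ ω) ≠ 0 := by
  obtain ⟨A, _, _, τ, ω, hM⟩ := exists_mdl3 m
  have hs := hM.smooth
  obtain ⟨d', hd'⟩ : ∃ d', d' = algebraMap L E d := ⟨_, rfl⟩
  have d0 : d' ≠ 0 := hd' ▸ (_root_.map_ne_zero _).2 hd
  have s0 : ∀ k, s k ≠ 0 := fun k e => h.ind.transcendental k (e ▸ isAlgebraic_zero)
  obtain ⟨w, hw⟩ : ∃ w : Fin 3 → E, ∀ k, s k * (d' ^ 2 * w k) = 1 :=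
    ⟨fun k => (s k * d' ^ 2)⁻¹, fun k => by
      rw [← mul_assoc, mul_inv_cancel₀ (mul_ne_zero (s0 k) (pow_ne_zero 2 d0))]⟩
  obtain ⟨u, hu⟩ : ∃ u : Fin 3 → E, ∀ k, t k * (d' ^ 2 * w k) = d' * u k :=
    ⟨fun k => t k * d' * w k, fun k => by ring⟩
  have w0 : ∀ k, d' ^ 2 * w k ≠ 0 := fun k => right_ne_zero_of_mul_eq_one (hw k)
  have ch := fun k => chart_Gm (a.up E) (hw k) (hu k)
  simp only [h.eq, zero_mul, mul_zero, zero_sub] at ch
  have mm := h5_mm hm E
  rw [← hd'] at mm ⊢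
  rw [← mm] at ch
  obtain ⟨φ, p1, p2⟩ := hM.lift E u w
    (fun k => (mul_eq_zero.1 (ch k).1).resolve_left (pow_ne_zero 2 d0)) fun k =>
    ⟨(right_ne_zero_of_mul (w0 k)).isUnit, Ne.isUnit fun e => h5_euler h.sm
      (h.ind.transcendental k) (h.eq k) (by
        rw [(ch k).2.1, neg_eq_zero, mul_eq_zero, or_iff_right (pow_ne_zero 2 (w0 k)), ← hu] at e
        linear_combination s k * e - t k * (a.up E).Ft (s k) (t k) * hw k)⟩
  have inj := hM.inj h hd hm φ (fun k => by rw [p2, ← hd', hw]) fun k => by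
    rw [p1, p2, ← hd', hu]
  let ψ := AlgEquiv.ofInjective φ inj
  have m1 : ∀ k, u k ∈ φ.range := fun k => ⟨τ k, p1 k⟩
  have m2 : ∀ k, w k ∈ φ.range := fun k => ⟨ω k, p2 k⟩
  refine ⟨φ.range, fun k => ⟨u k, m1 k⟩, fun k => ⟨w k, m2 k⟩, .of_equiv ψ, hw, hu,
    fun k => show (w k)⁻¹ ∈ _ from p2 k ▸ Kh.iinjb_inv φ (hM.unit k).1, fun l => ?_, fun 𝔭 h𝔭 => ?_⟩
  · have dd : D l d' = 0 := by rw [hd', Derivation.map_algebraMap]
    have si : ∀ k, (s k)⁻¹ = d' ^ 2 * w k := fun k => inv_eq_of_mul_eq_one_right (hw k)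
    have a1 : ∀ k, D l (w k) = -(d' ^ 2 * w k ^ 2 * D l (s k)) := fun k => by
      have e := congrArg (D l) (hw k)
      simp only [Derivation.leibniz, Derivation.leibniz_pow, dd, smul_eq_mul, mul_zero,
        smul_zero, add_zero, Derivation.map_one_eq_zero] at e
      linear_combination w k * e - D l (w k) * hw k
    have a2 : ∀ k, d' * D l (u k) = t k * (d' ^ 2 * D l (w k)) + d' ^ 2 * w k * D l (t k) :=
      fun k => by
      have e := congrArg (D l) (hu k)
      simp only [Derivation.leibniz, Derivation.leibniz_pow, dd, smul_eq_mul, mul_zero,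
        smul_zero, add_zero] at e
      exact e.symm
    let T' : Subalgebra (𝓞 L) A :=
      { carrier := {z | d' * (s l)⁻¹ * D l (φ z) ∈ φ.range}
        mul_mem' := fun {y z} hy hz => by
          have := add_mem (mul_mem (φ.mem_range_self y) hz) (mul_mem (φ.mem_range_self z) hy)
          rw [Set.mem_ofPred_eq, map_mul, Derivation.leibniz, smul_eq_mul, smul_eq_mul]
          exact (by ring : φ y * (d' * (s l)⁻¹ * D l (φ z)) + φ z * (d' * (s l)⁻¹ * D l (φ y)) =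
            d' * (s l)⁻¹ * (φ y * D l (φ z) + φ z * D l (φ y))) ▸ this
        add_mem' := fun {y z} hy hz => by
          rw [Set.mem_ofPred_eq, map_add, map_add, mul_add]
          exact add_mem hy hz
        algebraMap_mem' := fun c => by
          rw [Set.mem_ofPred_eq, AlgHom.commutes, IsScalarTower.algebraMap_apply _ L,
            Derivation.map_algebraMap, mul_zero]
          exact zero_mem _ }
    rintro _ ⟨z, rfl⟩
    refine h5_top hM T' (fun k => ?_) (fun k => ?_) (fun z hz y hy => ?_) z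
    · change d' * (s l)⁻¹ * D l (φ (τ k)) ∈ φ.range
      rw [p1, mul_right_comm, a2, a1, (hD l k).1, (hD l k).2]
      split_ifs with e
      · subst e
        have e' := (h5_Gw m φ.range (m1 l) (m2 l)).1
        rw [(ch l).2.1, ← hu] at e'
        rw [si]
        exact Set.mem_of_eq_of_mem (by ring) e'
      · simp
    · change d' * (s l)⁻¹ * D l (φ (ω k)) ∈ φ.range
      rw [p2, a1, (hD l k).1]
      split_ifs with e
      · subst e
        have e' := neg_mem (h5_Gw m φ.range (m1 l) (m2 l)).2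
        rw [si]
        exact Set.mem_of_eq_of_mem (mul_left_cancel₀ d0 (by linear_combination (ch l).2.2)) e'
      · simp
    · change d' * (s l)⁻¹ * D l (φ y) ∈ φ.range
      have f1 : φ y = (φ z)⁻¹ := eq_inv_of_mul_eq_one_right (by rw [← map_mul, hy, map_one])
      have := mul_mem (neg_mem (pow_mem (φ.mem_range_self y) 2)) hz
      rw [f1, Derivation.leibniz_inv, ← f1, smul_eq_mul, mul_left_comm]
      exact this
  · obtain ⟨Ω, _, χ, c1, c2⟩ := hM.exists_chi h𝔭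
    refine ⟨Ω, inferInstance, χ.comp ψ.symm.toRingHom,
      fun z hz => (congrArg χ (ψ.symm.commutes z)).trans (c1 z hz), fun e => c2 ?_⟩
    refine (congrArg χ (ψ.eq_symm_apply.2 (Subtype.ext ?_))).trans e
    have e1 := map_Dl (φ : A →+* E) τ ω
    have e2 := map_Dl (φ.range.val : φ.range →+* E) (fun k => ⟨u k, m1 k⟩) fun k => ⟨w k, m2 k⟩
    simp only [RingHom.coe_coe, p1, p2] at e1
    exact e1.trans e2.symm

end Pool.Agent.Lib.MP_07b2d0_nt.G3
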