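import Pool.Agent.Lib.MP_07b2d0_nt.G3.H5

/-!
The integrality of the coefficient.
-/

set_option autoImplicit false

namespace Pool.Agent.Lib.MP_07b2d0_nt.G3

open Polynomial NumberField Fh

variable {L E F : Type} [Field L] [NumberField L] [Field E] [Field F] [Algebra L E] {a : Co L}
  {s t : Fin 3 → E} {κ : 𝓞 L →+* F} {ι : F →+* E} {S : Set (Subring F)}
  {D : Fin 3 → Derivation L E E} {p : ⋀[F]^3 Ω[F⁄ℤ] →+ E} {α : ⋀[F]^3 Ω[F⁄ℤ]}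
  {d : L} {m : Fin 7 → 𝓞 L}

theorem h5b_Dl {K : Type} [Field K] {s t τ ω : Fin 3 → K} {d : K}
    (h1 : ∀ k, s k * (d ^ 2 * ω k) = 1) (h2 : ∀ k, t k * (d ^ 2 * ω k) = d * τ k) :
    (∏ l, d * (s l)⁻¹) * Dl s t = d ^ 6 * Dl τ ω := by
  have e : ∀ k, (s k)⁻¹ = d ^ 2 * ω k := fun k => inv_eq_of_mul_eq_one_right (h1 k)
  rw [Fin.prod_univ_three, e, e, e, Dl, Dl]
  linear_combination
    (d ^ 3 * ((d ^ 2 * ω 0) * (t 2 * (d ^ 2 * ω 2)) - (t 0 * (d ^ 2 * ω 0)) * (d ^ 2 * ω 2))) *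
      h1 1 +
    (d ^ 3 * ((d ^ 2 * ω 2) * (t 1 * (d ^ 2 * ω 1)) - (t 2 * (d ^ 2 * ω 2)) * (d ^ 2 * ω 1))) *
      h1 0 +
    (d ^ 3 * ((d ^ 2 * ω 1) * (t 0 * (d ^ 2 * ω 0)) - (t 1 * (d ^ 2 * ω 1)) * (d ^ 2 * ω 0))) *
      h1 2 +
    (d ^ 3 * (d ^ 2 * ω 1 - d ^ 2 * ω 2)) * h2 0 + (d ^ 3 * (d ^ 2 * ω 2 - d ^ 2 * ω 0)) * h2 1 +
    (d ^ 3 * (d ^ 2 * ω 0 - d ^ 2 * ω 1)) * h2 2

theorem h5b_int {z : L} (h : ∀ 𝔭 : Ideal (𝓞 L), 𝔭.IsMaximal → ∀ u v : 𝓞 L, z * v = u → v ≠ 0 →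
    v ∈ 𝔭 → u ∈ 𝔭) : ∃ b : 𝓞 L, (b : L) = z := by
  rcases eq_or_ne z 0 with rfl | hz
  · exact ⟨0, rfl⟩
  let J : Ideal (𝓞 L) :=
    Submodule.comap (LinearMap.toSpanSingleton (𝓞 L) L z) (1 : Submodule (𝓞 L) L)
  have hJ : ∀ r : 𝓞 L, r ∈ J ↔ ∃ u : 𝓞 L, algebraMap (𝓞 L) L u = r • z :=
    fun r => Submodule.mem_one
  have top : J = ⊤ := by
    by_contra hne
    obtain ⟨𝔭, h𝔭, hle⟩ := Ideal.exists_le_maximal J hne
    obtain ⟨u, v, huv, hv, hn⟩ := exists_num_den hz 𝔭 h𝔭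
    have hv' : v ∈ 𝔭 := hle ((hJ v).2 ⟨u, by rw [Algebra.smul_def, mul_comm]; exact huv.symm⟩)
    exact hn.elim (fun h' => h' (h 𝔭 h𝔭 u v huv hv hv')) fun h' => h' hv'
  obtain ⟨b, hb⟩ := (hJ 1).1 (top ▸ Submodule.mem_top)
  exact ⟨b, hb.trans (one_smul _ z)⟩

/-- By `IsPair.scale`, `IsPair.mem_of_loc` the element `d ^ 3 ∏ (s l)⁻¹ p α = d ^ 6 lam Dl τ ω` lies
in `T`.  If `d ^ 6 lam` is not integral, let `𝔭` be a maximal ideal containing its denominator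
ideal and use `exists_num_den`. -/
theorem Set3.integral (h : Set3 a s t κ ι S) (hD : IsDr a s t D) (hp : IsPair ι D p)
    (hα : α ∈ LamS 3 S) (hd : d ≠ 0) (hm : ∀ i, (m i : L) = a.mm d i) {lam : L}
    (he : p α = algebraMap L E lam * Dl s t) : ∃ b : 𝓞 L, (b : L) = d ^ 6 * lam := by
  obtain ⟨T, τ, ω, hs, h1, h2, hω, hT, hχ⟩ := exists_model3 h.gen hD hd hm
  have hc : ∀ c : L, algebraMap L E c ∈ Algebra.adjoin L (T : Set E) := fun c => algebraMap_mem _ c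
  have hst : ∀ k, s k ∈ Algebra.adjoin L (T : Set E) ∧ t k ∈ Algebra.adjoin L (T : Set E) := by
    intro k
    have e1 : s k = algebraMap L E (d⁻¹ ^ 2) * (ω k : E)⁻¹ := by
      rw [eq_inv_of_mul_eq_one_left (h1 k), mul_inv, map_pow, map_inv₀, inv_pow]
    have m1 : s k ∈ Algebra.adjoin L (T : Set E) :=
      e1 ▸ mul_mem (hc _) (Algebra.subset_adjoin (hω k))
    have e2 : t k = algebraMap L E d * τ k * s k := by
      rw [← h2 k, mul_assoc, mul_comm _ (s k), h1 k, mul_one]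
    exact ⟨m1, e2 ▸ mul_mem (mul_mem (hc _) (Algebra.subset_adjoin (τ k).2)) m1⟩
  have hz := (hp.scale fun l => algebraMap L E d * (s l)⁻¹).mem_of_loc T hT (h.nmp T hs hst) hα
  have e : (∏ l, algebraMap L E d * (s l)⁻¹) * p α =
      algebraMap L E (d ^ 6 * lam) * ((Dl τ ω : T) : E) := by
    rw [he, mul_left_comm, h5b_Dl h1 h2, map_mul, map_pow, mul_left_comm, ← mul_assoc]
    exact congrArg _ (map_Dl (T.val : T →+* E) τ ω).symm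
  refine h5b_int fun 𝔭 h𝔭 u v huv _ hv => ?_
  by_contra hu
  obtain ⟨Ω, _, χ, h0, hne⟩ := hχ 𝔭 h𝔭.isPrime
  have e' : algebraMap _ T v * ⟨_, hz⟩ = algebraMap _ T u * Dl τ ω := by
    refine Subtype.ext ?_
    change algebraMap L E v * ((∏ l, algebraMap L E d * (s l)⁻¹) * p α) =
      algebraMap L E u * ((Dl τ ω : T) : E)
    rw [e, ← mul_assoc, ← map_mul, mul_comm (v : L), huv]
  have h3 := congrArg χ e'
  rw [map_mul, map_mul, h0 v hv, zero_mul] at h3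
  have h4 : u ∈ RingHom.ker (χ.comp (algebraMap _ T)) := (mul_eq_zero.1 h3.symm).resolve_right hne
  have h5 : 𝔭 = RingHom.ker (χ.comp (algebraMap _ T)) :=
    h𝔭.eq_of_le (RingHom.ker_ne_top _) fun z hz => h0 z hz
  exact hu (h5 ▸ h4)

end Pool.Agent.Lib.MP_07b2d0_nt.G3
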