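import Pool.Agent.Lib.MP_07b2d0_nt.G3.HD
import Pool.Agent.Lib.MP_07b2d0_nt.Fh.ASym

/-!
The archimedean estimate.
-/

set_option autoImplicit false

namespace Pool.Agent.Lib.MP_07b2d0_nt.G3

open Polynomial Fh

/-- The bound for the terms of low order. -/
def h6_l (A σ τ : ℝ) : ℝ :=
  2 * A * σ * τ + A ^ 2 + A * σ ^ 2 + A * τ ^ 2 + A * σ + A * τ + A

theorem h6_mono {A σ τ A' σ' τ' : ℝ} (hA : 0 ≤ A) (hσ : 0 ≤ σ) (hτ : 0 ≤ τ) (h1 : A ≤ A')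
    (h2 : σ ≤ σ') (h3 : τ ≤ τ') : h6_l A σ τ ≤ h6_l A' σ' τ' := by
  have := hA.trans h1
  have := hσ.trans h2
  unfold h6_l
  gcongr

theorem h6_three {x y z : ℂ} {l : ℝ} {w : ℂ} (h : x + y + z + w = 0) (hw : ‖w‖ ≤ l) :
    ‖x‖ ≤ ‖y‖ + ‖z‖ + l := by
  have e : x = -(y + z + w) := by linear_combination h
  rw [e, norm_neg]
  exact norm_add_le_of_le (norm_add_le _ _) hw

/-- All coefficients are bounded by `A`. -/
def h6_B (a : Co ℂ) (A : ℝ) : Prop :=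
  ‖a.q0‖ ≤ A ∧ ‖a.c‖ ≤ A ∧ ‖a.q2‖ ≤ A ∧ ‖a.r0‖ ≤ A ∧ ‖a.r1‖ ≤ A ∧ ‖a.e‖ ≤ A

theorem h6_ineq {a : Co ℂ} {A : ℝ} (hB : h6_B a A) {s t : ℂ} (h : a.F s t = 0) :
    ‖s‖ ^ 2 * ‖t‖ ^ 2 ≤ ‖s‖ ^ 3 + ‖t‖ ^ 3 + h6_l A ‖s‖ ‖t‖ ∧
      ‖s‖ ^ 3 ≤ ‖s‖ ^ 2 * ‖t‖ ^ 2 + ‖t‖ ^ 3 + h6_l A ‖s‖ ‖t‖ ∧
      ‖t‖ ^ 3 ≤ ‖s‖ ^ 2 * ‖t‖ ^ 2 + ‖s‖ ^ 3 + h6_l A ‖s‖ ‖t‖ := by
  obtain ⟨b1, b2, b3, b4, b5, b6⟩ := hB
  have hA := (norm_nonneg _).trans b1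
  have hw : ‖2 * a.c * s * t + a.c ^ 2 + a.q0 * s ^ 2 + a.q2 * t ^ 2 + a.r0 * s + a.r1 * t + a.e‖ ≤
      h6_l A ‖s‖ ‖t‖ := by
    refine norm_add_le_of_le (norm_add_le_of_le (norm_add_le_of_le (norm_add_le_of_le
      (norm_add_le_of_le (norm_add_le_of_le ?_ ?_) ?_) ?_) ?_) ?_) b6 <;>
      simp only [norm_mul, norm_pow, Complex.norm_ofNat] <;> gcongr
  unfold Co.F at h
  have h1 := h6_three (x := s ^ 2 * t ^ 2) (y := s ^ 3) (z := t ^ 3) (by linear_combination h) hw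
  have h2 := h6_three (y := s ^ 2 * t ^ 2) (x := s ^ 3) (z := t ^ 3) (by linear_combination h) hw
  have h3 := h6_three (y := s ^ 2 * t ^ 2) (z := s ^ 3) (x := t ^ 3) (by linear_combination h) hw
  simp only [norm_mul, norm_pow] at h1 h2 h3
  exact ⟨h1, h2, h3⟩

theorem h6_key {x y : ℝ} (hx : 1 ≤ x) (hy : 1 ≤ y) (i j m n : ℕ) (h1 : i ≤ m) (h2 : j ≤ n) :
    x ^ i * y ^ j ≤ x ^ m * y ^ n :=
  mul_le_mul (pow_le_pow_right₀ hx h1) (pow_le_pow_right₀ hy h2) (by positivity) (by positivity)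

theorem h6_up {a : Co ℂ} {S : ℝ} (hB : h6_B a S) (hS : 1 ≤ S) {s t : ℂ} (h : a.F s t = 0)
    (hs : ‖s‖ ≤ S) : ‖t‖ ≤ 10 * S ^ 3 := by
  by_contra h0
  replace h0 := not_le.1 h0
  have h1 := (h6_ineq hB h).2.2
  have h2 := h6_mono (zero_le_one.trans hS) (norm_nonneg s) (norm_nonneg t) le_rfl hs le_rfl
  have h3 : ‖s‖ ^ 2 * ‖t‖ ^ 2 ≤ S ^ 2 * ‖t‖ ^ 2 := by gcongr
  have h4 : ‖s‖ ^ 3 ≤ S ^ 3 := by gcongr
  have ht : 1 ≤ ‖t‖ := by linarith [one_le_pow₀ hS (n := 3)]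
  have k := fun i j => h6_key hS ht i j 3 2
  have h5 := mul_lt_mul_of_pos_right h0 (show 0 < ‖t‖ ^ 2 by positivity)
  unfold h6_l at h1 h2
  linarith [k 2 2 (by norm_num) le_rfl, k 3 0 le_rfl (by norm_num), k 2 1 (by norm_num) (by norm_num),
    k 2 0 (by norm_num) (by norm_num), k 1 2 (by norm_num) le_rfl, k 1 1 (by norm_num) (by norm_num),
    k 1 0 (by norm_num) (by norm_num)]

theorem h6_low {a : Co ℂ} {T : ℝ} (hB : h6_B a T) (hT : 1 ≤ T) {s t : ℂ} (h : a.F s t = 0)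
    (hs : 10 * T ^ 2 < ‖s‖) : T ≤ ‖t‖ := by
  by_contra h0
  replace h0 := (not_le.1 h0).le
  have h1 := (h6_ineq hB h).2.1
  have h2 := h6_mono (zero_le_one.trans hT) (norm_nonneg s) (norm_nonneg t) le_rfl le_rfl h0
  have h3 : ‖s‖ ^ 2 * ‖t‖ ^ 2 ≤ ‖s‖ ^ 2 * T ^ 2 := by gcongr
  have h4 : ‖t‖ ^ 3 ≤ T ^ 3 := by gcongr
  have h6 : T ≤ ‖s‖ := by nlinarith
  have hσ := hT.trans h6
  have h7 := mul_le_mul_of_nonneg_right h6 (sq_nonneg T)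
  have k := fun i j => h6_key hσ hT i j 2 2
  have h5 := mul_lt_mul_of_pos_right hs (show 0 < ‖s‖ ^ 2 by positivity)
  unfold h6_l at h1 h2
  linarith [k 1 2 (by norm_num) le_rfl, k 0 2 (by norm_num) le_rfl, k 2 1 le_rfl (by norm_num),
    k 1 1 (by norm_num) (by norm_num), k 0 1 (by norm_num) (by norm_num)]

theorem h6_dich {a : Co ℂ} {A : ℝ} (hB : h6_B a A) {s t : ℂ} (h : a.F s t = 0)
    (hA : A ≤ ‖s‖) (hs : 16 ≤ ‖s‖) : ‖t‖ ^ 2 ≤ 16 * ‖s‖ ∨ ‖s‖ ^ 2 ≤ 16 * ‖t‖ := by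
  by_contra h0
  obtain ⟨c1, c2⟩ := not_or.1 h0
  replace c1 := (not_le.1 c1).le
  replace c2 := (not_le.1 c2).le
  have h1 := (h6_ineq hB h).1
  have h2 := h6_mono ((norm_nonneg _).trans hB.1) (norm_nonneg s) (norm_nonneg t) hA le_rfl le_rfl
  have ht : 16 ≤ ‖t‖ := le_of_sq_le_sq (by linarith) (norm_nonneg t)
  have h3 := mul_le_mul_of_nonneg_left c1 (sq_nonneg ‖s‖)
  have h4 := mul_le_mul_of_nonneg_right c2 (sq_nonneg ‖t‖)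
  have h5 := mul_le_mul_of_nonneg_left ht (show 0 ≤ ‖s‖ ^ 2 * ‖t‖ by positivity)
  have h6 := mul_le_mul_of_nonneg_right hs (show 0 ≤ ‖s‖ * ‖t‖ ^ 2 by positivity)
  have k := fun i j => h6_key (x := ‖s‖) (y := ‖t‖) (by linarith) (by linarith) i j 2 1
  have h7 : 0 < ‖s‖ ^ 2 * ‖t‖ ^ 2 := by positivity
  unfold h6_l at h1 h2
  linarith [k 2 0 le_rfl (by norm_num), k 1 1 (by norm_num) le_rfl,
    k 1 0 (by norm_num) (by norm_num)]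

theorem h6_B.mono {a : Co ℂ} {A A' : ℝ} (h : h6_B a A) (h' : A ≤ A') : h6_B a A' :=
  ⟨h.1.trans h', h.2.1.trans h', h.2.2.1.trans h', h.2.2.2.1.trans h', h.2.2.2.2.1.trans h',
    h.2.2.2.2.2.trans h'⟩

theorem h6_pw {R : ℝ} (hR : 100 ≤ R) (i j : ℕ) (h : i < j) : 100 * R ^ i ≤ R ^ j :=
  calc 100 * R ^ i ≤ R * R ^ i := by gcongr
    _ = R ^ (i + 1) := by ring
    _ ≤ R ^ j := pow_le_pow_right₀ (by linarith) h

theorem h6_size {P Q : ℝ} (hQ : 8 ≤ Q) (hP : 100 * Q ≤ P) {x y z : ℂ} (o1 : ‖x‖ ≤ ‖y‖)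
    (o2 : ‖y‖ ≤ ‖z‖) (e1 : ‖x + y + z - P‖ ≤ 1) (e2 : ‖x * y + x * z + y * z - P * Q‖ ≤ 1)
    (e3 : ‖x * y * z‖ ≤ 1) :
    ‖x‖ ≤ 1 ∧ Q ≤ 4 * ‖y‖ ∧ ‖y‖ ≤ 16 * Q ∧ P ≤ 4 * ‖z‖ ∧ ‖z‖ ≤ 2 * P := by
  have nP : ‖(P : ℂ)‖ = P := by rw [Complex.norm_real, Real.norm_of_nonneg (by linarith)]
  have nQ : ‖(Q : ℂ)‖ = Q := by rw [Complex.norm_real, Real.norm_of_nonneg (by linarith)]
  have hx : ‖x‖ ≤ 1 := by
    refine le_of_pow_le_pow_left₀ (n := 3) (by norm_num) zero_le_one ?_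
    rw [norm_mul, norm_mul] at e3
    have : ‖x‖ * ‖x‖ * ‖x‖ ≤ ‖x‖ * ‖y‖ * ‖z‖ := by gcongr; exact o1.trans o2
    linarith
  have h1 : ‖y + z - P‖ ≤ 2 := by
    rw [show y + z - P = (x + y + z - P) - x by ring]
    linarith [norm_sub_le (x + y + z - P) x]
  have h2 : ‖y + z‖ ≤ P + 2 := by linarith [norm_sub_norm_le (y + z) P]
  have h3 : P - 2 ≤ ‖y + z‖ := by
    linarith [norm_sub_norm_le (P : ℂ) (y + z), norm_sub_rev (P : ℂ) (y + z)]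
  have h4 : ‖y * z - P * Q‖ ≤ P + 3 := by
    rw [show y * z - P * Q = (x * y + x * z + y * z - P * Q) - x * (y + z) by ring]
    have : ‖x‖ * ‖y + z‖ ≤ 1 * (P + 2) := by gcongr
    linarith [norm_sub_le (x * y + x * z + y * z - P * Q) (x * (y + z)), norm_mul x (y + z)]
  have h5 := norm_sub_norm_le (y * z) (P * Q)
  have h6 := norm_sub_norm_le ((P : ℂ) * Q) (y * z)
  rw [norm_sub_rev] at h6
  rw [norm_mul, norm_mul, nP, nQ] at h5 h6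
  have h7 : P ≤ 4 * ‖z‖ := by linarith [norm_add_le y z]
  have hP0 : 0 < P := by linarith
  have h8 := mul_le_mul_of_nonneg_left hQ hP0.le
  have h9 : ‖y‖ ≤ 16 * Q := by
    refine le_of_mul_le_mul_left ?_ hP0
    linarith [mul_le_mul_of_nonneg_right h7 (norm_nonneg y)]
  have h10 : ‖z‖ ≤ 2 * P := by
    have := norm_sub_le (y + z) y
    rw [add_sub_cancel_left] at this
    linarith
  refine ⟨hx, le_of_mul_le_mul_left ?_ hP0, h9, h7, h10⟩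
  linarith [mul_le_mul_of_nonneg_left h10 (norm_nonneg y)]

/-- The claim for three points. -/
def h6_C (a : Co ℂ) (R : ℝ) (x u y v z w : ℂ) : Prop :=
  a.F x u = 0 → a.F y v = 0 → a.F z w = 0 → ‖x + y + z - (R ^ 50 : ℝ)‖ ≤ 1 →
    ‖x * y + x * z + y * z - (R ^ 50 : ℝ) * (R ^ 12 : ℝ)‖ ≤ 1 → ‖x * y * z‖ ≤ 1 →
    1 ≤ ‖(y - x) * (w - u) - (z - x) * (v - u)‖ ∧ ‖x‖ ≤ R ^ 51 ∧ ‖y‖ ≤ R ^ 51 ∧ ‖z‖ ≤ R ^ 51

theorem h6_C.s1 {a : Co ℂ} {R : ℝ} {x u y v z w : ℂ} (h : h6_C a R x u y v z w) :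
    h6_C a R y v x u z w := fun h1 h2 h3 e1 e2 e3 => by
  obtain ⟨k1, k2, k3, k4⟩ := h h2 h1 h3 (by rwa [add_comm x]) (by
    rwa [mul_comm x, add_right_comm]) (by rwa [mul_comm x])
  refine ⟨k1.trans_eq ?_, k3, k2, k4⟩
  rw [← norm_neg]
  exact congrArg _ (by ring)

theorem h6_C.s2 {a : Co ℂ} {R : ℝ} {x u y v z w : ℂ} (h : h6_C a R x u y v z w) :
    h6_C a R x u z w y v := fun h1 h2 h3 e1 e2 e3 => by
  obtain ⟨k1, k2, k3, k4⟩ := h h1 h3 h2 (by rwa [add_right_comm]) (by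
    rwa [add_comm (x * y), mul_comm y]) (by rwa [mul_right_comm])
  exact ⟨k1.trans_eq (norm_sub_rev _ _), k2, k4, k3⟩

theorem h6_ord {a : Co ℂ} {R : ℝ} (hB : h6_B a R) (hR : 100 ≤ R) {x y z : ℂ} (u v w : ℂ)
    (o1 : ‖x‖ ≤ ‖y‖) (o2 : ‖y‖ ≤ ‖z‖) : h6_C a R x u y v z w := fun h1 h2 h3 e1 e2 e3 => by
  have p := h6_pw hR
  have hR1 : 1 ≤ R := by linarith
  have q : ∀ i, 1 ≤ R ^ i := fun i => one_le_pow₀ hR1
  have r : ∀ i, i ≠ 0 → R ≤ R ^ i := fun i hi => le_self_pow₀ hR1 hi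
  obtain ⟨a1, a2, a3, a4, a5⟩ := h6_size (by linarith [r 12 (by norm_num)])
    (p 12 50 (by norm_num)) o1 o2 e1 e2 e3
  have b1 : ‖y‖ ≤ R ^ 13 := by linarith [p 12 13 (by norm_num), q 12]
  have b2 : ‖z‖ ≤ R ^ 51 := by linarith [p 50 51 (by norm_num), q 50]
  have b3 : R ^ 49 ≤ ‖z‖ := by linarith [p 49 50 (by norm_num), q 49]
  refine ⟨?_, o1.trans (o2.trans b2), o2.trans b2, b2⟩
  have c1 : ‖u‖ ≤ R ^ 4 := by
    linarith [h6_up hB hR1 h1 (a1.trans hR1), p 3 4 (by norm_num), q 3]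
  have c2 : R ^ 5 ≤ ‖v‖ := h6_low (hB.mono (r 5 (by norm_num))) (q 5) h2 (by
    linarith [p 10 11 (by norm_num), p 11 12 (by norm_num), q 10, q 11])
  have c3 : ‖v‖ ≤ R ^ 40 := by
    have := h6_up (hB.mono (r 13 (by norm_num))) (q 13) h2 b1
    linarith [p 39 40 (by norm_num), q 39]
  have d1 := norm_sub_norm_le ((y - x) * (w - u)) ((z - x) * (v - u))
  have d2 := norm_sub_norm_le ((z - x) * (v - u)) ((y - x) * (w - u))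
  rw [norm_sub_rev] at d2
  rw [norm_mul, norm_mul] at d1 d2
  rcases h6_dich hB h3 ((r 49 (by norm_num)).trans b3) (by linarith [r 49 (by norm_num)])
    with h | h
  · have f1 : ‖w‖ ≤ R ^ 26 := le_of_sq_le_sq (by
      linarith [p 51 52 (by norm_num), q 51]) (by positivity)
    have f2 : ‖y - x‖ ≤ 2 * R ^ 13 := by linarith [norm_sub_le y x, q 13]
    have f3 : ‖w - u‖ ≤ 2 * R ^ 26 := by
      linarith [norm_sub_le w u, p 4 26 (by norm_num), q 4]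
    have f4 : ‖y - x‖ * ‖w - u‖ ≤ 2 * R ^ 13 * (2 * R ^ 26) := by gcongr
    have f5 : 1 ≤ ‖v - u‖ := by linarith [norm_sub_norm_le v u, p 4 5 (by norm_num), q 4]
    have f6 := mul_le_mul_of_nonneg_left f5 (norm_nonneg (z - x))
    linarith [norm_sub_norm_le z x, p 39 49 (by norm_num), q 39]
  · have f0 : (R ^ 49) ^ 2 ≤ ‖z‖ ^ 2 := by gcongr
    have f2 : ‖z - x‖ ≤ 2 * R ^ 51 := by linarith [norm_sub_le z x, q 51]
    have f3 : ‖v - u‖ ≤ 2 * R ^ 40 := by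
      linarith [norm_sub_le v u, p 4 40 (by norm_num), q 4]
    have f4 : ‖z - x‖ * ‖v - u‖ ≤ 2 * R ^ 51 * (2 * R ^ 40) := by gcongr
    have f5 : 1 ≤ ‖y - x‖ := by linarith [norm_sub_norm_le y x, r 12 (by norm_num)]
    have f6 := mul_le_mul_of_nonneg_right f5 (norm_nonneg (w - u))
    linarith [norm_sub_norm_le w u, p 91 97 (by norm_num), p 97 98 (by norm_num),
      p 4 91 (by norm_num), q 91, q 4]

theorem h6_all {a : Co ℂ} {R : ℝ} (hB : h6_B a R) (hR : 100 ≤ R) (x u y v z w : ℂ) :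
    h6_C a R x u y v z w := by
  rcases le_total ‖x‖ ‖y‖ with h1 | h1 <;> rcases le_total ‖y‖ ‖z‖ with h2 | h2 <;>
    rcases le_total ‖x‖ ‖z‖ with h3 | h3
  · exact h6_ord hB hR _ _ _ h1 h2
  · exact h6_ord hB hR _ _ _ h1 h2
  · exact (h6_ord hB hR _ _ _ h3 h2).s2
  · exact (h6_ord hB hR _ _ _ h3 h1).s1.s2
  · exact (h6_ord hB hR _ _ _ h1 h3).s1
  · exact (h6_ord hB hR _ _ _ h2 h3).s2.s1
  · exact (h6_ord hB hR _ _ _ h2 h1).s1.s2.s1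
  · exact (h6_ord hB hR _ _ _ h2 h1).s1.s2.s1

theorem h6_Ft {a : Co ℂ} {B : ℝ} (hB : h6_B a B) (h1 : 1 ≤ B) {s t : ℂ} (hs : ‖s‖ ≤ B)
    (ht : ‖t‖ ≤ B) : ‖a.Ft s t‖ ≤ 10 * B ^ 3 := by
  obtain ⟨-, b2, b3, -, b5, -⟩ := hB
  have h2 : ‖s * t + a.c‖ ≤ B * B + B := norm_add_le_of_le (by rw [norm_mul]; gcongr) b2
  have h3 : ‖a.Ft s t‖ ≤ 2 * B * (B * B + B) + 3 * B ^ 2 + 2 * B * B + B := by
    refine norm_add_le_of_le (norm_add_le_of_le (norm_add_le_of_le ?_ ?_) ?_) b5 <;>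
      simp only [norm_mul, norm_pow, Complex.norm_ofNat] <;> gcongr
  linarith [pow_le_pow_right₀ h1 (show 2 ≤ 3 by norm_num), le_self_pow₀ h1 (show 3 ≠ 0 by norm_num)]

theorem h6_es1 (s : Fin 3 → ℂ) : es s 1 = s 0 + s 1 + s 2 := by
  simp [es, Finset.powersetCard_one, Fin.sum_univ_three]

theorem h6_es2 (s : Fin 3 → ℂ) : es s 2 = s 0 * s 1 + s 0 * s 2 + s 1 * s 2 := by
  have h : (Finset.powersetCard 2 Finset.univ : Finset (Finset (Fin 3))) =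
      {{0, 1}, {0, 2}, {1, 2}} := by decide
  rw [es, h, Finset.sum_insert (by decide), Finset.sum_pair (by decide),
    Finset.prod_pair (by decide), Finset.prod_pair (by decide), Finset.prod_pair (by decide),
    add_assoc]

theorem h6_vdm (s : Fin 3 → ℂ) : vdm s = (s 1 - s 0) * (s 2 - s 0) * (s 2 - s 1) := by
  simp [vdm, Matrix.det_fin_three, Matrix.vandermonde]
  ring

/-- Let `R` be a large multiple of `exp H` and, for example, `c = (R ^ 20, R ^ 28, R ^ 29)`.  Order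
the `s k` by size (both claims are invariant under permutations): `|s 0| ≤ C R`, `|s 1| ≈ R ^ 8`,
`|s 2| ≈ R ^ 20`.  Every root satisfies `|t| ≤ 1 + ∑ |coefficients|`, so `|t 0| ≤ C R ^ 3`,
`|t 1| ≤ C R ^ 24`; comparing `s ^ 3` with the other terms gives `|t 1| ≥ R ^ 4 / C`; comparing
`s ^ 2 t ^ 2` with the other terms gives `|t 2| ≥ R ^ 37` or `|t 2| ≤ R ^ 11`.  In the first case
the first product in `Dl` dominates, in the second case the second. -/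
theorem arch_bd : ∃ n : ℕ, ∀ (a : Co ℂ) (H : ℕ),
    (∀ z ∈ [a.q0, a.c, a.q2, a.r0, a.r1, a.e], ‖z‖ ≤ Real.exp H) →
    ∃ c : Fin 3 → ℂ, ∀ s t : Fin 3 → ℂ, (∀ k, a.F (s k) (t k) = 0) →
      (∀ i : Fin 3, ‖es s (i.1 + 1) - c i‖ ≤ 1) →
      1 ≤ ‖Dl s t‖ ∧ ‖(∏ k, a.Ft (s k) (t k)) * vdm s‖ ≤ Real.exp (n * (H + 1) : ℕ) := by
  refine ⟨7 * 1850, fun a H ha => ?_⟩
  set R := Real.exp (7 * (H + 1) : ℕ) with hRd
  have hR : 100 ≤ R := by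
    have h1 : (2 : ℝ) ^ 7 ≤ Real.exp 1 ^ 7 := by
      gcongr
      linarith [Real.add_one_le_exp 1]
    rw [Real.exp_one_pow] at h1
    have h2 : Real.exp (7 : ℕ) ≤ R := Real.exp_le_exp.2 (Nat.cast_le.2 (by omega))
    linarith
  have hH : Real.exp H ≤ R := Real.exp_le_exp.2 (Nat.cast_le.2 (by omega))
  have hB : h6_B a R := h6_B.mono ⟨ha _ (by simp), ha _ (by simp), ha _ (by simp), ha _ (by simp),
    ha _ (by simp), ha _ (by simp)⟩ hH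
  have hE : Real.exp (7 * 1850 * (H + 1) : ℕ) = R ^ 1850 := by
    rw [hRd, ← Real.exp_nat_mul]
    push_cast
    ring_nf
  rw [hE]
  clear_value R
  refine ⟨![(R ^ 50 : ℝ), (R ^ 50 : ℝ) * (R ^ 12 : ℝ), 0], fun s t hF he => ?_⟩
  have e1 : ‖es s 1 - (R ^ 50 : ℝ)‖ ≤ 1 := he 0
  have e2 : ‖es s 2 - (R ^ 50 : ℝ) * (R ^ 12 : ℝ)‖ ≤ 1 := he 1
  have e3 : ‖es s 3 - 0‖ ≤ 1 := he 2
  rw [h6_es1] at e1
  rw [h6_es2] at e2
  rw [sub_zero, es_top, Fin.prod_univ_three] at e3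
  obtain ⟨k1, k2, k3, k4⟩ := h6_all hB hR _ _ _ _ _ _ (hF 0) (hF 1) (hF 2) e1 e2 e3
  refine ⟨k1, ?_⟩
  have p := h6_pw hR
  have hR1 : 1 ≤ R := by linarith
  have q : ∀ i, 1 ≤ R ^ i := fun i => one_le_pow₀ hR1
  have hs : ∀ k, ‖s k‖ ≤ R ^ 51 := fun k => by fin_cases k <;> assumption
  have hs' : ∀ k, ‖s k‖ ≤ R ^ 154 := fun k => (hs k).trans (pow_le_pow_right₀ hR1 (by norm_num))
  have ht : ∀ k, ‖t k‖ ≤ R ^ 154 := fun k => by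
    have := h6_up (hB.mono (le_self_pow₀ hR1 (by norm_num))) (q 51) (hF k) (hs k)
    linarith [p 153 154 (by norm_num), q 153]
  have hf : ∀ k, ‖a.Ft (s k) (t k)‖ ≤ 10 * (R ^ 154) ^ 3 := fun k =>
    h6_Ft (hB.mono (le_self_pow₀ hR1 (by norm_num))) (q 154) (hs' k) (ht k)
  have hd : ∀ i j, ‖s i - s j‖ ≤ 2 * R ^ 154 := fun i j => by
    linarith [norm_sub_le (s i) (s j), hs' i, hs' j]
  rw [Fin.prod_univ_three, h6_vdm]
  simp only [norm_mul]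
  calc _ ≤ 10 * (R ^ 154) ^ 3 * (10 * (R ^ 154) ^ 3) * (10 * (R ^ 154) ^ 3) *
        (2 * R ^ 154 * (2 * R ^ 154) * (2 * R ^ 154)) := by gcongr <;> first | apply hf | apply hd
    _ = 8000 * R ^ 1848 := by ring
    _ ≤ R ^ 1850 := by linarith [p 1848 1849 (by norm_num), p 1849 1850 (by norm_num), q 1848]

end Pool.Agent.Lib.MP_07b2d0_nt.G3
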