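import Pool.Agent.Lib.MP_07b2d0_nt.G3.H3
import Pool.Agent.Lib.MP_07b2d0_nt.G3.H5
import Pool.Agent.Lib.MP_07b2d0_nt.G3.H5b
import Pool.Agent.Lib.MP_07b2d0_nt.G3.H6
import Pool.Agent.Lib.MP_07b2d0_nt.Kh.AMain

/-!
Assembly of the algebraic part.
-/

set_option autoImplicit false

namespace Pool.Agent.Lib.MP_07b2d0_nt.G3

open Polynomial NumberField MeasureTheory Fh

variable {L E F : Type} [Field L] [NumberField L] [Field E] [Field F] [Algebra L E]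

theorem h7_poly {g : ℕ} {Δ : MvPolynomial (Fin g) ℂ} (hΔ : Δ ≠ 0) (c : Fin g → ℂ) {b : ENNReal}
    {φ : (Fin g → ℂ) → ENNReal}
    (h : ∀ z : Fin g → ℂ, (∀ i, ‖z i - c i‖ ≤ 1) → MvPolynomial.eval z Δ ≠ 0 → b ≤ φ z) :
    b ≤ ∫⁻ z, φ z := by
  have hv : 1 ≤ volume (Set.univ.pi fun i : Fin g => Metric.closedBall (c i) 1) := by
    refine (one_le_volume_polydisc g).trans_eq ?_
    simp only [volume_pi_pi, Complex.volume_closedBall]
  refine (le_mul_of_one_le_right' hv).trans ?_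
  rw [← lintegral_indicator_const (MeasurableSet.univ_pi fun _ => measurableSet_closedBall)]
  refine lintegral_mono_ae ?_
  filter_upwards [ae_eval_ne_zero hΔ] with z hz
  exact Set.indicator_apply_le' (fun hp => h z (fun i => mem_closedBall_iff_norm.1
    (hp i trivial)) hz) fun _ => zero_le

/-- Compare `Kh.arch2`; use `le_lintegral_of_polydisc` after a translation, or its proof. -/
theorem arch3 {g : ℕ} {R : Type} [CommRing R] (ψ : R →+* E) (κ : 𝓞 L →+* R) (hκ : κ.FiniteType)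
    (hψ : ψ.comp κ = algebraMap (𝓞 L) E) {t : Fin g → R} {h : R}
    (ht : AlgebraicIndependent ℤ fun i => ψ (t i))
    (ha : ∀ z : E, IsAlgebraic (Algebra.adjoin ℤ (Set.range fun i => ψ (t i))) z) {Z : Set E}
    (hZ : Z.Finite) (σ : L →+* ℂ) (c : Fin g → ℂ) {b : ℝ} (hb : 0 ≤ b)
    (hB : ∀ B : Subalgebra (𝓞 L) E, Z ⊆ B → ∀ P : B →+* ℂ,
      (∀ a : 𝓞 L, P (algebraMap _ B a) = σ a) → ∀ (hi : ∀ i, ψ (t i) ∈ B) (hh : ψ h ∈ B),
      (∀ i, ‖P ⟨ψ (t i), hi i⟩ - c i‖ ≤ 1) → b ≤ ‖P ⟨ψ h, hh⟩‖) :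
    ENNReal.ofReal (b ^ 2) ≤ ∫⁻ z : Fin g → ℂ,
      ∑' P : {P : R →+* ℂ // (∀ a, P (κ a) = σ a) ∧ ∀ i, P (t i) = z i}, ‖P.1 h‖ₑ ^ 2 := by
  let := κ.toAlgebra
  obtain ⟨s, hs⟩ : (⊤ : Subalgebra (𝓞 L) R).FG := hκ.out
  let ψ' : R →ₐ[𝓞 L] E := ⟨ψ, RingHom.congr_fun hψ⟩
  set B := Algebra.adjoin (𝓞 L) (ψ' '' s ∪ Z)
  have hm : ∀ a, ψ a ∈ B := fun a => Algebra.adjoin_mono Set.subset_union_left
    ((ψ'.map_adjoin s).le ⟨a, hs.ge trivial, rfl⟩)
  let φ : R →ₐ[𝓞 L] B := ψ'.codRestrict B hm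
  let f := (algebraMap B E).toIntAlgHom
  have e1 : (Algebra.adjoin ℤ (Set.range fun i => φ (t i))).map f =
      Algebra.adjoin ℤ (Set.range fun i => ψ (t i)) := by
    rw [AlgHom.map_adjoin, ← Set.range_comp]
    rfl
  obtain ⟨Δ, hΔ, H⟩ := exists_points (algebraMap (𝓞 L) B) (RingHom.finiteType_algebraMap.2
    (.adjoin_of_finite ((s.finite_toSet.image _).union hZ)))
    (t := fun i => φ (t i)) (AlgebraicIndependent.of_comp f ht) (fun z => (ha z).of_ringHom_of_comp_eq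
      ((f.comp (Subalgebra.val _)).codRestrict _ fun a => e1.le ⟨a, a.2, rfl⟩).toRingHom
      (algebraMap B E) (fun y => (e1.ge y.2).elim fun a h => ⟨⟨a, h.1⟩, Subtype.ext h.2⟩)
      Subtype.val_injective rfl) σ
  refine h7_poly hΔ c fun z hz h0 => ?_
  obtain ⟨P, h1, h2⟩ := H z h0
  refine le_trans ?_ (ENNReal.le_tsum ⟨P.comp φ, fun a =>
    (congrArg P (φ.commutes a)).trans (h1 a), h2⟩)
  rw [← ofReal_norm, ← ENNReal.ofReal_pow (norm_nonneg _)]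
  refine ENNReal.ofReal_le_ofReal (pow_le_pow_left₀ hb ?_ 2)
  exact hB B (fun z hz => Algebra.subset_adjoin (.inr hz)) P h1 (fun _ => hm _) (hm _)
    fun i => (congrArg (fun y => ‖y - c i‖) (h2 i)).le.trans (hz i)

omit [Field F] in
theorem h7_cst {B : Subalgebra (𝓞 L) E} {P : B →+* ℂ} {σ : L →+* ℂ}
    (h1 : ∀ a : 𝓞 L, P (algebraMap _ B a) = σ a) {x : L} (hx : algebraMap L E x ∈ B) :
    P ⟨_, hx⟩ = σ x := by
  obtain ⟨⟨n, d⟩, h⟩ := IsLocalization.surj (nonZeroDivisors (𝓞 L)) x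
  have hd : σ (d : 𝓞 L) ≠ 0 :=
    (map_ne_zero σ).2 (RingOfIntegers.coe_ne_zero_iff.2 (nonZeroDivisors.ne_zero d.2))
  refine mul_right_cancel₀ hd ?_
  rw [← map_mul σ, ← h1, ← map_mul P]
  refine Eq.trans (congrArg P (Subtype.ext ?_)) ((h1 n).trans (congrArg σ h.symm))
  exact (map_mul (algebraMap L E) _ _).symm.trans (congrArg (algebraMap L E) h)

/-- The bound at a complex point. -/
theorem h7_pt {a : Co L} {s t : Fin 3 → E} {J y : E} {lam : L} {σ : L →+* ℂ} {c : Fin 3 → ℂ} {M : ℝ}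
    (hc : ∀ s t : Fin 3 → ℂ, (∀ k, (a.map σ).F (s k) (t k) = 0) →
      (∀ i : Fin 3, ‖es s (i.1 + 1) - c i‖ ≤ 1) →
      1 ≤ ‖Dl s t‖ ∧ ‖(∏ k, (a.map σ).Ft (s k) (t k)) * vdm s‖ ≤ M)
    (he : ∀ k, (a.up E).F (s k) (t k) = 0)
    (hJ : J ^ 2 = (∏ k, (a.up E).Ft (s k) (t k)) ^ 2 * vdm s ^ 2)
    (hy : y * J = algebraMap L E lam * Dl s t) (B : Subalgebra (𝓞 L) E)
    (hB : insert J (Set.range s ∪ Set.range t ∪
      algebraMap L E '' {lam, a.q0, a.c, a.q2, a.r0, a.r1, a.e}) ⊆ B) (P : B →+* ℂ)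
    (h1 : ∀ a : 𝓞 L, P (algebraMap _ B a) = σ a) (hi : ∀ i : Fin 3, es s (i.1 + 1) ∈ B)
    (hh : y ∈ B) (h2 : ∀ i : Fin 3, ‖P ⟨es s (i.1 + 1), hi i⟩ - c i‖ ≤ 1) :
    ‖σ lam‖ ≤ ‖P ⟨y, hh⟩‖ * M := by
  let s' : Fin 3 → B := fun k => ⟨s k, hB (.inr (.inl (.inl ⟨k, rfl⟩)))⟩
  let t' : Fin 3 → B := fun k => ⟨t k, hB (.inr (.inl (.inr ⟨k, rfl⟩)))⟩
  let J' : B := ⟨J, hB (.inl rfl)⟩
  have hm : ∀ z ∈ ({lam, a.q0, a.c, a.q2, a.r0, a.r1, a.e} : Set L), algebraMap L E z ∈ B :=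
    fun z hz => hB (.inr (.inr ⟨z, hz, rfl⟩))
  let a' : Co B := ⟨⟨_, hm a.q0 (by simp)⟩, ⟨_, hm a.c (by simp)⟩, ⟨_, hm a.q2 (by simp)⟩,
    ⟨_, hm a.r0 (by simp)⟩, ⟨_, hm a.r1 (by simp)⟩, ⟨_, hm a.e (by simp)⟩⟩
  let l' : B := ⟨_, hm lam (by simp)⟩
  have e1 : a'.map P = a.map σ := Co.ext (h7_cst h1 _) (h7_cst h1 _) (h7_cst h1 _) (h7_cst h1 _)
    (h7_cst h1 _) (h7_cst h1 _)
  have e2 : ∀ k, a'.F (s' k) (t' k) = 0 := fun k =>
    Subtype.ext ((a'.map_F (B.val : B →+* E) _ _).trans (he k))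
  have e3 : J' ^ 2 = ((∏ k, a'.Ft (s' k) (t' k)) * vdm s') ^ 2 := by
    refine (show Function.Injective (B.val : B →+* E) from Subtype.val_injective) ?_
    rw [map_pow, map_pow, map_mul, map_prod, map_vdm, mul_pow]
    simp only [Co.map_Ft]
    exact hJ
  have e4 : (⟨y, hh⟩ : B) * J' = l' * Dl s' t' :=
    Subtype.val_injective (hy.trans (congrArg (algebraMap L E lam * ·)
      (map_Dl (B.val : B →+* E) s' t').symm))
  obtain ⟨h3, h4⟩ := hc (fun k => P (s' k)) (fun k => P (t' k))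
    (fun k => by rw [← e1, ← Co.map_F, e2, map_zero]) fun i => by
      rw [← map_es, show es s' (i.1 + 1) = ⟨es s (i.1 + 1), hi i⟩ from
        Subtype.ext (map_es (B.val : B →+* E) s' _)]
      exact h2 i
  have h5 : ‖P J'‖ ≤ M := by
    refine le_trans (le_of_eq ?_) h4
    have := congrArg (fun z => ‖P z‖) e3
    simp only [map_pow, norm_pow, map_mul, map_prod, map_vdm, Co.map_Ft, e1] at this
    exact (pow_left_inj₀ (norm_nonneg _) (norm_nonneg _) two_ne_zero).1 this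
  have h6 := congrArg (fun z => ‖P z‖) e4
  simp only [map_mul, norm_mul, map_Dl, show P l' = σ lam from h7_cst h1 _] at h6
  exact ((le_mul_of_one_le_right (norm_nonneg _) h3).trans h6.symm.le).trans
    (mul_le_mul_of_nonneg_left h5 (norm_nonneg _))

/-- Compare `Kh.alg_main2`, with `lam α = d ^ 6 lam` (`Set3.hol`, `Set3.integral`), `Kh.tb_t`,
`jac_es`, `arch3` for the set `Z` of the `s k`, `t k`, the Jacobian determinant and the
coefficients of the curve, and `arch_bd`. -/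
theorem alg_main3 : ∃ n : ℕ, ∀ (L E F : Type) [Field L] [NumberField L] [Field E] [Field F]
    [Algebra L E] (a : Co L) (s t : Fin 3 → E) (κ : 𝓞 L →+* F) (ι : F →+* E)
    (S : Set (Subring F)) (d : L) (m : Fin 7 → 𝓞 L) (H : ℕ), Set3 a s t κ ι S → d ≠ 0 →
    (∀ i, (m i : L) = a.mm d i) → (∀ σ : L →+* ℂ, ‖σ d‖ ≤ Real.exp H ∧
      ∀ z ∈ [a.q0, a.c, a.q2, a.r0, a.r1, a.e], ‖σ z‖ ≤ Real.exp H) →
    Kh.Out' 3 κ S (n * (H + 1)) := by
  obtain ⟨n, hn⟩ := arch_bd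
  refine ⟨n + 6, fun L E F _ _ _ _ _ a s t κ ι S d m H h hd hm hH => ?_⟩
  have : CharZero E := charZero_of_injective_algebraMap (algebraMap L E).injective
  have : CharZero F := ι.charZero
  obtain ⟨D, hD⟩ := h.gen.exists_D
  obtain ⟨p, hp⟩ := exists_pair ι D
  obtain ⟨u, hu, hind, halg, halg'⟩ := Kh.tb_t h.gen.tb h.rig
  choose lam hl using fun α : LamS 3 S => h.hol hD hp α.2
  choose b hb using fun α : LamS 3 S => h.integral hD hp α.2 hd hm (hl α)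
  have hκ : ∀ r, ι (κ r) = algebraMap L E (algebraMap (𝓞 L) L r) := DFunLike.congr_fun h.cst
  have inj : ∀ {x y : L}, algebraMap L E x * _ = algebraMap L E y * _ → x = y := fun e =>
    (algebraMap L E).injective (mul_right_cancel₀ h.gen.Dl_ne e)
  have hJ := jac_es h.gen.ind.injective fun l k => (hD l k).1
  have hJ0 : (Matrix.of fun (i : Fin 3) l => D l (es s (i.1 + 1))).det ≠ 0 := fun h0 =>
    mul_ne_zero (pow_ne_zero 2 (Finset.prod_ne_zero_iff.2 fun l _ =>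
      Ft_ne_of_trans h.gen.sm (h.gen.ind.transcendental l) (h.gen.eq l)))
      (pow_ne_zero 2 (vdm_ne_zero h.gen.ind.injective))
      (hJ.symm.trans (by rw [h0, zero_pow two_ne_zero]))
  have key : ∀ α : LamS 3 S, ∃ y : F, α.1 = y • dw u ∧
      p α = ι y * (Matrix.of fun (i : Fin 3) l => D l (es s (i.1 + 1))).det := fun α => by
    obtain ⟨y, hy⟩ := exists_smul_dw halg' α.1
    exact ⟨y, hy, by simp only [hy, hp.1, hp.2, hu]⟩
  have hq : ∀ α, algebraMap (𝓞 L) L (b α) = d ^ 6 * lam α := hb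
  refine ⟨AddMonoidHom.mk' b fun α β => RingOfIntegers.coe_injective ?_, u,
    (injective_iff_map_eq_zero _).mpr fun α hα => ?_,
    fun r α β hβ => RingOfIntegers.coe_injective ?_, fun α => ?_⟩
  · rw [map_add, hq, hq, hq, ← mul_add]
    refine congrArg (_ * ·) (inj ?_)
    rw [map_add, add_mul, ← hl, ← hl, ← hl, AddSubgroup.coe_add, map_add]
  · obtain ⟨y, hy, hy'⟩ := key α
    have h1 := hq α
    rw [show b α = 0 from hα, map_zero, eq_comm, mul_eq_zero,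
      or_iff_right (pow_ne_zero 6 hd)] at h1
    rw [hl, h1, map_zero, zero_mul, eq_comm, mul_eq_zero, or_iff_left hJ0, map_eq_zero] at hy'
    exact Subtype.ext (by rw [hy, hy', zero_smul]; rfl)
  · change algebraMap _ L (b β) = algebraMap _ L (r * b α)
    rw [map_mul, hq, hq, mul_left_comm]
    refine congrArg (_ * ·) (inj ?_)
    rw [← hl, hβ, hp.1, hκ, hl, map_mul, mul_assoc]
  obtain ⟨y, hy, hy'⟩ := key α
  refine ⟨y, hy, fun R _ φ κ' t' h' h1 h2 h3 h4 σ => ?_⟩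
  have h5 : ∀ i, ι.comp φ (t' i) = es s (i.1 + 1) := fun i => (congrArg ι (h3 i)).trans (hu i)
  obtain ⟨c, hc⟩ := hn (a.map σ) H (by simpa [Co.map] using (hH σ).2)
  rw [← div_pow]
  refine arch3 (ι.comp φ) κ' h1 (by rw [RingHom.comp_assoc, h2, h.cst]) (funext h5 ▸ hind)
    (funext h5 ▸ halg) (Z := insert (Matrix.of fun (i : Fin 3) l => D l (es s (i.1 + 1))).det
      (Set.range s ∪ Set.range t ∪
        algebraMap L E '' {lam α, a.q0, a.c, a.q2, a.r0, a.r1, a.e}))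
    ((((Set.finite_range s).union (Set.finite_range t)).union
      ((Set.toFinite _).image _)).insert _) σ c (by positivity) fun B hB P h6 hi hh h7 => ?_
  have h8 := h7_pt hc h.gen.eq hJ (y := ι.comp φ h')
    (by rw [RingHom.comp_apply, h4, ← hy', hl]) B hB P h6 (fun i => h5 i ▸ hi i) hh
    fun i => by simpa only [h5] using h7 i
  have h9 : ‖σ (b α)‖ = ‖σ d‖ ^ 6 * ‖σ (lam α)‖ := by rw [hb, map_mul, map_pow, norm_mul, norm_pow]
  refine (div_le_iff₀ (Real.exp_pos _)).2 (h9.le.trans ?_)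
  refine (mul_le_mul (pow_le_pow_left₀ (norm_nonneg _) (hH σ).1 6) h8 (norm_nonneg _)
    (by positivity)).trans ?_
  rw [mul_left_comm, ← Real.exp_nat_mul, ← Real.exp_add]
  refine mul_le_mul_of_nonneg_left (Real.exp_le_exp.2 ?_) (norm_nonneg _)
  push_cast
  linarith

end Pool.Agent.Lib.MP_07b2d0_nt.G3
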