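import Pool.Agent.Lib.MP_07b2d0_nt.G3.HD
import Pool.Agent.Lib.MP_07b2d0_nt.G3.C5

/-!
Generic divisors of degree three are not special.
-/

set_option autoImplicit false

namespace Pool.Agent.Lib.MP_07b2d0_nt.G3

open Polynomial Fh WithZero

variable {L E : Type} [Field L] [IsAlgClosed L] [CharZero L] [Field E] [Algebra L E] {a : Co L}
  {s t : E}

omit [IsAlgClosed L] [CharZero L] in
theorem h8_exp_sum {I : Type} (s : Finset I) (a : I → ℤ) :
    exp (∑ i ∈ s, a i) = ∏ i ∈ s, exp (a i) :=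
  Finset.cons_induction rfl (fun i s hi ih => by
    rw [Finset.sum_cons, Finset.prod_cons, exp_add, ih]) s

omit [CharZero L] in
/-- The two other points of the fibre. -/
theorem h8_fibre (a : Co L) {ξ η : L} (h1 : a.F ξ η = 0)
    (h3 : ∀ T, a.F ξ T = 0 → a.Ft ξ T ≠ 0) : ∃ T₁ T₂, a.F ξ T₁ = 0 ∧ a.F ξ T₂ = 0 ∧ T₁ ≠ η ∧
      T₂ ≠ η ∧ T₁ ≠ T₂ ∧ T₁ + T₂ = -(ξ ^ 2 + a.q2 + η) := by
  obtain ⟨T₁, hT⟩ := IsAlgClosed.exists_root
    (X ^ 2 + C (ξ ^ 2 + a.q2 + η) * X + C (a.th ξ η) : L[X]) (by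
      have : (X ^ 2 + C (ξ ^ 2 + a.q2 + η) * X + C (a.th ξ η) : L[X]).degree = 2 := by
        compute_degree!
      rw [this]
      decide)
  have e1 : T₁ ^ 2 + (ξ ^ 2 + a.q2 + η) * T₁ + a.th ξ η = 0 := by
    simpa only [IsRoot, eval_add, eval_mul, eval_pow, eval_X, eval_C] using hT
  obtain ⟨T₂, e2⟩ : ∃ T₂, T₁ + T₂ = -(ξ ^ 2 + a.q2 + η) := ⟨-(ξ ^ 2 + a.q2 + η) - T₁, by ring⟩
  have e3 : T₂ ^ 2 + (ξ ^ 2 + a.q2 + η) * T₂ + a.th ξ η = 0 := by
    linear_combination e1 + (T₂ - T₁) * e2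
  have k : ∀ T, T ^ 2 + (ξ ^ 2 + a.q2 + η) * T + a.th ξ η = 0 → a.F ξ T = 0 ∧ T ≠ η := by
    intro T e
    refine ⟨?_, fun hT => h3 η h1 ?_⟩
    · simp only [Co.F, Co.th] at h1 e ⊢
      linear_combination h1 + (T - η) * e
    · subst hT
      simp only [Co.Ft, Co.th] at e ⊢
      linear_combination e
  refine ⟨T₁, T₂, (k _ e1).1, (k _ e3).1, (k _ e1).2, (k _ e3).2, fun hT => ?_, e2⟩
  subst hT
  refine h3 T₁ (k _ e1).1 ?_
  simp only [Co.Ft, Co.th] at e1 ⊢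
  linear_combination e1 + (T₁ - η) * e2

omit [IsAlgClosed L] [CharZero L] in
theorem h8_lin {ξ η : Fin 3 → L} (h4 : Dl ξ η ≠ 0) {β β' γ : L}
    (h : ∀ i, β + β' * ξ i = γ * η i) : β = 0 ∧ β' = 0 ∧ γ = 0 := by
  have e0 := h 0
  have e1 := h 1
  have e2 := h 2
  have k1 : γ = 0 := by
    refine (mul_eq_zero.1 ?_).resolve_right h4
    rw [Dl]
    linear_combination (ξ 2 - ξ 0) * (e1 - e0) - (ξ 1 - ξ 0) * (e2 - e0)
  have k2 : β' = 0 := by
    refine (mul_eq_zero.1 ?_).resolve_right h4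
    rw [Dl]
    linear_combination (η 2 - η 0) * (e1 - e0) - (η 1 - η 0) * (e2 - e0)
  subst k1 k2
  exact ⟨by simpa using e0, rfl, rfl⟩

omit [IsAlgClosed L] [CharZero L] in
theorem h8_poly {ξ : Fin 3 → L} (h2 : Function.Injective ξ) {A : L[X]} (hA : A.natDegree ≤ 3)
    (h : ∀ i, A.eval (ξ i) = 0) : A = C (A.coeff 3) * ∏ i, (X - C (ξ i)) := by
  have hm : (∏ i, (X - C (ξ i))).Monic := monic_prod_of_monic _ _ fun i _ => monic_X_sub_C _
  have hd : (∏ i, (X - C (ξ i))).natDegree = 3 := by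
    rw [natDegree_prod_of_monic _ _ fun i _ => monic_X_sub_C _]
    simp
  refine sub_eq_zero.1 (eq_zero_of_degree_lt_of_eval_index_eq_zero Finset.univ h2.injOn ?_
    fun i _ => ?_)
  · rw [Finset.card_fin, degree_lt_iff_coeff_zero]
    intro n hn
    rw [coeff_sub, coeff_C_mul]
    rcases hn.eq_or_lt with hn | hn
    · have := hm.coeff_natDegree
      rw [hd] at this
      rw [← hn, this, mul_one, sub_self]
    · rw [coeff_eq_zero_of_natDegree_lt (hA.trans_lt hn),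
        coeff_eq_zero_of_natDegree_lt (hd.trans_lt hn), mul_zero, sub_zero]
  · rw [eval_sub, h, eval_mul, eval_prod, Finset.prod_eq_zero (Finset.mem_univ i) (by simp),
      mul_zero, sub_zero]

omit [IsAlgClosed L] [CharZero L] in
theorem h8_bound {ξ η : Fin 3 → L} {P : Fin 3 → Plc L E} (hP : ∀ i, At (P i) s t (ξ i) (η i))
    {φ : E} (hφ : ∀ v : Plc L E, v.1 φ ≤ exp (∑ i, Finsupp.single (P i) (1 : ℤ) v))
    (v : Plc L E) {m : ℤ} (h0 : 0 ≤ m) (hm : v.1 s ≤ exp m) :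
    v.1 (φ * ∏ l, (s - algebraMap L E (ξ l))) ≤ exp (3 * m) := by
  classical
  have h1 : (1 : ℤᵐ⁰) ≤ exp m := by
    rw [← exp_zero, exp_le_exp]
    exact h0
  rw [map_mul, map_prod]
  refine (mul_le_mul_left (hφ v) _).trans ?_
  rw [h8_exp_sum, ← Finset.prod_mul_distrib]
  refine (Finset.prod_le_pow_card _ _ (exp m) fun l _ => ?_).trans_eq ?_
  · rw [Finsupp.single_apply]
    split_ifs with hl
    · subst hl
      refine le_trans ?_ h1
      rw [← lt_mul_exp_iff_le one_ne_zero, mul_comm]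
      exact mul_lt_mul_of_pos_right (hP l).1 exp_pos
    · rw [exp_zero, one_mul]
      exact v.1.map_sub_le hm ((Kh.vl_const v _).le_one.trans h1)
  · rw [Finset.card_fin, ← exp_nsmul, nsmul_eq_mul, Nat.cast_ofNat]

omit [IsAlgClosed L] [CharZero L] in
theorem h8_th {v : Plc L E} {s₀ t₀ : L} (h : At v s t s₀ t₀) :
    Kh.Vl v ((a.up E).th s t) (a.th s₀ t₀) := by
  have e : (a.up E).th s t = t * (t + s ^ 2 + algebraMap L E a.q2) +
      algebraMap L E (2 * a.c) * s + algebraMap L E a.r1 := by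
    simp only [Co.th, Co.map, map_mul, map_ofNat]
  rw [e]
  exact ((h.2.mul ((h.2.add (h.1.pow 2)).add (Kh.vl_const v _))).add
    ((Kh.vl_const v _).mul h.1)).add (Kh.vl_const v _)

/-- Compare `Kh.K1.nonspecial`.  The function `f = φ ∏ (s - ξ i)` has no finite pole
(`Cv.mem_of_fin`) and poles of order at most `6`, `3` at `P`, `Q`, so
`f = A(s) + (β + β' s) t + γ th` (`Cv.L63`).  It vanishes at the two other points above `ξ i`, whose
ordinates have sum `- ξ i ^ 2 - q2 - η i`; hence `β + β' ξ i = γ η i`, so `β = β' = γ = 0` by `h4`,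
and `A` vanishes at the `ξ i`. -/
theorem Cv.nonspecial (h : Cv a s t) {ξ η : Fin 3 → L} (h1 : ∀ i, a.F (ξ i) (η i) = 0)
    (h2 : Function.Injective ξ) (h3 : ∀ i T, a.F (ξ i) T = 0 → a.Ft (ξ i) T ≠ 0)
    (h4 : Dl ξ η ≠ 0) {P : Fin 3 → Plc L E} (hP : ∀ i, At (P i) s t (ξ i) (η i)) {φ : E}
    (hφ : ∀ v : Plc L E, v.1 φ ≤ exp (∑ i, Finsupp.single (P i) (1 : ℤ) v)) :
    ∃ c, algebraMap L E c = φ := by
  classical
  obtain ⟨P₀, hP₀, -⟩ := h.exists_P
  obtain ⟨Q₀, hQ₀, -⟩ := h.swap.exists_P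
  obtain ⟨A, β, β', γ, hA, e⟩ := h.L63 hP₀ hQ₀ (z := φ * ∏ l, (s - algebraMap L E (ξ l)))
    (h.mem_of_fin fun v k _ => h8_bound hP hφ v le_rfl k)
    (h8_bound hP hφ P₀ zero_le_two hP₀.1.le) (h8_bound hP hφ Q₀ zero_le_one hQ₀.2.le)
  have key : ∀ i T, a.F (ξ i) T = 0 → T ≠ η i →
      A.eval (ξ i) + (β + β' * ξ i) * T + γ * a.th (ξ i) T = 0 := fun i T k1 k2 => by
    obtain ⟨v, hv, -⟩ := h.exists_at k1
    have a₁ : v.1 φ ≤ 1 := by
      have := hφ v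
      rwa [Finset.sum_eq_zero, exp_zero] at this
      intro l _
      refine Finsupp.single_eq_of_ne fun hl => k2 ?_
      subst hl
      obtain rfl := h2 (hv.1.unique (hP l).1)
      exact hv.2.unique (hP _).2
    have a₂ : Kh.Vl v (∏ l, (s - algebraMap L E (ξ l))) 0 := by
      have := Kh.Vl.prod Finset.univ fun l _ => hv.1.sub (Kh.vl_const v (ξ l))
      rwa [Finset.prod_eq_zero (f := fun l => ξ i - ξ l) (Finset.mem_univ i) (sub_self _)] at this
    have a₃ : Kh.Vl v (φ * ∏ l, (s - algebraMap L E (ξ l))) 0 := by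
      rw [Kh.vl_zero, map_mul]
      exact (mul_le_of_le_one_left' a₁).trans_lt (Kh.vl_zero.1 a₂)
    have a₄ := ((hv.1.aeval A).add (((Kh.vl_const v β).add ((Kh.vl_const v β').mul hv.1)).mul
      hv.2)).add ((Kh.vl_const v γ).mul (h8_th (a := a) hv))
    rw [← e] at a₄
    exact a₄.unique a₃
  obtain ⟨rfl, rfl, rfl⟩ := h8_lin h4 (β := β) (β' := β') (γ := γ) fun i => by
    obtain ⟨T₁, T₂, k1, k2, k3, k4, k5, k6⟩ := h8_fibre a (h1 i) (h3 i)
    have e1 := key i T₁ k1 k3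
    have e2 := key i T₂ k2 k4
    refine mul_left_cancel₀ (sub_ne_zero.2 k5) ?_
    simp only [Co.th] at e1 e2
    linear_combination e1 - e2 - γ * (T₁ - T₂) * k6
  have hA0 := h8_poly h2 hA fun i => by
    obtain ⟨T₁, -, k1, -, k3, -⟩ := h8_fibre a (h1 i) (h3 i)
    simpa using key i T₁ k1 k3
  refine ⟨A.coeff 3, mul_right_cancel₀ (b := ∏ l, (s - algebraMap L E (ξ l)))
    (Finset.prod_ne_zero_iff.2 fun l _ k =>
      h.trans (sub_eq_zero.1 k ▸ isAlgebraic_algebraMap (ξ l))) ?_⟩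
  rw [e]
  conv_rhs => rw [hA0]
  simp [map_prod]

end Pool.Agent.Lib.MP_07b2d0_nt.G3
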