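import Pool.Agent.Lib.MP_07b2d0_nt.G3.Bas

/-!
Definitions for the passage from heights to the Faltings height.
-/

set_option autoImplicit false

namespace Pool.Agent.Lib.MP_07b2d0_nt.G3

open Polynomial NumberField Fh

noncomputable section

section Ring

variable {R R' : Type} [CommRing R] [CommRing R']

/-- The determinant of the values of `1, s, t` at three points. -/
def Dl (s t : Fin 3 → R) : R := (s 1 - s 0) * (t 2 - t 0) - (s 2 - s 0) * (t 1 - t 0)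

theorem map_Dl (φ : R →+* R') (s t : Fin 3 → R) :
    φ (Dl s t) = Dl (fun k => φ (s k)) fun k => φ (t k) := by simp [Dl]

theorem Dl_eq_det (s t : Fin 3 → R) : Dl s t = (Matrix.of ![fun _ => 1, s, t]).det := by
  simp [Dl, Matrix.det_fin_three]
  ring

/-- The equation in the chart `t / s = d τ`, `1 / s = d ^ 2 ω`. -/
def Gm (m : Fin 7 → R) (τ ω : R) : R :=
  τ ^ 2 + ω + m 0 * τ ^ 3 * ω + m 1 * ω ^ 2 + m 2 * τ * ω ^ 2 + m 3 * τ ^ 2 * ω ^ 2 +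
    m 4 * ω ^ 3 + m 5 * τ * ω ^ 3 + m 6 * ω ^ 4

/-- The derivative in `ω`. -/
def Gw (m : Fin 7 → R) (τ ω : R) : R :=
  1 + m 0 * τ ^ 3 + 2 * m 1 * ω + 2 * m 2 * τ * ω + 2 * m 3 * τ ^ 2 * ω + 3 * m 4 * ω ^ 2 +
    3 * m 5 * τ * ω ^ 2 + 4 * m 6 * ω ^ 3

/-- The derivative in `τ`. -/
def Gt (m : Fin 7 → R) (τ ω : R) : R :=
  2 * τ + 3 * m 0 * τ ^ 2 * ω + m 2 * ω ^ 2 + 2 * m 3 * τ * ω ^ 2 + m 5 * ω ^ 3

theorem map_Gm (φ : R →+* R') (m : Fin 7 → R) (τ ω : R) :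
    φ (Gm m τ ω) = Gm (fun i => φ (m i)) (φ τ) (φ ω) := by simp [Gm]

theorem map_Gw (φ : R →+* R') (m : Fin 7 → R) (τ ω : R) :
    φ (Gw m τ ω) = Gw (fun i => φ (m i)) (φ τ) (φ ω) := by simp [Gw, map_ofNat]

theorem map_Gt (φ : R →+* R') (m : Fin 7 → R) (τ ω : R) :
    φ (Gt m τ ω) = Gt (fun i => φ (m i)) (φ τ) (φ ω) := by simp [Gt, map_ofNat]

/-- The coefficients of the equation in the chart. -/
def Co.mm (a : Co R) (d : R) : Fin 7 → R :=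
  ![d ^ 3, a.q0 * d ^ 2, 2 * a.c * d ^ 3, a.q2 * d ^ 4, a.r0 * d ^ 4, a.r1 * d ^ 5,
    (a.c ^ 2 + a.e) * d ^ 6]

/-- The change of coordinates: here `w = 1 / s`, `w = d ^ 2 ω`, `t w = d τ`. -/
theorem chart_Gm (a : Co R) {d s t τ ω : R} (h1 : s * (d ^ 2 * ω) = 1)
    (h2 : t * (d ^ 2 * ω) = d * τ) :
    d ^ 2 * Gm (a.mm d) τ ω = a.F s t * (d ^ 2 * ω) ^ 4 ∧
      Gw (a.mm d) τ ω = 4 * (d ^ 2 * ω) ^ 3 * a.F s t -
        (d ^ 2 * ω) ^ 2 * (a.Fs s t + d * τ * a.Ft s t) ∧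
      d * Gt (a.mm d) τ ω = (d ^ 2 * ω) ^ 3 * a.Ft s t := by
  have e0 : d ^ 2 * Gm (a.mm d) τ ω = Gm (a.mm 1) (d * τ) (d ^ 2 * ω) := by
    simp only [Gm, Co.mm, Matrix.cons_val]
    ring
  have e1 : Gw (a.mm d) τ ω = Gw (a.mm 1) (d * τ) (d ^ 2 * ω) := by
    simp only [Gw, Co.mm, Matrix.cons_val]
    ring
  have e2 : d * Gt (a.mm d) τ ω = Gt (a.mm 1) (d * τ) (d ^ 2 * ω) := by
    simp only [Gt, Co.mm, Matrix.cons_val]
    ring
  rw [e0, e1, e2, ← h2]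
  generalize d ^ 2 * ω = w at h1
  simp only [Gm, Gw, Gt, Co.mm, Co.F, Co.Fs, Co.Ft, Matrix.cons_val]
  refine ⟨?_, ?_, ?_⟩ <;> grind

theorem Co.up_up (a : Co R) (K E : Type) [CommRing K] [CommRing E] [Algebra R K] [Algebra K E]
    [Algebra R E] [IsScalarTower R K E] : (a.up K).up E = a.up E :=
  (Co.map_map _ _ _).trans (congrArg a.map (IsScalarTower.algebraMap_eq R K E).symm)

/-- The ring `A` is the étale model. -/
structure IsMdl3 {O A : Type} [CommRing O] [CommRing A] [Algebra O A] (m : Fin 7 → O)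
    (τ ω : Fin 3 → A) : Prop where
  rel : ∀ k, Gm (fun i => algebraMap O A (m i)) (τ k) (ω k) = 0
  unit : ∀ k, IsUnit (ω k) ∧ IsUnit (Gw (fun i => algebraMap O A (m i)) (τ k) (ω k))
  fin : Algebra.FiniteType O A
  ext : ∀ (B : Type) [CommRing B] [Algebra O B] (φ ψ : A →ₐ[O] B), (∀ k, φ (τ k) = ψ (τ k)) →
    (∀ k, φ (ω k) = ψ (ω k)) → φ = ψ
  lift : ∀ (B : Type) [CommRing B] [Algebra O B] (u w : Fin 3 → B),
    (∀ k, Gm (fun i => algebraMap O B (m i)) (u k) (w k) = 0) →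
    (∀ k, IsUnit (w k) ∧ IsUnit (Gw (fun i => algebraMap O B (m i)) (u k) (w k))) →
    ∃ φ : A →ₐ[O] B, (∀ k, φ (τ k) = u k) ∧ ∀ k, φ (ω k) = w k

end Ring

variable {L E F : Type} [Field L] [Field E] [Field F] [Algebra L E]

/-- `E` is the function field of the third power of the curve. -/
structure Gn (a : Co L) (s t : Fin 3 → E) : Prop where
  sm : a.Sm
  ind : AlgebraicIndependent L s
  eq : ∀ k, (a.up E).F (s k) (t k) = 0
  top : IntermediateField.adjoin L (Set.range s ∪ Set.range t) = ⊤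

/-- `D l` is the derivation `Ft ∂ / ∂ s l`. -/
def IsDr (a : Co L) (s t : Fin 3 → E) (D : Fin 3 → Derivation L E E) : Prop :=
  ∀ l k, (D l (s k) = if l = k then (a.up E).Ft (s l) (t l) else 0) ∧
    D l (t k) = if l = k then -(a.up E).Fs (s l) (t l) else 0

/-- The field `F` of functions on the Néron model, its local rings `S`, and its embedding `ι`. -/
structure Set3 [NumberField L] (a : Co L) (s t : Fin 3 → E) (κ : 𝓞 L →+* F) (ι : F →+* E)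
    (S : Set (Subring F)) : Prop where
  gen : Gn a s t
  cst : ι.comp κ = algebraMap (𝓞 L) E
  reg : ∀ T : Subalgebra L E, (∀ k, s k ∈ T ∧ t k ∈ T) → ∀ q : Ideal T, q.IsPrime →
    Fh.Loc ι S (algebraMap T E) q
  val : ∀ O : ValuationSubring E, (∀ c : L, algebraMap L E c ∈ O) → ∃ T ∈ S, ∀ a ∈ T, ι a ∈ O
  nmp : ∀ T : Subalgebra (𝓞 L) E, Algebra.Smooth (𝓞 L) T →
    (∀ k, s k ∈ Algebra.adjoin L (T : Set E) ∧ t k ∈ Algebra.adjoin L (T : Set E)) →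
    ∀ q : Ideal T, q.IsPrime → Fh.Loc ι S (algebraMap T E) q
  sym : ∀ (π : Equiv.Perm (Fin 3)) (τ : E →ₐ[L] E), (∀ k, τ (s k) = s (π k)) →
    (∀ k, τ (t k) = t (π k)) → ∀ a, τ (ι a) = ι a
  rig : Rig ι s

end

end Pool.Agent.Lib.MP_07b2d0_nt.G3
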