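import Pool.Agent.Lib.MP_07b2d0_nt.G3.P0

/-!
Estimates in the dominant chamber.
-/

set_option autoImplicit false
set_option linter.unusedSectionVars false
set_option linter.unusedSimpArgs false

namespace Pool.Agent.Lib.MP_07b2d0_nt.G3

open Polynomial Fh

variable {K : Type} [Field K] [CharZero K] {a : Co K} {x : Fin 6 → K} {h : K} {V : Subring K}

section Aux

variable {R : Type} [CommRing R] {φ : R →+* K} {b0 b1 b2 b3 b4 β E1 E2 E3 E4 E5 : R}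
  {X g e1 e2 e3 e4 e5 : K}

/-- The parameters in terms of the simple roots. -/
structure P2D (φ : R →+* K) (b0 b1 b2 b3 b4 β E1 E2 E3 E4 E5 : R) (X h g e1 e2 e3 e4 e5 : K) :
    Prop where
  hT : X ^ 3 * (φ β ^ 3 * φ b0 ^ 4 * φ b1 ^ 5 * φ b2 ^ 6 * φ b3 ^ 4 * φ b4 ^ 2) = 1
  hh : h = φ β * X ^ 3 * φ b0 ^ 3 * φ b1 ^ 3 * φ b2 ^ 3 * φ b3 ^ 2 * φ b4
  hg : g = φ β ^ 2 * φ b0 * φ b1 ^ 2 * φ b2 ^ 3 * φ b3 ^ 2 * φ b4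
  h1 : e1 = X * φ E1
  h2 : e2 = X ^ 2 * φ b0 * φ E2
  h3 : e3 = X ^ 3 * φ b0 ^ 2 * φ b1 * φ E3
  h4 : e4 = X ^ 4 * φ b0 ^ 3 * φ b1 ^ 2 * φ b2 * φ E4
  h5 : e5 = X ^ 5 * φ b0 ^ 4 * φ b1 ^ 3 * φ b2 ^ 2 * φ b3 * φ E5

omit [CharZero K] in
theorem P2D.one (D : P2D φ b0 b1 b2 b3 b4 β E1 E2 E3 E4 E5 X h g e1 e2 e3 e4 e5) : ∃ P : R,
    φ P = X ^ 3 * (φ β ^ 3 * φ b0 ^ 4 * φ b1 ^ 5 * φ b2 ^ 6 * φ b3 ^ 4 * φ b4 ^ 2) :=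
  ⟨1, by rw [map_one, D.hT]⟩

theorem P2D.q0 (D : P2D φ b0 b1 b2 b3 b4 β E1 E2 E3 E4 E5 X h g e1 e2 e3 e4 e5) (u : K) :
    ∃ W : R, (coR u h g e1 e2 e3 e4 e5).q0 =
      u * (X * (-φ E1 + φ β * φ b0 * φ b1 * φ b2 * φ W)) := by
  obtain ⟨P, hP⟩ := D.one
  obtain ⟨hT, rfl, rfl, rfl, rfl, rfl, rfl, rfl⟩ := D
  refine ⟨-(b1 * b2 ^ 2 * b3 ^ 2 * b4 * β * E1) - P * E4, ?_⟩
  simp only [coR, map_add, map_sub, map_mul, map_pow, map_neg, map_ofNat, hP]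
  ring

theorem P2D.r0 (D : P2D φ b0 b1 b2 b3 b4 β E1 E2 E3 E4 E5 X h g e1 e2 e3 e4 e5) (u : K) :
    ∃ W : R, (coR u h g e1 e2 e3 e4 e5).r0 =
      u ^ 2 * (X ^ 2 * (φ b0 * φ E2 + φ β * φ b0 * φ b1 * φ b2 * φ W)) := by
  obtain ⟨P, hP⟩ := D.one
  obtain ⟨hT, rfl, rfl, rfl, rfl, rfl, rfl, rfl⟩ := D
  refine ⟨b1 * b2 ^ 2 * b3 ^ 2 * b4 * β * E1 ^ 2 - 2 * b0 * b1 * b2 ^ 2 * b3 ^ 2 * b4 * β * E2 +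
    b0 ^ 2 * b1 ^ 3 * b2 ^ 5 * b3 ^ 4 * b4 ^ 2 * β ^ 3 * E2 + P * E1 * E4 - P * b0 * b1 * b2 * b3
    * E5 + P * b0 * b1 ^ 2 * b2 ^ 3 * b3 ^ 2 * b4 * β ^ 2 * E1 * E4 - P * b0 ^ 2 * b1 ^ 3 * b2 ^ 4
    * b3 ^ 3 * b4 * β ^ 2 * E5 + P ^ 2 * b0 * b1 * b2 * b3 * β * E3 * E5, ?_⟩
  simp only [coR, map_add, map_sub, map_mul, map_pow, map_neg, map_ofNat, hP]
  ring

theorem P2D.e (D : P2D φ b0 b1 b2 b3 b4 β E1 E2 E3 E4 E5 X h g e1 e2 e3 e4 e5) (u : K) :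
    ∃ W : R, (coR u h g e1 e2 e3 e4 e5).e =
      u ^ 3 * (X ^ 3 * (-(φ b0 ^ 2 * φ b1 * φ E3) + φ β * φ b0 * φ b1 * φ b2 * φ W)) := by
  obtain ⟨P, hP⟩ := D.one
  obtain ⟨hT, rfl, rfl, rfl, rfl, rfl, rfl, rfl⟩ := D
  refine ⟨-(10 * b0 ^ 3 * b1 ^ 4 * b2 ^ 5 * b3 ^ 4 * b4 ^ 2 * β ^ 2) + 3 * b0 ^ 4 * b1 ^ 6 * b2
    ^ 8 * b3 ^ 6 * b4 ^ 3 * β ^ 4 + 3 * b0 ^ 2 * b1 ^ 2 * b2 ^ 2 * b3 ^ 2 * b4 + 3 * b0 ^ 2 * b1 ^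
    2 * b2 ^ 2 * b3 ^ 2 * b4 * β * E3 + 3 * b0 ^ 3 * b1 ^ 4 * b2 ^ 5 * b3 ^ 4 * b4 ^ 2 * β ^ 3 *
    E3 - b0 ^ 4 * b1 ^ 6 * b2 ^ 8 * b3 ^ 6 * b4 ^ 3 * β ^ 5 * E3 - P * b0 * E2 * E4 - P * b0 * b1
    ^ 2 * b2 ^ 3 * b3 ^ 2 * b4 * β ^ 2 * E1 ^ 2 * E4 - P * b0 ^ 2 * b1 ^ 2 * b2 ^ 2 * b3 ^ 2 * b4
    * β ^ 2 * E3 ^ 2 + 2 * P * b0 ^ 2 * b1 ^ 2 * b2 ^ 3 * b3 ^ 2 * b4 * β ^ 2 * E2 * E4 + 4 * P *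
    b0 ^ 2 * b1 ^ 3 * b2 ^ 4 * b3 ^ 3 * b4 * β ^ 2 * E1 * E5 - P * b0 ^ 3 * b1 ^ 4 * b2 ^ 6 * b3 ^
    4 * b4 ^ 2 * β ^ 4 * E2 * E4 - P ^ 2 * b0 * b1 * b2 * b3 * β * E1 * E3 * E5 - P ^ 2 * b0 ^ 2 *
    b1 ^ 3 * b2 ^ 4 * b3 ^ 3 * b4 * β ^ 3 * E1 * E3 * E5 - P ^ 3 * b0 ^ 2 * b1 ^ 2 * b2 ^ 3 * b3 ^
    2 * β ^ 2 * E2 * E5 ^ 2, ?_⟩
  simp only [coR, map_add, map_sub, map_mul, map_pow, map_neg, map_ofNat, hP]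
  linear_combination u ^ 3 * (10 - 3 * φ b0 * φ b1 ^ 2 * φ b2 ^ 3 * φ b3 ^ 2 * φ b4 * φ β ^ 2) *
    hT

theorem P2D.c (D : P2D φ b0 b1 b2 b3 b4 β E1 E2 E3 E4 E5 X h g e1 e2 e3 e4 e5) (u : K) :
    ∃ W : R, (coR u h g e1 e2 e3 e4 e5).c =
      u ^ 2 * (h * (-1 + φ β * φ W)) := by
  obtain ⟨P, hP⟩ := D.one
  obtain ⟨hT, rfl, rfl, rfl, rfl, rfl, rfl, rfl⟩ := D
  refine ⟨6 * b0 * b1 ^ 2 * b2 ^ 3 * b3 ^ 2 * b4 * β - b0 ^ 2 * b1 ^ 4 * b2 ^ 6 * b3 ^ 4 * b4 ^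
    2 * β ^ 3 - E3 - b0 * b1 ^ 2 * b2 ^ 3 * b3 ^ 2 * b4 * β ^ 2 * E3 - P * b1 * b2 ^ 2 * b3 * β *
    E1 * E5, ?_⟩
  simp only [coR, map_add, map_sub, map_mul, map_pow, map_neg, map_ofNat, hP]
  linear_combination u ^ 2 * (-(6) + φ b0 * φ b1 ^ 2 * φ b2 ^ 3 * φ b3 ^ 2 * φ b4 * φ β ^ 2) *
    hT

theorem P2D.r1 (D : P2D φ b0 b1 b2 b3 b4 β E1 E2 E3 E4 E5 X h g e1 e2 e3 e4 e5) (u : K) :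
    ∃ W : R, (coR u h g e1 e2 e3 e4 e5).r1 =
      u ^ 2 * (X ^ 4 * g * (φ b0 ^ 3 * φ b1 ^ 2 * φ b2) * (φ E4 + φ β * φ W)) := by
  obtain ⟨P, hP⟩ := D.one
  obtain ⟨hT, rfl, rfl, rfl, rfl, rfl, rfl, rfl⟩ := D
  refine ⟨-(b1 * b2 ^ 2 * b3 ^ 2 * b4 * E1) - b0 * b1 ^ 3 * b2 ^ 5 * b3 ^ 4 * b4 ^ 2 * β ^ 2 *
    E1 + b1 * b2 ^ 2 * b3 ^ 2 * b4 * β * E1 * E3 - 2 * b0 * b1 ^ 2 * b2 ^ 3 * b3 ^ 2 * b4 * β * E4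
    + b0 ^ 2 * b1 ^ 4 * b2 ^ 6 * b3 ^ 4 * b4 ^ 2 * β ^ 3 * E4 + P * b2 * b3 * E2 * E5 + P * b0 *
    b1 ^ 2 * b2 ^ 4 * b3 ^ 3 * b4 * β ^ 2 * E2 * E5 + P ^ 2 * b0 * b1 ^ 2 * b2 ^ 3 * b3 ^ 2 * β *
    E5 ^ 2, ?_⟩
  simp only [coR, map_add, map_sub, map_mul, map_pow, map_neg, map_ofNat, hP]
  linear_combination u ^ 2 * (X * φ E1 + X * φ b0 * φ b1 ^ 2 * φ b2 ^ 3 * φ b3 ^ 2 * φ b4 * φ β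
    ^ 2 * φ E1) * hT

theorem P2D.q2 (D : P2D φ b0 b1 b2 b3 b4 β E1 E2 E3 E4 E5 X h g e1 e2 e3 e4 e5) (u : K) :
    ∃ W : R, (coR u h g e1 e2 e3 e4 e5).q2 =
      u * (X ^ 5 * g ^ 2 * (φ b0 ^ 4 * φ b1 ^ 3 * φ b2 ^ 2 * φ b3) * (-φ E5 + φ β * φ W)) := by
  obtain ⟨P, hP⟩ := D.one
  obtain ⟨hT, rfl, rfl, rfl, rfl, rfl, rfl, rfl⟩ := D
  refine ⟨-(b2 * b3 * b4 * E2) - b0 * b1 ^ 2 * b2 ^ 3 * b3 ^ 2 * b4 * β * E5, ?_⟩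
  simp only [coR, map_add, map_sub, map_mul, map_pow, map_neg, map_ofNat, hP]
  linear_combination u * (X ^ 2 * φ b0 ^ 2 * φ b1 ^ 2 * φ b2 ^ 3 * φ b3 ^ 2 * φ b4 * φ β ^ 2 * φ
    E2) * hT

end Aux

omit [CharZero K] in
theorem p2_mem {z : K} (y : V) (e : z = V.subtype y) : z ∈ V := e ▸ y.2

omit [CharZero K] in
theorem p2_dv {B z : K} (y : V) (e : z = B * V.subtype y) : Dv V B z := ⟨_, y.2, e⟩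

omit [CharZero K] in
theorem p2_par (hP : Par a x h) (hD : Dom V x h) : ∃ b0 b1 b2 b3 b4 β : V,
    (b0 : K) ≠ 0 ∧ (b1 : K) ≠ 0 ∧ (b2 : K) ≠ 0 ∧ (b3 : K) ≠ 0 ∧ (b4 : K) ≠ 0 ∧ (β : K) ≠ 0 ∧
      x 1 = x 0 * b0 ∧ x 2 = x 0 * b0 * b1 ∧ x 3 = x 0 * b0 * b1 * b2 ∧
      x 4 = x 0 * b0 * b1 * b2 * b3 ∧ x 5 = x 0 * b0 * b1 * b2 * b3 * b4 ∧
      h = β * (x 3 * x 4 * x 5) := by
  have n0 := hP.x_ne 0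
  have n1 := hP.x_ne 1
  have n2 := hP.x_ne 2
  have n3 := hP.x_ne 3
  have n4 := hP.x_ne 4
  have n5 := hP.x_ne 5
  have n := hP.ne
  refine ⟨⟨x 1 / x 0, hD.b 0⟩, ⟨x 2 / x 1, hD.b 1⟩, ⟨x 3 / x 2, hD.b 2⟩, ⟨x 4 / x 3, hD.b 3⟩,
    ⟨x 5 / x 4, hD.b 4⟩, ⟨_, hD.b0⟩, div_ne_zero n1 n0, div_ne_zero n2 n1, div_ne_zero n3 n2,
    div_ne_zero n4 n3, div_ne_zero n5 n4, div_ne_zero n (mul_ne_zero (mul_ne_zero n3 n4) n5),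
    ?_, ?_, ?_, ?_, ?_, ?_⟩ <;> field_simp

/-- `es x j = E j * (x 0 * ⋯ * x (j - 1))` with `E j` in `V`. -/
theorem Dom.es_mem (hP : Par a x h) (hD : Dom V x h) :
    es x 1 / x 0 ∈ V ∧ es x 2 / (x 0 * x 1) ∈ V ∧ es x 3 / (x 0 * x 1 * x 2) ∈ V ∧
      es x 4 / (x 0 * x 1 * x 2 * x 3) ∈ V ∧ es x 5 / (x 0 * x 1 * x 2 * x 3 * x 4) ∈ V := by
  obtain ⟨b0, b1, b2, b3, b4, β, n0, n1, n2, n3, n4, -, x1, x2, x3, x4, x5, -⟩ := p2_par hP hD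
  obtain ⟨s1, s2, s3, s4, s5⟩ := es_six x
  have n := hP.x_ne 0
  refine ⟨?_, ?_, ?_, ?_, ?_⟩
  · refine p2_mem (1 + b0 + b0 * b1 + b0 * b1 * b2 + b0 * b1 * b2 * b3 + b0 * b1 * b2 * b3 *
      b4) ?_
    simp only [map_add, map_mul, map_pow, map_one, Subring.subtype_apply, s1, x1, x2, x3, x4,
      x5]
    field_simp
    ring
  · refine p2_mem (1 + b1 + b1 * b2 + b1 * b2 * b3 + b1 * b2 * b3 * b4 + b0 * b1 + b0 * b1 *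
      b2 + b0 * b1 * b2 * b3 + b0 * b1 * b2 * b3 * b4 + b0 * b1 ^ 2 * b2 + b0 * b1 ^ 2 * b2 * b3 +
      b0 * b1 ^ 2 * b2 * b3 * b4 + b0 * b1 ^ 2 * b2 ^ 2 * b3 + b0 * b1 ^ 2 * b2 ^ 2 * b3 * b4 + b0
      * b1 ^ 2 * b2 ^ 2 * b3 ^ 2 * b4) ?_
    simp only [map_add, map_mul, map_pow, map_one, Subring.subtype_apply, s2, x1, x2, x3, x4,
      x5]
    field_simp
    ring
  · refine p2_mem (1 + b2 + b2 * b3 + b2 * b3 * b4 + b1 * b2 + b1 * b2 * b3 + b1 * b2 * b3 *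
      b4 + b1 * b2 ^ 2 * b3 + b1 * b2 ^ 2 * b3 * b4 + b1 * b2 ^ 2 * b3 ^ 2 * b4 + b0 * b1 * b2 +
      b0 * b1 * b2 * b3 + b0 * b1 * b2 * b3 * b4 + b0 * b1 * b2 ^ 2 * b3 + b0 * b1 * b2 ^ 2 * b3 *
      b4 + b0 * b1 * b2 ^ 2 * b3 ^ 2 * b4 + b0 * b1 ^ 2 * b2 ^ 2 * b3 + b0 * b1 ^ 2 * b2 ^ 2 * b3
      * b4 + b0 * b1 ^ 2 * b2 ^ 2 * b3 ^ 2 * b4 + b0 * b1 ^ 2 * b2 ^ 3 * b3 ^ 2 * b4) ?_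
    simp only [map_add, map_mul, map_pow, map_one, Subring.subtype_apply, s3, x1, x2, x3, x4,
      x5]
    field_simp
    ring
  · refine p2_mem (1 + b3 + b3 * b4 + b2 * b3 + b2 * b3 * b4 + b2 * b3 ^ 2 * b4 + b1 * b2 * b3
      + b1 * b2 * b3 * b4 + b1 * b2 * b3 ^ 2 * b4 + b1 * b2 ^ 2 * b3 ^ 2 * b4 + b0 * b1 * b2 * b3
      + b0 * b1 * b2 * b3 * b4 + b0 * b1 * b2 * b3 ^ 2 * b4 + b0 * b1 * b2 ^ 2 * b3 ^ 2 * b4 + b0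
      * b1 ^ 2 * b2 ^ 2 * b3 ^ 2 * b4) ?_
    simp only [map_add, map_mul, map_pow, map_one, Subring.subtype_apply, s4, x1, x2, x3, x4,
      x5]
    field_simp
    ring
  · refine p2_mem (1 + b4 + b3 * b4 + b2 * b3 * b4 + b1 * b2 * b3 * b4 + b0 * b1 * b2 * b3 *
      b4) ?_
    simp only [map_add, map_mul, map_pow, map_one, Subring.subtype_apply, s5, x1, x2, x3, x4,
      x5]
    field_simp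
    ring

theorem p2_data (hP : Par a x h) (hD : Dom V x h) : ∃ b0 b1 b2 b3 b4 β E1 E2 E3 E4 E5 : V,
    P2D V.subtype b0 b1 b2 b3 b4 β E1 E2 E3 E4 E5 (x 0) h h⁻¹ (es x 1) (es x 2) (es x 3) (es x 4)
      (es x 5) ∧ Bx x h = V.subtype β * V.subtype b0 * V.subtype b1 * V.subtype b2 := by
  obtain ⟨m1, m2, m3, m4, m5⟩ := hD.es_mem hP
  obtain ⟨b0, b1, b2, b3, b4, β, n0, n1, n2, n3, n4, n5, x1, x2, x3, x4, x5, e⟩ := p2_par hP hD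
  have n := hP.x_ne 0
  have p := hP.prod
  rw [Fin.prod_univ_six, e, x1, x2, x3, x4, x5] at p
  have hT : x 0 ^ 3 * ((β : K) ^ 3 * b0 ^ 4 * b1 ^ 5 * b2 ^ 6 * b3 ^ 4 * b4 ^ 2) = 1 := by
    refine mul_left_cancel₀ (a := x 0 ^ 6 * (b0 : K) ^ 5 * b1 ^ 4 * b2 ^ 3 * b3 ^ 2 * b4)
      (by positivity) ?_
    linear_combination -p
  refine ⟨b0, b1, b2, b3, b4, β, ⟨_, m1⟩, ⟨_, m2⟩, ⟨_, m3⟩, ⟨_, m4⟩, ⟨_, m5⟩,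
    ⟨hT, ?_, ?_, ?_, ?_, ?_, ?_, ?_⟩, ?_⟩ <;> simp only [Subring.subtype_apply]
  · rw [e, x3, x4, x5]
    ring
  · refine inv_eq_of_mul_eq_one_right ?_
    rw [e, x3, x4, x5]
    linear_combination hT
  · field_simp
  · rw [x1]
    field_simp
  · rw [x1, x2]
    field_simp
  · rw [x1, x2, x3]
    field_simp
  · rw [x1, x2, x3, x4]
    field_simp
  · rw [Bx, e, x3, x4, x5]
    field_simp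

/-- Term by term: each monomial in `h`, `1 / h`, `es x j` is a monomial in the `E j` of
`Dom.es_mem` times a monomial in the `b i`, `b'` of `Dom.cases`, and that monomial is a multiple
of `Bx x h = b' * b 0 * b 1 * b 2`.  First show that `q0 / x 0 + e₁ / (4 x 0)`,
`r0 / x 0 ^ 2 - e₂ / (4 x 0) ^ 2`, `e / x 0 ^ 3 + e₃ / (4 x 0) ^ 3` are multiples of `Bx x h`, and
that `c / h + 1 / 16` and the normalised `r1`, `q2` are known modulo `b'`; then multiply. -/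
theorem Dom.est (hP : Par a x h) (h2 : (2 : K)⁻¹ ∈ V) (hD : Dom V x h) : Est V a x h := by
  obtain ⟨b0, b1, b2, b3, b4, β, E1, E2, E3, E4, E5, D, hB⟩ := p2_data hP hD
  obtain ⟨u, hu⟩ : ∃ u : V, V.subtype u = 4⁻¹ :=
    ⟨⟨_, h2⟩ ^ 2, by rw [map_pow, Subring.subtype_apply]; norm_num⟩
  have n := hP.x_ne 0
  obtain ⟨W1, q0⟩ := D.q0 4⁻¹
  obtain ⟨W2, r0⟩ := D.r0 4⁻¹
  obtain ⟨W3, e⟩ := D.e 4⁻¹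
  obtain ⟨W4, c⟩ := D.c 4⁻¹
  obtain ⟨W5, r1⟩ := D.r1 4⁻¹
  obtain ⟨W6, q2⟩ := D.q2 4⁻¹
  rw [← hP.co] at q0 r0 e c r1 q2
  obtain ⟨hT, hh, hg, h1, h2, h3, h4, h5⟩ := D
  rw [hg] at r1 q2
  refine ⟨p2_dv (u * W1) ?_, p2_dv (u ^ 2 * W2) ?_, p2_dv (u ^ 3 * W3) ?_,
    p2_dv (-(u ^ 4 * b0 ^ 2 * b1 * (E4 * W4 - W5 + β * W4 * W5))) ?_,
    p2_dv (u ^ 5 * b0 ^ 3 * b1 ^ 2 * b2 * b3 * (E5 * W4 * (2 - β * W4) + W6 * (β * W4 - 1) ^ 2)) ?_,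
    p2_dv (-(u ^ 6 * b0 ^ 4 * b1 ^ 3 * b2 ^ 2 * b3 ^ 2 * b4 * W4 *
      (3 - 3 * β * W4 + β ^ 2 * W4 ^ 2))) ?_,
    p2_dv (u ^ 4 * b0 ^ 3 * b1 ^ 2 * b2 * (E4 + β * W5) ^ 2) ?_,
    p2_dv (u ^ 6 * b0 ^ 5 * b1 ^ 4 * b2 ^ 3 * b3 ^ 2 * (β * W6 - E5) ^ 2 * (β * W4 - 1) ^ 2) ?_,
    p2_dv (u ^ 8 * b0 ^ 7 * b1 ^ 6 * b2 ^ 5 * b3 ^ 4 * b4 ^ 2 * (β * W4 - 1) ^ 4) ?_,
    p2_dv (u * b0 * b1 * b2 * b3 * (β * W6 - E5)) ?_,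
    p2_dv (u ^ 2 * b0 ^ 2 * b1 ^ 2 * b2 ^ 2 * b3 ^ 2 * b4 * (β * W4 - 1)) ?_,
    p2_dv (β ^ 2 * b0 ^ 3 * b1 ^ 4 * b2 ^ 5 * b3 ^ 4 * b4 ^ 2) ?_⟩ <;>
    simp only [hB, map_add, map_sub, map_mul, map_pow, map_neg, map_ofNat, map_one, hu, q0, r0, e,
      c, r1, q2, h1, h2, h3, h4, h5] <;>
    generalize V.subtype = φ at * <;> generalize x 0 = X at * <;> subst hh
  · field_simp
    ring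
  · field_simp
    ring
  · field_simp
    ring
  · linear_combination (norm := (field_simp; ring)) -(4⁻¹ ^ 4 * (φ b0 ^ 3 * φ b1 ^ 2 * φ b2) *
      (φ E4 + φ β * φ W5) * (φ β * φ W4 - 1)) * hT
  · linear_combination (norm := (field_simp; ring)) 4⁻¹ ^ 5 *
      (X ^ 3 * (φ β ^ 3 * φ b0 ^ 4 * φ b1 ^ 5 * φ b2 ^ 6 * φ b3 ^ 4 * φ b4 ^ 2) + 1) *
      (φ b0 ^ 4 * φ b1 ^ 3 * φ b2 ^ 2 * φ b3) * (φ β * φ W6 - φ E5) * (φ β * φ W4 - 1) ^ 2 * hT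
  · linear_combination (norm := (field_simp; ring)) -(4⁻¹ ^ 6 * φ β * φ b0 ^ 5 * φ b1 ^ 4 *
      φ b2 ^ 3 * φ b3 ^ 2 * φ b4 * φ W4 * (3 - 3 * φ β * φ W4 + φ β ^ 2 * φ W4 ^ 2)) * hT
  · linear_combination (norm := (field_simp; ring)) 4⁻¹ ^ 4 * φ β * φ b0 ^ 4 * φ b1 ^ 3 *
      φ b2 ^ 2 * (φ E4 + φ β * φ W5) ^ 2 * hT
  · linear_combination (norm := (field_simp; ring)) 4⁻¹ ^ 6 * φ β * φ b0 ^ 6 * φ b1 ^ 5 *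
      φ b2 ^ 4 * φ b3 ^ 2 * (φ β * φ W6 - φ E5) ^ 2 * (φ β * φ W4 - 1) ^ 2 *
      ((X ^ 3 * (φ β ^ 3 * φ b0 ^ 4 * φ b1 ^ 5 * φ b2 ^ 6 * φ b3 ^ 4 * φ b4 ^ 2)) ^ 2 +
        X ^ 3 * (φ β ^ 3 * φ b0 ^ 4 * φ b1 ^ 5 * φ b2 ^ 6 * φ b3 ^ 4 * φ b4 ^ 2) + 1) * hT
  · linear_combination (norm := (field_simp; ring)) 4⁻¹ ^ 8 * φ β * φ b0 ^ 8 * φ b1 ^ 7 *
      φ b2 ^ 6 * φ b3 ^ 4 * φ b4 ^ 2 * (φ β * φ W4 - 1) ^ 4 * hT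
  · linear_combination (norm := (field_simp; ring)) 4⁻¹ * φ β * φ b0 ^ 2 * φ b1 ^ 2 * φ b2 ^ 2 *
      φ b3 * (φ β * φ W6 - φ E5) * hT
  · field_simp
    ring
  · linear_combination (norm := (field_simp; ring)) -(1 / X ^ 3) * hT

end Pool.Agent.Lib.MP_07b2d0_nt.G3
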