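import Pool.Agent.Lib.MP_07b2d0_nt.G3.P1
import Pool.Agent.Lib.MP_07b2d0_nt.G3.P2
import Pool.Agent.Lib.MP_07b2d0_nt.G3.E1
import Pool.Agent.Lib.MP_07b2d0_nt.G3.E2

/-!
The chart at the first point at infinity.
-/

set_option autoImplicit false

namespace Pool.Agent.Lib.MP_07b2d0_nt.G3

open Polynomial Fh

variable {Ω : Type} [Field Ω] [IsAlgClosed Ω] [CharZero Ω] {ν : AbsoluteValue Ω ℝ} {p : ℕ}
  {G : (Ω ≃+* Ω) → Prop} {a : Co Ω} {x : Fin 6 → Ω} {h : Ω}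

omit [IsAlgClosed Ω] [CharZero Ω] in
theorem i0_mem (hP : Par a x h) (K : Subfield Ω) (hx : ∀ i, x i ∈ K) (hh : h ∈ K) :
    a.q0 ∈ K ∧ a.c ∈ K ∧ a.q2 ∈ K ∧ a.r0 ∈ K ∧ a.r1 ∈ K ∧ a.e ∈ K := by
  obtain ⟨b, rfl⟩ : ∃ b : Co K, b.map K.subtype = a := by
    refine ⟨coR 4⁻¹ ⟨h, hh⟩ ⟨h, hh⟩⁻¹ (es (fun i => ⟨x i, hx i⟩) 1) (es (fun i => ⟨x i, hx i⟩) 2)
      (es (fun i => ⟨x i, hx i⟩) 3) (es (fun i => ⟨x i, hx i⟩) 4) (es (fun i => ⟨x i, hx i⟩) 5), ?_⟩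
    rw [coR_map, hP.co]
    simp only [map_es, map_inv₀, map_ofNat]
    rfl
  exact ⟨b.q0.2, b.c.2, b.q2.2, b.r0.2, b.r1.2, b.e.2⟩

/-- The coefficients of the error terms. -/
def i0_d (a : Co Ω) (x : Fin 6 → Ω) (h y : Ω) : Fin 12 → Ω :=
  ![a.q0 / x 0 + es x 1 / (4 * x 0), a.r0 / x 0 ^ 2 - es x 2 / (4 * x 0) ^ 2,
    a.e / x 0 ^ 3 + es x 3 / (4 * x 0) ^ 3, -(a.r1 * a.c) / x 0 ^ 4 - es x 4 / (4 * x 0) ^ 4,
    a.q2 * a.c ^ 2 / x 0 ^ 5 + es x 5 / (4 * x 0) ^ 5, -a.c ^ 3 / x 0 ^ 6 - h ^ 3 / (4 * x 0) ^ 6,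
    a.r1 / y ^ 5, -(2 * (a.q2 * a.c / y ^ 7)), 3 * (a.c ^ 2 / y ^ 9), a.q2 / x 0 ^ 2,
    -(3 * (a.c / x 0 ^ 3)), 1 / y ^ 3]

/-- With `y ^ 2 = x 0`, `w = W / x 0`, `z = U / y`, the equation `x 0 * G(z, w)` is congruent to
`U ^ 2 + W ∏ (1 - (x i / x 0) W / 4)` (`Dom.est`, `prod_one_sub`). -/
theorem chart_P (hna : IsNonarchimedean ν) (h2 : ν 2 = 1) (hP : Par a x h)
    (hD : ∀ i : Fin 5, ν (x i.succ) ≤ ν (x i.castSucc)) (hD' : ν h ≤ ν (x 3 * x 4 * x 5))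
    (hB : ν (Bx x h) < 1) {y : Ω} (hy : y ^ 2 = x 0) :
    ∃ d : Fin 12 → Ω, (∀ j, ν (d j) < 1) ∧
      (∀ K : Subfield Ω, (∀ i, x i ∈ K) → h ∈ K → y ∈ K → ∀ j, d j ∈ K) ∧
      ∀ (E : Type) [CommRing E] (φ : Ω →+* E) (U W : E),
        φ (x 0) * (a.map φ).G (φ y⁻¹ * U) (φ (x 0)⁻¹ * W) =
          U ^ 2 + W * ∏ i, (1 - φ (x i / (4 * x 0)) * W) +
            W ^ 2 * (φ (d 0) + φ (d 1) * W + φ (d 2) * W ^ 2 + φ (d 3) * W ^ 3 + φ (d 4) * W ^ 4 +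
              φ (d 5) * W ^ 5) + U * W ^ 3 * (φ (d 6) + φ (d 7) * W + φ (d 8) * W ^ 2) +
            U ^ 2 * W ^ 2 * (φ (d 9) + φ (d 10) * W) + φ (d 11) * W * U ^ 3 := by
  obtain ⟨V, hV, -, -⟩ := exists_inr hna
  have hE : Est V.toSubring a x h := Dom.est hP
    ((hV _).2 (by rw [map_inv₀, h2, inv_one])) ⟨fun i => (hV _).2 (by
      rw [map_div₀]
      exact div_le_one_of_le₀ (hD i) (ν.nonneg _)), (hV _).2 (by
      rw [map_div₀]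
      exact div_le_one_of_le₀ hD' (ν.nonneg _))⟩
  have h1 : ∀ {z : Ω}, Dv V.toSubring (Bx x h) z → ν z < 1 := fun ⟨w, hw, e⟩ => by
    rw [e, map_mul]
    exact mul_lt_one_of_nonneg_of_lt_one_left (ν.nonneg _) hB ((hV _).1 hw)
  have h3 : ∀ {z w : Ω}, Dv V.toSubring (Bx x h) w → z ^ 2 = w → ν z < 1 := fun hw e => by
    have := h1 hw
    rw [← e, map_pow] at this
    exact (pow_lt_one_iff_of_nonneg (ν.nonneg _) two_ne_zero).1 this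
  have h4 : ∀ (n : ℕ) {z : Ω}, ν z < 1 → ν (n * z) < 1 := fun n z hz => by
    rw [map_mul]
    exact mul_lt_one_of_nonneg_of_lt_one_right hna.apply_natCast_le_one (ν.nonneg _) hz
  refine ⟨i0_d a x h y, fun j => ?_, fun K hx hh hk j => ?_, fun E _ φ U W => ?_⟩
  · fin_cases j
    exacts [h1 hE.p1, h1 hE.p2, h1 hE.p3, h1 hE.p4, h1 hE.p5, h1 hE.p6,
      h3 (z := a.r1 / y ^ 5) hE.z1 (by rw [← hy]; ring),
      (ν.map_neg _).trans_lt (h4 2 (h3 hE.z2 (by rw [← hy]; ring))),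
      h4 3 (h3 hE.z3 (by rw [← hy]; ring)), h1 hE.z4, (ν.map_neg _).trans_lt (h4 3 (h1 hE.z5)),
      h3 (z := 1 / y ^ 3) hE.z6 (by rw [← hy]; ring)]
  · obtain ⟨m1, m2, m3, m4, m5, m6⟩ := i0_mem hP K hx hh
    have m7 : ∀ n, es x n ∈ K := fun n => sum_mem fun T _ => prod_mem fun i _ => hx i
    have m8 : ∀ n : ℕ, ∀ [n.AtLeastTwo], (OfNat.ofNat n : Ω) ∈ K := fun n _ => ofNat_mem K n
    fin_cases j <;> simp only [i0_d] <;>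
      apply_rules (maxDepth := 30) [add_mem, sub_mem, neg_mem, mul_mem, div_mem, pow_mem, one_mem]
  · have hi : (x 0)⁻¹ = y⁻¹ ^ 2 := by rw [← hy, inv_pow]
    have h5 : φ (x 0) * φ y⁻¹ ^ 2 = 1 := by
      rw [← map_pow, ← hi, ← map_mul, mul_inv_cancel₀ (hP.x_ne 0), map_one]
    have h6 : ∏ i, (1 - φ (x i / (4 * x 0)) * W) =
        ∏ i, (1 - φ 4⁻¹ * φ y⁻¹ ^ 2 * W * φ (x i)) := Finset.prod_congr rfl fun i _ => by
      rw [div_eq_mul_inv, mul_inv, hi, map_mul, map_mul, map_pow]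
      ring
    have h7 : es x 6 = h ^ 3 := (es_top x).trans hP.prod
    rw [h6, prod_one_sub, Fin.sum_univ_six]
    refine Eq.trans (congrArg _ ?_) (((mul_assoc _ _ _).symm.trans (congrArg (· * _) h5)).trans
      (one_mul _))
    simp [i0_d, ← map_es, h7, Co.G, Co.map, div_eq_mul_inv, ← inv_pow, hi, map_ofNat]
    ring

end Pool.Agent.Lib.MP_07b2d0_nt.G3
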