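import Pool.Agent.Lib.MP_07b2d0_nt.G3.I0

/-!
A loop in the special fibre.
-/

set_option autoImplicit false

namespace Pool.Agent.Lib.MP_07b2d0_nt.G3

open Polynomial Fh

variable {Ω : Type} [Field Ω] [IsAlgClosed Ω] [CharZero Ω] {ν : AbsoluteValue Ω ℝ} {p : ℕ}
  {G : (Ω ≃+* Ω) → Prop} {a : Co Ω} {x : Fin 6 → Ω} {h : Ω}

theorem i1_real {n : Fin 6 → ℝ} {H : ℝ} (hs : n 0 + n 1 + n 2 + n 3 + n 4 + n 5 = 3 * H)
    (d0 : n 1 ≤ n 0) (d1 : n 2 ≤ n 1) (d2 : n 3 ≤ n 2) (d3 : n 4 ≤ n 3) (d4 : n 5 ≤ n 4)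
    (d5 : H ≤ n 3 + n 4 + n 5) (hB : H < n 0 + n 4 + n 5) {i : Fin 6}
    (h1 : ∀ j, j < i → n j = n 0) (h3 : n i < n 0) :
    0 < H ∧ (∀ j, n j ≤ n 0) ∧ 0 < n 0 + 2 * n i ∧ (∀ j, j ≠ i → H < n j + n i + n 0) ∧
      H < 2 * n 0 + n i ∧ n 1 + n 2 < H + n 0 + n i ∧ 0 < n 0 + n i + n 5 := by
  have hH : 0 < H := by linarith
  have hle : ∀ j, n j ≤ n 0 := fun j => by
    fin_cases j <;> simp only [Fin.zero_eta, Fin.mk_one, Fin.reduceFinMk] <;> linarith
  have hge : ∀ j, n 5 ≤ n j := fun j => by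
    fin_cases j <;> simp only [Fin.zero_eta, Fin.mk_one, Fin.reduceFinMk] <;> linarith
  have hge' : ∀ j, j ≠ 5 → n 4 ≤ n j := fun j hj => by
    fin_cases j <;> simp only [Fin.zero_eta, Fin.mk_one, Fin.reduceFinMk] at hj ⊢ <;>
      first | linarith | exact absurd rfl hj
  have hp : ∀ j, j ≠ i → H < n j + n i + n 0 := fun j hj => by
    by_cases h5 : j = 5
    · subst h5
      linarith [hge' i hj.symm]
    · by_cases h6 : i = 5
      · subst h6
        linarith [hge' j h5]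
      · linarith [hge' i h6, hge j]
  refine ⟨hH, hle, ?_, hp, by linarith [hge i], ?_, ?_⟩
  · by_cases h5 : i = 5
    · subst h5
      linarith [h1 1 (by decide), h1 2 (by decide), h1 3 (by decide), h1 4 (by decide)]
    · linarith [hge' i h5]
  · fin_cases i <;> simp only [Fin.zero_eta, Fin.mk_one, Fin.reduceFinMk] at h1 h3 ⊢
    · linarith
    · linarith
    · linarith
    · linarith [h1 1 (by decide), h1 2 (by decide)]
    · linarith [h1 1 (by decide), h1 2 (by decide), h1 3 (by decide)]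
    · linarith [h1 1 (by decide), h1 2 (by decide), h1 3 (by decide), h1 4 (by decide)]
  · by_cases h5 : i = 5
    · subst h5
      linarith [h1 1 (by decide), h1 2 (by decide), h1 3 (by decide), h1 4 (by decide)]
    · linarith [hge' i h5]

theorem i1_sum {F ι : Type} [Field F] {μ : AbsoluteValue F ℝ} (hna : IsNonarchimedean μ)
    (s : Finset ι) (f : ι → F) (hf : ∀ j ∈ s, μ (f j) < 1) : μ (∑ j ∈ s, f j) < 1 :=
  Finset.sum_induction f (fun z => μ z < 1) (fun _ _ => na_add_lt hna) (by simp) hf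

theorem i1_mul {F : Type} [Field F] {μ : AbsoluteValue F ℝ} {u z : F} (hu : μ u ≤ 1)
    (hz : μ z < 1) : μ (u * z) < 1 := by
  rw [map_mul]
  exact mul_lt_one_of_nonneg_of_lt_one_right hu (μ.nonneg z) hz

theorem i1_al {F : Type} [Field F] [CharZero F] {a : Co F} {x : Fin 6 → F} {h : F}
    (hP : Par a x h) (i : Fin 6) : al x h (x i) / (x i * x 0) =
      4⁻¹ * (-(x i / x 0) - ∑ j ∈ Finset.univ.erase i, x j / (h * x 0) -
        ∑ j ∈ Finset.univ.erase i, h / (x j * x i * x 0) - 1 / (x i * x i * x 0)) := by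
  have e1 : es x 1 = x i + ∑ j ∈ Finset.univ.erase i, x j := by
    rw [Finset.add_sum_erase _ _ (Finset.mem_univ i), (es_six x).1, Fin.sum_univ_six]
    ring
  have e5 : es x 5 = h ^ 3 * ((x i)⁻¹ + ∑ j ∈ Finset.univ.erase i, (x j)⁻¹) := by
    rw [Finset.add_sum_erase _ (fun j => (x j)⁻¹) (Finset.mem_univ i), (es_six x).2.2.2.2,
      Fin.sum_univ_six, ← hP.prod, Fin.prod_univ_six]
    have := hP.x_ne 0
    have := hP.x_ne 1
    have := hP.x_ne 2
    have := hP.x_ne 3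
    have := hP.x_ne 4
    have := hP.x_ne 5
    field_simp
    ring
  have a1 : ∑ j ∈ Finset.univ.erase i, h / (x j * x i * x 0) =
      h / (x i * x 0) * ∑ j ∈ Finset.univ.erase i, (x j)⁻¹ := by
    rw [Finset.mul_sum]
    exact Finset.sum_congr rfl fun j _ => by ring
  rw [a1, ← Finset.sum_div, al, e1, e5]
  have := hP.x_ne 0
  have := hP.x_ne i
  have := hP.ne
  field_simp
  ring

theorem i1_c {F : Type} [Field F] [CharZero F] {a : Co F} {x : Fin 6 → F} {h : F}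
    (hP : Par a x h) (i : Fin 6) : a.c / (x 0 ^ 2 * x i) =
      4⁻¹ * (4⁻¹ * ((2 + 2 + 2) * (1 / (x 0 * x 0 * x i)) - h / (x 0 * x 0 * x i) -
        1 / (h * x 0 * x 0 * x i) -
        es x 3 / (x 0 * x 1 * x 2) * (x 1 * x 2 / (h * x 0 * x i)) -
        es x 3 / (x 0 * x 1 * x 2) * (x 1 * x 2 / (h * h * x 0 * x i)) -
        es x 1 / x 0 * (es x 5 / (x 0 * x 1 * x 2 * x 3 * x 4) *
          (x 1 * x 2 * x 3 * x 4 / (h * h * h * x i))))) := by
  rw [hP.co]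
  simp only [coR]
  have := hP.x_ne 0
  have := hP.x_ne 1
  have := hP.x_ne 2
  have := hP.x_ne 3
  have := hP.x_ne 4
  have := hP.x_ne i
  have := hP.ne
  field_simp
  ring

/-- Here `i` is odd as an index starting from one, so `i = 1, 3, 5` parameters have maximal size.
Use `4 al = - x i ^ 2 - x i (e₁ - x i) / h - h ∑ (j ≠ i) 1 / x j - 1 / x i`; pass to logarithms of
the `ν (x j)`, `ν h` and use `linarith`. -/
theorem line_small (hna : IsNonarchimedean ν) (h2 : ν 2 = 1) (hP : Par a x h)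
    (hD : ∀ i : Fin 5, ν (x i.succ) ≤ ν (x i.castSucc)) (hD' : ν h ≤ ν (x 3 * x 4 * x 5))
    (hB : ν (Bx x h) < 1) {i : Fin 6} (h1 : ∀ j, j < i → ν (x j) = ν (x 0))
    (h3 : ν (x i) < ν (x 0)) : ν (al x h (x i) / (x i * x 0)) < 1 ∧
      ν (a.c / (x 0 ^ 2 * x i)) < 1 ∧ ν (1 / (x i ^ 2 * x 0)) < 1 := by
  obtain ⟨V, hV, -⟩ := exists_inr hna
  have hx0 : ∀ j, 0 < ν (x j) := fun j => ν.pos (hP.x_ne j)
  have hDom : Dom V.toSubring x h := by
    refine ⟨fun j => (hV _).2 ?_, (hV _).2 ?_⟩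
    · rw [map_div₀]
      exact div_le_one_of_le₀ (hD j) (ν.nonneg _)
    · rw [map_div₀]
      exact div_le_one_of_le₀ hD' (ν.nonneg _)
  obtain ⟨E1, -, E3, -, E5⟩ := hDom.es_mem hP
  replace E1 := (hV _).1 E1
  replace E3 := (hV _).1 E3
  replace E5 := (hV _).1 E5
  obtain ⟨n, hx⟩ : ∃ n : Fin 6 → ℝ, ∀ j, ν (x j) = Real.exp (n j) :=
    ⟨fun j => Real.log (ν (x j)), fun j => (Real.exp_log (hx0 j)).symm⟩
  obtain ⟨H, hh⟩ : ∃ H : ℝ, ν h = Real.exp H := ⟨_, (Real.exp_log (ν.pos hP.ne)).symm⟩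
  have hs : n 0 + n 1 + n 2 + n 3 + n 4 + n 5 = 3 * H := by
    have := congrArg ν hP.prod
    rw [Fin.prod_univ_six, pow_three] at this
    simp only [map_mul, hx, hh, ← Real.exp_add, Real.exp_eq_exp] at this
    linarith
  have hd : ∀ j : Fin 5, n j.succ ≤ n j.castSucc := fun j => by
    simpa only [hx, Real.exp_le_exp] using hD j
  simp only [map_mul, hx, hh, ← Real.exp_add, Real.exp_le_exp] at hD'
  simp only [Bx, map_div₀, map_mul, hx, hh, ← Real.exp_add, ← Real.exp_sub,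
    Real.exp_lt_one_iff, sub_neg] at hB
  simp only [hx, Real.exp_eq_exp, Real.exp_lt_exp] at h1 h3
  obtain ⟨k0, k1, k2, k3, k4, k5, k6⟩ :=
    i1_real hs (hd 0) (hd 1) (hd 2) (hd 3) (hd 4) hD' hB h1 h3
  have h4 : ν 4⁻¹ ≤ 1 := by
    rw [show (4 : Ω) = 2 * 2 by norm_num, map_inv₀, map_mul, h2]
    norm_num
  have h6 : ν (2 + 2 + 2) ≤ 1 := na_add_le hna (na_add_le hna h2.le h2.le) h2.le
  have key : ∀ {u w : Ω} {r t : ℝ}, ν u = Real.exp r → ν w = Real.exp t → r < t →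
      ν (u / w) < 1 := fun e1 e2 e3 => by
    rw [map_div₀, e1, e2, ← Real.exp_sub, Real.exp_lt_one_iff]
    linarith
  have one : ν 1 = Real.exp 0 := by simp
  have mu : ∀ {u w : Ω} {r t : ℝ}, ν u = Real.exp r → ν w = Real.exp t →
      ν (u * w) = Real.exp (r + t) := fun e1 e2 => by rw [map_mul, e1, e2, Real.exp_add]
  have g3 : ν (1 / (x i * x i * x 0)) < 1 :=
    key one (mu (mu (hx i) (hx i)) (hx 0)) (by linarith)
  refine ⟨?_, ?_, by rwa [pow_two]⟩
  · rw [i1_al hP]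
    refine i1_mul h4 (na_sub_lt hna (na_sub_lt hna (na_sub_lt hna ?_ (i1_sum hna _ _ fun j _ => ?_))
      (i1_sum hna _ _ fun j hj => ?_)) g3)
    · rw [ν.map_neg]
      exact key (hx i) (hx 0) h3
    · exact key (hx j) (mu hh (hx 0)) (by linarith [k1 j])
    · exact key hh (mu (mu (hx j) (hx i)) (hx 0)) (k3 j (Finset.ne_of_mem_erase hj))
  · rw [i1_c hP]
    refine i1_mul h4 (i1_mul h4 (na_sub_lt hna (na_sub_lt hna (na_sub_lt hna (na_sub_lt hna
      (na_sub_lt hna (i1_mul h6 ?_) ?_) ?_) (i1_mul E3 ?_)) (i1_mul E3 ?_))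
      (i1_mul E1 (i1_mul E5 ?_))))
    · exact key one (mu (mu (hx 0) (hx 0)) (hx i)) (by linarith)
    · exact key hh (mu (mu (hx 0) (hx 0)) (hx i)) (by linarith)
    · exact key one (mu (mu (mu hh (hx 0)) (hx 0)) (hx i)) (by linarith)
    · exact key (mu (hx 1) (hx 2)) (mu (mu hh (hx 0)) (hx i)) k5
    · exact key (mu (hx 1) (hx 2)) (mu (mu (mu hh hh) (hx 0)) (hx i)) (by linarith)
    · exact key (mu (mu (mu (hx 1) (hx 2)) (hx 3)) (hx 4)) (mu (mu (mu hh hh) hh) (hx i))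
        (by linarith)

end Pool.Agent.Lib.MP_07b2d0_nt.G3
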