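import Pool.Agent.Lib.MP_07b2d0_nt.G3.I1

/-!
A loop in the special fibre.
-/

set_option autoImplicit false

namespace Pool.Agent.Lib.MP_07b2d0_nt.G3

open Polynomial Fh

variable {Ω : Type} [Field Ω] [IsAlgClosed Ω] [CharZero Ω] {ν : AbsoluteValue Ω ℝ} {p : ℕ}
  {G : (Ω ≃+* Ω) → Prop} {a : Co Ω} {x : Fin 6 → Ω} {h : Ω}

omit [CharZero Ω] in
/-- A fixed root near a square root of `- c₀`. -/
theorem i1b_root (hL : Loc ν p G) {σ : Ω ≃+* Ω} (hσ : G σ) {c₀ c₁ c₂ c₃ : Ω} (f₀ : σ c₀ = c₀)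
    (f₁ : σ c₁ = c₁) (f₂ : σ c₂ = c₂) (f₃ : σ c₃ = c₃) (h₀ : ν c₀ = 1) (h₁ : ν c₁ < 1)
    (h₂ : ν c₂ < 1) (h₃ : ν c₃ < 1) :
    ∃ T, σ T = T ∧ c₀ + c₁ * T + (1 + c₂) * T ^ 2 + c₃ * T ^ 3 = 0 ∧ ν T ≤ 1 := by
  have hna := hL.na
  obtain ⟨T₀, hT⟩ := IsAlgClosed.exists_pow_nat_eq (-c₀) two_pos
  have n0 : ν T₀ = 1 := by
    have e := congrArg ν hT
    rwa [map_pow, ν.map_neg, h₀, pow_eq_one_iff_of_nonneg (ν.nonneg _) two_ne_zero] at e
  have f : σ T₀ = T₀ := hL.sqrt_fix hσ n0 (by rw [hT, map_neg, f₀])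
  have m : ∀ {u : Ω} (k : ℕ), ν u < 1 → ν (u * T₀ ^ k) < 1 := fun k hu => by
    rwa [map_mul, map_pow, n0, one_pow, mul_one]
  have m' : ∀ {u : Ω} (k : ℕ), ν u < 1 → ν (k * u) < 1 := fun k hu => by
    rw [map_mul]
    exact (mul_le_of_le_one_left (ν.nonneg _) hna.apply_natCast_le_one).trans_lt hu
  have n2 : ν (2 * T₀) = 1 := by rw [map_mul, hL.two, n0, one_mul]
  have e1 : ν (c₁ + 2 * (1 + c₂) * T₀ + 3 * c₃ * T₀ ^ 2 + 4 * 0 * T₀ ^ 3) = 1 := by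
    have e : c₁ + 2 * (1 + c₂) * T₀ + 3 * c₃ * T₀ ^ 2 + 4 * 0 * T₀ ^ 3 =
        2 * T₀ + (c₁ + ((2 : ℕ) * c₂) * T₀ ^ 1 + ((3 : ℕ) * c₃) * T₀ ^ 2) := by
      push_cast
      ring
    rw [e, na_add_eq hna, n2]
    rw [n2]
    exact na_add_lt hna (na_add_lt hna h₁ (m 1 (m' 2 h₂))) (m 2 (m' 3 h₃))
  have e2 : ν (c₀ + c₁ * T₀ + (1 + c₂) * T₀ ^ 2 + c₃ * T₀ ^ 3 + 0 * T₀ ^ 4) < 1 := by
    have e : c₀ + c₁ * T₀ + (1 + c₂) * T₀ ^ 2 + c₃ * T₀ ^ 3 + 0 * T₀ ^ 4 =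
        c₁ * T₀ ^ 1 + c₂ * T₀ ^ 2 + c₃ * T₀ ^ 3 := by linear_combination hT
    rw [e]
    exact na_add_lt hna (na_add_lt hna (m 1 h₁) (m 2 h₂)) (m 3 h₃)
  obtain ⟨T, g1, g2, g3⟩ := newton hna (hL.iso σ hσ) (c₂ := 1 + c₂) (c₄ := 0) f₀ f₁
    (by rw [map_add, map_one, f₂]) f₃ (map_zero σ) f h₁.le
    (na_add_le hna (by rw [map_one]) h₂.le) h₃.le (by rw [map_zero]; exact zero_le_one) n0.le
    (by rwa [e1, one_pow])
  refine ⟨T, g1, by linear_combination g2, ?_⟩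
  rw [e1, mul_one] at g3
  have := na_add_le hna (g3.trans_lt e2).le n0.le
  rwa [sub_add_cancel] at this

omit [IsAlgClosed Ω] [CharZero Ω] in
/-- The size of the main term. -/
theorem i1b_prod (hna : IsNonarchimedean ν) {u : Fin 6 → Ω} {W : Ω} (hW : 1 < ν W) (i : Fin 6)
    (h1 : ∀ j, j < i → ν (u j) = 1) (h2 : ∀ j, i ≤ j → ν (u j * W) < 1) :
    ν (∏ j, (1 - u j * W)) = ν W ^ (i : ℕ) := by
  have e : ∀ j, ν (1 - u j * W) = if j < i then ν W else 1 := fun j => by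
    split_ifs with hj
    · have e' : ν (-(u j * W)) = ν W := by rw [ν.map_neg, map_mul, h1 j hj, one_mul]
      rw [sub_eq_neg_add, na_add_eq hna (by rwa [e', map_one]), e']
    · rw [sub_eq_add_neg, na_add_eq hna (by rw [ν.map_neg, map_one]; exact h2 j (not_lt.1 hj)),
        map_one]
  rw [map_prod, Finset.prod_congr rfl fun j _ => e j, ← Finset.prod_filter, Finset.prod_const]
  congr 1
  rw [← Fin.card_Iio]
  congr 1
  ext j
  simp

omit [IsAlgClosed Ω] [CharZero Ω] in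
theorem i1b_es {K : Subfield Ω} (hx : ∀ i, x i ∈ K) (n : ℕ) : es x n ∈ K :=
  K.sum_mem fun _ _ => K.prod_mem fun i _ => hx i

omit [IsAlgClosed Ω] [CharZero Ω] in
theorem i1b_c (hP : Par a x h) {K : Subfield Ω} (hx : ∀ i, x i ∈ K) (hh : h ∈ K) : a.c ∈ K := by
  have e := i1b_es hx
  have g := K.inv_mem hh
  rw [hP.co]
  exact mul_mem (pow_mem (inv_mem (ofNat_mem K 4)) 2) (sub_mem (sub_mem (sub_mem (sub_mem
    (sub_mem (ofNat_mem K 6) hh) g) (mul_mem (e 3) g)) (mul_mem (e 3) (pow_mem g 2)))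
    (mul_mem (mul_mem (e 1) (e 5)) (pow_mem g 3)))

omit [IsAlgClosed Ω] [CharZero Ω] in
theorem i1b_al {K : Subfield Ω} (hx : ∀ i, x i ∈ K) (hh : h ∈ K) (i : Fin 6) :
    al x h (x i) ∈ K := by
  have e := i1b_es hx
  exact div_mem (add_mem (sub_mem (sub_mem (mul_mem (neg_mem (pow_mem (hx i) 2))
    (sub_mem (one_mem K) (inv_mem hh))) (div_mem (mul_mem (hx i) (e 1)) hh))
    (div_mem (e 5) (pow_mem hh 2))) (div_mem (sub_mem hh (one_mem K)) (hx i))) (ofNat_mem K 4)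

/-- Take `σ`, `η` from `Loc.rich` for a set `T` containing the `x j`, `h`, square roots `y`, `y'` of
`x 0`, `x i`; let `ε = η ^ 2`, `i = 2 m - 1`, `W = 1 / ε`, `U = U' / ε ^ m`.  Multiply the equation of
`chart_P` by `ε ^ (2 m)`; `newton` at a square root `T₀` of
`- ∏ (j < i) (ε - x j / (4 x 0))` (fixed by `Loc.sqrt_fix`) gives a fixed `U'`.  Then `s = x 0 ε`,
`t = s (z - c w ^ 2)`, and `Loc.odd` applies with `β = y y' η`. -/
theorem i_odd (hL : Loc ν p G) (hU : ∀ σ, G σ → UPt a σ) (hP : Par a x h)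
    (hD : ∀ i : Fin 5, ν (x i.succ) ≤ ν (x i.castSucc)) (hD' : ν h ≤ ν (x 3 * x 4 * x 5))
    (hB : ν (Bx x h) < 1) {i : Fin 6} (hi : Odd (i : ℕ)) (h1 : ∀ j, j < i → ν (x j) = ν (x 0))
    (h3 : ν (x i) < ν (x 0)) : False := by
  classical
  have hna := hL.na
  obtain ⟨y, hy⟩ := IsAlgClosed.exists_pow_nat_eq (x 0) two_pos
  obtain ⟨y', hy'⟩ := IsAlgClosed.exists_pow_nat_eq (x i) two_pos
  obtain ⟨d, hd, hdK, hG⟩ := chart_P hna hL.two hP hD hD' hB hy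
  obtain ⟨l1, l2, l3⟩ := line_small hna hL.two hP hD hD' hB h1 h3
  obtain ⟨σ, η, hσ, hT, hη, hη0, hη1, hM⟩ :=
    hL.rich (insert h (insert y (insert y' (Finset.univ.image x)))) 40
  set K := Subfield.closure ((insert h (insert y (insert y' (Finset.univ.image x))) :
    Finset Ω) : Set Ω)
  have fix : ∀ z ∈ K, σ z = z := fun z hz =>
    RingHom.eqOn_field_closure (f := (σ : Ω →+* Ω)) (g := RingHom.id Ω) (fun z hz => hT z hz) hz
  have xK : ∀ j, x j ∈ K := fun j => Subfield.subset_closure (by simp)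
  have hK : h ∈ K := Subfield.subset_closure (by simp)
  have yK : y ∈ K := Subfield.subset_closure (by simp)
  have yK' : y' ∈ K := Subfield.subset_closure (by simp)
  have dK := hdK K xK hK yK
  have x0 := hP.x_ne 0
  have xi := hP.x_ne i
  have y0 : y ≠ 0 := fun e => x0 (by rw [← hy, e]; ring)
  have ηp : 0 < ν η := ν.pos hη0
  have xp : 0 < ν (x 0) := ν.pos x0
  obtain ⟨W, hW⟩ : ∃ W, W = (η ^ 2)⁻¹ := ⟨_, rfl⟩
  have W1 : η ^ 2 * W = 1 := by rw [hW, mul_inv_cancel₀ (pow_ne_zero 2 hη0)]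
  have fW : σ W = W := by rw [hW, map_inv₀, map_pow, hη, neg_sq]
  have nW : ν η ^ 2 * ν W = 1 := by rw [← map_pow, ← map_mul, W1, map_one]
  have small : ∀ z ∈ K, ν z < 1 → ∀ k : ℕ, k ≤ 10 → ν (z * W ^ k) < 1 := fun z hz h k hk => by
    have e : ν η ^ 40 * ν W ^ k = ν η ^ (40 - 2 * k) := by
      conv_lhs => rw [show 40 = (40 - 2 * k) + 2 * k by omega, pow_add, pow_mul, mul_assoc,
        ← mul_pow, nW, one_pow, mul_one]
    rw [map_mul, map_pow]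
    refine (mul_le_mul_of_nonneg_right (hM z hz h) (by positivity)).trans_lt ?_
    rw [e]
    exact pow_lt_one₀ ηp.le hη1 (by omega)
  have hW1 : 1 < ν W := by
    have e : ν η ^ 2 < 1 := pow_lt_one₀ ηp.le hη1 two_ne_zero
    nlinarith [ν.nonneg W]
  have n4 : ν 4 = 1 := by
    rw [show (4 : Ω) = 2 * 2 by norm_num, map_mul, hL.two, one_mul]
  have anti : Antitone fun j => ν (x j) := Fin.antitone_iff_succ_le.2 hD
  have nu : ∀ j, ν (x j / (4 * x 0)) = ν (x j) / ν (x 0) := fun j => by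
    rw [map_div₀, map_mul, n4, one_mul]
  have hpr := i1b_prod hna (u := fun j => x j / (4 * x 0)) hW1 i
    (fun j hj => by rw [nu, h1 j hj, div_self xp.ne'])
    (fun j hj => by
      have := small _ (div_mem (xK j) (mul_mem (ofNat_mem K 4) (xK 0)))
        (by rw [nu, div_lt_one xp]; exact (anti hj).trans_lt h3) 1 (by norm_num)
      rwa [pow_one] at this)
  obtain ⟨m, hm⟩ := hi
  have hm2 : m ≤ 2 := by omega
  set A := ∏ j, (1 - x j / (4 * x 0) * W) with hA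
  have fA : σ A = A := by
    simp only [hA, map_prod, map_sub, map_mul, map_one, map_div₀, map_ofNat, fix _ (xK _), fW]
  obtain ⟨e, he⟩ : ∃ e, e = (η ^ 2) ^ (m + 1) := ⟨_, rfl⟩
  have fe : σ e = e := by rw [he, map_pow, map_pow, hη, neg_sq]
  have e1 : W ^ (m + 1) * e = 1 := by rw [he, ← mul_pow, mul_comm, W1, one_pow]
  have ne : ν e ≤ 1 := by
    rw [he, map_pow, map_pow]
    exact pow_le_one₀ (by positivity) (pow_le_one₀ ηp.le hη1.le)
  have ml : ∀ {u v : Ω}, ν u < 1 → ν v ≤ 1 → ν (u * v) < 1 := fun hu hv => by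
    rw [map_mul]
    exact (mul_le_of_le_one_right (ν.nonneg _) hv).trans_lt hu
  have sd : ∀ j, ∀ k : ℕ, k ≤ 10 → ν (d j * W ^ k) < 1 := fun j => small _ (dK j) (hd j)
  have nA : ν (W * A * e ^ 2) = 1 := by
    rw [map_mul, map_mul, hpr, hm, ← map_pow, ← map_mul, ← map_mul, ← map_one ν]
    congr 1
    linear_combination (W ^ (m + 1) * e + 1) * e1
  obtain ⟨T, fT, eT, nT⟩ := i1b_root hL hσ
    (c₀ := W * A * e ^ 2 + (d 0 * W ^ 2 + d 1 * W ^ 3 + d 2 * W ^ 4 + d 3 * W ^ 5 + d 4 * W ^ 6 +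
      d 5 * W ^ 7) * e ^ 2)
    (c₁ := (d 6 * W ^ 3 + d 7 * W ^ 4 + d 8 * W ^ 5) * e) (c₂ := d 9 * W ^ 2 + d 10 * W ^ 3)
    (c₃ := d 11 * W ^ (m + 2))
    (by simp only [map_add, map_mul, map_pow, fW, fA, fe, fix _ (dK _)])
    (by simp only [map_add, map_mul, map_pow, fW, fe, fix _ (dK _)])
    (by simp only [map_add, map_mul, map_pow, fW, fix _ (dK _)])
    (by simp only [map_mul, map_pow, fW, fix _ (dK _)])
    (by
      rw [na_add_eq hna, nA]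
      rw [nA]
      refine ml (na_add_lt hna (na_add_lt hna (na_add_lt hna (na_add_lt hna (na_add_lt hna
        (sd 0 2 ?_) (sd 1 3 ?_)) (sd 2 4 ?_)) (sd 3 5 ?_)) (sd 4 6 ?_)) (sd 5 7 ?_))
        (by rw [map_pow]; exact pow_le_one₀ (ν.nonneg _) ne) <;> norm_num)
    (ml (na_add_lt hna (na_add_lt hna (sd 6 3 (by norm_num)) (sd 7 4 (by norm_num)))
      (sd 8 5 (by norm_num))) ne)
    (na_add_lt hna (sd 9 2 (by norm_num)) (sd 10 3 (by norm_num))) (sd 11 _ (by omega))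
  have g := hG Ω (RingHom.id Ω) (W ^ (m + 1) * T) W
  simp only [RingHom.id_apply, Co.map_id] at g
  rw [← hA] at g
  have g0 : a.G (y⁻¹ * (W ^ (m + 1) * T)) ((x 0)⁻¹ * W) = 0 := by
    refine mul_left_cancel₀ x0 ?_
    rw [g]
    linear_combination (W ^ (m + 1)) ^ 2 * eT - ((W * A + W ^ 2 * (d 0 + d 1 * W + d 2 * W ^ 2 +
      d 3 * W ^ 3 + d 4 * W ^ 4 + d 5 * W ^ 5)) * (W ^ (m + 1) * e + 1) +
      W ^ (m + 1) * T * W ^ 3 * (d 6 + d 7 * W + d 8 * W ^ 2)) * e1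
  have sw : x 0 * η ^ 2 * ((x 0)⁻¹ * W) = 1 := by
    rw [mul_mul_mul_comm, mul_inv_cancel₀ x0, W1, one_mul]
  have cK := i1b_c hP xK hK
  have hF : a.F (x 0 * η ^ 2) (y * W ^ m * T - a.c * ((x 0)⁻¹ * W)) = 0 := by
    have e := a.F_eq_G (t := y * W ^ m * T - a.c * ((x 0)⁻¹ * W)) sw
    have e' : (y * W ^ m * T - a.c * ((x 0)⁻¹ * W)) * ((x 0)⁻¹ * W) + a.c * ((x 0)⁻¹ * W) ^ 2 =
        y⁻¹ * (W ^ (m + 1) * T) := by
      rw [← hy]
      field_simp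
      ring
    rw [e', g0] at e
    exact (mul_eq_zero.1 e).resolve_right (pow_ne_zero _ (right_ne_zero_of_mul_eq_one sw))
  refine hL.odd hσ (hU σ hσ) hP (fun j => fix _ (xK j)) (fix _ hK) i hF (β := y * y' * η)
    (by rw [map_mul, map_pow, hη, neg_sq, fix _ (xK 0)])
    (by simp only [map_sub, map_mul, map_pow, map_inv₀, fW, fT, fix _ yK, fix _ cK, fix _ (xK 0)])
    (by rw [map_mul, map_mul, hη, fix _ yK, fix _ yK', mul_neg]) ?_
  have b2 : (y * y' * η) ^ 2 = x 0 * x i * η ^ 2 := by rw [mul_pow, mul_pow, hy, hy']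
  have l4 : ν (1 / (y * x i)) < 1 := by
    have e : 1 / (x i ^ 2 * x 0) = (1 / (y * x i)) ^ 2 := by
      rw [← hy]
      field_simp
    rw [e, map_pow] at l3
    exact lt_of_pow_lt_pow_left₀ 2 zero_le_one (by rwa [one_pow])
  have key : ln x h i (x 0 * η ^ 2) (y * W ^ m * T - a.c * ((x 0)⁻¹ * W)) - (y * y' * η) ^ 2 =
      (1 / (y * x i) * W ^ (m + 1) * T - a.c / (x 0 ^ 2 * x i) * W ^ 2 +
        al x h (x i) / (x i * x 0) * W ^ 1) * (y * y' * η) ^ 2 := by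
    rw [b2]
    simp only [ln, Algebra.algebraMap_self, RingHom.id_apply]
    rw [pow_succ W m]
    generalize al x h (x i) = α
    generalize W ^ m = V
    rw [hW, ← hy]
    field_simp
    ring
  rw [key, map_mul, map_pow]
  refine mul_lt_of_lt_one_left (pow_pos (ν.pos ?_) 2) (na_add_lt hna (na_sub_lt hna
    (ml (small _ ?_ l4 _ (by omega)) nT) (small _ ?_ l2 2 (by norm_num)))
    (small _ ?_ l1 1 (by norm_num)))
  · intro e
    rw [e] at b2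
    exact mul_ne_zero (mul_ne_zero x0 xi) (pow_ne_zero 2 hη0) (by rw [← b2]; ring)
  · exact div_mem (one_mem K) (mul_mem yK (xK i))
  · exact div_mem cK (mul_mem (pow_mem (xK 0) 2) (xK i))
  · exact div_mem (i1b_al xK hK i) (mul_mem (xK i) (xK 0))

end Pool.Agent.Lib.MP_07b2d0_nt.G3
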