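import Pool.Agent.Lib.MP_07b2d0_nt.G3.Ser
import Pool.Agent.Lib.MP_07b2d0_nt.G3.EC

/-!
A unit of a curve that reduces to `U ^ 2 + W Ψ(W) = 0`, with `Ψ` of even positive degree, has even
order at the origin.
-/

set_option autoImplicit false
set_option linter.unusedSectionVars false

namespace Pool.Agent.Lib.MP_07b2d0_nt.G3

open Pool.Agent.Lib.MP_6adaea_nt W PowerSeries
open scoped Polynomial

section parity

variable {κ : Type} [CommRing κ] [IsDomain κ] {ω : κ⟦X⟧}

theorem order_aeval (hω : ω.order = 2) {a : κ[X]} (ha : a ≠ 0) :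
    ∃ t : ℕ, (Polynomial.aeval ω a).order = (2 * t : ℕ) := by
  obtain ⟨b, hb, h0⟩ := Polynomial.exists_eq_pow_rootMultiplicity_mul_and_not_dvd a ha 0
  rw [map_zero, sub_zero] at hb h0
  have h1 : constantCoeff ω = 0 := one_le_order_iff_constCoeff_eq_zero.1 (by rw [hω]; norm_num)
  have h2 : (Polynomial.aeval ω b).order = 0 := by
    by_contra h
    rw [← ne_eq, order_ne_zero_iff_constCoeff_eq_zero, ← Polynomial.X_mul_divX_add b] at h
    simp only [map_add, map_mul, Polynomial.aeval_X, Polynomial.aeval_C, h1, zero_mul,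
      zero_add] at h
    exact h0 (Polynomial.X_dvd_iff.2 (by simpa using h))
  refine ⟨a.rootMultiplicity 0, ?_⟩
  conv_lhs => rw [hb]
  rw [map_mul, map_pow, Polynomial.aeval_X, order_mul, order_pow, hω, h2, add_zero, nsmul_eq_mul]
  push_cast
  ring

theorem parity (hω : ω.order = 2) {a b : κ[X]}
    (h : Polynomial.aeval ω a + Polynomial.aeval ω b * X = 0) : a = 0 ∧ b = 0 := by
  have h1 := congrArg order (eq_neg_of_add_eq_zero_left h)
  rw [order_neg, order_mul, order_X] at h1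
  by_cases ha : a = 0 <;> by_cases hb : b = 0
  · exact ⟨ha, hb⟩
  · obtain ⟨t, ht⟩ := order_aeval hω hb
    rw [ha, map_zero, order_zero, ht] at h1
    exact absurd h1.symm (by exact_mod_cast ENat.natCast_ne_top (2 * t + 1))
  · obtain ⟨t, ht⟩ := order_aeval hω ha
    rw [hb, map_zero, order_zero, ht, top_add] at h1
    exact absurd h1 (ENat.natCast_ne_top _)
  · obtain ⟨t, ht⟩ := order_aeval hω ha
    obtain ⟨t', ht'⟩ := order_aeval hω hb
    rw [ht, ht'] at h1
    have : 2 * t = 2 * t' + 1 := by exact_mod_cast h1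
    omega

open Polynomial in
theorem norm_mono {Ψ a b n' : κ[X]} {c : κ} {k N : ℕ} (hk : Ψ.natDegree = k) (he : Even k)
    (h0 : 0 < k) (h1 : Ψ.coeff 0 = 1) (hc : c ≠ 0)
    (h : (a ^ 2 + Polynomial.X * Ψ * b ^ 2) * n' = Polynomial.C c * Polynomial.X ^ N) : b = 0 := by
  by_contra hb
  have hΨ : Ψ ≠ 0 := by
    rintro rfl
    simp at h1
  have hr : (Polynomial.C c * Polynomial.X ^ N : κ[X]) ≠ 0 :=
    mul_ne_zero (C_ne_zero.2 hc) (pow_ne_zero _ Polynomial.X_ne_zero)
  have hn := left_ne_zero_of_mul (h ▸ hr)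
  have hn' := right_ne_zero_of_mul (h ▸ hr)
  have e1 := congrArg natDegree h
  have e2 := congrArg natTrailingDegree h
  rw [natDegree_mul hn hn', natDegree_C_mul_X_pow N c hc] at e1
  rw [natTrailingDegree_mul hn hn', C_mul_X_pow_eq_monomial, natTrailingDegree_monomial hc] at e2
  have e3 := natTrailingDegree_le_natDegree n'
  have hq : Polynomial.X * Ψ * b ^ 2 ≠ 0 :=
    mul_ne_zero (mul_ne_zero Polynomial.X_ne_zero hΨ) (pow_ne_zero _ hb)
  have d1 : (Polynomial.X * Ψ * b ^ 2).natDegree = 1 + k + 2 * b.natDegree := by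
    rw [natDegree_mul (mul_ne_zero Polynomial.X_ne_zero hΨ) (pow_ne_zero _ hb),
      natDegree_mul Polynomial.X_ne_zero hΨ, natDegree_X, hk, natDegree_pow]
  have d2 : (Polynomial.X * Ψ * b ^ 2).natTrailingDegree = 1 + 2 * b.natTrailingDegree := by
    rw [natTrailingDegree_mul (mul_ne_zero Polynomial.X_ne_zero hΨ) (pow_ne_zero _ hb),
      natTrailingDegree_mul Polynomial.X_ne_zero hΨ, natTrailingDegree_X, sq,
      natTrailingDegree_mul hb hb, natTrailingDegree_eq_zero.2 (Or.inr (h1 ▸ one_ne_zero))]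
    ring
  have d3 := natTrailingDegree_le_natDegree b
  obtain ⟨k', rfl⟩ := he
  have d4 : 1 + (k' + k') + 2 * b.natDegree ≤ (a ^ 2 + Polynomial.X * Ψ * b ^ 2).natDegree := by
    rcases lt_or_gt_of_ne (show (a ^ 2).natDegree ≠ (Polynomial.X * Ψ * b ^ 2).natDegree by
      rw [d1, natDegree_pow]; omega) with h2 | h2
    · rw [natDegree_add_eq_right_of_natDegree_lt h2, d1]
    · rw [natDegree_add_eq_left_of_natDegree_lt h2, ← d1]
      exact h2.le
  have d5 : (a ^ 2 + Polynomial.X * Ψ * b ^ 2).natTrailingDegree ≤ 1 + 2 * b.natTrailingDegree := by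
    by_cases ha : a = 0
    · rw [ha, zero_pow two_ne_zero, zero_add, d2]
    have d6 : (a ^ 2).natTrailingDegree = 2 * a.natTrailingDegree := by
      rw [sq, natTrailingDegree_mul ha ha, two_mul]
    rcases lt_or_gt_of_ne (show (a ^ 2).natTrailingDegree ≠
      (Polynomial.X * Ψ * b ^ 2).natTrailingDegree by rw [d2, d6]; omega) with h2 | h2
    · refine (natTrailingDegree_le_of_ne_zero (n := (a ^ 2).natTrailingDegree) ?_).trans
        (d2 ▸ h2.le)
      rw [Polynomial.coeff_add, coeff_eq_zero_of_lt_natTrailingDegree h2, add_zero]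
      exact coeff_natTrailingDegree_ne_zero.2 (pow_ne_zero _ ha)
    · refine natTrailingDegree_le_of_ne_zero ?_
      rw [← d2, Polynomial.coeff_add, coeff_eq_zero_of_lt_natTrailingDegree h2, zero_add]
      exact coeff_natTrailingDegree_ne_zero.2 hq
  omega

end parity

variable {Ω F : Type} [Field Ω] [Field F] [Algebra Ω F] {ν : AbsoluteValue Ω ℝ}

/-- The integral elements of a subfield. -/
def intO (hna : IsNonarchimedean ν) (K : Subfield Ω) : Subring Ω where
  carrier := {y | y ∈ K ∧ ν y ≤ 1}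
  zero_mem' := ⟨zero_mem _, by simp⟩
  one_mem' := ⟨one_mem _, by simp⟩
  add_mem' ha hb := ⟨add_mem ha.1 hb.1, na_add_le hna ha.2 hb.2⟩
  neg_mem' ha := ⟨neg_mem ha.1, by rw [ν.map_neg]; exact ha.2⟩
  mul_mem' ha hb := ⟨mul_mem ha.1 hb.1, by rw [map_mul]; exact mul_le_one₀ ha.2 (ν.nonneg _) hb.2⟩

/-- The maximal ideal. -/
def intM (hna : IsNonarchimedean ν) (K : Subfield Ω) : Ideal (intO hna K) where
  carrier := {y | ν y.1 < 1}
  zero_mem' := by simp
  add_mem' ha hb := na_add_lt hna ha hb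
  smul_mem' c a ha := by
    change ν (c.1 * a.1) < 1
    rw [map_mul]
    exact mul_lt_one_of_nonneg_of_lt_one_right c.2.2 (ν.nonneg _) ha

instance intM_prime (hna : IsNonarchimedean ν) (K : Subfield Ω) : (intM hna K).IsPrime where
  ne_top' := (Ideal.ne_top_iff_one _).2 fun h => by
    change ν 1 < 1 at h
    simp at h
  mem_or_mem' {a b} h := by
    change ν (a.1 * b.1) < 1 at h
    by_contra hc
    rw [not_or] at hc
    rw [map_mul] at h
    exact absurd h (not_lt.2 (one_le_mul_of_one_le_of_one_le (not_lt.1 hc.1) (not_lt.1 hc.2)))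

theorem mem_map_intM (hna : IsNonarchimedean ν) (K : Subfield Ω) {A : Type} [CommRing A]
    [Algebra (intO hna K) A] {y : A} (hy : y ∈ (intM hna K).map (algebraMap _ A)) :
    ∃ m ∈ intM hna K, ∃ y', y = m • y' := by
  induction hy using Submodule.span_induction with
  | mem x hx =>
    obtain ⟨m, hm, rfl⟩ := hx
    exact ⟨m, hm, 1, by rw [Algebra.smul_def, mul_one]⟩
  | zero => exact ⟨0, zero_mem _, 0, by simp⟩
  | add x y _ _ hx hy =>
    obtain ⟨m, hm, x', rfl⟩ := hx
    obtain ⟨n, hn, y', rfl⟩ := hy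
    have key : ∀ m n : intO hna K, ν n.1 ≤ ν m.1 → ∃ c, n = m * c := fun m n h => by
      rcases eq_or_ne m.1 0 with h0 | h0
      · rw [h0, map_zero] at h
        exact ⟨0, Subtype.ext (by simpa using le_antisymm h (ν.nonneg _))⟩
      · exact ⟨⟨n.1 / m.1, div_mem n.2.1 m.2.1, by
          rw [map_div₀]; exact div_le_one_of_le₀ h (ν.nonneg _)⟩,
          Subtype.ext (mul_div_cancel₀ _ h0).symm⟩
    rcases le_total (ν n.1) (ν m.1) with h | h
    · obtain ⟨c, rfl⟩ := key m n h
      exact ⟨m, hm, x' + c • y', by rw [smul_add, mul_smul]⟩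
    · obtain ⟨c, rfl⟩ := key n m h
      exact ⟨n, hn, c • x' + y', by rw [smul_add, mul_smul]⟩
  | smul a x _ hx =>
    obtain ⟨m, hm, x', rfl⟩ := hx
    exact ⟨m, hm, a * x', by rw [smul_eq_mul, mul_smul_comm]⟩

theorem exists_scale (hna : IsNonarchimedean ν) (K : Subfield Ω) {s : Set F} {y : F}
    (hy : y ∈ Algebra.adjoin K s) :
    ∃ c : intO hna K, c.1 ≠ 0 ∧ c • y ∈ Algebra.adjoin (intO hna K) s := by
  induction hy using Algebra.adjoin_induction with
  | mem a ha => exact ⟨1, one_ne_zero, by rw [one_smul]; exact Algebra.subset_adjoin ha⟩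
  | algebraMap c =>
    rcases le_or_gt (ν c.1) 1 with h | h
    · exact ⟨1, one_ne_zero, by
        rw [one_smul]; exact Subalgebra.algebraMap_mem _ (⟨c.1, c.2, h⟩ : intO hna K)⟩
    · have h0 : c.1 ≠ 0 := fun e => by rw [e, map_zero] at h; linarith
      refine ⟨⟨c.1⁻¹, inv_mem c.2, by rw [map_inv₀]; exact inv_le_one_of_one_le₀ h.le⟩,
        inv_ne_zero h0, ?_⟩
      rw [Algebra.smul_def]
      change algebraMap Ω F c.1⁻¹ * algebraMap Ω F c.1 ∈ _
      rw [← map_mul, inv_mul_cancel₀ h0, map_one]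
      exact one_mem _
  | add a b _ _ ha hb =>
    obtain ⟨c, h0, hc⟩ := ha
    obtain ⟨d, h1, hd⟩ := hb
    refine ⟨c * d, mul_ne_zero h0 h1, ?_⟩
    rw [smul_add, mul_smul c d b, mul_comm, mul_smul]
    exact add_mem (Subalgebra.smul_mem _ hc d) (Subalgebra.smul_mem _ hd c)
  | mul a b _ _ ha hb =>
    obtain ⟨c, h0, hc⟩ := ha
    obtain ⟨d, h1, hd⟩ := hb
    exact ⟨c * d, mul_ne_zero h0 h1, by rw [← smul_mul_smul_comm]; exact mul_mem hc hd⟩

theorem exists_finset {s : Set F} {y : F} (hy : y ∈ Algebra.adjoin Ω s) :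
    ∃ T : Finset Ω, ∀ K : Subfield Ω, (T : Set Ω) ⊆ K → y ∈ Algebra.adjoin K s := by
  classical
  induction hy using Algebra.adjoin_induction with
  | mem a ha => exact ⟨∅, fun K _ => Algebra.subset_adjoin ha⟩
  | algebraMap c =>
    exact ⟨{c}, fun K hK => Subalgebra.algebraMap_mem _ (⟨c, hK (by simp)⟩ : K)⟩
  | add a b _ _ ha hb =>
    obtain ⟨T, hT⟩ := ha
    obtain ⟨T', hT'⟩ := hb
    exact ⟨T ∪ T', fun K hK => add_mem (hT K fun x hx => hK (by simp [Finset.mem_coe.1 hx]))
      (hT' K fun x hx => hK (by simp [Finset.mem_coe.1 hx]))⟩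
  | mul a b _ _ ha hb =>
    obtain ⟨T, hT⟩ := ha
    obtain ⟨T', hT'⟩ := hb
    exact ⟨T ∪ T', fun K hK => mul_mem (hT K fun x hx => hK (by simp [Finset.mem_coe.1 hx]))
      (hT' K fun x hx => hK (by simp [Finset.mem_coe.1 hx]))⟩

end Pool.Agent.Lib.MP_07b2d0_nt.G3
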