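import Pool.Agent.Lib.MP_07b2d0_nt.G3.Bas

/-!
The parameters: symmetries and the Steiner identity.
-/

set_option autoImplicit false

namespace Pool.Agent.Lib.MP_07b2d0_nt.G3

open Polynomial Fh

section Ring

variable {R : Type} [CommRing R]

theorem p0_cons (a : R) (s : Multiset R) (n : ℕ) :
    (a ::ₘ s).esymm (n + 1) = s.esymm (n + 1) + a * s.esymm n := by
  simp [Multiset.esymm, Multiset.powersetCard_cons, Multiset.sum_map_mul_left]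

theorem p0_zero (s : Multiset R) : s.esymm 0 = 1 := by simp [Multiset.esymm]

theorem p0_nil (n : ℕ) : (0 : Multiset R).esymm (n + 1) = 0 := by simp [Multiset.esymm]

theorem p0_mul {g : ℕ} (x : Fin g → R) (c : R) (n : ℕ) :
    es (fun i => x i * c) n = es x n * c ^ n := by
  rw [es, es, Finset.sum_mul]
  refine Finset.sum_congr rfl fun T hT => ?_
  rw [Finset.prod_mul_distrib, Finset.prod_const, (Finset.mem_powersetCard.1 hT).2]

/-- Explicit form of the elementary symmetric functions through the two triples. -/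
theorem es_six (x : Fin 6 → R) :
    es x 1 = (x 0 + x 1 + x 2) + (x 3 + x 4 + x 5) ∧
    es x 2 = (x 0 * x 1 + x 0 * x 2 + x 1 * x 2) + (x 0 + x 1 + x 2) * (x 3 + x 4 + x 5) +
      (x 3 * x 4 + x 3 * x 5 + x 4 * x 5) ∧
    es x 3 = x 0 * x 1 * x 2 + (x 0 * x 1 + x 0 * x 2 + x 1 * x 2) * (x 3 + x 4 + x 5) +
      (x 0 + x 1 + x 2) * (x 3 * x 4 + x 3 * x 5 + x 4 * x 5) + x 3 * x 4 * x 5 ∧
    es x 4 = x 0 * x 1 * x 2 * (x 3 + x 4 + x 5) +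
      (x 0 * x 1 + x 0 * x 2 + x 1 * x 2) * (x 3 * x 4 + x 3 * x 5 + x 4 * x 5) +
      (x 0 + x 1 + x 2) * (x 3 * x 4 * x 5) ∧
    es x 5 = x 0 * x 1 * x 2 * (x 3 * x 4 + x 3 * x 5 + x 4 * x 5) +
      (x 0 * x 1 + x 0 * x 2 + x 1 * x 2) * (x 3 * x 4 * x 5) := by
  have e : ∀ n, es x n = (x 0 ::ₘ x 1 ::ₘ x 2 ::ₘ x 3 ::ₘ x 4 ::ₘ x 5 ::ₘ 0).esymm n := fun n => by
    rw [es, ← Finset.esymm_map_val]
    rfl
  simp only [e, p0_cons, p0_zero, p0_nil]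
  refine ⟨?_, ?_, ?_, ?_, ?_⟩ <;> ring

theorem prod_sub_six (x : Fin 6 → R) (L : R) : ∏ i, (L - x i) =
    L ^ 6 - es x 1 * L ^ 5 + es x 2 * L ^ 4 - es x 3 * L ^ 3 + es x 4 * L ^ 2 - es x 5 * L +
      ∏ i, x i := by
  obtain ⟨h1, h2, h3, h4, h5⟩ := es_six x
  rw [h1, h2, h3, h4, h5, Fin.prod_univ_six, Fin.prod_univ_six]
  ring

end Ring

variable {K K' E : Type} [Field K] [Field K'] [CommRing E] [Algebra K E] {a : Co K}
  {x : Fin 6 → K} {h : K}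

theorem Par.x_ne (hP : Par a x h) (i : Fin 6) : x i ≠ 0 := by
  have h1 : ∏ i, x i ≠ 0 := hP.prod ▸ pow_ne_zero 3 hP.ne
  exact Finset.prod_ne_zero_iff.1 h1 i (Finset.mem_univ i)

theorem Par.map (hP : Par a x h) (φ : K →+* K') : Par (a.map φ) (fun i => φ (x i)) (φ h) := by
  refine ⟨(map_ne_zero φ).2 hP.ne, by rw [← map_prod, hP.prod, map_pow], ?_⟩
  rw [hP.co, coR_map]
  simp only [map_es, map_inv₀, map_ofNat]

theorem Par.of_map (φ : K →+* K') (hP : Par (a.map φ) (fun i => φ (x i)) (φ h)) : Par a x h := by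
  refine ⟨(map_ne_zero φ).1 hP.ne, φ.injective (by rw [map_prod, hP.prod, map_pow]), ?_⟩
  have e : a.map φ = (coR 4⁻¹ h h⁻¹ (es x 1) (es x 2) (es x 3) (es x 4) (es x 5)).map φ := by
    rw [hP.co, coR_map]
    simp only [map_es, map_inv₀, map_ofNat]
  exact Co.ext (φ.injective (congrArg Co.q0 e)) (φ.injective (congrArg Co.c e))
    (φ.injective (congrArg Co.q2 e)) (φ.injective (congrArg Co.r0 e))
    (φ.injective (congrArg Co.r1 e)) (φ.injective (congrArg Co.e e))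

theorem Par.perm (hP : Par a x h) (π : Equiv.Perm (Fin 6)) : Par a (fun i => x (π i)) h := by
  refine ⟨hP.ne, (Equiv.prod_comp π x).trans hP.prod, ?_⟩
  simp only [es_perm]
  exact hP.co

theorem map_al (φ : K →+* K') (x : Fin 6 → K) (h L : K) :
    φ (al x h L) = al (fun i => φ (x i)) (φ h) (φ L) := by
  simp only [al, map_div₀, map_add, map_sub, map_mul, map_neg, map_pow, map_one, map_inv₀,
    map_ofNat, map_es]

variable [CharZero K]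

theorem p0_refl {g e1 e2 e3 e4 e5 : K} (hg : h * g = 1) :
    coR 4⁻¹ h g e1 e2 e3 e4 e5 =
      coR 4⁻¹ g h (e1 * g ^ 1) (e2 * g ^ 2) (e3 * g ^ 3) (e4 * g ^ 4) (e5 * g ^ 5) := by
  have h0 : h ≠ 0 := left_ne_zero_of_mul_eq_one hg
  obtain rfl := (inv_eq_of_mul_eq_one_right hg).symm
  simp only [coR, Co.mk.injEq]
  refine ⟨?_, ?_, ?_, ?_, ?_, ?_⟩ <;> field_simp <;> ring

theorem p0_crem {A1 A2 B1 B2 B3 e1 e2 e3 e4 e5 f1 f2 f3 f4 f5 : K} (h0 : h ≠ 0) (hB : B3 ≠ 0)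
    (a1 : e1 = A1 + B1) (a2 : e2 = A2 + A1 * B1 + B2)
    (a3 : e3 = h ^ 3 / B3 + A2 * B1 + A1 * B2 + B3)
    (a4 : e4 = h ^ 3 / B3 * B1 + A2 * B2 + A1 * B3) (a5 : e5 = h ^ 3 / B3 * B2 + A2 * B3)
    (b1 : f1 = A1 + B1 * (h / B3)) (b2 : f2 = A2 + A1 * B1 * (h / B3) + B2 * (h / B3) ^ 2)
    (b3 : f3 = h ^ 3 / B3 + A2 * B1 * (h / B3) + A1 * B2 * (h / B3) ^ 2 + B3 * (h / B3) ^ 3)
    (b4 : f4 = h ^ 3 / B3 * B1 * (h / B3) + A2 * B2 * (h / B3) ^ 2 + A1 * B3 * (h / B3) ^ 3)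
    (b5 : f5 = h ^ 3 / B3 * B2 * (h / B3) ^ 2 + A2 * B3 * (h / B3) ^ 3) :
    coR 4⁻¹ h h⁻¹ e1 e2 e3 e4 e5 = coR 4⁻¹ (h * (h / B3)) (h * (h / B3))⁻¹ f1 f2 f3 f4 f5 := by
  subst a1 a2 a3 a4 a5 b1 b2 b3 b4 b5
  simp only [coR, Co.mk.injEq]
  refine ⟨?_, ?_, ?_, ?_, ?_, ?_⟩ <;> field_simp <;> ring

omit [CharZero K] in
theorem p0_inv (x : Fin 6 → K) (hx : ∀ i, x i ≠ 0) :
    es (fun i => (x i)⁻¹) 1 = es x 5 / ∏ i, x i ∧ es (fun i => (x i)⁻¹) 2 = es x 4 / ∏ i, x i ∧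
    es (fun i => (x i)⁻¹) 3 = es x 3 / ∏ i, x i ∧ es (fun i => (x i)⁻¹) 4 = es x 2 / ∏ i, x i ∧
    es (fun i => (x i)⁻¹) 5 = es x 1 / ∏ i, x i := by
  obtain ⟨e1, e2, e3, e4, e5⟩ := es_six x
  obtain ⟨f1, f2, f3, f4, f5⟩ := es_six fun i => (x i)⁻¹
  have h0 := hx 0
  have h1 := hx 1
  have h2 := hx 2
  have h3 := hx 3
  have h4 := hx 4
  have h5 := hx 5
  rw [e1, e2, e3, e4, e5, f1, f2, f3, f4, f5, Fin.prod_univ_six]
  refine ⟨?_, ?_, ?_, ?_, ?_⟩ <;> field_simp <;> ring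

/-- `es (x / h) j = es x j / h ^ j`. -/
theorem Par.refl (hP : Par a x h) : Par a (fun i => x i / h) h⁻¹ := by
  have h0 := hP.ne
  refine ⟨inv_ne_zero h0, ?_, ?_⟩
  · rw [Finset.prod_div_distrib, hP.prod, Finset.prod_const, Finset.card_fin]
    field_simp
  · simp only [div_eq_mul_inv, p0_mul, inv_inv]
    rw [hP.co]
    have hg := mul_inv_cancel₀ h0
    exact p0_refl hg

/-- Use `es_six`: with `A j`, `B j` the symmetric functions of the two triples, `B j` is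
multiplied by `κ ^ j`, `κ = h / B 3`, and `A 3 = h ^ 3 / B 3`. -/
theorem Par.crem (hP : Par a x h) : Par a (crem x h) (h * (h / (x 3 * x 4 * x 5))) := by
  have h0 := hP.ne
  have h3 := hP.x_ne 3
  have h4 := hP.x_ne 4
  have h5 := hP.x_ne 5
  have hp := hP.prod
  rw [Fin.prod_univ_six] at hp
  have c0 : G3.crem x h 0 = x 0 := rfl
  have c1 : G3.crem x h 1 = x 1 := rfl
  have c2 : G3.crem x h 2 = x 2 := rfl
  have c3 : G3.crem x h 3 = x 3 * (h / (x 3 * x 4 * x 5)) := rfl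
  have c4 : G3.crem x h 4 = x 4 * (h / (x 3 * x 4 * x 5)) := rfl
  have c5 : G3.crem x h 5 = x 5 * (h / (x 3 * x 4 * x 5)) := rfl
  have hB : x 3 * x 4 * x 5 ≠ 0 := mul_ne_zero (mul_ne_zero h3 h4) h5
  refine ⟨mul_ne_zero h0 (div_ne_zero h0 hB), ?_, ?_⟩
  · rw [Fin.prod_univ_six, c0, c1, c2, c3, c4, c5, mul_pow, ← hp]
    ring
  · obtain ⟨e1, e2, e3, e4, e5⟩ := es_six x
    obtain ⟨f1, f2, f3, f4, f5⟩ := es_six (G3.crem x h)
    rw [c0, c1, c2, c3, c4, c5] at f1 f2 f3 f4 f5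
    have hA : x 0 * x 1 * x 2 = h ^ 3 / (x 3 * x 4 * x 5) := by
      rw [eq_div_iff hB, ← hp]
      ring
    rw [hP.co]
    refine p0_crem h0 hB (A1 := x 0 + x 1 + x 2) (A2 := x 0 * x 1 + x 0 * x 2 + x 1 * x 2)
      (B1 := x 3 + x 4 + x 5) (B2 := x 3 * x 4 + x 3 * x 5 + x 4 * x 5) e1 e2 (hA ▸ e3) (hA ▸ e4)
      (hA ▸ e5) ?_ ?_ ?_ ?_ ?_
    · rw [f1]; ring
    · rw [f2]; ring
    · rw [f3, hA]; ring
    · rw [f4, hA]; ring
    · rw [f5, hA]; ring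

/-- `es (dual x h) j = h ^ j * es x (6 - j) / h ^ 3`. -/
theorem Par.dual (hP : Par a x h) : Par a.swap (dual x h) h := by
  have h0 := hP.ne
  have hx := hP.x_ne
  have hp := hP.prod
  refine ⟨h0, ?_, ?_⟩
  · simp only [G3.dual]
    rw [Finset.prod_div_distrib, Finset.prod_const, Finset.card_fin,
      show ∏ i : Fin 6, x i.rev = ∏ i, x i from Equiv.prod_comp Fin.revPerm x, hp]
    field_simp
  · have e : ∀ n, es (G3.dual x h) n = es (fun i => (x i)⁻¹) n * h ^ n := fun n => by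
      rw [← p0_mul, ← es_perm (fun i => (x i)⁻¹ * h) Fin.revPerm]
      exact congrArg (es · n) (funext fun i => div_eq_inv_mul h (x i.rev))
    obtain ⟨i1, i2, i3, i4, i5⟩ := p0_inv x hx
    rw [hp] at i1 i2 i3 i4 i5
    rw [e, e, e, e, e, i1, i2, i3, i4, i5, hP.co]
    simp only [coR, Co.swap, Co.mk.injEq]
    refine ⟨?_, ?_, ?_, ?_, ?_, ?_⟩ <;> field_simp <;> ring

end Pool.Agent.Lib.MP_07b2d0_nt.G3
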