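import Pool.Agent.Lib.MP_07b2d0_nt.G3.P0

/-!
The dominant chamber.
-/

set_option autoImplicit false

namespace Pool.Agent.Lib.MP_07b2d0_nt.G3

open Polynomial Fh

variable {K : Type} [Field K] [CharZero K] {a : Co K} {x : Fin 6 → K} {h : K}

/-- The slopes lie in `S`. -/
def p1_sl (S : Set K) (x : Fin 6 → K) (h : K) : Prop :=
  ∀ i, x i ∈ S ∧ x i / h ∈ S ∧ ∀ j, j ≠ i → h / (x i * x j) ∈ S

/-- The monomial that is maximised. -/
def p1_m (x : Fin 6 → K) : K := x 0 ^ 6 * x 1 ^ 5 * x 2 ^ 4 * x 3 ^ 3 * x 4 ^ 2 * x 5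

omit [CharZero K] in
theorem p1_ne (hP : Par a x h) :
    x 0 ≠ 0 ∧ x 1 ≠ 0 ∧ x 2 ≠ 0 ∧ x 3 ≠ 0 ∧ x 4 ≠ 0 ∧ x 5 ≠ 0 ∧ h ≠ 0 :=
  ⟨hP.x_ne _, hP.x_ne _, hP.x_ne _, hP.x_ne _, hP.x_ne _, hP.x_ne _, hP.ne⟩

omit [CharZero K] in
theorem p1_five (hP : Par a x h) : x 5 = h ^ 3 / (x 0 * x 1 * x 2 * x 3 * x 4) := by
  have := hP.x_ne
  rw [← hP.prod, Fin.prod_univ_six, mul_div_cancel_left₀ _ (by simp [this])]

omit [CharZero K] in
theorem p1_swap (hP : Par a x h) (i : Fin 5) :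
    p1_m (fun j => x (Equiv.swap i.castSucc i.succ j)) = p1_m x * (x i.succ / x i.castSucc) := by
  obtain ⟨n0, n1, n2, n3, n4, n5, n6⟩ := p1_ne hP
  fin_cases i <;> simp [p1_m, Equiv.swap_apply_def] <;> field_simp

omit [CharZero K] in
theorem p1_crem (x : Fin 6 → K) (h : K) :
    p1_m (crem x h) = p1_m x * (h / (x 3 * x 4 * x 5)) ^ 6 := by
  simp [p1_m, crem]
  ring

omit [CharZero K] in
theorem p1_sl.crem {S : Set K} (hS : p1_sl S x h) (hP : Par a x h) :
    p1_sl S (crem x h) (h * (h / (x 3 * x 4 * x 5))) := by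
  obtain ⟨n0, n1, n2, n3, n4, n5, n6⟩ := p1_ne hP
  have h5 := p1_five hP
  have e : ∀ {u v : K}, u ∈ S → v = u → v ∈ S := fun hu e => e ▸ hu
  have A := fun i => (hS i).1
  have B := fun i => (hS i).2.1
  have C := fun i j hj => (hS i).2.2 j hj
  refine fun i => ⟨?_, ?_, fun j hj => ?_⟩
  · fin_cases i
    exacts [A 0, A 1, A 2, e (C 4 5 (by decide)) (by simp [G3.crem]; field_simp),
      e (C 3 5 (by decide)) (by simp [G3.crem]; field_simp),
      e (C 3 4 (by decide)) (by simp [G3.crem]; field_simp)]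
  · fin_cases i
    exacts [e (C 1 2 (by decide)) (by simp [G3.crem, h5]; field_simp),
      e (C 0 2 (by decide)) (by simp [G3.crem, h5]; field_simp),
      e (C 0 1 (by decide)) (by simp [G3.crem, h5]; field_simp),
      e (B 3) (by simp [G3.crem]; field_simp), e (B 4) (by simp [G3.crem]; field_simp),
      e (B 5) (by simp [G3.crem]; field_simp)]
  · by_cases h7 : (3 ≤ i ↔ 3 ≤ j)
    · fin_cases i <;> fin_cases j <;> first
        | exact absurd rfl hj
        | exact absurd h7 (by decide)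
        | (refine e (B 0) ?_; simp [G3.crem, h5]; field_simp; done)
        | (refine e (B 1) ?_; simp [G3.crem, h5]; field_simp; done)
        | (refine e (B 2) ?_; simp [G3.crem, h5]; field_simp; done)
        | (refine e (A 3) ?_; simp [G3.crem]; field_simp; done)
        | (refine e (A 4) ?_; simp [G3.crem]; field_simp; done)
        | (refine e (A 5) ?_; simp [G3.crem]; field_simp; done)
    · refine e (C i j hj) ?_
      have h8 := hP.x_ne i
      have h9 := hP.x_ne j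
      by_cases hi : 3 ≤ i
      · rw [G3.crem, G3.crem, if_pos hi, if_neg fun hj => h7 (iff_of_true hi hj)]
        field_simp
      · rw [G3.crem, G3.crem, if_neg hi, if_pos (not_not.1 fun hj => h7 (iff_of_false hi hj))]
        field_simp

/-- Consider the finite set of all `(x', h')` with `Par a x' h'` whose `27` slopes `x' i`,
`x' i / h'`, `h' / (x' i * x' j)` (`i ≠ j`) lie in the set of the `27` slopes of `(x, h)` and for
which the last implication holds.  It is stable under transpositions and the Cremona move.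
Maximise `∏ i, V.valuation (x' i) ^ (6 - i)`. -/
theorem Par.exists_dom (hP : Par a x h) (V : ValuationSubring K) :
    ∃ x' h', Par a x' h' ∧ Dom V.toSubring x' h' ∧
      ((∀ i, V.valuation (x' i) = 1) → V.valuation h' = 1 →
        (∀ i, V.valuation (x i) = 1) ∧ V.valuation h = 1) := by
  let S : Set K := Set.range x ∪ Set.range (x · / h) ∪
    Set.range fun p : Fin 6 × Fin 6 => h / (x p.1 * x p.2)
  have hS : S.Finite := ((Set.finite_range _).union (Set.finite_range _)).union (Set.finite_range _)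
  let T : Set ((Fin 6 → K) × K) := {p | Par a p.1 p.2 ∧ p1_sl S p.1 p.2 ∧
    ((∀ i, V.valuation (p.1 i) = 1) → V.valuation p.2 = 1 →
      (∀ i, V.valuation (x i) = 1) ∧ V.valuation h = 1)}
  have hT : T.Finite := ((Set.Finite.pi' fun _ => hS).prod (hS.image2 (· / ·) hS)).subset
    fun p hp => ⟨fun i => (hp.2.1 i).1, _, (hp.2.1 0).1, _, (hp.2.1 0).2.1,
      div_div_cancel₀ (hp.1.x_ne 0)⟩
  obtain ⟨⟨y, g⟩, ⟨hQ, h1, h2⟩, h3⟩ := Set.exists_max_image T (fun p => V.valuation (p1_m p.1)) hT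
    ⟨(x, h), hP, fun i => ⟨.inl (.inl ⟨i, rfl⟩), .inl (.inr ⟨i, rfl⟩),
      fun j _ => .inr ⟨(i, j), rfl⟩⟩, fun h1 h2 => ⟨h1, h2⟩⟩
  have h0 : 0 < V.valuation (p1_m y) := by
    have := hQ.x_ne
    exact (Valuation.pos_iff _).2 (by simp_all [p1_m])
  refine ⟨y, g, hQ, ⟨fun i => ?_, ?_⟩, h2⟩
  · have h4 := h3 (fun j => y (Equiv.swap i.castSucc i.succ j), g) ⟨hQ.perm _,
      fun j => ⟨(h1 _).1, (h1 _).2.1, fun k hk => (h1 _).2.2 _ ((Equiv.injective _).ne hk)⟩,
      fun h4 => h2 fun j => by simpa using h4 (Equiv.swap i.castSucc i.succ j)⟩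
    simp only [p1_swap hQ, map_mul] at h4
    exact (V.valuation_le_one_iff _).1 ((mul_le_iff_le_one_right h0).1 h4)
  · have h4 := h3 (G3.crem y g, g * (g / (y 3 * y 4 * y 5))) ⟨hQ.crem, h1.crem hQ, fun h4 h5 => by
      have h6 : G3.crem y g 3 * G3.crem y g 4 * G3.crem y g 5 =
          g * (g / (y 3 * y 4 * y 5)) * (g / (y 3 * y 4 * y 5)) := by
        obtain ⟨n0, n1, n2, n3, n4, n5, n6⟩ := p1_ne hQ
        simp [G3.crem]
        field_simp
      have h7 := congrArg V.valuation h6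
      rw [map_mul, map_mul, map_mul _ (g * _), h4, h4, h4, h5, one_mul, one_mul, one_mul] at h7
      rw [map_mul, ← h7, mul_one] at h5
      refine h2 (fun i => ?_) h5
      have h8 : V.valuation (G3.crem y g i) = 1 := h4 i
      rw [G3.crem] at h8
      split_ifs at h8
      · rwa [map_mul, ← h7, mul_one] at h8
      · exact h8⟩
    simp only [p1_crem, map_mul, map_pow] at h4
    exact (V.valuation_le_one_iff _).1
      ((pow_le_one_iff (by norm_num)).1 ((mul_le_iff_le_one_right h0).1 h4))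

theorem Dom.dual {V : Subring K} (hP : Par a x h) (hD : Dom V x h) : Dom V (dual x h) h := by
  obtain ⟨n0, n1, n2, n3, n4, n5, n6⟩ := p1_ne hP
  refine ⟨fun i => (congrArg (· ∈ V) ?_).mp (hD.b i.rev), (congrArg (· ∈ V) ?_).mp hD.b0⟩
  · have h1 := hP.x_ne i.rev.succ
    have h2 := hP.x_ne i.rev.castSucc
    rw [G3.dual, G3.dual, Fin.rev_succ, Fin.rev_castSucc]
    field_simp
  · simp [G3.dual, p1_five hP, Fin.rev]
    field_simp

/-- With `b i = x (i + 1) / x i`, `b' = h / (x 3 * x 4 * x 5)`: `Bx x h = b' * b 0 * b 1 * b 2`,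
`Bx (dual x h) h = b' * b 4 * b 3 * b 2`, `1 / h = b 0 * b 1 ^ 2 * b 2 ^ 3 * b 3 ^ 2 * b 4 * b' ^ 2`,
`1 / x 0 ^ 3 = b 0 ^ 4 * b 1 ^ 5 * b 2 ^ 6 * b 3 ^ 4 * b 4 ^ 2 * b' ^ 3`. -/
theorem Dom.cases {V : ValuationSubring K} (hP : Par a x h) (hD : Dom V.toSubring x h) :
    ((∀ i, V.valuation (x i) = 1) ∧ V.valuation h = 1) ∨ V.valuation (Bx x h) < 1 ∨
      V.valuation (Bx (G3.dual x h) h) < 1 := by
  by_contra hc
  simp only [not_or, not_lt] at hc
  obtain ⟨hc, h1, h2⟩ := hc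
  have h0 := hP.x_ne
  obtain ⟨n0, n1, n2, n3, n4, n5, n6⟩ := p1_ne hP
  have hb := fun i => (V.valuation_le_one_iff _).2 (hD.b i)
  have hb' := (V.valuation_le_one_iff _).2 hD.b0
  have e : ∀ {u v : V.ValueGroup}, u ≤ 1 → v ≤ 1 → 1 ≤ u * v → 1 ≤ u ∧ v = 1 := fun hu hv h =>
    ⟨h.trans (mul_le_of_le_one_right' hv), hv.antisymm (h.trans (mul_le_of_le_one_left' hu))⟩
  rw [show Bx x h = h / (x 3 * x 4 * x 5) * (x 1 / x 0) * (x 2 / x 1) * (x 3 / x 2) by
    rw [Bx]; field_simp, map_mul, map_mul, map_mul] at h1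
  rw [show Bx (G3.dual x h) h = h / (x 3 * x 4 * x 5) * (x 3 / x 2) * (x 4 / x 3) * (x 5 / x 4) by
    simp [Bx, G3.dual, p1_five hP, Fin.rev]; field_simp, map_mul, map_mul, map_mul] at h2
  obtain ⟨h1, b2⟩ := e (mul_le_one' (mul_le_one' hb' (hb 0)) (hb 1)) (hb 2) h1
  obtain ⟨h1, b1⟩ := e (mul_le_one' hb' (hb 0)) (hb 1) h1
  obtain ⟨h1, b0⟩ := e hb' (hb 0) h1
  obtain ⟨h2, b4⟩ := e (mul_le_one' (mul_le_one' hb' (hb 2)) (hb 3)) (hb 4) h2
  obtain ⟨-, b3⟩ := e (mul_le_one' hb' (hb 2)) (hb 3) h2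
  have b := hb'.antisymm h1
  have f : ∀ {u v : K}, v ≠ 0 → V.valuation (u / v) = 1 → V.valuation u = V.valuation v :=
    fun hv h => by rwa [map_div₀, div_eq_one_iff_eq ((Valuation.ne_zero_iff _).2 hv)] at h
  have c1 : V.valuation (x 1) = V.valuation (x 0) := f (h0 _) b0
  have c2 : V.valuation (x 2) = V.valuation (x 0) := (f (h0 _) b1).trans c1
  have c3 : V.valuation (x 3) = V.valuation (x 0) := (f (h0 _) b2).trans c2
  have c4 : V.valuation (x 4) = V.valuation (x 0) := (f (h0 _) b3).trans c3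
  have c5 : V.valuation (x 5) = V.valuation (x 0) := (f (h0 _) b4).trans c4
  have c := f (by simp [h0]) b
  have c6 := congrArg V.valuation hP.prod
  rw [Fin.prod_univ_six, map_pow, c] at c6
  simp only [map_mul, c1, c2, c3, c4, c5] at c c6
  have c0 : V.valuation (x 0) = 1 := by
    have := (Valuation.ne_zero_iff V.valuation).2 (h0 0)
    generalize V.valuation (x 0) = t at c6 this
    refine (pow_eq_one_iff_of_nonneg zero_le three_ne_zero).1
      (mul_left_cancel₀ (pow_ne_zero 6 this) ?_)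
    rw [mul_one, ← pow_add]
    simpa only [pow_succ, pow_zero, one_mul, mul_assoc] using c6.symm
  refine hc ⟨fun i => ?_, by rw [c, c0, one_mul, one_mul]⟩
  fin_cases i
  exacts [c0, c1.trans c0, c2.trans c0, c3.trans c0, c4.trans c0, c5.trans c0]

/-- The number of parameters of maximal size. -/
theorem Dom.exists_gap {V : ValuationSubring K} (hP : Par a x h) (hD : Dom V.toSubring x h) :
    ∃ n : ℕ, 1 ≤ n ∧ n ≤ 6 ∧ (∀ i : Fin 6, (i : ℕ) < n → V.valuation (x i) = V.valuation (x 0)) ∧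
      ∀ i : Fin 6, n ≤ (i : ℕ) → V.valuation (x i) < V.valuation (x 0) := by
  have h1 : Antitone fun i => V.valuation (x i) := Fin.antitone_iff_succ_le.2 fun i => by
    have := (V.valuation_le_one_iff _).2 (hD.b i)
    rwa [map_div₀, div_le_one₀ ((Valuation.pos_iff _).2 (hP.x_ne _))] at this
  by_cases h2 : ∃ i, V.valuation (x i) < V.valuation (x 0)
  · obtain ⟨k, hk, h3⟩ := wellFounded_lt.has_min {i | V.valuation (x i) < V.valuation (x 0)} h2
    refine ⟨k, Nat.pos_of_ne_zero fun e => ?_, k.2.le,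
      fun i hi => (h1 (Fin.zero_le i)).antisymm (not_lt.1 fun h4 => h3 i h4 hi),
      fun i hi => (h1 hi).trans_lt hk⟩
    rw [show k = 0 from Fin.ext e] at hk
    exact lt_irrefl (V.valuation (x 0)) hk
  · exact ⟨6, by norm_num, le_rfl, fun i _ => (h1 (Fin.zero_le i)).antisymm
      (not_lt.1 fun h4 => h2 ⟨i, h4⟩), fun i hi => absurd i.2 (not_lt.2 hi)⟩

end Pool.Agent.Lib.MP_07b2d0_nt.G3
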