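import Pool.Agent.Lib.MP_07b2d0_nt.G3.P1
import Pool.Agent.Lib.MP_07b2d0_nt.G3.P2
import Pool.Agent.Lib.MP_07b2d0_nt.Fh.AExt
import Pool.Agent.Lib.MP_07b2d0_nt.Fh.ADom

/-!
Every curve has parameters, of bounded degree.
-/

set_option autoImplicit false

namespace Pool.Agent.Lib.MP_07b2d0_nt.G3

open Polynomial Fh

theorem p3_es_val {K : Type} [Field K] (V : ValuationSubring K) (y : Fin 6 → K) {n : ℕ}
    (hn : n ≤ 6) (h1 : ∀ i : Fin 6, (i : ℕ) < n → V.valuation (y i) = 1)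
    (h2 : ∀ i : Fin 6, n ≤ (i : ℕ) → V.valuation (y i) < 1) : V.valuation (es y n) = 1 := by
  classical
  have hle : ∀ i, V.valuation (y i) ≤ 1 := fun i =>
    (lt_or_ge (i : ℕ) n).elim (fun h => (h1 i h).le) fun h => (h2 i h).le
  have hc : (Finset.univ.filter fun i : Fin 6 => (i : ℕ) < n).card = n := by
    rw [Fin.card_filter_val_lt, min_eq_right hn]
  have hm : (Finset.univ.filter fun i : Fin 6 => (i : ℕ) < n) ∈
      Finset.powersetCard n (Finset.univ : Finset (Fin 6)) :=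
    Finset.mem_powersetCard.2 ⟨Finset.subset_univ _, hc⟩
  have h0 : V.valuation (∏ i ∈ Finset.univ.filter fun i : Fin 6 => (i : ℕ) < n, y i) = 1 := by
    rw [map_prod]
    exact Finset.prod_eq_one fun i hi => h1 i (Finset.mem_filter.1 hi).2
  rw [es, ← Finset.add_sum_erase _ _ hm, Valuation.map_add_eq_of_lt_left _ ?_, h0]
  rw [h0]
  refine Valuation.map_sum_lt _ one_ne_zero fun T hT => ?_
  obtain ⟨hne, hT⟩ := Finset.mem_erase.1 hT
  have : ∃ i ∈ T, n ≤ (i : ℕ) := by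
    by_contra hno
    refine hne (Finset.eq_of_subset_of_card_le (fun i hi => ?_) ?_)
    · exact Finset.mem_filter.2 ⟨Finset.mem_univ _, lt_of_not_ge fun h => hno ⟨i, hi, h⟩⟩
    · rw [hc, (Finset.mem_powersetCard.1 hT).2]
  obtain ⟨i, hi, hin⟩ := this
  rw [map_prod, ← Finset.mul_prod_erase _ _ hi]
  exact (mul_le_of_le_one_right' (Finset.prod_le_one' fun j _ => hle j)).trans_lt (h2 i hin)

theorem p3_es_div {K : Type} [Field K] (x : Fin 6 → K) (c : K) (n : ℕ) :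
    es (fun i => x i / c) n = es x n / c ^ n := by
  rw [es, es, Finset.sum_div]
  refine Finset.sum_congr rfl fun T hT => ?_
  rw [Finset.prod_div_distrib, Finset.prod_const, (Finset.mem_powersetCard.1 hT).2]

theorem p3_small {K : Type} [Field K] [CharZero K] (V : ValuationSubring K) {A E B c w : K} {n : ℕ}
    (hn : n ≠ 0) (hA : A ∈ V) (hc : V.valuation c⁻¹ < 1) (hB : V.valuation B < 1)
    (hw : Dv V.toSubring B w)
    (e : w = A / c ^ n + E / (4 * c) ^ n ∨ w = A / c ^ n - E / (4 * c) ^ n) :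
    V.valuation (E / c ^ n) < 1 := by
  obtain ⟨y, hy, hw⟩ := hw
  have h1 : V.valuation w < 1 := by
    rw [hw, map_mul]
    exact (mul_le_of_le_one_right' ((V.valuation_le_one_iff y).2 hy)).trans_lt hB
  have h2 : V.valuation (A / c ^ n) < 1 := by
    rw [div_eq_mul_inv, ← inv_pow, map_mul, map_pow]
    exact (mul_le_of_le_one_left' ((V.valuation_le_one_iff A).2 hA)).trans_lt
      (pow_lt_one₀ zero_le hc hn)
  have h3 : V.valuation (E / (4 * c) ^ n) < 1 := by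
    rcases e with e | e
    · rw [← sub_eq_iff_eq_add'.2 e]
      exact Valuation.map_sub_lt _ h1 h2
    · rw [show E / (4 * c) ^ n = A / c ^ n - w by rw [e]; ring]
      exact Valuation.map_sub_lt _ h2 h1
  have h4 : V.valuation ((4 : K) ^ n) ≤ 1 :=
    (V.valuation_le_one_iff _).2 (pow_mem (ofNat_mem V 4) n)
  rw [show E / c ^ n = 4 ^ n * (E / (4 * c) ^ n) by
    rw [mul_pow, ← mul_div_assoc, mul_div_mul_left _ _ (pow_ne_zero n (by norm_num))], map_mul]
  exact (mul_le_of_le_one_left' h4).trans_lt h3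

theorem p3_key {K : Type} [Field K] [CharZero K] {a : Co K} {x : Fin 6 → K} {h : K}
    (hP : Par a x h) (V : ValuationSubring K) (h2 : (2 : K)⁻¹ ∈ V)
    (ha : ∀ z ∈ [a.q0, a.c, a.q2, a.r0, a.r1, a.e], z ∈ V) (hD : Dom V.toSubring x h)
    (hB : V.valuation (Bx x h) < 1) : False := by
  have hE := Dom.est hP h2 hD
  have hx := hP.x_ne 0
  have hc : V.valuation (x 0)⁻¹ < 1 := by
    obtain ⟨y, hy, e⟩ := hE.z6
    have h1 : V.valuation (x 0)⁻¹ ^ 3 < 1 := by
      rw [← map_pow, inv_pow, ← one_div, e, map_mul]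
      exact (mul_le_of_le_one_right' ((V.valuation_le_one_iff y).2 hy)).trans_lt hB
    exact lt_of_not_ge fun h => absurd h1 (not_lt.2 (one_le_pow₀ h))
  obtain ⟨n, hn1, hn6, hu, hl⟩ := Dom.exists_gap hP hD
  have hv : V.valuation (x 0) ≠ 0 := (_root_.map_ne_zero _).2 hx
  have h1 : V.valuation (es x n / x 0 ^ n) = 1 := by
    rw [← p3_es_div]
    refine p3_es_val V _ hn6 (fun i hi => ?_) fun i hi => ?_
    · rw [map_div₀, hu i hi, div_self hv]
    · rw [map_div₀]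
      exact (div_lt_one₀ (zero_lt_iff.2 hv)).2 (hl i hi)
  simp only [List.mem_cons, List.not_mem_nil, or_false, forall_eq_or_imp, forall_eq] at ha
  obtain ⟨a0, a1, a2, a3, a4, a5⟩ := ha
  refine absurd h1 (ne_of_lt ?_)
  interval_cases n
  · exact p3_small V one_ne_zero a0 hc hB hE.p1 (Or.inl (by rw [pow_one, pow_one]))
  · exact p3_small V (by norm_num) a3 hc hB hE.p2 (Or.inr rfl)
  · exact p3_small V (by norm_num) a5 hc hB hE.p3 (Or.inl rfl)
  · exact p3_small V (by norm_num) (neg_mem (mul_mem a4 a1)) hc hB hE.p4 (Or.inr rfl)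
  · exact p3_small V (by norm_num) (mul_mem a2 (pow_mem a1 2)) hc hB hE.p5 (Or.inl rfl)
  · rw [es_top, hP.prod]
    exact p3_small V (by norm_num) (neg_mem (pow_mem a1 3)) hc hB hE.p6 (Or.inr rfl)

/-- If the coefficients are integral, the parameters are units: otherwise (`Par.exists_dom`,
`Dom.cases`, possibly dualise) `Bx` is a non-unit, so `x 0` is not in `V` (`Est.z6`), and with `n`
from `Dom.exists_gap` the `n`-th of the quantities `p1 … p6` of `Est` gives a contradiction, as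
`es x n / x 0 ^ n` is a unit. -/
theorem Par.unit_of_int {K : Type} [Field K] [CharZero K] {a : Co K} {x : Fin 6 → K} {h : K}
    (hP : Par a x h) (V : ValuationSubring K) (h2 : (2 : K)⁻¹ ∈ V)
    (ha : ∀ z ∈ [a.q0, a.c, a.q2, a.r0, a.r1, a.e], z ∈ V) :
    (∀ i, V.valuation (x i) = 1) ∧ V.valuation h = 1 := by
  obtain ⟨x', h', hP', hD, him⟩ := hP.exists_dom V
  rcases Dom.cases hP' hD with ⟨h1, h3⟩ | hB | hB
  · exact him h1 h3
  · exact (p3_key hP' V h2 ha hD hB).elim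
  · refine (p3_key hP'.dual V h2 (fun z hz => ha z ?_) (Dom.dual hP' hD) hB).elim
    simp only [Co.swap, List.mem_cons, List.not_mem_nil, or_false] at hz ⊢
    rcases hz with e | e | e | e | e | e <;> simp only [e, true_or, or_true]

theorem p3_int {E : Type} [Field E] [Algebra ℚ E] {a : Co E} {x : Fin 6 → E} {h : E}
    (hP : Par a x h) : ∀ z ∈ Algebra.adjoin ℚ (Set.range x ∪ {h, h⁻¹}), IsIntegral
      (Algebra.adjoin ℚ (Set.range ![a.q0, a.c, a.q2, a.r0, a.r1, a.e])) z := by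
  have : CharZero E := charZero_of_injective_algebraMap (algebraMap ℚ E).injective
  set A := Algebra.adjoin ℚ (Set.range ![a.q0, a.c, a.q2, a.r0, a.r1, a.e]) with hA
  have crit : ∀ z : E, (∀ V : ValuationSubring E, (∀ i, V.valuation (x i) = 1) →
      V.valuation h = 1 → z ∈ V) → IsIntegral A z := by
    intro z hz
    have h1 : z ∈ (integralClosure (Subring.closure (A.toSubring : Set E)) E).toSubring := by
      rw [← iInf_valuationSubring_superset, Subring.mem_iInf]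
      rintro ⟨V, hV⟩
      have h2 : (2 : E)⁻¹ ∈ V := hV (show (2 : E)⁻¹ ∈ A by
        have := A.algebraMap_mem (2 : ℚ)⁻¹
        rwa [map_inv₀, map_ofNat] at this)
      obtain ⟨h3, h4⟩ := hP.unit_of_int V h2 fun w hw => hV (show w ∈ A from
        Algebra.subset_adjoin (by
          simp only [List.mem_cons, List.not_mem_nil, or_false] at hw
          rcases hw with e | e | e | e | e | e
          exacts [⟨0, e.symm⟩, ⟨1, e.symm⟩, ⟨2, e.symm⟩, ⟨3, e.symm⟩, ⟨4, e.symm⟩, ⟨5, e.symm⟩]))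
      exact hz V h3 h4
    rw [Subring.closure_eq] at h1
    exact h1
  intro z hz
  induction hz using Algebra.adjoin_induction with
  | mem z hz =>
    refine crit z fun V h1 h2 => (V.valuation_le_one_iff z).1 (le_of_eq ?_)
    rcases hz with ⟨i, rfl⟩ | rfl | rfl
    · exact h1 i
    · exact h2
    · rw [map_inv₀, h2, inv_one]
  | algebraMap q => exact isIntegral_algebraMap (x := algebraMap ℚ A q)
  | add y z _ _ hy hz => exact hy.add hz
  | mul y z _ _ hy hz => exact hy.mul hz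

/-- The generic parameters in terms of six variables. -/
def p3_x {E : Type} [Field E] (y : Fin 6 → E) : Fin 6 → E :=
  ![y 0, y 1, y 2, y 3, y 4, y 5 ^ 3 * (y 0 * y 1 * y 2 * y 3 * y 4)⁻¹]

theorem p3_spec {E : Type} [Field E] [Algebra ℚ E] [Algebra (MvPolynomial (Fin 6) ℚ) E]
    [IsFractionRing (MvPolynomial (Fin 6) ℚ) E] [IsScalarTower ℚ (MvPolynomial (Fin 6) ℚ) E]
    {y : Fin 6 → E} (hy : ∀ i, y i = algebraMap (MvPolynomial (Fin 6) ℚ) E (MvPolynomial.X i))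
    (K : Type) [Field K] [CharZero K] (x' : Fin 6 → K) (h' : K) (h0 : h' ≠ 0)
    (hp : ∏ i, x' i = h' ^ 3) :
    ∃ φ : Algebra.adjoin ℚ (Set.range (p3_x y) ∪ {y 5, (y 5)⁻¹}) →+* K,
      (∀ i hi, φ ⟨p3_x y i, hi⟩ = x' i) ∧ ∀ hh, φ ⟨y 5, hh⟩ = h' := by
  have hx : ∀ i, x' i ≠ 0 := fun i =>
    Finset.prod_ne_zero_iff.1 (hp ▸ pow_ne_zero 3 h0) i (Finset.mem_univ i)
  let ev : MvPolynomial (Fin 6) ℚ →+* K :=
    MvPolynomial.eval₂Hom (algebraMap ℚ K) ![x' 0, x' 1, x' 2, x' 3, x' 4, h']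
  let S : Submonoid (MvPolynomial (Fin 6) ℚ) := (IsUnit.submonoid K).comap ev
  have hS : S ≤ nonZeroDivisors _ := fun p hp => mem_nonZeroDivisors_of_ne_zero fun e => by
    have h1 : IsUnit (ev p) := hp
    rw [e, map_zero] at h1
    exact not_isUnit_zero h1
  let D := Localization.subalgebra.ofField E S hS
  let ψ : D →+* K := IsLocalization.lift (M := S) (g := ev) fun s => s.2
  have hψ : ∀ p, ψ (algebraMap _ D p) = ev p := IsLocalization.lift_eq _
  have hm : ∀ i, y i ∈ D := fun i => hy i ▸ D.algebraMap_mem _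
  have hi : ∀ s : MvPolynomial (Fin 6) ℚ, ev s ≠ 0 → (algebraMap _ E s)⁻¹ ∈ D := fun s hs =>
    ⟨1, s, isUnit_iff_ne_zero.2 hs, by rw [map_one, one_mul]⟩
  have e5 : ev (MvPolynomial.X 0 * MvPolynomial.X 1 * MvPolynomial.X 2 * MvPolynomial.X 3 *
      MvPolynomial.X 4) = x' 0 * x' 1 * x' 2 * x' 3 * x' 4 := by simp [ev]
  have n5 : x' 0 * x' 1 * x' 2 * x' 3 * x' 4 ≠ 0 := by simp [hx]
  have hle : Algebra.adjoin ℚ (Set.range (p3_x y) ∪ {y 5, (y 5)⁻¹}) ≤ D.restrictScalars ℚ := by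
    refine Algebra.adjoin_le ?_
    rintro z (⟨i, rfl⟩ | rfl | rfl)
    · fin_cases i
      exacts [hm 0, hm 1, hm 2, hm 3, hm 4, mul_mem (pow_mem (hm 5) 3) (by
        have := hi _ (e5 ▸ n5)
        simp only [map_mul, ← hy] at this
        exact this)]
    · exact hm 5
    · rw [hy]
      exact hi _ (by simpa [ev] using h0)
  let φ : Algebra.adjoin ℚ (Set.range (p3_x y) ∪ {y 5, (y 5)⁻¹}) →+* K :=
    ψ.comp (Subalgebra.inclusion hle).toRingHom
  have hφ : ∀ i hi, φ ⟨y i, hi⟩ = ![x' 0, x' 1, x' 2, x' 3, x' 4, h'] i := fun i hi => by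
    have h1 : ψ ⟨y i, hm i⟩ = ev (MvPolynomial.X i) :=
      (congrArg ψ (Subtype.ext (hy i))).trans (hψ _)
    rw [MvPolynomial.eval₂Hom_X'] at h1
    exact h1
  refine ⟨φ, fun i hi => ?_, hφ 5⟩
  have mem : ∀ j, p3_x y j ∈ Algebra.adjoin ℚ (Set.range (p3_x y) ∪ {y 5, (y 5)⁻¹}) :=
    fun j => Algebra.subset_adjoin (Or.inl ⟨j, rfl⟩)
  have m5 : y 5 ∈ Algebra.adjoin ℚ (Set.range (p3_x y) ∪ {y 5, (y 5)⁻¹}) :=
    Algebra.subset_adjoin (Or.inr (Or.inl rfl))
  fin_cases i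
  · exact hφ 0 hi
  · exact hφ 1 hi
  · exact hφ 2 hi
  · exact hφ 3 hi
  · exact hφ 4 hi
  · have y0 : ∀ j, y j ≠ 0 := fun j => by
      rw [hy]
      exact (map_ne_zero_iff _ (IsFractionRing.injective _ E)).2 (MvPolynomial.X_ne_zero j)
    have h1 : (⟨y 0, mem 0⟩ * ⟨y 1, mem 1⟩ * ⟨y 2, mem 2⟩ * ⟨y 3, mem 3⟩ * ⟨y 4, mem 4⟩ *
        ⟨p3_x y 5, mem 5⟩ : Algebra.adjoin ℚ (Set.range (p3_x y) ∪ {y 5, (y 5)⁻¹})) =
        ⟨y 5, m5⟩ ^ 3 := Subtype.ext (by
      change y 0 * y 1 * y 2 * y 3 * y 4 * (y 5 ^ 3 * (y 0 * y 1 * y 2 * y 3 * y 4)⁻¹) = y 5 ^ 3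
      rw [mul_left_comm, mul_inv_cancel₀ (by simp [y0]), mul_one])
    have h2 := congrArg φ h1
    simp only [map_mul, map_pow] at h2
    rw [hφ 0 (mem 0), hφ 1 (mem 1), hφ 2 (mem 2), hφ 3 (mem 3), hφ 4 (mem 4), hφ 5 m5] at h2
    rw [Fin.prod_univ_six] at hp
    exact mul_left_cancel₀ n5 (h2.trans hp.symm)

/-- The generic parameters: `E = FractionRing (MvPolynomial (Fin 6) ℚ)` with `x 0, …, x 4, h` the
variables.  By `Par.unit_of_int` and the valuative criterion (`iInf_valuationSubring_superset`)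
all `x i`, `h`, `h⁻¹` are integral over the ring generated by the six coefficients, which are
algebraically independent by `indep_of_alg`. -/
theorem exists_generic : ∃ (E : Type) (_ : Field E) (_ : Algebra ℚ E) (a : Co E) (x : Fin 6 → E)
    (h : E), Par a x h ∧ AlgebraicIndependent ℚ ![a.q0, a.c, a.q2, a.r0, a.r1, a.e] ∧
    (∀ z ∈ Algebra.adjoin ℚ (Set.range x ∪ {h, h⁻¹}), IsIntegral
      (Algebra.adjoin ℚ (Set.range ![a.q0, a.c, a.q2, a.r0, a.r1, a.e])) z) ∧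
    ∀ (K : Type) [Field K] [CharZero K] (x' : Fin 6 → K) (h' : K), h' ≠ 0 → ∏ i, x' i = h' ^ 3 →
      ∃ φ : Algebra.adjoin ℚ (Set.range x ∪ {h, h⁻¹}) →+* K,
        (∀ i hi, φ ⟨x i, hi⟩ = x' i) ∧ ∀ hh, φ ⟨h, hh⟩ = h' := by
  let E := FractionRing (MvPolynomial (Fin 6) ℚ)
  let y : Fin 6 → E := fun i => algebraMap (MvPolynomial (Fin 6) ℚ) E (MvPolynomial.X i)
  have y0 : ∀ j, y j ≠ 0 := fun j =>
    (map_ne_zero_iff _ (IsFractionRing.injective _ E)).2 (MvPolynomial.X_ne_zero j)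
  have hP : Par (coR 4⁻¹ (y 5) (y 5)⁻¹ (es (p3_x y) 1) (es (p3_x y) 2) (es (p3_x y) 3)
      (es (p3_x y) 4) (es (p3_x y) 5)) (p3_x y) (y 5) := ⟨y0 5, by
    rw [Fin.prod_univ_six]
    change y 0 * y 1 * y 2 * y 3 * y 4 * (y 5 ^ 3 * (y 0 * y 1 * y 2 * y 3 * y 4)⁻¹) = y 5 ^ 3
    rw [mul_left_comm, mul_inv_cancel₀ (by simp [y0]), mul_one], rfl⟩
  generalize coR 4⁻¹ (y 5) (y 5)⁻¹ (es (p3_x y) 1) (es (p3_x y) 2) (es (p3_x y) 3)
      (es (p3_x y) 4) (es (p3_x y) 5) = a at hP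
  have hI := p3_int hP
  refine ⟨E, inferInstance, inferInstance, a, p3_x y, y 5, hP, ?_, hI,
    p3_spec (y := y) fun _ => rfl⟩
  have hy : AlgebraicIndependent ℚ y :=
    (MvPolynomial.algebraicIndependent_X (Fin 6) ℚ).map'
      (f := IsScalarTower.toAlgHom ℚ (MvPolynomial (Fin 6) ℚ) E) (IsFractionRing.injective _ E)
  have hp : ∀ p : MvPolynomial (Fin 6) ℚ, IsAlgebraic
      (Algebra.adjoin ℚ (Set.range ![a.q0, a.c, a.q2, a.r0, a.r1, a.e])) (algebraMap _ E p) := by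
    intro p
    refine (hI _ ?_).isAlgebraic
    induction p using MvPolynomial.induction_on with
    | C q =>
      rw [← MvPolynomial.algebraMap_eq, ← IsScalarTower.algebraMap_apply]
      exact Subalgebra.algebraMap_mem _ q
    | add p q hp hq => exact map_add (algebraMap _ E) p q ▸ add_mem hp hq
    | mul_X p i hp =>
      refine map_mul (algebraMap _ E) p _ ▸ mul_mem hp (Algebra.subset_adjoin ?_)
      fin_cases i
      exacts [Or.inl ⟨0, rfl⟩, Or.inl ⟨1, rfl⟩, Or.inl ⟨2, rfl⟩, Or.inl ⟨3, rfl⟩, Or.inl ⟨4, rfl⟩,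
        Or.inr (Or.inl rfl)]
  refine indep_of_alg hy fun z => ?_
  obtain ⟨p, q, -, rfl⟩ := IsFractionRing.div_surjective (A := MvPolynomial (Fin 6) ℚ) z
  rw [div_eq_mul_inv]
  exact (hp p).mul (hp q).inv

end Pool.Agent.Lib.MP_07b2d0_nt.G3
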