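import Pool.Agent.Lib.MP_07b2d0_nt.W.WPl

/-!
Expansions in power series at a place.
-/

set_option autoImplicit false
set_option linter.unusedSectionVars false

namespace Pool.Agent.Lib.MP_07b2d0_nt.G3

open Pool.Agent.Lib.MP_6adaea_nt W PowerSeries
open scoped Polynomial

variable {Ω F : Type} [Field Ω] [Field F] [Algebra Ω F] [IsAlgClosed Ω] [IsFF Ω F] [CharZero Ω]
  {v : Place Ω F} {U y z : F}

/-- The shift operator. -/
noncomputable def sh (v : Place Ω F) (U y : F) : F := (y - algebraMap Ω F (val v y)) / U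

/-- The expansion of `y` in powers of the uniformiser `U`. -/
noncomputable def ex (v : Place Ω F) (U y : F) : Ω⟦X⟧ := mk fun n => val v ((sh v U)^[n] y)

theorem ne_of_ord (hU : v.ord U = 1) : U ≠ 0 := by
  rintro rfl
  simp at hU

theorem sh_ge (hU : v.ord U = 1) (hy : v.Ge y 0) : v.Ge (sh v U y) 0 := by
  rw [sh, div_eq_mul_inv, Place.ge_mul_iff (inv_ne_zero (ne_of_ord hU)), Place.ord_inv, hU]
  exact val_spec hy

theorem ex_eq (v : Place Ω F) (U y : F) : ex v U y = C (val v y) + X * ex v U (sh v U y) := by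
  ext n
  cases n with
  | zero => simp [ex]
  | succ n => simp [ex, coeff_succ_X_mul]

theorem ex_dvd (hU : v.ord U = 1) (n : ℕ) : ∀ {y : F}, v.Ge y 0 → ∀ p : Polynomial Ω,
    (X ^ n ∣ ex v U y - (p : Ω⟦X⟧) ↔ v.Ge (y - Polynomial.aeval U p) n) := by
  have U0 := ne_of_ord hU
  have hp : ∀ p : Polynomial Ω, v.Ge (Polynomial.aeval U p) 0 := fun p =>
    Place.ge_of_mem_adjoin (s := {U}) (by rintro _ rfl; exact Or.inr (by omega))
      (Polynomial.aeval_mem_adjoin_singleton Ω U)
  induction n with
  | zero => exact fun hy p => ⟨fun _ => hy.sub (hp p), fun _ => by simp⟩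
  | succ n ih =>
    intro y hy p
    have h1 := ih (sh_ge hU hy) p.divX
    have e1 : ex v U y - (p : Ω⟦X⟧) =
        C (val v y - p.coeff 0) + X * (ex v U (sh v U y) - (p.divX : Ω⟦X⟧)) := by
      conv_lhs => rw [ex_eq, ← Polynomial.X_mul_divX_add p]
      simp only [Polynomial.coe_add, Polynomial.coe_mul, Polynomial.coe_X, Polynomial.coe_C, map_sub]
      ring
    have e2 : y - Polynomial.aeval U p =
        algebraMap Ω F (val v y - p.coeff 0) + (sh v U y - Polynomial.aeval U p.divX) * U := by
      conv_lhs => rw [← Polynomial.X_mul_divX_add p]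
      simp only [map_add, map_mul, Polynomial.aeval_X, Polynomial.aeval_C, map_sub, sh]
      field_simp
      ring
    have h2 : v.Ge ((sh v U y - Polynomial.aeval U p.divX) * U) 1 := by
      simpa using ((sh_ge hU hy).sub (hp _)).mul (Place.Ge.of_le hU.ge)
    rw [e1, e2]
    constructor
    · intro h
      have h3 : val v y - p.coeff 0 = 0 := by
        simpa using (X_dvd_iff.1 ((dvd_pow_self X n.succ_ne_zero).trans h))
      rw [h3, map_zero, zero_add, pow_succ', mul_dvd_mul_iff_left X_ne_zero, h1] at h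
      rw [h3, map_zero, zero_add, Place.ge_mul_iff U0, hU]
      simpa using h
    · intro h
      have h3 : val v y - p.coeff 0 = 0 := Place.const_eq_zero_of_ge (v := v) (by
        simpa using (h.mono (m' := 1) (by omega)).sub h2)
      rw [h3, map_zero, zero_add, Place.ge_mul_iff U0, hU] at h
      rw [h3, map_zero, zero_add, pow_succ', mul_dvd_mul_iff_left X_ne_zero, h1]
      simpa using h

theorem dvd_trunc {R : Type} [CommRing R] (n : ℕ) (f : R⟦X⟧) : X ^ n ∣ f - (trunc n f : R⟦X⟧) :=
  ⟨_, sub_eq_of_eq_add (eq_X_pow_mul_shift_add_trunc n f)⟩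

theorem eq_of_dvd {R : Type} [CommRing R] {f g : R⟦X⟧} (h : ∀ n, X ^ n ∣ f - g) : f = g := by
  ext n
  have := X_pow_dvd_iff.1 (h (n + 1)) n n.lt_succ_self
  rwa [map_sub, sub_eq_zero] at this

theorem ex_add (hU : v.ord U = 1) (hy : v.Ge y 0) (hz : v.Ge z 0) :
    ex v U (y + z) = ex v U y + ex v U z := eq_of_dvd fun n => by
  have h1 := dvd_trunc n (ex v U y)
  have h2 := dvd_trunc n (ex v U z)
  have h3 := (ex_dvd hU n (hy.add hz) (trunc n (ex v U y) + trunc n (ex v U z))).2 (by
    rw [map_add, add_sub_add_comm]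
    exact ((ex_dvd hU n hy _).1 h1).add ((ex_dvd hU n hz _).1 h2))
  refine ((h3.sub h1).sub h2).trans (dvd_of_eq ?_)
  rw [Polynomial.coe_add]
  ring

theorem ex_mul (hU : v.ord U = 1) (hy : v.Ge y 0) (hz : v.Ge z 0) :
    ex v U (y * z) = ex v U y * ex v U z := eq_of_dvd fun n => by
  have h1 := dvd_trunc n (ex v U y)
  have h2 := dvd_trunc n (ex v U z)
  have h4 := (ex_dvd hU n hy _).1 h1
  have h5 := (ex_dvd hU n hz _).1 h2
  have h6 : v.Ge (Polynomial.aeval U (trunc n (ex v U y))) 0 := by
    simpa using hy.sub (h4.mono (Int.natCast_nonneg n))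
  have h3 := (ex_dvd hU n (ge_mul_zero hy hz) (trunc n (ex v U y) * trunc n (ex v U z))).2 (by
    have := (h4.mul hz).add ((h6.mul h5).mono (by simp))
    rw [add_zero] at this
    rw [map_mul]
    exact (congrArg (v.Ge · n) (by ring)).mp this)
  refine ((h3.sub (h1.mul_right (ex v U z))).sub
    (h2.mul_left (trunc n (ex v U y) : Ω⟦X⟧))).trans (dvd_of_eq ?_)
  rw [Polynomial.coe_mul]
  ring

theorem ex_poly (hU : v.ord U = 1) (p : Polynomial Ω) : ex v U (Polynomial.aeval U p) = p :=
  eq_of_dvd fun n => (ex_dvd hU n (Place.ge_of_mem_adjoin (s := {U})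
    (by rintro _ rfl; exact Or.inr (by omega)) (Polynomial.aeval_mem_adjoin_singleton Ω U)) p).2
    (by simp)

theorem ex_const (hU : v.ord U = 1) (c : Ω) : ex v U (algebraMap Ω F c) = C c := by
  simpa using ex_poly hU (Polynomial.C c)

theorem ex_self (hU : v.ord U = 1) : ex v U U = X := by simpa using ex_poly hU Polynomial.X

theorem ex_dvd_iff (hU : v.ord U = 1) (hy : v.Ge y 0) (n : ℕ) : X ^ n ∣ ex v U y ↔ v.Ge y n := by
  simpa using ex_dvd hU n hy 0

/-- The series whose first `n` coefficients lie in `O`. -/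
def serLow (O : Subring Ω) (n : ℕ) : Subring Ω⟦X⟧ where
  carrier := {f | ∀ j < n, coeff j f ∈ O}
  zero_mem' j _ := by simp
  one_mem' j _ := by
    rw [coeff_one]
    split_ifs
    exacts [one_mem _, zero_mem _]
  add_mem' ha hb j hj := by rw [map_add]; exact add_mem (ha j hj) (hb j hj)
  neg_mem' ha j hj := by rw [map_neg]; exact neg_mem (ha j hj)
  mul_mem' ha hb j hj := by
    rw [coeff_mul]
    exact sum_mem fun p hp => by
      have := Finset.HasAntidiagonal.mem_antidiagonal.1 hp
      exact mul_mem (ha _ (by omega)) (hb _ (by omega))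

theorem ser_X_mul {O : Subring Ω} {n : ℕ} {f : Ω⟦X⟧} : X * f ∈ serLow O (n + 1) ↔ f ∈ serLow O n := by
  refine ⟨fun h j hj => by simpa [coeff_succ_X_mul] using h (j + 1) (by omega), fun h j hj => ?_⟩
  cases j with
  | zero => simp
  | succ j => rw [coeff_succ_X_mul]; exact h j (by omega)

/-- The expansion of the elements of `O[U, W]` has coefficients in `O`. -/
theorem exists_exp (O : Subring Ω) {W α β δ : F} (hU : v.ord U = 1) (hW : v.Ge W 1)
    (hα : α ∈ Algebra.adjoin O {U, W}) (hβ : β ∈ Algebra.adjoin O {U, W})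
    (hδ : δ ∈ Algebra.adjoin O {U, W}) (h : W = U * α + W * (U * β + W * δ)) :
    ∃ Θ : Algebra.adjoin O {U, W} →ₐ[O] O⟦X⟧,
      (∀ y : Algebra.adjoin O {U, W}, y.1 = U → Θ y = X) ∧
      ∀ (y : Algebra.adjoin O {U, W}) (n : ℕ), X ^ n ∣ Θ y ↔ v.Ge y.1 n := by
  have hU0 : v.Ge U 0 := Or.inr (by omega)
  have hW0 : v.Ge W 0 := hW.mono zero_le_one
  have hA : ∀ y ∈ Algebra.adjoin O {U, W}, v.Ge y 0 := fun y hy => by
    induction hy using Algebra.adjoin_induction with
    | mem a ha => rcases ha with rfl | rfl; exacts [hU0, hW0]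
    | algebraMap c => exact v.ge_const c.1
    | add a b _ _ ha hb => exact ha.add hb
    | mul a b _ _ ha hb => exact ge_mul_zero ha hb
  have h1 : ∀ n, ex v U W ∈ serLow O n → ∀ y ∈ Algebra.adjoin O {U, W}, ex v U y ∈ serLow O n :=
    fun n hn y hy => by
    induction hy using Algebra.adjoin_induction with
    | mem a ha =>
      rcases ha with rfl | rfl
      · rw [ex_self hU]
        intro j _
        rw [coeff_X]
        split_ifs
        exacts [one_mem _, zero_mem _]
      · exact hn
    | algebraMap c =>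
      rw [show algebraMap O F c = algebraMap Ω F c from rfl, ex_const hU]
      intro j _
      rw [coeff_C]
      split_ifs
      exacts [c.2, zero_mem _]
    | add a b ha hb ha' hb' => rw [ex_add hU (hA a ha) (hA b hb)]; exact add_mem ha' hb'
    | mul a b ha hb ha' hb' => rw [ex_mul hU (hA a ha) (hA b hb)]; exact mul_mem ha' hb'
  have h2 : ∀ n, ex v U W ∈ serLow O n := fun n => by
    induction n with
    | zero => exact fun j hj => absurd hj (Nat.not_lt_zero j)
    | succ n ih =>
      obtain ⟨ω, hω⟩ := (ex_dvd_iff hU hW0 1).2 hW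
      have e : ex v U W = X * (ex v U α + ex v U W * ex v U β + ω * (ex v U W * ex v U δ)) := by
        have a1 := ge_mul_zero hU0 (hA β hβ)
        have a2 := ge_mul_zero hW0 (hA δ hδ)
        conv_lhs => rw [h, ex_add hU (ge_mul_zero hU0 (hA α hα)) (ge_mul_zero hW0 (a1.add a2)),
          ex_mul hU hU0 (hA α hα), ex_mul hU hW0 (a1.add a2), ex_add hU a1 a2,
          ex_mul hU hU0 (hA β hβ), ex_mul hU hW0 (hA δ hδ), ex_self hU]
        rw [pow_one] at hω
        linear_combination (ex v U W * ex v U δ) * hω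
      rw [e, ser_X_mul]
      refine add_mem (add_mem (h1 n ih α hα) (mul_mem ih (h1 n ih β hβ))) ?_
      rw [pow_one] at hω
      have e2 : ω * (ex v U W * ex v U δ) = X * (ω * (X * (ω * 0) + ω * ex v U δ)) := by
        rw [hω]; ring
      cases n with
      | zero => exact fun j hj => absurd hj (Nat.not_lt_zero j)
      | succ n =>
        have h3 : ω ∈ serLow O n := ser_X_mul.1 (hω ▸ ih)
        rw [e2, ser_X_mul, mul_zero, mul_zero, zero_add]
        exact mul_mem h3 (mul_mem h3 fun j hj => h1 _ ih δ hδ j (by omega))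
  have h3 : ∀ (y : Algebra.adjoin O {U, W}) j, coeff j (ex v U y.1) ∈ O := fun y j =>
    h1 (j + 1) (h2 _) y.1 y.2 j j.lt_succ_self
  let θ : Algebra.adjoin O {U, W} → O⟦X⟧ := fun y => mk fun j => ⟨_, h3 y j⟩
  have h4 : ∀ y, map O.subtype (θ y) = ex v U y.1 := fun y => by
    ext j
    simp [θ]
  have h5 := map_injective O.subtype Subtype.val_injective
  refine ⟨{ toFun := θ
            map_one' := h5 (by rw [h4, map_one]; simpa using ex_const (v := v) hU 1)
            map_mul' := fun a b => h5 (by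
              rw [map_mul, h4, h4, h4]; exact ex_mul hU (hA _ a.2) (hA _ b.2))
            map_zero' := h5 (by rw [h4, map_zero]; simpa using ex_const (v := v) hU 0)
            map_add' := fun a b => h5 (by
              rw [map_add, h4, h4, h4]; exact ex_add hU (hA _ a.2) (hA _ b.2))
            commutes' := fun c => h5 (by
              rw [h4]
              exact (ex_const hU c.1).trans (map_C O.subtype c).symm) },
    fun y hy => h5 ((h4 y).trans (by rw [hy, ex_self hU, map_X])), fun y n => ?_⟩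
  change X ^ n ∣ θ y ↔ _
  rw [← ex_dvd_iff hU (hA _ y.2), ← h4, X_pow_dvd_iff, X_pow_dvd_iff]
  exact forall₂_congr fun j _ => by
    rw [coeff_map]
    exact (map_eq_zero_iff O.subtype Subtype.val_injective).symm

end Pool.Agent.Lib.MP_07b2d0_nt.G3
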