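import Pool.Agent.Lib.MP_07b2d0_nt.Fh.St

/-!
Jacobians of plane curves.
-/

set_option autoImplicit false

namespace Pool.Agent.Lib.MP_07b2d0_nt.St

open CategoryTheory AlgebraicGeometry MvPolynomial WithZero

/-- `A` is an abelian scheme of relative dimension three over `B` whose fibre over `k` is the
Jacobian of the curve `f(x, y) = 0`. -/
structure PlJac {B k : Type} [CommRing B] [Field k] (b : B →+* k) (f : MvPolynomial (Fin 2) k)
    (A : Over (Spec (.of B))) : Prop where
  proper : IsProper A.hom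
  smooth : SmoothOfRelativeDimension 3 A.hom
  jac : ∃ (_ : GrpObj A) (_ : IsCommMonObj A) (j : _),
    IsJac b (Ideal.Quotient.mk (Ideal.span {f}) (X 0)) A j

/-- The function field `F = Ω(x, y)` of the curve `f(x, y) = 0` contains a function with no zero
or pole at the places where `x` and `y` are finite and with odd order at some place. -/
def OddUnit {Ω : Type} [Field Ω] (f : MvPolynomial (Fin 2) Ω) : Prop :=
  ∃ (F : Type) (_ : Field F) (_ : Algebra Ω F) (z : Fin 2 → F) (φ : F),
    Transcendental Ω (z 0) ∧ IntermediateField.adjoin Ω (Set.range z) = ⊤ ∧ aeval z f = 0 ∧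
    φ ≠ 0 ∧ (∀ v : Plc Ω F, (∀ i, v.1 (z i) ≤ 1) → v.1 φ = 1) ∧
    ∃ v : Plc Ω F, Odd (log (v.1 φ))

end Pool.Agent.Lib.MP_07b2d0_nt.St
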