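import Pool.Agent.Lib.MP_07b2d0_nt.G3.Gn2
import Pool.Agent.Lib.MP_07b2d0_nt.G3.H
import Pool.Agent.Lib.MP_07b2d0_nt.G3.Ar3
import Pool.Agent.Lib.MP_07b2d0_nt.Fh.StB

/-!
The effective bound for the Faltings height.
-/

set_option autoImplicit false

namespace Pool.Agent.Lib.MP_07b2d0_nt.G3

open CategoryTheory AlgebraicGeometry NumberField Fh MvPolynomial

theorem of_plJac {B k : Type} [CommRing B] [Field k] {b : B →+* k} {f : MvPolynomial (Fin 2) k}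
    {A : Over (Spec (.of B))} (h : St.PlJac b f A) :
    ∃ (_ : GrpObj A) (_ : IsCommMonObj A) (_ : IsProper A.hom)
      (j : Fh.sp ((algebraMap k (MvPolynomial (Fin 2) k ⧸ Ideal.span {f})).comp b) ⟶ A),
      Kh.IsJ b (Ideal.Quotient.mk (Ideal.span {f}) (X 0)) A j := by
  obtain ⟨h1, -, i1, i2, j, h⟩ := h
  refine ⟨i1, i2, h1, j, fun Ω F _ _ _ _ _ ρ h2 h3 h4 => ?_⟩
  obtain ⟨val, ⟨h5, h6⟩, h7⟩ := h Ω F ρ h2 h3 h4
  exact ⟨val, h7, h5, h6⟩

theorem exists_chg {k K : Type} [Field k] [CharZero k] [Field K] (i : k →+* K)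
    {f : MvPolynomial (Fin 2) k} (hf : (f - X 0 ^ 2 * X 1 ^ 2).totalDegree ≤ 3)
    (h3 : ∀ n, f.coeff (Finsupp.single n 3) ≠ 0) {m : K}
    (hm : m ^ 3 = i (f.coeff (Finsupp.single 1 3) * f.coeff (Finsupp.single 0 3) ^ 2)) :
    ∃ (a : Co K) (α β : k) (c : K),
      Chg i f a (m ^ 2 / i (f.coeff (Finsupp.single 0 3))) (i α) m (i β) c := by
  obtain ⟨a, α, β, h⟩ := exists_co i hf (h3 0) (h3 1) hm
  have h0 : m ≠ 0 := fun e => (map_ne_zero i).2 (mul_ne_zero (h3 1) (pow_ne_zero 2 (h3 0)))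
    (by rw [← hm, e, zero_pow three_ne_zero])
  have h1 := div_ne_zero (pow_ne_zero 2 h0) ((map_ne_zero i).2 (h3 0))
  exact ⟨a, α, β, _, h1, h0, mul_ne_zero (pow_ne_zero 2 h1) (pow_ne_zero 2 h0), h⟩

theorem Odd1.down {Ω : Type} [Field Ω] [IsAlgClosed Ω] {a : Co Ω}
    (h : Odd1 (a.up (AlgebraicClosure Ω))) : Odd1 a := by
  let e := RingEquiv.ofBijective (algebraMap Ω (AlgebraicClosure Ω))
    IsAlgClosed.algebraMap_bijective_of_isIntegral
  have := h.map e.symm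
  rwa [Co.map_map, show (e.symm : AlgebraicClosure Ω →+* Ω).comp
    (algebraMap Ω (AlgebraicClosure Ω)) = RingHom.id Ω from RingHom.ext e.symm_apply_apply] at this

theorem quartic_main : ∃ c : ℕ → ℕ → ℕ, Computable₂ c ∧
    ∀ (N : ℕ) (k : Type) [Field k] [NumberField k] (A : Over (Spec (.of (ON k N))))
      (f : MvPolynomial (Fin 2) k),
      0 < N → (∀ p : ℕ, p.Prime → (p : ℤ) ∣ discr k → p ∣ N) →
      (f - X 0 ^ 2 * X 1 ^ 2).totalDegree ≤ 3 →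
      (∀ n, f.coeff (Finsupp.single n 3) ≠ 0) →
      (∀ z : Fin 2 → AlgebraicClosure k, aeval z f = 0 → ∃ n, aeval z (pderiv n f) ≠ 0) →
      St.OddUnit (f.map (algebraMap k (AlgebraicClosure k))) →
      St.PlJac (algebraMap (ON k N) k) f A →
      HLe 3 (algebraMap (ON k N) k) A (c N (Module.finrank ℚ k)) := by
  obtain ⟨c₁, p1, h1⟩ := arith_main
  obtain ⟨c₂, p2, h2⟩ := hLe_of_ht
  refine ⟨fun N D => c₂ (c₁ (6 * N, 6 * D)), (p2.comp (p1.comp (.pair (pr_mul (.const 6) .fst)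
    (pr_mul (.const 6) .snd)))).to_comp, fun N k _ _ A f hN hk hf h3 hs hO hA => ?_⟩
  obtain ⟨_, _, _, j, hJ⟩ := of_plJac hA
  set d := f.coeff (Finsupp.single 1 3) * f.coeff (Finsupp.single 0 3) ^ 2 with hd
  have d0 : d ≠ 0 := mul_ne_zero (h3 1) (pow_ne_zero 2 (h3 0))
  obtain ⟨K, _, _, _, k1, k2, k3⟩ := exists_field_of_fix (M := 6 * N)
    (f := Polynomial.X ^ 3 - Polynomial.C d) (fun p hp e => (hk p hp e).mul_left _)
    (Polynomial.separable_X_pow_sub_C d (by norm_num) d0) fun σ hσ r hr => by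
      have hr' : r ^ 3 = algebraMap k _ d := by simpa [sub_eq_zero] using hr
      obtain ⟨a, α, β, c, hc⟩ := exists_chg (algebraMap k (AlgebraicClosure k)) hf h3 hr'
      exact fix_cube hJ hN (h3 0) hr' hc.prs (hc.sm hs) (hc.odd (hc.sm hs) hO).down hσ
  obtain ⟨m, hm⟩ := k3.exists_eval_eq_zero (by
    rw [Polynomial.degree_map, Polynomial.degree_X_pow_sub_C three_pos]
    decide)
  obtain ⟨a, α, β, c, hc⟩ := exists_chg (algebraMap k K) hf h3 (m := m)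
    (by simpa [sub_eq_zero, hd] using hm)
  rw [Polynomial.natDegree_X_pow_sub_C] at k1
  exact h2 _ k K _ _ A j _ _ _ a _ _ _ _ _ hJ hc.prs (hc.sm hs)
    (h1 K (6 * N) _ a ((good_of_isJ hJ hc.prs hN).mono ⟨3, by ring⟩ (by omega)) (hc.sm hs)
      ⟨3 * N, by ring⟩ (by omega) k2 k1 (hc.odd (hc.sm hs) hO))

end Pool.Agent.Lib.MP_07b2d0_nt.G3
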