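import Pool.Agent.Lib.MP_07b2d0_nt.W.WDiv
import Pool.Agent.Lib.MP_07b2d0_nt.W.WRec
import Pool.Agent.Lib.MP_07b2d0_nt.W.WRie

/-!
Values of functions with an even divisor have invariant square roots.
-/

set_option autoImplicit false

namespace Pool.Agent.Lib.MP_07b2d0_nt.G3

open Pool.Agent.Lib.MP_6adaea_nt W

variable {Ω F : Type} [Field Ω] [Field F] [Algebra Ω F] [IsAlgClosed Ω] [IsFF Ω F] [CharZero Ω]

/-- The automorphism fixes every class of degree zero whose double it fixes. -/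
def Hf (s : SA Ω F) : Prop :=
  ∀ D : Dv Ω F, deg D = 0 → cl (s.dm (2 • D)) = cl (2 • D) → cl (s.dm D) = cl D

variable {s : SA Ω F}

/-- Lemma U. -/
theorem Hf.sqrt (h : Hf s) {g : F} (hg : s.γ g = g) (he : ∀ v : Place Ω F, Even (v.ord g))
    {D : Dv Ω F} (hD : s.dm D = D) (h0 : deg D = 0) (hj : Dj g D) {r : Ω}
    (hr : r ^ 2 = evD g D) : s.a r = r := by
  have g0 := hj.1
  obtain ⟨E, hE⟩ : ∃ E : Dv Ω F, dv Ω g = 2 • E :=
    ⟨(dv Ω g).mapRange (· / 2) (Int.zero_ediv _), Finsupp.ext fun v => by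
      obtain ⟨m, hm⟩ := he v
      rw [Finsupp.smul_apply, Finsupp.mapRange_apply, dv_apply, hm, nsmul_eq_mul]
      push_cast
      omega⟩
  have tf : ∀ {A B : Dv Ω F}, 2 • A = 2 • B → A = B := fun hAB =>
    nsmul_right_injective two_ne_zero hAB
  have hsE : s.dm E = E := tf (by rw [← map_nsmul, ← hE, s.dm_dv, hg])
  have dE : deg E = 0 := by
    have := deg_dv (k := Ω) g
    rw [hE, map_nsmul, nsmul_eq_mul] at this
    omega
  obtain ⟨D₁, f, f0, hf⟩ := pic_div (n := 2) (by norm_num) h0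
  obtain ⟨f', f0', hf'⟩ := move D₁ (dv Ω g).support
  obtain ⟨D', ψ, ψ0, hψ, j1⟩ : ∃ (D' : Dv Ω F) (ψ : F), ψ ≠ 0 ∧ D = 2 • D' + dv Ω ψ ∧ Dj g D' :=
    ⟨D₁ + dv Ω f', f / f' ^ 2, div_ne_zero f0 (pow_ne_zero _ f0'), by
      rw [dv_div f0 (pow_ne_zero _ f0'), dv_pow, hf, nsmul_add]
      abel, g0, fun v hv => by_contra fun hc => hv (hf' v (Finsupp.mem_support_iff.2 hc))⟩
  have dD : deg D' = 0 := by
    rw [hψ, map_add, deg_dv, map_nsmul, nsmul_eq_mul] at h0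
    omega
  have sψ0 : s.γ ψ ≠ 0 := (map_ne_zero s.γ).2 ψ0
  have h1 : s.dm (2 • D') + dv Ω (s.γ ψ) = 2 • D' + dv Ω ψ := by
    rw [← s.dm_dv, ← map_add, ← hψ, hD]
  obtain ⟨χ, χ0, hχ⟩ := cl_eq.1 (h D' dD (by
    have := congrArg cl h1
    rwa [map_add, map_add, cl_dv sψ0, cl_dv ψ0, add_zero, add_zero] at this))
  have j2 : Dj g (s.dm D') := by
    have := s.dj.2 j1
    rwa [hg] at this
  have j3 : Dj g (dv Ω χ) := hχ ▸ j2.sub j1
  have j4 : Dj g (dv Ω ψ) := by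
    rw [show dv Ω ψ = D - 2 • D' by rw [hψ, add_sub_cancel_left]]
    exact hj.sub (j1.nsmul 2)
  have sE : ∀ v, E v ≠ 0 → dv Ω g v ≠ 0 := fun v hv => by
    rw [hE, Finsupp.smul_apply, nsmul_eq_mul]
    omega
  have j5 : Dj ψ E := (dj_dv_symm ψ0 j4).of_supp sE
  have j6 : Dj χ E := (dj_dv_symm χ0 j3).of_supp sE
  have h2 : r ^ 2 = (evD g D' * evD ψ E) ^ 2 := by
    rw [hr, hψ, evD_add (j1.nsmul 2) j4, evD_nsmul j1, recip ψ0 j4, hE, evD_nsmul j5, mul_pow]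
  have h3 : dv Ω (s.γ ψ) = dv Ω (ψ / χ ^ 2) := by
    rw [dv_div ψ0 (pow_ne_zero _ χ0), dv_pow, hχ, nsmul_sub, ← map_nsmul,
      eq_sub_of_add_eq' h1]
    abel
  have h4 : s.a (evD g D' * evD ψ E) = evD g D' * evD ψ E := by
    rw [map_mul, ← s.evD, ← s.evD, hg, hsE, (evD_congr sψ0 (j5.div (j6.pow 2)) h3 dE).2,
      eq_add_of_sub_eq hχ.symm, evD_add j3 j1, recip χ0 j3, hE, evD_nsmul j6,
      evD_div j5 (j6.pow 2), evD_pow j6]
    have := evD_ne_zero j6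
    field_simp
  rcases sq_eq_sq_iff_eq_or_eq_neg.1 h2 with rfl | rfl
  · exact h4
  · rw [map_neg, h4]

/-- The action on functions with an even divisor is trivial modulo squares. -/
theorem Hf.tate (h : Hf s) {g : F} (g0 : g ≠ 0) (he : ∀ v : Place Ω F, Even (v.ord g)) :
    ∃ ψ : F, s.γ g = g * ψ ^ 2 := by
  obtain ⟨E, hE⟩ : ∃ E : Dv Ω F, dv Ω g = 2 • E :=
    ⟨(dv Ω g).mapRange (· / 2) (Int.zero_ediv _), Finsupp.ext fun v => by
      obtain ⟨m, hm⟩ := he v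
      rw [Finsupp.smul_apply, Finsupp.mapRange_apply, dv_apply, hm, nsmul_eq_mul]
      push_cast
      omega⟩
  have dE : deg E = 0 := by
    have := deg_dv (k := Ω) g
    rw [hE, map_nsmul, nsmul_eq_mul] at this
    omega
  have sg0 : s.γ g ≠ 0 := (map_ne_zero s.γ).2 g0
  obtain ⟨χ, χ0, hχ⟩ := cl_eq.1 (h E dE (by rw [← hE, s.dm_dv, cl_dv sg0, cl_dv g0]))
  have h1 : g * χ ^ 2 ≠ 0 := mul_ne_zero g0 (pow_ne_zero _ χ0)
  obtain ⟨c, hc⟩ := const_of_dv (k := Ω) (f := s.γ g / (g * χ ^ 2)) (by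
    rw [dv_div sg0 h1, dv_mul g0 (pow_ne_zero _ χ0), dv_pow, hχ, ← s.dm_dv, hE, map_nsmul,
      nsmul_sub]
    abel)
  obtain ⟨d, rfl⟩ := IsAlgClosed.exists_pow_nat_eq c two_pos
  exact ⟨χ * algebraMap Ω F d, by rw [mul_pow, ← map_pow, ← hc, ← mul_assoc, mul_div_cancel₀ _ h1]⟩

/-- Lemma U for the difference of two places. -/
theorem Hf.sqrt_two (h : Hf s) {g : F} (hg : s.γ g = g) (he : ∀ v : Place Ω F, Even (v.ord g))
    {v w : Place Ω F} (hv : s.pl v = v) (hw : s.pl w = w) {b r : Ω} (b0 : b ≠ 0)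
    (hb : val w g = b ^ 2) (hsb : s.a b = b) (hr : r ^ 2 = val v g) : s.a r = r := by
  rcases eq_or_ne r 0 with rfl | r0
  · exact map_zero _
  obtain ⟨g0, h1⟩ := ord_of_val_ne (v := v) (f := g) (hr ▸ pow_ne_zero 2 r0)
  obtain ⟨-, h2⟩ := ord_of_val_ne (v := w) (f := g) (hb ▸ pow_ne_zero 2 b0)
  have j1 := dj_single g0 h1 1
  have j2 := dj_single g0 h2 1
  have := h.sqrt hg he (D := Finsupp.single v 1 - Finsupp.single w 1)
    (by rw [map_sub, s.dm_single, s.dm_single, hv, hw])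
    (by rw [map_sub, deg_single, deg_single, sub_self]) (j1.sub j2) (r := r / b)
    (by rw [evD_sub j1 j2, evD_single, evD_single, zpow_one, zpow_one, hb, ← hr, div_pow])
  rwa [map_div₀, hsb, div_left_inj' b0] at this

end Pool.Agent.Lib.MP_07b2d0_nt.G3
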