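import Pool.Agent.Lib.MP_07b2d0_nt.G3.U
import Pool.Agent.Lib.MP_07b2d0_nt.Fh.Tate
import Pool.Agent.Lib.MP_07b2d0_nt.Kh.Defs

/-!
Inertia groups fix the divisor classes whose double they fix.
-/

set_option autoImplicit false

namespace Pool.Agent.Lib.MP_07b2d0_nt.G3

open CategoryTheory AlgebraicGeometry WithZero NumberField Fh
open Pool.Agent.Lib.MP_6adaea_nt W
open scoped MonObj

section dict

variable {Ω F : Type} [Field Ω] [Field F] [Algebra Ω F]

theorem plc_const (v : Plc Ω F) {c : Ω} (hc : c ≠ 0) : v.1 (algebraMap Ω F c) = 1 := by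
  refine le_antisymm (v.2.2 c) ?_
  have := v.2.2 c⁻¹
  rwa [map_inv₀, map_inv₀, inv_le_one₀ (zero_lt_iff.2 (by simpa using hc))] at this

/-- The place given by a normalised valuation. -/
noncomputable def toPl (v : Plc Ω F) : Place Ω F where
  ord x := -log (v.1 x)
  ord_zero := by simp
  ord_mul hf hg := by
    rw [map_mul, log_mul ((map_ne_zero v.1).2 hf) ((map_ne_zero v.1).2 hg), neg_add]
  ord_add {f g} hf hg hs := by
    have h1 := (map_ne_zero v.1).2 hs
    rcases le_max_iff.1 (v.1.map_add f g) with h | h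
    · exact (min_le_left _ _).trans (neg_le_neg ((log_le_log h1 ((map_ne_zero v.1).2 hf)).2 h))
    · exact (min_le_right _ _).trans (neg_le_neg ((log_le_log h1 ((map_ne_zero v.1).2 hg)).2 h))
  ord_const c := by
    rcases eq_or_ne c 0 with rfl | hc
    · simp
    · rw [plc_const v hc, log_one, neg_zero]
  surj := by
    obtain ⟨t, ht⟩ := v.2.1 (exp (-1))
    exact ⟨t, fun h => exp_ne_zero (ht.symm.trans (h ▸ map_zero _)), by simp [ht]⟩

open Classical in
/-- The valuation given by a place. -/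
noncomputable def ofPl (w : Place Ω F) : Plc Ω F :=
  ⟨{ toFun := fun x => if x = 0 then 0 else exp (-w.ord x)
     map_zero' := if_pos rfl
     map_one' := by simp
     map_mul' := fun x y => by
      by_cases hx : x = 0
      · simp [hx]
      by_cases hy : y = 0
      · simp [hy]
      rw [if_neg (mul_ne_zero hx hy), if_neg hx, if_neg hy, w.ord_mul hx hy, neg_add, exp_add]
     map_add_le_max' := fun x y => by
      by_cases hx : x = 0
      · simp [hx]
      by_cases hy : y = 0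
      · simp [hy]
      by_cases hs : x + y = 0
      · simp [hs]
      change (if x + y = 0 then 0 else exp (-w.ord (x + y))) ≤
        max (if x = 0 then 0 else exp (-w.ord x)) (if y = 0 then 0 else exp (-w.ord y))
      rw [if_neg hs, if_neg hx, if_neg hy, le_max_iff, exp_le_exp, exp_le_exp]
      have := w.ord_add hx hy hs
      omega },
    fun t => by
      rcases eq_or_ne t 0 with rfl | ht
      · exact ⟨0, if_pos rfl⟩
      · obtain ⟨x, h0, h1⟩ := w.exists_ord_eq (-log t)
        exact ⟨x, (if_neg h0).trans (by rw [h1, neg_neg, exp_log ht])⟩,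
    fun c => by
      change (if _ then _ else _) ≤ _
      split_ifs
      · exact zero_le
      · simp⟩

/-- The two notions of place agree. -/
noncomputable def plE : Plc Ω F ≃ Place Ω F where
  toFun := toPl
  invFun := ofPl
  left_inv v := Subtype.ext (Valuation.ext fun x => by
    rcases eq_or_ne x 0 with rfl | hx
    · rw [map_zero, map_zero]
    · exact (if_neg hx).trans ((congrArg exp (neg_neg _)).trans (exp_log ((map_ne_zero v.1).2 hx))))
  right_inv w := Place.ext (funext fun x => by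
    rcases eq_or_ne x 0 with rfl | hx
    · rw [Place.ord_zero', Place.ord_zero']
    · exact (congrArg (fun t => -log t) (if_neg hx)).trans (by simp))

theorem plE_ord (v : Plc Ω F) (x : F) : (plE v).ord x = -log (v.1 x) := rfl

theorem plE_act (s : SA Ω F) (v : Plc Ω F) : plE (Plc.act s.a s.γ s.h v) = s.pl (plE v) := rfl

end dict

/-- An endomorphism of a valued field that is trivial on the residue field fixes the points
whose `m`-th multiple it fixes. -/
theorem nos' {B : Type} [CommRing B] {A : Over (Spec (.of B))} [GrpObj A] [IsCommMonObj A]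
    [IsProper A.hom] {F : Type} [Field F] (O : ValuationSubring F) (φ : B →+* O)
    (σ : F →+* F) (τ : O →+* O) (hστ : ∀ a, (τ a : F) = σ a) (hφ : τ.comp φ = φ)
    (hr : ∀ a, IsLocalRing.residue O (τ a) = IsLocalRing.residue O a) {m : ℕ}
    (hm : IsUnit (m : O)) (hσ : σ.comp (O.subtype.comp φ) = O.subtype.comp φ)
    {P : sp (O.subtype.comp φ) ⟶ A} (hP : pm A σ hσ (P ^ m) = P ^ m) : pm A σ hσ P = P := by
  obtain ⟨Q, rfl⟩ := vc_exists O φ P
  change pm A σ hσ (pm A O.subtype rfl Q ^ m) = pm A O.subtype rfl Q ^ m at hP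
  change pm A σ hσ (pm A O.subtype rfl Q) = pm A O.subtype rfl Q
  have key : ∀ Q : sp φ ⟶ A,
      pm A σ hσ (pm A O.subtype rfl Q) = pm A O.subtype rfl (pm A τ hφ Q) := fun Q => by
    rw [pm_pm _ rfl σ hσ hσ, pm_congr (χ := O.subtype.comp τ) (RingHom.ext fun a => (hστ a).symm) _
      (by rw [RingHom.comp_assoc, hφ]), ← pm_pm τ hφ O.subtype rfl]
  rw [← map_pow, key] at hP
  have hQ : pm A τ hφ (Q ^ m) = Q ^ m := vc_unique O (congrArg (fun P => P.left) hP)
  have h : pm A τ hφ Q / Q = 1 := nos_ker hm (by rw [div_pow, ← map_pow, hQ, div_self']) (by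
    rw [map_div, pm_pm τ hφ _ rfl (by rw [RingHom.comp_assoc, hφ]),
      pm_congr (RingHom.ext hr) _ rfl, div_self'])
  rw [key, div_eq_one.1 h]

theorem nos_inertial' {k K Ω : Type} [Field k] [NumberField k] [Field K] [Field Ω] [Algebra k Ω]
    [Algebra K Ω] {N N' m : ℕ} {A : Over (Spec (.of (ON k N)))} [GrpObj A] [IsCommMonObj A]
    [IsProper A.hom] (hN : N ∣ N') (h0 : N' ≠ 0) (hm : m ∣ N') {σ : Ω ≃ₐ[K] Ω}
    (hi : Ks.Inertial K Ω N' σ)
    (hσ : (σ.toRingEquiv : Ω →+* Ω).comp ((algebraMap k Ω).comp (algebraMap (ON k N) k)) =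
      (algebraMap k Ω).comp (algebraMap (ON k N) k))
    (P : sp ((algebraMap k Ω).comp (algebraMap (ON k N) k)) ⟶ A)
    (hP : pm A σ.toRingEquiv hσ (P ^ m) = P ^ m) : pm A σ.toRingEquiv hσ P = P := by
  obtain ⟨O, hO, τ, hτ, rfl⟩ := hi
  have : CharZero Ω := charZero_of_injective_algebraMap (algebraMap k Ω).injective
  have hu : IsUnit (N' : O) := .of_mul_eq_one ⟨_, hO⟩
    (Subtype.ext (mul_inv_cancel₀ (G₀ := Ω) (Nat.cast_ne_zero.2 h0)))
  have hB : ∀ c : ON k N, algebraMap k Ω c ∈ O := fun ⟨c, hc⟩ => by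
    induction hc using Algebra.adjoin_induction with
    | mem a ha =>
      obtain ⟨d, rfl⟩ := hN
      change algebraMap k Ω a ∈ O
      rw [ha, map_inv₀, map_natCast, show (N : Ω)⁻¹ = ((N * d : ℕ) : Ω)⁻¹ * d by
        have := Nat.cast_ne_zero (R := Ω).2 (right_ne_zero_of_mul h0)
        push_cast
        field_simp]
      exact mul_mem hO (natCast_mem O d)
    | algebraMap a =>
      obtain ⟨z, hz⟩ := IsIntegrallyClosed.algebraMap_eq_of_integral (R := O) (K := Ω)
        ((a.2.map (algebraMap k Ω).toIntAlgHom).tower_top)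
      exact (show (z : Ω) = _ from hz) ▸ z.2
    | add a b _ _ ha hb => exact map_add (algebraMap k Ω) a b ▸ add_mem ha hb
    | mul a b _ _ ha hb => exact map_mul (algebraMap k Ω) a b ▸ mul_mem ha hb
  exact nos' O (((algebraMap k Ω).comp (algebraMap (ON k N) k)).codRestrict O hB) _
    (MulSemiringAction.toRingHom _ O τ) (fun _ => rfl)
    (RingHom.ext fun c => Subtype.ext (DFunLike.congr_fun hσ c))
    (fun a => (IsLocalRing.ResidueField.residue_smul _ τ a).trans
      (DFunLike.congr_fun (MonoidHom.mem_ker.1 hτ) _))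
    (isUnit_of_dvd_unit (by exact_mod_cast Nat.cast_dvd_cast hm) hu) hσ hP

theorem hf_core {B k R Ω F : Type} [CommRing B] [Field k] [CommRing R] [Algebra k R] [Field Ω]
    [IsAlgClosed Ω] [CharZero Ω] [Algebra k Ω] [Field F] [Algebra Ω F] [IsFF Ω F] {b : B →+* k}
    {A : Over (Spec (.of B))} [GrpObj A] [IsCommMonObj A] {j : sp ((algebraMap k R).comp b) ⟶ A}
    {X₀ : R} [IsSeparated A.hom] (hJ : Kh.IsJ b X₀ A j) (ρ : R →+* F)
    (hρ : ∀ c, ρ (algebraMap k _ c) = algebraMap Ω F (algebraMap k Ω c))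
    (hx : Transcendental Ω (ρ X₀)) (ht : IntermediateField.adjoin Ω (Set.range ρ) = ⊤)
    (s : SA Ω F) (hs : ∀ a, s.γ (ρ a) = ρ a)
    (hσ : (s.a : Ω →+* Ω).comp ((algebraMap k Ω).comp b) = (algebraMap k Ω).comp b)
    (hP : ∀ P : sp ((algebraMap k Ω).comp b) ⟶ A, pm A s.a hσ (P ^ 2) = P ^ 2 → pm A s.a hσ P = P) :
    Hf s := by
  obtain ⟨val, hv, -, hp⟩ := hJ Ω F ρ hρ hx ht
  have he : ∀ v, val (Plc.act s.a s.γ s.h v) = pm A s.a hσ (val v) := fun v => by
    refine pt_ext (IsVal.unique (φ := (algebraMap k Ω).comp b) ?_ (hv _) ?_)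
    · rw [Category.assoc, pt_w, ← spec_comp]
      exact congrArg (fun χ => Spec.map (CommRingCat.ofHom χ)) (RingHom.ext fun c => hρ (b c))
    · have := (hv v).act s.a s.γ s.h
      rwa [← Category.assoc, ← spec_comp,
        show (s.γ : F →+* F).comp ρ = ρ from RingHom.ext hs] at this
  let sm : Dv Ω F →+ Additive (sp ((algebraMap k Ω).comp b) ⟶ A) :=
    Finsupp.liftAddHom fun w => zmultiplesHom _ (Additive.ofMul (val (plE.symm w)))
  have hsm : ∀ D : Dv Ω F, (D.prod fun w i => val (plE.symm w) ^ i) = (sm D).toMul := fun _ => rfl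
  have key : ∀ D : Dv Ω F, cl D = 0 ↔ deg D = 0 ∧ sm D = 0 := fun D => by
    have h1 := hp fun v => D (plE v)
    rw [cl_eq_zero]
    constructor
    · rintro ⟨f, f0, rfl⟩
      obtain ⟨D', h2, -, h3⟩ := h1.1 ⟨f⁻¹, inv_ne_zero f0, fun v => by
        rw [map_inv₀, log_inv]; rfl⟩
      obtain rfl : D' = (dv Ω f).equivMapDomain plE.symm := DFunLike.coe_injective h2
      rw [Finsupp.prod_equivMapDomain, hsm] at h3
      exact ⟨deg_dv f, h3⟩
    · rintro ⟨h2, h3⟩
      obtain ⟨f, f0, hf⟩ := h1.2 ⟨D.equivMapDomain plE.symm, rfl,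
        by rw [Finsupp.sum_equivMapDomain]; exact h2,
        by rw [Finsupp.prod_equivMapDomain, hsm, h3]; rfl⟩
      refine ⟨f⁻¹, inv_ne_zero f0, Finsupp.ext fun w => ?_⟩
      obtain ⟨v, rfl⟩ := plE.surjective w
      rw [hf, dv_apply, Place.ord_inv, plE_ord, neg_neg]
  have hact : ∀ D : Dv Ω F, (sm (s.dm D)).toMul = pm A s.a hσ (sm D).toMul := fun D => by
    rw [← hsm, ← hsm, map_finsuppProd]
    refine (Finsupp.prod_equivMapDomain _ _ _).trans (Finsupp.prod_congr fun w _ => ?_)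
    obtain ⟨v, rfl⟩ := plE.surjective w
    rw [← plE_act, Equiv.symm_apply_apply, Equiv.symm_apply_apply, he, map_zpow]
  intro D h0 h1
  rw [← sub_eq_zero, ← map_sub, key] at h1 ⊢
  refine ⟨by rw [map_sub, s.deg_dm, sub_self], ?_⟩
  have h2 := congrArg Additive.toMul (sub_eq_zero.1 ((map_sub sm _ _).symm.trans h1.2))
  rw [hact, map_nsmul, toMul_nsmul] at h2
  rw [map_sub, sub_eq_zero]
  exact Additive.toMul.injective ((hact D).trans (hP _ h2))

/-- The interface between the abelian scheme and the arithmetic of the curve. -/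
theorem hf_of_isJ {k K R Ω F : Type} [Field k] [NumberField k] [Field K] [CommRing R] [Algebra k R]
    [Field Ω] [IsAlgClosed Ω] [CharZero Ω] [Algebra k Ω] [Algebra K Ω] [Field F] [Algebra Ω F]
    [IsFF Ω F] {N N' : ℕ} {A : Over (Spec (.of (ON k N)))} [GrpObj A] [IsCommMonObj A]
    [IsProper A.hom] {j : sp ((algebraMap k R).comp (algebraMap (ON k N) k)) ⟶ A} {X₀ : R}
    (hJ : Kh.IsJ (algebraMap (ON k N) k) X₀ A j) (ρ : R →+* F)
    (hρ : ∀ c, ρ (algebraMap k _ c) = algebraMap Ω F (algebraMap k Ω c))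
    (hx : Transcendental Ω (ρ X₀)) (ht : IntermediateField.adjoin Ω (Set.range ρ) = ⊤)
    (hN : N ∣ N') (h2 : 2 ∣ N') (h0 : N' ≠ 0) {σ : Ω ≃ₐ[K] Ω} (hi : Ks.Inertial K Ω N' σ)
    (hk : ∀ c, σ (algebraMap k Ω c) = algebraMap k Ω c) (τ : F ≃+* F)
    (h : ∀ c, τ (algebraMap Ω F c) = algebraMap Ω F (σ c)) (hs : ∀ a, τ (ρ a) = ρ a) :
    Hf (⟨τ, σ.toRingEquiv, h⟩ : SA Ω F) :=
  hf_core hJ ρ hρ hx ht _ hs (RingHom.ext fun _ => hk _) (nos_inertial' hN h0 h2 hi _)

end Pool.Agent.Lib.MP_07b2d0_nt.G3
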