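import Pool.Agent.Lib.MP_07b2d0_nt.G3.P0
import Pool.Agent.Lib.MP_07b2d0_nt.G3.E1

/-!
The reduction when the parameters are congruent in pairs.
-/

set_option autoImplicit false

namespace Pool.Agent.Lib.MP_07b2d0_nt.G3

open Polynomial Fh

variable {Ω : Type} [Field Ω] [IsAlgClosed Ω] [CharZero Ω] {ν : AbsoluteValue Ω ℝ} {p : ℕ}
  {G : (Ω ≃+* Ω) → Prop} {a : Co Ω} {x : Fin 6 → Ω} {h : Ω}

/-- The hypotheses. -/
structure Pair (ν : AbsoluteValue Ω ℝ) (x : Fin 6 → Ω) (h : Ω) : Prop where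
  na : IsNonarchimedean ν
  two : ν 2 = 1
  uni : Uni ν x h
  one : ν (1 - h) < 1
  c0 : ν (x 0 - x 1) < 1
  c2 : ν (x 2 - x 3) < 1
  c4 : ν (x 4 - x 5) < 1

/-- The terms of degree at most three. -/
def low {E : Type} [CommRing E] (d : Fin 9 → E) (S T : E) : E :=
  d 0 * S ^ 3 + d 1 * S ^ 2 * T + d 2 * S * T ^ 2 + d 3 * S ^ 2 + d 4 * S * T + d 5 * T ^ 2 +
    d 6 * S + d 7 * T + d 8

section Aux

variable {R R' : Type} [CommRing R] [CommRing R']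

/-- The expansion of the equation at a point. -/
def x0_b (a : Co R) (s t : R) : Fin 9 → R :=
  ![1, 2 * t, 2 * s, t ^ 2 + 3 * s + a.q0, 2 * s * t + 2 * (s * t + a.c), s ^ 2 + 3 * t + a.q2,
    a.Fs s t, a.Ft s t, a.F s t]

/-- The expansion of the two reduced equations. -/
def x0_w (ε : Bool) (u v w : R) : Fin 9 → R :=
  if ε then ![u * v * w, u * v + u * w + v * w, u + v + w, 0, 0, 0, 0, 0, 0]
  else ![1, -(u * v + u * w + v * w), u + v + w, u + v + w,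
    1 - (u + v + w) * (u * v + u * w + v * w), -(u * v + u * w + v * w), 0, 0, 0]

/-- The difference of the two expansions. -/
def x0_d (ε : Bool) (u h g : R) (x : Fin 6 → R) (j : Fin 9) : R :=
  x0_b (coR u h g (es x 1) (es x 2) (es x 3) (es x 4) (es x 5)) (u * es x 1) (u * es x 5) j -
    x0_w ε (x 0) (x 2) (x 4) j

theorem x0_F (a : Co R) (s t S T : R) :
    a.F (s + S) (t + T) = S ^ 2 * T ^ 2 + T ^ 3 + low (x0_b a s t) S T := by
  simp only [x0_b, low, Co.F, Co.Fs, Co.Ft, Matrix.cons_val]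
  ring

theorem x0_map_b (φ : R →+* R') (a : Co R) (s t : R) (j : Fin 9) :
    φ (x0_b a s t j) = x0_b (a.map φ) (φ s) (φ t) j := by
  fin_cases j <;> simp [x0_b, Co.map_F, Co.map_Fs, Co.map_Ft, Co.map, map_ofNat]

theorem x0_map_w (φ : R →+* R') (ε : Bool) (u v w : R) (j : Fin 9) :
    φ (x0_w ε u v w j) = x0_w ε (φ u) (φ v) (φ w) j := by
  cases ε <;> fin_cases j <;> simp [x0_w]

theorem x0_map_d (φ : R →+* R') (ε : Bool) (u h g : R) (x : Fin 6 → R) (j : Fin 9) :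
    φ (x0_d ε u h g x j) = x0_d ε (φ u) (φ h) (φ g) (fun i => φ (x i)) j := by
  simp only [x0_d, map_sub, x0_map_b, x0_map_w, coR_map, map_mul, map_es]

theorem x0_es {y : Fin 6 → R} (h1 : y 1 = y 0) (h3 : y 3 = y 2) (h5 : y 5 = y 4) {p q r : R}
    (hp : p = y 0 + y 2 + y 4) (hq : q = y 0 * y 2 + y 0 * y 4 + y 2 * y 4)
    (hr : r = y 0 * y 2 * y 4) :
    es y 1 = 2 * p ∧ es y 2 = p ^ 2 + 2 * q ∧ es y 3 = 2 * r + 2 * p * q ∧
      es y 4 = q ^ 2 + 2 * p * r ∧ es y 5 = 2 * q * r := by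
  obtain ⟨e1, e2, e3, e4, e5⟩ := es_six y
  rw [e1, e2, e3, e4, e5, h1, h3, h5, hp, hq, hr]
  refine ⟨?_, ?_, ?_, ?_, ?_⟩ <;> ring

theorem x0_zero {κ : Type} [Field κ] (h4 : (4 : κ) ≠ 0) (ε : Bool) {y : Fin 6 → κ}
    (h1 : y 1 = y 0) (h3 : y 3 = y 2) (h5 : y 5 = y 4)
    (hr : y 0 * y 2 * y 4 = if ε then 1 else -1) (j : Fin 9) : x0_d ε 4⁻¹ 1 1 y j = 0 := by
  obtain ⟨e1, e2, e3, e4, e5⟩ := x0_es h1 h3 h5 rfl rfl hr.symm
  rw [x0_d, e1, e2, e3, e4, e5, x0_w, hr]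
  generalize y 0 + y 2 + y 4 = p
  generalize y 0 * y 2 + y 0 * y 4 + y 2 * y 4 = q
  cases ε <;> fin_cases j <;>
    simp only [x0_b, coR, Co.F, Co.Fs, Co.Ft, Bool.false_eq_true, if_true, if_false,
      Fin.reduceFinMk, Matrix.cons_val, Fin.zero_eta, Fin.mk_one, Fin.isValue] <;>
    field_simp <;> ring

theorem x0_mem (V : Subring R) (ε : Bool) {u h g : R} {x : Fin 6 → R} (hu : u ∈ V) (hh : h ∈ V)
    (hg : g ∈ V) (hx : ∀ i, x i ∈ V) (j : Fin 9) : x0_d ε u h g x j ∈ V := by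
  have := x0_map_d V.subtype ε ⟨u, hu⟩ ⟨h, hh⟩ ⟨g, hg⟩ (fun i => ⟨x i, hx i⟩) j
  exact this ▸ Subtype.prop _

end Aux

omit [IsAlgClosed Ω] [CharZero Ω] in
/-- The residue map. -/
theorem x0_res (hna : IsNonarchimedean ν) : ∃ (V : Subring Ω) (κ : Type) (_ : Field κ)
    (ρ : V →+* κ), (∀ z, z ∈ V ↔ ν z ≤ 1) ∧ ∀ z : V, ρ z = 0 ↔ ν z < 1 := by
  obtain ⟨V, h1, h2, -⟩ := exists_inr hna
  refine ⟨V.toSubring, IsLocalRing.ResidueField V, inferInstance, IsLocalRing.residue V, h1,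
    fun z => ?_⟩
  have h3 := h2 1 z
  rw [map_one, map_one] at h3
  rw [← not_le, ← h3, not_le]
  exact (IsLocalRing.residue_eq_zero_iff (R := V) z).trans (V.valuation_lt_one_iff z)

omit [IsAlgClosed Ω] [CharZero Ω] in
theorem Pair.x0_four (H : Pair ν x h) : ν 4 = 1 := by
  rw [show (4 : Ω) = 2 * 2 by norm_num, map_mul, H.two, one_mul]

omit [IsAlgClosed Ω] in
theorem Pair.x0_small (H : Pair ν x h) (ε : Bool)
    (h1 : ν (x 0 * x 2 * x 4 - if ε then 1 else -1) < 1) (j : Fin 9) :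
    ν (x0_d ε 4⁻¹ h h⁻¹ x j) < 1 := by
  obtain ⟨V, κ, _, ρ, hV, hρ⟩ := x0_res H.na
  have h0 : h ≠ 0 := fun e => by simpa [e] using H.uni.2
  let u : V := ⟨4⁻¹, (hV _).2 (by rw [map_inv₀, H.x0_four, inv_one])⟩
  let k : V := ⟨h, (hV _).2 H.uni.2.le⟩
  let g : V := ⟨h⁻¹, (hV _).2 (by rw [map_inv₀, H.uni.2, inv_one])⟩
  let y : Fin 6 → V := fun i => ⟨x i, (hV _).2 (H.uni.1 i).le⟩
  have key : ∀ z w : V, ν ((z : Ω) - w) < 1 → ρ w = ρ z := fun z w hz => by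
    have := (hρ (z - w)).2 hz
    rw [map_sub, sub_eq_zero] at this
    exact this.symm
  have hu : 4 * ρ u = 1 := by
    rw [← map_ofNat ρ 4, ← map_mul, ← map_one ρ]
    exact congrArg ρ (Subtype.ext (mul_inv_cancel₀ (by norm_num : (4 : Ω) ≠ 0)))
  have hk : ρ k = 1 := (key 1 k H.one).trans (map_one ρ)
  have hg : ρ g = 1 := by
    rw [← one_mul (ρ g), ← hk, ← map_mul, hk, ← map_one ρ]
    exact congrArg ρ (Subtype.ext (mul_inv_cancel₀ h0))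
  have hr : ρ (y 0) * ρ (y 2) * ρ (y 4) = if ε then 1 else -1 := by
    rw [← map_mul, ← map_mul, ← key (y 0 * y 2 * y 4) (if ε then 1 else -1)
      (by cases ε <;> simpa using h1)]
    cases ε <;> simp
  have h5 := x0_zero (left_ne_zero_of_mul_eq_one hu) ε (y := fun i => ρ (y i))
    (key _ _ H.c0) (key _ _ H.c2) (key _ _ H.c4) hr j
  rw [← eq_inv_of_mul_eq_one_right hu, ← hk] at h5
  nth_rewrite 2 [hk] at h5
  rw [← hg, ← x0_map_d, hρ] at h5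
  exact (x0_map_d V.subtype ε u k g y j) ▸ h5

omit [IsAlgClosed Ω] in
theorem x0_main (hP : Par a x h) (H : Pair ν x h) (ε : Bool)
    (h1 : ν (x 0 * x 2 * x 4 - if ε then 1 else -1) < 1) :
    ∃ d : Fin 9 → Ω, (∀ j, ν (d j) < 1) ∧
      (∀ K : Subfield Ω, (∀ i, x i ∈ K) → h ∈ K → ∀ j, d j ∈ K) ∧
      ∀ (E : Type) [CommRing E] (φ : Ω →+* E) (S T : E),
        (a.map φ).F (φ (es x 1 / 4) + S) (φ (es x 5 / 4) + T) = S ^ 2 * T ^ 2 + T ^ 3 +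
          low (x0_w ε (φ (x 0)) (φ (x 2)) (φ (x 4))) S T + low (fun j => φ (d j)) S T := by
  refine ⟨x0_d ε 4⁻¹ h h⁻¹ x, H.x0_small ε h1, fun K hx hh j => x0_mem K.toSubring ε
    (K.inv_mem (ofNat_mem K 4)) hh (K.inv_mem hh) hx j, fun E _ φ S T => ?_⟩
  rw [x0_F]
  simp only [x0_d, ← hP.co, map_sub, x0_map_b, x0_map_w, low, div_eq_inv_mul]
  ring

theorem Pair.sign (hP : Par a x h) (H : Pair ν x h) :
    ν (x 0 * x 2 * x 4 - 1) < 1 ∨ ν (x 0 * x 2 * x 4 + 1) < 1 := by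
  have h3 : ∀ {z w : Ω}, ν z < 1 → ν w ≤ 1 → ν (z * w) < 1 := fun hz hw => by
    rw [map_mul]
    exact (mul_le_of_le_one_right (ν.nonneg _) hw).trans_lt hz
  have h4 : ∀ {z w : Ω}, ν z ≤ 1 → ν w ≤ 1 → ν (z * w) ≤ 1 := fun hz hw => by
    rw [map_mul]
    exact mul_le_one₀ hz (ν.nonneg _) hw
  have u := fun i => (H.uni.1 i).le
  have hh := H.uni.2.le
  have h5 : (x 0 * x 2 * x 4 - 1) * (x 0 * x 2 * x 4 + 1) =
      ((x 0 - x 1) * (x 2 * x 4) + ((x 2 - x 3) * (x 1 * x 4) + (x 4 - x 5) * (x 1 * x 3))) *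
        (x 0 * x 2 * x 4) - (1 - h) * (1 + (h + h * h)) := by
    have := hP.prod
    rw [Fin.prod_univ_six] at this
    linear_combination this
  have h6 : ν ((x 0 * x 2 * x 4 - 1) * (x 0 * x 2 * x 4 + 1)) < 1 := by
    rw [h5]
    exact na_sub_lt H.na (h3 (na_add_lt H.na (h3 H.c0 (h4 (u 2) (u 4))) (na_add_lt H.na
      (h3 H.c2 (h4 (u 1) (u 4))) (h3 H.c4 (h4 (u 1) (u 3))))) (h4 (h4 (u 0) (u 2)) (u 4)))
      (h3 H.one (na_add_le H.na ν.map_one.le (na_add_le H.na hh (h4 hh hh))))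
  by_contra hc
  rw [not_or, not_lt, not_lt] at hc
  rw [map_mul] at h6
  exact h6.not_ge (one_le_mul_of_one_le_of_one_le hc.1 hc.2)

theorem Pair.line (hP : Par a x h) (H : Pair ν x h) (i : Fin 6) :
    ν (ln x h i (es x 1 / 4) (es x 5 / 4)) < 1 := by
  obtain ⟨V, -, -, -, hV, -⟩ := x0_res H.na
  have hx : ∀ j, x j ∈ V := fun j => (hV _).2 (H.uni.1 j).le
  have he : ∀ n, es x n ∈ V := fun n => sum_mem fun _ _ => prod_mem fun j _ => hx j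
  have hu : (4 : Ω)⁻¹ ∈ V := (hV _).2 (by rw [map_inv₀, H.x0_four, inv_one])
  have hg : h⁻¹ ∈ V := (hV _).2 (by rw [map_inv₀, H.uni.2, inv_one])
  have hl : (x i)⁻¹ ∈ V := (hV _).2 (by rw [map_inv₀, H.uni.1, inv_one])
  have h0 := hP.ne
  have h1 := hP.x_ne i
  have h5 : ln x h i (es x 1 / 4) (es x 5 / 4) = (1 - h) * (4⁻¹ * (x i * x i * h⁻¹ -
      es x 5 * h⁻¹ * (1 + h⁻¹) - x i * es x 1 * h⁻¹ - (x i)⁻¹)) := by
    simp only [ln, al, Algebra.algebraMap_self, RingHom.id_apply]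
    field_simp
    ring
  rw [h5, map_mul]
  exact (mul_le_of_le_one_right (ν.nonneg _) ((hV _).1 (mul_mem hu (sub_mem (sub_mem (sub_mem
    (mul_mem (mul_mem (hx i) (hx i)) hg) (mul_mem (mul_mem (he 5) hg) (add_mem (one_mem V) hg)))
    (mul_mem (mul_mem (hx i) (he 1)) hg)) hl)))).trans_lt H.one

/-- Work in the valuation ring of `exists_inr` and map to the residue field (`coR_map`); there
`h = 1`, `e₁ = 2 p₁`, `e₂ = p₁ ^ 2 + 2 p₂`, `e₃ = 2 p₃ + 2 p₁ p₂`, `e₄ = p₂ ^ 2 + 2 p₁ p₃`,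
`e₅ = 2 p₂ p₃` with `p j` the symmetric functions of `x 0, x 2, x 4`. -/
theorem Pair.triple (hP : Par a x h) (H : Pair ν x h) (h1 : ν (x 0 * x 2 * x 4 - 1) < 1) :
    ∃ d : Fin 9 → Ω, (∀ j, ν (d j) < 1) ∧
      (∀ K : Subfield Ω, (∀ i, x i ∈ K) → h ∈ K → ∀ j, d j ∈ K) ∧
      ∀ (E : Type) [CommRing E] (φ : Ω →+* E) (S T : E),
        (a.map φ).F (φ (es x 1 / 4) + S) (φ (es x 5 / 4) + T) =
          S ^ 2 * T ^ 2 + (T + φ (x 0) * S) * (T + φ (x 2) * S) * (T + φ (x 4) * S) +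
            low (fun j => φ (d j)) S T := by
  obtain ⟨d, h2, h3, h4⟩ := x0_main hP H true h1
  refine ⟨d, h2, h3, fun E _ φ S T => ?_⟩
  rw [h4, add_left_inj]
  simp only [low, x0_w, if_true, Matrix.cons_val]
  ring

theorem Pair.conics (hP : Par a x h) (H : Pair ν x h) (h1 : ν (x 0 * x 2 * x 4 + 1) < 1) :
    ∃ d : Fin 9 → Ω, (∀ j, ν (d j) < 1) ∧
      (∀ K : Subfield Ω, (∀ i, x i ∈ K) → h ∈ K → ∀ j, d j ∈ K) ∧
      ∀ (E : Type) [CommRing E] (φ : Ω →+* E) (S T : E),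
        (a.map φ).F (φ (es x 1 / 4) + S) (φ (es x 5 / 4) + T) =
          (S ^ 2 + T + φ (x 0 + x 2 + x 4) * S) *
            (T ^ 2 + S - φ (x 0 * x 2 + x 0 * x 4 + x 2 * x 4) * T) +
            low (fun j => φ (d j)) S T := by
  obtain ⟨d, h2, h3, h4⟩ := x0_main hP H false (by simpa using h1)
  refine ⟨d, h2, h3, fun E _ φ S T => ?_⟩
  rw [h4, add_left_inj]
  simp only [low, x0_w, Bool.false_eq_true, if_false, Matrix.cons_val, map_add, map_mul]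
  ring

end Pool.Agent.Lib.MP_07b2d0_nt.G3
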