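import Pool.Agent.Lib.MP_07b2d0_nt.G3.Defs
import Pool.Agent.Lib.MP_07b2d0_nt.CR

/-!
Combinatorics of the congruence classes.
-/

set_option autoImplicit false

namespace Pool.Agent.Lib.MP_07b2d0_nt.G3

open Polynomial NumberField Fh

/-- Remove two equivalent elements. -/
theorem x1_step {ι : Type} [DecidableEq ι] (r : ι → ι → Prop) [DecidableRel r]
    (hr : Equivalence r) {s : Finset ι} (h : ∀ j, Even (s.filter fun i => r j i).card)
    (hs : 0 < s.card) : ∃ a ∈ s, ∃ b ∈ s.erase a, r a b ∧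
      ∀ j, Even (((s.erase a).erase b).filter fun i => r j i).card := by
  obtain ⟨a, ha⟩ := Finset.card_pos.1 hs
  have ha' : a ∈ s.filter fun i => r a i := Finset.mem_filter.2 ⟨ha, hr.refl a⟩
  have h1 : 0 < ((s.filter fun i => r a i).erase a).card := by
    rw [Finset.card_erase_of_mem ha']
    have := Finset.card_pos.2 ⟨a, ha'⟩
    obtain ⟨k, hk⟩ := h a
    omega
  obtain ⟨b, hb⟩ := Finset.card_pos.1 h1
  rw [Finset.mem_erase, Finset.mem_filter] at hb
  refine ⟨a, ha, b, Finset.mem_erase.2 ⟨hb.1, hb.2.1⟩, hb.2.2, fun j => ?_⟩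
  rw [Finset.filter_erase, Finset.filter_erase]
  by_cases hj : r j a
  · have e1 : a ∈ s.filter fun i => r j i := Finset.mem_filter.2 ⟨ha, hj⟩
    have e2 : b ∈ (s.filter fun i => r j i).erase a :=
      Finset.mem_erase.2 ⟨hb.1, Finset.mem_filter.2 ⟨hb.2.1, hr.trans hj hb.2.2⟩⟩
    have e3 := Finset.card_pos.2 ⟨b, e2⟩
    rw [Finset.card_erase_of_mem e2]
    rw [Finset.card_erase_of_mem e1] at e3 ⊢
    obtain ⟨k, hk⟩ := h j
    exact ⟨k - 1, by omega⟩
  · rw [Finset.erase_eq_of_notMem (s := s.filter fun i => r j i)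
      fun e => hj (Finset.mem_filter.1 e).2, Finset.erase_eq_of_notMem
      fun e => hj (hr.trans (Finset.mem_filter.1 e).2 (hr.symm hb.2.2))]
    exact h j

theorem exists_pairing (r : Fin 6 → Fin 6 → Prop) [DecidableRel r] (hr : Equivalence r)
    (h : ∀ j, Even (Finset.univ.filter fun i => r j i).card) :
    ∃ π : Equiv.Perm (Fin 6), r (π 0) (π 1) ∧ r (π 2) (π 3) ∧ r (π 4) (π 5) := by
  obtain ⟨a, ha, b, hb, hab, h1⟩ := x1_step r hr h (by simp)
  have c1 : ((Finset.univ.erase a).erase b).card = 4 := by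
    rw [Finset.card_erase_of_mem hb, Finset.card_erase_of_mem ha]
    simp
  obtain ⟨c, hc, d, hd, hcd, h2⟩ := x1_step r hr h1 (by omega)
  have c2 : ((((Finset.univ.erase a).erase b).erase c).erase d).card = 2 := by
    rw [Finset.card_erase_of_mem hd, Finset.card_erase_of_mem hc, c1]
  obtain ⟨e, he, f, hf, hef, -⟩ := x1_step r hr h2 (by omega)
  simp only [Finset.mem_erase, Finset.mem_univ, and_true] at hb hc hd he hf
  have hi : Function.Injective ![a, b, c, d, e, f] := by
    have : [a, b, c, d, e, f].Nodup := by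
      simp only [List.nodup_cons, List.mem_cons, List.not_mem_nil, or_false, not_or,
        List.nodup_nil, not_false_eq_true, and_true]
      exact ⟨⟨hb.symm, hc.2.symm, hd.2.2.symm, he.2.2.2.symm, hf.2.2.2.2.symm⟩,
        ⟨hc.1.symm, hd.2.1.symm, he.2.2.1.symm, hf.2.2.2.1.symm⟩,
        ⟨hd.1.symm, he.2.1.symm, hf.2.2.1.symm⟩, ⟨he.1.symm, hf.2.1.symm⟩, hf.1.symm⟩
    exact List.nodup_ofFn.1 (by simpa using this)
  exact ⟨Equiv.ofBijective _ (Finite.injective_iff_bijective.1 hi), hab, hcd, hef⟩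

/-- A symmetric double sum without diagonal is even. -/
theorem x1_sym {ι : Type} [DecidableEq ι] (f : ι → ι → ℤ) (hs : ∀ i j, f i j = f j i)
    (h0 : ∀ i, f i i = 0) (C : Finset ι) : Even (∑ i ∈ C, ∑ j ∈ C, f i j) := by
  induction C using Finset.induction_on with
  | empty => simp
  | insert a C ha ih =>
    simp only [Finset.sum_insert ha, Finset.sum_add_distrib, h0, zero_add]
    rw [← add_assoc, Finset.sum_congr rfl fun i _ => hs i a]
    exact Even.add ⟨_, rfl⟩ ih

theorem x1_ord_prod {K ι : Type} [Field K] [NumberField K] [DecidableEq ι] (v : FinitePlace K)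
    (s : Finset ι) {f : ι → K} (hf : ∀ i ∈ s, f i ≠ 0) :
    ord v (∏ i ∈ s, f i) = ∑ i ∈ s, ord v (f i) := by
  induction s using Finset.induction_on with
  | empty => simp [ord]
  | insert a s ha ih =>
    have h1 : ∀ i ∈ s, f i ≠ 0 := fun i hi => hf i (Finset.mem_insert_of_mem hi)
    rw [Finset.prod_insert ha, Finset.sum_insert ha,
      ord_mul v (hf a (Finset.mem_insert_self a s)) (Finset.prod_ne_zero_iff.2 h1), ih h1]

theorem x1_sub {K : Type} [Field K] [NumberField K] (v : FinitePlace K) (y z : K) :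
    v (y - z) ≤ max (v y) (v z) := by
  have := v.add_le y (-z)
  rwa [map_neg_eq_map, ← sub_eq_add_neg] at this

open Classical in
/-- Sum the odd numbers `∑ (i ≠ j) ord (x j - x i)` over a class: each pair occurs twice. -/
theorem even_class {K : Type} [Field K] [NumberField K] (v : FinitePlace K) {x : Fin 6 → K} {h : K}
    (hx : ∀ i, v (x i) = 1) (hh : v h = 1) (h1 : h ≠ 1) (hi : Function.Injective x)
    (hR : ∀ j, Even (ord v ((1 - h⁻¹) * ∏ i ∈ Finset.univ.erase j, (x j - x i))))
    (ho : ¬ Even (ord v (1 - h))) : v (1 - h) < 1 ∧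
      ∀ j, Even (Finset.univ.filter fun i => v (x j - x i) < 1).card := by
  have h0 : h ≠ 0 := by
    rintro rfl
    simp at hh
  have h2 : 1 - h ≠ 0 := sub_ne_zero.2 h1.symm
  have h3 : ord v (1 - h⁻¹) = ord v (1 - h) := by
    rw [show 1 - h⁻¹ = -(1 - h) / h by field_simp; ring, ord_div v (neg_ne_zero.2 h2) h0, ord_neg,
      (fp_eq_one_iff v h0).1 hh, sub_zero]
  have h4 : 1 - h⁻¹ ≠ 0 := fun e => h1 (inv_eq_one.1 (sub_eq_zero.1 e).symm)
  have hle : ∀ i j, v (x j - x i) ≤ 1 := fun i j => by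
    simpa [hx] using x1_sub v (x j) (x i)
  have hO : ∀ j, Even (∑ i, ord v (x j - x i) - 1) := fun j => by
    have hn : ∀ i ∈ Finset.univ.erase j, x j - x i ≠ 0 := fun i hi' =>
      sub_ne_zero.2 (hi.ne (Finset.ne_of_mem_erase hi').symm)
    have := hR j
    rw [ord_mul v h4 (Finset.prod_ne_zero_iff.2 hn), x1_ord_prod v _ hn, h3,
      Finset.sum_erase _ (by simp [ord])] at this
    rw [Int.even_add] at this
    rw [Int.even_sub]
    simpa [ho] using this
  refine ⟨(fp_lt_one_iff v h2).2 (lt_of_le_of_ne ((fp_le_one_iff v _).1 ?_) fun e => ho ?_),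
    fun j => ?_⟩
  · simpa [hh] using x1_sub v 1 h
  · rw [← e]
    exact Even.zero
  set C := Finset.univ.filter fun i => v (x j - x i) < 1 with hC
  have e1 : ∀ l ∈ C, ∑ i, ord v (x l - x i) = ∑ i ∈ C, ord v (x l - x i) := fun l hl => by
    refine (Finset.sum_subset (Finset.subset_univ _) fun i _ hi' => ?_).symm
    simp only [hC, Finset.mem_filter, Finset.mem_univ, true_and] at hl hi'
    have hn : ¬ v (x l - x i) < 1 := fun e => hi' (by
      have := v.add_le (x j - x l) (x l - x i)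
      rw [sub_add_sub_cancel] at this
      exact this.trans_lt (max_lt hl e))
    have hz : x l - x i ≠ 0 := fun e => hn (by simp [e])
    exact (fp_eq_one_iff v hz).1 (le_antisymm (hle i l) (not_lt.1 hn))
  have e2 := x1_sym (fun l i => ord v (x l - x i)) (fun l i => by rw [← ord_neg, neg_sub])
    (fun l => by simp [ord]) C
  have e3 : Even (∑ l ∈ C, (∑ i, ord v (x l - x i) - 1)) := Finset.even_sum _ fun l _ => hO l
  rw [Finset.sum_sub_distrib, Finset.sum_congr rfl e1, Int.even_sub] at e3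
  simpa using e3.1 e2

end Pool.Agent.Lib.MP_07b2d0_nt.G3
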