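import Pool.Agent.Lib.MP_07b2d0_nt.G3.X0
import Pool.Agent.Lib.MP_07b2d0_nt.G3.E2

/-!
Two conics, or a triple point with two tangents.
-/

set_option autoImplicit false

namespace Pool.Agent.Lib.MP_07b2d0_nt.G3

open Polynomial Fh

variable {Ω : Type} [Field Ω] [IsAlgClosed Ω] [CharZero Ω] {ν : AbsoluteValue Ω ℝ} {p : ℕ}
  {G : (Ω ≃+* Ω) → Prop} {a : Co Ω} {x : Fin 6 → Ω} {h : Ω}

omit [IsAlgClosed Ω] [CharZero Ω] in
theorem x2_mul {y z : Ω} {c : ℝ} (hy : ν y ≤ c) (hz : ν z ≤ 1) : ν (y * z) ≤ c := by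
  rw [map_mul]
  exact (mul_le_of_le_one_right (ν.nonneg _) hz).trans hy

omit [IsAlgClosed Ω] [CharZero Ω] in
theorem x2_pow {y : Ω} (hy : ν y ≤ 1) (n : ℕ) : ν (y ^ n) ≤ 1 := by
  rw [map_pow]
  exact pow_le_one₀ (ν.nonneg _) hy

omit [IsAlgClosed Ω] [CharZero Ω] in
/-- One step of the lower bound for a monic polynomial in `ε`. -/
theorem x2_step (hna : IsNonarchimedean ν) {A w ε : Ω} {e : ℝ} {k : ℕ} (he0 : 0 < e) (he1 : e < 1)
    (hε : ν ε = e ^ 2) (hA : ν A = 1 ∨ ν A ≤ e ^ 20) (hw1 : ν w ≤ 1) (hw : e ^ k ≤ ν w)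
    (hk : k + 2 < 20) : e ^ (k + 2) ≤ ν (A + ε * w) ∧ ν (A + ε * w) ≤ 1 := by
  have h2 : e ^ 2 < 1 := pow_lt_one₀ he0.le he1 two_ne_zero
  have hu : ν (ε * w) < 1 := lt_of_le_of_lt (x2_mul hε.le hw1) h2
  have hl : e ^ (k + 2) ≤ ν (ε * w) := by
    rw [map_mul, hε, pow_add, mul_comm]
    exact mul_le_mul_of_nonneg_left hw (pow_nonneg he0.le 2)
  rcases hA with hA | hA
  · have : ν (A + ε * w) = 1 := by rw [na_add_eq hna (by rwa [hA]), hA]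
    rw [this]
    exact ⟨pow_le_one₀ he0.le he1.le, le_rfl⟩
  · have h3 : ν A < ν (ε * w) :=
      lt_of_le_of_lt hA (lt_of_lt_of_le (pow_lt_pow_right_of_lt_one₀ he0 he1 hk) hl)
    rw [add_comm A, na_add_eq hna h3]
    exact ⟨hl, hu.le⟩

omit [CharZero Ω] in
/-- The point of the curve near the first conic. -/
theorem x2_core (hna : IsNonarchimedean ν) {σ : Ω ≃+* Ω} (hσ : ∀ z, ν (σ z) = ν z)
    {u v ε : Ω} {d : Fin 9 → Ω} {e : ℝ} (he0 : 0 < e) (he1 : e < 1) (hε : ν ε = e ^ 2)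
    (fu : σ u = u) (fv : σ v = v) (fε : σ ε = ε) (fd : ∀ j, σ (d j) = d j)
    (hd : ∀ j, ν (d j) ≤ e ^ 20) (bu : ν u ≤ 1) (bv : ν v ≤ 1)
    (hA : ν (1 + u * v) = 1 ∨ ν (1 + u * v) ≤ e ^ 20)
    (hB : ν (u ^ 2 + v) = 1 ∨ ν (u ^ 2 + v) ≤ e ^ 20)
    (hC : ν (2 * u) = 1 ∨ ν (2 * u) ≤ e ^ 20) :
    ∃ T, σ T = T ∧ (ε ^ 2 + T + u * ε) * (T ^ 2 + ε - v * T) + low d ε T = 0 ∧
      ν (T + ε ^ 2 + u * ε) ≤ e ^ 12 := by
  have bε : ν ε ≤ 1 := hε ▸ pow_le_one₀ he0.le he1.le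
  have bd : ∀ j, ν (d j) ≤ 1 := fun j => (hd j).trans (pow_le_one₀ he0.le he1.le)
  have b2 : ν (2 : Ω) ≤ 1 := by simpa using hna.apply_natCast_le_one (n := 2)
  have bw : ν (ε ^ 2 + u * ε) ≤ 1 := na_add_le hna (x2_pow bε 2) (x2_mul bu bε)
  have bT : ν (-(ε ^ 2 + u * ε)) ≤ 1 := by rwa [ν.map_neg]
  obtain ⟨s1, t1⟩ := x2_step hna (w := 1) (k := 0) he0 he1 hε hC (by simp) (by simp) (by norm_num)
  obtain ⟨s2, t2⟩ := x2_step hna he0 he1 hε hB t1 s1 (by norm_num)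
  obtain ⟨s3, t3⟩ := x2_step hna he0 he1 hε hA t2 s2 (by norm_num)
  obtain ⟨s4, -⟩ := x2_step hna (A := 0) he0 he1 hε (Or.inr (by simpa using pow_nonneg he0.le 20))
    t3 s3 (by norm_num)
  generalize hT : -(ε ^ 2 + u * ε) = T₀ at bT
  have fT : σ T₀ = T₀ := by simp only [← hT, map_neg, map_add, map_mul, map_pow, fu, fε]
  have hs : ν (d 1 * ε ^ 2 + d 2 * (2 * ε * T₀) + d 4 * ε + d 5 * (2 * T₀) + d 7) ≤ e ^ 20 :=
    na_add_le hna (na_add_le hna (na_add_le hna (na_add_le hna (x2_mul (hd 1) (x2_pow bε 2))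
      (x2_mul (hd 2) (x2_mul (x2_mul b2 bε) bT))) (x2_mul (hd 4) bε))
      (x2_mul (hd 5) (x2_mul b2 bT))) (hd 7)
  have hlt : e ^ 20 < e ^ (0 + 2 + 2 + 2 + 2) := pow_lt_pow_right_of_lt_one₀ he0 he1 (by norm_num)
  have hD := na_add_eq hna (lt_of_le_of_lt hs (lt_of_lt_of_le hlt s4))
  have hV : ν (low d ε T₀) ≤ e ^ 20 := by
    unfold low
    simp only [mul_assoc]
    exact na_add_le hna (na_add_le hna (na_add_le hna (na_add_le hna (na_add_le hna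
      (na_add_le hna (na_add_le hna (na_add_le hna (x2_mul (hd 0) (x2_pow bε 3))
      (x2_mul (hd 1) (x2_mul (x2_pow bε 2) bT))) (x2_mul (hd 2) (x2_mul bε (x2_pow bT 2))))
      (x2_mul (hd 3) (x2_pow bε 2))) (x2_mul (hd 4) (x2_mul bε bT))) (x2_mul (hd 5) (x2_pow bT 2)))
      (x2_mul (hd 6) bε)) (x2_mul (hd 7) bT)) (hd 8)
  have e0 : ((ε ^ 2 + u * ε) * ε + d 0 * ε ^ 3 + d 3 * ε ^ 2 + d 6 * ε + d 8) +
      (ε - v * (ε ^ 2 + u * ε) + d 1 * ε ^ 2 + d 4 * ε + d 7) * T₀ +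
      (ε ^ 2 + u * ε - v + d 2 * ε + d 5) * T₀ ^ 2 + 1 * T₀ ^ 3 + 0 * T₀ ^ 4 = low d ε T₀ := by
    unfold low
    rw [← hT]
    ring
  have e1 : (ε - v * (ε ^ 2 + u * ε) + d 1 * ε ^ 2 + d 4 * ε + d 7) +
      2 * (ε ^ 2 + u * ε - v + d 2 * ε + d 5) * T₀ + 3 * 1 * T₀ ^ 2 + 4 * 0 * T₀ ^ 3 =
      0 + ε * (1 + u * v + ε * (u ^ 2 + v + ε * (2 * u + ε * 1))) +
        (d 1 * ε ^ 2 + d 2 * (2 * ε * T₀) + d 4 * ε + d 5 * (2 * T₀) + d 7) := by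
    rw [← hT]
    ring
  rw [← hD, ← e1] at s4
  have p8 : 0 < e ^ (0 + 2 + 2 + 2 + 2) := pow_pos he0 _
  obtain ⟨T, f, hz, hn⟩ := newton hna hσ
    (c₀ := (ε ^ 2 + u * ε) * ε + d 0 * ε ^ 3 + d 3 * ε ^ 2 + d 6 * ε + d 8)
    (c₁ := ε - v * (ε ^ 2 + u * ε) + d 1 * ε ^ 2 + d 4 * ε + d 7)
    (c₂ := ε ^ 2 + u * ε - v + d 2 * ε + d 5) (c₃ := 1) (c₄ := 0) (T₀ := T₀)
    (by simp only [map_add, map_mul, map_pow, fu, fε, fd])
    (by simp only [map_add, map_sub, map_mul, map_pow, fu, fv, fε, fd])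
    (by simp only [map_add, map_sub, map_mul, map_pow, fu, fv, fε, fd])
    (map_one σ) (map_zero σ) fT
    (na_add_le hna (na_add_le hna (na_add_le hna (na_sub_le hna bε (x2_mul bv bw))
      (x2_mul (bd 1) (x2_pow bε 2))) (x2_mul (bd 4) bε)) (bd 7))
    (na_add_le hna (na_add_le hna (na_sub_le hna bw bv) (x2_mul (bd 2) bε)) (bd 5))
    (by simp) (by simp) bT
    (by
      rw [e0]
      refine lt_of_le_of_lt hV (lt_of_lt_of_le ?_ (pow_le_pow_left₀ p8.le s4 2))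
      rw [← pow_mul]
      exact pow_lt_pow_right_of_lt_one₀ he0 he1 (by norm_num))
  refine ⟨T, f, ?_, ?_⟩
  · unfold low
    linear_combination hz
  · have e2 : T + ε ^ 2 + u * ε = T - T₀ := by
      rw [← hT]
      ring
    rw [e0] at hn
    rw [e2]
    refine le_of_mul_le_mul_right ?_ p8
    rw [← pow_add]
    exact (mul_le_mul_of_nonneg_left s4 (ν.nonneg _)).trans (hn.le.trans hV)

omit [IsAlgClosed Ω] [CharZero Ω] in
theorem x2_es (K : Subfield Ω) (hx : ∀ i, x i ∈ K) (n : ℕ) : es x n ∈ K :=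
  sum_mem fun _ _ => prod_mem fun i _ => hx i

omit [IsAlgClosed Ω] [CharZero Ω] in
theorem x2_ln (K : Subfield Ω) (hx : ∀ i, x i ∈ K) (hh : h ∈ K) (i : Fin 6) :
    ln x h i (es x 1 / 4) (es x 5 / 4) ∈ K := by
  have h4 : (4 : Ω) ∈ K := ofNat_mem K 4
  have h1 := x2_es K hx 1
  have h5 := x2_es K hx 5
  have hi := hx i
  exact add_mem (add_mem (div_mem h5 h4) (mul_mem hi (div_mem h1 h4)))
    (div_mem (add_mem (sub_mem (sub_mem
      (mul_mem (neg_mem (pow_mem hi 2)) (sub_mem (one_mem K) (inv_mem hh)))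
      (div_mem (mul_mem hi h1) hh)) (div_mem h5 (pow_mem hh 2)))
      (div_mem (sub_mem hh (one_mem K)) hi)) h4)

/-- `S = ε = η ^ 2`, `T₀ = - ε ^ 2 - p₁ ε`; `newton` in `T`, the derivative is congruent to
`T₀ ^ 2 + ε - p₂ T₀`, of size at least `ν ε ^ 4`.  The line `ln x h 0` is `T + x 0 S` up to a small
constant (`Pair.line`), about `- ε (x 2 + x 4)`. -/
theorem x_conics (hL : Loc ν p G) (hU : ∀ σ, G σ → UPt a σ) (hP : Par a x h) (H : Pair ν x h)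
    (h1 : ν (x 0 * x 2 * x 4 + 1) < 1) (h2 : ν (x 2 + x 4) = 1) : False := by
  classical
  have hna := hL.na
  obtain ⟨d, hd, hK, hF⟩ := Pair.conics hP H h1
  obtain ⟨γ, hγ⟩ := IsAlgClosed.exists_pow_nat_eq (-(x 2 + x 4)) two_pos
  obtain ⟨σ, η, hσ, hfix, hη, hη0, hη1, hsm⟩ :=
    hL.rich (insert γ (insert h (Finset.univ.image x))) 20
  generalize hT : insert γ (insert h (Finset.univ.image x)) = T at hfix hsm
  have mx : ∀ i, x i ∈ T := fun i => by simp [← hT]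
  have mh : h ∈ T := by simp [← hT]
  have mγ : γ ∈ T := by simp [← hT]
  have kx : ∀ i, x i ∈ Subfield.closure (T : Set Ω) := fun i => Subfield.subset_closure (mx i)
  have kh : h ∈ Subfield.closure (T : Set Ω) := Subfield.subset_closure mh
  have fK : ∀ z ∈ Subfield.closure (T : Set Ω), σ z = z := fun z hz =>
    (Subfield.closure_le (t := RingHom.eqLocusField (σ : Ω →+* Ω) (RingHom.id Ω))).2
      (fun y hy => hfix y hy) hz
  generalize Subfield.closure (T : Set Ω) = K at kx kh fK hsm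
  have alt : ∀ z ∈ K, ν z ≤ 1 → ν z = 1 ∨ ν z ≤ ν η ^ 20 := fun z hz hz1 =>
    hz1.eq_or_lt.imp id (hsm z hz)
  have e0 : 0 < ν η := ν.pos hη0
  have bx : ∀ i, ν (x i) ≤ 1 := fun i => (H.uni.1 i).le
  have ku : x 0 + x 2 + x 4 ∈ K := add_mem (add_mem (kx 0) (kx 2)) (kx 4)
  have kv : x 0 * x 2 + x 0 * x 4 + x 2 * x 4 ∈ K :=
    add_mem (add_mem (mul_mem (kx 0) (kx 2)) (mul_mem (kx 0) (kx 4))) (mul_mem (kx 2) (kx 4))
  have bu : ν (x 0 + x 2 + x 4) ≤ 1 := na_add_le hna (na_add_le hna (bx 0) (bx 2)) (bx 4)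
  have bv : ν (x 0 * x 2 + x 0 * x 4 + x 2 * x 4) ≤ 1 :=
    na_add_le hna (na_add_le hna (x2_mul (bx 0) (bx 2)) (x2_mul (bx 0) (bx 4)))
      (x2_mul (bx 2) (bx 4))
  have fε : σ (η ^ 2) = η ^ 2 := by rw [map_pow, hη, neg_sq]
  obtain ⟨t, ft, hz, hn⟩ := x2_core hna (hL.iso σ hσ) (d := d) e0 hη1 (map_pow ν η 2) (fK _ ku)
    (fK _ kv) fε (fun j => fK _ (hK K kx kh j)) (fun j => hsm _ (hK K kx kh j) (hd j)) bu bv
    (alt _ (add_mem (one_mem K) (mul_mem ku kv)) (na_add_le hna (by simp) (x2_mul bu bv)))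
    (alt _ (add_mem (pow_mem ku 2) kv) (na_add_le hna (x2_pow bu 2) bv))
    (alt _ (mul_mem (ofNat_mem K 2) ku) (x2_mul hL.two.le bu))
  have he : a.F (es x 1 / 4 + η ^ 2) (es x 5 / 4 + t) = 0 :=
    (hF Ω (RingHom.id Ω) (η ^ 2) t).trans hz
  have k4 : (4 : Ω) ∈ K := ofNat_mem K 4
  have nγ : ν γ = 1 := by
    have : ν γ ^ 2 = 1 := by rw [← map_pow, hγ, ν.map_neg, h2]
    exact (pow_eq_one_iff_of_nonneg (ν.nonneg _) two_ne_zero).1 this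
  refine Loc.odd hL hσ (hU σ hσ) hP (fun i => fK _ (kx i)) (fK _ kh) 0 he
    (by rw [map_add, fK _ (div_mem (x2_es K kx 1) k4), fε])
    (by rw [map_add, fK _ (div_mem (x2_es K kx 5) k4), ft]) (β := γ * η)
    (by rw [map_mul, hfix γ mγ, hη, mul_neg]) ?_
  have e3 : ln x h 0 (es x 1 / 4 + η ^ 2) (es x 5 / 4 + t) - (γ * η) ^ 2 =
      t + (η ^ 2) ^ 2 + (x 0 + x 2 + x 4) * η ^ 2 - η ^ 4 + ln x h 0 (es x 1 / 4) (es x 5 / 4) := by
    simp only [ln, Algebra.algebraMap_self, RingHom.id_apply]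
    linear_combination (-η ^ 2) * hγ
  have q : ∀ n : ℕ, 2 < n → ν η ^ n < ν η ^ 2 := fun n hn =>
    pow_lt_pow_right_of_lt_one₀ e0 hη1 hn
  rw [e3, map_mul, nγ, one_mul]
  exact na_add_lt hna (na_sub_lt hna (hn.trans_lt (q 12 (by norm_num)))
    (by rw [map_pow]; exact q 4 (by norm_num)))
    ((hsm _ (x2_ln K kx kh 0) (Pair.line hP H 0)).trans_lt (q 20 (by norm_num)))

end Pool.Agent.Lib.MP_07b2d0_nt.G3
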